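import Pool.Agent.Lib.MP_75a307_lc.LE.Fo

/-! Tuples and countable sets. -/

set_option synthInstance.maxSize 100000
set_option linter.unusedVariables false
set_option linter.unusedSectionVars false

namespace Pool.Agent.Lib.MP_75a307_lc.LE

open Pool.Agent.Lib.MP_1d770b_lc

universe u
variable {M : Type u} {E : M → M → Prop} [hZ : ZF E]

theorem bas_ind (P : M → Prop) [h : Df E fun v => P (v 0)]
    (H : ∀ x, (∀ a b, IsOPair E x a b → P a ∧ P b) → P x) (x : M) : P x := by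
  have h1 := h.d1
  refine (mem_ind E (fun x => P x ∧ ∀ y, E y x → P y) (fun x ih => ⟨H x ?_,
    fun y hy => (ih y hy).1⟩) x).1
  rintro a b ⟨s, t, -, ht, hp⟩
  have k := (ih t ((hp t).2 (Or.inr rfl))).2
  exact ⟨k a ((ht a).2 (Or.inl rfl)), k b ((ht b).2 (Or.inr rfl))⟩

theorem bas_sub {t t' l l' : M} (h : IsTup E t l) (h' : IsTup E t' l') (k : Sub E l l') :
    Sub E t t' := fun x => by
  refine bas_ind (E := E) (fun x => E x t → E x t') (fun x ih hx => (h' x).2 ?_) x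
  exact ((h x).1 hx).imp (k x) fun ⟨a, b, ha, hb, hp⟩ =>
    ⟨a, b, (ih a b hp).1 ha, (ih a b hp).2 hb, hp⟩

theorem bas_uniq {t t' l : M} (h : IsTup E t l) (h' : IsTup E t' l) : t = t' :=
  ext' E fun x => ⟨bas_sub h h' (fun _ k => k) x, bas_sub h' h (fun _ k => k) x⟩

theorem bas_lim {l : M} (hl : IsOrd E l) : ∃ ξ, Lim E ξ ∧ E l ξ :=
  let ⟨ξ, h1, h2, _⟩ := clos E (fun a b => a = b) (fun a h => ⟨a, h, rfl⟩) l hl
  ⟨ξ, h1, h2⟩

theorem bas_ex (l : M) : ∃ t, IsTup E t l := by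
  obtain ⟨α, hα⟩ := ex_rk E l
  obtain ⟨ξ, hξ, k⟩ := bas_lim hα.ord
  obtain ⟨V, hV⟩ := ex_V hξ.1
  obtain ⟨t, ht⟩ := sep E V fun x => ∀ c, Sub E l c →
    (∀ a b p, E a c → E b c → IsOPair E p a b → E p c) → E x c
  have ht' : ∀ x, E x t ↔ ∀ c, Sub E l c →
      (∀ a b p, E a c → E b c → IsOPair E p a b → E p c) → E x c := fun x =>
    (ht x).trans ⟨fun h => h.2, fun h => ⟨h V (fun y hy => (hV y).2 ((hα.lt hξ.1 k).mem hy))
      fun a b p ha hb hp => (hV p).2 (hξ.opair ((hV a).1 ha) ((hV b).1 hb) hp), h⟩⟩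
  have k1 : ∀ x, (E x l ∨ ∃ a b, E a t ∧ E b t ∧ IsOPair E x a b) → E x t := fun x hx =>
    (ht' x).2 fun c h1 h2 => hx.elim (h1 x) fun ⟨a, b, ha, hb, hp⟩ =>
      h2 a b x ((ht' a).1 ha c h1 h2) ((ht' b).1 hb c h1 h2) hp
  obtain ⟨c, hc⟩ := sep E t fun x => E x l ∨ ∃ a b, E a t ∧ E b t ∧ IsOPair E x a b
  refine ⟨t, fun x => ⟨fun hx => ((hc x).1 ((ht' x).1 hx c (fun y hy => ?_)
    fun a b p ha hb hp => ?_)).2, k1 x⟩⟩
  · exact (hc y).2 ⟨k1 y (Or.inl hy), Or.inl hy⟩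
  · have : E p l ∨ ∃ a b, E a t ∧ E b t ∧ IsOPair E p a b :=
      Or.inr ⟨a, b, ((hc a).1 ha).1, ((hc b).1 hb).1, hp⟩
    exact (hc p).2 ⟨k1 p this, this⟩

theorem tup_spec (l : M) : IsTup E (tup E l) l := by
  obtain ⟨t, ht⟩ := bas_ex (E := E) l
  rw [tup, the_eq (P := fun t => IsTup E t l) ht fun _ h => bas_uniq h ht]
  exact ht

theorem IsTup.eq {t l : M} (h : IsTup E t l) : t = tup E l := bas_uniq h (tup_spec l)

theorem tup_iff {l x : M} : Tup E l x ↔ E x (tup E l) :=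
  ⟨fun ⟨_, h, k⟩ => h.eq ▸ k, fun h => ⟨_, tup_spec l, h⟩⟩

theorem tup_ind (l : M) (P : M → Prop) [Df E fun v => P (v 0)] (h0 : ∀ x, E x l → P x)
    (h1 : ∀ a b, E a (tup E l) → E b (tup E l) → P a → P b → P (pr E a b)) :
    ∀ x, E x (tup E l) → P x := fun x => by
  have := (inferInstance : Df E fun v => P (v 0)).d1
  refine bas_ind (E := E) (fun x => E x (tup E l) → P x) (fun x ih hx => ?_) x
  rcases (tup_spec l x).1 hx with k | ⟨a, b, ha, hb, hp⟩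
  · exact h0 x k
  · exact pr_eq.1 hp ▸ h1 a b ha hb ((ih a b hp).1 ha) ((ih a b hp).2 hb)

theorem sub_tup {l x : M} (h : E x l) : E x (tup E l) := (tup_spec l x).2 (Or.inl h)

theorem pr_not_ord (a b : M) : ¬ IsOrd E (pr E a b) := fun h => by
  obtain ⟨s, t, hs, ht, hp⟩ := pr_spec (E := E) a b
  rcases (hp a).1 (h.tr ((hp s).2 (Or.inl rfl)) ((hs a).2 (Or.inl rfl))) with e | e
  · exact no1 (a := a) (by have := (hs a).2 (Or.inl rfl); rwa [← e] at this)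
  · exact no1 (a := a) (by have := (ht a).2 (Or.inl rfl); rwa [← e] at this)

theorem tup_pr {l a b : M} (hl : IsOrd E l) :
    E (pr E a b) (tup E l) ↔ E a (tup E l) ∧ E b (tup E l) := by
  refine (tup_spec l _).trans ⟨fun h => ?_, fun h => Or.inr ⟨a, b, h.1, h.2, pr_spec a b⟩⟩
  rcases h with h | ⟨c, d, hc, hd, hp⟩
  · exact (pr_not_ord a b (hl.mem h)).elim
  · obtain ⟨rfl, rfl⟩ := (pr_spec a b).inj hp
    exact ⟨hc, hd⟩

theorem tup_ord {l x : M} (hx : E x (tup E l)) (ho : IsOrd E x) : E x l :=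
  ((tup_spec l x).1 hx).resolve_right fun ⟨a, b, _, _, hp⟩ => pr_not_ord a b (pr_eq.1 hp ▸ ho)

theorem tup_mono {l l' : M} (h : Sub E l l') : Sub E (tup E l) (tup E l') :=
  bas_sub (tup_spec l) (tup_spec l') h

theorem tup_rk {l ξ x : M} (hξ : Lim E ξ) (hl : Sub E l ξ) (hx : E x (tup E l)) : Rk E x ξ :=
  tup_ind l (fun x => Rk E x ξ) (fun y hy => hξ.1.rk (hl y hy))
    (fun a b _ _ ha hb => hξ.opair ha hb (pr_spec a b)) x hx

theorem at_iff {S κ l p : M} : At E S κ l p ↔ E (pr E (pr E κ l) p) S :=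
  ⟨fun ⟨_, h, k⟩ => app_iff.1 (pr_eq.1 h ▸ k), fun h => ⟨_, pr_spec κ l, app_iff.2 h⟩⟩

theorem tr3_iff {G a b R : M} : Tr3 E G a b R ↔ E (pr E a (pr E b R)) G :=
  ⟨fun ⟨_, h, k⟩ => app_iff.1 (pr_eq.1 h ▸ k), fun h => ⟨_, pr_spec b R, app_iff.2 h⟩⟩

theorem thr_iff {H σ : M} : Thr E H σ ↔ Fn E σ ∧ ∀ a b R, Tr3 E H a b R →
    ∃ s, App E σ a s ∧ ∃ u, App E σ b u ∧ App E R s u :=
  and_congr_right fun _ => ⟨fun h a b R ⟨q, h1, h2⟩ => h a q h2 b R h1,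
    fun h a q h2 b R h1 => h a b R ⟨q, h1, h2⟩⟩

theorem isW_iff {w : M} : IsW E w ↔ IsOmega E w := by
  have key : ∀ w, IsOmega E w → IsW E w := fun w hw => by
    refine ⟨hw.lim, ⟨_, hw.emp emp_spec⟩, fun y hy ⟨k, z, hz⟩ => ?_⟩
    rcases hw.cases hy with e | ⟨m, -, e⟩
    · exact e z hz
    · obtain ⟨β, h1, h2⟩ := k.2 m e.self
      exact Le.not_lt ((e β).1 h1) h2
  refine ⟨fun h => ?_, key w⟩
  obtain ⟨w', hw'⟩ := ex_omega E
  have h' := key w' hw'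
  rcases h.1.1.tri h'.1.1 with k | k | k
  · exact (h'.2.2 w k ⟨h.1, h.2.1⟩).elim
  · exact k ▸ hw'
  · exact (h.2.2 w' k ⟨h'.1, h'.2.1⟩).elim

theorem bas_out {H w : M} (h : Ctb E Set.univ H) (hw : IsOmega E w) :
    ∃ f, Fn E f ∧ ∀ t, E t H → ∃ n, E n w ∧ App E f n t := by
  obtain ⟨f, -, h1, w', -, h2, h3⟩ := h
  exact ⟨f, h1, (isW_iff.1 h2).uniq hw ▸ h3⟩

theorem bas_mk {H w : M} (hw : IsOmega E w) (P : M → M → Prop) [Df E fun v => P (v 0) (v 1)]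
    (u : ∀ n y y', E n w → P n y → P n y' → y = y') (k : ∀ t, E t H → ∃ n, E n w ∧ P n t) :
    Ctb E Set.univ H := by
  obtain ⟨r, -, hr⟩ := ex_fun E w P u
  exact ⟨r, trivial, fun n a b ha hb => u n a b ((hr n a).1 ha).1 ((hr n a).1 ha).2
    ((hr n b).1 hb).2, w, trivial, isW_iff.2 hw,
    fun t ht => (k t ht).imp fun n h => ⟨h.1, (hr n t).2 h⟩⟩

theorem Ctb.sub {H H' : M} (h : Ctb E Set.univ H) (k : Sub E H' H) : Ctb E Set.univ H' :=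
  let ⟨f, a, h1, w, b, h2, h3⟩ := h
  ⟨f, a, h1, w, b, h2, fun t ht => h3 t (k t ht)⟩

theorem bas_ins {H H' x : M} (h : Ctb E Set.univ H) (k : ∀ t, E t H' → E t H ∨ t = x) :
    Ctb E Set.univ H' := by
  obtain ⟨w, hw⟩ := ex_omega E
  obtain ⟨f, h1, h2⟩ := bas_out h hw
  refine bas_mk hw (fun n y => (IsEmp E n ∧ y = x) ∨ ∃ m, IsSuc E n m ∧ App E f m y) ?_
    fun t ht => ?_
  · rintro n y y' - (⟨a, rfl⟩ | ⟨m, a, b⟩) (⟨c, rfl⟩ | ⟨m', c, d⟩)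
    · rfl
    · exact (a _ c.self).elim
    · exact (c _ a.self).elim
    · exact h1 m _ _ b (c.inj a ▸ d)
  · rcases k t ht with e | e
    · obtain ⟨m, a, b⟩ := h2 t e
      obtain ⟨n, hn⟩ := ex_suc E m
      exact ⟨n, hw.suc hn a, Or.inr ⟨m, hn, b⟩⟩
    · exact ⟨_, hw.emp emp_spec, Or.inl ⟨emp_spec, e⟩⟩

theorem ctb_list (L : List M) : ∃ H, Ctb E Set.univ H ∧ ∀ t, E t H ↔ t ∈ L := by
  induction L with
  | nil =>
    obtain ⟨w, hw⟩ := ex_omega E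
    exact ⟨emp E, bas_mk hw (fun n y => n = y) (fun _ _ _ _ a b => a.symm.trans b)
      fun t ht => (emp_spec t ht).elim, fun t => ⟨fun h => (emp_spec t h).elim, nofun⟩⟩
  | cons x L ih =>
    obtain ⟨H, h1, h2⟩ := ih
    obtain ⟨H', h3⟩ := ex_ins E H x
    exact ⟨H', bas_ins h1 fun t => (h3 t).1, fun t => by rw [h3, h2, List.mem_cons, or_comm]⟩

theorem Ctb.img {H H' : M} (h : Ctb E Set.univ H) (P : M → M → Prop) [Df E fun v => P (v 0) (v 1)]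
    (u : ∀ x y y', E x H → P x y → P x y' → y = y') (k : ∀ y, E y H' → ∃ x, E x H ∧ P x y) :
    Ctb E Set.univ H' := by
  have := (inferInstance : Df E fun v => P (v 0) (v 1)).d2
  obtain ⟨w, hw⟩ := ex_omega E
  obtain ⟨f, h1, h2⟩ := bas_out h hw
  refine bas_mk hw (fun n y => ∃ x, App E f n x ∧ E x H ∧ P x y) ?_ fun t ht => ?_
  · rintro n y y' - ⟨x, a, b, c⟩ ⟨x', a', -, c'⟩
    exact u x y y' b c (h1 n _ _ a' a ▸ c')
  · obtain ⟨x, a, b⟩ := k t ht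
    obtain ⟨n, c, d⟩ := h2 x a
    exact ⟨n, c, x, d, a, b⟩

/-- iteration of a definable function along `ω` -/
theorem bas_iter {w : M} (hw : IsOmega E w) (S : M → M → Prop) [h : Df E fun v => S (v 0) (v 1)]
    (fn : ∀ x y y', S x y → S x y' → y = y') (x0 : M) :
    ∃ f, Fn E f ∧ (∀ e, IsEmp E e → App E f e x0) ∧ (∀ n y, App E f n y → E n w) ∧
      ∀ n s y y', App E f n y → IsSuc E s n → S y y' → App E f s y' := by
  have h2 := h.d2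
  let T : M → M → M → Prop := fun f n y => ((¬ ∃ m, IsSuc E n m) ∧ y = x0) ∨
    ∃ m z, IsSuc E n m ∧ App E f m z ∧ (S z y ∨ ((¬ ∃ u, S z u) ∧ y = z))
  have k : RecOK E (IsOrd E) E T :=
    { wfOrd E with
      dS := fun _ _ _ _ _ _ => by simp only [T]; infer_instance
      inv := fun f g x y _ H hS => hS.imp_right fun ⟨m, z, a, b, c⟩ =>
        ⟨m, z, a, (H m a.self z).1 b, c⟩
      ex := fun f x _ H => by
        by_cases a : ∃ m, IsSuc E x m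
        · obtain ⟨m, a⟩ := a
          obtain ⟨z, b, -⟩ := H m a.self
          by_cases c : ∃ u, S z u
          · obtain ⟨u, c⟩ := c
            exact ⟨u, Or.inr ⟨m, z, a, b, Or.inl c⟩⟩
          · exact ⟨z, Or.inr ⟨m, z, a, b, Or.inr ⟨c, rfl⟩⟩⟩
        · exact ⟨x0, Or.inl ⟨a, rfl⟩⟩
      uniq := by
        rintro f x y y' - H (⟨a, rfl⟩ | ⟨m, z, a, b, c⟩) (⟨a', rfl⟩ | ⟨m', z', a', b', c'⟩)
        · rfl
        · exact (a ⟨_, a'⟩).elim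
        · exact (a' ⟨_, a⟩).elim
        · obtain rfl := a.inj a'
          obtain rfl := (H m a.self).unique b b'
          rcases c with c | c <;> rcases c' with c' | c'
          exacts [fn _ _ _ c c', (c'.1 ⟨_, c⟩).elim, (c.1 ⟨_, c'⟩).elim, c.2.trans c'.2.symm] }
  have := k.dRec
  obtain ⟨f, -, hf⟩ := ex_fun E w (Rec E (IsOrd E) E T) fun x y y' _ a b => k.fn a b
  refine ⟨f, fun n a b ha hb => k.fn ((hf n a).1 ha).2 ((hf n b).1 hb).2, fun e he => ?_,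
    fun n y a => ((hf n y).1 a).1, fun n s y y' a b c => ?_⟩
  · obtain ⟨y, hy⟩ := k.total he.ord
    obtain ⟨g, -, ⟨-, rfl⟩ | ⟨m, z, a, -⟩⟩ := k.elim hy
    · exact (hf e y).2 ⟨hw.emp he, hy⟩
    · exact (he _ a.self).elim
  · obtain ⟨a1, a2⟩ := (hf n y).1 a
    obtain ⟨u, hu⟩ := k.total (b.ord a2.dom)
    obtain ⟨g, hg, ⟨d, -⟩ | ⟨m, z, d1, d2, d3⟩⟩ := k.elim hu
    · exact (d ⟨_, b⟩).elim
    · obtain rfl := b.inj d1
      obtain rfl := k.fn a2 ((hg n b.self z).1 d2)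
      obtain rfl := fn _ _ _ c (d3.resolve_right fun e => e.1 ⟨_, c⟩)
      exact (hf s y').2 ⟨hw.suc b a1, hu⟩

/-- an enumeration of the pairs of natural numbers -/
theorem bas_sq {w : M} (hw : IsOmega E w) : ∃ e, Fn E e ∧ ∀ a b, E a w → E b w →
    ∃ k, E k w ∧ ∃ p, App E e k p ∧ IsOPair E p a b := by
  let N : M → M → M → M → Prop := fun a b a' b' => (IsSuc E a' a ∧ E a' b ∧ b' = b) ∨
    (IsSuc E b a ∧ a' = b ∧ IsEmp E b') ∨ (E b a ∧ a' = a ∧ IsSuc E b' b) ∨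
    (a = b ∧ IsEmp E a' ∧ IsSuc E b' b)
  have hN : ∀ a b c d c' d', N a b c d → N a b c' d' → c = c' ∧ d = d' := by
    rintro a b c d c' d' (⟨x, y, rfl⟩ | ⟨x, rfl, y⟩ | ⟨x, rfl, y⟩ | ⟨rfl, x, y⟩)
      (⟨x', y', rfl⟩ | ⟨x', rfl, y'⟩ | ⟨x', rfl, y'⟩ | ⟨e, x', y'⟩)
    all_goals first
      | exact ⟨x.uniq x', rfl⟩ | exact ⟨rfl, y.uniq y'⟩ | exact ⟨x.uniq x', y.uniq y'⟩
      | exact (no1 (x.uniq x' ▸ y)).elim | exact (no1 (x'.uniq x ▸ y')).elim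
      | exact (no3 x.self y x').elim | exact (no3 x'.self y' x).elim
      | exact (no2 x.self (e ▸ y)).elim | exact (no2 x'.self y').elim
      | exact (no2 x.self x').elim | exact (no2 x'.self x).elim
      | exact (no1 (e ▸ x.self)).elim | exact (no1 x'.self).elim
      | exact (no1 (e ▸ x)).elim | exact (no1 x').elim
  obtain ⟨e, h1, h2, h3, h4⟩ := bas_iter hw (fun p p' => ∃ a b, IsOPair E p a b ∧
    ∃ a' b', IsOPair E p' a' b' ∧ N a b a' b') (h := by simp only [N]; infer_instance)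
    (fun p q q' ⟨a, b, x, c, d, y, z⟩ ⟨a', b', x', c', d', y', z'⟩ => by
      obtain ⟨rfl, rfl⟩ := x.inj x'
      obtain ⟨rfl, rfl⟩ := hN _ _ _ _ _ _ z z'
      exact y.uniq y') (pr E (emp E) (emp E))
  obtain ⟨R, hR⟩ : ∃ R : M → M → Prop,
    R = fun a b => ∃ k, E k w ∧ ∃ p, App E e k p ∧ IsOPair E p a b := ⟨_, rfl⟩
  have dR : D2 E R := fun _ _ _ _ => by subst hR; infer_instance
  have c : ∀ a b a' b', R a b → N a b a' b' → R a' b' := by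
    subst hR
    rintro a b a' b' ⟨k, x, p, y, z⟩ u
    obtain ⟨s, hs⟩ := ex_suc E k
    exact ⟨s, hw.suc hs x, _, h4 k s p _ y hs ⟨a, b, z, a', b', pr_spec a' b', u⟩, pr_spec a' b'⟩
  have key : ∀ m, E m w → ∀ a, Le E a m → R a m ∧ R m a := fun m hm => by
    refine hw.ind (fun m => ∀ a, Le E a m → R a m ∧ R m a) (fun z hz a ha => ?_)
      (fun m s hm hs ih a ha => ?_) m hm
    · obtain rfl := ha.resolve_left (hz a)
      obtain rfl := hz.uniq emp_spec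
      have : R (emp E) (emp E) := hR ▸ ⟨_, hw.emp hz, _, h2 _ hz, pr_spec _ _⟩
      exact ⟨this, this⟩
    · have sw := hw.suc hs hm
      have so := hw.ord.mem sw
      have A : ∀ a, E a s → R a s := fun a ha => hw.ind (fun a => E a s → R a s)
        (fun z hz _ => c _ _ _ _ (ih m (Or.inr rfl)).1 (Or.inr (Or.inr (Or.inr ⟨rfl, hz, hs⟩))))
        (fun a a' _ x y z => c _ _ _ _ (y (so.tr z x.self)) (Or.inl ⟨x, z, rfl⟩))
        a (hw.ord.tr sw ha) ha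
      have B : ∀ a, Le E a s → R s a := fun a ha => hw.ind (fun a => Le E a s → R s a)
        (fun z hz _ => c _ _ _ _ (A m hs.self) (Or.inr (Or.inl ⟨hs, rfl, hz⟩)))
        (fun a a' _ x y z => c _ _ _ _ (y (Or.inl (z.sub so a x.self)))
          (Or.inr (Or.inr (Or.inl ⟨z.sub so a x.self, rfl, x⟩)))) a (ha.lt hw.ord sw) ha
      exact ⟨ha.elim (A a) fun x => x ▸ B a ha, B a ha⟩
  refine ⟨e, h1, fun a b ha hb => ?_⟩
  have : R a b := by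
    rcases (hw.ord.mem ha).tri (hw.ord.mem hb) with x | x | x
    exacts [(key b hb a (Or.inl x)).1, (key b hb a (Or.inr x)).1, (key a ha b (Or.inl x)).2]
  subst hR
  exact this

theorem ctb_union (hC : Choice E) {I : M} (hI : Ctb E Set.univ I) (P : M → M → Prop)
    [Df E fun v => P (v 0) (v 1)] (H : ∀ i, E i I → ∃ d, Ctb E Set.univ d ∧ ∀ z, P i z → E z d) :
    ∃ U, Ctb E Set.univ U ∧ ∀ z, E z U ↔ ∃ i, E i I ∧ P i z := by
  have := (inferInstance : Df E fun v => P (v 0) (v 1)).d2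
  obtain ⟨w, hw⟩ := ex_omega E
  obtain ⟨e, e1, e2⟩ := bas_sq hw
  obtain ⟨f, f1, f2⟩ := bas_out hI hw
  obtain ⟨F, -, g1, g2, g3⟩ := ac hC I fun i g => Fn E g ∧ ∀ z, P i z → ∃ n, E n w ∧ App E g n z
  let Q : M → M → Prop := fun k z => ∃ p, App E e k p ∧ ∃ n m, IsOPair E p n m ∧
    ∃ i, App E f n i ∧ ∃ g, App E F i g ∧ App E g m z
  have dQ : Df E fun v => Q (v 0) (v 1) := by simp only [Q]; infer_instance
  have u : ∀ k y y', E k w → Q k y → Q k y' → y = y' := by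
    rintro k y y' - ⟨p, a1, n, m, a2, i, a3, g, a4, a5⟩ ⟨p', b1, n', m', b2, i', b3, g', b4, b5⟩
    obtain rfl := e1 _ _ _ a1 b1
    obtain ⟨rfl, rfl⟩ := a2.inj b2
    obtain rfl := f1 _ _ _ a3 b3
    obtain rfl := g1 _ _ _ a4 b4
    exact (g2 _ _ a4).2.1 _ _ _ a5 b5
  have k : ∀ z, (∃ i, E i I ∧ P i z) → ∃ k, E k w ∧ Q k z := fun z ⟨i, hi, hz⟩ => by
    obtain ⟨n, a1, a2⟩ := f2 i hi
    obtain ⟨d, d1, d2⟩ := H i hi
    obtain ⟨g0, d3, d4⟩ := bas_out d1 hw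
    obtain ⟨g, a3⟩ := g3 i hi ⟨g0, d3, fun z hz => d4 z (d2 z hz)⟩
    obtain ⟨m, a4, a5⟩ := (g2 i g a3).2.2 z hz
    obtain ⟨k, a6, p, a7, a8⟩ := e2 n m a1 a4
    exact ⟨k, a6, p, a7, n, m, a8, i, a2, g, a3, a5⟩
  obtain ⟨b, hb⟩ := repl E w Q u
  obtain ⟨U, hU⟩ := sep E b fun z => ∃ i, E i I ∧ P i z
  exact ⟨U, bas_mk hw Q u fun t ht => k t ((hU t).1 ht).2,
    fun z => (hU z).trans ⟨fun h => h.2, fun h => ⟨(hb z).2 (k z h), h⟩⟩⟩

theorem ctb_clos (hC : Choice E) {X H : M} (hH : Ctb E Set.univ H) (hX : Sub E H X)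
    (P : M → M → Prop) [Df E fun v => P (v 0) (v 1)]
    (k : ∀ x, E x X → ∃ d, Ctb E Set.univ d ∧ Sub E d X ∧ ∀ z, P x z → E z d) :
    ∃ Y, Ctb E Set.univ Y ∧ Sub E H Y ∧ Sub E Y X ∧ ∀ x, E x Y → ∀ z, P x z → E z Y := by
  have := (inferInstance : Df E fun v => P (v 0) (v 1)).d2
  obtain ⟨w, hw⟩ := ex_omega E
  obtain ⟨f, h1, h2, h3, h4⟩ := bas_iter hw
    (fun y y' => ∀ z, E z y' ↔ ∃ x, E x y ∧ (z = x ∨ P x z))
    (fun _ _ _ a b => ext' E fun z => (a z).trans (b z).symm) H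
  have st : ∀ y, Ctb E Set.univ y → Sub E y X → ∃ y', (Ctb E Set.univ y' ∧ Sub E y' X) ∧
      ∀ z, E z y' ↔ ∃ x, E x y ∧ (z = x ∨ P x z) := fun y a b => by
    obtain ⟨U, c, d⟩ := ctb_union hC a (fun x z => z = x ∨ P x z) fun x hx => by
      obtain ⟨d, d1, -, d2⟩ := k x (b x hx)
      obtain ⟨d', d3⟩ := ex_ins E d x
      exact ⟨d', bas_ins d1 fun t => (d3 t).1, fun z hz => (d3 z).2 (hz.symm.imp_left (d2 z))⟩
    refine ⟨U, ⟨c, fun z hz => ?_⟩, d⟩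
    obtain ⟨x, hx, rfl | e⟩ := (d z).1 hz
    · exact b _ hx
    · obtain ⟨d, -, d1, d2⟩ := k x (b x hx)
      exact d1 z (d2 z e)
  have key : ∀ n, E n w → ∃ y, App E f n y ∧ Ctb E Set.univ y ∧ Sub E y X := fun n hn =>
    hw.ind (fun n => ∃ y, App E f n y ∧ Ctb E Set.univ y ∧ Sub E y X)
      (fun e he => ⟨H, h2 e he, hH, hX⟩) (fun n s _ hs ⟨y, a, b, c⟩ =>
        let ⟨y', d, e⟩ := st y b c; ⟨y', h4 n s y y' a hs e, d⟩) n hn
  have key' : ∀ n y, App E f n y → Ctb E Set.univ y ∧ Sub E y X := fun n y a =>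
    let ⟨_, b, c⟩ := key n (h3 n y a); h1 _ _ _ b a ▸ c
  obtain ⟨Y, a, b⟩ := ctb_union hC (bas_mk (H := w) hw (fun n y => n = y)
    (fun _ _ _ _ a b => a.symm.trans b) fun t ht => ⟨t, ht, rfl⟩)
    (fun n z => ∃ y, App E f n y ∧ E z y) fun n hn =>
      let ⟨y, c, d, _⟩ := key n hn; ⟨y, d, fun z ⟨_, e, e'⟩ => h1 _ _ _ e c ▸ e'⟩
  refine ⟨Y, a, fun z hz => (b z).2 ⟨_, hw.emp emp_spec, H, h2 _ emp_spec, hz⟩, fun z hz => ?_,
    fun x hx z hz => ?_⟩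
  · obtain ⟨n, -, y, c, d⟩ := (b z).1 hz
    exact (key' n y c).2 z d
  · obtain ⟨n, hn, y, c, d⟩ := (b x).1 hx
    obtain ⟨s, hs⟩ := ex_suc E n
    obtain ⟨y', -, e⟩ := st y (key' n y c).1 (key' n y c).2
    exact (b z).2 ⟨s, hw.suc hs hn, y', h4 n s y y' c hs e, (e z).2 ⟨x, d, Or.inr hz⟩⟩

/-- finitely many members of a countably complete system have a common thread -/
theorem CC.list {T : M → M → M → Prop} (h : CC E Set.univ T) (L : List (M × M × M))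
    (k : ∀ x ∈ L, T x.1 x.2.1 x.2.2) :
    ∃ σ : M → M, ∀ x ∈ L, App E x.2.2 (σ x.1) (σ x.2.1) := by
  obtain ⟨H, h1, h2⟩ := ctb_list (E := E) (L.map fun x => pr E x.1 (pr E x.2.1 x.2.2))
  obtain ⟨σ, -, hσ⟩ := h H trivial h1 fun t ht => by
    obtain ⟨x, hx, rfl⟩ := List.mem_map.1 ((h2 t).1 ht)
    exact ⟨_, _, pr_spec _ _, _, _, pr_spec _ _, k x hx⟩
  obtain ⟨h3, h4⟩ := thr_iff.1 hσ
  refine ⟨ap E σ, fun x hx => ?_⟩
  obtain ⟨s, a, u, b, c⟩ := h4 _ _ _ (tr3_iff.2 ((h2 _).2 (List.mem_map.2 ⟨x, hx, rfl⟩)))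
  rwa [ap_eq h3 a, ap_eq h3 b]

/-- the least limit ordinal above `l` -/
theorem ex_next_lim {l : M} (hl : IsOrd E l) :
    ∃ ξ, Lim E ξ ∧ E l ξ ∧ ∀ η, E η ξ → E l η → ¬ Lim E η := by
  obtain ⟨ξ, h⟩ := bas_lim hl
  obtain ⟨ξ, -, h1, h2⟩ := ord_min (fun ξ => Lim E ξ ∧ E l ξ) h.1.1 h
  exact ⟨ξ, h1.1, h1.2, fun η a b c => h2 η a ⟨c, b⟩⟩

end Pool.Agent.Lib.MP_75a307_lc.LE
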