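import Pool.Agent.Lib.MP_75a307_lc.LE.Tree

/-! Derived extenders in first-order form. -/

set_option synthInstance.maxSize 100000
set_option linter.unusedVariables false
set_option linter.unusedSectionVars false

namespace Pool.Agent.Lib.MP_75a307_lc.LE

open Pool.Agent.Lib.MP_1d770b_lc

universe u
variable {M : Type u} {E : M → M → Prop} [hZ : ZF E]

variable {j : M → M} {W : Set M} {κ l F S : M}

/-- `F` is the extender of length `l` derived from `j` -/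
structure BrA (E : M → M → Prop) [ZF E] (j : M → M) (W : Set M) (κ l F : M) : Prop where
  ac : Choice E
  emb : ElEmb E j W κ
  ord : IsOrd E l
  lt : E κ l
  le : Sub E l (j κ)
  mem : ∀ p, E p F ↔ ∃ a X, IsOPair E p a X ∧ E a (tup E l) ∧ Sub E X (tup E κ) ∧ E a (j X)

theorem brA_rel {R : M} (h : Rel E (tup E κ) R) : Sub E R (tup E κ) := fun p hp =>
  let ⟨s, t, h1, h2, h3⟩ := h p hp
  (tup_spec κ p).2 (Or.inr ⟨s, t, h2, h3, h1⟩)

namespace BrA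

variable (h : BrA E j W κ l F) {a b X R : M}
include h

theorem elW : ElW E Set.univ W j := h.emb.el.elW h.ac

theorem jK : j (tup E κ) = tup E (j κ) := h.elW.tup trivial

theorem sub (ha : E a (tup E l)) : E a (j (tup E κ)) := h.jK ▸ tup_mono h.le a ha

theorem fix (ha : E a (tup E κ)) : j a = a := h.elW.fixT h.emb.ord h.emb.fix ha

theorem leN (ha : Le E a κ) : E a (tup E l) := sub_tup (ha.lt h.ord h.lt)

theorem app : App E F a X ↔ E a (tup E l) ∧ Sub E X (tup E κ) ∧ E a (j X) := by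
  rw [app_iff, h.mem]
  refine ⟨fun ⟨a', X', h1, h2⟩ => ?_, fun k => ⟨a, X, pr_spec a X, k⟩⟩
  obtain ⟨rfl, rfl⟩ := (pr_spec a X).inj h1
  exact h2

theorem bin (ha : E a (tup E l)) (hb : E b (tup E l)) (hR : Rel E (tup E κ) R) :
    At E F a b R ↔ App E (j R) a b := by
  refine ⟨fun ⟨q, h1, h2⟩ => ⟨q, h1, (h.app.1 h2).2.2⟩, fun k => ⟨_, pr_spec a b, h.app.2
    ⟨(tup_pr h.ord).2 ⟨ha, hb⟩, brA_rel hR, app_iff.1 k⟩⟩⟩

theorem real : Real E (tup E κ) (tup E l) (BinF E F (tup E κ) (tup E l)) j W id :=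
  ⟨h.emb.el, fun s t _ _ => inferInstanceAs (Df E fun v => s v = t v), fun _ => h.sub,
    fun a b R ha hb hR => ⟨fun k => (h.bin ha hb hR).1 k.2.2.2,
      fun k => ⟨ha, hb, hR, (h.bin ha hb hR).2 k⟩⟩⟩

section
variable (P : Set M → M → M → M → M → Prop)
  [d : ∀ i k m n, RD E (Good E) fun W v => P W (v i) (v k) (v m) (v n)] (x y : M)

theorem exR : ∃ R, Rel E (tup E κ) R ∧
    ∀ s t, App E R s t ↔ E s (tup E κ) ∧ E t (tup E κ) ∧ P Set.univ s t x y := by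
  have d1 : Df E fun v => P Set.univ (v 0) (v 1) x y :=
    ((d 0 1 2 3).df good_univ).subst
      (fun i => match i with | 0 => fun v => v 0 | 1 => fun v => v 1 | 2 => fun _ => x
                             | _ + 3 => fun _ => y) fun i => match i with
      | 0 => inferInstance | 1 => inferInstance | 2 => inferInstance | _ + 3 => inferInstance
  obtain ⟨R, h1, h2⟩ := ex_rel E (tup E κ) (tup E κ) fun s t => P Set.univ s t x y
  exact ⟨R, fun p hp => let ⟨s, t, k1, k2, k3, _⟩ := (h1 p).1 hp; ⟨s, t, k3, k1, k2⟩, h2⟩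

theorem up (ha : E a (tup E l)) (hb : E b (tup E l))
    (k : ∀ s, E s (tup E κ) → ∀ t, E t (tup E κ) → P Set.univ s t x y → App E R s t)
    (p : P W a b (j x) (j y)) : App E (j R) a b :=
  (h.emb.el.tr4 (fun W K R x y => ∀ s, E s K → ∀ t, E t K → P W s t x y → App E R s t)
    _ R x y).1 k a (h.sub ha) b (h.sub hb) p

theorem dn (k : ∀ s t, App E R s t → P Set.univ s t x y) (p : App E (j R) a b) :
    P W a b (j x) (j y) :=
  (h.emb.el.tr3 (fun W R x y => ∀ s t, App E R s t → P W s t x y) R x y).1 k a b p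

theorem aa (ha : E a (tup E l)) (hb : E b (tup E l)) :
    Aa E Set.univ F (tup E κ) a b (fun s t => P Set.univ s t x y) ↔ P W a b (j x) (j y) := by
  refine ⟨fun k => ?_, fun p R _ hR k => (h.bin ha hb hR).2 (h.up P x y ha hb k p)⟩
  obtain ⟨R, h1, h2⟩ := h.exR P x y
  exact h.dn P x y (fun s t m => ((h2 s t).1 m).2.2)
    ((h.bin ha hb h1).1 (k R trivial h1 fun s m t n o => (h2 s t).2 ⟨m, n, o⟩))

theorem ae (ha : E a (tup E l)) (hb : E b (tup E l)) :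
    Ae E Set.univ F (tup E κ) a b (fun s t => P Set.univ s t x y) ↔ P W a b (j x) (j y) := by
  refine ⟨fun ⟨R, _, hR, k1, k2⟩ => h.dn P x y k2 ((h.bin ha hb hR).1 k1), fun p => ?_⟩
  obtain ⟨R, h1, h2⟩ := h.exR P x y
  exact ⟨R, trivial, h1, (h.bin ha hb h1).2
    (h.up P x y ha hb (fun s m t n o => (h2 s t).2 ⟨m, n, o⟩) p), fun s t m => ((h2 s t).1 m).2.2⟩
end

theorem nrm : Nrm E Set.univ κ l (tup E κ) (tup E l) F := by
  refine ⟨fun p hp a b e => ?_, fun a ha => ⟨?_, fun b hb => ?_⟩, fun a ha c hc f _ _ _ k => ?_,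
    fun a ha => ?_, fun a ha X _ hX => ⟨fun k => ?_, fun k => ?_⟩⟩
  · have k := (tup_pr h.ord).1 (pr_eq.1 e ▸ hp)
    exact ⟨(h.aa (fun _ q s _ _ => ∃ x y, IsOPair E q x y ∧ x = s) κ κ hp k.1).2 ⟨a, b, e, rfl⟩,
      (h.aa (fun _ q t _ _ => ∃ x y, IsOPair E q x y ∧ y = t) κ κ hp k.2).2 ⟨a, b, e, rfl⟩⟩
  · exact (h.aa (fun _ s _ x _ => E s x) κ κ (sub_tup ha) (sub_tup ha)).2 (h.le a ha)
  · exact (h.aa (fun _ s t _ _ => E s t) κ κ (sub_tup (h.ord.tr ha hb)) (sub_tup ha)).2 hb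
  · obtain ⟨b, k1, k2⟩ :=
      (h.ae (fun _ s t f _ => ∃ y, App E f s y ∧ E y t) f f hc (sub_tup ha)).1 k
    exact ⟨b, k2, (h.aa (fun _ s t f _ => App E f s t) f f hc (sub_tup (h.ord.tr ha k2))).2 k1⟩
  · exact (h.aa (fun _ s _ x _ => s = x) a a (h.leN (Or.inl ha)) (h.leN (Or.inl ha))).2
      (h.emb.fix a ha).symm
  · exact (h.aa (fun _ s _ x _ => E s x) X X ha ha).2 (h.app.1 k).2.2
  · exact h.app.2 ⟨ha, hX, (h.ae (fun _ s _ x _ => E s x) X X ha ha).1 k⟩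

theorem px {κ' l' q p t : M} (hκ : Le E κ' κ) (ht : IsTup E t κ') (hX : Sub E X t)
    (hq : IsOPair E q κ' l') (hp : IsOPair E p a X) :
    PX E W (j S) (j X) q a ↔ At E (j S) κ' l' p := by
  obtain rfl := ht.eq
  have f : ∀ z, E z (tup E κ') → j z = z := fun z hz =>
    h.fix (tup_mono (hκ.sub h.emb.ord) z hz)
  constructor
  · rintro ⟨u, v, h1, p', -, h2, _, Y, h3, rfl, t, -, h4, h5, h6⟩
    obtain ⟨rfl, rfl⟩ := hq.inj h1
    obtain rfl := h4.eq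
    obtain rfl : Y = X := ext' E fun z => ⟨fun m => h.emb.el.mem_iff.1
      ((f z (h5 z m).2).symm ▸ (h5 z m).1), fun m => h6 z
        (f z (hX z m) ▸ h.emb.el.mem_iff.2 m) (hX z m)⟩
    exact h3.uniq hp ▸ h2
  · intro k
    obtain ⟨q', k1, k2⟩ := id k
    exact ⟨κ', l', hq, p, (h.emb.el.trans.app (h.emb.maps S) k2).2, k, a, X, hp, rfl, _,
      h.elW.inn'.tup (h.emb.el.ord_mem (hκ.ord h.emb.ord)), ht,
      fun z m => ⟨f z (hX z m) ▸ h.emb.el.mem_iff.2 m, hX z m⟩,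
      fun z m n => h.emb.el.mem_iff.1 ((f z n).symm ▸ m)⟩

end BrA

theorem ext1_der (hC : Choice E) (h : ElEmb E j W κ) (ho : IsOrd E l) (hκ : E κ l)
    (hl : Sub E l (j κ)) (hF : ∀ p, E p F ↔ ∃ a X, IsOPair E p a X ∧ E a (tup E l) ∧
      Sub E X (tup E κ) ∧ E a (j X)) : Ext1 E Set.univ κ l F :=
  have b : BrA E j W κ l F := ⟨hC, h, ho, hκ, hl, hF⟩
  ⟨h.ord, ho, hκ, _, trivial, _, trivial, tup_spec κ, tup_spec l,
    fun p hp => let ⟨a, X, k1, k2, k3, _⟩ := (hF p).1 hp; ⟨a, X, k1, k2, k3⟩, b.real.ultra,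
    b.real.cc hC fun _ _ _ k => ⟨k.1, k.2.1, k.2.2.1⟩, b.nrm⟩

theorem cohAt_der (hC : Choice E) (h : ElEmb E j W κ) (ho : IsOrd E l) (hκ : E κ l)
    (hl : Sub E l (j κ)) (hF : ∀ p, E p F ↔ ∃ a X, IsOPair E p a X ∧ E a (tup E l) ∧
      Sub E X (tup E κ) ∧ E a (j X)) (nov : ∀ u v, E u κ → Dom E S u v → E v κ)
    (hS : ∀ κ' l' p, Le E κ' κ → (At E (j S) κ' l' p ↔ At E S κ' l' p ∧ E l' l)) :
    CohAt E Set.univ S κ l F := by
  have b : BrA E j W κ l F := ⟨hC, h, ho, hκ, hl, hF⟩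
  refine ⟨fun u hu v _ => nov u v hu, _, trivial, _, trivial, tup_spec κ, tup_spec l,
    fun q hq κ' l' e h1 h2 a ha X _ ⟨t, _, h3, h4⟩ p _ hp => ⟨fun k => ?_, fun k => ?_⟩,
    fun κ' _ h1 c hc f _ _ _ k => ?_⟩
  · exact (b.aa (fun W q s S X => PX E W S X q s) S X hq ha).2
      ((b.px h1 h3 h4 e hp).2 ((hS _ _ _ h1).2 ⟨k, h2⟩))
  · exact ((hS _ _ _ h1).1 ((b.px h1 h3 h4 e hp).1
      ((b.ae (fun W q s S X => PX E W S X q s) S X hq ha).1 k))).1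
  · obtain ⟨y, k1, p, k2⟩ :=
      (b.ae (fun _ u s f S => ∃ y, App E f s y ∧ Dom E S u y) f S (b.leN h1) hc).1 k
    have k3 := ((hS _ _ _ h1).1 k2).2
    exact ⟨y, k3, (b.aa (fun _ s t f _ => App E f s t) f f hc (sub_tup k3)).2 k1⟩

theorem ExtOf.mem' (h : ExtOf E j W κ l F) (p : M) : E p F ↔ ∃ a X, IsOPair E p a X ∧
    E a (tup E l) ∧ Sub E X (tup E κ) ∧ E a (j X) := by
  simp only [h.mem, tup_iff]
  rfl

theorem ExtOf.ext1 (hC : Choice E) (h : ExtOf E j W κ l F) : Ext1 E Set.univ κ l F :=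
  ext1_der hC h.emb h.len.1 h.len.2.1 h.len.2.2 h.mem'

theorem ExtOf.coh (hC : Choice E) (h : ExtOf E j W κ l F) (hs : Shape E Set.univ S)
    (k : CohAt E Set.univ S κ l F) (κ' l' p : M) (hκ : Le E κ' κ) :
    At E (j S) κ' l' p ↔ At E S κ' l' p ∧ E l' l := by
  have b : BrA E j W κ l F := ⟨hC, h.emb, h.len.1, h.len.2.1, h.len.2.2, h.mem'⟩
  have e := h.emb.el
  obtain ⟨k1, K, -, N, -, hK, hN, k2, k3⟩ := k
  obtain rfl := hK.eq
  obtain rfl := hN.eq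
  have key : E l' l → (∃ a X, IsOPair E p a X ∧ (∃ t, IsTup E t l' ∧ E a t) ∧
      ∃ t, IsTup E t κ' ∧ Sub E X t) → (At E (j S) κ' l' p ↔ At E S κ' l' p) := by
    rintro hl ⟨a, X, hp, ⟨t, t1, t2⟩, t', t3, t4⟩
    obtain rfl := t1.eq
    have ha : E a (tup E l) := tup_mono (E := E) (l := l') (fun z m => b.ord.tr hl m) a t2
    have hq := (tup_pr b.ord).2 ⟨b.leN hκ, sub_tup hl⟩
    have m := k2 _ hq κ' l' (pr_spec _ _) hκ hl a ha X trivial ⟨t', trivial, t3, t4⟩ p trivial hp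
    have n := b.px (S := S) hκ t3 t4 (pr_spec κ' l') hp
    exact ⟨fun o => m.2 ((b.ae (fun W q s S X => PX E W S X q s) S X hq ha).2 (n.2 o)),
      fun o => n.1 ((b.aa (fun W q s S X => PX E W S X q s) S X hq ha).1 (m.1 o))⟩
  constructor
  · intro o
    obtain ⟨q, o1, o2⟩ := id o
    have w1 := e.trans.app (e.maps S) o2
    have w2 := e.trans.opair w1.1 o1
    obtain ⟨-, -, -, a, X, s1, ⟨t, -, s2⟩, t', -, s3⟩ :=
      (e.tr1 (fun W S => Shape E W S) S).1 hs κ' w2.1 l' w2.2 p w1.2 o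
    have hj : E l' (j κ) := (e.tr2 (fun W κ S => ∀ u, E u κ → ∀ v ∈ W, Dom E S u v → E v κ) κ S).1
      k1 κ' (hκ.lt (e.ord h.emb.ord) h.emb.lt) l' w2.2 ⟨p, o⟩
    obtain ⟨c, t0, r, f, g1, g2, g3, g4⟩ := h.gen l' w2.2
    have hc := tup_iff.1 g1
    obtain ⟨R, r1, r2⟩ := b.exR (fun _ s t f _ => App E f s t) f f
    have r3 : Fn E R := fun i y y' m n => g3.fn i y y' ((r2 _ _).1 m).2.2 ((r2 _ _).1 n).2.2
    have r4 : App E (j R) c l' :=
      (e.tr3 (fun _ K R f => ∀ s, E s K → ∀ t, E t K → App E f s t → App E R s t) _ R f).1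
        (fun s m t n o => (r2 s t).2 ⟨m, n, o⟩) c (b.sub hc) l' (b.jK ▸ sub_tup hj) g4
    obtain ⟨y, y1, y2⟩ := k3 κ' trivial hκ c hc R trivial r1 r3
      ((b.ae (fun _ u s f S => ∃ y, App E f s y ∧ Dom E S u y) R S (b.leN hκ) hc).2
        ⟨l', r4, p, o⟩)
    obtain rfl := e.fn r3 _ _ _ ((b.aa (fun _ s t f _ => App E f s t) R R hc (sub_tup y1)).1 y2) r4
    exact ⟨(key y1 ⟨a, X, s1, ⟨t, s2⟩, t', s3⟩).1 o, y1⟩
  · rintro ⟨o, hl⟩
    obtain ⟨-, -, -, a, X, s1, ⟨t, -, s2⟩, t', -, s3⟩ := hs κ' trivial l' trivial p trivial o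
    exact (key hl ⟨a, X, s1, ⟨t, s2⟩, t', s3⟩).2 o

end Pool.Agent.Lib.MP_75a307_lc.LE
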