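import Pool.Agent.Lib.MP_75a307_lc.LE.BrA

/-! First-order extenders and ultrapower maps. -/

set_option synthInstance.maxSize 100000
set_option linter.unusedVariables false
set_option linter.unusedSectionVars false

namespace Pool.Agent.Lib.MP_75a307_lc.LE

open Pool.Agent.Lib.MP_1d770b_lc

universe u
variable {M : Type u} {E : M → M → Prop} [hZ : ZF E]

variable {j : M → M} {W : Set M} {κ l F S : M}

theorem brb_rel (K : M) (P : M → M → Prop) [Df E fun v => P (v 0) (v 1)] :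
    ∃ R, Rel E K R ∧ (∀ s t, App E R s t → P s t) ∧
      ∀ s, E s K → ∀ t, E t K → P s t → App E R s t := by
  obtain ⟨R, h1, h2⟩ := ex_rel E K K P
  exact ⟨R, fun p hp => let ⟨x, y, a, b, c, _⟩ := (h1 p).1 hp; ⟨x, y, c, a, b⟩,
    fun s t h => ((h2 s t).1 h).2.2, fun s a t b c => (h2 s t).2 ⟨a, b, c⟩⟩

theorem brb_tup (h : El E j W) (l : M) : j (tup E l) = tup E (j l) :=
  ((h.tr2 (fun _ t l => IsTup E t l) _ _).1 (tup_spec l)).eq

section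
variable {K N : M} {sd : M → M} (r : Real E K N (BinF E F K N) j W sd)
include r

theorem brb_aa {a b : M} (ha : E a N) (hb : E b N) (P : M → M → Prop)
    [Df E fun v => P (v 0) (v 1)] (h : Aa E Set.univ F K a b P) :
    ∃ R, (∀ s t, App E R s t → P s t) ∧ App E (j R) (sd a) (sd b) := by
  obtain ⟨R, h1, h2, h3⟩ := brb_rel (E := E) K P
  exact ⟨R, h2, (r.iff a b R ha hb h1).1 ⟨ha, hb, h1, h R trivial h1 h3⟩⟩

theorem brb_ae {a b : M} (ha : E a N) (hb : E b N) (P : M → M → Prop)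
    [Df E fun v => P (v 0) (v 1)]
    (h : ∀ R, (∀ s, E s K → ∀ t, E t K → P s t → App E R s t) → App E (j R) (sd a) (sd b)) :
    Ae E Set.univ F K a b P := by
  obtain ⟨R, h1, h2, h3⟩ := brb_rel (E := E) K P
  exact ⟨R, trivial, h1, ((r.iff a b R ha hb h1).2 (h R h3)).2.2.2, h2⟩

end

theorem brb_sd {sd : M → M} (hκ : IsOrd E κ) (hl : IsOrd E l)
    (r : Real E (tup E κ) (tup E l) (BinF E F (tup E κ) (tup E l)) j W sd)
    (g : Gen E (tup E κ) (tup E l) j W sd) (n : Nrm E Set.univ κ l (tup E κ) (tup E l) F) :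
    (∀ a, E a (tup E l) → sd a = a) ∧ ∀ a, E a l → E a (j κ) := by
  obtain ⟨n1, n2, n3, -, -⟩ := n
  have := f1 r.dsd
  have e := r.el
  have s2 : ∀ a, E a l → E (sd a) (j κ) := fun a ha => by
    obtain ⟨R, h1, h2⟩ := brb_aa r (sub_tup ha) (sub_tup ha) _ (n2 a ha).1
    exact (e.tr2 (fun _ R k => ∀ s t, App E R s t → E s k) R κ).1 h1 _ _ h2
  have s3 : ∀ a, E a l → ∀ b, E b a → E (sd b) (sd a) := fun a ha b hb => by
    obtain ⟨R, h1, h2⟩ := brb_aa r (sub_tup (hl.tr ha hb)) (sub_tup ha) _ ((n2 a ha).2 b hb)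
    exact (e.tr1 (fun _ R => ∀ s t, App E R s t → E s t) R).1 h1 _ _ h2
  have s4 : ∀ a, E a l → ∀ y, E y (sd a) → ∃ b, E b a ∧ y = sd b := fun a ha y hy => by
    have y1 : E y (j κ) := (e.ord hκ).tr (s2 a ha) hy
    have y2 : E y (j (tup E κ)) := brb_tup e κ ▸ sub_tup y1
    obtain ⟨c, f, hc, hf, k⟩ := g y (e.trans _ (e.maps κ) _ y1)
    obtain ⟨f', f1, f2, f3⟩ := brb_rel (E := E) (tup E κ) fun s t => App E f s t
    have fn : Fn E f' := fun x y y' p q => hf.1 x y y' (f2 _ _ p) (f2 _ _ q)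
    have k' : App E (j f') (sd c) y := (e.tr3 (fun _ K f f' => ∀ s, E s K → ∀ t, E t K →
      App E f s t → App E f' s t) _ f f').1 f3 _ (r.mem c hc) _ y2 k
    obtain ⟨b, hb, h⟩ := n3 a ha c hc f' trivial f1 fn (brb_ae r hc (sub_tup ha) _ fun R hR =>
      (e.tr3 (fun _ K f R => ∀ s, E s K → ∀ t, E t K → (∃ y, App E f s y ∧ E y t) → App E R s t)
        _ f' R).1 hR _ (r.mem c hc) _ (r.mem a (sub_tup ha)) ⟨y, k', hy⟩)
    have hb' := sub_tup (E := E) (hl.tr ha hb)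
    exact ⟨b, hb, e.fn fn _ _ _ k'
      ((r.iff c b f' hc hb' f1).1 ⟨hc, hb', f1, h f' trivial f1 fun _ _ _ _ p => p⟩)⟩
  have s5 : ∀ a, IsOrd E a → E a l → sd a = a := by
    refine ord_ind (fun a => E a l → sd a = a) fun a ho ih ha => ext' E fun y =>
      ⟨fun hy => ?_, fun hy => ?_⟩
    · obtain ⟨b, hb, rfl⟩ := s4 a ha y hy
      rwa [ih b hb (hl.tr ha hb)]
    · exact ih y hy (hl.tr ha hy) ▸ s3 a ha y hy
  refine ⟨tup_ind l (fun a => sd a = a) (fun a ha => s5 a (hl.mem ha) ha) fun a b ha hb p q => ?_,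
    fun a ha => s5 a (hl.mem ha) ha ▸ s2 a ha⟩
  have hp := (tup_pr hl).2 ⟨ha, hb⟩
  obtain ⟨R, h1, h2⟩ := brb_aa r hp ha _ (n1 _ hp a b (pr_spec a b)).1
  obtain ⟨R', h3, h4⟩ := brb_aa r hp hb _ (n1 _ hp a b (pr_spec a b)).2
  obtain ⟨x, y, k1, k2⟩ := (e.tr1 (fun _ R => ∀ q s, App E R q s →
    ∃ x y, IsOPair E q x y ∧ x = s) R).1 h1 _ _ h2
  obtain ⟨x', y', k3, k4⟩ := (e.tr1 (fun _ R => ∀ q t, App E R q t →
    ∃ x y, IsOPair E q x y ∧ y = t) R').1 h3 _ _ h4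
  rw [pr_eq.1 k1, k2, (k1.inj k3).2, k4, p, q]

theorem Ext1.ult (hC : Choice E) (h : Ext1 E Set.univ κ l F) : ∃ j W, ExtOf E j W κ l F := by
  obtain ⟨hκ, hl, lt, K, -, N, -, hK, hN, hF, h1, h2, n⟩ := h
  obtain rfl := hK.eq
  obtain rfl := hN.eq
  have sys : SysT E (tup E κ) (tup E l) (BinF E F (tup E κ) (tup E l)) := by
    refine ⟨fun a b R h => ⟨h.1, h.2.1, h.2.2.1⟩, h1, fun a ha b hb => ?_, h2, κ, sub_tup lt⟩
    have hp := (tup_pr hl).2 ⟨ha, hb⟩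
    obtain ⟨f, f1, f2, f3⟩ := brb_rel (E := E) (tup E κ) fun q s => ∃ x y, IsOPair E q x y ∧ x = s
    obtain ⟨g, g1, g2, g3⟩ := brb_rel (E := E) (tup E κ) fun q t => ∃ x y, IsOPair E q x y ∧ y = t
    refine ⟨_, hp, f, g, fun q s s' a b => ?_, fun q s s' a b => ?_,
      ⟨hp, ha, f1, (n.1 _ hp a b (pr_spec a b)).1 f trivial f1 f3⟩,
      ⟨hp, hb, g1, (n.1 _ hp a b (pr_spec a b)).2 g trivial g1 g3⟩⟩
    · obtain ⟨x, y, k, rfl⟩ := f2 _ _ a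
      obtain ⟨x', y', k', rfl⟩ := f2 _ _ b
      exact (k.inj k').1
    · obtain ⟨x, y, k, rfl⟩ := g2 _ _ a
      obtain ⟨x', y', k', rfl⟩ := g2 _ _ b
      exact (k.inj k').2
  obtain ⟨j, W, sd, r, g⟩ := sys.ult hC fun _ _ _ _ _ _ => by unfold BinF; infer_instance
  obtain ⟨s1, s2⟩ := brb_sd hκ hl r g n
  obtain ⟨-, -, -, n4, n5⟩ := n
  have e := r.el
  have m (a) (ha : E a (tup E l)) : E a (j (tup E κ)) := s1 a ha ▸ r.mem a ha
  refine ⟨j, W, e.emb hκ (fun a ha => ?_) fun k => no1 (Eq.subst (motive := E κ) k (s2 κ lt)), ⟨hl, lt, s2⟩,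
    fun x hx => ?_, fun p => ⟨fun hp => ?_, ?_⟩⟩
  · have ha' := sub_tup (E := E) (hl.tr lt ha)
    obtain ⟨R, k1, k2⟩ := brb_aa r ha' ha' _ (n4 a ha)
    exact ((e.tr2 (fun _ R a => ∀ s t, App E R s t → s = a) R a).1 k1 _ _ k2).symm.trans (s1 a ha')
  · obtain ⟨a, f, ha, hf, k⟩ := g x hx
    obtain ⟨d, hd⟩ := ex_fld E f
    obtain ⟨f', f1, f2⟩ := ex_func (E := E) (tup E κ) d (fun s y => App E f s y)
      (fun s hs => ⟨_, (hd _ _ (hf.app hs)).2, hf.app hs⟩) fun s y y' _ _ _ => hf.1 s y y'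
    refine ⟨a, _, d, f', tup_iff.2 ha, tup_spec κ, f1, ?_⟩
    exact (e.tr3 (fun _ K f f' => ∀ s, E s K → ∀ y, App E f s y → App E f' s y) _ f f').1
      (fun s hs y k => (f2 s y).2 ⟨hs, (hd _ _ k).2, k⟩) a (m a ha) x (s1 a ha ▸ k)
  · obtain ⟨a, X, k1, k2, k3⟩ := hF p hp
    obtain ⟨R, k4, k5⟩ := brb_aa r k2 k2 _ ((n5 a k2 X trivial k3).1 ⟨p, k1, hp⟩)
    exact ⟨a, X, k1, tup_iff.2 k2, fun s hs => tup_iff.2 (k3 s hs),
      s1 a k2 ▸ (e.tr2 (fun _ R X => ∀ s t, App E R s t → E s X) R X).1 k4 _ _ k5⟩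
  · rintro ⟨a, X, k1, k2, k3, k4⟩
    have k2 := tup_iff.1 k2
    refine ((n5 a k2 X trivial fun s hs => tup_iff.1 (k3 s hs)).2
      (brb_ae r k2 k2 _ fun R hR => ?_)).mem k1
    rw [s1 a k2]
    exact (e.tr3 (fun _ K X R => ∀ s, E s K → ∀ t, E t K → E s X → App E R s t) _ X R).1 hR
      a (m a k2) a (m a k2) k4

theorem Ext1.top (hC : Choice E) (h : Ext1 E Set.univ κ l F) : App E F κ (tup E κ) := by
  obtain ⟨j, W, k⟩ := h.ult hC
  exact app_iff.2 ((k.mem' _).2 ⟨_, _, pr_spec _ _, sub_tup k.len.2.1, fun _ h => h,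
    brb_tup k.emb.el κ ▸ sub_tup k.emb.lt⟩)

theorem Coh1.shape (hC : Choice E) (h : Coh1 E Set.univ S) : Shape E Set.univ S := by
  intro κ _ l _ p _ k
  obtain ⟨F, -, h1, h2, -⟩ := h.2.2.2 κ trivial l trivial ⟨p, k⟩
  obtain ⟨j, W, e⟩ := h2.ult hC
  obtain ⟨a, X, k1, k2, k3, -⟩ := (e.mem' p).1 ((h1 p).2 k)
  exact ⟨e.emb.ia.lim, e.len.1, e.len.2.1, a, X, k1, ⟨_, trivial, tup_spec l, k2⟩,
    _, trivial, tup_spec κ, k3⟩

theorem Coh1.top (hC : Choice E) (h : Coh1 E Set.univ S) (k : Dom E S κ l) :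
    At E S κ l (pr E κ (tup E κ)) := by
  obtain ⟨F, -, h1, h2, -⟩ := h.2.2.2 κ trivial l trivial k
  exact (h1 _).1 (app_iff.1 (h2.top hC))

theorem Coh1.bd (hC : Choice E) (h : Coh1 E Set.univ S) (k : Dom E S κ l) {η : M} (hη : E η κ) :
    ∃ ζ, E ζ κ ∧ ∀ u v, E u η → Dom E S u v → E v ζ := by
  obtain ⟨F, -, h1, h2, h3⟩ := h.2.2.2 κ trivial l trivial k
  obtain ⟨j, W, e⟩ := h2.ult hC
  obtain ⟨ζ, a, b⟩ := (e.emb.el.tr3 (fun W k η S => ∃ ζ, E ζ k ∧ ∀ u, E u η → ∀ v ∈ W,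
    Dom E S u v → E v ζ) κ η S).2 ⟨κ, e.emb.lt, fun u hu v _ ⟨p, hp⟩ => by
      rw [e.emb.fix η hη] at hu
      have hu' := e.emb.ord.tr hη hu
      exact h3.1 u hu' v trivial
        ⟨p, ((e.coh hC (h.shape hC) h3 u v p (Or.inl hu')).1 hp).1⟩⟩
  exact ⟨ζ, a, fun u v hu => b u hu v trivial⟩

theorem coh_iff (hC : Choice E) : Coh E S ↔ Coh1 E Set.univ S := by
  have key {κ l κ' l' p : M} (hl : IsOrd E l) (lt : E κ l)
      (nov : ∀ u v, E u κ → Dom E S u v → E v κ) :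
      At E S κ' l' p ∧ E l' l ↔ At E S κ' l' p ∧ (E κ' κ ∨ E l' l) :=
    and_congr_right fun a => ⟨Or.inr, fun b => b.elim (fun b => hl.tr lt (nov _ _ b ⟨p, a⟩)) id⟩
  constructor
  · intro h
    refine ⟨fun t ht => ?_, fun κ _ l _ k l' a b => h.down κ l l' k b a,
      fun κ _ l _ κ' _ l' _ => h.nonov κ l κ' l', fun κ _ l _ k => ?_⟩
    · obtain ⟨q, p, a, κ, l, b⟩ := h.shape t ht
      exact ⟨q, p, a, κ, l, b, rfl⟩
    · obtain ⟨F, j, W, a, e, c⟩ := h.ext κ l k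
      have nov : ∀ u v, E u κ → Dom E S u v → E v κ := fun u v a b => h.nonov u v κ l b k a
      exact ⟨F, trivial, a, e.ext1 hC, cohAt_der hC e.emb e.len.1 e.len.2.1 e.len.2.2 e.mem' nov
        fun κ' l' p b => (c κ' l' p b).trans (key e.len.1 e.len.2.1 nov).symm⟩
  · intro h
    refine ⟨fun t ht => ?_, fun κ l l' k a b => h.2.1 κ trivial l trivial k l' b a,
      fun κ l κ' l' => h.2.2.1 κ trivial l trivial κ' trivial l' trivial, fun κ l k => ?_⟩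
    · obtain ⟨q, p, a, κ, l, b, -⟩ := h.1 t ht
      exact ⟨q, p, a, κ, l, b⟩
    · obtain ⟨F, -, a, b, c⟩ := h.2.2.2 κ trivial l trivial k
      obtain ⟨j, W, e⟩ := b.ult hC
      exact ⟨F, j, W, a, e, fun κ' l' p d => (e.coh hC (h.shape hC) c κ' l' p d).trans
        (key e.len.1 e.len.2.1 fun u v a => c.1 u a v trivial)⟩

end Pool.Agent.Lib.MP_75a307_lc.LE
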