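import Pool.Agent.Lib.MP_75a307_lc.LE.BrB

/-! Ultrapowers of inner models. -/

set_option synthInstance.maxSize 100000
set_option linter.unusedVariables false
set_option linter.unusedSectionVars false

namespace Pool.Agent.Lib.MP_75a307_lc.LE

open Pool.Agent.Lib.MP_1d770b_lc

universe u
variable {M : Type u} {E : M → M → Prop} [hZ : ZF E]

variable {j : M → M} {W : Set M} {κ l F S : M}

/-- `i : W → W'` is the ultrapower of `W` by `F ∈ W` -/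
structure UltW (E : M → M → Prop) [ZF E] (W : Set M) (κ l F : M) (i : M → M) (W' : Set M) :
    Prop where
  el : ElW E W W' i
  sub : W' ⊆ W
  lim : Lim E κ
  fix : ∀ α, E α κ → i α = α
  len : Sub E l (i κ)
  gen : ∀ x ∈ W', ∃ a f, E a (tup E l) ∧ f ∈ W ∧ Tot E (tup E κ) f ∧ App E (i f) a x
  mem : ∀ a X, App E F a X ↔ E a (tup E l) ∧ X ∈ W ∧ Sub E X (tup E κ) ∧ E a (i X)
  coh : ∀ S ∈ W, Shape E W S → CohAt E W S κ l F → ∀ κ' l' p, Le E κ' κ →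
    (At E (i S) κ' l' p ↔ At E S κ' l' p ∧ E l' l)

theorem bridge_at (t : Tr E W) (hS : S ∈ W) {p : M} (h : At E S κ l p) :
    κ ∈ W ∧ l ∈ W ∧ p ∈ W :=
  let ⟨_, h1, h2⟩ := h
  ⟨(t.opair (t.app hS h2).1 h1).1, (t.opair (t.app hS h2).1 h1).2, (t.app hS h2).2⟩

theorem bridge_r4 (hW : Inn E W) [ZF (Res E W)]
    (P : ∀ (M : Type u) (_ : M → M → Prop), Set M → M → M → M → M → Prop)
    [UR.{u} fun M E W v => P M E W (v 0) (v 1) (v 2) (v 3)] (a b c d : W) :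
    P M E W a.1 b.1 c.1 d.1 ↔ P W (Res E W) Set.univ a b c d :=
  UR.res (fun M E W v => P M E W (v 0) (v 1) (v 2) (v 3)) hW.good hW.tr
    fun n => [a, b, c].getD n d

theorem bridge_tup (hW : Inn E W) [ZF (Res E W)] (a : W) : (tup (Res E W) a).1 = tup E a.1 :=
  ((bridge_r4 hW (fun _ E _ t a _ _ => IsTup E t a) _ a a a).2 (tup_spec a)).eq

theorem Ext1.lift (hW : Inn E W) (hF : F ∈ W) (h : Ext1 E W κ l F) :
    ∃ i W', UltW E W κ l F i W' := by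
  have := hW.zf
  lift F to W using hF
  lift κ to W using hW.ord h.1
  lift l to W using hW.ord h.2.1
  obtain ⟨i, W0, e⟩ := ((bridge_r4 hW (fun _ E W a b c _ => Ext1 E W a b c) κ l F F).1 h).ult hW.ac
  obtain ⟨k, el, hk⟩ := hW.lift e.emb.el
  have op (p a b : W) := bridge_r4 hW (fun _ E _ p a b _ => IsOPair E p a b) p a b b
  have sb (a b : W) := bridge_r4 hW (fun _ E _ a b _ _ => Sub E a b) a b b b
  refine ⟨k, _, el, fun _ ⟨x, _, hx⟩ => hx ▸ x.2,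
    (bridge_r4 hW (fun _ E _ a _ _ _ => Lim E a) κ κ κ κ).2 (e.emb.ia.inacc hW.ac).lim,
    fun α hα => (hk ⟨α, hW.tr _ κ.2 _ hα⟩).trans
      (congrArg Subtype.val (e.emb.fix ⟨α, hW.tr _ κ.2 _ hα⟩ hα)),
    hk κ ▸ (sb l _).2 e.len.2.2, ?_, fun a X => ⟨fun q => ?_, ?_⟩, fun S hS hs hc κ' l' p le => ?_⟩
  · rintro _ ⟨x, hx, rfl⟩
    obtain ⟨a, t, b, f, h1, h2, h3, h4⟩ := e.gen x hx
    have h5 := (bridge_r4 hW (fun _ E _ f a b _ => Func E f a b) f t b b).2 h3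
    rw [h2.eq, bridge_tup hW] at h5
    exact ⟨a.1, f.1, bridge_tup hW l ▸ tup_iff.1 h1, f.2, ⟨h5.fn, h5.2⟩,
      hk f ▸ (bridge_r4 hW (fun _ E _ f a b _ => App E f a b) _ a x x).2 h4⟩
  · obtain ⟨p, h1, h2⟩ := q
    obtain ⟨a', X', h3, h4, h5, h6⟩ := (e.mem' ⟨p, hW.tr _ F.2 _ h2⟩).1 h2
    obtain ⟨rfl, rfl⟩ := h1.inj ((op _ _ _).2 h3)
    exact ⟨bridge_tup hW l ▸ h4, X'.2, bridge_tup hW κ ▸ (sb _ _).2 h5, hk X' ▸ h6⟩
  · rintro ⟨h1, h2, h3, h4⟩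
    lift X to W using h2
    lift a to W using hW.tr _ (hW.tup l.2) _ h1
    rw [← bridge_tup hW] at h1 h3
    rw [hk] at h4
    exact app_iff.2 ((e.mem' ⟨pr E a.1 X.1, hW.pr.2 ⟨a.2, X.2⟩⟩).2
      ⟨a, X, (op _ _ _).1 (pr_spec _ _), h1, (sb _ _).1 h3, h4⟩)
  · lift S to W using hS
    have at' (S a b c : W) := bridge_r4 hW (fun _ E _ S a b c => At E S a b c) S a b c
    have key (a b c : W) (le : Le E a.1 κ.1) :
        At E (i S).1 a.1 b.1 c.1 ↔ At E S.1 a.1 b.1 c.1 ∧ E b.1 l.1 := by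
      rw [at', at']
      exact e.coh hW.ac ((bridge_r4 hW (fun _ E W S _ _ _ => Shape E W S) S S S S).1 hs)
        ((bridge_r4 hW (fun _ E W S a b c => CohAt E W S a b c) S κ l F).1 hc) a b c
        (le.imp_right Subtype.ext)
    rw [hk]
    exact ⟨fun q => let ⟨a, b, c⟩ := bridge_at hW.tr (i S).2 q
        (key ⟨_, a⟩ ⟨_, b⟩ ⟨_, c⟩ le).1 q,
      fun q => let ⟨a, b, c⟩ := bridge_at hW.tr S.2 q.1; (key ⟨_, a⟩ ⟨_, b⟩ ⟨_, c⟩ le).2 q⟩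

end Pool.Agent.Lib.MP_75a307_lc.LE
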