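import Pool.Agent.Lib.MP_75a307_lc.LE.Cm2A

/-! A comparison with all critical points inside the iterates of `K` stops. -/

set_option synthInstance.maxSize 100000
set_option linter.unusedVariables false
set_option linter.unusedSectionVars false

namespace Pool.Agent.Lib.MP_75a307_lc.LE

open Pool.Agent.Lib.MP_1d770b_lc

universe u
variable {M : Type u} {E : M → M → Prop} [hZ : ZF E]

section Cm2C
variable {D : MoD M} {K θ S : M} {L R X κ l : M → M}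

/-- the left side of a repeated datum -/
theorem cm2c_rep (m : Mo E D) {L L1 L2 κ l Y κ2 Y2 ξ n : M} (o : D.Ok L) (o2 : D.Ok L2)
    (s2 : Sub E L1 L2) (fx : FixN E D L1 L2 ξ) (hξ : Lim E ξ) (hl : E l ξ) (hκ : E κ l)
    (hN : E l (D.N L)) (ne : κ ≠ κ2) (e : L1 = nl2 E D L κ l) (hn : E n (D.Nm L))
    (y1 : pr E κ Y = D.nm L n) (y2 : pr E κ2 Y2 = D.nm L2 n) (a : M) :
    At E (D.A L) κ l (pr E a Y) ↔ E a (tup E l) ∧ Sub E Y (tup E κ) ∧ E a Y2 := by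
  obtain ⟨o1, s1, -, -, lN, -, e0, e1⟩ := c2_left m o (hξ.1.mem hl) hκ hN e
  have s3 : Sub E L L2 := fun t k => s2 t (s1 t k)
  obtain ⟨-, p1, p2⟩ := m.nmm L L2 n o o2 s3 hn
  have el := (m.en L L2 o o2 s3).1
  rw [← y1] at p1
  rw [← y1, ← y2, el.pr p1] at p2
  obtain ⟨e2, e3⟩ := pr_inj p2
  obtain ⟨κN, YN⟩ := el.prm p1
  have d : Dom E (D.A L) κ l := by_contra fun k => by
    obtain rfl := e0 k
    exact ne ((fx.1 κ κN (hξ.1.rk (hξ.1.tr hl hκ))).symm.trans e2.symm)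
  refine ((e1 d).2.2.2.2.2.2 a Y).trans (and_congr_right fun ha => ?_)
  have el2 := (m.en L1 L2 o1 o2 s2).1
  have aN : E a (D.N L1) := el2.tr _ _ ((m.clo L1 o1).tup l lN) ha
  have k := el2.mem_iff aN ((m.en L L1 o o1 s1).1.maps Y YN)
  rw [m.comp L L1 L2 Y o o1 o2 s1 s2 YN, ← e3,
    fx.1 a aN (tup_rk hξ (fun z hz => hξ.1.tr hl hz) ha)] at k
  rw [k]
  exact ⟨fun k => k.2, fun k => ⟨YN, k⟩⟩

theorem cm2c_shape {W : Set M} {A κ l p : M} (i : cmpAImg E W A) (t : Tr E W)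
    (h : At E A κ l p) : ∃ a Y, p = pr E a Y ∧ Sub E Y (tup E κ) := by
  obtain ⟨m1, m2, m3⟩ := cmpA_at t i.mem h
  obtain ⟨-, -, -, a, Y, hp, -, t', -, ht', hY⟩ := i.shape κ m1 l m2 p m3 h
  exact ⟨a, Y, pr_eq.1 hp, ht'.eq ▸ hY⟩

theorem Run.case1 (k : KG E K θ S) (m : Mo E D) (r : Run E D K S L R X κ l)
    (h : ∀ α, IsOrd E α → E (κ α) (jG E K (R α) K)) : False := by
  have hC := k.ac
  have dL := r.dL
  have dR := r.dR
  have dκ := r.dκ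
  have dl := r.dl
  have dA := m.dA
  have dNm := m.dNm
  have dnm := m.dnm
  have fa := fun α ho => c2_facts k m (r.inv α ho) (r.mv α ho)
  let V : M → M → Prop := fun d α => ∃ n s f Y, d = pr E n (pr E s f) ∧ E n (D.Nm (L α)) ∧
    E s (sN E (R α)) ∧ Func E f K K ∧ pr E (κ α) Y = D.nm (L α) n ∧
    pr E (κ α) Y = ap E (jG E K (R α) f) (sdG E K (R α) s) ∧
    ∃ a, ¬ (At E (D.A (L α)) (κ α) (l α) (pr E a Y) ↔
      At E (jG E K (R α) S) (κ α) (l α) (pr E a Y))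
  have dV : D2 E V := Df.d2 (by simp only [V]; infer_instance)
  have exV : ∀ α, IsOrd E α → ∃ d, V d α := fun α ho => by
    obtain ⟨o, g, -⟩ := r.inv α ho
    obtain ⟨κN, -, p, t1, t2, t3⟩ := (r.mv α ho).1
    have el := (m.en _ _ o o fun _ k => k).1
    obtain ⟨a, Y, rfl, hY⟩ : ∃ a Y, p = pr E a Y ∧ Sub E Y (tup E (κ α)) := by
      by_cases c : At E (D.A (L α)) (κ α) (l α) p
      · exact cm2c_shape (m.img _ o) (fun x hx z hz => el.tr x z hx hz) c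
      · exact cm2c_shape (cmpA_img hC k.coh (g.el hC)) (g.el hC).trans
          (by_contra fun c' => t3 ⟨fun k => (c k).elim, fun k => (c' k).elim⟩)
    obtain ⟨n, n1, n2⟩ := m.nms _ _ o ((m.clo _ o).pr _ _ κN (el.prm t1).2)
    obtain ⟨b, f, b1, b2, b3⟩ := g.genK hC (cmp_inK hC k.lim k.mem g (fa α ho).lim.1 (h α ho)
      ((g.inn hC).pr.1 t2).2 fun z hz => tup_rk (fa α ho).lim (fun _ k => k) (hY z hz))
    exact ⟨_, n, b, f, Y, rfl, n1, b1, b2, n2.symm, b3, a, t3⟩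
  have unV : ∀ d α β, IsOrd E β → E α β → V d α → V d β → False := by
    rintro _ α β oβ hαβ ⟨n, s, f, Y, rfl, a1, a2, a3, a4, a5, a, a6⟩
      ⟨n', s', f', Z, e, -, -, -, b4, b5, -⟩
    obtain ⟨rfl, e2⟩ := pr_inj e
    obtain ⟨rfl, rfl⟩ := pr_inj e2
    have oα := oβ.mem hαβ
    obtain ⟨σ, hσ⟩ := ex_suc E α
    have p := r.inv α oα
    have p1 := r.inv σ (hσ.ord oα)
    have p2 := r.inv β oβ
    have f1 := fa α oα
    have f2 := fa β oβ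
    obtain ⟨q1, q2, n2⟩ := r.suc α σ oα hσ
    obtain ⟨c1, c2, c3, c4, c5⟩ := r.mono β σ oβ (hσ.le oβ hαβ)
    have n1 := p1.2.2.1
    have ne : κ α ≠ κ β := fun e => by
      have := (c3.trans f2.le f2.lim.1).sub f2.lim.1 _ (n1.1.tr n2 f1.lt)
      exact no1 (e ▸ this)
    obtain ⟨-, w2, -, -, -, -, w7, w8⟩ := c2_right k p.2.1 f1.ord f1.lt q2
    obtain ⟨-, r4⟩ := cmp_rep hC p.2.1 p1.2.1 p2.2.1 w2 c2 c5 n1 n2 f1.lt ne
      (fun e => w7 fun ⟨t, ht⟩ => e t ((mem_slc _ _ _ t).2 ht))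
      (fun e => (w8 (by_contra fun c => e fun t ht => c ⟨t, (mem_slc _ _ _ t).1 ht⟩)).2) a2 a3 a5 b5
    exact a6 ((cm2c_rep m p.1 p2.1 c1 c4 n1 n2 f1.lt f1.hl ne q1 a1 a4 b4 a).trans
      ((r4 a).symm.trans (MP_75a307_lc.app_iff.trans (mem_slc _ _ _ _))))
  obtain ⟨KK2, hKK, -⟩ := ex_rel E K K fun _ _ => True
  obtain ⟨B, hB⟩ := ex_pow E KK2
  have fB : ∀ f, Func E f K K → E f B := fun f k => (hB f).2 fun p hp =>
    let ⟨a, b, k1, k2, k3⟩ := k.1.1 p hp; (hKK p).2 ⟨a, b, k1, k2, k3, trivial⟩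
  obtain ⟨lam, l1, l2, l3⟩ := clos E (fun γ δ => ∀ n s f α, E n (D.Nm (L γ)) →
      E s (sN E (R γ)) → E f B → IsOrd E α → (∃ d, d = pr E n (pr E s f) ∧ V d α) →
        E α δ) (fun γ _ => by
    obtain ⟨r2, h2, -⟩ := ex_rel E (sN E (R γ)) B fun _ _ => True
    obtain ⟨r3, h3, -⟩ := ex_rel E (D.Nm (L γ)) r2 fun _ _ => True
    obtain ⟨c, c1, c2⟩ := ord_coll E r3 V
    refine ⟨c, c1, fun n s f α k1 k3 k4 k5 ⟨d, e, k6⟩ => ?_⟩
    obtain ⟨β, k7, k8⟩ := c2 d ((h3 d).2 ⟨_, _, k1,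
      (h2 _).2 ⟨s, f, k3, k4, pr_spec _ _, trivial⟩, e ▸ pr_spec _ _, trivial⟩) ⟨α, k5, k6⟩
    rcases k5.tri (c1.mem k7) with k | rfl | k
    · exact c1.tr k7 k
    · exact k7
    · exact (unV d β α k5 k k8 k6).elim) (emp E) emp_spec.ord
  obtain ⟨d, hd⟩ := exV lam l1.1
  obtain ⟨n, s, f, Y, e, a1, a2, a3, -⟩ := id hd
  obtain ⟨β, b1, b2⟩ := r.limN lam l1 ⟨_, l2⟩ n a1
  obtain ⟨b, Q, t⟩ := (mem_sN _ _).1 a2
  obtain ⟨β', b3, b4⟩ := (r.limR lam l1 ⟨_, l2⟩ _).1 (tr3_iff.1 t)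
  obtain ⟨γ, g1, g2, g3⟩ := l1.two b1 b3
  obtain ⟨δ, g4, g5⟩ := l3 γ g1
  have oγ := l1.1.mem g1
  exact no2 g4 (g5 n s f lam
    (m.nmm _ _ n (r.inv β (l1.1.mem b1)).1 (r.inv γ oγ).1 (r.mono γ β oγ (Or.inl g2)).1 b2).1
    ((mem_sN _ _).2 ⟨b, Q, tr3_iff.2 ((r.mono γ β' oγ (Or.inl g3)).2.1 _ b4)⟩) (fB f a3) l1.1
    ⟨d, e, hd⟩)

end Cm2C

end Pool.Agent.Lib.MP_75a307_lc.LE
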