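import Pool.Agent.Lib.MP_75a307_lc.LE.Cm2A

/-! A comparison of a small model with the universe never leaves the image of `K`. -/

set_option synthInstance.maxSize 100000
set_option linter.unusedVariables false
set_option linter.unusedSectionVars false

namespace Pool.Agent.Lib.MP_75a307_lc.LE

open Pool.Agent.Lib.MP_1d770b_lc

universe u
variable {M : Type u} {E : M → M → Prop} [hZ : ZF E]

variable {D : MoD M} {K θ S α β γ y : M} {L R X κ l : M → M}

theorem cm2d_lt (k : KG E K θ S) (m : Mo E D) (r : Run E D K S L R X κ l) (ho : IsOrd E β)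
    (h : E γ β) : E (κ γ) (X β) ∧ E (X γ) (X β) := by
  have oγ := ho.mem h
  obtain ⟨s, hs⟩ := ex_suc E γ
  have f := c2_facts k m (r.inv γ oγ) (r.mv γ oγ)
  have oX := (r.inv β ho).2.2.1.1
  have h1 := oX.tr ((r.mono β s ho (hs.le ho h)).2.2.1.sub oX _ (r.suc γ s oγ hs).2.2) f.lt
  exact ⟨h1, f.le.lt oX h1⟩

theorem cm2d_le (k : KG E K θ S) (m : Mo E D) (r : Run E D K S L R X κ l) (ho : IsOrd E β) :
    Le E β (X β) := by
  have := r.dX
  refine ord_ind (fun β => Le E β (X β)) (fun β ho ih => ?_) β ho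
  have oX := (r.inv β ho).2.2.1.1
  exact ho.le_of_sub oX fun γ h => (ih γ h).lt oX (cm2d_lt k m r ho h).2

/-- the right side does not move after `α` -/
theorem cm2d_R (k : KG E K θ S) (m : Mo E D) (r : Run E D K S L R X κ l) (ho : IsOrd E α)
    (h : ¬ E (κ α) (jG E K (R α) K)) (oβ : IsOrd E β) (le : Le E α β) : R β = R α := by
  have := r.dR
  have e := (r.inv α ho).2.1.el k.ac
  have oκ := (c2_facts k m (r.inv α ho) (r.mv α ho)).lim.1
  have key : ∀ β, IsOrd E β → ∀ t, E t (R β) → E t (R α) := by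
    refine ord_ind (fun β => ∀ t, E t (R β) → E t (R α)) fun β oβ ih => ?_
    by_cases lt : E α β
    swap
    · exact (r.mono α β ho (oβ.le_of_not ho lt)).2.1
    rcases ord_cases oβ with he | ⟨γ, hs⟩ | ⟨hl, ne⟩
    · exact (he α lt).elim
    · have oγ := oβ.mem hs.self
      have le : Le E α γ := (hs α).1 lt
      have eq : R γ = R α := ext' E fun t => ⟨ih γ hs.self t, (r.mono γ α oγ le).2.1 t⟩
      have f := c2_facts k m (r.inv γ oγ) (r.mv γ oγ)
      have n : ¬ Dom E (jG E K (R γ) S) (κ γ) (l γ) := fun d => by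
        rw [eq] at d
        have c := com_lt k.ac k.lim k.mem k.hS k.coh e oκ h d
        rcases le with le | rfl
        · exact no2 c (f.le.sub f.lim.1 _ (cm2d_lt k m r oγ le).1)
        · exact no1 c
      rw [(c2_right k (r.inv γ oγ).2.1 f.ord f.lt (r.suc γ β oγ hs).2.1).2.2.2.2.2.2.1 n, eq]
      exact fun _ => id
    · intro t ht
      obtain ⟨γ, h1, h2⟩ := (r.limR β hl ne t).1 ht
      exact ih γ h1 t h2
  exact ext' E fun t => ⟨key β oβ t, (r.mono β α oβ le).2.1 t⟩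

/-- the two sequences have the same small members -/
theorem cm2d_mem (k : KG E K θ S) (m : Mo E D) {L G ξ s : M} (i : Inv2 E D K S L G ξ)
    (rk : Rk E s ξ) (h1 : E s (D.N L)) (h2 : s ∈ Wm E K G) :
    E s (D.A L) ↔ E s (jG E K G S) := by
  have e := i.2.1.el k.ac
  have t := (m.en L L i.1 i.1 fun _ => id).1.tr
  have key : ∀ u v p, s = pr E (pr E u v) p → IsOrd E u →
      (E s (D.A L) ↔ E s (jG E K G S)) := by
    rintro u v p rfl ou
    have t' : Tr E (cl E (D.N L)) := fun x hx y hy => t _ _ hx hy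
    obtain ⟨a, b, a1, -, a3⟩ := pr_spec (E := E) (pr E u v) p
    obtain ⟨c, d, c1, -, c3⟩ := pr_spec (E := E) u v
    have ru : Rk E u ξ := (((rk.mem ((a3 a).2 (Or.inl rfl))).mem ((a1 _).2 (Or.inl rfl))).mem
      ((c3 c).2 (Or.inl rfl))).mem ((c1 _).2 (Or.inl rfl))
    exact at_iff.symm.trans ((i.2.2.2.2.1 u v p (Or.inl (ru.ord_mem ou))
      (t'.opair h1 (pr_spec _ _)).2 ((i.2.1.inn k.ac).pr.1 h2).2).trans at_iff)
  constructor
  · intro h
    obtain ⟨u, v, p, es⟩ := m.shp L i.1 s h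
    exact (key u v p es ((m.img L i.1).lim u v ⟨p, at_iff.2 (es ▸ h)⟩).1.1).1 h
  · intro h
    obtain ⟨q, p, a1, u, v, a2, -⟩ := ((e.tr1 (fun W S => Coh1 E W S) S).1 k.coh).1 s h
    have es : s = pr E (pr E u v) p := by rw [pr_eq.1 a1, pr_eq.1 a2]
    exact (key u v p es (com_at k.ac k.coh e (at_iff.2 (es ▸ h))).1.1).2 h

/-- the small model catches up with the iterate of the universe -/
theorem cm2d_in (k : KG E K θ S) (m : Mo E D) (r : Run E D K S L R X κ l) (ho : IsOrd E α)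
    (h : ¬ E (κ α) (jG E K (R α) K)) (oβ : IsOrd E β) (le : Le E α β) (hy : y ∈ Wm E K (R α))
    (rk : ∀ z, E z y → Rk E z (X β)) : E y (D.N (L β)) := by
  have e := (r.inv α ho).2.1.el k.ac
  have eW := e.lk k.ac k.lk
  obtain ⟨γ, hγ⟩ : y ∈ LK E (jG E K (R α) S) := eW ▸ hy
  obtain ⟨δ, oδ, d1, d2⟩ := ord_bound2 hγ.ord oβ
  have i := r.inv δ oδ
  rw [cm2d_R k m r ho h oδ (Or.inl (le.lt oδ d2))] at i
  have oX := i.2.2.1.1
  have γX := (cm2d_le k m r oδ).sub oX γ d1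
  obtain ⟨y', h1, h2⟩ := (m.cons _ i.1).2 γ (i.2.2.2.1 γ γX) hγ.ord
  have h3 := h2 (jG E K (R α) S) fun s η z a1 a2 a3 a4 =>
    cm2d_mem k m i ((a2.rk (lk_dq _) oX (oX.tr γX a1)).mem a3) a4
      (e.trans z (eW ▸ (⟨η, a2⟩ : z ∈ LK E (jG E K (R α) S))) s a3)
  obtain rfl := hγ.fn (lk_dq _) h3
  exact ((r.mono δ β oδ (Or.inl d2)).2.2.2.1.2 y rk).2 h1

theorem Run.case2 (k : KG E K θ S) (m : Mo E D) (r : Run E D K S L R X κ l) (ho : IsOrd E α)
    (h : ¬ E (κ α) (jG E K (R α) K)) : False := by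
  have e := (r.inv α ho).2.1.el k.ac
  have I := e.inn k.ac
  have hin := fun β y => cm2d_in (β := β) (y := y) k m r ho h
  generalize jG E K (R α) = j at e
  generalize Wm E K (R α) = W at e I hin
  have dj := e.fj
  have dL := r.dL
  have dX := r.dX
  have dN := m.dNm
  have dn := m.dnm
  obtain ⟨lam, l1, l2, l3⟩ := clos E (fun γ δ => ∀ n, (E n (D.Nm (L γ)) → Rk E n δ) ∧
      (Rk E n (X γ) → Rk E (j n) δ)) (fun γ oγ => by
    obtain ⟨V, hV⟩ := ex_V (r.inv γ oγ).2.2.1.1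
    obtain ⟨c, hc⟩ := repl E V (fun n y => y = j n) fun x y y' _ k1 k2 => k1.trans k2.symm
    obtain ⟨a, ha⟩ := ex_rk E (D.Nm (L γ))
    obtain ⟨b, hb⟩ := ex_rk E c
    obtain ⟨δ, oδ, d1, d2⟩ := ord_bound2 ha.ord hb.ord
    exact ⟨δ, oδ, fun n => ⟨fun hn => (ha.mem hn).lt oδ d1,
      fun hn => (hb.mem ((hc _).2 ⟨n, (hV n).2 hn, rfl⟩)).lt oδ d2⟩⟩) α ho
  have i := r.inv lam l1.1
  have oX := i.2.2.1.1
  have sX := (cm2d_le k m r l1.1).sub oX
  obtain ⟨B, hB⟩ := ex_V oX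
  obtain ⟨Dg, hD⟩ := sep E B fun n => ¬ E (j n) (D.nm (L lam) n)
  obtain ⟨y, y1, y2⟩ := I.sep (e.maps Dg) (fun _ v => Rk E (v 0) (v 1)) (fun _ => X lam)
    fun _ => I.ord oX
  obtain ⟨n, n1, n2⟩ := m.nms _ y i.1 (hin lam y l1.1 (Or.inl l2) y1 fun z hz => ((y2 z).1 hz).2)
  have r1 : Rk E n (X lam) := by
    obtain ⟨β, b1, b2⟩ := r.limN lam l1 ⟨_, l2⟩ n n1
    obtain ⟨δ, d1, d2⟩ := l3 β b1
    exact ((d2 n).1 b2).lt oX (sX δ d1)
  have r2 : Rk E (j n) (X lam) := by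
    obtain ⟨η, a1, a2⟩ := r1.elim
    obtain ⟨β, b1, b2⟩ := (r.limX lam l1 ⟨_, l2⟩ η).1 a1
    obtain ⟨δ, d1, d2⟩ := l3 β b1
    exact ((d2 n).2 (Rk.intro (r.inv β (l1.1.mem b1)).2.2.1.1 b2 a2)).lt oX (sX δ d1)
  have d : E (j n) y ↔ ¬ E (j n) y := by
    refine (y2 _).trans ?_
    rw [e.mem_iff, hD, hB, n2]
    exact ⟨fun k => k.1.2, fun k => ⟨⟨r1, k⟩, r2⟩⟩
  exact iff_not_self d

end Pool.Agent.Lib.MP_75a307_lc.LE
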