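import Pool.Agent.Lib.MP_75a307_lc.LE.Cm2R
import Pool.Agent.Lib.MP_75a307_lc.LE.Cm2C
import Pool.Agent.Lib.MP_75a307_lc.LE.Cm2D

/-! A small model that agrees with an iterate below a level has its sets there in the iterate. -/

set_option synthInstance.maxSize 100000
set_option linter.unusedVariables false
set_option linter.unusedSectionVars false

namespace Pool.Agent.Lib.MP_75a307_lc.LE

open Pool.Agent.Lib.MP_1d770b_lc

universe u
variable {M : Type u} {E : M → M → Prop} [hZ : ZF E]

theorem cmp2 {D : MoD M} {K θ S L0 G0 ξ0 x : M} (k : KG E K θ S) (m : Mo E D)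
    (h0 : Inv2 E D K S L0 G0 ξ0) (hx : E x (D.N L0)) (r : ∀ z, E z x → Rk E z ξ0) :
    x ∈ Wm E K G0 := by
  by_contra hn
  obtain ⟨L, R, X, κ, l, r⟩ := run_ex k m h0 fun L G ξ i f f' => by_contra fun n =>
    hn ((f'.2 x r).2 (c2_stop k m i.1 i.2.1 n ((f.2 x r).1 hx)))
  exact r.case1 k m fun α ho => by_contra (r.case2 k m ho)

end Pool.Agent.Lib.MP_75a307_lc.LE
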