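import Pool.Agent.Lib.MP_75a307_lc.LE.MoE

/-! One move in the comparison of a small model with an iterate of the universe. -/

set_option synthInstance.maxSize 100000
set_option linter.unusedVariables false
set_option linter.unusedSectionVars false

namespace Pool.Agent.Lib.MP_75a307_lc.LE

open Pool.Agent.Lib.MP_1d770b_lc

universe u
variable {M : Type u} {E : M → M → Prop} [hZ : ZF E]

section Cm2A
variable {D : MoD M} {K θ S L G L1 G1 ξ κ l κ' l' y : M}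

structure MvF (E : M → M → Prop) [ZF E] (D : MoD M) (K S L G ξ κ l : M) : Prop where
  le : Le E ξ κ
  lim : Lim E κ
  ord : IsOrd E l
  lt : E κ l
  hκ : E κ (D.N L)
  hl : E l (D.N L)
  agree : Agree E (cl E (D.N L)) (Wm E K G) (D.A L) (jG E K G S) κ l
  dn : ∀ l', E l' l → E κ l' → Dom E (D.A L) κ l' ∧ Dom E (jG E K G S) κ l'
  mv : Dom E (D.A L) κ l ∨ Dom E (jG E K G S) κ l

theorem Mo.dDis (m : Mo E D) (K S : M) : D4 E (Dis E D K S) := fun _ _ _ _ _ _ _ _ => by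
  have := m.dN
  have := m.dA
  unfold Dis
  infer_instance

theorem Mo.dMv2 (m : Mo E D) (K S : M) : D4 E (Mv2 E D K S) := fun _ _ _ _ _ _ _ _ => by
  have := m.dDis K S
  unfold Mv2
  infer_instance

theorem Mo.dInv2 (m : Mo E D) (K S : M) : D3 E (Inv2 E D K S) := fun _ _ _ _ _ _ => by
  have := m.dN
  have := m.dA
  have := m.dOk
  unfold Inv2 Agree
  simp only [Set.mem_setOf_eq]
  infer_instance

theorem Mo.dFix (m : Mo E D) : D3 E (FixN E D) := fun _ _ _ _ _ _ => by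
  have := m.dN
  have := f3 m.dim
  unfold FixN Fix
  simp only [Set.mem_setOf_eq]
  infer_instance

theorem Mo.dnl2 (m : Mo E D) : D4 E fun x y z w => nl2 E D x y z = w := fun _ _ _ _ _ _ _ _ => by
  have := m.dA
  have := m.dnx
  unfold nl2
  infer_instance

theorem dnr2 (K S : M) : D4 E fun x y z w => nr2 E K S x y z = w := fun _ _ _ _ _ _ _ _ => by
  unfold nr2
  infer_instance

theorem cm2a_tr (m : Mo E D) (o : D.Ok L) : Trans E (D.N L) := (m.en L L o o fun _ => id).1.tr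

theorem cm2a_img (k : KG E K θ S) (g : Sys E K G) : cmpAImg E (Wm E K G) (jG E K G S) :=
  cmpA_img k.ac k.coh (g.el k.ac)

theorem cm2a_lt {W : Set M} {A u v : M} (t : Tr E W) (i : cmpAImg E W A) (d : Dom E A u v) :
    E u v :=
  let ⟨p, a⟩ := d
  let ⟨x, y, z⟩ := cmpA_at t i.mem a
  (i.shape u x v y p z a).2.2.1

theorem cm2a_mv (d : Dis E D K S L G κ l) : Dom E (D.A L) κ l ∨ Dom E (jG E K G S) κ l := by
  obtain ⟨-, -, p, -, -, n⟩ := d
  by_cases a : At E (D.A L) κ l p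
  · exact Or.inl ⟨p, a⟩
  · exact Or.inr ⟨p, by tauto⟩

theorem cm2a_ord (k : KG E K θ S) (m : Mo E D) (o : D.Ok L) (g : Sys E K G)
    (d : Dis E D K S L G κ l) : Lim E κ ∧ IsOrd E l ∧ E κ l := by
  rcases cm2a_mv d with a | a
  · exact ⟨((m.img L o).lim _ _ a).1, ((m.img L o).lim _ _ a).2,
      cm2a_lt (moe_tr (cm2a_tr m o)) (m.img L o) a⟩
  · exact ⟨((cm2a_img k g).lim _ _ a).1, ((cm2a_img k g).lim _ _ a).2,
      cm2a_lt (g.inn k.ac).tr (cm2a_img k g) a⟩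

theorem cm2a_top (k : KG E K θ S) (m : Mo E D) (o : D.Ok L) (g : Sys E K G) (hκ : E κ (D.N L))
    (ho : IsOrd E κ) : E (pr E κ (tup E κ)) (D.N L) ∧ pr E κ (tup E κ) ∈ Wm E K G :=
  have I := g.inn k.ac
  ⟨(m.clo L o).pr _ _ hκ ((m.clo L o).tup _ hκ), I.pr.2 ⟨I.ord ho, I.tup (I.ord ho)⟩⟩

theorem c2_stop (k : KG E K θ S) (m : Mo E D) (o : D.Ok L) (g : Sys E K G)
    (n : ¬ ∃ κ l, Dis E D K S L G κ l) (hy : E y (D.N L)) : y ∈ Wm E K G := by
  have e := g.el k.ac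
  have t := moe_tr (cm2a_tr m o)
  have ek := e.lk k.ac k.lk
  obtain ⟨γ, hγ⟩ := (m.cons L o).1 y hy
  rw [ek]
  refine ⟨γ, hγ _ fun s η z _ hz hs hN => ?_⟩
  have zW : z ∈ Wm E K G := by
    rw [ek]
    exact ⟨η, hz⟩
  have sW := e.trans z zW s hs
  have key : ∀ u v p, s = pr E (pr E u v) p → (E s (D.A L) ↔ E s (jG E K G S)) := by
    rintro u v p rfl
    have a := t.opair hN (pr_spec _ _)
    have b := t.opair a.1 (pr_spec _ _)
    refine at_iff.symm.trans (Iff.trans ?_ at_iff)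
    exact by_contra fun c => n ⟨u, v, b.1, b.2, p, a.2, (e.trans.opair sW (pr_spec _ _)).2, c⟩
  refine ⟨fun h => ?_, fun h => ?_⟩
  · obtain ⟨u, v, p, r⟩ := m.shp L o s h
    exact (key u v p r).1 h
  · obtain ⟨q, p, r1, u, v, r2, -⟩ := ((e.tr1 (fun W S => Coh1 E W S) S).1 k.coh).1 s h
    exact (key u v p (by rw [pr_eq.1 r1, pr_eq.1 r2])).2 h

theorem c2_least (k : KG E K θ S) (m : Mo E D) (o : D.Ok L) (g : Sys E K G)
    (d : Dis E D K S L G κ l) : ∃ κ l, Mv2 E D K S L G κ l := by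
  have := m.dDis K S
  obtain ⟨κ, -, ⟨l, d⟩, mκ⟩ :=
    ord_min (fun κ => ∃ l, Dis E D K S L G κ l) (cm2a_ord k m o g d).1.1 ⟨l, d⟩
  obtain ⟨l, -, d, ml⟩ := ord_min (fun l => Dis E D K S L G κ l) (cm2a_ord k m o g d).2.1 d
  refine ⟨κ, l, d, ?_⟩
  rintro κ' l' (a | ⟨rfl, a⟩) n
  exacts [mκ κ' a ⟨l', n⟩, ml l' a n]

theorem Mv2.uniq (k : KG E K θ S) (m : Mo E D) (o : D.Ok L) (g : Sys E K G)
    (h : Mv2 E D K S L G κ l) (h' : Mv2 E D K S L G κ' l') : κ = κ' ∧ l = l' := by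
  have a := cm2a_ord k m o g h.1
  have b := cm2a_ord k m o g h'.1
  obtain rfl : κ = κ' := by
    rcases a.1.1.tri b.1.1 with e | e | e
    exacts [(h'.2 _ _ (Or.inl e) h.1).elim, e, (h.2 _ _ (Or.inl e) h'.1).elim]
  refine ⟨rfl, ?_⟩
  rcases a.2.1.tri b.2.1 with e | e | e
  exacts [(h'.2 _ _ (Or.inr ⟨rfl, e⟩) h.1).elim, e, (h.2 _ _ (Or.inr ⟨rfl, e⟩) h'.1).elim]

theorem c2_facts (k : KG E K θ S) (m : Mo E D) (i : Inv2 E D K S L G ξ)
    (h : Mv2 E D K S L G κ l) : MvF E D K S L G ξ κ l := by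
  obtain ⟨o, g, hξ, -, ag, -⟩ := i
  obtain ⟨c1, c2, c3⟩ := cm2a_ord k m o g h.1
  have mv := cm2a_mv h.1
  have t := cm2a_tr m o
  have iA := m.img L o
  have iB := cm2a_img k g
  obtain ⟨⟨hκ, hl, p, h1, h2, n⟩, mn⟩ := h
  have a : Agree E (cl E (D.N L)) (Wm E K G) (D.A L) (jG E K G S) κ l := by
    intro u v q c q1 q2
    have hu : E u (D.N L) := c.elim (fun c => t _ _ hκ c) fun c => c.1 ▸ hκ
    by_cases hv : E v (D.N L)
    · exact by_contra fun x => mn u v c ⟨hu, hv, q, q1, q2, x⟩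
    refine iff_of_false (fun x => hv (cmpA_at (moe_tr t) iA.mem x).2.1) fun x => ?_
    have c' : E u κ := c.resolve_right fun c => hv (t _ _ hl c.2)
    have d : Dom E (jG E K G S) u v := ⟨q, x⟩
    rcases mv with w | w
    · have lt : E κ v := by
        rcases c1.1.tri (iB.lim _ _ d).2 with z | z | z
        exacts [z, (hv (z ▸ hκ)).elim, (hv (t _ _ hκ z)).elim]
      have d' := iB.down _ _ _ d lt c'
      obtain ⟨r1, r2⟩ := cm2a_top k m o g hu (c1.1.mem c')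
      have r : At E (D.A L) u κ (pr E u (tup E u)) := by_contra fun z =>
        mn u κ (Or.inl c') ⟨hu, hκ, _, r1, r2, fun z' => z (z'.2 (iB.top _ _ d'))⟩
      exact no1 (iA.nov _ _ _ _ ⟨_, r⟩ w c')
    · exact hv (t _ _ hκ (iB.nov _ _ _ _ d w c'))
  refine ⟨hξ.1.le_of_not c1.1 fun z => n (ag κ l p (Or.inl z) h1 h2), c1, c2, c3, hκ, hl, a,
    fun v x y => ?_, mv⟩
  obtain ⟨r1, r2⟩ := cm2a_top k m o g hκ c1.1
  have e := a κ v _ (Or.inr ⟨rfl, x⟩) r1 r2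
  rcases mv with w | w
  · have d := iA.down _ _ _ w x y
    exact ⟨d, _, e.1 (iA.top _ _ d)⟩
  · have d := iB.down _ _ _ w x y
    exact ⟨⟨_, e.2 (iB.top _ _ d)⟩, d⟩

theorem cm2a_idle {W : Set M} {A u v p : M} (i : cmpAImg E W A) (ho : IsOrd E l) (lt : E κ l)
    (n : ¬ Dom E A κ l) (le : Le E u κ) :
    At E A u v p ↔ At E A u v p ∧ (E u κ ∨ E v l) := by
  refine ⟨fun a => ⟨a, le.imp_right ?_⟩, (·.1)⟩
  rintro rfl
  rcases (i.lim _ _ ⟨p, a⟩).2.tri ho with t | rfl | t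
  · exact t
  · exact (n ⟨p, a⟩).elim
  · exact (n (i.down _ _ _ ⟨p, a⟩ t lt)).elim

theorem c2_left (m : Mo E D) (o : D.Ok L) (ho : IsOrd E l) (lt : E κ l) (hl : E l (D.N L))
    (e : L1 = nl2 E D L κ l) :
    D.Ok L1 ∧ Sub E L L1 ∧ D.RC L L1 ∧ FixN E D L L1 κ ∧ E l (D.N L1) ∧
      (∀ u v p, Le E u κ → (At E (D.A L1) u v p ↔ At E (D.A L) u v p ∧ (E u κ ∨ E v l))) ∧
      (¬ Dom E (D.A L) κ l → L1 = L) ∧ (Dom E (D.A L) κ l → StepN E D L L1 κ l) := by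
  have i := m.img L o
  by_cases d : Dom E (D.A L) κ l
  · have e' : L1 = D.nx L (pr E κ l) :=
      e.trans (the_eq (Or.inl ⟨d, rfl⟩) fun _ z => z.elim (·.2) fun z => (z.1 d).elim)
    have s := m.step L κ l o d
    rw [← e'] at s
    refine ⟨s.1, s.2.1, s.2.2.1, s.2.2.2.1, s.2.2.2.2.1, fun u v p le => ?_,
      fun n => (n d).elim, fun _ => s⟩
    rw [s.2.2.2.2.2.1 u v p le]
    exact and_congr_right fun a => ⟨Or.inr, fun z => z.elim
      (fun z => ho.tr lt (i.nov _ _ _ _ ⟨p, a⟩ d z)) id⟩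
  · have e' : L1 = L :=
      e.trans (the_eq (Or.inr ⟨d, rfl⟩) fun _ z => z.elim (fun z => (d z.1).elim) (·.2))
    rw [e']
    exact ⟨o, fun _ => id, m.rc L o, ⟨fun x hx _ => m.id L x o hx, fun _ _ => Iff.rfl⟩, hl,
      fun u v p le => cm2a_idle i ho lt d le, fun _ => rfl, fun z => (d z).elim⟩

theorem c2_right (k : KG E K θ S) (g : Sys E K G) (ho : IsOrd E l) (lt : E κ l)
    (e : G1 = nr2 E K S G κ l) :
    Sys E K G1 ∧ Sub E G G1 ∧ RelCC E G G1 ∧ Fix E (Wm E K G) (Wm E K G1) (fac E K G G1) κ ∧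
      Wm E K G1 ⊆ Wm E K G ∧
      (∀ u v p, Le E u κ →
        (At E (jG E K G1 S) u v p ↔ At E (jG E K G S) u v p ∧ (E u κ ∨ E v l))) ∧
      (¬ Dom E (jG E K G S) κ l → G1 = G) ∧ (Dom E (jG E K G S) κ l → E κ (jG E K G K) ∧
        UltW E (Wm E K G) κ l (slc E (jG E K G S) κ l) (fac E K G G1) (Wm E K G1)) := by
  have el := g.el k.ac
  have oκ := ho.mem lt
  have sl : Slice E (jG E K G S) κ l (slc E (jG E K G S) κ l) := mem_slc _ κ l
  by_cases d : Dom E (jG E K G S) κ l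
  · have hκ : E κ (jG E K G K) := by_contra fun n =>
      no1 (com_lt k.ac k.lim k.mem k.hS k.coh el oκ n d)
    obtain ⟨a1, a2, a3, a4, a5, a6, -, a8⟩ := side_step k.ac k.lim k.mem k.coh g ho lt hκ
      (com_side k.coh el oκ ho sl) e
    obtain ⟨p, hp⟩ := id d
    exact ⟨a1, a2, a3, a4, a5, a6, fun n => (n d).elim,
      fun _ => ⟨hκ, a8 fun z => z p ((sl p).2 hp)⟩⟩
  · have e' : G1 = G := e.trans (cmpA_idle fun p hp => d ⟨p, (sl p).1 hp⟩)
    rw [e']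
    exact ⟨g, fun _ => id, RelCC.refl _, g.fix_refl k.ac _, subset_rfl,
      fun u v p le => cm2a_idle (cm2a_img k g) ho lt d le, fun _ => rfl, fun z => (d z).elim⟩

end Cm2A

end Pool.Agent.Lib.MP_75a307_lc.LE
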