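import Pool.Agent.Lib.MP_75a307_lc.LE.Cm2A

/-! The invariant of the comparison of a small model with an iterate of the universe is kept. -/

set_option synthInstance.maxSize 100000
set_option linter.unusedVariables false
set_option linter.unusedSectionVars false

namespace Pool.Agent.Lib.MP_75a307_lc.LE

open Pool.Agent.Lib.MP_1d770b_lc

universe u
variable {M : Type u} {E : M → M → Prop} [hZ : ZF E]

section Cm2B
variable {D : MoD M} {K θ S L G L1 G1 ξ ξ' κ l α γ : M}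

theorem cm2b_tr {N : M} (t : Trans E N) : Tr E (cl E N) := fun x hx y hy => t x y hx hy

/-- below the critical point of a move all lengths are below that critical point -/
theorem cm2b_low (k : KG E K θ S) (m : Mo E D) (o : D.Ok L) (g : Sys E K G)
    (F : MvF E D K S L G ξ κ l) {u v : M} (hu : E u κ)
    (d : Dom E (D.A L) u v ∨ Dom E (jG E K G S) u v) : E v κ := by
  have i := m.img L o
  have i' := cmpA_img k.ac k.coh (g.el k.ac)
  have c := m.clo L o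
  have t := (m.en L L o o fun _ => id).1.tr
  have I := g.inn k.ac
  have ou := F.lim.1.mem hu
  have uN := t _ _ F.hκ hu
  have e := F.agree u κ (pr E u (tup E u)) (Or.inl hu) (c.pr _ _ uN (c.tup _ uN))
    (I.pr.2 ⟨I.ord ou, I.tup (I.ord ou)⟩)
  by_contra n
  have b : Dom E (D.A L) u κ ∧ Dom E (jG E K G S) u κ := by
    rcases d with d | d
    · have d' : Dom E (D.A L) u κ := (F.lim.1.le_of_not (i.lim _ _ d).2 n).elim
        (fun a => i.down _ _ _ d a hu) fun a => a ▸ d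
      exact ⟨d', _, e.1 (i.top _ _ d')⟩
    · have d' : Dom E (jG E K G S) u κ := (F.lim.1.le_of_not (i'.lim _ _ d).2 n).elim
        (fun a => i'.down _ _ _ d a hu) fun a => a ▸ d
      exact ⟨⟨_, e.2 (i'.top _ _ d')⟩, d'⟩
  exact no1 (F.mv.elim (fun a => i.nov _ _ _ _ b.1 a hu) fun a => i'.nov _ _ _ _ b.2 a hu)

theorem c2_step (k : KG E K θ S) (m : Mo E D) (i : Inv2 E D K S L G ξ)
    (h : Mv2 E D K S L G κ l) (h1 : Lim E ξ') (h2 : E l ξ')
    (h3 : ∀ η, E η ξ' → E l η → ¬ Lim E η) :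
    Inv2 E D K S (nl2 E D L κ l) (nr2 E K S G κ l) ξ' := by
  have F := c2_facts k m i h
  obtain ⟨o, g, -⟩ := i
  obtain ⟨a1, s, -, fx, lN, a2, -⟩ := c2_left m o F.ord F.lt F.hl rfl
  obtain ⟨b1, -, -, -, b3, b2, -⟩ := c2_right k g F.ord F.lt rfl
  have en := (m.en _ _ o a1 s).1
  have i0 := m.img L o
  have i0' := cmpA_img k.ac k.coh (g.el k.ac)
  have c := m.clo L o
  have gap : ∀ {u v}, E u ξ' → Dom E (D.A (nl2 E D L κ l)) u v ∨
      Dom E (jG E K (nr2 E K S G κ l) S) u v → Le E u κ := fun hu d => by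
    refine Or.resolve_right ?_ fun n : Le E ξ' _ => n.not_lt hu
    rcases d with d | d
    · exact cmpA_gap (m.img _ a1) F.lim.1 F.ord (fun l' x y =>
        let ⟨p, hp⟩ := (F.dn l' x y).1; ⟨p, (a2 _ _ _ (Or.inr rfl)).2 ⟨hp, Or.inr x⟩⟩) h1 h3 d
    · exact cmpA_gap (cmpA_img k.ac k.coh (b1.el k.ac)) F.lim.1 F.ord (fun l' x y =>
        let ⟨p, hp⟩ := (F.dn l' x y).2; ⟨p, (b2 _ _ _ (Or.inr rfl)).2 ⟨hp, Or.inr x⟩⟩) h1 h3 d
  refine ⟨a1, b1, h1, (m.clo _ a1).nxt en.tr' lN h1 h2 h3, fun u v p q hp hp' => ?_,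
    fun η hη => ⟨l, h2, fun u v hu d => ?_⟩⟩
  · have q' : E u ξ' := q.resolve_right fun q => emp_spec _ q.2
    by_cases le : Le E u κ
    · rw [a2 _ _ _ le, b2 _ _ _ le]
      refine and_congr_left fun e => ?_
      have e' : E u κ ∨ (u = κ ∧ E v l) := le.elim Or.inl fun x => e.imp_right fun e => ⟨x, e⟩
      refine ⟨fun a => (F.agree _ _ _ e' (cmpA_at (cm2b_tr en.tr) i0.mem a).2.2 (b3 hp')).1 a,
        fun a => (F.agree _ _ _ e' ?_ (b3 hp')).2 a⟩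
      obtain ⟨x1, x2, x3⟩ := cmpA_at (g.el k.ac).trans i0'.mem a
      obtain ⟨-, -, -, b, X, hb, ⟨t, -, ht, y1⟩, t', -, ht', y2⟩ := i0'.shape u x1 v x2 p x3 a
      rw [ht.eq] at y1
      rw [ht'.eq] at y2
      have vN : E v (D.N L) := e.elim
        (fun e => en.tr _ _ F.hκ (cm2b_low k m o g F e (Or.inr ⟨p, a⟩))) (en.tr _ _ F.hl)
      rw [pr_eq.1 hb]
      exact c.pr _ _ (en.tr _ _ (c.tup _ vN) y1)
        ((fx.2 X fun z hz => tup_rk F.lim (le.sub F.lim.1) (y2 z hz)).2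
          ((cm2b_tr en.tr').opair hp hb).2)
    · exact iff_of_false (fun a => le (gap q' (Or.inl ⟨p, a⟩))) fun a => le (gap q' (Or.inr ⟨p, a⟩))
  · have le := gap (h1.1.tr hη hu) d
    rcases d with ⟨p, hp⟩ | ⟨p, hp⟩
    · obtain ⟨c1, c2⟩ := (a2 _ _ _ le).1 hp
      exact c2.elim (fun e => F.ord.tr F.lt (cm2b_low k m o g F e (Or.inl ⟨p, c1⟩))) id
    · obtain ⟨c1, c2⟩ := (b2 _ _ _ le).1 hp
      exact c2.elim (fun e => F.ord.tr F.lt (cm2b_low k m o g F e (Or.inr ⟨p, c1⟩))) id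

/-- a map that fixes `V_ξ` does not change the sequence below `ξ` -/
theorem cm2b_tail {N N1 A u v p : M} {π : M → M} (h : EN E N π N1)
    (f : Fix E (cl E N) (cl E N1) π ξ) (hξ : Lim E ξ) (sN : Sub E ξ N)
    (i : cmpAImg E (cl E N) A) (i' : cmpAImg E (cl E N1) (π A))
    (b : ∀ η, E η ξ → ∃ ζ, E ζ ξ ∧ ∀ u v, E u η → Dom E A u v → E v ζ) (hu : E u ξ) :
    (At E (π A) u v p ↔ At E A u v p) ∧ (At E A u v p → Rk E p ξ) := by
  obtain ⟨s, hs⟩ := ex_suc E u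
  obtain ⟨ζ, z1, z2⟩ := b s (hξ.suc hu hs)
  have o : ∀ a, E a ξ → π a = a := fun a ha => f.1 a (sN a ha) (hξ.1.rk ha)
  have back : ∀ {v p}, E v ξ → At E (π A) u v p → At E A u v p := fun {v p} hv a => by
    have r := i'.rk _ _ _ _ a hξ hu hv
    have pN := (f.2 p fun z hz => r.mem hz).2 (cmpA_at (cm2b_tr h.tr') i'.mem a).2.2
    refine (h.at i.mem).1 ⟨sN u hu, sN v hv, pN, ?_⟩
    rwa [o u hu, o v hv, f.1 p pN r]
  have r : At E A u v p → E v ξ ∧ Rk E p ξ := fun a =>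
    have hv := hξ.1.tr z1 (z2 u v hs.self ⟨p, a⟩)
    ⟨hv, i.rk _ _ _ _ a hξ hu hv⟩
  refine ⟨⟨fun a => back ?_ a, fun a => ?_⟩, fun a => (r a).2⟩
  · obtain ⟨c, c1, c2, c3⟩ := hξ.two hu z1
    refine ((i'.lim _ _ ⟨p, a⟩).2.le_of_not (hξ.1.mem c1) fun n => ?_).lt hξ.1 c1
    exact no2 c3 (z2 u c hs.self ⟨_, back c1 (i'.top _ _ (i'.down _ _ _ ⟨p, a⟩ n c2))⟩)
  · obtain ⟨-, -, pN, a'⟩ := (h.at i.mem).2 a
    rwa [o u hu, o v (r a).1, f.1 p pN (r a).2] at a'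

theorem c2_tail (k : KG E K θ S) (m : Mo E D) (i : Inv2 E D K S L G ξ) (o : D.Ok L1)
    (g : Sys E K G1) (s : Sub E L L1) (s' : Sub E G G1) (f : FixN E D L L1 ξ)
    (f' : Fix E (Wm E K G) (Wm E K G1) (fac E K G G1) ξ) : Inv2 E D K S L1 G1 ξ := by
  obtain ⟨o0, g0, hξ, sN, ag, bd⟩ := i
  obtain ⟨e1, e2⟩ := m.en L L1 o0 o s
  obtain ⟨e1', e2', -⟩ := g0.fac k.ac g s'
  have t := fun {u v p : M} (hu : E u ξ) => cm2b_tail (v := v) (p := p) e1 f hξ sN (m.img L o0)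
    (by rw [e2]; exact m.img L1 o) (fun η hη =>
      let ⟨ζ, z1, z2⟩ := bd η hη; ⟨ζ, z1, fun u v a d => z2 u v a (Or.inl d)⟩) hu
  have t' := fun {u v p : M} (hu : E u ξ) => cmpA_tail (v := v) (p := p) e1' f' hξ
    (cmpA_img k.ac k.coh (g0.el k.ac)) (by rw [e2']; exact cmpA_img k.ac k.coh (g.el k.ac))
    (fun η hη => let ⟨ζ, z1, z2⟩ := bd η hη; ⟨ζ, z1, fun u v a d => z2 u v a (Or.inr d)⟩) hu
  rw [e2] at t
  rw [e2'] at t'
  refine ⟨o, g, hξ, fun a ha => ?_, fun u v p q hp hp' => ?_, fun η hη => ?_⟩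
  · rw [← f.1 a (sN a ha) (hξ.1.rk ha)]
    exact e1.maps a (sN a ha)
  · have hu : E u ξ := q.resolve_right fun q => emp_spec _ q.2
    rw [(t hu).1, (t' hu).1]
    by_cases r : Rk E p ξ
    · exact ag u v p q ((f.2 p fun z hz => r.mem hz).2 hp) ((f'.2 p fun z hz => r.mem hz).2 hp')
    · exact iff_of_false (fun a => r ((t hu).2 a)) fun a => r ((t' hu).2 a)
  · obtain ⟨ζ, z1, z2⟩ := bd η hη
    exact ⟨ζ, z1, fun u v a d => z2 u v a (d.imp
      (fun ⟨p, d⟩ => ⟨p, (t (hξ.1.tr hη a)).1.1 d⟩) fun ⟨p, d⟩ => ⟨p, (t' (hξ.1.tr hη a)).1.1 d⟩)⟩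

end Cm2B

end Pool.Agent.Lib.MP_75a307_lc.LE
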