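import Pool.Agent.Lib.MP_75a307_lc.LE.MoE

/-! Fixed initial segments pass to limits of chains of small models. -/

set_option synthInstance.maxSize 100000
set_option linter.unusedVariables false
set_option linter.unusedSectionVars false

namespace Pool.Agent.Lib.MP_75a307_lc.LE

open Pool.Agent.Lib.MP_1d770b_lc

universe u
variable {M : Type u} {E : M → M → Prop} [hZ : ZF E]

section Cm2L
variable {D : MoD M} {ξ α γ : M}

theorem cm2l_sub {L : M → M} (c : ChN E D L α) {β : M} (hβ : E β α) : Sub E (L β) (L α) :=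
  fun t ht => (c.cont α c.lim c.ne t).2 ⟨β, hβ, ht⟩

/-- every point of the limit model comes from a late earlier model -/
theorem cm2l_cof (m : Mo E D) {L : M → M} (c : ChN E D L α) (hγ : E γ α) {z : M}
    (hz : E z (D.N (L α))) :
    ∃ β y, E β α ∧ E γ β ∧ E y (D.N (L β)) ∧ D.im (L β) (L α) y = z := by
  obtain ⟨o, k⟩ := m.lim L α c
  obtain ⟨n, hn, rfl⟩ := m.nms _ z o hz
  obtain ⟨δ, hδ, h1⟩ := k n hn
  obtain ⟨β, hβ, b1, b2⟩ := c.lim.two hγ hδ
  have h2 := (m.nmm _ _ n (c.ok δ hδ) (c.ok β hβ) (c.mono β δ hβ (.inl b2)) h1).1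
  obtain ⟨-, h3, h4⟩ := m.nmm _ _ n (c.ok β hβ) o (cm2l_sub c hβ) h2
  exact ⟨β, _, hβ, b1, h3, h4.symm⟩

theorem fixN_lim (m : Mo E D) {L : M → M} (c : ChN E D L α) (hγ : E γ α) (ho : IsOrd E ξ)
    (hξ : E ξ (D.N (L γ))) (f : ∀ β, E β α → Le E γ β → FixN E D (L γ) (L β) ξ) :
    FixN E D (L γ) (L α) ξ := by
  have o := (m.lim L α c).1
  have en : ∀ β, E β α → EN E (D.N (L β)) (D.im (L β) (L α)) (D.N (L α)) := fun β hβ =>
    (m.en _ _ (c.ok β hβ) o (cm2l_sub c hβ)).1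
  have e := en γ hγ
  have cp : ∀ β, E β α → E γ β → ∀ x, E x (D.N (L γ)) → Rk E x ξ →
      D.im (L β) (L α) x = D.im (L γ) (L α) x := fun β hβ b x hx r => by
    rw [← m.comp _ _ _ x (c.ok γ hγ) (c.ok β hβ) o (c.mono β γ hβ (.inl b)) (cm2l_sub c hβ) hx,
      (f β hβ (.inl b)).1 x hx r]
  have p1 : ∀ x, E x (D.N (L γ)) → Rk E x ξ → D.im (L γ) (L α) x = x := by
    have := e.dπ
    refine mem_ind E (fun x => E x (D.N (L γ)) → Rk E x ξ → D.im (L γ) (L α) x = x)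
      fun x ih hx r => ext' (E := E) fun z => ⟨fun hz => ?_, fun hz => ?_⟩
    · obtain ⟨β, y, hβ, b, hy, rfl⟩ := cm2l_cof m c hγ (e.tr' _ _ (e.maps x hx) hz)
      rw [← cp β hβ b x hx r] at hz
      have k := ((en β hβ).mem_iff hy
        (((f β hβ (.inl b)).2 x fun _ h => r.mem h).1 hx)).1 hz
      rw [cp β hβ b y (e.tr _ _ hx k) (r.mem k), ih y k (e.tr _ _ hx k) (r.mem k)]
      exact k
    · have k := (e.mem_iff (e.tr _ _ hx hz) hx).2 hz
      rwa [ih z hz (e.tr _ _ hx hz) (r.mem hz)] at k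
  have fx : ∀ β, E β α → E γ β → ∀ y, E y (D.N (L β)) → Rk E y ξ →
      E y (D.N (L γ)) ∧ D.im (L β) (L α) y = y := fun β hβ b y hy r =>
    have k : E y (D.N (L γ)) := ((f β hβ (.inl b)).2 y fun _ h => r.mem h).2 hy
    ⟨k, (cp β hβ b y k r).trans (p1 y k r)⟩
  have low : ∀ z, E z (D.N (L α)) → Rk E z ξ → E z (D.N (L γ)) := fun z hz r => by
    obtain ⟨β, y, hβ, b, hy, rfl⟩ := cm2l_cof m c hγ hz
    obtain ⟨k1, k2⟩ := fx β hβ b y hy ((en β hβ).rk_back hy r)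
    rwa [k2]
  refine ⟨p1, fun x r => ⟨fun hx => ?_, fun hx => ?_⟩⟩
  · have hξ' : E ξ (D.N (L α)) := by
      rcases e.le_map ho hξ with k | k
      · exact e.tr' _ _ (e.maps ξ hξ) k
      · exact k ▸ e.maps ξ hξ
    refine (m.clo _ o).cut _ ξ x (e.maps x hx) hξ' fun z => ⟨fun hz => ⟨?_, r z hz⟩, fun hz => ?_⟩
    · have k := (e.mem_iff (e.tr _ _ hx hz) hx).2 hz
      rwa [p1 z (e.tr _ _ hx hz) (r z hz)] at k
    · have k := low z (e.tr' _ _ (e.maps x hx) hz.1) hz.2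
      exact (e.mem_iff k hx).1 ((p1 z k hz.2).symm ▸ hz.1)
  · obtain ⟨β, y, hβ, b, hy, rfl⟩ := cm2l_cof m c hγ hx
    have e' := en β hβ
    have ry : ∀ w, E w y → Rk E w ξ := fun w hw =>
      e'.rk_back (e'.tr _ _ hy hw) (r _ ((e'.mem_iff (e'.tr _ _ hy hw) hy).2 hw))
    have : D.im (L β) (L α) y = y := ext' (E := E) fun z => ⟨fun hz => ?_, fun hz => ?_⟩
    · rw [this]
      exact ((f β hβ (.inl b)).2 y ry).2 hy
    · have k : E z (D.N (L β)) := ((f β hβ (.inl b)).2 z fun _ h => (r z hz).mem h).1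
        (low z (e.tr' _ _ hx hz) (r z hz))
      exact (e'.mem_iff k hy).1 ((fx β hβ b z k (r z hz)).2.symm ▸ hz)
    · have k := (e'.mem_iff (e'.tr _ _ hy hz) hy).2 hz
      rwa [(fx β hβ b z (e'.tr _ _ hy hz) (ry z hz)).2] at k

end Cm2L

end Pool.Agent.Lib.MP_75a307_lc.LE
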