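import Pool.Agent.Lib.MP_75a307_lc.LE.Cm2B
import Pool.Agent.Lib.MP_75a307_lc.LE.Cm2L

/-! A comparison that never stops runs through all ordinals. -/

set_option synthInstance.maxSize 100000
set_option linter.unusedVariables false
set_option linter.unusedSectionVars false

namespace Pool.Agent.Lib.MP_75a307_lc.LE

open Pool.Agent.Lib.MP_1d770b_lc

universe u
variable {M : Type u} {E : M → M → Prop} [hZ : ZF E]

section Cm2R
variable {D : MoD M} {K θ S L0 G0 ξ0 : M}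

theorem run_ex (k : KG E K θ S) (m : Mo E D) (h0 : Inv2 E D K S L0 G0 ξ0)
    (H : ∀ L G ξ, Inv2 E D K S L G ξ → FixN E D L0 L ξ0 →
      Fix E (Wm E K G0) (Wm E K G) (fac E K G0 G) ξ0 → ∃ κ l, Dis E D K S L G κ l) :
    ∃ L R X κ l, Run E D K S L R X κ l := by
  have hC := k.ac
  have dM' := dt4 (m.dMv2 K S)
  let kk : M → M → M := fun L G => the E fun κ => ∃ l, Mv2 E D K S L G κ l
  let ll : M → M → M := fun L G => the E fun l => ∃ κ, Mv2 E D K S L G κ l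
  have dkk : F2 E kk := f2 fun _ _ _ _ _ _ => by simp only [kk]; infer_instance
  have dll : F2 E ll := f2 fun _ _ _ _ _ _ => by simp only [ll]; infer_instance
  let nl : M → M := fun l => the E fun ξ => Lim E ξ ∧ E l ξ ∧ ∀ η, E η ξ → E l η → ¬ Lim E η
  have dnl : F1 E nl := f1 fun _ _ _ _ => by simp only [nl]; infer_instance
  have hnl : ∀ l, IsOrd E l → Lim E (nl l) ∧ E l (nl l) ∧
      ∀ η, E η (nl l) → E l η → ¬ Lim E η := fun l hl => by
    obtain ⟨ξ, h⟩ := ex_next_lim hl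
    have : nl l = ξ := the_eq h fun ξ' h' => by
      rcases h'.1.1.tri h.1.1 with k | k | k
      exacts [(h.2.2 _ k h'.2.1 h'.1).elim, k, (h'.2.2 _ k h.2.1 h.1).elim]
    rwa [this]
  obtain ⟨L, R, X, dL, dR, dX, eq⟩ := cmp_rec (E := E)
    (fun L G => nl2 E D L (kk L G) (ll L G)) (fun L G => nr2 E K S G (kk L G) (ll L G))
    (fun L G => nl (ll L G)) (fun _ _ _ _ => f3 m.dnl2 _ _ _)
    (fun _ _ _ _ => f3 (dnr2 K S) _ _ _) (fun _ _ _ _ => inferInstance) L0 G0 ξ0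
  have z1 : ∀ e, IsEmp E e → L e = L0 ∧ R e = G0 ∧ X e = ξ0 := fun e he => by
    obtain ⟨a, b, c⟩ := eq e he.ord
    refine ⟨ext' E fun t => (a t).trans ?_, ext' E fun t => (b t).trans ?_,
      ext' E fun t => (c t).trans ?_⟩ <;>
    exact ⟨fun k => k.elim id fun ⟨β, k, _⟩ => (he β k).elim, Or.inl⟩
  let P : M → Prop := fun α => Inv2 E D K S (L α) (R α) (X α) ∧
    ∀ γ, Le E γ α → Sub E (L γ) (L α) ∧ Sub E (R γ) (R α) ∧ Le E (X γ) (X α) ∧
      FixN E D (L γ) (L α) (X γ) ∧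
      Fix E (Wm E K (R γ)) (Wm E K (R α)) (fac E K (R γ) (R α)) (X γ)
  have dF : D3 E fun a b c => Fix E (Wm E K a) (Wm E K b) (fac E K a b) c :=
    fun _ _ _ _ _ _ => inferInstance
  have dP : Df E fun v => P (v 0) := by
    have a1 := dt3 (m.dInv2 K S) (fun v => L (v 0)) (fun v => R (v 0)) (fun v => X (v 0))
    have a2 := dt3 m.dFix (fun v => L (v 0)) (fun v => L (v 1)) (fun v => X (v 0))
    have a3 := dt3 dF (fun v => R (v 0)) (fun v => R (v 1)) (fun v => X (v 0))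
    simp only [P]; infer_instance
  have mv : ∀ α, IsOrd E α → P α →
      Mv2 E D K S (L α) (R α) (kk (L α) (R α)) (ll (L α) (R α)) := fun α ho p => by
    obtain ⟨e, he⟩ := ex_emp E
    obtain ⟨e1, e2, e3⟩ := z1 e he
    obtain ⟨-, -, -, a4, a5⟩ := p.2 e (he.le ho)
    rw [e1, e3] at a4
    rw [e2, e3] at a5
    obtain ⟨κ, l, d⟩ := H _ _ _ p.1 a4 a5
    obtain ⟨κ, l, h⟩ := c2_least k m p.1.1 p.1.2.1 d
    have e4 : kk (L α) (R α) = κ :=
      the_eq ⟨l, h⟩ fun κ' ⟨l', h'⟩ => (h'.uniq k m p.1.1 p.1.2.1 h).1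
    have e5 : ll (L α) (R α) = l :=
      the_eq ⟨κ, h⟩ fun l' ⟨κ', h'⟩ => (h'.uniq k m p.1.1 p.1.2.1 h).2
    rwa [e4, e5]
  have move : ∀ α s, IsOrd E α → IsSuc E s α → P α →
      L s = nl2 E D (L α) (kk (L α) (R α)) (ll (L α) (R α)) ∧
      R s = nr2 E K S (R α) (kk (L α) (R α)) (ll (L α) (R α)) ∧
      X s = nl (ll (L α) (R α)) := fun α s ho hs p => by
    have f := c2_facts k m p.1 (mv α ho p)
    obtain ⟨b1, b2, b3⟩ := eq s (hs.ord ho)
    obtain ⟨c1, c2, c3⟩ := eq α ho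
    obtain ⟨n1, n2, n3⟩ := hnl _ f.ord
    have q1 := cmp_suc hs b1 c1 (c2_left m p.1.1 f.ord f.lt f.hl rfl).2.1
    have q2 := cmp_suc hs b2 c2 (c2_right k p.1.2.1 f.ord f.lt rfl).2.1
    have q3 := cmp_suc hs b3 c3
      fun t h => n1.1.tr n2 (f.ord.tr f.lt (f.le.sub (f.ord.mem f.lt) t h))
    exact ⟨q1, q2, q3⟩
  have lim1 := fun α hl ne => cmp_lim (α := α) hl ne fun β ho => (eq β ho).1
  have lim2 := fun α hl ne => cmp_lim (α := α) hl ne fun β ho => (eq β ho).2.1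
  have lim3 := fun α hl ne => cmp_lim (α := α) hl ne fun β ho => (eq β ho).2.2
  have st : ∀ β s, IsOrd E β → IsSuc E s β → P β → (Sub E (L β) (L s) ∧ D.RC (L β) (L s)) ∧
      Sub E (R β) (R s) ∧ RelCC E (R β) (R s) := fun β s ho hs p => by
    have f := c2_facts k m p.1 (mv β ho p)
    obtain ⟨q1, q2, -⟩ := move β s ho hs p
    obtain ⟨-, a2, a3, -⟩ := c2_left m p.1.1 f.ord f.lt f.hl q1
    obtain ⟨-, b2, b3, -⟩ := c2_right k p.1.2.1 f.ord f.lt q2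
    exact ⟨⟨a2, a3⟩, b2, b3⟩
  have chn : ∀ α, Lim E α → (∃ z, E z α) → (∀ β, E β α → P β) → ChN E D L α :=
    fun α hl ne ih => ⟨dL, hl, ne, fun β h => (ih β h).1.1,
      fun β s h hs => (st β s (hl.1.mem h) hs (ih β h)).1, lim1,
      fun β γ h h' => ((ih β h).2 γ h').1⟩
  have all : ∀ α, IsOrd E α → P α := by
    refine ord_ind P fun α ho ih => ?_
    have fin : Inv2 E D K S (L α) (R α) (X α) →
        (∀ γ, E γ α → Sub E (L γ) (L α) ∧ Sub E (R γ) (R α) ∧ Le E (X γ) (X α) ∧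
          FixN E D (L γ) (L α) (X γ) ∧
          Fix E (Wm E K (R γ)) (Wm E K (R α)) (fac E K (R γ) (R α)) (X γ)) → P α :=
      fun a c => ⟨a, fun γ h => h.elim (c γ) fun h => by
        rw [h]
        exact ⟨fun _ k => k, fun _ k => k, Or.inr rfl,
          ⟨fun x hx _ => m.id _ x a.1 hx, fun _ _ => Iff.rfl⟩, a.2.1.fix_refl hC _⟩⟩
    rcases ord_cases ho with he | ⟨β, hs⟩ | ⟨hl, ne⟩
    · obtain ⟨e1, e2, e3⟩ := z1 α he
      exact fin (by rwa [e1, e2, e3]) fun γ k => (he γ k).elim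
    · have p := ih β hs.self
      have oβ := ho.mem hs.self
      have f := c2_facts k m p.1 (mv β oβ p)
      obtain ⟨q1, q2, q3⟩ := move β α oβ hs p
      obtain ⟨n1, n2, n3⟩ := hnl _ f.ord
      obtain ⟨a1, a2, -, a4, -⟩ := c2_left m p.1.1 f.ord f.lt f.hl q1
      obtain ⟨b1, b2, -, b4, -⟩ := c2_right k p.1.2.1 f.ord f.lt q2
      have oκ := f.ord.mem f.lt
      refine fin (by rw [q1, q2, q3]; exact c2_step k m p.1 (mv β oβ p) n1 n2 n3) fun γ h => ?_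
      obtain ⟨c1, c2, c3, c4, c5⟩ := p.2 γ ((hs γ).1 h)
      have pγ := ih γ h
      have le := c3.trans f.le oκ
      exact ⟨fun t k => a2 t (c1 t k), fun t k => b2 t (c2 t k),
        Or.inl (q3 ▸ le.lt n1.1 (n1.1.tr n2 f.lt)),
        Fix.comp c4 (Fix.mono a4 oκ le) fun x hx =>
          (m.comp _ _ _ x pγ.1.1 p.1.1 a1 c1 a2 hx).symm,
        c5.comp (b4.mono oκ le) fun x hx => (pγ.1.2.1.fac_comp hC p.1.2.1 b1 c2 b2 hx).symm⟩
    · have c := chn α hl ne ih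
      obtain ⟨d, d1, d2⟩ := cmp_chain dR hl ne (fun β k => (ih β k).1.2.1)
        (fun β s k hs => (st β s (ho.mem k) hs (ih β k)).2) lim2
      have s1 := (m.lim L α c).1
      have s2 := d1.un_sys hC
      have oX : IsOrd E (X α) := ord_of_trans (fun x y hx hy => by
        obtain ⟨β, k1, k2⟩ := (lim3 α hl ne x).1 hx
        exact (lim3 α hl ne y).2 ⟨β, k1, (ih β k1).1.2.2.1.1.tr k2 hy⟩) fun x hx => by
        obtain ⟨β, k1, k2⟩ := (lim3 α hl ne x).1 hx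
        exact (ih β k1).1.2.2.1.1.mem k2
      have inN : ∀ γ, E γ α → E (X γ) (D.N (L γ)) := fun γ h => by
        have p := ih γ h
        have f := c2_facts k m p.1 (mv γ (ho.mem h) p)
        rcases f.le with h1 | h1
        · exact (m.en _ _ p.1.1 p.1.1 fun _ k => k).1.tr _ _ f.hκ h1
        · exact h1 ▸ f.hκ
      have ext : ∀ γ, E γ α → Sub E (L γ) (L α) ∧ Sub E (R γ) (R α) ∧ Le E (X γ) (X α) ∧
          FixN E D (L γ) (L α) (X γ) ∧
          Fix E (Wm E K (R γ)) (Wm E K (R α)) (fac E K (R γ) (R α)) (X γ) := fun γ h =>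
        ⟨fun t ht => (lim1 α hl ne t).2 ⟨γ, h, ht⟩, fun t ht => (lim2 α hl ne t).2 ⟨γ, h, ht⟩,
          (ih γ h).1.2.2.1.1.le_of_sub oX fun t ht => (lim3 α hl ne t).2 ⟨γ, h, ht⟩,
          fixN_lim m c h (ih γ h).1.2.2.1.1 (inN γ h) fun β k1 k2 => ((ih β k1).2 γ k2).2.2.2.1,
          fix_lim hC d1 h ((d2 _ _).2 ⟨h, rfl⟩) fun β G1 k1 k2 k3 =>
            ((d2 _ _).1 k3).2 ▸ ((ih β k1).2 γ k2).2.2.2.2⟩
      have tail : ∀ γ, E γ α → Inv2 E D K S (L α) (R α) (X γ) := fun γ h =>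
        let ⟨a1, a2, _, a4, a5⟩ := ext γ h; c2_tail k m (ih γ h).1 s1 s2 a1 a2 a4 a5
      refine fin ⟨s1, s2, ⟨oX, fun η h => ?_⟩, fun η h => ?_, fun κ' l' p h => ?_,
        fun η h => ?_⟩ ext
      · obtain ⟨β, k1, k2⟩ := (lim3 α hl ne η).1 h
        obtain ⟨ζ, k3, k4⟩ := (ih β k1).1.2.2.1.2 η k2
        exact ⟨ζ, (lim3 α hl ne ζ).2 ⟨β, k1, k3⟩, k4⟩
      · obtain ⟨β, k1, k2⟩ := (lim3 α hl ne η).1 h
        exact (tail β k1).2.2.2.1 η k2
      · obtain ⟨β, k1, k2⟩ := (lim3 α hl ne κ').1 (h.resolve_right fun k => emp_spec _ k.2)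
        exact (tail β k1).2.2.2.2.1 κ' l' p (Or.inl k2)
      · obtain ⟨β, k1, k2⟩ := (lim3 α hl ne η).1 h
        obtain ⟨ζ, k3, k4⟩ := (tail β k1).2.2.2.2.2 η k2
        exact ⟨ζ, (lim3 α hl ne ζ).2 ⟨β, k1, k3⟩, k4⟩
  refine ⟨L, R, X, fun α => kk (L α) (R α), fun α => ll (L α) (R α), dL, dR, dX,
    fun t _ => inferInstance, fun t _ => inferInstance, fun α ho => (all α ho).1,
    fun α γ ho h => (all α ho).2 γ h, fun α ho => mv α ho (all α ho), fun α s ho hs => ?_,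
    fun α hl ne => (m.lim L α (chn α hl ne fun β h => all β (hl.1.mem h))).2, lim2, lim3⟩
  obtain ⟨q1, q2, q3⟩ := move α s ho hs (all α ho)
  exact ⟨q1, q2, q3 ▸ (hnl _ (c2_facts k m (all α ho).1 (mv α ho (all α ho))).ord).2.1⟩

end Cm2R

end Pool.Agent.Lib.MP_75a307_lc.LE
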