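import Pool.Agent.Lib.MP_75a307_lc.LE.CmpA

/-! Every comparison of two iterates of the universe stops. -/

set_option synthInstance.maxSize 100000
set_option linter.unusedVariables false
set_option linter.unusedSectionVars false

namespace Pool.Agent.Lib.MP_75a307_lc.LE

open Pool.Agent.Lib.MP_1d770b_lc

universe u
variable {M : Type u} {E : M → M → Prop} [hZ : ZF E]

/-- a class function on the ordinals whose three coordinates are cumulative unions -/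
theorem cmp_rec (g1 g2 g3 : M → M → M) (d1 : F2 E g1) (d2 : F2 E g2) (d3 : F2 E g3)
    (b1 b2 b3 : M) : ∃ L R X : M → M, F1 E L ∧ F1 E R ∧ F1 E X ∧ ∀ α, IsOrd E α →
      (∀ t, E t (L α) ↔ E t b1 ∨ ∃ β, E β α ∧ E t (g1 (L β) (R β))) ∧
      (∀ t, E t (R α) ↔ E t b2 ∨ ∃ β, E β α ∧ E t (g2 (L β) (R β))) ∧
      (∀ t, E t (X α) ↔ E t b3 ∨ ∃ β, E β α ∧ E t (g3 (L β) (R β))) := by
  let U : (M → M → M) → M → M → M → M → Prop := fun g b f α A => ∀ t, E t A ↔ E t b ∨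
    ∃ β z, E β α ∧ App E f β z ∧ E t (g (p1 E (p1 E z)) (p2 E (p1 E z)))
  have exU : ∀ g, F2 E g → ∀ b f α, ∃ A, U g b f α A := fun g dg b f α => by
    obtain ⟨d, hd⟩ := ex_fld E f
    obtain ⟨r, hr⟩ := repl E d (fun z y => y = g (p1 E (p1 E z)) (p2 E (p1 E z)))
      fun x y y' _ k1 k2 => k1.trans k2.symm
    obtain ⟨u, hu⟩ := ex_sUnion E r
    obtain ⟨c, hc⟩ := ex_union E b u
    obtain ⟨A, hA⟩ := sep E c fun t => E t b ∨
      ∃ β z, E β α ∧ App E f β z ∧ E t (g (p1 E (p1 E z)) (p2 E (p1 E z)))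
    refine ⟨A, fun t => (hA t).trans ⟨fun k => k.2, fun k => ⟨(hc t).2 (k.imp_right ?_), k⟩⟩⟩
    exact fun ⟨β, z, _, k1, k2⟩ => (hu t).2 ⟨_, (hr _).2 ⟨z, (hd _ _ k1).2, rfl⟩, k2⟩
  have invU : ∀ g b f f' α A, (∀ β, E β α → ∀ y, App E f β y ↔ App E f' β y) →
      U g b f α A → U g b f' α A := fun g b f f' α A H h t => (h t).trans (or_congr_right
    (exists₂_congr fun β z => and_congr_right fun k => and_congr_left fun _ => H β k z))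
  let S : M → M → M → Prop := fun f α y => ∃ A B C, y = pr E (pr E A B) C ∧ U g1 b1 f α A ∧
    U g2 b2 f α B ∧ U g3 b3 f α C
  have hr : RecOK E (IsOrd E) E S :=
    { wfOrd E with
      dS := fun _ _ _ _ _ _ => by simp only [S, U]; infer_instance
      inv := fun f g x y _ H ⟨A, B, C, e, h1, h2, h3⟩ =>
        ⟨A, B, C, e, invU _ _ _ _ _ _ H h1, invU _ _ _ _ _ _ H h2, invU _ _ _ _ _ _ H h3⟩
      ex := fun f x _ _ => by
        obtain ⟨A, h1⟩ := exU g1 d1 b1 f x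
        obtain ⟨B, h2⟩ := exU g2 d2 b2 f x
        obtain ⟨C, h3⟩ := exU g3 d3 b3 f x
        exact ⟨_, A, B, C, rfl, h1, h2, h3⟩
      uniq := fun f x y y' _ _ ⟨A, B, C, e, h1, h2, h3⟩ ⟨A', B', C', e', k1, k2, k3⟩ => by
        rw [e, e', ext' E fun t => (h1 t).trans (k1 t).symm, ext' E fun t => (h2 t).trans (k2 t).symm,
          ext' E fun t => (h3 t).trans (k3 t).symm] }
  have dH := hr.dRec
  let h : M → M := fun α => the E fun y => Rec E (IsOrd E) E S α y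
  have dh : F1 E h := f1 fun s t _ _ => by simp only [h]; infer_instance
  have hh : ∀ α y, Rec E (IsOrd E) E S α y → h α = y := fun α y k =>
    the_eq k fun y' k' => hr.fn k' k
  refine ⟨fun α => p1 E (p1 E (h α)), fun α => p2 E (p1 E (h α)), fun α => p2 E (h α),
    fun t _ => inferInstance, fun t _ => inferInstance, fun t _ => inferInstance, fun α ho => ?_⟩
  obtain ⟨y, hy⟩ := hr.total ho
  obtain ⟨f, hf, A, B, C, e, h1, h2, h3⟩ := hr.elim hy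
  have key : ∀ g b A, U g b f α A → ∀ t, E t A ↔ E t b ∨
      ∃ β, E β α ∧ E t (g (p1 E (p1 E (h β))) (p2 E (p1 E (h β)))) := fun g b A k t =>
    (k t).trans (or_congr_right (exists_congr fun β => ⟨fun ⟨z, k1, k2, k3⟩ =>
      ⟨k1, (hh β z ((hf β k1 z).1 k2)).symm ▸ k3⟩, fun ⟨k1, k3⟩ =>
        let ⟨z, hz⟩ := hr.total (ho.mem k1); ⟨z, k1, (hf β k1 z).2 hz, hh β z hz ▸ k3⟩⟩))
  simp only [hh α y hy, e, p1_pr, p2_pr]
  exact ⟨key _ _ _ h1, key _ _ _ h2, key _ _ _ h3⟩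

theorem ord_cases {α : M} (ho : IsOrd E α) :
    IsEmp E α ∨ (∃ β, IsSuc E α β) ∨ (Lim E α ∧ ∃ z, E z α) := by
  by_cases h1 : ∃ z, E z α
  · by_cases h2 : Lim E α
    · exact Or.inr (Or.inr ⟨h2, h1⟩)
    · refine Or.inr (Or.inl ?_)
      by_contra h3
      refine h2 ⟨ho, fun β hβ => ?_⟩
      obtain ⟨s, hs⟩ := ex_suc E β
      rcases hs.le ho hβ with k | rfl
      · exact ⟨s, k, hs.self⟩
      · exact (h3 ⟨β, hs⟩).elim
  · exact Or.inl fun x hx => h1 ⟨x, hx⟩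

theorem cmp_suc {L g : M → M} {b s β : M} (hs : IsSuc E s β)
    (e1 : ∀ t, E t (L s) ↔ E t b ∨ ∃ γ, E γ s ∧ E t (g γ))
    (e2 : ∀ t, E t (L β) ↔ E t b ∨ ∃ γ, E γ β ∧ E t (g γ)) (k : Sub E (L β) (g β)) :
    L s = g β := ext' E fun t => (e1 t).trans
  ⟨fun h => h.elim (fun h => k t ((e2 t).2 (Or.inl h))) fun ⟨γ, h1, h2⟩ =>
    ((hs γ).1 h1).elim (fun h3 => k t ((e2 t).2 (Or.inr ⟨γ, h3, h2⟩))) fun h3 => h3 ▸ h2,
    fun h => Or.inr ⟨β, hs.self, h⟩⟩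

theorem cmp_lim {L g : M → M} {b α : M} (hl : Lim E α) (ne : ∃ z, E z α)
    (e : ∀ β, IsOrd E β → ∀ t, E t (L β) ↔ E t b ∨ ∃ γ, E γ β ∧ E t (g γ)) (t : M) :
    E t (L α) ↔ ∃ β, E β α ∧ E t (L β) := by
  rw [e α hl.1]
  constructor
  · rintro (h | ⟨γ, h1, h2⟩)
    · obtain ⟨z, hz⟩ := ne
      exact ⟨z, hz, (e z (hl.1.mem hz) t).2 (Or.inl h)⟩
    · obtain ⟨β, k1, k2⟩ := hl.2 γ h1
      exact ⟨β, k1, (e β (hl.1.mem k1) t).2 (Or.inr ⟨γ, k2, h2⟩)⟩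
  · rintro ⟨β, k1, k2⟩
    exact ((e β (hl.1.mem k1) t).1 k2).imp_right fun ⟨γ, h1, h2⟩ => ⟨γ, hl.1.tr k1 h1, h2⟩

theorem cmp_chain {K α : M} {L : M → M} (dL : F1 E L) (hl : Lim E α) (ne : ∃ z, E z α)
    (h1 : ∀ β, E β α → Sys E K (L β))
    (h2 : ∀ β s, E β α → IsSuc E s β → Sub E (L β) (L s) ∧ RelCC E (L β) (L s))
    (h3 : ∀ β, Lim E β → (∃ z, E z β) → ∀ t, E t (L β) ↔ ∃ γ, E γ β ∧ E t (L γ)) :
    ∃ c, Chain E K c α (L α) ∧ ∀ β G, App E c β G ↔ E β α ∧ G = L β := by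
  obtain ⟨c, -, hc⟩ := ex_fun E α (fun β G => G = L β) fun x y y' _ k1 k2 => k1.trans k2.symm
  refine ⟨c, ⟨hl, ne, fun β G G' k1 k2 => ((hc _ _).1 k1).2.trans ((hc _ _).1 k2).2.symm,
    fun β k => ⟨_, (hc _ _).2 ⟨k, rfl⟩, h1 β k⟩, fun β s G G' k1 k2 k3 k4 => ?_,
    fun β G k1 k2 k3 k4 t => ?_, fun t => ?_⟩, hc⟩
  · rw [((hc _ _).1 k3).2, ((hc _ _).1 k4).2]; exact h2 β s k1 k2
  · rw [((hc _ _).1 k4).2, h3 β k2 k3]
    exact ⟨fun ⟨γ, a1, a2⟩ => ⟨γ, _, a1, (hc _ _).2 ⟨hl.1.tr k1 a1, rfl⟩, a2⟩,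
      fun ⟨γ, G', a1, a2, a3⟩ => ⟨γ, a1, ((hc _ _).1 a2).2 ▸ a3⟩⟩
  · rw [h3 α hl ne]
    exact ⟨fun ⟨γ, a1, a2⟩ => ⟨γ, _, a1, (hc _ _).2 ⟨a1, rfl⟩, a2⟩,
      fun ⟨γ, G', a1, a2, a3⟩ => ⟨γ, a1, ((hc _ _).1 a2).2 ▸ a3⟩⟩

theorem cmp_inK (hC : Choice E) {K θ G κ X : M} (hθ : Lim E θ) (hK : ∀ x, E x K ↔ Rk E x θ)
    (h : Sys E K G) (ho : IsOrd E κ) (hκ : E κ (jG E K G K)) (hX : X ∈ Wm E K G)
    (hr : ∀ z, E z X → Rk E z κ) : E (pr E κ X) (jG E K G K) := by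
  have e := h.el hC
  have hl : Lim E (jG E K G θ) := (e.tr1 (fun _ a => Lim E a) θ).1 hθ
  have k1 := (e.mem_V hK (e.ord_mem ho)).1 hκ
  exact (e.mem_V hK ((h.inn hC).pr.2 ⟨e.ord_mem ho, hX⟩)).2
    (hl.opair k1 (Rk.intro hl.1 (k1.ord_mem ho) hr) (pr_spec _ _))

/-- one side of a repeated datum -/
theorem cmp_rep (hC : Choice E) {K G G1 G2 κ l F X κ2 X2 ξ s f : M} (h : Sys E K G)
    (h1 : Sys E K G1) (h2 : Sys E K G2) (s1 : Sub E G G1) (s2 : Sub E G1 G2)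
    (fx : Fix E (Wm E K G1) (Wm E K G2) (fac E K G1 G2) ξ) (hξ : Lim E ξ) (hl : E l ξ)
    (hκ : E κ l) (ne : κ ≠ κ2) (e0 : IsEmp E F → G1 = G)
    (e1 : ¬ IsEmp E F → UltW E (Wm E K G) κ l F (fac E K G G1) (Wm E K G1))
    (hs : E s (sN E G)) (hf : Func E f K K)
    (y1 : pr E κ X = ap E (jG E K G f) (sdG E K G s))
    (y2 : pr E κ2 X2 = ap E (jG E K G2 f) (sdG E K G2 s)) :
    ¬ IsEmp E F ∧ ∀ a, App E F a X ↔ E a (tup E l) ∧ Sub E X (tup E κ) ∧ E a X2 := by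
  have s3 : Sub E G G2 := fun t k => s2 t (s1 t k)
  have el := (h.fac hC h2 s3).1
  have hf' : Tot E K f := ⟨hf.fn, hf.2⟩
  have hy : pr E κ X ∈ Wm E K G := by
    rw [y1]
    exact (h.inn hC).ap ((h.el hC).maps _)
      ((h.el hC).trans _ ((h.el hC).maps K) _ ((h.canon hC).1.mem s hs))
  obtain ⟨hκW, hXW⟩ := (h.inn hC).pr.1 hy
  have e := h.fac_val hC h2 s3 hs hf'
  rw [← y1, ← y2, el.pr hκW hXW] at e
  obtain ⟨e2, e3⟩ := pr_inj e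
  have lo := hξ.1.mem hl
  have n : ¬ IsEmp E F := fun k => by
    obtain rfl := e0 k
    exact ne ((fx.1 κ hκW (hξ.1.rk (hξ.1.tr hl hκ))).symm.trans e2)
  refine ⟨n, fun a => ((e1 n).mem a X).trans (and_congr_right fun ha => ?_)⟩
  have aW : a ∈ Wm E K G1 := (h1.inn hC).tr _ ((h1.inn hC).tup ((h1.inn hC).ord lo)) _ ha
  have el2 := (h1.fac hC h2 s2).1
  have k := el2.mem_iff aW ((h.fac hC h1 s1).1.maps X hXW)
  rw [h.fac_comp hC h1 h2 s1 s2 hXW, e3,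
    fx.1 a aW (tup_rk hξ (fun z hz => hξ.1.tr hl hz) ha)] at k
  rw [k]
  exact ⟨fun k => k.2, fun k => ⟨hXW, k⟩⟩

theorem cmp (hC : Choice E) {K S θ : M} (hθ : Lim E θ) (hK : ∀ x, E x K ↔ Rk E x θ)
    (hS : Coh1 E Set.univ S) (Mv : M → M → M → Prop) (dM : D3 E Mv)
    (fn : ∀ G G' m m', Mv G G' m → Mv G G' m' → m = m') (Stop : M → M → Prop)
    (J : M → M → M → Prop) (dJ : D3 E J)
    (hJ : ∀ G G' G1 G1' η, Sys E K G → Sys E K G' → Sys E K G1 → Sys E K G1' → Sub E G G1 →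
      Sub E G' G1' → J G G' η → J G1 G1' η)
    (H : ∀ G G' ξ, Inv E K S G G' ξ → (∀ η, E η ξ → J G G' η) → Stop G G' ∨ ∃ κ l F F',
      Mv G G' (pr E (pr E κ l) (pr E F F')) ∧ Legit E K S G G' ξ κ l F F' ∧
        ∀ ξ', Lim E ξ' → E l ξ' → (∀ η, E η ξ' → E l η → ¬ Lim E η) → ∀ η, E η ξ' →
          J (nxt E K G (pr E κ l) F) (nxt E K G' (pr E κ l) F') η)
    {G0 G0' ξ0 : M} (h0 : Inv E K S G0 G0' ξ0) (j0 : ∀ η, E η ξ0 → J G0 G0' η) :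
    ∃ G G' ξ, Inv E K S G G' ξ ∧ Sub E G0 G ∧ Sub E G0' G' ∧
      Fix E (Wm E K G0) (Wm E K G) (fac E K G0 G) ξ0 ∧
      Fix E (Wm E K G0') (Wm E K G') (fac E K G0' G') ξ0 ∧ Stop G G' := by
  by_contra hn
  let mv : M → M → M := fun G G' => the E (Mv G G')
  have dM' := dt3 dM
  have dJ' := dt3 dJ
  have dmv : F2 E mv := f2 fun _ _ _ _ _ _ => by simp only [mv]; infer_instance
  let nl : M → M := fun l => the E fun ξ => Lim E ξ ∧ E l ξ ∧ ∀ η, E η ξ → E l η → ¬ Lim E η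
  have dnl : F1 E nl := f1 fun _ _ _ _ => by simp only [nl]; infer_instance
  have hnl : ∀ l, IsOrd E l → Lim E (nl l) ∧ E l (nl l) ∧
      ∀ η, E η (nl l) → E l η → ¬ Lim E η := fun l hl => by
    obtain ⟨ξ, h⟩ := ex_next_lim hl
    have : nl l = ξ := the_eq h fun ξ' h' => by
      rcases h'.1.1.tri h.1.1 with k | k | k
      exacts [(h.2.2 _ k h'.2.1 h'.1).elim, k, (h'.2.2 _ k h.2.1 h.1).elim]
    rwa [this]
  obtain ⟨L, R, X, dL, dR, dX, eq⟩ := cmp_rec (E := E)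
    (fun G G' => nxt E K G (p1 E (mv G G')) (p1 E (p2 E (mv G G'))))
    (fun G G' => nxt E K G' (p1 E (mv G G')) (p2 E (p2 E (mv G G'))))
    (fun G G' => nl (p2 E (p1 E (mv G G')))) (fun _ _ _ _ => inferInstance)
    (fun _ _ _ _ => inferInstance) (fun _ _ _ _ => inferInstance) G0 G0' ξ0
  have z1 : ∀ e, IsEmp E e → L e = G0 ∧ R e = G0' ∧ X e = ξ0 := fun e he => by
    obtain ⟨a, b, c⟩ := eq e he.ord
    refine ⟨ext' E fun t => (a t).trans ?_, ext' E fun t => (b t).trans ?_,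
      ext' E fun t => (c t).trans ?_⟩ <;>
    exact ⟨fun k => k.elim id fun ⟨β, k, _⟩ => (he β k).elim, Or.inl⟩
  let P : M → Prop := fun α => Inv E K S (L α) (R α) (X α) ∧ (∀ η, E η (X α) → J (L α) (R α) η) ∧
    ∀ γ, Le E γ α → Sub E (L γ) (L α) ∧ Sub E (R γ) (R α) ∧ Le E (X γ) (X α) ∧
      Fix E (Wm E K (L γ)) (Wm E K (L α)) (fac E K (L γ) (L α)) (X γ) ∧
      Fix E (Wm E K (R γ)) (Wm E K (R α)) (fac E K (R γ) (R α)) (X γ)
  have dI : D3 E (Inv E K S) := fun _ _ _ _ _ _ => inferInstance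
  have dF : D3 E fun a b c => Fix E (Wm E K a) (Wm E K b) (fac E K a b) c :=
    fun _ _ _ _ _ _ => inferInstance
  have dP : Df E fun v => P (v 0) := by
    have a1 := dt3 dI (fun v => L (v 0)) (fun v => R (v 0)) (fun v => X (v 0))
    have a2 := dt3 dF (fun v => L (v 0)) (fun v => L (v 1)) (fun v => X (v 0))
    have a3 := dt3 dF (fun v => R (v 0)) (fun v => R (v 1)) (fun v => X (v 0))
    simp only [P]; infer_instance
  have move : ∀ α s, IsOrd E α → IsSuc E s α → P α → ∃ κ l F F',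
      mv (L α) (R α) = pr E (pr E κ l) (pr E F F') ∧ Legit E K S (L α) (R α) (X α) κ l F F' ∧
      L s = nxt E K (L α) (pr E κ l) F ∧ R s = nxt E K (R α) (pr E κ l) F' ∧ X s = nl l ∧
      ∀ η, E η (X s) → J (L s) (R s) η := fun α s ho hs p => by
    obtain ⟨e, he⟩ := ex_emp E
    obtain ⟨e1, e2, e3⟩ := z1 e he
    obtain ⟨a1, a2, -, a4, a5⟩ := p.2.2 e (he.le ho)
    rw [e1, e3] at a4
    rw [e2, e3] at a5
    obtain ⟨κ, l, F, F', m1, m2, m3⟩ := (H _ _ _ p.1 p.2.1).resolve_left fun k =>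
      hn ⟨_, _, _, p.1, e1 ▸ a1, e2 ▸ a2, a4, a5, k⟩
    have em : mv (L α) (R α) = pr E (pr E κ l) (pr E F F') :=
      the_eq m1 fun m k => fn _ _ _ _ k m1
    obtain ⟨b1, b2, b3⟩ := eq s (hs.ord ho)
    obtain ⟨c1, c2, c3⟩ := eq α ho
    obtain ⟨n1, n2, n3⟩ := hnl l m2.ord
    have q1 := cmp_suc hs b1 c1 (by
      simp only [em, p1_pr, p2_pr]
      exact (side_step hC hθ hK hS p.1.1 m2.ord m2.lt m2.inl m2.left rfl).2.1)
    have q2 := cmp_suc hs b2 c2 (by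
      simp only [em, p1_pr, p2_pr]
      exact (side_step hC hθ hK hS p.1.2.1 m2.ord m2.lt m2.inr m2.right rfl).2.1)
    have q3 := cmp_suc hs b3 c3 (by
      simp only [em, p1_pr, p2_pr]
      exact fun t k => n1.1.tr n2 (m2.ord.tr m2.lt (m2.le.sub (m2.ord.mem m2.lt) t k)))
    simp only [em, p1_pr, p2_pr] at q1 q2 q3
    refine ⟨κ, l, F, F', em, m2, q1, q2, q3, ?_⟩
    rw [q1, q2, q3]
    exact m3 _ n1 n2 n3
  have lim1 := fun α hl ne => cmp_lim (α := α) hl ne fun β ho => (eq β ho).1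
  have lim2 := fun α hl ne => cmp_lim (α := α) hl ne fun β ho => (eq β ho).2.1
  have lim3 := fun α hl ne => cmp_lim (α := α) hl ne fun β ho => (eq β ho).2.2
  have all : ∀ α, IsOrd E α → P α := by
    refine ord_ind P fun α ho ih => ?_
    have fin : Inv E K S (L α) (R α) (X α) → (∀ η, E η (X α) → J (L α) (R α) η) →
        (∀ γ, E γ α → Sub E (L γ) (L α) ∧ Sub E (R γ) (R α) ∧ Le E (X γ) (X α) ∧
          Fix E (Wm E K (L γ)) (Wm E K (L α)) (fac E K (L γ) (L α)) (X γ) ∧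
          Fix E (Wm E K (R γ)) (Wm E K (R α)) (fac E K (R γ) (R α)) (X γ)) → P α :=
      fun a b c => ⟨a, b, fun γ k => k.elim (c γ) fun k => by
        rw [k]
        exact ⟨fun _ k => k, fun _ k => k, Or.inr rfl, a.1.fix_refl hC _, a.2.1.fix_refl hC _⟩⟩
    rcases ord_cases ho with he | ⟨β, hs⟩ | ⟨hl, ne⟩
    · obtain ⟨e1, e2, e3⟩ := z1 α he
      exact fin (by rwa [e1, e2, e3]) (by rwa [e1, e2, e3]) fun γ k => (he γ k).elim
    · have p := ih β hs.self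
      have oβ := ho.mem hs.self
      obtain ⟨κ, l, F, F', -, m, q1, q2, q3, q4⟩ := move β α oβ hs p
      obtain ⟨n1, n2, n3⟩ := hnl l m.ord
      obtain ⟨a1, a2, -, a4, -⟩ := side_step hC hθ hK hS p.1.1 m.ord m.lt m.inl m.left q1
      obtain ⟨b1, b2, -, b4, -⟩ := side_step hC hθ hK hS p.1.2.1 m.ord m.lt m.inr m.right q2
      have oκ := m.ord.mem m.lt
      refine fin (by rw [q1, q2, q3]; exact inv_step hC hθ hK hS p.1 m n1 n2 n3) q4 fun γ k => ?_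
      have k' : Le E γ β := (hs γ).1 k
      obtain ⟨c1, c2, c3, c4, c5⟩ := p.2.2 γ k'
      have pγ := ih γ k
      have le := c3.trans m.le oκ
      exact ⟨fun t k => a2 t (c1 t k), fun t k => b2 t (c2 t k),
        Or.inl (q3 ▸ le.lt n1.1 (n1.1.tr n2 m.lt)),
        c4.comp (a4.mono oκ le) fun x hx => (pγ.1.1.fac_comp hC p.1.1 a1 c1 a2 hx).symm,
        c5.comp (b4.mono oκ le) fun x hx => (pγ.1.2.1.fac_comp hC p.1.2.1 b1 c2 b2 hx).symm⟩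
    · have st : ∀ β s, E β α → IsSuc E s β → (Sub E (L β) (L s) ∧ RelCC E (L β) (L s)) ∧
          Sub E (R β) (R s) ∧ RelCC E (R β) (R s) := fun β s k hs => by
        have p := ih β k
        obtain ⟨κ, l, F, F', -, m, q1, q2, -⟩ := move β s (ho.mem k) hs p
        obtain ⟨-, a2, a3, -⟩ := side_step hC hθ hK hS p.1.1 m.ord m.lt m.inl m.left q1
        obtain ⟨-, b2, b3, -⟩ := side_step hC hθ hK hS p.1.2.1 m.ord m.lt m.inr m.right q2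
        exact ⟨⟨a2, a3⟩, b2, b3⟩
      obtain ⟨c, c1, c2⟩ := cmp_chain dL hl ne (fun β k => (ih β k).1.1)
        (fun β s k hs => (st β s k hs).1) lim1
      obtain ⟨d, d1, d2⟩ := cmp_chain dR hl ne (fun β k => (ih β k).1.2.1)
        (fun β s k hs => (st β s k hs).2) lim2
      have s1 := c1.un_sys hC
      have s2 := d1.un_sys hC
      have oX : IsOrd E (X α) := ord_of_trans (fun x y hx hy => by
        obtain ⟨β, k1, k2⟩ := (lim3 α hl ne x).1 hx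
        exact (lim3 α hl ne y).2 ⟨β, k1, (ih β k1).1.2.2.1.1.tr k2 hy⟩) fun x hx => by
        obtain ⟨β, k1, k2⟩ := (lim3 α hl ne x).1 hx
        exact (ih β k1).1.2.2.1.1.mem k2
      have ext : ∀ γ, E γ α → Sub E (L γ) (L α) ∧ Sub E (R γ) (R α) ∧ Le E (X γ) (X α) ∧
          Fix E (Wm E K (L γ)) (Wm E K (L α)) (fac E K (L γ) (L α)) (X γ) ∧
          Fix E (Wm E K (R γ)) (Wm E K (R α)) (fac E K (R γ) (R α)) (X γ) := fun γ k =>
        ⟨fun t ht => (lim1 α hl ne t).2 ⟨γ, k, ht⟩, fun t ht => (lim2 α hl ne t).2 ⟨γ, k, ht⟩,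
          (ih γ k).1.2.2.1.1.le_of_sub oX fun t ht => (lim3 α hl ne t).2 ⟨γ, k, ht⟩,
          fix_lim hC c1 k ((c2 _ _).2 ⟨k, rfl⟩) fun β G1 k1 k2 k3 =>
            ((c2 _ _).1 k3).2 ▸ ((ih β k1).2.2 γ k2).2.2.2.1,
          fix_lim hC d1 k ((d2 _ _).2 ⟨k, rfl⟩) fun β G1 k1 k2 k3 =>
            ((d2 _ _).1 k3).2 ▸ ((ih β k1).2.2 γ k2).2.2.2.2⟩
      have tail : ∀ γ, E γ α → Inv E K S (L α) (R α) (X γ) := fun γ k =>
        let ⟨a1, a2, _, a4, a5⟩ := ext γ k; inv_tail hC hS (ih γ k).1 s1 s2 a1 a2 a4 a5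
      refine fin ⟨s1, s2, ⟨oX, fun η k => ?_⟩, fun κ' l' p k => ?_, fun η k => ?_⟩
        (fun η k => ?_) ext
      · obtain ⟨β, k1, k2⟩ := (lim3 α hl ne η).1 k
        obtain ⟨ζ, k3, k4⟩ := (ih β k1).1.2.2.1.2 η k2
        exact ⟨ζ, (lim3 α hl ne ζ).2 ⟨β, k1, k3⟩, k4⟩
      · obtain ⟨β, k1, k2⟩ := (lim3 α hl ne κ').1 (k.resolve_right fun k => emp_spec _ k.2)
        exact (tail β k1).2.2.2.1 κ' l' p (Or.inl k2)
      · obtain ⟨β, k1, k2⟩ := (lim3 α hl ne η).1 k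
        obtain ⟨ζ, k3, k4⟩ := (tail β k1).2.2.2.2 η k2
        exact ⟨ζ, (lim3 α hl ne ζ).2 ⟨β, k1, k3⟩, k4⟩
      · obtain ⟨β, k1, k2⟩ := (lim3 α hl ne η).1 k
        exact hJ _ _ _ _ η (ih β k1).1.1 (ih β k1).1.2.1 s1 s2 (ext β k1).1 (ext β k1).2.1
          ((ih β k1).2.1 η k2)
  let V : M → M → Prop := fun d α => ∃ s f s' f' Y, d = pr E (pr E s f) (pr E s' f') ∧
    E s (sN E (L α)) ∧ Func E f K K ∧ E s' (sN E (R α)) ∧ Func E f' K K ∧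
    pr E (p1 E (p1 E (mv (L α) (R α)))) Y = ap E (jG E K (L α) f) (sdG E K (L α) s) ∧
    pr E (p1 E (p1 E (mv (L α) (R α)))) Y = ap E (jG E K (R α) f') (sdG E K (R α) s') ∧
    ((∃ z, E z (p1 E (p2 E (mv (L α) (R α))))) → (∃ z, E z (p2 E (p2 E (mv (L α) (R α))))) →
      ∃ a, ¬ (App E (p1 E (p2 E (mv (L α) (R α)))) a Y ↔
        App E (p2 E (p2 E (mv (L α) (R α)))) a Y))
  have dV : D2 E V := Df.d2 (by simp only [V]; infer_instance)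
  have nemp : ∀ F : M, ¬ IsEmp E F → ∃ z, E z F := fun F k =>
    by_contra fun k' => k fun x hx => k' ⟨x, hx⟩
  have exV : ∀ α, IsOrd E α → ∃ d, V d α := fun α ho => by
    obtain ⟨s, hs⟩ := ex_suc E α
    have p := all α ho
    obtain ⟨κ, l, F, F', em, m, q1, q2, -⟩ := move α s ho hs p
    have oκ := m.ord.mem m.lt
    have : ∃ Y, Y ∈ Wm E K (L α) ∧ Y ∈ Wm E K (R α) ∧ (∀ z, E z Y → Rk E z κ) ∧
        ((∃ z, E z F) → (∃ z, E z F') → ∃ a, ¬ (App E F a Y ↔ App E F' a Y)) := by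
      by_cases k : (∃ z, E z F) ∧ ∃ z, E z F'
      · have n1 : ¬ IsEmp E F := fun h => let ⟨z, hz⟩ := k.1; h z hz
        have n2 : ¬ IsEmp E F' := fun h => let ⟨z, hz⟩ := k.2; h z hz
        obtain ⟨t, t1, t2, t3⟩ := m.diff n1 n2
        have lκ := ((side_step hC hθ hK hS p.1.1 m.ord m.lt m.inl m.left q1).2.2.2.2.2.2.2 n1).lim
        have sh : ∀ W A F, Side E W A κ l F → E t F → ∃ a Y, t = pr E a Y ∧ Sub E Y (tup E κ) :=
          fun W A F sd ht => by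
            obtain ⟨-, -, ⟨-, -, -, K', -, N', -, u1, -, u2, -⟩, -⟩ :=
              sd.resolve_left fun h => h.1 t ht
            obtain ⟨a, Y, u3, -, u4⟩ := u2 t ht
            exact ⟨a, Y, pr_eq.1 u3, u1.eq ▸ u4⟩
        obtain ⟨a, Y, rfl, hY⟩ : ∃ a Y, t = pr E a Y ∧ Sub E Y (tup E κ) := by
          by_cases h : E t F
          · exact sh _ _ _ m.left h
          · exact sh _ _ _ m.right (by_contra fun h' => t3 ⟨fun k => (h k).elim, fun k => (h' k).elim⟩)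
        exact ⟨Y, ((p.1.1.inn hC).pr.1 t1).2, ((p.1.2.1.inn hC).pr.1 t2).2,
          fun z hz => tup_rk lκ (fun _ k => k) (hY z hz), fun _ _ => ⟨a, by
            rwa [MP_75a307_lc.app_iff, MP_75a307_lc.app_iff]⟩⟩
      · exact ⟨emp E, (p.1.1.inn hC).ord emp_spec.ord, (p.1.2.1.inn hC).ord emp_spec.ord,
          fun z hz => (emp_spec z hz).elim, fun k1 k2 => (k ⟨k1, k2⟩).elim⟩
    obtain ⟨Y, y1, y2, y3, y4⟩ := this
    obtain ⟨a, f, a1, a2, a3⟩ := p.1.1.genK hC (cmp_inK hC hθ hK p.1.1 oκ m.inl y1 y3)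
    obtain ⟨b, g, b1, b2, b3⟩ := p.1.2.1.genK hC (cmp_inK hC hθ hK p.1.2.1 oκ m.inr y2 y3)
    refine ⟨_, a, f, b, g, Y, rfl, a1, a2, b1, b2, ?_⟩
    simp only [em, p1_pr, p2_pr]
    exact ⟨a3, b3, y4⟩
  have unV : ∀ d α β, IsOrd E β → E α β → V d α → V d β → False := by
    rintro _ α β oβ hαβ ⟨s, f, s', f', Y, rfl, a1, a2, a3, a4, a5, a6, a7⟩
      ⟨t, g, t', g', Z, e, -, -, -, -, b5, b6, -⟩
    obtain ⟨e1, e2⟩ := pr_inj e
    obtain ⟨rfl, rfl⟩ := pr_inj e1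
    obtain ⟨rfl, rfl⟩ := pr_inj e2
    have oα := oβ.mem hαβ
    obtain ⟨σ, hσ⟩ := ex_suc E α
    obtain ⟨τ, hτ⟩ := ex_suc E β
    have p := all α oα
    have p1' := all σ (hσ.ord oα)
    have p2' := all β oβ
    obtain ⟨κ, l, F, F', em, m, q1, q2, q3, -⟩ := move α σ oα hσ p
    obtain ⟨κ2, l2, F2, F2', em2, m2, -⟩ := move β τ oβ hτ p2'
    simp only [em, em2, p1_pr, p2_pr] at a5 a6 a7 b5 b6
    obtain ⟨c1, c2, c3, c4, c5⟩ := p2'.2.2 σ (hσ.le oβ hαβ)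
    obtain ⟨n1, n2, -⟩ := hnl l m.ord
    rw [← q3] at n1 n2
    have ne : κ ≠ κ2 := fun e => by
      have := (c3.trans m2.le (m2.ord.mem m2.lt)).sub (m2.ord.mem m2.lt) _ (n1.1.tr n2 m.lt)
      exact no1 (e ▸ this)
    obtain ⟨-, u2, -, -, -, -, u7, u8⟩ :=
      side_step hC hθ hK hS p.1.1 m.ord m.lt m.inl m.left q1
    obtain ⟨-, w2, -, -, -, -, w7, w8⟩ :=
      side_step hC hθ hK hS p.1.2.1 m.ord m.lt m.inr m.right q2
    obtain ⟨r1, r2⟩ := cmp_rep hC p.1.1 p1'.1.1 p2'.1.1 u2 c1 c4 n1 n2 m.lt ne u7 u8 a1 a2 a5 b5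
    obtain ⟨r3, r4⟩ := cmp_rep hC p.1.2.1 p1'.1.2.1 p2'.1.2.1 w2 c2 c5 n1 n2 m.lt ne w7 w8 a3 a4
      a6 b6
    obtain ⟨a, ha⟩ := a7 (nemp _ r1) (nemp _ r3)
    exact ha ((r2 a).trans (r4 a).symm)
  obtain ⟨KK2, hKK, -⟩ := ex_rel E K K fun _ _ => True
  obtain ⟨B, hB⟩ := ex_pow E KK2
  have fB : ∀ f, Func E f K K → E f B := fun f k => (hB f).2 fun p hp =>
    let ⟨a, b, k1, k2, k3⟩ := k.1.1 p hp; (hKK p).2 ⟨a, b, k1, k2, k3, trivial⟩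
  obtain ⟨lam, l1, l2, l3⟩ := clos E (fun γ δ => ∀ s f s' f' α, E s (sN E (L γ)) → E f B →
      E s' (sN E (R γ)) → E f' B → IsOrd E α → (∃ d, d = pr E (pr E s f) (pr E s' f') ∧ V d α) →
        E α δ) (fun γ _ => by
    obtain ⟨r1, h1, -⟩ := ex_rel E (sN E (L γ)) B fun _ _ => True
    obtain ⟨r2, h2, -⟩ := ex_rel E (sN E (R γ)) B fun _ _ => True
    obtain ⟨r3, h3, -⟩ := ex_rel E r1 r2 fun _ _ => True
    obtain ⟨c, c1, c2⟩ := ord_coll E r3 V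
    refine ⟨c, c1, fun s f s' f' α k1 k2 k3 k4 k5 ⟨d, e, k6⟩ => ?_⟩
    obtain ⟨β, k7, k8⟩ := c2 d ((h3 d).2 ⟨_, _, (h1 _).2 ⟨s, f, k1, k2, pr_spec _ _, trivial⟩,
      (h2 _).2 ⟨s', f', k3, k4, pr_spec _ _, trivial⟩, e ▸ pr_spec _ _, trivial⟩) ⟨α, k5, k6⟩
    rcases k5.tri (c1.mem k7) with k | rfl | k
    · exact c1.tr k7 k
    · exact k7
    · exact (unV d β α k5 k k8 k6).elim) (emp E) emp_spec.ord
  obtain ⟨d, hd⟩ := exV lam l1.1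
  obtain ⟨s, f, s', f', Y, e, a1, a2, a3, a4, -⟩ := id hd
  have born : ∀ L : M → M, (∀ t, E t (L lam) ↔ ∃ β, E β lam ∧ E t (L β)) → ∀ s,
      E s (sN E (L lam)) → ∃ β, E β lam ∧ E s (sN E (L β)) := fun L h s k => by
    obtain ⟨b, Q, k⟩ := (mem_sN _ _).1 k
    obtain ⟨β, k1, k2⟩ := (h _).1 (tr3_iff.1 k)
    exact ⟨β, k1, (mem_sN _ _).2 ⟨b, Q, tr3_iff.2 k2⟩⟩
  have up : ∀ G G' s, Sub E G G' → E s (sN E G) → E s (sN E G') := fun G G' s h k =>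
    let ⟨b, Q, k⟩ := (mem_sN _ _).1 k; (mem_sN _ _).2 ⟨b, Q, tr3_iff.2 (h _ (tr3_iff.1 k))⟩
  obtain ⟨β, b1, b2⟩ := born L (lim1 lam l1 ⟨_, l2⟩) s a1
  obtain ⟨β', b3, b4⟩ := born R (lim2 lam l1 ⟨_, l2⟩) s' a3
  obtain ⟨γ, g1, g2, g3⟩ := l1.two b1 b3
  obtain ⟨δ, g4, g5⟩ := l3 γ g1
  have pγ := all γ (l1.1.mem g1)
  exact no2 g4 (g5 s f s' f' lam (up _ _ s (pγ.2.2 β (Or.inl g2)).1 b2) (fB f a2)
    (up _ _ s' (pγ.2.2 β' (Or.inl g3)).2.1 b4) (fB f' a4) l1.1 ⟨d, e, hd⟩)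

end Pool.Agent.Lib.MP_75a307_lc.LE
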