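import Pool.Agent.Lib.MP_75a307_lc.LE.Rel

/-! Single steps and limits of a comparison. -/

set_option synthInstance.maxSize 100000
set_option linter.unusedVariables false
set_option linter.unusedSectionVars false

namespace Pool.Agent.Lib.MP_75a307_lc.LE

open Pool.Agent.Lib.MP_1d770b_lc

universe u
variable {M : Type u} {E : M → M → Prop} [hZ : ZF E]

variable (E) in
/-- `k : W → W'` is the identity below rank `ξ` and adds or loses no subset of `V_ξ` -/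
def Fix (W W' : Set M) (k : M → M) (ξ : M) : Prop :=
  (∀ x ∈ W, Rk E x ξ → k x = x) ∧ ∀ x, (∀ z, E z x → Rk E z ξ) → (x ∈ W ↔ x ∈ W')

variable (E) in
def Inv (K S G G' ξ : M) : Prop :=
  Sys E K G ∧ Sys E K G' ∧ Lim E ξ ∧
    Agree E (Wm E K G) (Wm E K G') (jG E K G S) (jG E K G' S) ξ (emp E) ∧
    ∀ η, E η ξ → ∃ ζ, E ζ ξ ∧ ∀ u v, E u η → Dom E (jG E K G S) u v → E v ζ

variable (E) in
def Side (W : Set M) (A κ l F : M) : Prop :=
  (IsEmp E F ∧ ¬ Dom E A κ l) ∨ (F ∈ W ∧ Dom E A κ l ∧ Ext1 E W κ l F ∧ CohAt E W A κ l F)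

variable (E) in
structure Legit (K S G G' ξ κ l F F' : M) : Prop where
  le : Le E ξ κ
  ord : IsOrd E l
  lt : E κ l
  inl : E κ (jG E K G K)
  inr : E κ (jG E K G' K)
  agree : Agree E (Wm E K G) (Wm E K G') (jG E K G S) (jG E K G' S) κ l
  left : Side E (Wm E K G) (jG E K G S) κ l F
  right : Side E (Wm E K G') (jG E K G' S) κ l F'
  move : ¬ IsEmp E F ∨ ¬ IsEmp E F'
  diff : ¬ IsEmp E F → ¬ IsEmp E F' → ∃ p, p ∈ Wm E K G ∧ p ∈ Wm E K G' ∧ ¬ (E p F ↔ E p F')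

variable (E) in
noncomputable def nxt (K G q F : M) : M :=
  the E fun G' => (IsEmp E F ∧ G' = G) ∨ (¬ IsEmp E F ∧ G' = step E K G q F)

instance (K : M) (a b c : (ℕ → M) → M) [DT E a] [DT E b] [DT E c] :
    DT E fun v => nxt E K (a v) (b v) (c v) :=
  f3 (F := nxt E K) (fun _ _ _ _ _ _ _ _ => by unfold nxt; infer_instance) a b c

section
variable (K S : M) (a b c : (ℕ → M) → M) [IsT a] [IsT b] [IsT c]
instance : Df E fun v => Inv E K S (a v) (b v) (c v) := by unfold Inv Agree; infer_instance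
instance : Df E fun v => Fix E (Wm E K (a v)) (Wm E K (b v)) (fac E K (a v) (b v)) (c v) := by
  unfold Fix; infer_instance
end

variable {W W' W'' : Set M} {k k' k'' : M → M} {K S G G' G1 G1' θ ξ ξ' κ l F F' : M}

theorem Fix.mono (h : Fix E W W' k ξ) (ho : IsOrd E ξ) (hl : Le E ξ' ξ) : Fix E W W' k ξ' :=
  ⟨fun x hx r => h.1 x hx (r.mono ho hl), fun x r => h.2 x fun z hz => (r z hz).mono ho hl⟩

theorem Fix.comp (h : Fix E W W' k ξ) (h' : Fix E W' W'' k' ξ)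
    (e : ∀ x ∈ W, k'' x = k' (k x)) : Fix E W W'' k'' ξ :=
  ⟨fun x hx r => by
    rw [e x hx, h.1 x hx r, h'.1 x ((h.2 x fun z hz => r.mem hz).1 hx) r],
    fun x r => (h.2 x r).trans (h'.2 x r)⟩

theorem Sys.fix_refl (hC : Choice E) (h : Sys E K G) (ξ : M) :
    Fix E (Wm E K G) (Wm E K G) (LE.fac E K G G) ξ :=
  ⟨fun _ hx _ => h.fac_id hC hx, fun _ _ => Iff.rfl⟩

theorem cmpA_cut (h : ElW E W W' k) (f : ∀ x ∈ W, Rk E x ξ → k x = x)
    (d : ∀ y ∈ W', Rk E y ξ → y ∈ W) {x : M} (hx : x ∈ W) (r : ∀ z, E z x → Rk E z ξ) (z : M) :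
    E z x ↔ E z (k x) ∧ Rk E z ξ := by
  refine ⟨fun hz => ⟨?_, r z hz⟩, fun ⟨hz, hr⟩ => ?_⟩
  · have zW := h.inn.tr x hx z hz
    rw [← f z zW (r z hz)]
    exact (h.mem_iff zW hx).2 hz
  · have zW := d z (h.inn'.tr _ (h.maps x hx) z hz) hr
    rw [← f z zW hr] at hz
    exact (h.mem_iff zW hx).1 hz

theorem cmpA_up (h : ElW E W W' k) (ho : IsOrd E ξ) (f : ∀ x ∈ W, Rk E x ξ → k x = x)
    (d : ∀ y ∈ W', Rk E y ξ → y ∈ W) {x : M} (hx : x ∈ W) (r : ∀ z, E z x → Rk E z ξ) :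
    x ∈ W' := by
  obtain ⟨b, hb, e⟩ := h.inn'.sep (h.maps x hx) (fun _ v => Rk E (v 0) (v 1)) (fun _ => ξ)
    fun _ => h.inn'.ord ho
  rwa [ext' E (a := x) (b := b) fun z => (cmpA_cut h f d hx r z).trans (e z).symm]

theorem UltW.fixV (h : UltW E W κ l F k W') : Fix E W W' k κ :=
  ⟨fun _ hx r => h.el.fixV' h.fix (fun _ hy _ => h.sub hy) hx r, fun _ r =>
    ⟨fun hx => cmpA_up h.el h.lim.1 (fun _ hx r => h.el.fixV' h.fix (fun _ hy _ => h.sub hy) hx r)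
      (fun _ hy _ => h.sub hy) hx r, fun hx => h.sub hx⟩⟩

theorem cmpA_at (t : Tr E W) {A u v p : M} (hA : A ∈ W) (h : At E A u v p) :
    u ∈ W ∧ v ∈ W ∧ p ∈ W := by
  obtain ⟨q, h1, h2⟩ := h
  obtain ⟨a, b⟩ := t.app hA h2
  exact ⟨(t.opair a h1).1, (t.opair a h1).2, b⟩

/-- what the images of a coherent sequence satisfy, with unbounded quantifiers -/
structure cmpAImg (E : M → M → Prop) [ZF E] (W : Set M) (A : M) : Prop where
  mem : A ∈ W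
  shape : Shape E W A
  lim : ∀ u v, Dom E A u v → Lim E u ∧ IsOrd E v
  down : ∀ u v v', Dom E A u v → E v' v → E u v' → Dom E A u v'
  nov : ∀ u v u' v', Dom E A u v → Dom E A u' v' → E u u' → E v u'
  top : ∀ u v, Dom E A u v → At E A u v (pr E u (tup E u))
  bd : ∀ u v η, Dom E A u v → E η u → ∃ ζ, E ζ u ∧ ∀ a b, E a η → Dom E A a b → E b ζ
  rk : ∀ u v p ξ, At E A u v p → Lim E ξ → E u ξ → E v ξ → Rk E p ξ

theorem cmpA_img (hC : Choice E) (hS : Coh1 E Set.univ S) {j : M → M} (h : El E j W) :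
    cmpAImg E W (j S) := by
  have hA := h.maps S
  have I := h.inn hC
  have dm : ∀ {u v}, Dom E (j S) u v → u ∈ W ∧ v ∈ W := fun ⟨_, k⟩ =>
    ⟨(cmpA_at h.trans hA k).1, (cmpA_at h.trans hA k).2.1⟩
  have c := (h.tr1 (fun W S => Coh1 E W S) S).1 hS
  have s := (h.tr1 (fun W S => Shape E W S) S).1 (hS.shape hC)
  have t := (h.tr1 (fun W S => ∀ u ∈ W, ∀ v ∈ W, Dom E S u v → ∀ t ∈ W, IsTup E t u → ∀ p ∈ W,
    IsOPair E p u t → At E S u v p) S).1 fun u _ v _ d t _ ht p _ hp => by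
      rw [pr_eq.1 hp, ht.eq]; exact hS.top hC d
  have b := (h.tr1 (fun W S => ∀ u ∈ W, ∀ v ∈ W, Dom E S u v → ∀ η, E η u → ∃ ζ, E ζ u ∧
    ∀ a, E a η → ∀ b ∈ W, Dom E S a b → E b ζ) S).1 fun u _ v _ d η hη =>
      let ⟨ζ, h1, h2⟩ := hS.bd hC d hη; ⟨ζ, h1, fun a ha b _ => h2 a b ha⟩
  have s' : ∀ {u v p}, At E (j S) u v p → _ := fun {u v p} k =>
    s u (cmpA_at h.trans hA k).1 v (cmpA_at h.trans hA k).2.1 p (cmpA_at h.trans hA k).2.2 k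
  refine ⟨hA, s, fun u v ⟨p, k⟩ => ⟨(s' k).1, (s' k).2.1⟩,
    fun u v v' d a e => c.2.1 u (dm d).1 v (dm d).2 d v' a e,
    fun u v u' v' d d' e => c.2.2.1 u (dm d).1 v (dm d).2 u' (dm d').1 v' (dm d').2 d d' e,
    fun u v d => t u (dm d).1 v (dm d).2 d _ (I.tup (dm d).1) (tup_spec u) _
      (I.pr.2 ⟨(dm d).1, I.tup (dm d).1⟩) (pr_spec _ _), fun u v η d e => ?_,
    fun u v p ξ k hξ hu hv => ?_⟩
  · obtain ⟨ζ, h1, h2⟩ := b u (dm d).1 v (dm d).2 d η e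
    exact ⟨ζ, h1, fun a c ha d' => h2 a ha c (dm d').2 d'⟩
  · obtain ⟨h1, -, -, a, X, hp, ⟨t, -, ht, ha⟩, t', -, ht', hX⟩ := s' k
    rw [ht.eq] at ha
    rw [ht'.eq] at hX
    exact hξ.opair (tup_rk hξ (fun z hz => hξ.1.tr hv hz) ha)
      (Rk.intro hξ.1 hu fun z hz => tup_rk h1 (fun _ => id) (hX z hz)) hp

/-- the domains of two images of `S` agree where the images agree -/
theorem Agree.dom (hC : Choice E) (hS : Coh1 E Set.univ S) {j j' : M → M} (h : El E j W)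
    (h' : El E j' W') (a : Agree E W W' (j S) (j' S) κ l) {κ' l' : M}
    (k : E κ' κ ∨ (κ' = κ ∧ E l' l)) : Dom E (j S) κ' l' ↔ Dom E (j' S) κ' l' := by
  have m : ∀ {W : Set M}, Inn E W → IsOrd E κ' → pr E κ' (tup E κ') ∈ W := fun I o =>
    I.pr.2 ⟨I.ord o, I.tup (I.ord o)⟩
  have i := cmpA_img hC hS h
  have i' := cmpA_img hC hS h'
  refine ⟨fun d => ?_, fun d => ?_⟩
  · have o := (i.lim _ _ d).1.1
    exact ⟨_, (a _ _ _ k (m (h.inn hC) o) (m (h'.inn hC) o)).1 (i.top _ _ d)⟩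
  · have o := (i'.lim _ _ d).1.1
    exact ⟨_, (a _ _ _ k (m (h.inn hC) o) (m (h'.inn hC) o)).2 (i'.top _ _ d)⟩

theorem cmpA_idle {q : M} (h : IsEmp E F) : nxt E K G q F = G :=
  the_eq (Or.inl ⟨h, rfl⟩) fun _ k => k.elim (·.2) fun k => (k.1 h).elim

theorem cmpA_move {q : M} (h : ¬ IsEmp E F) : nxt E K G q F = step E K G q F :=
  the_eq (Or.inr ⟨h, rfl⟩) fun _ k => k.elim (fun k => (h k.1).elim) (·.2)

theorem cmpA_ne (hW : Inn E W) (hF : F ∈ W) (h : Ext1 E W κ l F) : ¬ IsEmp E F := fun e => by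
  obtain ⟨i, W', u⟩ := h.lift hW hF
  have m := hW.ord h.1
  obtain ⟨p, -, hp⟩ := (u.mem κ (tup E κ)).2 ⟨sub_tup h.2.2.1, hW.tup m, fun _ => id, by
    rw [u.el.tup m]; exact sub_tup (u.len _ h.2.2.1)⟩
  exact e p hp

theorem side_step (hC : Choice E) (hθ : Lim E θ) (hK : ∀ x, E x K ↔ Rk E x θ)
    (hS : Coh1 E Set.univ S) (h : Sys E K G) (ho : IsOrd E l) (hl : E κ l)
    (hκ : E κ (jG E K G K)) (s : Side E (Wm E K G) (jG E K G S) κ l F)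
    (e : G1 = nxt E K G (pr E κ l) F) :
    Sys E K G1 ∧ Sub E G G1 ∧ RelCC E G G1 ∧ Fix E (Wm E K G) (Wm E K G1) (fac E K G G1) κ ∧
      Wm E K G1 ⊆ Wm E K G ∧
      (∀ κ' l' p, Le E κ' κ →
        (At E (jG E K G1 S) κ' l' p ↔ At E (jG E K G S) κ' l' p ∧ (E κ' κ ∨ E l' l))) ∧
      (IsEmp E F → G1 = G) ∧
      (¬ IsEmp E F → UltW E (Wm E K G) κ l F (fac E K G G1) (Wm E K G1)) := by
  have i := cmpA_img hC hS (h.el hC)
  rcases s with ⟨s1, s2⟩ | ⟨s1, s2, s3, s4⟩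
  · rw [cmpA_idle s1] at e
    subst e
    refine ⟨h, fun _ => id, RelCC.refl _, h.fix_refl hC _, subset_rfl,
      fun κ' l' p le => ⟨fun a => ⟨a, le.imp_right ?_⟩, (·.1)⟩, fun _ => rfl, fun n => (n s1).elim⟩
    rintro rfl
    rcases (i.lim _ _ ⟨p, a⟩).2.tri ho with t | rfl | t
    · exact t
    · exact (s2 ⟨p, a⟩).elim
    · exact (s2 (i.down _ _ _ ⟨p, a⟩ t hl)).elim
  · have n := cmpA_ne (h.inn hC) s1 s3
    rw [cmpA_move n] at e
    subst e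
    obtain ⟨h1, h2, -, u⟩ := step_spec hC hθ hK h s1 s3 hκ
    refine ⟨h1, h2, step_rel hC hθ hK h s1 s3 hκ, u.fixV, u.sub, fun κ' l' p le => ?_,
      fun k => (n k).elim, fun _ => u⟩
    rw [← (h.fac hC h1 h2).2.1 S, u.coh _ i.mem i.shape s4 κ' l' p le]
    exact and_congr_right fun a => ⟨Or.inr, fun k => k.elim
      (fun k => ho.tr hl (i.nov _ _ _ _ ⟨p, a⟩ s2 k)) id⟩

theorem cmpA_dom (s : Side E W S κ l F) (n : ¬ IsEmp E F) : Dom E S κ l :=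
  s.elim (fun k => (n k.1).elim) (·.2.1)

theorem cmpA_gap {A u v : M} (i : cmpAImg E W A) (hκ : IsOrd E κ) (ho : IsOrd E l)
    (d : ∀ l', E l' l → E κ l' → Dom E A κ l') (h1 : Lim E ξ')
    (h3 : ∀ η, E η ξ' → E l η → ¬ Lim E η) (k : Dom E A u v) : Le E u κ ∨ Le E ξ' u := by
  have hu := (i.lim u v k).1
  by_contra! n
  have a : E κ u := by_contra fun a => n.1 (hu.1.le_of_not hκ a)
  have b : E u ξ' := by_contra fun b => n.2 (h1.1.le_of_not hu.1 b)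
  have c : Le E u l := hu.1.le_of_not ho fun c => h3 u b c hu
  obtain ⟨s, hs⟩ := ex_suc E κ
  obtain ⟨ζ, z1, z2⟩ := i.bd u v s k (hu.suc a hs)
  obtain ⟨m, m1, m2, m3⟩ := hu.two a z1
  exact no2 m3 (z2 κ m hs.self (d m (c.sub ho m m1) m2))

/-- after a move at `(κ, l)` no critical point lies between `κ` and the next limit above `l` -/
theorem step_gap (hC : Choice E) (hθ : Lim E θ) (hK : ∀ x, E x K ↔ Rk E x θ)
    (hS : Coh1 E Set.univ S) (h : Inv E K S G G' ξ) (m : Legit E K S G G' ξ κ l F F')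
    (h1 : Lim E ξ') (h2 : E l ξ') (h3 : ∀ η, E η ξ' → E l η → ¬ Lim E η) {u v : M}
    (k : Dom E (jG E K (nxt E K G (pr E κ l) F) S) u v ∨
      Dom E (jG E K (nxt E K G' (pr E κ l) F') S) u v) : Le E u κ ∨ Le E ξ' u := by
  obtain ⟨a1, -, -, -, -, a2, -⟩ := side_step hC hθ hK hS h.1 m.ord m.lt m.inl m.left rfl
  obtain ⟨b1, -, -, -, -, b2, -⟩ := side_step hC hθ hK hS h.2.1 m.ord m.lt m.inr m.right rfl
  have d : ∀ l', E l' l → E κ l' → Dom E (jG E K G S) κ l' ∧ Dom E (jG E K G' S) κ l' :=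
    fun l' x y => by
      have e := m.agree.dom hC hS (h.1.el hC) (h.2.1.el hC) (Or.inr ⟨rfl, x⟩)
      rcases m.move with n | n
      · have := (cmpA_img hC hS (h.1.el hC)).down _ _ _ (cmpA_dom m.left n) x y
        exact ⟨this, e.1 this⟩
      · have := (cmpA_img hC hS (h.2.1.el hC)).down _ _ _ (cmpA_dom m.right n) x y
        exact ⟨e.2 this, this⟩
  rcases k with k | k
  · exact cmpA_gap (cmpA_img hC hS (a1.el hC)) (m.ord.mem m.lt) m.ord (fun l' x y =>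
      let ⟨p, hp⟩ := (d l' x y).1; ⟨p, (a2 _ _ _ (Or.inr rfl)).2 ⟨hp, Or.inr x⟩⟩) h1 h3 k
  · exact cmpA_gap (cmpA_img hC hS (b1.el hC)) (m.ord.mem m.lt) m.ord (fun l' x y =>
      let ⟨p, hp⟩ := (d l' x y).2; ⟨p, (b2 _ _ _ (Or.inr rfl)).2 ⟨hp, Or.inr x⟩⟩) h1 h3 k

theorem inv_step (hC : Choice E) (hθ : Lim E θ) (hK : ∀ x, E x K ↔ Rk E x θ)
    (hS : Coh1 E Set.univ S) (h : Inv E K S G G' ξ) (m : Legit E K S G G' ξ κ l F F')
    (h1 : Lim E ξ') (h2 : E l ξ') (h3 : ∀ η, E η ξ' → E l η → ¬ Lim E η) :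
    Inv E K S (nxt E K G (pr E κ l) F) (nxt E K G' (pr E κ l) F') ξ' := by
  obtain ⟨a1, -, -, -, a3, a2, -⟩ := side_step hC hθ hK hS h.1 m.ord m.lt m.inl m.left rfl
  obtain ⟨b1, -, -, -, b3, b2, -⟩ := side_step hC hθ hK hS h.2.1 m.ord m.lt m.inr m.right rfl
  have gap : ∀ {u v}, E u ξ' → Dom E (jG E K (nxt E K G (pr E κ l) F) S) u v ∨
      Dom E (jG E K (nxt E K G' (pr E κ l) F') S) u v → Le E u κ := fun hu k =>
    (step_gap hC hθ hK hS h m h1 h2 h3 k).resolve_right fun n => n.not_lt hu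
  refine ⟨a1, b1, h1, fun κ' l' p k hp hp' => ?_, fun η hη => ⟨l, h2, fun u v hu ⟨p, hp⟩ => ?_⟩⟩
  · have k' : E κ' ξ' := k.resolve_right fun k => emp_spec _ k.2
    by_cases le : Le E κ' κ
    · rw [a2 _ _ _ le, b2 _ _ _ le]
      refine and_congr_left fun c => m.agree _ _ _ ?_ (a3 hp) (b3 hp')
      exact le.elim Or.inl fun e => c.imp_right fun c => ⟨e, c⟩
    · exact iff_of_false (fun a => le (gap k' (Or.inl ⟨p, a⟩))) fun a => le (gap k' (Or.inr ⟨p, a⟩))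
  · obtain ⟨c1, c2⟩ := (a2 _ _ _ (gap (h1.1.tr hη hu) (Or.inl ⟨p, hp⟩))).1 hp
    refine c2.elim (fun c => m.ord.tr m.lt ?_) id
    rcases m.move with n | n
    · exact (cmpA_img hC hS (h.1.el hC)).nov _ _ _ _ ⟨p, c1⟩ (cmpA_dom m.left n) c
    · exact (cmpA_img hC hS (h.2.1.el hC)).nov _ _ _ _
        ((m.agree.dom hC hS (h.1.el hC) (h.2.1.el hC) (Or.inl c)).1 ⟨p, c1⟩) (cmpA_dom m.right n) c

theorem cmpA_tail {A u v p : M} (h : ElW E W W' k) (f : Fix E W W' k ξ) (hξ : Lim E ξ)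
    (i : cmpAImg E W A) (i' : cmpAImg E W' (k A))
    (b : ∀ η, E η ξ → ∃ ζ, E ζ ξ ∧ ∀ u v, E u η → Dom E A u v → E v ζ) (hu : E u ξ) :
    (At E (k A) u v p ↔ At E A u v p) ∧ (At E A u v p → Rk E p ξ) := by
  obtain ⟨s, hs⟩ := ex_suc E u
  have s1 := hξ.suc hu hs
  obtain ⟨ζ, z1, z2⟩ := b s s1
  have o : ∀ a, E a ξ → a ∈ W ∧ k a = a := fun a ha =>
    ⟨h.inn.ord (hξ.1.mem ha), f.1 a (h.inn.ord (hξ.1.mem ha)) (hξ.1.rk ha)⟩
  have key : E v ξ → p ∈ W → Rk E p ξ → (At E A u v p ↔ At E (k A) u v p) := fun hv hp r => by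
    have := h.tr4 (fun _ A u v p => At E A u v p) i.mem (o u hu).1 (o v hv).1 hp
    rwa [(o u hu).2, (o v hv).2, f.1 p hp r] at this
  have r : At E A u v p → E v ξ ∧ Rk E p ξ := fun a =>
    have hv := hξ.1.tr z1 (z2 u v hs.self ⟨p, a⟩)
    ⟨hv, i.rk _ _ _ _ a hξ hu hv⟩
  refine ⟨⟨fun a => ?_, fun a => (key (r a).1 (cmpA_at h.inn.tr i.mem a).2.2 (r a).2).1 a⟩,
    fun a => (r a).2⟩
  have t := (h.tr3 (fun W A s ζ => ∀ a, E a s → ∀ b ∈ W, Dom E A a b → E b ζ) i.mem (o s s1).1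
    (o ζ z1).1).1 fun a ha b _ => z2 a b ha
  rw [(o s s1).2, (o ζ z1).2] at t
  obtain ⟨-, m1, m2⟩ := cmpA_at h.inn'.tr i'.mem a
  have hv := hξ.1.tr z1 (t u hs.self v m1 ⟨p, a⟩)
  have rp := i'.rk _ _ _ _ a hξ hu hv
  exact (key hv ((f.2 p fun z hz => rp.mem hz).2 m2) rp).2 a

theorem inv_tail (hC : Choice E) (hS : Coh1 E Set.univ S) (h : Inv E K S G G' ξ)
    (h1 : Sys E K G1) (h1' : Sys E K G1') (s : Sub E G G1) (s' : Sub E G' G1')
    (f : Fix E (Wm E K G) (Wm E K G1) (fac E K G G1) ξ)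
    (f' : Fix E (Wm E K G') (Wm E K G1') (fac E K G' G1') ξ) : Inv E K S G1 G1' ξ := by
  obtain ⟨g, g', hξ, ag, bd⟩ := h
  obtain ⟨e1, e2, -⟩ := g.fac hC h1 s
  obtain ⟨e1', e2', -⟩ := g'.fac hC h1' s'
  have t := fun {u v p : M} (hu : E u ξ) => cmpA_tail (v := v) (p := p) e1 f hξ
    (cmpA_img hC hS (g.el hC)) (by rw [e2]; exact cmpA_img hC hS (h1.el hC)) bd hu
  have t' := fun {u v p : M} (hu : E u ξ) => cmpA_tail (v := v) (p := p) e1' f' hξ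
    (cmpA_img hC hS (g'.el hC)) (by rw [e2']; exact cmpA_img hC hS (h1'.el hC)) (fun η hη =>
      let ⟨ζ, z1, z2⟩ := bd η hη
      ⟨ζ, z1, fun u v a d => z2 u v a
        ((ag.dom hC hS (g.el hC) (g'.el hC) (Or.inl (hξ.1.tr hη a))).2 d)⟩) hu
  rw [e2] at t
  rw [e2'] at t'
  refine ⟨h1, h1', hξ, fun u v p k hp hp' => ?_, fun η hη => ?_⟩
  · have hu : E u ξ := k.resolve_right fun k => emp_spec _ k.2
    rw [(t hu).1, (t' hu).1]
    by_cases r : Rk E p ξ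
    · exact ag u v p k ((f.2 p fun z hz => r.mem hz).2 hp) ((f'.2 p fun z hz => r.mem hz).2 hp')
    · exact iff_of_false (fun a => r ((t hu).2 a)) fun a => r ((t' hu).2 a)
  · obtain ⟨ζ, z1, z2⟩ := bd η hη
    exact ⟨ζ, z1, fun u v a ⟨p, d⟩ => z2 u v a ⟨p, (t (hξ.1.tr hη a)).1.1 d⟩⟩

theorem cmpA_rk (h : ElW E W W' k) {z : M} (hz : z ∈ W) (r : Rk E (k z) ξ) : Rk E z ξ :=
  (h.tr2 (fun _ a b => Rk E a b) hz (h.inn.ord r.ord)).2 (r.mono (h.ord r.ord) (h.le_map r.ord))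

theorem fix_lim (hC : Choice E) {c U α : M} (h : Chain E K c l U) (hα : E α l) (hG : App E c α G)
    (f : ∀ β G1, E β l → Le E α β → App E c β G1 →
      Fix E (Wm E K G) (Wm E K G1) (fac E K G G1) ξ) :
    Fix E (Wm E K G) (Wm E K U) (fac E K G U) ξ := by
  have hU := h.un_sys hC
  have ol := h.lim.1
  have sy : ∀ {β G1}, E β l → App E c β G1 → Sys E K G1 ∧ Sub E G1 U := fun hβ a =>
    let ⟨_, a', s⟩ := h.sys _ hβ
    ⟨h.fn _ _ _ a' a ▸ s, fun t ht => (h.un t).2 ⟨_, _, hβ, a, ht⟩⟩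
  have el : ∀ {β G1}, E β l → App E c β G1 → ElW E (Wm E K G1) (Wm E K U) (fac E K G1 U) :=
    fun hβ a => ((sy hβ a).1.fac hC hU (sy hβ a).2).1
  have gs := (sy hα hG).1
  have surj : ∀ y ∈ Wm E K U, ∀ β, E β l → ∃ γ G1, E γ l ∧ Le E β γ ∧ App E c γ G1 ∧
      ∃ y' ∈ Wm E K G1, fac E K G1 U y' = y := fun y hy β hβ => by
    obtain ⟨a, g, ha, hg, e⟩ := (hU.canon hC).2 y hy
    obtain ⟨b, R, t⟩ := (mem_sN _ _).1 ha
    obtain ⟨β', G2, hβ', a2, t2⟩ := (h.un _).1 (tr3_iff.1 t)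
    obtain ⟨γ, hγ, c1, c2⟩ := h.lim.two hβ hβ'
    obtain ⟨G1, a1, s1⟩ := h.sys γ hγ
    have m : E a (sN E G1) :=
      (mem_sN _ _).2 ⟨b, R, tr3_iff.2 (h.mono hγ (Or.inl c2) a2 a1 _ t2)⟩
    have e1 := s1.el hC
    refine ⟨γ, G1, hγ, Or.inl c1, a1, _, (s1.inn hC).ap (e1.maps g)
      (e1.trans _ (e1.maps K) _ ((s1.canon hC).1.mem a m)), ?_⟩
    rw [s1.fac_val hC hU (sy hγ a1).2 m hg]
    exact ap_eq ((hU.el hC).fn hg.1) e
  by_cases ho : IsOrd E ξ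
  swap
  · refine ⟨fun x _ r => (ho r.ord).elim, fun x r => ?_⟩
    have e : IsEmp E x := fun z hz => ho (r z hz).ord
    exact iff_of_true ((gs.inn hC).ord e.ord) ((hU.inn hC).ord e.ord)
  have O : ∀ x, Rk E x ξ → ∀ β G1, E β l → Le E α β → App E c β G1 → x ∈ Wm E K G1 →
      fac E K G1 U x = x := by
    refine mem_ind E (fun x => Rk E x ξ → ∀ β G1, E β l → Le E α β → App E c β G1 →
      x ∈ Wm E K G1 → fac E K G1 U x = x) fun x ih r β G1 hβ le a hx => ?_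
    have e1 := el hβ a
    refine ext' E fun y => ⟨fun hy => ?_, fun hy => ?_⟩
    · obtain ⟨β', G2, hβ', le', a', y', m, rfl⟩ :=
        surj y (e1.inn'.tr _ (e1.maps _ hx) y hy) β hβ
      have le2 := le.trans le' (ol.mem hβ')
      have e2 := el hβ' a'
      have gW := ((f β G1 hβ le a).2 x fun z hz => r.mem hz).2 hx
      have xW := ((f β' G2 hβ' le2 a').2 x fun z hz => r.mem hz).1 gW
      have c1 := gs.fac_comp hC (sy hβ a).1 (sy hβ' a').1 (h.mono hβ le hG a)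
        (h.mono hβ' le' a a') gW
      rw [(f β G1 hβ le a).1 x gW r, (f β' G2 hβ' le2 a').1 x gW r] at c1
      rw [← (sy hβ a).1.fac_comp hC (sy hβ' a').1 hU (h.mono hβ' le' a a') (sy hβ' a').2
        hx, c1, e2.mem_iff m xW] at hy
      rwa [ih y' hy (r.mem hy) β' G2 hβ' le2 a' m]
    · have yW := e1.inn.tr _ hx y hy
      rw [← ih y hy (r.mem hy) β G1 hβ le a yW]
      exact (e1.mem_iff yW hx).2 hy
  have V : ∀ {β G1}, E β l → Le E α β → App E c β G1 → ∀ x ∈ Wm E K G1, Rk E x ξ →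
      fac E K G1 U x = x := fun hβ le a x hx r => O x r _ _ hβ le a hx
  have R : ∀ y ∈ Wm E K U, Rk E y ξ → y ∈ Wm E K G := fun y hy r => by
    obtain ⟨β, G1, hβ, le, a, y', m, rfl⟩ := surj y hy α hα
    have r' := cmpA_rk (el hβ a) m r
    rw [V hβ le a y' m r']
    exact ((f β G1 hβ le a).2 y' fun z hz => r'.mem hz).2 m
  refine ⟨V hα (Or.inr rfl) hG, fun x r =>
    ⟨fun hx => cmpA_up (el hα hG) ho (V hα (Or.inr rfl) hG) R hx r, fun hx => ?_⟩⟩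
  obtain ⟨β, G1, hβ, le, a, x', m, rfl⟩ := surj x hx α hα
  have e1 := el hβ a
  have r' : ∀ z, E z x' → Rk E z ξ := fun z hz =>
    cmpA_rk e1 (e1.inn.tr _ m z hz) (r _ ((e1.mem_iff (e1.inn.tr _ m z hz) m).2 hz))
  have e : fac E K G1 U x' = x' := ext' E fun z => by
    rw [cmpA_cut e1 (V hβ le a) (fun y hy ry =>
      ((f β G1 hβ le a).2 y fun z hz => ry.mem hz).1 (R y hy ry)) m r' z]
    exact ⟨fun hz => ⟨hz, r z hz⟩, (·.1)⟩
  rw [e]
  exact ((f β G1 hβ le a).2 x' r').2 m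

end Pool.Agent.Lib.MP_75a307_lc.LE
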