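import Pool.Agent.Lib.MP_75a307_lc.LE.BrB

/-! Extenders and coherent sequences in inner models. -/

set_option synthInstance.maxSize 100000
set_option linter.unusedVariables false
set_option linter.unusedSectionVars false

namespace Pool.Agent.Lib.MP_75a307_lc.LE

open Pool.Agent.Lib.MP_1d770b_lc

universe u
variable {M : Type u} {E : M → M → Prop} [hZ : ZF E]

variable {W : Set M} {κ l F F' S S' B ξ ν : M}

theorem down_rel {K R s t : M} (h : Rel E K R) (k : App E R s t) : E s K ∧ E t K := by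
  obtain ⟨p, h1, h2⟩ := k
  obtain ⟨s', t', k1, k2⟩ := h p h2
  obtain ⟨rfl, rfl⟩ := h1.inj k1
  exact k2

theorem down_mem (t : Tr E W) (hS : S ∈ W) {u v p : M} (h : At E S u v p) :
    u ∈ W ∧ v ∈ W ∧ p ∈ W :=
  let ⟨_, h1, h2⟩ := h
  ⟨(t.opair (t.app hS h2).1 h1).1, (t.opair (t.app hS h2).1 h1).2, (t.app hS h2).2⟩

theorem down_at (hW : Inn E W) (hF : ∀ p, E p F' ↔ E p F ∧ p ∈ W) {a b R : M} :
    At E F' a b R ↔ At E F a b R ∧ a ∈ W ∧ b ∈ W ∧ R ∈ W := by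
  rw [at_iff, at_iff, hF, hW.pr, hW.pr, and_assoc]

theorem down_aa (hW : Inn E W) (hF : ∀ p, E p F' ↔ E p F ∧ p ∈ W) {K a b : M}
    {P Q : M → M → Prop} (ha : a ∈ W) (hb : b ∈ W) (h : Aa E Set.univ F K a b P)
    (k : ∀ s t, E s K → E t K → P s t → Q s t) : Aa E W F' K a b Q := fun R hR r H =>
  (down_at hW hF).2 ⟨h R trivial r fun s hs t ht p => H s hs t ht (k s t hs ht p), ha, hb, hR⟩

theorem down_ae (hW : Inn E W) (hF : ∀ p, E p F' ↔ E p F ∧ p ∈ W) {K a b : M}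
    {P Q : M → M → Prop} (h : Ae E W F' K a b P)
    (k : ∀ s t, E s K → E t K → P s t → Q s t) : Ae E Set.univ F K a b Q :=
  let ⟨R, _, r, h1, h2⟩ := h
  ⟨R, trivial, r, ((down_at hW hF).1 h1).1, fun s t p =>
    k s t (down_rel r p).1 (down_rel r p).2 (h2 s t p)⟩

theorem Ext1.down (hC : Choice E) (hW : Inn E W) (hF' : F' ∈ W)
    (hF : ∀ p, E p F' ↔ E p F ∧ p ∈ W) (h : Ext1 E Set.univ κ l F) : Ext1 E W κ l F' := by
  obtain ⟨h1, h2, h3, K, -, N, -, hK, hN, sh, ul, cc, n1, n2, n3, n4, n5⟩ := h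
  have wK : K ∈ W := hK.eq ▸ hW.tup (hW.ord h1)
  have wN : N ∈ W := hN.eq ▸ hW.tup (hW.ord h2)
  have w (a) (ha : E a N) : a ∈ W := hW.tr _ wN _ ha
  have wl (a) (ha : E a l) : a ∈ W := hW.ord (h2.mem ha)
  refine ⟨h1, h2, h3, K, wK, N, wN, hK, hN, fun p hp => sh p ((hF p).1 hp).1,
    fun a ha b hb R hR R' hR' r r' k => ?_, fun H hH c k => ?_, fun p hp a b o => ?_,
    fun a ha => ⟨?_, fun b hb => ?_⟩, fun a ha c hc f hf r fn k => ?_, fun a ha => ?_,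
    fun a ha X hX s => ⟨fun k => ?_, fun k => ?_⟩⟩
  · exact (ul a ha b hb R trivial R' trivial r r' k).imp
      (fun k => ⟨ha, hb, r, (down_at hW hF).2 ⟨k.2.2.2, w a ha, w b hb, hR⟩⟩)
      fun k => ⟨ha, hb, r', (down_at hW hF).2 ⟨k.2.2.2, w a ha, w b hb, hR'⟩⟩
  · obtain ⟨σ, -, hσ⟩ := cc H trivial
      (let ⟨h, _, f, o, _, z⟩ := c; ⟨h, trivial, f, o, trivial, z⟩) fun t ht =>
      let ⟨a, q, k1, b, R, k2, k3, k4, k5, k6⟩ := k t ht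
      ⟨a, q, k1, b, R, k2, k3, k4, k5, ((down_at hW hF).1 k6).1⟩
    exact hW.thr hH c hσ
  · have := hW.tr.opair (w p hp) o
    exact ⟨down_aa hW hF (w p hp) this.1 (n1 p hp a b o).1 fun _ _ _ _ => id,
      down_aa hW hF (w p hp) this.2 (n1 p hp a b o).2 fun _ _ _ _ => id⟩
  · exact down_aa hW hF (wl a ha) (wl a ha) (n2 a ha).1 fun _ _ _ _ => id
  · exact down_aa hW hF (wl b (h2.tr ha hb)) (wl a ha) ((n2 a ha).2 b hb) fun _ _ _ _ => id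
  · obtain ⟨b, hb, k⟩ := n3 a ha c hc f trivial r fn (down_ae hW hF k fun _ _ _ _ => id)
    exact ⟨b, hb, down_aa hW hF (w c hc) (wl b (h2.tr ha hb)) k fun _ _ _ _ => id⟩
  · exact down_aa hW hF (wl a (h2.tr h3 ha)) (wl a (h2.tr h3 ha)) (n4 a ha) fun _ _ _ _ => id
  · exact down_aa hW hF (w a ha) (w a ha) ((n5 a ha X trivial s).1
      (k.mono fun p hp => ((hF p).1 hp).1)) fun _ _ _ _ => id
  · exact app_iff.2 ((hF _).2 ⟨app_iff.1 ((n5 a ha X trivial s).2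
      (down_ae hW hF k fun _ _ _ _ => id)), hW.pr.2 ⟨w a ha, hX⟩⟩)

theorem down_cap (hW : Inn E W) {X t Y : M} (hX : X ∈ W) (ht : t ∈ W)
    (h1 : ∀ z, E z Y → E z X ∧ E z t) (h2 : ∀ z, E z X → E z t → E z Y) : Y ∈ W := by
  obtain ⟨b, hb, k⟩ := hW.sep hX (fun _ v => E (v 0) (v 1)) (fun _ => t) fun _ => ht
  rwa [show Y = b from ext' E fun z => ⟨fun h => (k z).2 (h1 z h),
    fun h => h2 z ((k z).1 h).1 ((k z).1 h).2⟩]

theorem CohAt.down (hC : Choice E) (hW : Inn E W) (hF' : F' ∈ W)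
    (hF : ∀ p, E p F' ↔ E p F ∧ p ∈ W) (hS' : S' ∈ W) (h : Ext1 E Set.univ κ l F)
    (o : ∀ u v p, At E S u v p → IsOrd E u) (o' : ∀ u v p, At E S' u v p → IsOrd E u)
    (hS : ∀ κ' l' p, E κ' κ ∨ (κ' = κ ∧ E l' l) → p ∈ W → (At E S' κ' l' p ↔ At E S κ' l' p))
    (k : CohAt E Set.univ S κ l F) : CohAt E W S' κ l F' := by
  obtain ⟨c0, K, -, N, -, hK, hN, c1, c2⟩ := k
  obtain rfl := hK.eq
  have wK : tup E κ ∈ W := hW.tup (hW.ord h.1)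
  have wN : N ∈ W := hN.eq ▸ hW.tup (hW.ord h.2.1)
  have w (a) (ha : E a N) : a ∈ W := hW.tr _ wN _ ha
  have dm (u v) (hu : E u κ) (d : Dom E S' u v) : Dom E S u v :=
    let ⟨p, hp⟩ := d; ⟨p, (hS u v p (.inl hu) (down_mem hW.tr hS' hp).2.2).1 hp⟩
  have lo {q u v} (hq : E q (tup E κ)) (e : IsOPair E q u v) (ou : IsOrd E u) : E u κ :=
    tup_ord ((tup_pr h.1).1 (pr_eq.1 e ▸ hq)).1 ou
  refine ⟨fun u hu v _ d => c0 u hu v trivial (dm u v hu d), _, wK, N, wN, hK, hN,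
    fun q hq κ' l' e h1 h2 a ha X hX ⟨t, _, ht⟩ p hp e' => ?_, fun κ' w' h1 c hc f _ r fn k => ?_⟩
  · have c := c1 q hq κ' l' e h1 h2 a ha X trivial ⟨t, trivial, ht⟩ p trivial e'
    have i := hS κ' l' p (h1.imp_right fun e => ⟨e, h2⟩) hp
    refine ⟨fun k => down_aa hW hF (w q hq) (w a ha) (c.1 (i.1 k)) ?_,
      fun k => i.2 (c.2 (down_ae hW hF k ?_))⟩
    · rintro q s hq hs ⟨u, v, e, p, -, k, s, Y, e', rfl, t, -, ht, k1, k2⟩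
      have wt : t ∈ W := ht.eq ▸ hW.tup (hW.ord (o u v p k))
      have wp : p ∈ W := pr_eq.1 e' ▸ hW.pr.2 ⟨hW.tr _ wK _ hs, down_cap hW hX wt k1 k2⟩
      exact ⟨u, v, e, p, wp, (hS u v p (.inl (lo hq e (o u v p k))) wp).2 k, s, Y, e', rfl, t, wt,
        ht, k1, k2⟩
    · rintro q s hq hs ⟨u, v, e, p, wp, k, s, Y, e', rfl, t, -, ht⟩
      exact ⟨u, v, e, p, trivial, (hS u v p (.inl (lo hq e (o' u v p k))) wp).1 k, s, Y, e', rfl,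
        t, trivial, ht⟩
  · obtain ⟨b, hb, k⟩ := c2 κ' trivial h1 c hc f trivial r fn (down_ae hW hF k
      fun u s hu _ ⟨y, k1, p, k2⟩ => ⟨y, k1, dm u y (tup_ord hu (o' u y p k2)) ⟨p, k2⟩⟩)
    exact ⟨b, hb, down_aa hW hF (w c hc) (hW.ord (h.2.1.mem hb)) k fun _ _ _ _ => id⟩

theorem CohAt.congr (hC : Choice E) (h : Ext1 E Set.univ κ l F)
    (o : ∀ u v p, At E S u v p → IsOrd E u) (o' : ∀ u v p, At E S' u v p → IsOrd E u)
    (hS : ∀ κ' l' p, E κ' κ ∨ (κ' = κ ∧ E l' l) → (At E S' κ' l' p ↔ At E S κ' l' p))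
    (k : CohAt E Set.univ S κ l F) : CohAt E Set.univ S' κ l F :=
  CohAt.down hC (inn_univ hC) trivial (fun _ => ⟨fun h => ⟨h, trivial⟩, fun h => h.1⟩) trivial h
    o o' (fun κ' l' p k _ => hS κ' l' p k) k

theorem Coh1.down (hC : Choice E) (hW : Inn E W) (hB : B ∈ W)
    (k : ∀ t, E t B ↔ E t S ∧ t ∈ W) (h : Coh1 E Set.univ S) : Coh1 E W B := by
  have dm {u v} (d : Dom E B u v) : Dom E S u v := let ⟨p, hp⟩ := d; ⟨p, ((down_at hW k).1 hp).1⟩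
  have sh {u v p} (d : At E S u v p) := h.shape hC u trivial v trivial p trivial d
  refine ⟨fun t ht => h.1 t ((k t).1 ht).1, fun κ wκ l wl d l' h1 h2 => ?_,
    fun κ _ l _ κ' _ l' _ d d' => h.2.2.1 κ trivial l trivial κ' trivial l' trivial (dm d) (dm d'),
    fun κ wκ l wl d => ?_⟩
  · exact ⟨_, (down_at hW k).2 ⟨h.top hC (h.2.1 κ trivial l trivial (dm d) l' h1 h2), wκ,
      hW.tr _ wl _ h1, hW.pr.2 ⟨wκ, hW.tup wκ⟩⟩⟩
  · obtain ⟨F, -, s, e, c⟩ := h.2.2.2 κ trivial l trivial (dm d)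
    obtain ⟨α, hα⟩ := ex_rk E B
    obtain ⟨v, wv, hv⟩ := hW.V hα.ord
    obtain ⟨F', wF, hF⟩ := hW.sep wv (fun _ v => At E (v 1) (v 2) (v 3) (v 0))
      (fun n => [B, κ].getD n l) fun n => match n with | 0 => hB | 1 => wκ | _ + 2 => wl
    have s' : Slice E B κ l F' := fun p => (hF p).trans ⟨fun a => a.2, fun a =>
      ⟨(hv p).2 ⟨(down_mem hW.tr hB a).2.2, let ⟨_, _, b⟩ := a; (hα.app b).2⟩, a⟩⟩
    have i (p) : E p F' ↔ E p F ∧ p ∈ W := by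
      rw [s' p, s p, down_at hW k]
      exact ⟨fun a => ⟨a.1, a.2.2.2⟩, fun a => ⟨a.1, wκ, wl, a.2⟩⟩
    refine ⟨F', wF, s', e.down hC hW wF i, c.down hC hW wF i hB e (fun u v p a => (sh a).1.1)
      (fun u v p a => (sh ((down_at hW k).1 a).1).1.1) fun κ' l' p _ wp => ?_⟩
    exact (down_at hW k).trans ⟨fun a => a.1, fun a =>
      ⟨a, hW.ord (sh a).1.1, hW.ord (sh a).2.1, wp⟩⟩

theorem ex_cut (S κ l : M) : ∃ S', Cut E S κ l S' :=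
  sep E S fun t => ∃ q p, IsOPair E t q p ∧ ∃ κ' l', IsOPair E q κ' l' ∧
    (E κ' κ ∨ (κ' = κ ∧ E l' l))

theorem Cut.at (h : Cut E S κ l S') (κ' l' p : M) :
    At E S' κ' l' p ↔ At E S κ' l' p ∧ (E κ' κ ∨ (κ' = κ ∧ E l' l)) := by
  rw [at_iff, at_iff, h]
  refine and_congr_right fun _ => ⟨?_, fun k => ⟨_, _, pr_spec _ _, _, _, pr_spec _ _, k⟩⟩
  rintro ⟨q, p', e, u, v, e', k⟩
  obtain ⟨rfl, -⟩ := (pr_spec _ _).inj e
  obtain ⟨rfl, rfl⟩ := (pr_spec _ _).inj e'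
  exact k

theorem Coh1.cut (hC : Choice E) (h : Coh1 E Set.univ S) (hκ : IsOrd E κ) (hl : IsOrd E l)
    (k : Cut E S κ l S') : Coh1 E Set.univ S' := by
  have dm {u v} : Dom E S' u v ↔ Dom E S u v ∧ (E u κ ∨ (u = κ ∧ E v l)) :=
    ⟨fun ⟨p, hp⟩ => ⟨⟨p, ((k.at _ _ _).1 hp).1⟩, ((k.at _ _ _).1 hp).2⟩,
      fun ⟨⟨p, hp⟩, a⟩ => ⟨p, (k.at _ _ _).2 ⟨hp, a⟩⟩⟩
  have sh {u v p} (d : At E S u v p) := h.shape hC u trivial v trivial p trivial d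
  refine ⟨fun t ht => h.1 t ((k t).1 ht).1, fun u _ v _ d l' h1 h2 => ?_,
    fun u _ v _ u' _ v' _ d d' => h.2.2.1 u trivial v trivial u' trivial v' trivial (dm.1 d).1
      (dm.1 d').1, fun u _ v _ d => ?_⟩
  · exact dm.2 ⟨h.2.1 u trivial v trivial (dm.1 d).1 l' h1 h2,
      (dm.1 d).2.imp_right fun a => ⟨a.1, hl.tr a.2 h1⟩⟩
  · obtain ⟨d, b⟩ := dm.1 d
    obtain ⟨F, -, s, e, c⟩ := h.2.2.2 u trivial v trivial d
    refine ⟨F, trivial, fun p => (s p).trans ((k.at _ _ _).trans (and_iff_left b)).symm, e,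
      c.congr hC e (fun u v p a => (sh a).1.1) (fun u v p a => (sh ((k.at _ _ _).1 a).1).1.1)
        fun κ' l' p a => (k.at _ _ _).trans (and_iff_left ?_)⟩
    rcases a with a | ⟨rfl, a⟩ <;> rcases b with b | ⟨rfl, b⟩
    exacts [.inl (hκ.tr b a), .inl a, .inl b, .inr ⟨rfl, hl.tr b a⟩]

theorem down_aa' {K a b : M} {P Q : M → M → Prop} (w : ∀ R, Rel E K R → R ∈ W)
    (h : Aa E W F K a b P) (k : ∀ s t, P s t → Q s t) : Aa E Set.univ F K a b Q :=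
  fun R _ r H => h R (w R r) r fun s hs t ht p => H s hs t ht (k s t p)

theorem down_ae' {K a b : M} {P Q : M → M → Prop} (w : ∀ R, Rel E K R → R ∈ W)
    (h : Ae E Set.univ F K a b P) (k : ∀ s t, P s t → Q s t) : Ae E W F K a b Q :=
  let ⟨R, _, r, h1, h2⟩ := h; ⟨R, w R r, r, h1, fun s t p => k s t (h2 s t p)⟩

theorem down_relW {K : M} (h3 : Lim E ν) (h4 : E ξ ν) (hV : VSub E W ν)
    (hK : ∀ s, E s K → Rk E s ξ) (R : M) (r : Rel E K R) : R ∈ W :=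
  hV _ (inV_iff.2 (h3.rel h4 fun p hp =>
    let ⟨s, t, a, b, c⟩ := r p hp; ⟨s, t, a, hK s b, hK t c⟩))

theorem Ext1.up (hW : Inn E W) (h1 : Lim E ξ) (h2 : E l ξ) (h3 : Lim E ν) (h4 : E ξ ν)
    (hV : VSub E W ν) (h : Ext1 E W κ l F) : Ext1 E Set.univ κ l F := by
  obtain ⟨o1, o2, o3, K, -, N, -, hK, hN, sh, ul, cc, n1, n2, n3, n4, n5⟩ := h
  have rN (s) (hs : E s N) : Rk E s ξ := tup_rk h1 (fun x => h1.1.tr h2) (hN.eq ▸ hs)
  have rK (s) (hs : E s K) : Rk E s ξ :=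
    tup_rk h1 (fun x => h1.1.tr (h1.1.tr h2 o3)) (hK.eq ▸ hs)
  have w := down_relW h3 h4 hV rK
  refine ⟨o1, o2, o3, K, trivial, N, trivial, hK, hN, sh,
    fun a ha b hb R _ R' _ r r' => ul a ha b hb R (w R r) R' (w R' r') r r', fun H _ c k => ?_,
    fun p hp a b o => ⟨down_aa' w (n1 p hp a b o).1 fun _ _ => id,
      down_aa' w (n1 p hp a b o).2 fun _ _ => id⟩,
    fun a ha => ⟨down_aa' w (n2 a ha).1 fun _ _ => id,
      fun b hb => down_aa' w ((n2 a ha).2 b hb) fun _ _ => id⟩,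
    fun a ha c hc f _ r fn k => ?_, fun a ha => down_aa' w (n4 a ha) fun _ _ => id,
    fun a ha X _ s => ?_⟩
  · obtain ⟨ξ₁, a1, a2⟩ := h3.2 ξ h4
    have o₁ := h3.1.mem a1
    obtain ⟨V, hV₁⟩ := ex_V o₁
    obtain ⟨Q, hQ, -⟩ := ex_rel E V V fun _ _ => True
    obtain ⟨β, b1, b2⟩ := h3.rk (x := Q) (h3.rel a1 fun p hp =>
      let ⟨x, y, a, b, c, _⟩ := (hQ p).1 hp; ⟨x, y, c, (hV₁ x).1 a, (hV₁ y).1 b⟩)
    obtain ⟨γ, g1, g2, g3⟩ := h3.two h4 b1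
    have oγ := h3.1.mem g1
    have rH : Rk E H ν := h3.rel g1 fun t ht => by
      obtain ⟨a, q, k1, b, R, k2, k3, k4, k5, -⟩ := k t ht
      refine ⟨a, q, k1, (rN a k3).lt oγ g2, (b2.mem ((hQ q).2 ⟨b, R, (hV₁ b).2
        ((rN b k4).lt o₁ a2), (hV₁ R).2 (Rk.intro o₁ a2 fun p hp => ?_), k2, trivial⟩)).lt oγ g3⟩
      obtain ⟨s, t, e, hs, ht⟩ := k5 p hp
      exact h1.opair (rK s hs) (rK t ht) e
    obtain ⟨f, -, fn, o, -, ho, hf⟩ := c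
    obtain ⟨f', f1, f2⟩ := ex_rel E o H fun n t => App E f n t
    obtain ⟨δ, d1, d2⟩ := h3.rk rH
    obtain ⟨ε, e1, e2, e3⟩ := h3.two h4 d1
    have oε := h3.1.mem e1
    have le : Sub E o ξ := (ho.1.1.le_of_not h1.1 fun a => ho.2.2 ξ a ⟨h1, l, h2⟩).sub h1.1
    obtain ⟨σ, -, hσ⟩ := cc H (hV _ (inV_iff.2 rH)) ⟨f', hV _ (inV_iff.2 (h3.rel e1 fun p hp =>
      let ⟨x, y, a, b, c, _⟩ := (f1 p).1 hp
      ⟨x, y, c, oε.rk (oε.tr e2 (le x a)), (d2.mem b).lt oε e3⟩)),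
      fun n a b x y => fn n a b ((f2 _ _).1 x).2.2 ((f2 _ _).1 y).2.2, o, hW.ord ho.1.1, ho,
      fun t ht => let ⟨n, a, b⟩ := hf t ht; ⟨n, a, (f2 _ _).2 ⟨a, ht, b⟩⟩⟩ k
    exact ⟨σ, trivial, hσ⟩
  · obtain ⟨b, hb, k⟩ := n3 a ha c hc f (w f r) r fn (down_ae' w k fun _ _ => id)
    exact ⟨b, hb, down_aa' w k fun _ _ => id⟩
  · have n := n5 a ha X (hV _ (inV_iff.2 (Rk.intro h3.1 h4 fun z hz => rK z (s z hz)))) s
    exact ⟨fun k => down_aa' w (n.1 k) fun _ _ => id, fun k => n.2 (down_ae' w k fun _ _ => id)⟩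

theorem CohAt.up (hW : Inn E W) (hS : S ∈ W) (hκ : IsOrd E κ) (h2 : E κ l) (h3 : Lim E ν)
    (h4 : E l ν) (h5 : Lim E κ) (hV : VSub E W ν) (h : CohAt E W S κ l F) :
    CohAt E Set.univ S κ l F := by
  obtain ⟨c0, K, -, N, wN, hK, hN, c1, c2⟩ := h
  obtain rfl := hK.eq
  have rK (s) (hs : E s (tup E κ)) : Rk E s κ := tup_rk h5 (fun _ => id) hs
  have lt := h3.1.tr h4 h2
  have w := down_relW h3 lt hV rK
  refine ⟨fun u hu v _ ⟨p, d⟩ => c0 u hu v (down_mem hW.tr hS d).2.1 ⟨p, d⟩, _, trivial, N, trivial,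
    hK, hN, fun q hq κ' l' e h1 h2 a ha X _ ⟨t, _, ht, hX⟩ p _ e' => ?_,
    fun κ' _ h1 c hc f _ r fn k => ?_⟩
  · obtain rfl := ht.eq
    have wX : X ∈ W := hV _ (inV_iff.2 (Rk.intro h3.1 lt fun z hz =>
      rK z (tup_mono (h1.sub hκ) z (hX z hz))))
    have c := c1 q hq κ' l' e h1 h2 a ha X wX ⟨_, hW.tup (hW.ord (h1.ord hκ)), ht, hX⟩ p
      (pr_eq.1 e' ▸ hW.pr.2 ⟨hW.tr _ wN _ ha, wX⟩) e'
    refine ⟨fun k => down_aa' w (c.1 k) ?_, fun k => c.2 (down_ae' w k ?_)⟩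
    · rintro q s ⟨u, v, e, p, -, k, s, Y, e', rfl, t, -, ht⟩
      exact ⟨u, v, e, p, trivial, k, s, Y, e', rfl, t, trivial, ht⟩
    · rintro q s ⟨u, v, e, p, -, k, s, Y, e', rfl, t, -, ht, k1⟩
      exact ⟨u, v, e, p, (down_mem hW.tr hS k).2.2, k, s, Y, e', rfl, t,
        ht.eq ▸ hW.tup (down_mem hW.tr hS k).1, ht, k1⟩
  · obtain ⟨b, hb, k⟩ := c2 κ' (hW.ord (h1.ord hκ)) h1 c hc f (w f r) r fn
      (down_ae' w k fun _ _ => id)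
    exact ⟨b, hb, down_aa' w k fun _ _ => id⟩

end Pool.Agent.Lib.MP_75a307_lc.LE
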