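import Pool.Agent.Lib.MP_75a307_lc.LE.LK
import Pool.Agent.Lib.MP_75a307_lc.LE.Down

/-! Minimal counterexamples among the models `L[S]`. -/

set_option synthInstance.maxSize 100000
set_option linter.unusedVariables false
set_option linter.unusedSectionVars false

namespace Pool.Agent.Lib.MP_75a307_lc.LE

open Pool.Agent.Lib.MP_1d770b_lc

universe u
variable {M : Type u} {E : M → M → Prop} [hZ : ZF E]

theorem lk_model (hC : Choice E) {S : M} (h : Coh1 E Set.univ S) :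
    ∃ B : LK E S, (∀ t, E t B.1 ↔ E t S ∧ t ∈ LK E S) ∧ Coh1 (Res E (LK E S)) Set.univ B ∧
      ∀ x, x ∈ LK (Res E (LK E S)) B := by
  obtain ⟨B, hB, k⟩ := lk_cap (E := E) S
  have hW := lk_inn (E := E) S
  have := hW.zf
  refine ⟨⟨B, hB⟩, k, (UR.res (fun _ E W v => Coh1 E W (v 0)) hW.good hW.tr
    fun _ => ⟨B, hB⟩).1 (h.down hC hW hB k), fun x => (hW.lk_res _ x).2 ?_⟩
  have e : LK E B = LK E S := lk_congr fun t _ ht => (k t).trans (and_iff_left ht)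
  exact e.ge x.2

variable (E) in
/-- the element `t` of a sequence has index below `(κ, l)` -/
def MinB (κ l t : M) : Prop := ∃ q p, IsOPair E t q p ∧ ∃ κ' l', IsOPair E q κ' l' ∧
  (E κ' κ ∨ (κ' = κ ∧ E l' l))

theorem MinB.mono {κ l κ' l' t : M} (h : MinB E κ l t) (o : IsOrd E κ') (o' : IsOrd E l')
    (k : E κ κ' ∨ (κ = κ' ∧ Le E l l')) : MinB E κ' l' t := by
  obtain ⟨q, p, h1, a, b, h2, h3⟩ := h
  refine ⟨q, p, h1, a, b, h2, ?_⟩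
  rcases k with k | ⟨rfl, k⟩
  · exact Or.inl (h3.elim (o.tr k) fun h => h.1 ▸ k)
  · exact h3.imp_right fun h => ⟨h.1, k.sub o' _ h.2⟩

theorem min_top {S : M} (h : Coh1 E Set.univ S) : ∃ κ, IsOrd E κ ∧ Cut E S κ κ S := by
  obtain ⟨d, hd⟩ := ex_fld E S
  obtain ⟨d1, hd1⟩ := ex_sUnion E d
  obtain ⟨d2, hd2⟩ := ex_sUnion E d1
  obtain ⟨c, hc, H⟩ := ord_bound E d2
  refine ⟨c, hc, fun t => ⟨fun ht => ⟨ht, ?_⟩, fun ht => ht.1⟩⟩
  obtain ⟨q, p, h1, κ, l, h2, -⟩ := h.1 t ht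
  obtain ⟨F, -, -, hF, -⟩ := h.2.2.2 κ trivial l trivial ⟨p, q, h2, t, h1, ht⟩
  refine ⟨q, p, h1, κ, l, h2, Or.inl (H κ ?_ hF.1)⟩
  obtain ⟨s, r, k1, -, k3⟩ := h2
  exact (hd2 κ).2 ⟨s, (hd1 s).2 ⟨q, (hd q p ⟨t, h1, ht⟩).1, (k3 s).2 (Or.inl rfl)⟩,
    (k1 κ).2 (Or.inl rfl)⟩

theorem no_min (φ : Fm) (H : ∀ (N : Type u) (E' : N → N → Prop) [ZF E'], Choice E' → ∀ S,
    Coh1 E' Set.univ S → (∀ x, x ∈ LK E' S) → ¬ Min E' Set.univ φ S) (hC : Choice E) {S : M}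
    (h : Coh1 E Set.univ S) (hV : ∀ x, x ∈ LK E S) : ¬ Sat E φ fun _ => S := by
  intro hφ
  have hU := inn_univ hC
  have dS : D1 E (SatL E Set.univ φ) := (RD.df (E := E) (G := Good E)
    (P := fun W v => SatL E W φ (v 0)) inferInstance good_univ).d1
  obtain ⟨κ0, o0, c0⟩ := min_top h
  have s0 : SatL E Set.univ φ S := (hU.satL trivial φ).2 ⟨S, fun t => (and_iff_left (hV t)).symm, by
    rw [Set.eq_univ_of_forall hV]; exact (satW_univ φ _).2 hφ⟩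
  obtain ⟨κ, oκ, ⟨l0, ol0, h0⟩, mκ⟩ := ord_min
    (fun κ => ∃ l, IsOrd E l ∧ ∃ T, Cut E S κ l T ∧ SatL E Set.univ φ T) o0 ⟨κ0, o0, S, c0, s0⟩
  obtain ⟨l, ol, ⟨S', c, s⟩, ml⟩ := ord_min
    (fun l => ∃ T, Cut E S κ l T ∧ SatL E Set.univ φ T) ol0 h0
  obtain ⟨B, hB, h1, h2⟩ := lk_model hC (h.cut hC oκ ol c)
  have hW := lk_inn (E := E) S'
  have := hW.zf
  refine H _ _ hW.ac B h1 h2 ((UR.res (fun _ E W v => Min E W φ (v 0)) hW.good hW.tr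
    fun _ => B).1 ⟨?_, fun a _ b _ U hU' oa ob cU ne sU => ?_⟩)
  · obtain ⟨C, k1, k2⟩ := (hU.satL trivial φ).1 s
    obtain rfl : B.1 = C := ext' E fun t => (hB t).trans (k1 t).symm
    exact k2
  have lt : E a κ ∨ (a = κ ∧ E b l) := by
    by_contra hn
    refine ne (ext' E fun t => (cU t).trans (and_iff_left_of_imp fun ht =>
      MinB.mono ((c t).1 ((hB t).1 ht).1).2 oa ob ?_))
    rcases oκ.tri oa with k | rfl | k
    · exact Or.inl k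
    · exact Or.inr ⟨rfl, ol.le_of_not ob fun k => hn (Or.inr ⟨rfl, k⟩)⟩
    · exact (hn (Or.inl k)).elim
  obtain ⟨T, cT⟩ := ex_cut (E := E) S a b
  have k : ∀ t ∈ LK E S', E t U ↔ E t T := fun t ht => by
    rw [cU, cT, hB, c]
    exact ⟨fun k => ⟨k.1.1.1, k.2⟩, fun k => ⟨⟨⟨k.1, MinB.mono k.2 oκ ol
      (lt.imp_right fun e => ⟨e.1, Or.inl e.2⟩)⟩, ht⟩, k.2⟩⟩
  have sub : LK E U ⊆ LK E S' := hW.lk hU' fun _ _ => Iff.rfl
  have e : LK E U = LK E T := lk_congr fun t ht _ => k t (sub ht)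
  obtain ⟨C, k1, k2⟩ := (hW.satL hU' φ).1 sU
  have sT : SatL E Set.univ φ T := (hU.satL trivial φ).2 ⟨C, fun t => (k1 t).trans
    (e ▸ and_congr_left fun ht => k t (sub ht)), e ▸ k2⟩
  rcases lt with lt | ⟨rfl, lt⟩
  · exact mκ a lt ⟨b, ob, T, cT, sT⟩
  · exact ml b lt ⟨T, cT, sT⟩

theorem stop_eq (hC : Choice E) {φ : Fm} {S κ l : M} (h : Coh1 E Set.univ S)
    (hV : ∀ x, x ∈ LK E S) (hm : Min E Set.univ φ S) {j j' : M → M} {W W' : Set M}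
    (e : El E j W) (e' : El E j' W') (hκ : IsOrd E κ) (hl : IsOrd E l)
    (hd : ∀ κ' l', Dom E (j' S) κ' l' → E κ' κ ∨ (κ' = κ ∧ E l' l))
    (a : Agree E W W' (j S) (j' S) κ l) : W = W' := by
  have hW := e.inn hC
  have hW' := e'.inn hC
  have k := e.lk hC hV
  have k' := e'.lk hC hV
  obtain ⟨T, hT, cT⟩ := (e.tr1 (fun W S => ∀ a ∈ W, ∀ b ∈ W, ∃ T ∈ W, Cut E S a b T) S).1
    (fun a _ b _ => let ⟨T, h⟩ := ex_cut (E := E) S a b; ⟨T, trivial, h⟩) κ (hW.ord hκ) l (hW.ord hl)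
  have sh := ((e'.tr1 (fun W S => Coh1 E W S) S).1 h).1
  have key : ∀ t ∈ W, t ∈ W' → (E t T ↔ E t (j' S)) := fun t h1 h2 => by
    rw [cT]
    constructor
    · rintro ⟨ht, q, p, k1, κ', l', k2, k3⟩
      obtain ⟨q', k4, t', k5, k6⟩ := (a κ' l' p k3 (hW.tr.opair h1 k1).2 (hW'.tr.opair h2 k1).2).1
        ⟨q, k2, t, k1, ht⟩
      obtain rfl := k4.uniq k2
      exact k5.uniq k1 ▸ k6
    · intro ht
      obtain ⟨q, p, k1, κ', l', k2, -⟩ := sh t ht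
      have k3 := hd κ' l' ⟨p, q, k2, t, k1, ht⟩
      obtain ⟨q', k4, t', k5, k6⟩ := (a κ' l' p k3 (hW.tr.opair h1 k1).2 (hW'.tr.opair h2 k1).2).2
        ⟨q, k2, t, k1, ht⟩
      obtain rfl := k4.uniq k2
      exact ⟨k5.uniq k1 ▸ k6, q', p, k1, κ', l', k2, k3⟩
  have sub : LK E T ⊆ W := hW.lk hT fun _ _ => Iff.rfl
  have eq : LK E T = W' := (lk_congr fun t h1 h2 => key t (sub h1) (k' ▸ h2)).trans k'.symm
  by_cases ne : T = j S
  · rw [← eq, ne]; exact k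
  · refine (((e.tr1 (fun W S => Min E W φ S) S).1 hm).2 κ (hW.ord hκ) l (hW.ord hl) T hT hκ hl cT ne
      ((hW.satL hT φ).2 ⟨j' S, fun t => ?_, ?_⟩)).elim
    · rw [eq]
      refine ⟨fun ht => ?_, fun ht => (key t (sub (eq ▸ ht.2)) ht.2).1 ht.1⟩
      have := hW'.tr _ (e'.maps S) t ht
      exact ⟨(key t (sub (eq ▸ this)) this).2 ht, this⟩
    · rw [eq]
      exact ((e'.tr1 (fun W S => Min E W φ S) S).1 hm).1

end Pool.Agent.Lib.MP_75a307_lc.LE
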