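import Pool.Agent.Lib.MP_75a307_lc.LE.Cmp
import Pool.Agent.Lib.MP_75a307_lc.LE.Min

/-! Iterates of a minimal model that agree below a level have the same sets there. -/

set_option synthInstance.maxSize 100000
set_option linter.unusedVariables false
set_option linter.unusedSectionVars false

namespace Pool.Agent.Lib.MP_75a307_lc.LE

open Pool.Agent.Lib.MP_1d770b_lc

universe u
variable {M : Type u} {E : M → M → Prop} [hZ : ZF E]

variable (E) in
/-- the images of `S` differ at `(κ, l)` -/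
def ComD (K S G G' κ l : M) : Prop :=
  ∃ p, p ∈ Wm E K G ∧ p ∈ Wm E K G' ∧ ¬ (At E (jG E K G S) κ l p ↔ At E (jG E K G' S) κ l p)

instance (K S : M) (a b c d : (ℕ → M) → M) [IsT a] [IsT b] [IsT c] [IsT d] :
    Df E fun v => ComD E K S (a v) (b v) (c v) (d v) := by unfold ComD; infer_instance

variable (E) in
/-- the move at the least disagreement -/
def ComM (K S G G' m : M) : Prop :=
  ∃ κ l F F', m = pr E (pr E κ l) (pr E F F') ∧ IsOrd E κ ∧ IsOrd E l ∧ ComD E K S G G' κ l ∧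
    (∀ κ' l', E κ' κ ∨ (κ' = κ ∧ E l' l) → ¬ ComD E K S G G' κ' l') ∧
    (∀ p, E p F ↔ At E (jG E K G S) κ l p) ∧ ∀ p, E p F' ↔ At E (jG E K G' S) κ l p

theorem comM_fn {K S G G' m m' : M} (h : ComM E K S G G' m) (h' : ComM E K S G G' m') :
    m = m' := by
  obtain ⟨κ, l, F, F', rfl, a1, a2, a3, a4, a5, a6⟩ := h
  obtain ⟨κ', l', H, H', rfl, b1, b2, b3, b4, b5, b6⟩ := h'
  obtain rfl : κ = κ' := by
    rcases a1.tri b1 with e | e | e
    exacts [(b4 _ _ (Or.inl e) a3).elim, e, (a4 _ _ (Or.inl e) b3).elim]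
  obtain rfl : l = l' := by
    rcases a2.tri b2 with e | e | e
    exacts [(b4 _ _ (Or.inr ⟨rfl, e⟩) a3).elim, e, (a4 _ _ (Or.inr ⟨rfl, e⟩) b3).elim]
  rw [ext' E fun p => (a5 p).trans (b5 p).symm, ext' E fun p => (a6 p).trans (b6 p).symm]

theorem com_slice (A κ l : M) : ∃ F, Slice E A κ l F := by
  obtain ⟨d, hd⟩ := ex_fld E A
  obtain ⟨F, hF⟩ := sep E d fun p => At E A κ l p
  exact ⟨F, fun p => (hF p).trans ⟨fun h => h.2, fun ⟨q, h1, h2⟩ => ⟨(hd _ _ h2).2, q, h1, h2⟩⟩⟩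

section
variable {j : M → M} {W : Set M} {K S θ κ l p F : M}

theorem com_at (hC : Choice E) (hS : Coh1 E Set.univ S) (e : El E j W) (k : At E (j S) κ l p) :
    Lim E κ ∧ IsOrd E l ∧ E κ l := by
  obtain ⟨q, h1, h2⟩ := k
  have a := e.trans.app (e.maps S) h2
  have b := e.trans.opair a.1 h1
  have c := (e.tr1 (fun W S => Shape E W S) S).1 (hS.shape hC) κ b.1 l b.2 p a.2 ⟨q, h1, h2⟩
  exact ⟨c.1, c.2.1, c.2.2.1⟩

theorem com_lt (hC : Choice E) (hθ : Lim E θ) (hK : ∀ x, E x K ↔ Rk E x θ) (hSK : E S K)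
    (hS : Coh1 E Set.univ S) (e : El E j W) (hκ : IsOrd E κ) (n : ¬ E κ (j K)) {u v : M}
    (k : Dom E (j S) u v) : E u κ := by
  obtain ⟨p, k⟩ := k
  have o := (com_at hC hS e k).1.1
  obtain ⟨q, ⟨s, t, h1, -, h3⟩, h2⟩ := k
  have r : Rk E u (j θ) := ((((e.mem_V hK (e.maps S)).1 (e.mem_iff.2 hSK)).app h2).1.mem
    ((h3 s).2 (Or.inl rfl))).mem ((h1 u).2 (Or.inl rfl))
  have o' := e.ord hθ.1
  exact (o'.le_of_not hκ fun m => n ((e.mem_V hK (e.ord_mem hκ)).2 (o'.rk m))).sub hκ u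
    (r.ord_mem o)

theorem com_side (hS : Coh1 E Set.univ S) (e : El E j W) (hκ : IsOrd E κ) (hl : IsOrd E l)
    (s : Slice E (j S) κ l F) : Side E W (j S) κ l F := by
  by_cases d : Dom E (j S) κ l
  · obtain ⟨F0, h0, h1, h2⟩ := ((e.tr1 (fun W S => Coh1 E W S) S).1 hS).2.2.2 κ (e.ord_mem hκ) l
      (e.ord_mem hl) d
    obtain rfl : F0 = F := ext' E fun p => (h1 p).trans (s p).symm
    exact Or.inr ⟨h0, d, h2⟩
  · exact Or.inl ⟨fun p hp => d ⟨p, (s p).1 hp⟩, d⟩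

end

theorem com_move (hC : Choice E) {φ : Fm} {K S θ G G' ξ : M} (hθ : Lim E θ)
    (hK : ∀ x, E x K ↔ Rk E x θ) (hSK : E S K) (hS : Coh1 E Set.univ S) (hV : ∀ x, x ∈ LK E S)
    (hm : Min E Set.univ φ S) (h : Inv E K S G G' ξ) : Wm E K G = Wm E K G' ∨
      ∃ κ l F F', ComM E K S G G' (pr E (pr E κ l) (pr E F F')) ∧
        Legit E K S G G' ξ κ l F F' := by
  obtain ⟨s, s', hξ, ag, -⟩ := h
  have e := s.el hC
  have e' := s'.el hC
  have o : ∀ κ l, ComD E K S G G' κ l → Lim E κ ∧ IsOrd E l ∧ E κ l := fun κ l ⟨p, _, _, n⟩ => by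
    by_cases k : At E (jG E K G S) κ l p
    · exact com_at hC hS e k
    · exact com_at (p := p) hC hS e' (by tauto)
  by_cases d : ∃ κ l, ComD E K S G G' κ l
  · obtain ⟨κ, l, d⟩ := d
    obtain ⟨κ, oκ, ⟨l, d⟩, mκ⟩ := ord_min (fun κ => ∃ l, ComD E K S G G' κ l) (o κ l d).1.1 ⟨l, d⟩
    obtain ⟨l, ol, d, ml⟩ := ord_min (fun l => ComD E K S G G' κ l) (o κ l d).2.1 d
    have m : ∀ κ' l', E κ' κ ∨ (κ' = κ ∧ E l' l) → ¬ ComD E K S G G' κ' l' := by
      rintro κ' l' (k | ⟨rfl, k⟩) n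
      exacts [mκ κ' k ⟨l', n⟩, ml l' k n]
    have a : Agree E (Wm E K G) (Wm E K G') (jG E K G S) (jG E K G' S) κ l :=
      fun κ' l' p k h1 h2 => by_contra fun n => m κ' l' k ⟨p, h1, h2, n⟩
    by_cases i' : E κ (jG E K G' K)
    swap
    · exact Or.inl (stop_eq hC hS hV hm e e' oκ ol
        (fun u v k => Or.inl (com_lt hC hθ hK hSK hS e' oκ i' k)) a)
    by_cases i : E κ (jG E K G K)
    swap
    · exact Or.inl (stop_eq hC hS hV hm e' e oκ ol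
        (fun u v k => Or.inl (com_lt hC hθ hK hSK hS e oκ i k))
        fun κ' l' p k h1 h2 => (a κ' l' p k h2 h1).symm).symm
    obtain ⟨F, hF⟩ := com_slice (E := E) (jG E K G S) κ l
    obtain ⟨F', hF'⟩ := com_slice (E := E) (jG E K G' S) κ l
    refine Or.inr ⟨κ, l, F, F', ⟨κ, l, F, F', rfl, oκ, ol, d, m, hF, hF'⟩, ?_⟩
    have lt := (o κ l d).2.2
    obtain ⟨p, h1, h2, n⟩ := d
    refine ⟨hξ.1.le_of_not oκ fun k => n (ag κ l p (Or.inl k) h1 h2), ol, lt, i, i', a,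
      com_side hS e oκ ol hF, com_side hS e' oκ ol hF', ?_,
      fun _ _ => ⟨p, h1, h2, fun k => n ((hF p).symm.trans (k.trans (hF' p)))⟩⟩
    by_cases k : At E (jG E K G S) κ l p
    · exact Or.inl fun z => z p ((hF p).2 k)
    · exact Or.inr fun z => z p ((hF' p).2 (by tauto))
  · have o' := e'.ord hθ.1
    exact Or.inl (stop_eq hC hS hV hm e e' o' o' (fun u v k => Or.inl (com_lt hC hθ hK hSK hS e' o'
      (fun n => no1 (((e'.mem_V hK (e'.maps θ)).1 n).ord_mem o')) k))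
      fun κ' l' p _ h1 h2 => by_contra fun n => d ⟨κ', l', p, h1, h2, n⟩)

theorem com (hC : Choice E) {φ : Fm} {K S θ G G' ξ : M} (hθ : Lim E θ)
    (hK : ∀ x, E x K ↔ Rk E x θ) (hSK : E S K) (hS : Coh1 E Set.univ S) (hV : ∀ x, x ∈ LK E S)
    (hm : Min E Set.univ φ S) (h : Inv E K S G G' ξ) (x : M) (hx : ∀ z, E z x → Rk E z ξ) :
    x ∈ Wm E K G ↔ x ∈ Wm E K G' := by
  obtain ⟨G1, G1', ξ1, -, -, -, f, f', e⟩ := cmp hC hθ hK hS (ComM E K S)
    (fun _ _ _ _ _ _ => by unfold ComM; infer_instance) (fun _ _ _ _ => comM_fn)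
    (fun G G' => Wm E K G = Wm E K G') (fun _ _ _ => True) (fun _ _ _ _ _ _ => inferInstance)
    (fun _ _ _ _ _ _ _ _ _ _ _ _ => trivial)
    (fun G G' ξ h _ => (com_move hC hθ hK hSK hS hV hm h).imp_right
      fun ⟨κ, l, F, F', h1, h2⟩ => ⟨κ, l, F, F', h1, h2, fun _ _ _ _ _ _ => trivial⟩)
    h fun _ _ => trivial
  rw [f.2 x hx, f'.2 x hx, e]

end Pool.Agent.Lib.MP_75a307_lc.LE
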