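import Pool.Agent.Lib.MP_75a307_lc.Defs

/-!
Coherent sequences of non-overlapping extenders and the models `L[S]` inside a model `(M, E)`
of ZFC.  Extenders are indexed by their lengths.
-/

namespace Pool.Agent.Lib.MP_75a307_lc.LE

open Pool.Agent.Lib.MP_1d770b_lc

universe u

variable {M : Type u} (E : M → M → Prop)

/-- `t` is the set of tuples (iterated ordered pairs) of elements of `l`. -/
def IsTup (t l : M) : Prop := ∀ x, E x t ↔ E x l ∨ ∃ a b, E a t ∧ E b t ∧ IsOPair E x a b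

/-- `x` is a tuple of elements of `l`. -/
def Tup (l x : M) : Prop := ∃ t, IsTup E t l ∧ E x t

/-- `F` is a `(κ, l)`-extender and `j : V → W` is its ultrapower map: `κ < l ≤ j κ`, each element
of `W` is `j(f)(a)` for a tuple `a` from `l` and a function `f` on the tuples from `κ`, and
`F = {(a, X) : a ∈ j X}`. -/
structure ExtOf (j : M → M) (W : Set M) (κ l F : M) : Prop where
  emb : ElEmb E j W κ
  len : IsOrd E l ∧ E κ l ∧ Incl E l (j κ)
  gen : ∀ x ∈ W, ∃ a t b f, Tup E l a ∧ IsTup E t κ ∧ Func E f t b ∧ App E (j f) a x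
  mem : ∀ p, E p F ↔ ∃ a X, IsOPair E p a X ∧ Tup E l a ∧ (∀ s, E s X → Tup E κ s) ∧ E a (j X)

/-- `p ∈ S(κ, l)`, that is `((κ, l), p) ∈ S`. -/
def At (S κ l p : M) : Prop := ∃ q, IsOPair E q κ l ∧ App E S q p

/-- `(κ, l)` is in the domain of the sequence `S`. -/
def Dom (S κ l : M) : Prop := ∃ p, At E S κ l p

/-- `F = S(κ, l)`. -/
def Slice (S κ l F : M) : Prop := ∀ p, E p F ↔ At E S κ l p

/-- `S` is a coherent sequence of non-overlapping extenders: `S(κ, l)` is a `(κ, l)`-extender for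
`κ < l < o(κ)`, and its ultrapower map `j` has `j(S) ↾ (κ + 1) = S ↾ (κ, l)`. -/
structure Coh (S : M) : Prop where
  shape : ∀ t, E t S → ∃ q p, IsOPair E t q p ∧ ∃ κ l, IsOPair E q κ l
  down : ∀ κ l l', Dom E S κ l → E κ l' → E l' l → Dom E S κ l'
  nonov : ∀ κ l κ' l', Dom E S κ l → Dom E S κ' l' → E κ κ' → E l κ'
  ext : ∀ κ l, Dom E S κ l → ∃ F j W, Slice E S κ l F ∧ ExtOf E j W κ l F ∧
    ∀ κ' l' p, E κ' κ ∨ κ' = κ → (At E (j S) κ' l' p ↔ At E S κ' l' p ∧ (E κ' κ ∨ E l' l))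

/-- `ν = o(α)`: the lengths of the extenders of `S` at `α` are the ordinals between `α` and `ν`. -/
def IsO (S α ν : M) : Prop := ∀ l, Dom E S α l ↔ E α l ∧ E l ν

/-- `S` is coherent, `μ` is a cardinal with `κ < μ < o(κ)`, and the normal measure of `S(κ, μ)`
concentrates on `{α : o(α) = α*}`. -/
def Long (S κ μ : M) : Prop :=
  Coh E S ∧ IsCard E μ ∧ ∃ X p, IsOPair E p κ X ∧ At E S κ μ p ∧
    ∀ α, E α X → ∃ ν, Star E Set.univ α ν ∧ IsO E S α ν

/-- The same with `{α : o(α) is inaccessible}`. -/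
def LongI (S κ μ : M) : Prop :=
  Coh E S ∧ IsCard E μ ∧ ∃ X p, IsOPair E p κ X ∧ At E S κ μ p ∧
    ∀ α, E α X → ∃ ν, Inacc E Set.univ ν ∧ IsO E S α ν

/-- `S' = S ↾ (κ, l)`: the extenders with smaller critical point, or at `κ` and shorter than `l`. -/
def Cut (S κ l S' : M) : Prop :=
  ∀ t, E t S' ↔ E t S ∧ ∃ q p, IsOPair E t q p ∧ ∃ κ' l', IsOPair E q κ' l' ∧
    (E κ' κ ∨ (κ' = κ ∧ E l' l))

/-- `L[S]`: the least definable transitive class model of ZF with all ordinals that is closed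
under `a ↦ a ∩ S`. -/
def LA (S : M) : Set M :=
  {x | ∀ W : Set M, Definable E (fun y _ => y ∈ W) → (∀ y ∈ W, ∀ z, E z y → z ∈ W) →
    (∀ α, IsOrd E α → α ∈ W) → IsZF (Res E W) →
    (∀ a ∈ W, ∀ b, (∀ s, E s b ↔ E s a ∧ E s S) → b ∈ W) → x ∈ W}

end Pool.Agent.Lib.MP_75a307_lc.LE
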