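import Pool.Agent.Lib.MP_75a307_lc.LE.Greedy
import Pool.Agent.Lib.MP_75a307_lc.Refl

/-! A bad witness gives a long coherent sequence. -/

set_option synthInstance.maxSize 100000
set_option linter.unusedVariables false
set_option linter.unusedSectionVars false

namespace Pool.Agent.Lib.MP_75a307_lc.LE

open Pool.Agent.Lib.MP_1d770b_lc

universe u
variable {M : Type u} {E : M → M → Prop} [hZ : ZF E]

section
variable {j : M → M} {W : Set M} {κ ν S A B F l u v p : M}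

theorem dirA_at (t : Tr E W) (hS : S ∈ W) (h : At E S u v p) : u ∈ W ∧ v ∈ W ∧ p ∈ W :=
  let ⟨_, h1, h2⟩ := h
  ⟨(t.opair (t.app hS h2).1 h1).1, (t.opair (t.app hS h2).1 h1).2, (t.app hS h2).2⟩

theorem dirA_card (h : El E j W) (hi : Inacc E W ν) (hV : VSub E W ν) : IsCard E ν := by
  refine ⟨hi.1, fun α hα ⟨e, e1, e2, _⟩ => ?_⟩
  obtain ⟨p, hp⟩ := ex_pow E α
  obtain ⟨β, hβ, f, -, f1, f2⟩ := hi.2.2.2 α hα p (hV.mem (Lim.pow (h.inacc_lim hi)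
    (hi.1.rk hα) fun x => (hp x).1)) fun x _ => hp x
  obtain ⟨g, g1, g2⟩ := comp_oneOne p α f2 e2
  refine cantor g1 (a := α) fun s hs => ?_
  obtain ⟨y, k1, k2⟩ := f1.tot ((hp s).2 hs)
  obtain ⟨z, k3, k4⟩ := e1.tot (hi.1.tr hβ k1)
  exact ⟨z, k3, (g2 _ _).2 ⟨(hp s).2 hs, k3, y, k2, k4⟩⟩

theorem dirA_der (h : El E j W) (κ l : M) : ∃ F, ∀ p, E p F ↔ ∃ a X, IsOPair E p a X ∧
    E a (tup E l) ∧ Sub E X (tup E κ) ∧ E a (j X) := by
  have := h.fj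
  obtain ⟨q, hq⟩ := ex_pow E (tup E κ)
  obtain ⟨F, hF, -⟩ := ex_rel E (tup E l) q fun a X => E a (j X)
  exact ⟨F, fun p => (hF p).trans ⟨fun ⟨a, X, h1, h2, h3, h4⟩ => ⟨a, X, h3, h1, (hq X).1 h2, h4⟩,
    fun ⟨a, X, h3, h1, h2, h4⟩ => ⟨a, X, h1, (hq X).2 h2, h3, h4⟩⟩⟩

/-- the data: an embedding, a greedy sequence `S` and the cut `B` of its image -/
structure DirA (E : M → M → Prop) (j : M → M) (W : Set M) (κ ν S B : M) : Prop where
  ac : Choice E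
  emb : ElEmb E j W κ
  star : Star E W κ ν
  vs : VSub E W ν
  coh : Coh1 E Set.univ S
  rk : ∀ t, E t S → Rk E t κ
  cap : ∀ u v, Dom E S u v → ∀ s, E u s → Inacc E Set.univ s → E v s
  gr : ∀ u b, E u b → E b κ → (∀ s, E u s → Le E s b → ¬ Inacc E Set.univ s) →
    (∀ v, E u v → E v b → Dom E S u v) → ∀ F, Ext1 E Set.univ u b F →
      CohAt E Set.univ S u b F → Dom E S u b
  cut : Cut E (j S) κ ν B

namespace DirA

variable (h : DirA E j W κ ν S B)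
include h

theorem lim : Lim E ν := h.emb.el.inacc_lim h.star.2.1

theorem lt : E ν (j κ) := by
  obtain ⟨s, s1, s2⟩ := h.emb.starW h.ac
  exact s2.uniq h.star ▸ s1

theorem inn : Inn E W := h.emb.el.inn h.ac

theorem cohW : Coh1 E W (j S) := (h.emb.el.tr1 (fun W S => Coh1 E W S) S).1 h.coh

theorem memW (k : At E (j S) u v p) : u ∈ W ∧ v ∈ W ∧ p ∈ W :=
  dirA_at h.emb.trans (h.emb.maps S) k

theorem shape (k : At E (j S) u v p) : Lim E u ∧ IsOrd E v ∧ E u v ∧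
    ∃ a X, IsOPair E p a X ∧ E a (tup E v) ∧ Sub E X (tup E u) := by
  obtain ⟨h1, h2, h3, a, X, h4, ⟨t, -, h5, h6⟩, t', -, h7, h8⟩ :=
    (h.emb.el.tr1 (fun W S => Shape E W S) S).1 (h.coh.shape h.ac) u (h.memW k).1 v (h.memW k).2.1
      p (h.memW k).2.2 k
  exact ⟨h1, h2, h3, a, X, h4, h5.eq ▸ h6, h7.eq ▸ h8⟩

theorem capW {s : M} (k : At E (j S) u v p) (hs : E u s) (hi : Inacc E W s) : E v s :=
  (h.emb.el.tr1 (fun W S => ∀ u ∈ W, ∀ v ∈ W, Dom E S u v → ∀ s ∈ W, E u s → Inacc E W s → E v s)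
    S).1 (fun u _ v _ k s _ => h.cap u v k s) u (h.memW k).1 v (h.memW k).2.1 ⟨p, k⟩ s
    (h.emb.el.ord_mem hi.1) hs hi

theorem nov (hu : E u κ) (k : At E (j S) u v p) : E v κ :=
  h.capW k hu (h.emb.el.inacc_down h.ac (h.emb.ia.inacc h.ac))

theorem low (hu : E u κ) : At E (j S) u v p ↔ At E S u v p := by
  refine ⟨fun k => ?_, fun k => ?_⟩
  · obtain ⟨h1, -, -, a, X, h4, h5, h6⟩ := h.shape k
    have hl := h.emb.ia.lim
    have hv := h.nov hu k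
    have r : Rk E (pr E (pr E u v) p) κ := hl.opair (hl.opair (hl.1.rk hu) (hl.1.rk hv) (pr_spec u v))
      (hl.opair (tup_rk hl (fun z => hl.1.tr hv) h5)
        (Rk.intro hl.1 hu fun z hz => tup_rk h1 (fun _ m => m) (h6 z hz)) h4) (pr_spec _ p)
    rw [at_iff] at k ⊢
    rwa [← h.emb.fixV r, h.emb.el.mem_iff] at k
  · rw [at_iff] at k ⊢
    rw [← h.emb.fixV (h.rk _ k), h.emb.el.mem_iff]
    exact k

theorem bd (hu : Le E u κ) (k : At E (j S) u v p) : E v ν :=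
  hu.elim (fun m => h.lim.1.tr h.star.1 (h.nov m k)) fun m => h.capW k (m ▸ h.star.1) h.star.2.1

theorem atB : At E B u v p ↔ At E (j S) u v p ∧ Le E u κ :=
  (h.cut.at u v p).trans (and_congr_right fun k => or_congr_right
    ⟨fun m => m.1, fun m => ⟨m, h.bd (Or.inr m) k⟩⟩)

theorem atjB (hu : Le E u κ) : At E (j B) u v p ↔ At E (j S) u v p := by
  have e := h.emb.el
  have hu' := hu.lt (e.ord h.emb.ord) h.emb.lt
  have c := ((e.tr4 (fun _ A κ ν B => Cut E A κ ν B) (j S) κ ν B).1 h.cut).at u v p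
  have k := (e.tr3 (fun W κ A S => ∀ u, E u κ → ∀ v ∈ W, ∀ p ∈ W, (At E A u v p ↔ At E S u v p))
    κ (j S) S).1 (fun u m v _ p _ => h.low m) u hu'
  refine c.trans ⟨fun m => ?_, fun m => ?_⟩
  · have w := dirA_at e.trans (e.maps _) m.1
    exact (k v w.2.1 p w.2.2).1 m.1
  · exact ⟨(k v (h.memW m).2.1 p (h.memW m).2.2).2 m, Or.inl hu'⟩

/-- the derived extender coheres when the image sequence stops at its length -/
theorem der (h1 : E κ l) (h2 : Le E l ν) (hF : ∀ p, E p F ↔ ∃ a X, IsOPair E p a X ∧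
    E a (tup E l) ∧ Sub E X (tup E κ) ∧ E a (j X)) (k : ∀ v p, At E (j S) κ v p → E v l) :
    Ext1 E Set.univ κ l F ∧ CohAt E Set.univ B κ l F := by
  have ho := h2.ord h.lim.1
  have jo := h.emb.el.ord h.emb.ord
  have hl : Sub E l (j κ) := fun z => jo.tr (h2.lt jo h.lt)
  refine ⟨ext1_der h.ac h.emb ho h1 hl hF, cohAt_der h.ac h.emb ho h1 hl hF
    (fun u v m ⟨p, n⟩ => h.nov m (h.atB.1 n).1) fun u v p m => (h.atjB m).trans
      ⟨fun n => ⟨h.atB.2 ⟨n, m⟩, ?_⟩, fun n => (h.atB.1 n.1).1⟩⟩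
  rcases m with m | rfl
  · exact ho.tr h1 (h.nov m n)
  · exact k v p n

theorem full (h1 : E κ v) (h2 : E v ν) : Dom E (j S) κ v := by
  have e := h.emb.el
  refine ord_ind (fun v => E κ v → E v ν → Dom E (j S) κ v) (fun b ho ih h1 h2 => ?_) v
    (h.lim.1.mem h2) h1 h2
  by_contra hn
  obtain ⟨F, hF⟩ := dirA_der e κ b
  obtain ⟨k1, k2⟩ := h.der h1 (Or.inl h2) hF fun v p m => by
    rcases (h.shape m).2.1.tri ho with n | rfl | n
    · exact n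
    · exact (hn ⟨p, m⟩).elim
    · exact (hn (h.cohW.2.1 κ (h.memW m).1 v (h.memW m).2.1 ⟨p, m⟩ b n h1)).elim
  obtain ⟨ξ, x1, x2, x3⟩ := e.lim_below h.ac h.star.2.1 h2
  obtain ⟨β, b1, b2⟩ := h.lim.2 ξ x1
  have bo := h.lim.1.mem b1
  have hFW : F ∈ W := h.vs.mem (h.lim.rel b1 fun p hp =>
    let ⟨a, X, p1, p2, p3, _⟩ := (hF p).1 hp
    ⟨a, X, p1, (tup_rk x3 (fun z => x3.1.tr x2) p2).lt bo b2, Rk.intro bo b2 fun z hz =>
      tup_rk x3 (fun z => x3.1.tr (x3.1.tr x2 h1)) (p3 z hz)⟩)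
  have hd : ∀ p, E p F ↔ E p F ∧ p ∈ W := fun p => ⟨fun m => ⟨m, e.trans F hFW p m⟩, fun m => m.1⟩
  refine hn ((e.tr2 (fun W κ S => ∀ b, E b κ → ∀ u, E u b →
    (∀ s ∈ W, E u s → Le E s b → ¬ Inacc E W s) → (∀ v, E v b → E u v → Dom E S u v) →
      ∀ F ∈ W, Ext1 E W u b F → CohAt E W S u b F → Dom E S u b) κ S).1
    (fun b m u n o q F _ => h.gr u b n m (fun s => o s trivial) (fun v x y => q v y x) F) b
    ((e.ord h.emb.ord).tr h.lt h2) κ h1 (fun s _ m n => h.star.2.2 s (n.lt h.lim.1 h2) m)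
    (fun v m n => ih v m n (h.lim.1.tr h2 m)) F hFW (k1.down h.ac h.inn hFW hd) ?_)
  exact CohAt.down h.ac h.inn hFW hd (e.maps S) k1 (fun u v p m => (h.shape (h.atB.1 m).1).1.1)
    (fun u v p m => (h.shape m).1.1)
    (fun u v p m _ => ⟨fun n => h.atB.2 ⟨n, m.imp_right And.left⟩, fun n => (h.atB.1 n).1⟩) k2

theorem long : ∃ T, Long E T κ ν := by
  have e := h.emb.el
  obtain ⟨F, hF⟩ := dirA_der e κ ν
  obtain ⟨k1, k2⟩ := h.der h.star.1 (Or.inr rfl) hF fun v p => h.bd (Or.inr rfl)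
  obtain ⟨s, hs⟩ := ex_upair E (pr E κ ν) (pr E κ ν)
  obtain ⟨D, hD, -⟩ := ex_rel E s F fun _ _ => True
  obtain ⟨T, hT⟩ := ex_union E B D
  have aT : ∀ u v p, At E T u v p ↔ (At E (j S) u v p ∧ Le E u κ) ∨ (u = κ ∧ v = ν ∧ E p F) := by
    intro u v p
    rw [← h.atB, at_iff, at_iff, hT, hD]
    refine or_congr_right ⟨fun ⟨x, y, m, n, o, _⟩ => ?_, fun ⟨m, n, o⟩ =>
      ⟨_, p, (hs _).2 (Or.inl (by rw [m, n])), o, pr_spec _ p, trivial⟩⟩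
    obtain ⟨rfl, rfl⟩ := (pr_spec _ p).inj o
    have := pr_inj (((hs _).1 m).elim id id)
    exact ⟨this.1, this.2, n⟩
  have a1 : ∀ {u v}, Le E u κ → E v ν → ∀ p, At E T u v p ↔ At E (j S) u v p := fun m n p =>
    (aT _ _ p).trans ⟨fun o => o.elim And.left fun o => (no1 (o.2.1 ▸ n)).elim, fun o => .inl ⟨o, m⟩⟩
  have a2 : ∀ {u v}, E u κ → ∀ p, At E T u v p ↔ At E (j S) u v p := fun m p =>
    (aT _ _ p).trans ⟨fun o => o.elim And.left fun o => (no1 (o.1 ▸ m)).elim,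
      fun o => .inl ⟨o, .inl m⟩⟩
  have oT : ∀ u v p, At E T u v p → IsOrd E u := fun u v p m =>
    ((aT u v p).1 m).elim (fun n => (h.shape n.1).1.1) fun n => n.1 ▸ h.emb.ord
  have c := h.cohW
  have dI := (el_id (E := E)).dInacc
  have dS : D2 E (Star E Set.univ) := fun _ _ _ _ => by unfold Star; infer_instance
  obtain ⟨X, hX⟩ := sep E κ fun α => ∃ n ∈ (Set.univ : Set M), Star E Set.univ α n ∧ IsO E S α n
  refine ⟨T, (coh_iff h.ac).2 ⟨fun t m => ?_, fun u _ v _ ⟨p, m⟩ v' n o => ?_,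
    fun u _ v _ u' _ v' _ ⟨p, m⟩ ⟨p', m'⟩ n => ?_, fun u _ v _ ⟨p, m⟩ => ?_⟩,
    dirA_card e h.star.2.1 h.vs, X, _, pr_spec κ X, ?_, fun α m => ?_⟩
  · rcases (hT t).1 m with m | m
    · exact c.1 t ((h.cut t).1 m).1
    · obtain ⟨x, y, m1, -, m2, -⟩ := (hD t).1 m
      exact ⟨x, y, m2, κ, ν, pr_eq.2 (((hs x).1 m1).elim id id), rfl⟩
  · rcases (aT u v p).1 m with m | ⟨rfl, rfl, -⟩
    · obtain ⟨q, k⟩ := c.2.1 u (h.memW m.1).1 v (h.memW m.1).2.1 ⟨p, m.1⟩ v' n o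
      exact ⟨q, (aT _ _ _).2 (.inl ⟨k, m.2⟩)⟩
    · obtain ⟨q, k⟩ := h.full o n
      exact ⟨q, (aT _ _ _).2 (.inl ⟨k, .inr rfl⟩)⟩
  · rcases (aT u' v' p').1 m' with m' | ⟨rfl, rfl, -⟩
    · have k := (a2 (m'.2.sub h.emb.ord u n) p).1 m
      exact c.2.2.1 u (h.memW k).1 v (h.memW k).2.1 u' (h.memW m'.1).1 v' (h.memW m'.1).2.1
        ⟨p, k⟩ ⟨p', m'.1⟩ n
    · exact h.nov n ((a2 n p).1 m)
  · rcases (aT u v p).1 m with ⟨m, n⟩ | ⟨rfl, rfl, -⟩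
    · obtain ⟨G, -, g1, g2, g3⟩ := c.2.2.2 u (h.memW m).1 v (h.memW m).2.1 ⟨p, m⟩
      have hv := h.bd n m
      obtain ⟨ξ, x1, x2, x3⟩ := e.lim_below h.ac h.star.2.1 hv
      have g4 := g2.up h.inn x3 x2 h.lim x1 h.vs
      refine ⟨G, trivial, fun q => (g1 q).trans (a1 n hv q).symm, g4, CohAt.congr h.ac g4
        (fun u v p m => (h.shape m).1.1) oT (fun u' v' q o => ?_)
        (g3.up h.inn (e.maps S) (h.shape m).1.1 (h.shape m).2.2.1 h.lim hv (h.shape m).1 h.vs)⟩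
      rcases o with o | ⟨rfl, o⟩
      · exact a2 (n.sub h.emb.ord u' o) q
      · exact a1 n (h.lim.1.tr hv o) q
    · refine ⟨F, trivial, fun q => ⟨fun o => (aT _ _ _).2 (.inr ⟨rfl, rfl, o⟩), fun o =>
        ((aT _ _ _).1 o).elim (fun o => (no1 (h.bd o.2 o.1)).elim) fun o => o.2.2⟩, k1,
        CohAt.congr h.ac k1 (fun u v p m => (h.shape (h.atB.1 m).1).1.1) oT
          (fun u' v' q o => ?_) k2⟩
      have o' : Le E u' u := o.imp_right And.left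
      refine Iff.trans ?_ ⟨fun n => h.atB.2 ⟨n, o'⟩, fun n => (h.atB.1 n).1⟩
      exact o.elim (a2 · q) fun o => a1 o' o.2 q
  · refine (aT _ _ _).2 (.inr ⟨rfl, rfl, (hF _).2 ⟨κ, X, pr_spec κ X, sub_tup h.star.1,
      fun z m => sub_tup ((hX z).1 m).1, ?_⟩⟩)
    exact (e.tr3 (fun W κ S X => ∀ α, E α κ → (∃ n ∈ W, Star E W α n ∧ IsO E S α n) → E α X)
      κ S X).1 (fun α m n => (hX α).2 ⟨m, n⟩) κ h.emb.lt ⟨ν, e.ord_mem h.lim.1, h.star,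
        fun l => ⟨fun ⟨p, m⟩ => ⟨(h.shape m).2.2.1, h.bd (.inr rfl) m⟩, fun m => h.full m.1 m.2⟩⟩
  · obtain ⟨m1, n, -, m2, m3⟩ := (hX α).1 m
    exact ⟨n, m2, fun l => (exists_congr fun p => (a2 m1 p).trans (h.low m1)).trans (m3 l)⟩

end DirA
end

theorem dirA (hC : Choice E) {κ : M} (h : StarStrong E κ) : ∃ S ν, Long E S κ ν := by
  obtain ⟨j, W, h, ν, h1, h2⟩ := h
  obtain ⟨S, g1, g2, g3, g4⟩ := greedy hC (h.ia.inacc hC)
  obtain ⟨B, hB⟩ := ex_cut (E := E) (j S) κ ν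
  obtain ⟨T, hT⟩ := DirA.long ⟨hC, h, h1, h2, g1, g2, g3, g4, hB⟩
  exact ⟨T, ν, hT⟩

end Pool.Agent.Lib.MP_75a307_lc.LE
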