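import Pool.Agent.Lib.MP_75a307_lc.LE.Str
import Pool.Agent.Lib.MP_75a307_lc.Main

/-! A long coherent sequence gives a bad witness in an inner model. -/

set_option synthInstance.maxSize 100000
set_option linter.unusedVariables false
set_option linter.unusedSectionVars false

namespace Pool.Agent.Lib.MP_75a307_lc.LE

open Pool.Agent.Lib.MP_1d770b_lc

universe u
variable {M : Type u} {E : M → M → Prop} [hZ : ZF E]

/-- an infinite cardinal is not a successor -/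
theorem dirB_suc {κ μ w : M} (hμ : IsCard E μ) (hκ : E κ μ) (hw : IsOmega E w) (lt : E w κ) :
    ∃ l, E κ l ∧ E l μ := by
  by_contra hn
  have ho := hμ.1.mem hκ
  have le (x) (hx : E x μ) : Le E x κ := (hμ.1.mem hx).le_of_not ho fun k => hn ⟨x, k, hx⟩
  have nw : ¬ E κ w := fun k => no2 k lt
  obtain ⟨f, f1, f2⟩ := ex_func μ κ (fun x y => (x = κ ∧ IsEmp E y) ∨ (E x w ∧ IsSuc E y x) ∨
    (¬ E x w ∧ y = x)) (fun x hx => by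
      rcases le x hx with k | rfl
      · by_cases k' : E x w
        · obtain ⟨s, hs⟩ := ex_suc E x
          exact ⟨s, ho.tr lt (hw.suc hs k'), .inr (.inl ⟨k', hs⟩)⟩
        · exact ⟨x, k, .inr (.inr ⟨k', rfl⟩)⟩
      · exact ⟨_, ho.tr lt (hw.emp emp_spec), .inl ⟨rfl, emp_spec⟩⟩) (by
      rintro x y y' - k k' (⟨a, b⟩ | ⟨a, b⟩ | ⟨a, b⟩) (⟨c, d⟩ | ⟨c, d⟩ | ⟨c, d⟩)
      exacts [b.uniq d, (nw (a ▸ c)).elim, (no1 ((d.trans a) ▸ k')).elim, (nw (c ▸ a)).elim,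
        b.uniq d, (c a).elim, (no1 ((b.trans c) ▸ k)).elim, (a c).elim, b.trans d.symm])
  refine hμ.2 κ hκ ⟨f, f1, fun x x' y k k' => ?_, fun y hy => ?_⟩
  · obtain ⟨-, -, ⟨a, b⟩ | ⟨a, b⟩ | ⟨a, b⟩⟩ := (f2 _ _).1 k <;>
      obtain ⟨-, -, ⟨c, d⟩ | ⟨c, d⟩ | ⟨c, d⟩⟩ := (f2 _ _).1 k'
    exacts [a.trans c.symm, (b _ d.self).elim, (c (d ▸ hw.emp b)).elim, (d _ b.self).elim,
      b.inj d, (c (d ▸ hw.suc b a)).elim, (a (b ▸ hw.emp d)).elim, (a (b ▸ hw.suc d c)).elim,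
      b.symm.trans d]
  · by_cases k : E y w
    · rcases hw.cases k with e | ⟨m, m1, m2⟩
      · exact ⟨κ, (f2 _ _).2 ⟨hκ, hy, .inl ⟨rfl, e⟩⟩⟩
      · exact ⟨m, (f2 _ _).2 ⟨hμ.1.tr hκ (ho.tr lt m1), hy, .inr (.inl ⟨m1, m2⟩)⟩⟩
    · exact ⟨y, (f2 _ _).2 ⟨hμ.1.tr hκ hy, hy, .inr (.inr ⟨k, rfl⟩)⟩⟩

theorem dirB_top (hC : Choice E) {S κ μ : M} (h : LongI E S κ μ) (hV : ∀ x, x ∈ LK E S)
    (top : ∀ κ' l', Dom E S κ' l' → E κ' κ ∨ (κ' = κ ∧ Le E l' μ)) : ∃ m, Bad E κ m := by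
  obtain ⟨hS, hμ, X, p, hp, ha, hX⟩ := h
  obtain ⟨F, j, W, hF, e, c⟩ := hS.ext κ μ ⟨p, ha⟩
  obtain ⟨a, X', k1, -, -, k2⟩ := (e.mem p).1 ((hF p).2 ha)
  obtain ⟨rfl, rfl⟩ := hp.inj k1
  obtain ⟨ν, -, n1, n2⟩ := (e.emb.el.tr2 (fun W S X => ∀ α, E α X → ∃ ν ∈ W, Inacc E W ν ∧
    IsO E S α ν) S X).1 (fun α hα => let ⟨ν, k⟩ := hX α hα; ⟨ν, trivial, k⟩) κ k2
  have key (l) (hl : E κ l) : E l ν ↔ E l μ := by
    refine ⟨fun k => ?_, fun k => ?_⟩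
    · obtain ⟨q, hq⟩ := (n2 l).2 ⟨hl, k⟩
      exact ((c κ l q (.inr rfl)).1 hq).2.resolve_left no1
    · obtain ⟨q, hq⟩ := hS.down κ μ l ⟨p, ha⟩ hl k
      exact ((n2 l).1 ⟨q, (c κ l q (.inr rfl)).2 ⟨hq, .inr k⟩⟩).2
  obtain ⟨w, w1, w2⟩ := (e.emb.ia.inacc hC).2.1
  obtain ⟨l, l1, l2⟩ := dirB_suc hμ e.len.2.1 w1 w2
  obtain rfl : ν = μ := by
    rcases n1.1.tri hμ.1 with k | k | k
    exacts [(no1 ((key ν (n1.1.tr ((key l l1).2 l2) l1)).2 k)).elim, k,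
      (no1 ((key μ e.len.2.1).1 k)).elim]
  obtain ⟨s, s1, s2⟩ := e.emb.el.ex_star n1 e.len.2.1
  exact super_bad hC (star_super ⟨j, W, e.emb, s, s2,
    (strong hC ((coh_iff hC).1 hS) hV top ⟨p, ha⟩ hμ hF e n1).le n1.1 s1⟩)

theorem dirB_inacc (hC : Choice E) {W : Set M} {ν : M} (hW : Inn E W) (h : Inacc E Set.univ ν) :
    Inacc E W ν := by
  have := hW.zf
  have u : UR.{u} fun _ E W v => IA E W (v 0) := by unfold IA; infer_instance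
  lift ν to W using hW.ord h.1
  exact (bridge_r4 hW (fun _ E W a _ _ _ => Inacc E W a) ν ν ν ν).2
    (((bridge_r4 hW (fun _ E W a _ _ _ => IA E W a) ν ν ν ν).1 ((h.ia hC).down W)).inacc hW.ac)

theorem dirB (hC : Choice E) {S κ μ s S' : M} (h : LongI E S κ μ) (hs : IsSuc E s μ)
    (hc : Cut E S κ s S') :
    ∃ κ' m : LK E S', κ'.1 = κ ∧ Bad (Res E (LK E S')) κ' m := by
  obtain ⟨hS, hμ, X, p, hp, ha, hX⟩ := h
  obtain ⟨F, j, W, hF, e, -⟩ := hS.ext κ μ ⟨p, ha⟩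
  obtain ⟨a, X', k1, -, -, k2⟩ := (e.mem p).1 ((hF p).2 ha)
  obtain ⟨rfl, rfl⟩ := hp.inj k1
  have hN := lk_inn (E := E) S'
  have := hN.zf
  obtain ⟨B, wB, hB⟩ := lk_cap (E := E) S'
  have c1 := ((coh_iff hC).1 hS).cut hC e.emb.ord (hs.ord hμ.1) hc
  have c2 := c1.down hC hN wB hB
  have wκ := hN.ord e.emb.ord
  have wμ := hN.ord hμ.1
  have dm {α l} (hα : E α κ) : Dom E B α l ↔ Dom E S α l := by
    refine ⟨fun ⟨q, hq⟩ => ⟨q, ((hc.at _ _ _).1 ((down_at hN hB).1 hq).1).1⟩, fun ⟨q, hq⟩ => ?_⟩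
    have d := (hc.at _ _ _).2 ⟨hq, .inl hα⟩
    have wα := hN.tr _ wκ _ hα
    exact ⟨_, (down_at hN hB).2 ⟨c1.top hC ⟨q, d⟩, wα,
      hN.ord (c1.shape hC _ trivial _ trivial _ trivial d).2.1, hN.pr.2 ⟨wα, hN.tup wα⟩⟩⟩
  obtain ⟨Y, wY, hY⟩ := hN.sep wκ (fun W v => ∃ ν ∈ W, Inacc E W ν ∧ IsO E (v 1) (v 0) ν)
    (fun _ => B) fun _ => wB
  have hj : E κ (j Y) := (e.emb.el.tr3 (fun _ X κ Y => ∀ α, E α X → E α κ → E α Y) X κ Y).1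
    (fun α h1 h2 => let ⟨ν, n1, n2⟩ := hX α h1
      (hY α).2 ⟨h2, ν, hN.ord n1.1, dirB_inacc hC hN n1, fun l => (dm h2).trans (n2 l)⟩)
    κ k2 e.emb.lt
  have aB : At E B κ μ (pr E κ Y) := (down_at hN hB).2 ⟨(hc.at _ _ _).2 ⟨(hF _).1 ((e.mem _).2
    ⟨κ, Y, pr_spec _ _, tup_iff.2 (sub_tup e.len.2.1),
      fun t ht => tup_iff.2 (sub_tup ((hY t).1 ht).1), hj⟩), .inr ⟨rfl, hs.self⟩⟩,
    wκ, wμ, hN.pr.2 ⟨wκ, wY⟩⟩
  have eq : LK E B = LK E S' := lk_congr fun t _ k => (hB t).trans (and_iff_left k)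
  let B' : LK E S' := ⟨B, wB⟩
  let κ' : LK E S' := ⟨κ, wκ⟩
  let μ' : LK E S' := ⟨μ, wμ⟩
  let Y' : LK E S' := ⟨Y, wY⟩
  let p' : LK E S' := ⟨_, hN.pr.2 ⟨wκ, wY⟩⟩
  obtain ⟨m, hm⟩ := dirB_top (E := Res E (LK E S')) hN.ac (S := B') (κ := κ') (μ := μ')
    ⟨(coh_iff hN.ac).2 ((bridge_r4 hN (fun _ E W a _ _ _ => Coh1 E W a) B' B' B' B').1 c2),
      ⟨(bridge_r4 hN (fun _ E _ a _ _ _ => IsOrd E a) μ' μ' μ' μ').1 hμ.1, fun α hα ⟨f, hf⟩ =>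
        hμ.2 α.1 hα ⟨f.1, (bridge_r4 hN (fun _ E _ f a b _ => Func E f a b ∧ OneOne E f ∧
          ∀ y, E y b → ∃ x, App E f x y) f μ' α α).2 hf⟩⟩, Y', p',
      (bridge_r4 hN (fun _ E _ p a b _ => IsOPair E p a b) p' κ' Y' Y').1 (pr_spec _ _),
      (bridge_r4 hN (fun _ E _ S a b c => At E S a b c) B' κ' μ' p').1 aB, fun α hα =>
        let ⟨ν, _, k⟩ := (bridge_r4 hN (fun _ E W S α _ _ => ∃ ν ∈ W, Inacc E W ν ∧ IsO E S α ν)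
          B' α α α).1 ((hY α.1).1 hα).2
        ⟨ν, k⟩⟩
    (fun x => (hN.lk_res B' x).2 (eq.symm.subset x.2)) fun u v d => by
      obtain ⟨q, hq⟩ := (bridge_r4 hN (fun _ E _ S a b _ => Dom E S a b) B' u v v).2 d
      exact ((hc.at _ _ _).1 ((down_at hN hB).1 hq).1).2.imp_right fun k =>
        ⟨Subtype.ext k.1, ((hs _).1 k.2).imp_right Subtype.ext⟩
  exact ⟨κ', m, rfl, hm⟩

end Pool.Agent.Lib.MP_75a307_lc.LE
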