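import Pool.Agent.Lib.MP_75a307_lc.LE.MoY

/-! Hulls inside the iterates of the universe. -/

set_option synthInstance.maxSize 100000
set_option linter.unusedVariables false
set_option linter.unusedSectionVars false

namespace Pool.Agent.Lib.MP_75a307_lc.LE

open Pool.Agent.Lib.MP_1d770b_lc

universe u
variable {M : Type u} {E : M → M → Prop} [hZ : ZF E]

section MoH
variable {K θ S Y G G' Z Z' T a f x y : M}

theorem mem_hG (K Y G Z y : M) : E y (hG E K Y G Z) ↔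
    ∃ f a, E f Y ∧ E a Z ∧ y = ap E (jG E K G f) (sdG E K G a) := by
  obtain ⟨r, r1, -⟩ := ex_rel E Y Z fun _ _ => True
  obtain ⟨H, hH⟩ := repl E r (fun p y => y = ap E (jG E K G (p1 E p)) (sdG E K G (p2 E p)))
    fun _ _ _ _ a b => a.trans b.symm
  have k : ∀ y, E y H ↔ ∃ f a, E f Y ∧ E a Z ∧ y = ap E (jG E K G f) (sdG E K G a) := fun y => by
    refine (hH y).trans ⟨fun ⟨p, a, b⟩ => ?_, fun ⟨f, a, h1, h2, e⟩ =>
      ⟨pr E f a, (r1 _).2 ⟨f, a, h1, h2, pr_spec f a, trivial⟩, by rw [p1_pr, p2_pr, e]⟩⟩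
    obtain ⟨f, c, h1, h2, h3, -⟩ := (r1 p).1 a
    exact ⟨f, c, h1, h2, by rw [b, pr_eq.1 h3, p1_pr, p2_pr]⟩
  rw [hG, the_eq k fun y' h => ext' E fun z => (h z).trans (k z).symm]
  exact k y

theorem moh_sd (k : KG E K θ S) (o : OkG E K Y G Z) (ha : E a Z) :
    E (sdG E K G a) (jG E K G K) := (o.1.canon k.ac).1.mem a (o.2.1 a ha)

theorem hG_one (k : KG E K θ S) (s : SkY E K Y) (o : OkG E K Y G Z) (v : ℕ → M)
    (hv : ∀ i, E (v i) (hG E K Y G Z)) (n : ℕ) : ∃ p, ∃ F : ℕ → M, E p Z ∧ (∀ i, E (F i) Y) ∧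
      ∀ i < n, v i = ap E (jG E K G (F i)) (sdG E K G p) := by
  induction n with
  | zero =>
    obtain ⟨f, a, h1, h2, -⟩ := (mem_hG ..).1 (hv 0)
    exact ⟨a, fun _ => f, h2, fun _ => h1, fun i hi => (Nat.not_lt_zero i hi).elim⟩
  | succ n ih =>
    obtain ⟨a, F, ha, hF, e⟩ := ih
    obtain ⟨f, b, hf, hb, e'⟩ := (mem_hG ..).1 (hv n)
    obtain ⟨p, c, d, hp, hc, hd, t1, t2⟩ := o.2.2.1 a b ha hb
    choose F' a1 a2 using fun i => s.compj (hF i) hc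
    obtain ⟨f', b1, b2⟩ := s.compj hf hd
    have m := moh_sd k o hp
    refine ⟨p, fun i => if i = n then f' else F' i, hp, fun i => ?_, fun i hi => ?_⟩ <;>
      beta_reduce
    · split_ifs
      exacts [b1, a1 i]
    · split_ifs with q
      · rw [q, e', b2 (o.1.el k.ac) _ m, t2]
      · rw [e i (by omega), a2 i (o.1.el k.ac) _ m, t1]

theorem hG_sd (k : KG E K θ S) (s : SkY E K Y) (o : OkG E K Y G Z) (ha : E a Z) :
    E (sdG E K G a) (hG E K Y G Z) :=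
  let ⟨f, h1, h2⟩ := s.idj
  (mem_hG ..).2 ⟨f, a, h1, ha, (h2 (o.1.el k.ac) _ (moh_sd k o ha)).symm⟩

theorem hG_hl (k : KG E K θ S) (s : SkY E K Y) (o : OkG E K Y G Z) :
    Hl E (hG E K Y G Z) (jG E K G K) := by
  have el := o.1.el k.ac
  have n := el_en el (good_V k.lim k.mem).2 (good_V k.lim k.mem).1
  refine ⟨fun y hy => ?_, n.tr', n.good', ?_, fun φ v hv z hz h => ?_⟩
  · obtain ⟨f, a, h1, h2, rfl⟩ := (mem_hG ..).1 hy
    exact s.ap_mem el h1 (moh_sd k o h2)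
  · obtain ⟨a, ha⟩ := o.2.2.2
    exact ⟨_, hG_sd k s o ha⟩
  · obtain ⟨m, hm⟩ := fac_fin (E := E) φ
    obtain ⟨p, F, hp, hF, e⟩ := hG_one k s o v hv m
    obtain ⟨g, g1, g2⟩ := s.skj k.ac k.lim k.mem φ F hF
    have q (w : M) : SatW E (cl E (jG E K G K)) φ (scons w v) ↔ SatW E (cl E (jG E K G K)) φ
        (scons w fun i => ap E (jG E K G (F i)) (sdG E K G p)) :=
      hm _ _ _ fun i hi => by cases i; exacts [rfl, e _ (by omega)]
    exact ⟨_, (mem_hG ..).2 ⟨g, p, g1, hp, rfl⟩,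
      (q _).2 (g2 el _ z (moh_sd k o hp) hz ((q z).1 h))⟩

theorem hG_ap (k : KG E K θ S) (s : SkY E K Y) (o : OkG E K Y G Z) (hf : E f Y)
    (hy : E y (hG E K Y G Z)) : E (ap E (jG E K G f) y) (hG E K Y G Z) := by
  obtain ⟨g, a, h1, h2, rfl⟩ := (mem_hG ..).1 hy
  obtain ⟨c, c1, c2⟩ := s.compj hf h1
  exact (mem_hG ..).2 ⟨c, a, c1, h2, (c2 (o.1.el k.ac) _ (moh_sd k o h2)).symm⟩

theorem hG_const (k : KG E K θ S) (s : SkY E K Y) (o : OkG E K Y G Z) (hf : E f Y)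
    (c : ∀ t, E t K → ap E f t = x) : E (jG E K G x) (hG E K Y G Z) :=
  let ⟨a, ha⟩ := o.2.2.2
  (mem_hG ..).2 ⟨f, a, hf, ha, (fac_const (o.1.el k.ac) (s.tot hf) c (moh_sd k o ha)).symm⟩

theorem hG_fac (k : KG E K θ S) (s : SkY E K Y) (o : OkG E K Y G Z) (g : Sys E K G')
    (s1 : Sub E G G') (s2 : Sub E Z Z') (hy : E y (hG E K Y G Z)) :
    E (fac E K G G' y) (hG E K Y G' Z') := by
  obtain ⟨f, a, h1, h2, rfl⟩ := (mem_hG ..).1 hy
  exact (mem_hG ..).2 ⟨f, a, h1, s2 a h2, o.1.fac_val k.ac g s1 (o.2.1 a h2) (s.tot h1)⟩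

theorem hG_en (k : KG E K θ S) (g : Sys E K G) (g' : Sys E K G') (s1 : Sub E G G') :
    EN E (jG E K G K) (fac E K G G') (jG E K G' K) := by
  have n := el_en (g.el k.ac) (good_V k.lim k.mem).2 (good_V k.lim k.mem).1
  obtain ⟨h1, h2, -⟩ := g.fac k.ac g' s1
  exact h2 K ▸ h1.en ((g.el k.ac).maps K) n.tr' n.good'

/-- the system derived from an embedding and a generating set of seeds -/
theorem moh_der (hC : Choice E) {j : M → M} {W : Set M} {N : M} (e : El E j W)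
    (hN : Sub E N (j K)) (ne : ∃ a, E a N) (g : Gen E K N j W id) :
    ∃ G, Sys E K G ∧ sN E G = N ∧ jG E K G = j ∧ Wm E K G = W ∧
      ∀ a, E a N → sdG E K G a = a := by
  have := e.fj
  obtain ⟨r, r1, r2⟩ := step_full (E := E) K
  obtain ⟨P, hP⟩ := ex_pow E r
  have hP' (R : M) : E R P ↔ Rel E K R := (hP R).trans (r1 R)
  obtain ⟨B, -, hB⟩ := ex_rel E N P fun _ _ => True
  obtain ⟨G, g1, g2⟩ := ex_rel E N B fun a q => ∃ b R, IsOPair E q b R ∧ App E (j R) a b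
  have tr (a b R : M) : Tr3 E G a b R ↔ E a N ∧ E b N ∧ Rel E K R ∧ App E (j R) a b := by
    constructor
    · rintro ⟨q, k1, k2⟩
      obtain ⟨k3, k4, b', R', k5, k6⟩ := (g2 a q).1 k2
      obtain ⟨rfl, rfl⟩ := k1.inj k5
      obtain ⟨k7, k8, -⟩ := (hB b R).1 ⟨q, k1, k4⟩
      exact ⟨k3, k7, (hP' R).1 k8, k6⟩
    · rintro ⟨k1, k2, k3, k4⟩
      exact ⟨_, pr_spec b R, (g2 a _).2 ⟨k1, app_iff.1 ((hB b R).2 ⟨k2, (hP' R).2 k3, trivial⟩),
        b, R, pr_spec b R, k4⟩⟩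
  have eN : sN E G = N := ext' E fun a => (mem_sN G a).trans
    ⟨fun ⟨b, R, k⟩ => ((tr a b R).1 k).1, fun k => ⟨a, r, (tr a a r).2 ⟨k, k, (r1 r).1 fun _ => id,
      (e.tr2 (fun _ K R => ∀ s, E s K → ∀ t, E t K → App E R s t) K r).1
        (fun s a t b => r2 s t a b) _ (hN a k) _ (hN a k)⟩⟩⟩
  have re : Real E K N (Tr3 E G) j W id :=
    ⟨e, el_id.dj, hN, fun a b R ha hb k => (tr a b R).trans
      ⟨fun q => q.2.2.2, fun q => ⟨ha, hb, k, q⟩⟩⟩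
  have rel (a b R : M) (k : Tr3 E G a b R) : E a N ∧ E b N ∧ Rel E K R :=
    ((tr a b R).1 k).imp_right (And.imp_right And.left)
  have sys : Sys E K G := by
    refine ⟨?_, fun t ht => ?_⟩
    · rw [eN]
      exact ⟨rel, re.ultra, step_pair re g, re.cc hC rel, ne⟩
    · obtain ⟨a, q, -, -, k1, b, R, k2, -⟩ := (g1 t).1 ht
      exact ⟨a, q, k1, b, R, k2⟩
  obtain ⟨h1, h2, h3⟩ := sys.uniq hC (j := j) (W := W) (sd := id) (eN.symm ▸ re) (eN.symm ▸ g)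
  exact ⟨G, sys, eN, h1.symm, h2.symm, fun a ha => (h3 a (eN.symm ▸ ha)).symm⟩

theorem okG_base (k : KG E K θ S) (s : SkY E K Y) (hT : Sub E T K) (ne : ∃ x, E x T)
    (hp : ∀ a b, E a T → E b T → E (pr E a b) T) :
    ∃ G, OkG E K Y G T ∧ jG E K G = id ∧ Wm E K G = Set.univ ∧
      ∀ a, E a T → sdG E K G a = a := by
  obtain ⟨G, h1, h2, h3, h4, h5⟩ := moh_der (K := K) (N := K) k.ac el_id (fun _ h => h)
    ⟨S, k.hS⟩ fun x _ => by
      obtain ⟨f, f1, f2⟩ := lam k.ac K fun _ => x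
      exact ⟨S, f, k.hS, f1, f2 S k.hS ▸ f1.app k.hS⟩
  refine ⟨G, ⟨h1, h2.symm ▸ hT, fun a b ha hb => ?_, ne⟩, h3, h4, fun a ha => h5 a (hT a ha)⟩
  obtain ⟨f, f1, f2⟩ := s.p1 k.lim k.mem
  obtain ⟨g, g1, g2⟩ := s.p2 k.lim k.mem
  have m := hT _ (hp a b ha hb)
  refine ⟨pr E a b, f, g, hp a b ha hb, f1, g1, ?_, ?_⟩
  · rw [h3, h5 a (hT a ha), h5 _ m, f2 el_id a b m]
  · rw [h3, h5 b (hT b hb), h5 _ m, g2 el_id a b m]

theorem sys_of_ext (k : KG E K θ S) {j : M → M} {W : Set M} {κ l F : M} (hκ : E κ K)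
    (h : ExtOf E j W κ l F) : ∃ G, Sys E K G ∧ jG E K G = j ∧ Wm E K G = W := by
  have e := h.emb.el
  have hN : Sub E (tup E l) (j K) := fun a ha =>
    (e.tr2 (fun _ t K => Sub E t K) (tup E κ) K).1
      (fun z hz => (good_V k.lim k.mem).2 _ _ (k.tup κ hκ) hz) a
      (bas_sub (tup_spec l) ((e.tr2 (fun _ t κ => IsTup E t κ) _ κ).1 (tup_spec κ)) h.len.2.2 a ha)
  obtain ⟨G, h1, -, h3, h4, -⟩ := moh_der (K := K) k.ac e hN ⟨κ, sub_tup h.len.2.1⟩ fun x hx => by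
    obtain ⟨a, t, b, f, a1, -, a2, a3⟩ := h.gen x hx
    obtain ⟨c, c1, c2⟩ := lam k.ac K fun s => ap E f s
    refine ⟨a, c, tup_iff.1 a1, c1, (e.tr3 (fun _ K f c => ∀ s, E s K → ∀ y, App E f s y →
      App E c s y) K f c).1 (fun s hs y hy => ?_) a (hN a (tup_iff.1 a1)) x a3⟩
    have := c1.app hs
    rwa [c2 s hs, ap_eq a2.fn hy] at this
  exact ⟨G, h1, h3, h4⟩

end MoH

end Pool.Agent.Lib.MP_75a307_lc.LE
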