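import Pool.Agent.Lib.MP_75a307_lc.LE.LK

/-! Hulls over a transitive set and condensation for `L[S]`. -/

set_option synthInstance.maxSize 100000
set_option linter.unusedVariables false
set_option linter.unusedSectionVars false

namespace Pool.Agent.Lib.MP_75a307_lc.LE

open Pool.Agent.Lib.MP_1d770b_lc

universe u
variable {M : Type u} {E : M → M → Prop} [hZ : ZF E]

theorem hullT_ap {f g a : M} (h : ∀ y, App E f a y ↔ App E g a y) : ap E f a = ap E g a :=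
  ext' E fun z => by simp only [ap_spec, h]

theorem hullT_pr {T a b : M} (hT : Trans E T) (h : E (pr E a b) T) :
    (E a T ∧ RkLt E a (pr E a b)) ∧ E b T ∧ RkLt E b (pr E a b) := by
  have k := RkLt.of_opair (pr_spec (E := E) a b)
  obtain ⟨s, t, -, h2, h3⟩ := pr_spec (E := E) a b
  have := hT _ _ h ((h3 t).2 (Or.inr rfl))
  exact ⟨⟨hT _ _ this ((h2 a).2 (Or.inl rfl)), k.1⟩, hT _ _ this ((h2 b).2 (Or.inr rfl)), k.2⟩

/-- The closure of `T` under pairing and one function. -/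
theorem hullT_gen {T w : M} (hT : Trans E T) (hw : IsOmega E w) (hwT : Sub E w T)
    (hp : ∀ a b, E a T → E b T → E (pr E a b) T) (c : M) :
    ∃ Y e, Fn E e ∧ (∀ y, E y Y → ∃ t, E t T ∧ App E e t y) ∧ Sub E T Y ∧
      (∀ a b, E a Y → E b Y → E (pr E a b) Y) ∧ ∀ a, E a Y → E (ap E c a) Y := by
  let Q : M → M → M → Prop := fun f t y => t = pr E (num E 0) y ∨
    (∃ a b, t = pr E (num E 1) (pr E a b) ∧ y = pr E (ap E f a) (ap E f b)) ∨
      ∃ a, t = pr E (num E 2) a ∧ y = ap E c (ap E f a)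
  have hQ : ∀ f g t, E t T → (∀ x', E x' T ∧ RkLt E x' t → ∀ y, App E f x' y ↔ App E g x' y) →
      Q f t = Q g t := fun f g t ht K => funext fun y => propext (or_congr_right (or_congr
    (exists₂_congr fun a b => and_congr_right fun e => by
      subst e
      have k := (hullT_pr hT ht).2
      have k' := hullT_pr hT k.1
      rw [hullT_ap (K a ⟨k'.1.1, k'.1.2.trans k.2⟩), hullT_ap (K b ⟨k'.2.1, k'.2.2.trans k.2⟩)])
    (exists_congr fun a => and_congr_right fun e => by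
      subst e
      rw [hullT_ap (K a (hullT_pr hT ht).2)])))
  have hR : RecOK E (fun x => E x T) (fun x' x => E x' T ∧ RkLt E x' x)
      fun f t y => y = the E (Q f t) :=
    { wfRk E T with
      dS := Df.d3 (P := fun f t y => y = the E (Q f t)) (by simp only [Q]; infer_instance)
      inv := fun f g t y ht K hS => hQ f g t ht K ▸ hS
      ex := fun f t _ _ => ⟨_, rfl⟩
      uniq := fun f t y y' _ _ h1 h2 => h1.trans h2.symm }
  have dR := hR.dRec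
  obtain ⟨Y, hY⟩ := repl E T (Rec E (fun x => E x T) (fun x' x => E x' T ∧ RkLt E x' x)
    fun f t y => y = the E (Q f t)) (fun x y y' _ h1 h2 => hR.fn h1 h2)
  obtain ⟨e, -, he⟩ := ex_fun E T (Rec E (fun x => E x T) (fun x' x => E x' T ∧ RkLt E x' x)
    fun f t y => y = the E (Q f t)) (fun x y y' _ h1 h2 => hR.fn h1 h2)
  have fn : Fn E e := fun t y y' h1 h2 => hR.fn ((he _ _).1 h1).2 ((he _ _).1 h2).2
  have key : ∀ t y, E t T → Q e t y → (∀ y', Q e t y' → y' = y) → E y Y := fun t y ht h u => by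
    obtain ⟨z, hz⟩ := hR.total ht
    obtain ⟨f, hf, hS⟩ := hR.elim hz
    rw [hQ f e t ht fun x k y => (hf x k y).trans ⟨fun a => (he x y).2 ⟨k.1, a⟩,
      fun a => ((he x y).1 a).2⟩,
      the_eq h u] at hS
    exact (hY y).2 ⟨t, ht, hS ▸ hz⟩
  have sur : ∀ y, E y Y → ∃ t, E t T ∧ App E e t y := fun y hy =>
    let ⟨t, ht, h⟩ := (hY y).1 hy; ⟨t, ht, (he _ _).2 ⟨ht, h⟩⟩
  have n : ∀ k, E (num E k) T := fun k => hwT _ (num_mem hw k)
  refine ⟨Y, e, fn, sur, fun x hx => key _ x (hp _ _ (n 0) hx) (.inl rfl) ?_, fun a b ha hb => ?_,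
    fun a ha => ?_⟩
  · rintro y (h | ⟨a, b, h, -⟩ | ⟨a, h, -⟩)
    · exact (pr_inj h).2.symm
    · exact (num_ne (by omega) (pr_inj h).1).elim
    · exact (num_ne (by omega) (pr_inj h).1).elim
  · obtain ⟨s, hs, h1⟩ := sur a ha
    obtain ⟨t, ht, h2⟩ := sur b hb
    refine key _ _ (hp _ _ (n 1) (hp _ _ hs ht))
      (.inr (.inl ⟨s, t, rfl, by rw [ap_eq fn h1, ap_eq fn h2]⟩)) ?_
    rintro y (h | ⟨a, b, h, rfl⟩ | ⟨a, h, -⟩)
    · exact (num_ne (by omega) (pr_inj h).1).elim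
    · obtain ⟨rfl, rfl⟩ := pr_inj (pr_inj h).2
      rw [ap_eq fn h1, ap_eq fn h2]
    · exact (num_ne (by omega) (pr_inj h).1).elim
  · obtain ⟨s, hs, h1⟩ := sur a ha
    refine key _ _ (hp _ _ (n 2) hs) (.inr (.inr ⟨s, rfl, by rw [ap_eq fn h1]⟩)) ?_
    rintro y (h | ⟨a, b, h, -⟩ | ⟨a, h, rfl⟩)
    · exact (num_ne (by omega) (pr_inj h).1).elim
    · exact (num_ne (by omega) (pr_inj h).1).elim
    · obtain rfl := (pr_inj h).2
      rw [ap_eq fn h1]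

/-- The closure of `T` under pairing and witnesses of a definable relation. -/
theorem hullT_rel (hC : Choice E) {T w : M} (hT : Trans E T) (hw : IsOmega E w) (hwT : Sub E w T)
    (hp : ∀ a b, E a T → E b T → E (pr E a b) T) (G : M → M → Prop) (dG : D2 E G) :
    ∃ Y e, Fn E e ∧ (∀ y, E y Y → ∃ t, E t T ∧ App E e t y) ∧ Sub E T Y ∧
      (∀ a b, E a Y → E b Y → E (pr E a b) Y) ∧
      ∀ a, E a Y → (∃ z, G a z) → ∃ z, E z Y ∧ G a z := by
  obtain ⟨l, hl⟩ := ex_rk E T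
  obtain ⟨Λ, hΛ, hlΛ, hcl⟩ := clos E
    (fun α γ => ∀ h, Rk E h α → (∃ z, G h z) → ∃ z, Rk E z γ ∧ G h z)
    (fun α hα => by
      obtain ⟨v, hv⟩ := ex_V hα
      obtain ⟨c, hc, H⟩ := ord_coll E v (fun h γ => ∃ z, Rk E z γ ∧ G h z)
      refine ⟨c, hc, fun h hh ⟨z, hz⟩ => ?_⟩
      obtain ⟨γ, hγ⟩ := ex_rk E z
      obtain ⟨γ, h1, z', h3, h4⟩ := H h ((hv h).2 hh) ⟨γ, hγ.ord, z, hγ, hz⟩
      exact ⟨z', h3.lt hc h1, h4⟩) l hl.ord
  obtain ⟨Z, hZ⟩ := ex_V hΛ.1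
  obtain ⟨c, -, c1, c2, c3⟩ := MP_75a307_lc.ac hC Z (fun a z => E z Z ∧ G a z)
  obtain ⟨Y, e, h1, h2, h3, h4, h5⟩ := hullT_gen hT hw hwT hp c
  obtain ⟨Y', hY⟩ := sep E Y (fun y => E y Z)
  refine ⟨Y', e, h1, fun y hy => h2 y ((hY y).1 hy).1, fun x hx => (hY x).2 ⟨h3 x hx,
    (hZ x).2 ((hl.mem hx).lt hΛ.1 hlΛ)⟩, fun a b ha hb => (hY _).2 ⟨h4 a b ((hY a).1 ha).1
      ((hY b).1 hb).1, (hZ _).2 (hΛ.opair ((hZ a).1 ((hY a).1 ha).2) ((hZ b).1 ((hY b).1 hb).2)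
        (pr_spec a b))⟩, fun a ha hz => ?_⟩
  obtain ⟨a1, a2⟩ := (hY a).1 ha
  obtain ⟨α, k1, k2⟩ := hΛ.rk ((hZ a).1 a2)
  obtain ⟨γ, g1, g2⟩ := hcl α k1
  obtain ⟨z, z1, z2⟩ := g2 a k2 hz
  obtain ⟨y, hy⟩ := c3 a a2 ⟨z, (hZ z).2 (z1.lt hΛ.1 g1), z2⟩
  exact ⟨y, (hY y).2 ⟨ap_eq c1 hy ▸ h5 a a1, (c2 _ _ hy).2.1⟩, (c2 _ _ hy).2.2⟩

theorem hullT_dt (n : ℕ) : F1 E fun u => (p2 E)^[n] u := by
  induction n with
  | zero => exact fun t h => h
  | succ n ih => exact fun t _ => ih fun v => p2 E (t v)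

theorem hullT_tup {Y : M} (h : ∀ a b, E a Y → E b Y → E (pr E a b) Y) (n : ℕ) :
    ∀ v : ℕ → M, (∀ i, E (v i) Y) → ∃ u, E u Y ∧ ∀ i, i < n → p1 E ((p2 E)^[i] u) = v i := by
  induction n with
  | zero => exact fun v hv => ⟨v 0, hv 0, fun _ a => by omega⟩
  | succ n ih =>
    intro v hv
    obtain ⟨u, h1, h2⟩ := ih (fun i => v (i + 1)) fun i => hv _
    refine ⟨_, h _ _ (hv 0) h1, fun i a => ?_⟩
    rcases i with _ | i
    · exact p1_pr _ _
    · rw [Function.iterate_succ_apply, p2_pr, h2 i (by omega)]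

theorem hullT (hC : Choice E) {T w : M} (hT : Trans E T) (hw : IsOmega E w) (hwT : Sub E w T)
    (hp : ∀ a b, E a T → E b T → E (pr E a b) T) (P : List M) (L : List Fm) :
    ∃ Y e, Fn E e ∧ (∀ y, E y Y → ∃ t, E t T ∧ App E e t y) ∧ Sub E T Y ∧ (∀ x ∈ P, E x Y) ∧
      ∀ ψ ∈ L, TV E Y ψ := by
  let G : M → M → Prop := fun a z =>
    (∃ k : Fin P.length, a = pr E (num E 0) (num E k) ∧ z = P.get k) ∨
      ∃ k : Fin L.length, p1 E a = num E (k + 1) ∧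
        Sat E (L.get k) (scons z fun i => p1 E ((p2 E)^[i] (p2 E a)))
  have d : ∀ φ : Fm, D2 E fun a z => Sat E φ (scons z fun i => p1 E ((p2 E)^[i] (p2 E a))) :=
    fun φ => Df.d2 ((sat_dt (E := E) φ (fun i v => scons (v 1)
      (fun i => p1 E ((p2 E)^[i] (p2 E (v 0)))) i) fun i => by
        rcases i with _ | i
        · exact inferInstanceAs (DT E fun v => v 1)
        · have := hullT_dt (E := E) i fun v => p2 E (v 0)
          exact inferInstanceAs (DT E fun v => p1 E ((p2 E)^[i] (p2 E (v 0))))))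
  obtain ⟨Y, e, h1, h2, h3, h4, h5⟩ := hullT_rel hC hT hw hwT hp G fun _ _ _ _ => by
    simp only [G]; infer_instance
  have n : ∀ k, E (num E k) Y := fun k => h3 _ (hwT _ (num_mem hw k))
  refine ⟨Y, e, h1, h2, h3, fun x hx => ?_, fun ψ hψ v hv ⟨z, hz⟩ => ?_⟩
  · obtain ⟨k, rfl⟩ := List.get_of_mem hx
    obtain ⟨z, a, ⟨k', b, rfl⟩ | ⟨k', b, -⟩⟩ := h5 _ (h4 _ _ (n 0) (n k)) ⟨_, .inl ⟨k, rfl, rfl⟩⟩
    · obtain rfl : k = k' := Fin.ext (by_contra fun c => num_ne c (pr_inj b).2)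
      exact a
    · exact (num_ne (by omega) ((p1_pr _ _).symm.trans b)).elim
  · obtain ⟨k, rfl⟩ := List.get_of_mem hψ
    obtain ⟨u, u1, u2⟩ := hullT_tup h4 (L.get k).fv v hv
    have key : ∀ z, Sat E (L.get k) (scons z fun i => p1 E ((p2 E)^[i]
        (p2 E (pr E (num E (k + 1)) u)))) ↔ Sat E (L.get k) (scons z v) := fun z =>
      sat_congr _ _ _ fun i a => by
        rcases i with _ | i
        · rfl
        · exact (congrArg (fun x => p1 E ((p2 E)^[i] x)) (p2_pr _ _)).trans (u2 i (by omega))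
    obtain ⟨y, a, ⟨k', b, -⟩ | ⟨k', b, c⟩⟩ := h5 _ (h4 _ _ (n (k + 1)) u1)
      ⟨z, .inr ⟨k, p1_pr _ _, (key z).2 hz⟩⟩
    · exact (num_ne (by omega) (pr_inj b).1).elim
    · obtain rfl : k = k' := Fin.ext (by_contra fun c =>
        num_ne (by omega) ((p1_pr _ _).symm.trans b))
      exact ⟨y, a, (key y).1 c⟩

/-- A collapsed hull `π : N → V` over `T`, elementary for the formulas in `L`. -/
theorem condT (hC : Choice E) {T w : M} (hT : Trans E T) (hw : IsOmega E w) (hwT : Sub E w T)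
    (hp : ∀ a b, E a T → E b T → E (pr E a b) T) (P : List M) (L : List Fm) :
    ∃ (N e : M) (π : M → M), D2 E (fun x y => π x = y) ∧ Trans E N ∧ Sub E T N ∧ Fn E e ∧
      (∀ y, E y N → ∃ t, E t T ∧ App E e t y) ∧ (∀ x, E x T → π x = x) ∧
      (∀ x ∈ P, ∃ y, E y N ∧ π y = x) ∧ (∀ y, E y N → Sub E (π y) T → π y = y) ∧
      (∀ a b, E a N → E b N → (E (π a) (π b) ↔ E a b)) ∧
      (∀ a b, E a N → E b N → E (pr E a b) N ∧ π (pr E a b) = pr E (π a) (π b)) ∧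
      (∀ φ ∈ L, ∀ v : ℕ → M, (∀ n, E (v n) N) →
        (SatW E {x | E x N} φ v ↔ Sat E φ fun n => π (v n))) ∧
      ∀ A y, E A N → E y N → π y ∈ LK E (π A) → y ∈ LK E A := by
  obtain ⟨φ0, h0⟩ := (inferInstance : UD.{u} fun _ E v => ¬ (E (v 0) (v 1) ↔ E (v 0) (v 2))).out
  obtain ⟨φ1, h1⟩ := (inferInstance : UD.{u} fun _ E v => IsUPair E (v 0) (v 1) (v 2)).out
  obtain ⟨Y, e, e1, e2, hY, hP, hTV⟩ := hullT hC hT hw hwT hp P
    (φ0 :: φ1 :: (lkF.{u} :: L).flatMap Fm.subs)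
  obtain ⟨C, N, dC, cfn, cinj, cdom, ctot, csur, hN, cmem, -⟩ := collapse (E := E) (Y := Y)
    (fun a b ha hb H => ext' E fun z => by
      by_contra hz
      obtain ⟨z', k1, k2⟩ := hTV φ0 List.mem_cons_self (scons a (fun _ => b))
        (fun i => by cases i <;> assumption) ⟨z, (h0 _ _ _).1 hz⟩
      exact (h0 _ _ _).2 k2 (H z' k1))
  obtain ⟨π, dπ, hπ'⟩ : ∃ π : M → M, D2 E (fun x y => π x = y) ∧ ∀ x y, C x y → π y = x :=
    ⟨fun y => the E fun x => C x y, fun _ _ _ _ => inferInstance,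
      fun x y h => the_eq h fun x' h' => cinj _ _ _ h' h⟩
  have hπ : ∀ y, E y N → C (π y) y := fun y hy => let ⟨x, h⟩ := csur y hy; hπ' x y h ▸ h
  have cid : ∀ x, E x T → C x x := fun x => by
    refine mem_ind E (fun x => E x T → C x x) ?_ x
    intro x IH hx
    obtain ⟨y, hy⟩ := ctot x (hY x hx)
    have : y = x := ext' E fun z => ⟨fun h => by
      have a := hπ z (hN _ _ (cdom _ _ hy).2 h)
      have b := (cmem _ _ _ _ a hy).1 h
      exact cfn _ _ _ (IH _ b (hT _ _ hx b)) a ▸ b,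
      fun h => (cmem _ _ _ _ (IH z h (hT _ _ hx h)) hy).2 h⟩
    exact this ▸ hy
  have hm : ∀ a b, E a N → E b N → (E (π a) (π b) ↔ E a b) := fun a b ha hb =>
    (cmem _ _ _ _ (hπ a ha) (hπ b hb)).symm
  have hi : ∀ a b, E a N → E b N → π a = π b → a = b := fun a b ha hb h =>
    cfn _ _ _ (hπ a ha) (h ▸ hπ b hb)
  have hs : ∀ x, E x Y → ∃ y, E y N ∧ π y = x := fun x hx =>
    let ⟨y, h⟩ := ctot x hx; ⟨y, (cdom _ _ h).2, hπ' _ _ h⟩
  have up : ∀ a b, E a N → E b N →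
      ∃ c, E c N ∧ IsUPair E c a b ∧ IsUPair E (π c) (π a) (π b) := fun a b ha hb => by
    obtain ⟨d, hd⟩ := ex_upair E (π a) (π b)
    obtain ⟨d, k1, k2⟩ := hTV φ1 (by simp) (scons (π a) fun _ => π b) (fun i => by
      cases i
      exacts [(cdom _ _ (hπ a ha)).1, (cdom _ _ (hπ b hb)).1]) ⟨d, (h1 _ _ _).1 hd⟩
    replace k2 : IsUPair E d (π a) (π b) := (h1 _ _ _).2 k2
    obtain ⟨c, hc, rfl⟩ := hs d k1
    refine ⟨c, hc, fun z => ⟨fun h => ?_, ?_⟩, k2⟩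
    · have hz := hN _ _ hc h
      exact ((k2 _).1 ((hm z c hz hc).2 h)).imp (hi _ _ hz ha) (hi _ _ hz hb)
    · rintro (rfl | rfl)
      · exact (hm _ c ha hc).1 ((k2 _).2 (.inl rfl))
      · exact (hm _ c hb hc).1 ((k2 _).2 (.inr rfl))
  have hι := TEmb.val (E := E) (W := {y | E y N}) hN
  have hπe : Emb (fun p : {y | E y N} => π p.1) (Res E {y | E y N}) E :=
    ⟨fun a b h => Subtype.ext (hi _ _ a.2 b.2 h), fun a b => (hm _ _ a.2 b.2).symm⟩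
  have el : ∀ φ ∈ lkF.{u} :: L, ∀ v : ℕ → {y | E y N},
      Sat (Res E {y | E y N}) φ v ↔ Sat E φ fun i => π (v i).1 := fun φ h =>
    tv_elem (j := fun p : {y | E y N} => π p.1) (Y := Y) (fun y => ⟨fun hy =>
      let ⟨z, a, b⟩ := hs y hy; ⟨⟨z, a⟩, b⟩, fun ⟨b, hb⟩ => hb ▸ (cdom _ _ (hπ _ b.2)).1⟩) φ
      fun ψ hψ => hTV ψ (List.mem_cons_of_mem _ (List.mem_cons_of_mem _
        (List.mem_flatMap.2 ⟨φ, h, hψ⟩)))
  have hpe : PEmb (Subtype.val : {y | E y N} → M) (Res E _) E :=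
    { hι with pair := fun a b =>
        let ⟨c, k1, k2, _⟩ := up _ _ a.2 b.2
        ⟨⟨c, k1⟩, fun x => (k2 x.1).trans (or_congr Subtype.ext_iff.symm Subtype.ext_iff.symm)⟩ }
  obtain ⟨F, -, hF⟩ := ex_rel E T N (fun t z => ∃ y, App E e t y ∧ C y z)
  refine ⟨N, F, π, dπ, hN, fun x hx => (cdom _ _ (cid x hx)).2, fun t z z' k1 k2 => ?_,
    fun z hz => ?_, fun x hx => hπ' _ _ (cid x hx), fun x hx => hs x (hP x hx),
    fun y hy k => ext' E fun z => ⟨fun h => ?_, fun h => ?_⟩, hm, fun a b ha hb => ?_,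
    fun φ h v hv => ?_, fun A y hA hy h => ?_⟩
  · obtain ⟨-, -, y, k3, k4⟩ := (hF _ _).1 k1
    obtain ⟨-, -, y', k5, k6⟩ := (hF _ _).1 k2
    obtain rfl := e1 _ _ _ k3 k5
    exact cfn _ _ _ k4 k6
  · obtain ⟨t, k1, k2⟩ := e2 _ (cdom _ _ (hπ z hz)).1
    exact ⟨t, k1, (hF _ _).2 ⟨k1, hz, _, k2, hπ z hz⟩⟩
  · exact (cmem _ _ _ _ (cid z (k z h)) (hπ y hy)).2 h
  · have hz := hN _ _ hy h
    have a := (hm z y hz hy).2 h
    exact cfn _ _ _ (cid _ (k _ a)) (hπ z hz) ▸ a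
  · obtain ⟨s, s1, s2, s3⟩ := up a a ha ha
    obtain ⟨t, t1, t2, t3⟩ := up a b ha hb
    obtain ⟨p, p1, p2, p3⟩ := up s t s1 t1
    rw [← pr_eq.1 ⟨s, t, s2, t2, p2⟩]
    exact ⟨p1, pr_eq.1 ⟨_, _, s3, t3, p3⟩⟩
  · exact (satW_res φ fun i => (⟨v i, hv i⟩ : {y | E y N})).trans
      (el φ (List.mem_cons_of_mem _ h) _)
  · obtain ⟨ξ, hξ⟩ := (lkF_spec (E := Res E {y | E y N}) ⟨A, hA⟩ ⟨y, hy⟩).2
      ((el _ List.mem_cons_self _).2 (by
        rw [lkF_spec] at h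
        exact (sat_congr _ _ _ fun i _ => by cases i <;> rfl).1 h))
    exact ⟨ξ.1, hξ.up (j := Subtype.val) (q := fun s => E s A) (fun _ _ => inferInstance)
      fun s _ _ _ _ _ => Iff.rfl⟩

end Pool.Agent.Lib.MP_75a307_lc.LE
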