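import Pool.Agent.Lib.MP_75a307_lc.LE.MoE
import Pool.Agent.Lib.MP_75a307_lc.LE.HullT

/-! Reflection of `V = L[S]` to a rank initial segment and transfer to the small models. -/

set_option synthInstance.maxSize 100000
set_option linter.unusedVariables false
set_option linter.unusedSectionVars false

namespace Pool.Agent.Lib.MP_75a307_lc.LE

open Pool.Agent.Lib.MP_1d770b_lc

universe u
variable {M : Type u} {E : M → M → Prop} [hZ : ZF E]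

theorem mov_rel (G : M → M → Prop) (dG : D2 E G) {α : M} (hα : IsOrd E α) : ∃ γ, IsOrd E γ ∧
    ∀ h, Rk E h α → (∃ z, G h z) → ∃ z, Rk E z γ ∧ G h z := by
  obtain ⟨v, hv⟩ := ex_V hα
  obtain ⟨c, hc, H⟩ := ord_coll E v (fun h γ => ∃ z, Rk E z γ ∧ G h z)
  refine ⟨c, hc, fun h hh ⟨z, hz⟩ => ?_⟩
  obtain ⟨γ, hγ⟩ := ex_rk E z
  obtain ⟨γ, h1, z', h3, h4⟩ := H h ((hv h).2 hh) ⟨γ, hγ.ord, z, hγ, hz⟩
  exact ⟨z', h3.lt hc h1, h4⟩

/-- reflection of finitely many formulas -/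
theorem mov_refl (L : List Fm) (a : M) : ∃ K θ, Lim E θ ∧ (∀ x, E x K ↔ Rk E x θ) ∧ E a K ∧
    ∀ ψ ∈ L, TV E K ψ := by
  let G : M → M → Prop := fun a z => ∃ k : Fin L.length, p1 E a = num E k ∧
    Sat E (L.get k) (scons z fun i => p1 E ((p2 E)^[i] (p2 E a)))
  have d : ∀ φ : Fm, D2 E fun a z => Sat E φ (scons z fun i => p1 E ((p2 E)^[i] (p2 E a))) :=
    fun φ => Df.d2 ((sat_dt (E := E) φ (fun i v => scons (v 1)
      (fun i => p1 E ((p2 E)^[i] (p2 E (v 0)))) i) fun i => by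
        rcases i with _ | i
        · exact inferInstanceAs (DT E fun v => v 1)
        · have := hullT_dt (E := E) i fun v => p2 E (v 0)
          exact inferInstanceAs (DT E fun v => p1 E ((p2 E)^[i] (p2 E (v 0))))))
  have dG : D2 E G := fun _ _ _ _ => by simp only [G]; infer_instance
  obtain ⟨l, hl⟩ := ex_rk E a
  obtain ⟨w, hw⟩ := ex_omega E
  obtain ⟨b, hb, b1, b2⟩ := ord_bound2 hl.ord hw.lim.1
  obtain ⟨θ, hθ, hbθ, hcl⟩ := clos E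
    (fun α γ => ∀ h, Rk E h α → (∃ z, G h z) → ∃ z, Rk E z γ ∧ G h z)
    (fun α hα => mov_rel G dG hα) b hb
  obtain ⟨K, hK⟩ := ex_V hθ.1
  have hp : ∀ a b, E a K → E b K → E (pr E a b) K := fun a b ha hb =>
    (hK _).2 (hθ.opair ((hK a).1 ha) ((hK b).1 hb) (pr_spec a b))
  refine ⟨K, θ, hθ, hK, (hK a).2 (hl.lt hθ.1 (hθ.1.tr hbθ b1)), fun ψ hψ v hv ⟨z, hz⟩ => ?_⟩
  obtain ⟨k, rfl⟩ := List.get_of_mem hψ
  obtain ⟨u, u1, u2⟩ := hullT_tup hp (L.get k).fv v hv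
  have key : ∀ z, Sat E (L.get k) (scons z fun i => p1 E ((p2 E)^[i]
      (p2 E (pr E (num E k) u)))) ↔ Sat E (L.get k) (scons z v) := fun z =>
    sat_congr _ _ _ fun i a => by
      rcases i with _ | i
      · rfl
      · exact (congrArg (fun x => p1 E ((p2 E)^[i] x)) (p2_pr _ _)).trans (u2 i (by omega))
  obtain ⟨α, k1, k2⟩ := hθ.rk ((hK _).1 (hp _ _ ((hK _).2 (hθ.1.rk
    (hθ.1.tr (hθ.1.tr hbθ b2) (num_mem hw k)))) u1))
  obtain ⟨γ, g1, g2⟩ := hcl α k1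
  obtain ⟨y, y1, k', c1, c2⟩ := g2 _ k2 ⟨z, k, p1_pr _ _, (key z).2 hz⟩
  obtain rfl : k = k' := Fin.ext (by_contra fun c => num_ne c ((p1_pr _ _).symm.trans c1))
  exact ⟨y, (hK y).2 (y1.lt hθ.1 g1), (key y).1 c2⟩

instance mov_ud (o i k : ℕ) : UD.{u} fun _ E v => Val E (fun s => E s (v o)) (v i) (v k) := by
  have h1 : ∀ (o i k l m : ℕ) (r : Fin 6),
      UD.{u} fun _ E v => Op E (fun s => E s (v o)) (v i) (v k) (v l) (v m) r := by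
    intro o i k l m r
    fin_cases r <;> (simp only [Op]; infer_instance)
  have h2 : ∀ o i k l : ℕ,
      UD.{u} fun _ E v => VS E (fun s => E s (v o)) (App E (v i)) (v k) (v l) := by
    intro o i k l
    unfold VS; infer_instance
  unfold Val Rec Ap; infer_instance

section MoV
variable {K θ S N A : M} {j π : M → M} {W : Set M}

theorem mov_ud_tr {B : M} (h : EN E N π B) (P : ∀ (M : Type u), (M → M → Prop) → M → Prop)
    [d : UD.{u} fun M E v => P M E (v 0)] (a : cl E N) (b : cl E B) (e : π a.1 = b.1) :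
    P _ (Res E (cl E N)) a ↔ P _ (Res E (cl E B)) b := by
  obtain ⟨φ, hφ⟩ := d.out
  refine (hφ _ _ fun _ => a).trans (Iff.trans ?_ (hφ _ _ fun _ => b).symm)
  rw [← satW_res, ← satW_res, ← e]
  exact h.el φ (fun _ => a.1) fun _ => a.2

theorem ex_kg (hC : Choice E) (hS : Coh1 E Set.univ S) (hV : ∀ x, x ∈ LK E S) (a : M) :
    ∃ K θ, KG E K θ S ∧ E a K := by
  obtain ⟨φ0, h0⟩ := (inferInstance : RD E (Good E) fun _ v => IsTup E (v 0) (v 1)).out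
  obtain ⟨φ1, h1⟩ := (inferInstance : UD.{u} fun _ E v =>
    ∃ γ, Val E (fun s => E s (v 0)) γ (v 1)).out
  obtain ⟨φ2, h2⟩ := (inferInstance : UD.{u} fun _ E v =>
    ∃ y, Val E (fun s => E s (v 0)) (v 1) y).out
  obtain ⟨K, θ, hθ, hK, ha, hT⟩ := mov_refl (E := E) (φ0 :: (φ1.subs ++ φ2.subs)) (pr E S a)
  have tK : Tr E (cl E K) := fun x hx y hy => (hK y).2 (((hK x).1 hx).mem hy)
  obtain ⟨m1, m2⟩ := tK.opair ha (pr_spec S a)
  have t (v : ℕ → M) : Sat E φ0 v ↔ IsTup E (v 0) (v 1) :=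
    (satW_univ φ0 v).symm.trans (h0 _ good_univ tr_univ v fun _ => trivial)
  have := Emb.val (E := E) (cl E K)
  have el (φ : Fm) (h : ∀ ψ ∈ φ.subs, ψ ∈ φ1.subs ++ φ2.subs) (v : ℕ → cl E K) :
      Sat (Res E (cl E K)) φ v ↔ Sat E φ fun i => (v i).1 :=
    tv_elem (j := (Subtype.val : cl E K → M)) (Y := K)
      (fun y => ⟨fun hy => ⟨⟨y, hy⟩, rfl⟩, fun ⟨b, hb⟩ => hb ▸ b.2⟩) φ
      (fun ψ hψ => hT ψ (List.mem_cons_of_mem _ (h ψ hψ))) v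
  refine ⟨K, θ, ⟨hC, hθ, hK, m1, hS, hV, fun l hl => ?_, fun y hy => ?_, fun γ hγ ho => ?_⟩, m2⟩
  · obtain ⟨z, z1, z2⟩ := hT φ0 List.mem_cons_self (fun _ => l) (fun _ => hl)
      ⟨_, (t _).2 (tup_spec l)⟩
    exact (IsTup.eq ((t _).1 z2) : z = tup E l) ▸ z1
  · obtain ⟨g, hg⟩ := (h1 _ _ (scons (⟨S, m1⟩ : cl E K) fun _ => (⟨y, hy⟩ : cl E K))).2
      ((el φ1 (by simp +contextual) _).2 ((h1 _ _ _).1 (hV y)))
    exact ⟨g.1, _, g, _, rfl, rfl, rfl, hg⟩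
  · obtain ⟨z, hz⟩ := (h2 _ _ (scons (⟨S, m1⟩ : cl E K) fun _ => (⟨γ, hγ⟩ : cl E K))).2
      ((el φ2 (by simp +contextual) _).2 ((h2 _ _ _).1 (Val.total (lk_dq S) ho)))
    exact ⟨z.1, _, _, z, rfl, rfl, rfl, hz⟩

theorem mov_en (k : KG E K θ S) (e : El E j W) : EN E K j (j K) :=
  el_en e (good_V k.lim k.mem).2 (good_V k.lim k.mem).1

theorem mov_clo (k : KG E K θ S) (e : El E j W) (n : EN E N π (j K)) (hA : E A N) : Clo E N :=
  (n.clo ⟨A, hA⟩).2 (((mov_en k e).clo ⟨S, k.hS⟩).1 k.clo)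

theorem KG.cons (k : KG E K θ S) (e : El E j W) (n : EN E N π (j K)) (hA : E A N)
    (eA : π A = j S) : Cons E N A := by
  have m := mov_en k e
  have tr (P : ∀ (M : Type u), (M → M → Prop) → M → Prop) [UD.{u} fun M E v => P M E (v 0)]
      (h : P _ (Res E (cl E K)) ⟨S, k.hS⟩) : P _ (Res E (cl E N)) ⟨A, hA⟩ :=
    (mov_ud_tr n P ⟨A, hA⟩ ⟨j S, m.maps S k.hS⟩ eA).2 ((mov_ud_tr m P ⟨S, k.hS⟩ _ rfl).1 h)
  have tK := TEmb.val (E := E) (W := cl E K) m.tr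
  have tN := TEmb.val (E := E) (W := cl E N) n.tr
  have pN : PEmb (Subtype.val : cl E N → M) (Res E _) E :=
    { tN with pair := fun a b =>
        let ⟨_, t, _, h2, h3⟩ := pr_spec (E := E) a.1 b.1
        ⟨⟨t, n.tr _ _ ((mov_clo k e n hA).pr _ _ a.2 b.2) ((h3 t).2 (.inr rfl))⟩, fun x =>
          (h2 x.1).trans (or_congr Subtype.ext_iff.symm Subtype.ext_iff.symm)⟩ }
  have vp {g z : cl E N} (h : Val (Res E (cl E N)) (fun s => Res E (cl E N) s ⟨A, hA⟩) g z) :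
      VP E N A g.1 z.1 := fun B hB =>
    Val.up (j := Subtype.val) (lk_dq B) (fun s η y h1 h2 h3 => hB s.1 η y h1 h2 h3 s.2) h
  refine ⟨fun y hy => ?_, fun γ hγ ho => ?_⟩
  · obtain ⟨g, hg⟩ := tr (fun _ E a => ∀ y, ∃ γ, Val E (fun s => E s a) γ y) (fun y => by
      obtain ⟨_, ⟨a, ha⟩, g, z, rfl, -, h, hv⟩ := k.val1 y.1 y.2
      exact ⟨g, Subtype.ext h ▸ hv⟩) ⟨y, hy⟩
    exact ⟨g.1, vp hg⟩
  · obtain ⟨z, hz⟩ := tr (fun _ E a => ∀ γ, IsOrd E γ → ∃ y, Val E (fun s => E s a) γ y)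
      (fun γ o => by
        obtain ⟨_, ⟨a, ha⟩, g, z, rfl, h, -, hv⟩ :=
          k.val2 γ.1 γ.2 (MP_1d770b_lc.up Subtype.val (Res E (cl E K)) E o)
        exact ⟨z, Subtype.ext h ▸ hv⟩) ⟨γ, hγ⟩
      (dn Subtype.val (Res E (cl E N)) E (q := IsOrd E (⟨γ, hγ⟩ : cl E N).1) ho)
    exact ⟨z.1, z.2, vp hz⟩

theorem KG.img (k : KG E K θ S) (e : El E j W) (n : EN E N π (j K)) (hA : E A N)
    (eA : π A = j S) : Clo E N ∧ cmpAImg E (cl E N) A ∧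
      ∀ t, E t A → ∃ u v p, t = pr E (pr E u v) p := by
  have m := mov_en k e
  have I := mov_clo k e n hA
  have hS := k.coh
  have hC := k.ac
  have tr (P : Set M → M → Prop) [RD E (Good E) fun W v => P W (v 0)] (h : P (cl E K) S) :
      P (cl E N) A := (n.tr1 P hA).2 (eA ▸ (m.tr1 P k.hS).1 h)
  have tN : Tr E (cl E N) := fun x hx y hy => n.tr x y hx hy
  have dm : ∀ {u v}, Dom E A u v → u ∈ cl E N ∧ v ∈ cl E N := fun ⟨_, k⟩ =>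
    ⟨(cmpA_at tN hA k).1, (cmpA_at tN hA k).2.1⟩
  have c0 := tr (fun _ S => ∀ t, E t S → ∃ q p, IsOPair E t q p ∧ ∃ κ l, IsOPair E q κ l ∧ κ = κ)
    hS.1
  have c1 := tr (fun W S => ∀ κ ∈ W, ∀ l ∈ W, Dom E S κ l → ∀ l', E l' l → E κ l' → Dom E S κ l')
    fun u _ v _ => hS.2.1 u trivial v trivial
  have c2 := tr (fun W S => ∀ κ ∈ W, ∀ l ∈ W, ∀ κ' ∈ W, ∀ l' ∈ W, Dom E S κ l → Dom E S κ' l' →
    E κ κ' → E l κ') fun u _ v _ u' _ v' _ => hS.2.2.1 u trivial v trivial u' trivial v' trivial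
  have s := tr (fun W S => Shape E W S) fun u hu v hv p _ h => by
    obtain ⟨h1, h2, h3, a, X, hp, ⟨t, -, ht, ha⟩, t', -, ht', hX⟩ :=
      hS.shape hC u trivial v trivial p trivial h
    exact ⟨h1, h2, h3, a, X, hp, ⟨t, ht.eq ▸ k.tup v hv, ht, ha⟩, t', ht'.eq ▸ k.tup u hu, ht', hX⟩
  have t := tr (fun W S => ∀ u ∈ W, ∀ v ∈ W, Dom E S u v → ∀ t ∈ W, IsTup E t u → ∀ p ∈ W,
    IsOPair E p u t → At E S u v p) fun u _ v _ d t _ ht p _ hp => by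
      rw [pr_eq.1 hp, ht.eq]; exact hS.top hC d
  have b := tr (fun W S => ∀ u ∈ W, ∀ v ∈ W, Dom E S u v → ∀ η, E η u → ∃ ζ, E ζ u ∧
    ∀ a, E a η → ∀ b ∈ W, Dom E S a b → E b ζ) fun u _ v _ d η hη =>
      let ⟨ζ, h1, h2⟩ := hS.bd hC d hη; ⟨ζ, h1, fun a ha b _ => h2 a b ha⟩
  have s' : ∀ {u v p}, At E A u v p → _ := fun {u v p} k =>
    s u (cmpA_at tN hA k).1 v (cmpA_at tN hA k).2.1 p (cmpA_at tN hA k).2.2 k
  refine ⟨I, ⟨hA, s, fun u v ⟨p, k⟩ => ⟨(s' k).1, (s' k).2.1⟩,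
    fun u v v' d a e => c1 u (dm d).1 v (dm d).2 d v' a e,
    fun u v u' v' d d' e => c2 u (dm d).1 v (dm d).2 u' (dm d').1 v' (dm d').2 d d' e,
    fun u v d => t u (dm d).1 v (dm d).2 d _ (I.tup _ (dm d).1) (tup_spec u) _
      (I.pr _ _ (dm d).1 (I.tup _ (dm d).1)) (pr_spec _ _), fun u v η d e => ?_,
    fun u v p ξ k hξ hu hv => ?_⟩, fun t ht => ?_⟩
  · obtain ⟨ζ, h1, h2⟩ := b u (dm d).1 v (dm d).2 d η e
    exact ⟨ζ, h1, fun a c ha d' => h2 a ha c (dm d').2 d'⟩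
  · obtain ⟨h1, -, -, a, X, hp, ⟨t, -, ht, ha⟩, t', -, ht', hX⟩ := s' k
    rw [ht.eq] at ha
    rw [ht'.eq] at hX
    exact hξ.opair (tup_rk hξ (fun z hz => hξ.1.tr hv hz) ha)
      (Rk.intro hξ.1 hu fun z hz => tup_rk h1 (fun _ => id) (hX z hz)) hp
  · obtain ⟨q, p, h1, u, v, h2, -⟩ := c0 t ht
    exact ⟨u, v, p, pr_eq.1 h2 ▸ pr_eq.1 h1⟩

end MoV

end Pool.Agent.Lib.MP_75a307_lc.LE
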