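import Pool.Agent.Lib.MP_75a307_lc.LE.MoE

/-! The sequence of the small hull agrees with S at the critical point. -/

set_option synthInstance.maxSize 100000
set_option linter.unusedVariables false
set_option linter.unusedSectionVars false

namespace Pool.Agent.Lib.MP_75a307_lc.LE

open Pool.Agent.Lib.MP_1d770b_lc

universe u
variable {M : Type u} {E : M → M → Prop} [hZ : ZF E]

theorem str2_agree {K θ S κ μ n N A m : M} {j π : M → M} {W : Set M} (k : KG E K θ S)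
    (h : ElEmb E j W κ) (hd : Dom E S κ μ) (hn : Lim E n) (n1 : E n μ) (n2 : E κ n)
    (e : EN E N π K) (hA : E A N) (eA : π A = S) (hm : E m N) (em : π m = μ)
    (low : ∀ y ∈ W, Rk E y n → E y N ∧ π y = y) (sm : ∀ l, E l N → IsOrd E l → E l μ) :
    (∀ u v p, E u κ → (At E A u v p ↔ At E S u v p)) ∧ ∃ o, E o N ∧ IsOrd E o ∧ Le E n o ∧
      ∀ v p, At E A κ v p ↔ At E S κ v p ∧ E v o := by
  have hC := k.ac
  have i : cmpAImg E Set.univ S := cmpA_img hC k.coh el_id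
  have oμ := (i.lim _ _ hd).2
  have el := h.el
  have c : Clo E N := (e.clo ⟨A, hA⟩).2 k.clo
  have lo : ∀ x, (∀ z, E z x → Rk E z κ) → E x N ∧ π x = x := fun x r => low x
    (cmpA_up (el.elW hC) h.ord (fun _ _ k => h.fixV k) (fun _ _ _ => trivial) trivial r)
    (Rk.intro hn.1 n2 r)
  obtain ⟨κN, eκ⟩ := lo κ fun z hz => h.ord.rk hz
  have fπ := e.dπ
  have H : ∀ l, E l N → E l (π l) → strH E S κ (π l) N A l π := fun l hl lt =>
    ⟨fun _ _ _ _ => inferInstance, e.tr, lo, fun y hy r => (e.inj (lo _ r).1 hy (lo _ r).2),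
      fun a b ha hb => e.mem_iff ha hb, fun a b ha hb => ⟨c.pr a b ha hb, e.pr (c.pr a b ha hb)⟩,
      fun p a b hp q => let ⟨a', b', q', _⟩ := e.dec hp q; ⟨a', b', q'⟩,
      fun l d f b hl hd hf hb ⟨r, r1, r2⟩ => by
        have hv : ∀ n, E ([A, κ, l, d].getD n f) N := fun n =>
          match n with | 0 => hA | 1 => κN | 2 => hl | 3 => hd | _ + 4 => hf
        have w := (str_tr e.tr').app (W := cl E K) k.hS r2
        obtain ⟨b', b1, q, -, q1, p, -, p1, r3⟩ := (e.trG (fun W v => ∃ b, E b (v 2) ∧ ∃ q ∈ W,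
          IsOPair E q (v 3) b ∧ ∃ p ∈ W, IsOPair E p q (v 4) ∧ At E (v 0) (v 1) (v 2) p) _ hv).2
          ⟨b, hb, _, ((str_tr e.tr').opair (W := cl E K) w.2 (pr_spec _ _)).1, pr_spec _ _, _, w.2,
            pr_spec _ _, show At E (π A) (π κ) (π l) _ by rw [eA, eκ]; exact ⟨r, r1, r2⟩⟩
        rw [pr_eq.1 p1, pr_eq.1 q1] at r3
        exact ⟨b', b1, r3⟩,
      hA, eA, hl, rfl, lt⟩
  have om : IsOrd E m := (e.ord hm).1 (em ▸ oμ)
  have H0 : strH E S κ μ N A m π := em ▸ H m hm (em ▸ sm m hm om)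
  have lt : ∀ {v p}, At E S κ v p → E κ v := fun a =>
    (i.shape _ trivial _ trivial _ trivial a).2.2.1
  obtain ⟨b, ob, b1, b2⟩ : ∃ b, IsOrd E b ∧ E b K ∧ ∀ v, Dom E S κ v → E v b := by
    obtain ⟨β, b1, b2⟩ := k.lim.rk ((k.mem _).1 k.hS)
    refine ⟨β, k.lim.1.mem b1, (k.mem _).2 (k.lim.1.rk b1), fun v ⟨p, q, q1, q2⟩ => ?_⟩
    obtain ⟨s, t, t0, t1, t2⟩ := q1
    exact (((b2.app q2).1.mem ((t2 t).2 (.inr rfl))).mem ((t1 v).2 (.inr rfl))).ord_mem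
      (i.lim _ _ ⟨p, q, ⟨s, t, t0, t1, t2⟩, q2⟩).2
  obtain ⟨o', oo, o1, o2⟩ := ord_min (fun b => ∀ v, Dom E S κ v → E v b) ob b2
  have oK : E o' K := (oo.le_of_not ob fun q => o2 b q b2).elim (e.tr' _ _ b1) fun q => q ▸ b1
  have isO : IsO E S κ o' := fun v => ⟨fun ⟨p, a⟩ => ⟨lt a, o1 v ⟨p, a⟩⟩, fun ⟨a, q⟩ =>
    by_contra fun n => o2 v q fun v' a' => by
      rcases (i.lim _ _ a').2.tri (oo.mem q) with t | rfl | t
      exacts [t, (n a').elim, (n (i.down _ _ _ a' t a)).elim]⟩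
  obtain ⟨o, oN, o3, o4⟩ := (e.tr2 (fun W A κ => ∃ o ∈ W, IsOrd E o ∧ IsO E A κ o) hA κN).2
    ⟨o', oK, oo, by rwa [eA, eκ]⟩
  have same : ∀ v p, E κ v → E v o → (At E A κ v p ↔ At E S κ v p) := fun v p a q => by
    have vN := e.tr _ _ oN q
    have ov := o3.mem q
    rcases ov.tri om with t | t | t
    · exact H0.same i hd hC k.coh k.lk (.inl t) p
    · exact H0.same i hd hC k.coh k.lk (.inr t) p
    · obtain ⟨p', a'⟩ := (o4 v).2 ⟨a, q⟩
      have a2 := ((e.at hA).2 a').2.2.2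
      rw [eA, eκ] at a2
      exact (H v vN (((e.ord vN).2 ov).tr (em ▸ (e.mem_iff hm vN).2 t) (sm v vN ov))).same i
        ⟨_, a2⟩ hC k.coh k.lk (.inr rfl) p
  have dm : ∀ v, E κ v → E v n → E v o := fun v a q => by
    have t := i.top _ _ (i.down _ _ _ hd (oμ.tr n1 q) a)
    obtain ⟨v1, v2⟩ := low v (el.ord_mem (hn.1.mem q)) (hn.1.rk q)
    obtain ⟨t1, t2⟩ := lo (tup E κ) fun z hz => tup_rk h.ia.lim (fun _ => id) hz
    have pN := c.pr _ _ κN t1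
    refine ((o4 v).1 ⟨_, (e.at hA).1 ⟨κN, v1, pN, ?_⟩⟩).2
    rwa [eA, eκ, v2, e.pr pN, eκ, t2]
  refine ⟨fun u v p hu => H0.below i hd hu, o, oN, o3, hn.1.le_of_sub o3 fun v hv => ?_,
    fun v p => ⟨fun a => ?_, fun a => (same v p (lt a.1) a.2).2 a.1⟩⟩
  · obtain ⟨w, w1, w2, w3⟩ := hn.two n2 hv
    exact o3.tr (dm w w2 w1) w3
  · obtain ⟨a1, a2⟩ := (o4 v).1 ⟨p, a⟩
    exact ⟨(same v p a1 a2).1 a, a2⟩

end Pool.Agent.Lib.MP_75a307_lc.LE
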