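import Pool.Agent.Lib.MP_75a307_lc.LE.Str2A
import Pool.Agent.Lib.MP_75a307_lc.LE.Str2B
import Pool.Agent.Lib.MP_75a307_lc.LE.Cm2
import Pool.Agent.Lib.MP_75a307_lc.LE.MoV
import Pool.Agent.Lib.MP_75a307_lc.LE.MoH

/-! Extenders of L[S] whose length is a cardinal and inaccessible in the ultrapower are strong. -/

set_option synthInstance.maxSize 100000
set_option linter.unusedVariables false
set_option linter.unusedSectionVars false

namespace Pool.Agent.Lib.MP_75a307_lc.LE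

open Pool.Agent.Lib.MP_1d770b_lc

universe u
variable {M : Type u} {E : M → M → Prop} [hZ : ZF E]

theorem strong2 (hC : Choice E) {S κ μ F : M} {j : M → M} {W : Set M} (hS : Coh1 E Set.univ S)
    (hV : ∀ x, x ∈ LK E S) (hd : Dom E S κ μ) (hμ : IsCard E μ) (hF : Slice E S κ μ F)
    (h : ExtOf E j W κ μ F) (hi : Inacc E W μ) : VSub E W μ := by
  have e := h.emb.el
  have i : cmpAImg E Set.univ S := cmpA_img hC hS el_id
  have ok := h.emb.ord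
  obtain ⟨F0, -, s1, -, s3⟩ := hS.2.2.2 κ trivial μ trivial hd
  obtain rfl : F0 = F := ext' E fun p => (s1 p).trans (hF p).symm
  have coh := h.coh hC i.shape s3
  have dW := e.dW
  obtain ⟨K, θ, k, μK⟩ := ex_kg hC hS hV μ
  have κK : E κ K := (k.mem _).2 (((k.mem _).1 μK).mem h.len.2.1)
  obtain ⟨G1, g1, rfl, rfl⟩ := sys_of_ext k κK h
  refine fun x hx => ord_ind (fun b => Le E b μ → ∀ x, Rk E x b → x ∈ Wm E K G1) ?_ μ hμ.1
    (Or.inr rfl) x (inV_iff.1 hx)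
  clear hx x
  intro b ob ih le x r
  obtain ⟨β, hβ, rb⟩ := r.elim
  have bμ := le.sub hμ.1 β hβ
  obtain ⟨c, c1, c2, c3⟩ := (e.inacc_lim hi).two h.len.2.1 bμ
  obtain ⟨n, n1, n2, n3⟩ := e.lim_below hC hi c1
  have κn := n3.1.tr n2 c2
  have rx : ∀ z, E z x → Rk E z n := fun z hz => (rb z hz).lt n3.1 (n3.1.tr n2 c3)
  obtain ⟨D, L, m, π, mo, o, en, eA, xN, m1, m2, low, sm⟩ := str2_base k h.emb hμ hi n3 n1 κn
    (fun z hz => ⟨ih β hβ (Or.inl bμ) z (rb z hz), rx z hz⟩) μK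
  have iA := mo.img L o
  obtain ⟨a1, ν, v1, v2, v3, a2⟩ := str2_agree k h.emb hd n3 n1 κn en iA.mem eA m1 m2 low sm
  have κν : E κ ν := v3.sub v2 κ κn
  have νμ := sm ν v1 v2
  obtain ⟨g2, -, -, -, sb, co, -⟩ := c2_right (κ := κ) (l := ν) k g1 v2 κν rfl
  generalize nr2 E K S G1 κ ν = G2 at g2 sb co
  have i2 := cmpA_img hC hS (g2.el hC)
  obtain ⟨ξ, hξ, x1, x2⟩ := ex_next_lim v2
  have lowS : ∀ u v, E u κ → Dom E S u v → E v κ := fun u v a d => i.nov _ _ _ _ d hd a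
  have ag : ∀ u v p, Le E u κ → (At E (D.A L) u v p ↔ At E (jG E K G2 S) u v p) := by
    intro u v p hu
    rw [co u v p hu, coh u v p hu]
    rcases hu with hu | rfl
    · rw [a1 u v p hu]
      exact ⟨fun a => ⟨⟨a, hμ.1.tr h.len.2.1 (lowS u v hu ⟨p, a⟩)⟩, .inl hu⟩, fun a => a.1.1⟩
    · rw [a2 v p]
      exact ⟨fun a => ⟨⟨a.1, hμ.1.tr νμ a.2⟩, .inr a.2⟩,
        fun a => ⟨a.1.1, a.2.resolve_left no1⟩⟩
  have d : ∀ v, E v ν → E κ v → Dom E (D.A L) κ v := fun v a b =>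
    let ⟨p, hp⟩ := i.down _ _ _ hd (hμ.1.tr νμ a) b; ⟨p, (a2 v p).2 ⟨hp, a⟩⟩
  have gap : ∀ u v, E u ξ → Dom E (D.A L) u v ∨ Dom E (jG E K G2 S) u v → Le E u κ :=
    fun u v hu q => (q.elim (cmpA_gap iA ok v2 d hξ x2) (cmpA_gap i2 ok v2 (fun v a b =>
      let ⟨p, hp⟩ := d v a b; ⟨p, (ag _ _ _ (.inr rfl)).1 hp⟩) hξ x2)).resolve_right
        fun q => q.not_lt hu
  have inv : Inv2 E D K S L G2 ξ := by
    refine ⟨o, g2, hξ, (mo.clo L o).nxt en.tr v1 hξ x1 x2, fun u v p q _ _ => ?_,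
      fun η hη => ⟨ν, x1, fun u v hu q => ?_⟩⟩
    · have hu := q.resolve_right fun q => emp_spec _ q.2
      exact ⟨fun a => (ag _ _ _ (gap u v hu (.inl ⟨p, a⟩))).1 a,
        fun a => (ag _ _ _ (gap u v hu (.inr ⟨p, a⟩))).2 a⟩
    · have le := gap u v (hξ.1.tr hη hu) q
      obtain ⟨p, a⟩ : Dom E (D.A L) u v := q.elim id fun ⟨p, a⟩ => ⟨p, (ag _ _ _ le).2 a⟩
      rcases le with le | rfl
      · exact v2.tr κν (lowS u v le ⟨p, (a1 u v p le).1 a⟩)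
      · exact ((a2 v p).1 a).2
  exact sb (cmp2 k mo inv xN fun z hz => (rx z hz).lt hξ.1 (v3.lt hξ.1 x1))

end Pool.Agent.Lib.MP_75a307_lc.LE
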