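import Pool.Agent.Lib.MP_75a307_lc.LE.DirB
import Pool.Agent.Lib.MP_75a307_lc.LE.Str2

/-! A long coherent sequence gives a bad witness in its own model. -/

set_option synthInstance.maxSize 100000
set_option linter.unusedVariables false
set_option linter.unusedSectionVars false

namespace Pool.Agent.Lib.MP_75a307_lc.LE

open Pool.Agent.Lib.MP_1d770b_lc

universe u
variable {M : Type u} {E : M → M → Prop} [hZ : ZF E]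

variable {S κ μ : M}

theorem long_str (hC : Choice E) (hV : ∀ x, x ∈ LK E S) (h : LongI E S κ μ) :
    ∃ j W F, ExtOf E j W κ μ F ∧ Inacc E W μ ∧ VSub E W μ ∧ E μ (j κ) := by
  obtain ⟨hS, hμ, X, p, hp, ha, hX⟩ := h
  obtain ⟨F, j, W, hF, e, c⟩ := hS.ext κ μ ⟨p, ha⟩
  obtain ⟨a, X', k1, -, -, k2⟩ := (e.mem p).1 ((hF p).2 ha)
  obtain ⟨rfl, rfl⟩ := hp.inj k1
  have el := e.emb.el
  obtain ⟨ν, -, n1, n2⟩ := (el.tr2 (fun W S X => ∀ α, E α X → ∃ ν ∈ W, Inacc E W ν ∧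
    IsO E S α ν) S X).1 (fun α hα => let ⟨ν, k⟩ := hX α hα; ⟨ν, trivial, k⟩) κ k2
  have dm (l) (hl : E κ l) (k : E l μ) : Dom E (j S) κ l :=
    let ⟨q, hq⟩ := hS.down κ μ l ⟨p, ha⟩ hl k; ⟨q, (c κ l q (.inr rfl)).2 ⟨hq, .inr k⟩⟩
  have key (l) (hl : E κ l) : E l ν ↔ E l μ := by
    refine ⟨fun k => ?_, fun k => ((n2 l).1 (dm l hl k)).2⟩
    obtain ⟨q, hq⟩ := (n2 l).2 ⟨hl, k⟩
    exact ((c κ l q (.inr rfl)).1 hq).2.resolve_left no1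
  obtain ⟨w, w1, w2⟩ := (e.emb.ia.inacc hC).2.1
  obtain ⟨l, l1, l2⟩ := dirB_suc hμ e.len.2.1 w1 w2
  obtain rfl : ν = μ := by
    rcases n1.1.tri hμ.1 with k | k | k
    exacts [(no1 ((key ν (n1.1.tr ((key l l1).2 l2) l1)).2 k)).elim, k,
      (no1 ((key μ e.len.2.1).1 k)).elim]
  have h1 := (coh_iff hC).1 hS
  refine ⟨j, W, F, e, n1, strong2 hC h1 hV ⟨p, ha⟩ hμ hF e n1, ?_⟩
  have jl : Lim E (j κ) := (el.tr1 (fun _ a => Lim E a) κ).1 e.emb.ia.lim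
  obtain ⟨η, e1, e2⟩ := jl.2 κ e.emb.lt
  obtain ⟨ζ, z1, z2⟩ := (el.tr2 (fun W S κ => ∀ η, E η κ → ∃ ζ, E ζ κ ∧ ∀ u, E u η → ∀ v ∈ W,
    Dom E S u v → E v ζ) S κ).1 (fun η hη => let ⟨ζ, a, b⟩ := h1.bd hC ⟨p, ha⟩ hη
      ⟨ζ, a, fun u k v _ => b u v k⟩) η e1
  have zo := jl.1.mem z1
  have bd (v) (a : E κ v) (b : E v ν) := z2 κ e2 v (el.ord_mem (n1.1.mem b)) (dm v a b)
  refine (n1.1.le_of_sub zo fun v hv => ?_).lt jl.1 z1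
  rcases (n1.1.mem hv).tri (n1.1.mem l2) with k | rfl | k
  exacts [zo.tr (bd l l1 l2) k, bd v l1 l2, bd v ((n1.1.mem hv).tr k l1) hv]

theorem long_bad (hC : Choice E) (hV : ∀ x, x ∈ LK E S) (h : LongI E S κ μ) :
    ∃ m, Bad E κ m := by
  obtain ⟨j, W, F, e, h1, h2, -⟩ := long_str hC hV h
  obtain ⟨s, s1, s2⟩ := e.emb.el.ex_star h1 e.len.2.1
  exact super_bad hC (star_super ⟨j, W, e.emb, s, s2, h2.le h1.1 s1⟩)

theorem long_bad' (hC : Choice E) (hV : ∀ x, x ∈ LK E S) (h : LongI E S κ μ) (s : Sing E μ) :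
    Bad E κ μ := by
  obtain ⟨j, W, F, e, h1, h2, h3⟩ := long_str hC hV h
  obtain ⟨k1, -, k2⟩ := e.emb.extUlt hC h3 h1 h2 fun x hx => by
    obtain ⟨a, t, b, f, a1, -, a2, a3⟩ := e.gen x hx
    exact ⟨a, f, tup_rk (e.emb.el.inacc_lim h1) (fun _ k => k) (tup_iff.1 a1), a2.fn, a3⟩
  exact ⟨e.emb.ia.card, e.len.2.1, s, k2, j, W, k1, h2, h1.2.2.1⟩

theorem dirB2 (hC : Choice E) (h : LongI E S κ μ) :
    ∃ κ' m : LK E S, κ'.1 = κ ∧ Bad (Res E (LK E S)) κ' m := by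
  obtain ⟨hS, hμ, X, p, hp, ha, hX⟩ := h
  obtain ⟨F, j, W, hF, e, -⟩ := hS.ext κ μ ⟨p, ha⟩
  obtain ⟨a, X', k1, -, -, k2⟩ := (e.mem p).1 ((hF p).2 ha)
  obtain ⟨rfl, rfl⟩ := hp.inj k1
  have hN := lk_inn (E := E) S
  have := hN.zf
  obtain ⟨B, wB, hB⟩ := lk_cap (E := E) S
  have c1 := (coh_iff hC).1 hS
  have c2 := c1.down hC hN wB hB
  have wκ := hN.ord e.emb.ord
  have wμ := hN.ord hμ.1
  have dm {α l} (hα : E α κ) : Dom E B α l ↔ Dom E S α l := by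
    refine ⟨fun ⟨q, hq⟩ => ⟨q, ((down_at hN hB).1 hq).1⟩, fun ⟨q, d⟩ => ?_⟩
    have wα := hN.tr _ wκ _ hα
    exact ⟨_, (down_at hN hB).2 ⟨c1.top hC ⟨q, d⟩, wα,
      hN.ord (c1.shape hC _ trivial _ trivial _ trivial d).2.1, hN.pr.2 ⟨wα, hN.tup wα⟩⟩⟩
  obtain ⟨Y, wY, hY⟩ := hN.sep wκ (fun W v => ∃ ν ∈ W, Inacc E W ν ∧ IsO E (v 1) (v 0) ν)
    (fun _ => B) fun _ => wB
  have hj : E κ (j Y) := (e.emb.el.tr3 (fun _ X κ Y => ∀ α, E α X → E α κ → E α Y) X κ Y).1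
    (fun α h1 h2 => let ⟨ν, n1, n2⟩ := hX α h1
      (hY α).2 ⟨h2, ν, hN.ord n1.1, dirB_inacc hC hN n1, fun l => (dm h2).trans (n2 l)⟩)
    κ k2 e.emb.lt
  have aB : At E B κ μ (pr E κ Y) := (down_at hN hB).2 ⟨(hF _).1 ((e.mem _).2
    ⟨κ, Y, pr_spec _ _, tup_iff.2 (sub_tup e.len.2.1),
      fun t ht => tup_iff.2 (sub_tup ((hY t).1 ht).1), hj⟩), wκ, wμ, hN.pr.2 ⟨wκ, wY⟩⟩
  have eq : LK E B = LK E S := lk_congr fun t _ k => (hB t).trans (and_iff_left k)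
  let B' : LK E S := ⟨B, wB⟩
  let κ' : LK E S := ⟨κ, wκ⟩
  let μ' : LK E S := ⟨μ, wμ⟩
  let Y' : LK E S := ⟨Y, wY⟩
  let p' : LK E S := ⟨_, hN.pr.2 ⟨wκ, wY⟩⟩
  obtain ⟨m, hm⟩ := long_bad (E := Res E (LK E S)) hN.ac (S := B') (κ := κ') (μ := μ')
    (fun x => (hN.lk_res B' x).2 (eq.symm.subset x.2))
    ⟨(coh_iff hN.ac).2 ((bridge_r4 hN (fun _ E W a _ _ _ => Coh1 E W a) B' B' B' B').1 c2),
      ⟨(bridge_r4 hN (fun _ E _ a _ _ _ => IsOrd E a) μ' μ' μ' μ').1 hμ.1, fun α hα ⟨f, hf⟩ =>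
        hμ.2 α.1 hα ⟨f.1, (bridge_r4 hN (fun _ E _ f a b _ => Func E f a b ∧ OneOne E f ∧
          ∀ y, E y b → ∃ x, App E f x y) f μ' α α).2 hf⟩⟩, Y', p',
      (bridge_r4 hN (fun _ E _ p a b _ => IsOPair E p a b) p' κ' Y' Y').1 (pr_spec _ _),
      (bridge_r4 hN (fun _ E _ S a b c => At E S a b c) B' κ' μ' p').1 aB, fun α hα =>
        let ⟨ν, _, k⟩ := (bridge_r4 hN (fun _ E W S α _ _ => ∃ ν ∈ W, Inacc E W ν ∧ IsO E S α ν)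
          B' α α α).1 ((hY α.1).1 hα).2
        ⟨ν, k⟩⟩
  exact ⟨κ', m, rfl, hm⟩

end Pool.Agent.Lib.MP_75a307_lc.LE
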