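import Pool.Agent.Lib.MP_75a307_lc.LE.Com

/-! A cohering extender is on the sequence. -/

set_option synthInstance.maxSize 100000
set_option linter.unusedVariables false
set_option linter.unusedSectionVars false

namespace Pool.Agent.Lib.MP_75a307_lc.LE

open Pool.Agent.Lib.MP_1d770b_lc

universe u
variable {M : Type u} {E : M → M → Prop} [hZ : ZF E]

theorem uq_slice (S κ l : M) : ∃ B, Slice E S κ l B := by
  obtain ⟨d, hd⟩ := ex_fld E S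
  obtain ⟨B, hB⟩ := sep E d fun p => At E S κ l p
  exact ⟨B, fun p => (hB p).trans ⟨fun h => h.2, fun ⟨q, h1, h2⟩ => ⟨(hd _ _ h2).2, q, h1, h2⟩⟩⟩

theorem uq_agree {W W' : Set M} {A A' κ l : M} (h : Agree E W W' A A' κ l) :
    Agree E W' W A' A κ l := fun κ' l' p k h1 h2 => (h κ' l' p k h2 h1).symm

section
variable {j : M → M} {W : Set M} {S κ l p B : M}

theorem uq_at (hC : Choice E) (hS : Coh1 E Set.univ S) (e : El E j W) (h : At E (j S) κ l p) :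
    l ∈ W ∧ p ∈ W ∧ Lim E κ ∧ IsOrd E l ∧ E κ l ∧
      ∃ a X, IsOPair E p a X ∧ E a (tup E l) ∧ Sub E X (tup E κ) := by
  have sh := (e.tr1 (fun W S => Shape E W S) S).1 (hS.shape hC)
  obtain ⟨q, h1, h2⟩ := h
  obtain ⟨k1, k2⟩ := e.trans.app (e.maps S) h2
  obtain ⟨k3, k4⟩ := e.trans.opair k1 h1
  obtain ⟨s1, s2, s3, a, X, s4, ⟨t, -, t1, t2⟩, t', -, t3, t4⟩ := sh κ k3 l k4 p k2 ⟨q, h1, h2⟩
  exact ⟨k4, k2, s1, s2, s3, a, X, s4, t1.eq ▸ t2, t3.eq ▸ t4⟩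

theorem uq_side (hC : Choice E) (hS : Coh1 E Set.univ S) (e : El E j W)
    (hB : Slice E (j S) κ l B) : Side E W (j S) κ l B := by
  by_cases d : Dom E (j S) κ l
  · obtain ⟨p, hp⟩ := d
    obtain ⟨k1, -, k3, -⟩ := uq_at hC hS e hp
    obtain ⟨F, f1, f2, f3, f4⟩ := ((e.tr1 (fun W S => Coh1 E W S) S).1 hS).2.2.2 κ
      (e.ord_mem k3.1) l k1 ⟨p, hp⟩
    obtain rfl : F = B := ext' E fun z => (f2 z).trans (hB z).symm
    exact Or.inr ⟨f1, ⟨p, hp⟩, f3, f4⟩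
  · exact Or.inl ⟨fun p hp => d ⟨p, (hB p).1 hp⟩, d⟩

end

variable (E) in
/-- the standing hypotheses: a minimal model with a cohering extender off the sequence -/
structure UqH (φ : Fm) (K S θ κ₀ l₀ F : M) : Prop where
  hC : Choice E
  hθ : Lim E θ
  hK : ∀ x, E x K ↔ Rk E x θ
  hSK : E S K
  hκ : E κ₀ K
  hS : Coh1 E Set.univ S
  hV : ∀ x, x ∈ LK E S
  hm : Min E Set.univ φ S
  dom : Dom E S κ₀ l₀
  ext : Ext1 E Set.univ κ₀ l₀ F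
  coh : CohAt E Set.univ S κ₀ l₀ F
  ns : ¬ Slice E S κ₀ l₀ F

variable (E) in
/-- the two images of `S` disagree at `(κ, l)` -/
def UqD (K S G G' κ l : M) : Prop :=
  ∃ q, q ∈ Wm E K G ∧ q ∈ Wm E K G' ∧ ¬ (At E (jG E K G S) κ l q ↔ At E (jG E K G' S) κ l q)

variable (E) in
def UqP (K κ₀ l₀ G κ l : M) : Prop := κ = jG E K G κ₀ ∧ l = jG E K G l₀

section
variable (K S κ₀ l₀ : M) (a b c d : (ℕ → M) → M) [IsT a] [IsT b] [IsT c] [IsT d]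
instance : Df E fun v => UqD E K S (a v) (b v) (c v) (d v) := by unfold UqD; infer_instance
instance : Df E fun v => UqP E K κ₀ l₀ (a v) (b v) (c v) := by unfold UqP; infer_instance
end

variable (E) in
def UqC (K S κ₀ l₀ G G' κ l : M) : Prop :=
  IsOrd E κ ∧ IsOrd E l ∧ (UqD E K S G G' κ l ∨ UqP E K κ₀ l₀ G κ l ∨ UqP E K κ₀ l₀ G' κ l)

instance (K S κ₀ l₀ : M) (a b c d : (ℕ → M) → M) [IsT a] [IsT b] [IsT c] [IsT d] :
    Df E fun v => UqC E K S κ₀ l₀ (a v) (b v) (c v) (d v) := by unfold UqC; infer_instance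

variable (E) in
/-- the least candidate -/
def UqL (K S κ₀ l₀ G G' κ l : M) : Prop :=
  UqC E K S κ₀ l₀ G G' κ l ∧
    ∀ κ' l', E κ' κ ∨ (κ' = κ ∧ E l' l) → ¬ UqC E K S κ₀ l₀ G G' κ' l'

instance (K S κ₀ l₀ : M) (a b c d : (ℕ → M) → M) [IsT a] [IsT b] [IsT c] [IsT d] :
    Df E fun v => UqL E K S κ₀ l₀ (a v) (b v) (c v) (d v) := by unfold UqL; infer_instance

variable (E) in
/-- the move -/
def UqM (K S κ₀ l₀ F G G' m : M) : Prop :=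
  ∃ κ l B B', UqL E K S κ₀ l₀ G G' κ l ∧ (∀ p, E p B ↔ At E (jG E K G S) κ l p) ∧
    (∀ p, E p B' ↔ At E (jG E K G' S) κ l p) ∧
    ((UqD E K S G G' κ l ∧ m = pr E (pr E κ l) (pr E B B')) ∨
      (¬ UqD E K S G G' κ l ∧ UqP E K κ₀ l₀ G κ l ∧ m = pr E (pr E κ l) (pr E (jG E K G F) B')) ∨
      (¬ UqD E K S G G' κ l ∧ ¬ UqP E K κ₀ l₀ G κ l ∧
        m = pr E (pr E κ l) (pr E B (jG E K G' F))))

variable {φ : Fm} {K S θ κ₀ l₀ F G G' G1 ξ ξ' κ l X : M}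

theorem uq_uniq {κ' l' : M} (h : UqL E K S κ₀ l₀ G G' κ l) (h' : UqL E K S κ₀ l₀ G G' κ' l') :
    κ = κ' ∧ l = l' := by
  obtain rfl : κ = κ' := by
    rcases h.1.1.tri h'.1.1 with o | o | o
    · exact (h'.2 κ l (Or.inl o) h.1).elim
    · exact o
    · exact (h.2 κ' l' (Or.inl o) h'.1).elim
  refine ⟨rfl, ?_⟩
  rcases h.1.2.1.tri h'.1.2.1 with o | o | o
  · exact (h'.2 κ l (Or.inr ⟨rfl, o⟩) h.1).elim
  · exact o
  · exact (h.2 κ l' (Or.inr ⟨rfl, o⟩) h'.1).elim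

theorem uq_fn {m m' : M} (h : UqM E K S κ₀ l₀ F G G' m) (h' : UqM E K S κ₀ l₀ F G G' m') :
    m = m' := by
  obtain ⟨κ, l, B, B', h1, h2, h3, h4⟩ := h
  obtain ⟨κ', l', C, C', k1, k2, k3, k4⟩ := h'
  obtain ⟨rfl, rfl⟩ := uq_uniq h1 k1
  obtain rfl : B = C := ext' E fun z => (h2 z).trans (k2 z).symm
  obtain rfl : B' = C' := ext' E fun z => (h3 z).trans (k3 z).symm
  rcases h4 with ⟨a, rfl⟩ | ⟨a, b, rfl⟩ | ⟨a, b, rfl⟩ <;>
    rcases k4 with ⟨c, rfl⟩ | ⟨c, d, rfl⟩ | ⟨c, d, rfl⟩ <;> first | rfl | contradiction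

theorem uq_least (h : UqC E K S κ₀ l₀ G G' κ l) : ∃ κ l, UqL E K S κ₀ l₀ G G' κ l := by
  obtain ⟨κ, -, ⟨l, h1⟩, h2⟩ := ord_min (fun κ => ∃ l, UqC E K S κ₀ l₀ G G' κ l) h.1 ⟨l, h⟩
  obtain ⟨l, -, h3, h4⟩ := ord_min (fun l => UqC E K S κ₀ l₀ G G' κ l) h1.2.1 h1
  refine ⟨κ, l, h3, ?_⟩
  rintro κ' l' (o | ⟨rfl, o⟩) k
  exacts [h2 κ' o ⟨l', k⟩, h4 l' o k]

namespace UqH
variable (h : UqH E φ K S θ κ₀ l₀ F)
include h

theorem domj (g : Sys E K G) : Dom E (jG E K G S) (jG E K G κ₀) (jG E K G l₀) :=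
  ((g.el h.hC).tr3 (fun _ S κ l => Dom E S κ l) S κ₀ l₀).1 h.dom

theorem sidej (g : Sys E K G) :
    Side E (Wm E K G) (jG E K G S) (jG E K G κ₀) (jG E K G l₀) (jG E K G F) :=
  Or.inr ⟨(g.el h.hC).maps F, h.domj g,
    ((g.el h.hC).tr3 (fun W κ l F => Ext1 E W κ l F) κ₀ l₀ F).1 h.ext,
    ((g.el h.hC).tr4 (fun W S κ l F => CohAt E W S κ l F) S κ₀ l₀ F).1 h.coh⟩

theorem ords (g : Sys E K G) :
    Lim E (jG E K G κ₀) ∧ IsOrd E (jG E K G l₀) ∧ E (jG E K G κ₀) (jG E K G l₀) :=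
  let ⟨_, hp⟩ := h.domj g
  let ⟨_, _, k1, k2, k3, _⟩ := uq_at h.hC h.hS (g.el h.hC) hp
  ⟨k1, k2, k3⟩

theorem inK (g : Sys E K G) (k : Le E κ (jG E K G κ₀)) : E κ (jG E K G K) := by
  have e := g.el h.hC
  have a := (e.mem_V h.hK (e.maps κ₀)).1 (e.mem_iff.2 h.hκ)
  refine (e.mem_V h.hK (e.ord_mem (k.ord (h.ords g).1.1))).2 ?_
  rcases k with k | rfl
  exacts [a.mem k, a]

/-- the image of `F` differs from the extender on the sequence at a common point -/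
theorem diff (g : Sys E K G) (g' : Sys E K G') (a : Agree E (Wm E K G) (Wm E K G') (jG E K G S)
    (jG E K G' S) (jG E K G κ₀) (jG E K G l₀)) : ∃ q, q ∈ Wm E K G ∧ q ∈ Wm E K G' ∧
      ¬ (E q (jG E K G F) ↔ At E (jG E K G S) (jG E K G κ₀) (jG E K G l₀) q) := by
  have e := g.el h.hC
  obtain ⟨o1, o2, o3⟩ := h.ords g
  have ns : ¬ Slice E (jG E K G S) (jG E K G κ₀) (jG E K G l₀) (jG E K G F) := fun k =>
    h.ns ((e.tr4 (fun _ S κ l F => Slice E S κ l F) S κ₀ l₀ F).2 k)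
  obtain ⟨q, hq⟩ := not_forall.1 ns
  have sh : q ∈ Wm E K G ∧ ∃ a X, IsOPair E q a X ∧ E a (tup E (jG E K G l₀)) ∧
      Sub E X (tup E (jG E K G κ₀)) := by
    by_cases c : E q (jG E K G F)
    · obtain ⟨-, -, -, t, -, t', -, t1, t2, t3, -⟩ :=
        (e.tr3 (fun W κ l F => Ext1 E W κ l F) κ₀ l₀ F).1 h.ext
      obtain ⟨a, X, k1, k2, k3⟩ := t3 q c
      exact ⟨e.trans _ (e.maps F) q c, a, X, k1, t2.eq ▸ k2, t1.eq ▸ k3⟩
    · obtain ⟨-, k1, -, -, -, k2⟩ := uq_at h.hC h.hS e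
        (by_contra fun k => hq ⟨fun x => (c x).elim, fun x => (k x).elim⟩)
      exact ⟨k1, k2⟩
  obtain ⟨qW, b, X, k1, k2, k3⟩ := sh
  have bd := (e.tr2 (fun W S κ => ∀ η, E η κ → ∃ ζ, E ζ κ ∧ ∀ u, E u η → ∀ v ∈ W,
    Dom E S u v → E v ζ) S κ₀).1 fun η hη =>
      let ⟨ζ, z1, z2⟩ := h.hS.bd h.hC h.dom hη; ⟨ζ, z1, fun u hu v _ d => z2 u v hu d⟩
  have inv : Inv E K S G G' (jG E K G κ₀) := ⟨g, g', o1, fun κ' l' p k =>
    a κ' l' p (k.imp_right fun k => (emp_spec _ k.2).elim), fun η hη =>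
      let ⟨ζ, z1, z2⟩ := bd η hη
      ⟨ζ, z1, fun u v hu ⟨p, d⟩ => z2 u hu v (uq_at h.hC h.hS e d).1 ⟨p, d⟩⟩⟩
  have i' := g'.inn h.hC
  refine ⟨q, qW, ?_, hq⟩
  rw [pr_eq.1 k1, i'.pr]
  exact ⟨i'.tr _ (i'.tup (i'.ord o2)) b k2, (com h.hC h.hθ h.hK h.hSK h.hS h.hV h.hm inv X
    fun z hz => tup_rk o1 (fun _ x => x) (k3 z hz)).1 (e.trans.opair qW k1).2⟩

theorem mono (g : Sys E K G) (g1 : Sys E K G1) (s : Sub E G G1) {α : M} (ho : IsOrd E α) :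
    Le E (jG E K G α) (jG E K G1 α) := by
  obtain ⟨f1, f2, -⟩ := g.fac h.hC g1 s
  rw [← f2 α]
  exact f1.le_map ((g.el h.hC).ord ho)

theorem le (g : Sys E K G) (ho : IsOrd E κ)
    (k : ¬ (E (jG E K G κ₀) κ ∨ (jG E K G κ₀ = κ ∧ E (jG E K G l₀) l))) : Le E κ (jG E K G κ₀) :=
  ho.le_of_not (h.ords g).1.1 fun c => k (Or.inl c)

/-- after a move below the image of `(κ₀, l₀)` the image of `κ₀` is above the next limit -/
theorem next (g : Sys E K G) (ho : IsOrd E κ) (hl : IsOrd E l) (lt : E κ l)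
    (k : ¬ (E (jG E K G κ₀) κ ∨ (jG E K G κ₀ = κ ∧ E (jG E K G l₀) l)))
    (s : Side E (Wm E K G) (jG E K G S) κ l X)
    (gap : ∀ u v, Dom E (jG E K (nxt E K G (pr E κ l) X) S) u v → Le E u κ ∨ Le E ξ' u) :
    Sub E ξ' (jG E K (nxt E K G (pr E κ l) X) κ₀) := by
  have le := h.le g ho k
  obtain ⟨g1, s1, -, -, -, s2, -⟩ := side_step h.hC h.hθ h.hK h.hS g hl lt (h.inK g le) s rfl
  obtain ⟨o1, o2, -⟩ := h.ords g1
  obtain ⟨p, hp⟩ := h.domj g1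
  refine ((gap _ _ ⟨p, hp⟩).resolve_left fun c => ?_).sub o1.1
  have m1 := h.mono g g1 s1 h.ext.1
  have e1 : jG E K G κ₀ = κ := ((m1.trans c ho).resolve_left le.not_lt)
  rcases ((s2 _ _ p c).1 hp).2 with d | d
  · exact m1.not_lt (e1 ▸ d)
  · exact k (Or.inr ⟨e1, (h.mono g g1 s1 h.ext.2.1).lt hl d⟩)

theorem move (i : Inv E K S G G' ξ) (hJ : ∀ η, E η ξ → E η (jG E K G κ₀) ∧ E η (jG E K G' κ₀)) :
    ∃ κ l X X', UqM E K S κ₀ l₀ F G G' (pr E (pr E κ l) (pr E X X')) ∧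
      Legit E K S G G' ξ κ l X X' ∧ UqL E K S κ₀ l₀ G G' κ l := by
  obtain ⟨g, g', i1, i2, -⟩ := i
  have e := g.el h.hC
  have e' := g'.el h.hC
  have c : UqC E K S κ₀ l₀ G G' _ _ := ⟨(h.ords g).1.1, (h.ords g).2.1, Or.inr (Or.inl ⟨rfl, rfl⟩)⟩
  have c' : UqC E K S κ₀ l₀ G G' _ _ :=
    ⟨(h.ords g').1.1, (h.ords g').2.1, Or.inr (Or.inr ⟨rfl, rfl⟩)⟩
  obtain ⟨κ, l, L⟩ := uq_least c
  obtain ⟨B, hB⟩ := uq_slice (E := E) (jG E K G S) κ l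
  obtain ⟨B', hB'⟩ := uq_slice (E := E) (jG E K G' S) κ l
  have sB := uq_side h.hC h.hS e hB
  have sB' := uq_side h.hC h.hS e' hB'
  have sh : ∀ κ' l', UqD E K S G G' κ' l' → IsOrd E κ' ∧ IsOrd E l' ∧ E κ' l' := by
    rintro κ' l' ⟨q, -, -, k⟩
    by_cases d : At E (jG E K G S) κ' l' q
    · obtain ⟨-, -, k1, k2, k3, -⟩ := uq_at h.hC h.hS e d
      exact ⟨k1.1, k2, k3⟩
    · obtain ⟨-, -, k1, k2, k3, -⟩ := uq_at h.hC h.hS e'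
        (by_contra fun x => k ⟨fun y => (d y).elim, fun y => (x y).elim⟩)
      exact ⟨k1.1, k2, k3⟩
  have ag : Agree E (Wm E K G) (Wm E K G') (jG E K G S) (jG E K G' S) κ l :=
    fun κ' l' p k p1 p2 => by_contra fun x =>
      L.2 κ' l' k ⟨(sh κ' l' ⟨p, p1, p2, x⟩).1, (sh κ' l' ⟨p, p1, p2, x⟩).2.1, Or.inl ⟨p, p1, p2, x⟩⟩
  have mk : ∀ X X', Le E ξ κ → E κ l → Side E (Wm E K G) (jG E K G S) κ l X →
      Side E (Wm E K G') (jG E K G' S) κ l X' →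
      (∃ p, p ∈ Wm E K G ∧ p ∈ Wm E K G' ∧ ¬ (E p X ↔ E p X')) → Legit E K S G G' ξ κ l X X' :=
    fun X X' k1 k2 k3 k4 k5 => ⟨k1, L.1.2.1, k2, h.inK g (h.le g L.1.1 fun x => L.2 _ _ x c),
      h.inK g' (h.le g' L.1.1 fun x => L.2 _ _ x c'), ag, k3, k4, by
        obtain ⟨p, -, -, k⟩ := k5
        by_contra x
        rw [not_or, not_not, not_not] at x
        exact k ⟨fun y => (x.1 p y).elim, fun y => (x.2 p y).elim⟩, fun _ _ => k5⟩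
  by_cases d : UqD E K S G G' κ l
  · obtain ⟨q, q1, q2, q3⟩ := id d
    exact ⟨κ, l, B, B', ⟨κ, l, B, B', L, hB, hB', Or.inl ⟨d, rfl⟩⟩,
      mk B B' (i1.1.le_of_not L.1.1 fun x => q3 (i2 κ l q (Or.inl x) q1 q2)) (sh κ l d).2.2 sB sB'
        ⟨q, q1, q2, by rwa [hB q, hB' q]⟩, L⟩
  by_cases P : UqP E K κ₀ l₀ G κ l
  · obtain ⟨rfl, rfl⟩ := id P
    obtain ⟨q, q1, q2, q3⟩ := h.diff g g' ag
    exact ⟨_, _, _, B', ⟨_, _, B, B', L, hB, hB', Or.inr (Or.inl ⟨d, P, rfl⟩)⟩,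
      mk _ B' (i1.1.le_of_sub L.1.1 fun η hη => (hJ η hη).1) (h.ords g).2.2 (h.sidej g) sB'
        ⟨q, q1, q2, fun x => d ⟨q, q1, q2, fun y => q3 (x.trans ((hB' q).trans y.symm))⟩⟩, L⟩
  · obtain ⟨rfl, rfl⟩ := (L.1.2.2.resolve_left d).resolve_left P
    obtain ⟨q, q1, q2, q3⟩ := h.diff g' g (uq_agree ag)
    exact ⟨_, _, B, _, ⟨_, _, B, B', L, hB, hB', Or.inr (Or.inr ⟨d, P, rfl⟩)⟩,
      mk B _ (i1.1.le_of_sub L.1.1 fun η hη => (hJ η hη).2) (h.ords g').2.2 sB (h.sidej g')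
        ⟨q, q2, q1, fun x => d ⟨q, q2, q1, fun y => q3 (x.symm.trans ((hB q).trans y))⟩⟩, L⟩

theorem false : False := by
  obtain ⟨G0, g0, -⟩ := sys_base h.hC (fun a b ha hb => (h.hK _).2
    (h.hθ.opair ((h.hK a).1 ha) ((h.hK b).1 hb) (pr_spec a b))) ⟨S, h.hSK⟩
  have em := emp_spec (E := E)
  obtain ⟨-, -, -, -, -, -, -, -, k⟩ := cmp h.hC h.hθ h.hK h.hS (UqM E K S κ₀ l₀ F)
    (fun _ _ _ _ _ _ => by unfold UqM; infer_instance) (fun _ _ _ _ => uq_fn) (fun _ _ => False)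
    (fun G G' η => E η (jG E K G κ₀) ∧ E η (jG E K G' κ₀)) (fun _ _ _ _ _ _ => inferInstance)
    (fun G G' G1 G1' η g g' g1 g1' s s' k =>
      ⟨(h.mono g g1 s h.ext.1).sub (h.ords g1).1.1 η k.1,
        (h.mono g' g1' s' h.ext.1).sub (h.ords g1').1.1 η k.2⟩)
    (fun G G' ξ i hJ => by
      obtain ⟨κ, l, X, X', m1, m2, L⟩ := h.move i hJ
      refine Or.inr ⟨κ, l, X, X', m1, m2, fun ξ' x1 x2 x3 η hη => ⟨?_, ?_⟩⟩
      · exact h.next i.1 L.1.1 m2.ord m2.lt (fun x => L.2 _ _ x ⟨(h.ords i.1).1.1,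
          (h.ords i.1).2.1, Or.inr (Or.inl ⟨rfl, rfl⟩)⟩) m2.left (fun u v d =>
            step_gap h.hC h.hθ h.hK h.hS i m2 x1 x2 x3 (Or.inl d)) η hη
      · exact h.next i.2.1 L.1.1 m2.ord m2.lt (fun x => L.2 _ _ x ⟨(h.ords i.2.1).1.1,
          (h.ords i.2.1).2.1, Or.inr (Or.inr ⟨rfl, rfl⟩)⟩) m2.right (fun u v d =>
            step_gap h.hC h.hθ h.hK h.hS i m2 x1 x2 x3 (Or.inr d)) η hη)
    (G0 := G0) (G0' := G0) (ξ0 := emp E)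
    ⟨g0, g0, ⟨em.ord, fun α hα => (em α hα).elim⟩, fun _ _ _ _ _ _ => Iff.rfl,
      fun η hη => (em η hη).elim⟩ fun η hη => (em η hη).elim
  exact k

end UqH

theorem uq_min {φ : Fm} (hC : Choice E) {S : M} (hS : Coh1 E Set.univ S) (hV : ∀ x, x ∈ LK E S)
    (hm : Min E Set.univ φ S) : U1 E Set.univ S := by
  intro κ _ l _ F _ d e c
  by_contra ns
  obtain ⟨α, hα⟩ := ex_rk E S
  obtain ⟨β, hβ⟩ := ex_rk E κ
  obtain ⟨γ, g1, g2, g3⟩ := ord_bound2 hα.ord hβ.ord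
  obtain ⟨θ, t1, t2, -⟩ := ex_next_lim g1
  obtain ⟨K, hK⟩ := ex_V t1.1
  exact UqH.false ⟨hC, t1, hK, (hK S).2 ((hα.lt g1 g2).lt t1.1 t2),
    (hK κ).2 ((hβ.lt g1 g3).lt t1.1 t2), hS, hV, hm, d, e, c, ns⟩

theorem u1 (hC : Choice E) {S : M} (hS : Coh1 E Set.univ S) (hV : ∀ x, x ∈ LK E S) :
    U1 E Set.univ S := by
  obtain ⟨φ, hφ⟩ := (inferInstance : UR.{u} fun _ E W v => ¬ U1 E W (v 0)).out
  by_contra k
  refine no_min φ (fun N E' z hC' S' hS' hV' hm => ?_) hC hS hV ((satW_univ φ _).1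
    ((hφ M E hZ _ good_univ tr_univ (fun _ => S) fun _ => trivial).2 k))
  exact (hφ N E' z _ good_univ tr_univ (fun _ => S') fun _ => trivial).1 hm.1
    (uq_min hC' hS' hV' hm)

end Pool.Agent.Lib.MP_75a307_lc.LE
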