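import Pool.Agent.Lib.MP_75a307_lc.LE.NoOv
import Pool.Agent.Lib.MP_75a307_lc.LE.DirC

/-! An embedding whose target has no extender of length `ν` at `κ` makes `S` long. -/

set_option synthInstance.maxSize 100000
set_option linter.unusedVariables false
set_option linter.unusedSectionVars false

namespace Pool.Agent.Lib.MP_75a307_lc.LE

open Pool.Agent.Lib.MP_1d770b_lc

universe u
variable {M : Type u} {E : M → M → Prop} [hZ : ZF E]

section
variable {j : M → M} {W : Set M} {κ ν S F l u v p : M}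

/-- the data: an embedding, bounded lengths below the critical point, no extender of length `ν` -/
structure DirC2 (E : M → M → Prop) (j : M → M) (W : Set M) (κ ν S : M) : Prop where
  ac : Choice E
  emb : ElEmb E j W κ
  lt : E κ ν
  le : Sub E ν (j κ)
  hi : Inacc E W ν
  vs : VSub E W ν
  coh : Coh1 E Set.univ S
  lk : ∀ x, x ∈ LK E S
  top : ¬ Dom E (j S) κ ν
  no : ∀ u, E u κ → ∃ ζ, E ζ κ ∧ ∀ v, Dom E S u v → E v ζ

namespace DirC2

variable (h : DirC2 E j W κ ν S)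
include h

theorem lim : Lim E ν := h.emb.el.inacc_lim h.hi

theorem inn : Inn E W := h.emb.el.inn h.ac

theorem iS : cmpAImg E Set.univ S := cmpA_img h.ac h.coh el_id

theorem iA : cmpAImg E W (j S) := cmpA_img h.ac h.coh h.emb.el

theorem memW (k : At E (j S) u v p) : u ∈ W ∧ v ∈ W ∧ p ∈ W :=
  dirC_at h.emb.trans (h.emb.maps S) k

theorem ltA (k : At E (j S) u v p) : E u v :=
  (h.iA.shape u (h.memW k).1 v (h.memW k).2.1 p (h.memW k).2.2 k).2.2.1

theorem ltS (k : At E S u v p) : E u v := (h.iS.shape u trivial v trivial p trivial k).2.2.1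

theorem oA (u v p : M) (k : At E (j S) u v p) : IsOrd E u := (h.iA.lim _ _ ⟨p, k⟩).1.1

theorem oS (u v p : M) (k : At E S u v p) : IsOrd E u := (h.iS.lim _ _ ⟨p, k⟩).1.1

theorem novA (hu : E u κ) (k : Dom E (j S) u v) : E v κ := by
  obtain ⟨ζ, h1, h2⟩ := h.no u hu
  have n := (h.emb.el.tr3 (fun W S u ζ => ∀ v ∈ W, Dom E S u v → E v ζ) S u ζ).1
    fun v _ m => h2 v m
  rw [h.emb.fix u hu, h.emb.fix ζ h1] at n
  obtain ⟨p, k'⟩ := k
  exact h.emb.ord.tr h1 (n v (h.memW k').2.1 ⟨p, k'⟩)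

theorem novS (hu : E u κ) (k : Dom E S u v) : E v κ :=
  let ⟨_, h1, h2⟩ := h.no u hu
  h.emb.ord.tr h1 (h2 v k)

theorem bd (k : Dom E (j S) κ v) : E v ν := by
  rcases (h.iA.lim _ _ k).2.tri h.hi.1 with m | rfl | m
  · exact m
  · exact (h.top k).elim
  · exact (h.top (h.iA.down _ _ _ k m h.lt)).elim

theorem low (hu : E u κ) : At E (j S) u v p ↔ At E S u v p := by
  have hl := h.emb.ia.lim
  have key : E v κ → Rk E p κ → (At E (j S) u v p ↔ At E S u v p) := fun hv r => by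
    have := h.emb.el.tr4 (fun _ A u v p => At E A u v p) S u v p
    rw [h.emb.fix u hu, h.emb.fix v hv, h.emb.fixV r] at this
    exact this.symm
  refine ⟨fun k => ?_, fun k => ?_⟩
  · have hv := h.novA hu ⟨p, k⟩
    exact (key hv (h.iA.rk _ _ _ _ k hl hu hv)).1 k
  · have hv := h.novS hu ⟨p, k⟩
    exact (key hv (h.iS.rk _ _ _ _ k hl hu hv)).2 k

theorem atjA (hu : Le E u κ) : At E (j (j S)) u v p ↔ At E (j S) u v p := by
  have e := h.emb.el
  have k := (e.tr3 (fun W κ A S => ∀ u, E u κ → ∀ v ∈ W, ∀ p ∈ W, (At E A u v p ↔ At E S u v p))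
    κ (j S) S).1 (fun u m v _ p _ => h.low m) u (hu.lt (e.ord h.emb.ord) h.emb.lt)
  refine ⟨fun m => ?_, fun m => (k v (h.memW m).2.1 p (h.memW m).2.2).2 m⟩
  have w := dirC_at e.trans (e.maps _) m
  exact (k v w.2.1 p w.2.2).1 m

theorem sub (h2 : Le E l ν) : Sub E l (j κ) := fun z hz =>
  h.le z (h2.elim (fun m => h.hi.1.tr m hz) fun e => e ▸ hz)

theorem full (h1 : E κ v) (h2 : E v ν) : Dom E (j S) κ v := by
  have e := h.emb.el
  refine ord_ind (fun v => E κ v → E v ν → Dom E (j S) κ v) (fun b ho ih h1 h2 => ?_) v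
    (h.lim.1.mem h2) h1 h2
  by_contra hn
  obtain ⟨F, hF⟩ := dirC_der e κ b
  have k1 := ext1_der h.ac h.emb ho h1 (h.sub (Or.inl h2)) hF
  have k2 : CohAt E Set.univ (j S) κ b F := cohAt_der h.ac h.emb ho h1 (h.sub (Or.inl h2)) hF
    (fun u v m n => h.novA m n) fun u v p m => (h.atjA m).trans (and_iff_left_of_imp fun n => by
      rcases m with m | rfl
      · exact ho.tr h1 (h.novA m ⟨p, n⟩)
      · rcases (h.iA.lim _ _ ⟨p, n⟩).2.tri ho with o | rfl | o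
        · exact o
        · exact (hn ⟨p, n⟩).elim
        · exact (hn (h.iA.down _ _ _ ⟨p, n⟩ o h1)).elim).symm
  obtain ⟨ξ, x1, x2, x3⟩ := e.lim_below h.ac h.hi h2
  obtain ⟨β, b1, b2⟩ := h.lim.2 ξ x1
  have bo := h.lim.1.mem b1
  have hFW : F ∈ W := h.vs.mem (h.lim.rel b1 fun p hp =>
    let ⟨a, X, p1, p2, p3, _⟩ := (hF p).1 hp
    ⟨a, X, p1, (tup_rk x3 (fun z => x3.1.tr x2) p2).lt bo b2, Rk.intro bo b2 fun z hz =>
      tup_rk x3 (fun z => x3.1.tr (x3.1.tr x2 h1)) (p3 z hz)⟩)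
  have hd : ∀ p, E p F ↔ E p F ∧ p ∈ W := fun p => ⟨fun m => ⟨m, e.trans F hFW p m⟩, fun m => m.1⟩
  exact hn ((e.tr1 (fun W S => M1 E W S) S).1 (m1 h.ac h.coh h.lk) κ (e.ord_mem h.emb.ord) b
    (e.ord_mem ho) F hFW (fun v m n => ih v m n (h.lim.1.tr h2 m)) (k1.down h.ac h.inn hFW hd)
    (CohAt.down h.ac h.inn hFW hd (e.maps S) k1 h.oA h.oA (fun _ _ _ _ _ => Iff.rfl) k2))

theorem same (h2 : E v ν) (p : M) : At E S κ v p ↔ At E (j S) κ v p := by
  have e := h.emb.el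
  refine ord_ind (fun v => E v ν → ∀ p, (At E S κ v p ↔ At E (j S) κ v p))
    (fun b ho ih h2 p => ?_) v (h.lim.1.mem h2) h2 p
  by_cases h1 : E κ b
  swap
  · exact iff_of_false (fun k => h1 (h.ltS k)) fun k => h1 (h.ltA k)
  have d := h.full h1 h2
  obtain ⟨G, -, g1, g2, g3⟩ := ((e.tr1 (fun W S => Coh1 E W S) S).1 h.coh).2.2.2 κ
    (e.ord_mem h.emb.ord) b (e.ord_mem ho) d
  obtain ⟨ξ, x1, x2, x3⟩ := e.lim_below h.ac h.hi h2
  have g4 := g2.up h.inn x3 x2 h.lim x1 h.vs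
  have g5 : CohAt E Set.univ S κ b G := CohAt.congr h.ac g4 h.oA h.oS (fun u v q o => by
      rcases o with o | ⟨rfl, o⟩
      · exact (h.low o).symm
      · exact ih v o (h.lim.1.tr h2 o) q)
    (g3.up h.inn (e.maps S) h.emb.ord h1 h.lim h2 h.emb.ia.lim h.vs)
  have dS := m1 h.ac h.coh h.lk κ trivial b trivial G trivial (fun v m n =>
    have o := h.lim.1.tr h2 m
    let ⟨q, k⟩ := h.full n o
    ⟨q, (ih v m o q).2 k⟩) g4 g5
  exact (u1 h.ac h.coh h.lk κ trivial b trivial G trivial dS g4 g5 p).symm.trans (g1 p)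

theorem long : LongI E S κ ν := by
  have e := h.emb.el
  obtain ⟨F, hF⟩ := dirC_der e κ ν
  have k1 := ext1_der h.ac h.emb h.lim.1 h.lt (h.sub (Or.inr rfl)) hF
  have k2 : CohAt E Set.univ S κ ν F := cohAt_der h.ac h.emb h.lim.1 h.lt (h.sub (Or.inr rfl)) hF
    (fun u v m n => h.novS m n) fun u v p m => by
      rcases m with m | rfl
      · exact (h.low m).trans
          (and_iff_left_of_imp fun n => h.lim.1.tr h.lt (h.novS m ⟨p, n⟩)).symm
      · exact ⟨fun n => ⟨(h.same (h.bd ⟨p, n⟩) p).2 n, h.bd ⟨p, n⟩⟩, fun n => (h.same n.2 p).1 n.1⟩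
  have dS := m1 h.ac h.coh h.lk κ trivial ν trivial F trivial (fun v m n =>
    let ⟨q, k⟩ := h.full n m
    ⟨q, (h.same m q).2 k⟩) k1 k2
  exact dirC_long h.ac h.coh e h.emb.lt h.lt (dirC_card e h.hi h.vs)
    (u1 h.ac h.coh h.lk κ trivial ν trivial F trivial dS k1 k2) hF h.hi
    fun l => ⟨fun ⟨p, m⟩ => ⟨h.ltA m, h.bd ⟨p, m⟩⟩, fun m => h.full m.1 m.2⟩

end DirC2
end

section DirC2

theorem dirC2 (hC : Choice E) {S κ ν : M} {j : M → M} {W : Set M} (hS : Coh1 E Set.univ S)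
    (hV : ∀ x, x ∈ LK E S) (h : ElEmb E j W κ) (hκ : E κ ν) (hν : Sub E ν (j κ))
    (hi : Inacc E W ν) (vs : VSub E W ν) (top : ¬ Dom E (j S) κ ν) : LongI E S κ ν :=
  DirC2.long ⟨hC, h, hκ, hν, hi, vs, hS, hV, top, fun _ hu => noOv hC hS hV h hu⟩

end DirC2

end Pool.Agent.Lib.MP_75a307_lc.LE
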