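import Pool.Agent.Lib.MP_75a307_lc.LE.DirC2
import Pool.Agent.Lib.MP_75a307_lc.LE.Str2

/-! A bad witness of `L[S]` makes `S` long at the same point. -/

set_option synthInstance.maxSize 100000
set_option linter.unusedVariables false
set_option linter.unusedSectionVars false

namespace Pool.Agent.Lib.MP_75a307_lc.LE

open Pool.Agent.Lib.MP_1d770b_lc

universe u
variable {M : Type u} {E : M → M → Prop} [hZ : ZF E]

variable {S κ μ : M}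

theorem dirC3 (hC : Choice E) {ν : M} {j : M → M} {W : Set M} (hS : Coh1 E Set.univ S)
    (hV : ∀ x, x ∈ LK E S) (h : ElEmb E j W κ) (hκ : E κ ν) (hν : Sub E ν (j κ))
    (hi : Inacc E W ν) (vs : VSub E W ν) : LongI E S κ ν := by
  by_cases top : Dom E (j S) κ ν
  swap
  · exact dirC2 hC hS hV h hκ hν hi vs top
  have e0 := h.el
  have hW := e0.inn hC
  have := hW.zf
  have c0 := (e0.tr1 (fun W S => Coh1 E W S) S).1 hS
  have wκ := hW.ord h.ord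
  have wν := hW.ord hi.1
  obtain ⟨F, wF, s1, s2, s3⟩ := c0.2.2.2 κ wκ ν wν top
  let A : W := ⟨j S, e0.maps S⟩
  let κ' : W := ⟨κ, wκ⟩
  let ν' : W := ⟨ν, wν⟩
  let F' : W := ⟨F, wF⟩
  obtain ⟨i, W0, e⟩ :=
    ((bridge_r4 hW (fun _ E W a b c _ => Ext1 E W a b c) κ' ν' F' F').1 s2).ult hW.ac
  obtain ⟨k, el, hk⟩ := hW.lift e.emb.el
  have c1 := (bridge_r4 hW (fun _ E W a _ _ _ => Coh1 E W a) A A A A).1 c0
  have i1 := (bridge_r4 hW (fun _ E W a _ _ _ => Inacc E W a) ν' ν' ν' ν').1 hi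
  have v1 := strong2 (E := Res E W) hW.ac c1
    (fun x => (hW.lk_res A x).2 ((e0.lk hC hV).subset x.2))
    ((bridge_r4 hW (fun _ E _ S a b _ => Dom E S a b) A κ' ν' ν').1 top) (i1.ia hW.ac).card
    ((bridge_r4 hW (fun _ E _ S a b c => Slice E S a b c) A κ' ν' F').1 s1) e
    (e.emb.el.inacc_down hW.ac i1)
  have e1 := e0.comp el
  have jo := e0.ord h.ord
  have le : Sub E (j κ) (k (j κ)) := (el.le_map jo).sub (el.ord jo)
  have ia := (e0.ia_iff hC hi.1).2 hi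
  have sub : Subtype.val '' W0 ⊆ W := fun _ ⟨x, _, hx⟩ => hx ▸ x.2
  refine dirC2 hC hS hV (e1.emb h.ord (fun α hα => ?_) fun q => no1 (q ▸ le κ h.lt)) hκ
    (fun z hz => le z (hν z hz)) ((e1.ia_iff hC hi.1).1 ⟨ia.1, ia.2.1, fun x hx r f hf =>
      ia.2.2 x (sub hx) r f (sub hf)⟩) (vsub fun x r => ⟨⟨x, vs.mem r⟩, v1.mem
        ((bridge_r4 hW (fun _ E _ a b _ _ => Rk E a b) ⟨x, vs.mem r⟩ ν' ν' ν').1 r), rfl⟩) ?_
  · rw [h.fix α hα]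
    exact (hk ⟨α, hW.tr _ wκ _ hα⟩).trans
      (congrArg Subtype.val (e.emb.fix ⟨α, hW.tr _ wκ _ hα⟩ hα))
  · rintro ⟨p, q⟩
    rw [show k (j S) = (i A).1 from hk A] at q
    have wp := (bridge_at hW.tr (i A).2 q).2.2
    exact no1 ((e.coh hW.ac (c1.shape hW.ac)
      ((bridge_r4 hW (fun _ E W S a b c => CohAt E W S a b c) A κ' ν' F').1 s3) κ' ν' ⟨p, wp⟩
      (Or.inr rfl)).1
      ((bridge_r4 hW (fun _ E _ S a b c => At E S a b c) (i A) κ' ν' ⟨p, wp⟩).1 q)).2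

/-- the target of a bad witness sees the length as inaccessible -/
theorem dirC3_inacc (hC : Choice E) {j : M → M} {W : Set M} {v : M} (h : ElEmb E j W κ)
    (hκ : E κ μ) (ho : IsOrd E μ) (hv : ∀ x, E x v ↔ InV E x μ) (hq : Eqp E v μ)
    (hR : Reg E W μ) : Inacc E W μ := by
  obtain ⟨e, e1, e2, -⟩ := hq
  have nl : ∃ y, E y μ ∧ Lim E y ∧ ∃ z, E z y :=
    let ⟨y, k1, k2⟩ := h.ia.2.1; ⟨y, ho.tr hκ k1, k2⟩
  have hl : Lim E μ := (h.el.tr0 fun W => ∀ m ∈ W, IsOrd E m →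
      (∃ y, E y m ∧ Lim E y ∧ ∃ z, E z y) → Reg E W m → Lim E m).1
    (fun m _ ho ⟨y, k1, _, z, k2⟩ hR => ⟨ho, fun α hα => by
      obtain ⟨f, f1, f2⟩ := ex_func (E := E) y m (fun _ t => t = α) (fun _ _ => ⟨α, hα, rfl⟩)
        fun _ _ _ _ _ _ a b => a.trans b.symm
      obtain ⟨b, b1, b2⟩ := hR y k1 f trivial f1
      exact ⟨b, b1, b2 z α ((f2 _ _).2 ⟨k2, hα, rfl⟩)⟩⟩) μ (h.el.ord_mem ho) ho nl hR
  refine ⟨ho, (omega_lt ho).2 nl, hR, fun α hα p hp k => ?_⟩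
  obtain ⟨c, hc, θ, -, c1, c2, c3, c4⟩ := (h.el.tr0 fun W => ∀ p ∈ W, ∃ c ∈ W, ∃ θ ∈ W, IsOrd E θ ∧
      Func E c p θ ∧ OneOne E c ∧ ∀ y, E y θ → ∃ x, App E c x y).1
    (fun p _ => let ⟨c, θ, k1, k2, k3, k4, _⟩ := enum hC p
      ⟨c, trivial, θ, trivial, k1, k2, k3, k4⟩) p hp
  refine ⟨θ, by_contra fun hn => ?_, c, hc, c2, c3⟩
  have pr : Rk E p μ := Lim.pow hl (ho.rk hα) fun x hx => (k x (h.trans _ hp _ hx)).1 hx
  obtain ⟨g, -, hg⟩ := ex_rel E v p fun s x => ∃ η, App E e s η ∧ App E c x η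
  refine cantor (E := E) (a := p) (f := g) (fun s s' x a b => ?_) fun s hs => ?_
  · obtain ⟨-, -, η, a1, a2⟩ := (hg _ _).1 a
    obtain ⟨-, -, η', b1, b2⟩ := (hg _ _).1 b
    obtain rfl := c2.fn _ _ _ a2 b2
    exact e2 _ _ _ a1 b1
  · have := (hv s).2 (inV_iff.2 (pr.sub hs))
    obtain ⟨η, a1, a2⟩ := e1.tot this
    obtain ⟨x, hx⟩ := c4 η ((ho.le_of_not c1 hn).sub c1 η a1)
    exact ⟨x, (c2.mem hx).1, (hg _ _).2 ⟨this, (c2.mem hx).1, η, a2, hx⟩⟩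

theorem bad_long (hC : Choice E) (hS : Coh1 E Set.univ S) (hV : ∀ x, x ∈ LK E S)
    (h : Bad E κ μ) : LongI E S κ μ := by
  obtain ⟨-, hκ, hs, ⟨v, hv, hq⟩, j, W, ⟨h, hν, -⟩, vs, hR⟩ := h
  exact dirC3 hC hS hV h hκ hν (dirC3_inacc hC h hκ hs.1.1 hv hq hR) vs

end Pool.Agent.Lib.MP_75a307_lc.LE
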