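import Pool.Agent.Lib.MP_75a307_lc.LE.Bas

/-! The transitive collapse of the ultrapower by a countably complete system. -/

set_option synthInstance.maxSize 100000
set_option linter.unusedVariables false
set_option linter.unusedSectionVars false

namespace Pool.Agent.Lib.MP_75a307_lc.LE

open Pool.Agent.Lib.MP_1d770b_lc

universe u
variable {M : Type u} {E : M → M → Prop} [hZ : ZF E]

variable (E) in
/-- `P` holds for all threads of some finite list of members of `T` -/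
def UltAE (T : M → M → M → Prop) (P : (M → M) → Prop) : Prop :=
  ∃ L : List (M × M × M), (∀ x ∈ L, T x.1 x.2.1 x.2.2) ∧
    ∀ σ : M → M, (∀ x ∈ L, App E x.2.2 (σ x.1) (σ x.2.1)) → P σ

variable (E) in
noncomputable abbrev ultEv (x : M) (σ : M → M) : M := ap E (p2 E x) (σ (p1 E x))

variable (E) in
def UltB (K N : M) (T : M → M → M → Prop) (S : M → M → Prop) (x y : M) : Prop :=
  Pt E K N x ∧ Pt E K N y ∧ UltAE E T fun σ => S (ultEv E x σ) (ultEv E y σ)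

variable (E) in
def UltR (K N : M) (T : M → M → M → Prop) (u x : M) : Prop := UltB E K N T E u x ∧
  ∀ β, Lim E β → Rk E K β → Rk E N β → Rk E x β → Rk E u β

theorem ultEv_pr (a f : M) (σ : M → M) : ultEv E (pr E a f) σ = ap E f (σ a) := by simp [ultEv]

variable {K N : M} {T : M → M → M → Prop}

theorem UltAE.mono {P Q : (M → M) → Prop} (k : UltAE E T P) (H : ∀ σ, P σ → Q σ) : UltAE E T Q :=
  let ⟨L, h1, h2⟩ := k; ⟨L, h1, fun σ hσ => H σ (h2 σ hσ)⟩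

theorem UltAE.and {P Q : (M → M) → Prop} (k : UltAE E T P) (k' : UltAE E T Q) :
    UltAE E T fun σ => P σ ∧ Q σ :=
  let ⟨L, h1, h2⟩ := k; let ⟨L', h3, h4⟩ := k'
  ⟨L ++ L', fun x hx => (List.mem_append.1 hx).elim (h1 x) (h3 x), fun σ hσ =>
    ⟨h2 σ fun x hx => hσ x (List.mem_append_left _ hx),
      h4 σ fun x hx => hσ x (List.mem_append_right _ hx)⟩⟩

theorem UltAE.one {a b R : M} (k : T a b R) : UltAE E T fun σ => App E R (σ a) (σ b) :=
  ⟨[(a, b, R)], fun x hx => List.mem_singleton.1 hx ▸ k, fun σ hσ => hσ _ List.mem_cons_self⟩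

theorem ult_rel (K : M) (P : M → M → Prop) (hP : D2 E P) :
    ∃ R, Rel E K R ∧ ∀ s t, App E R s t ↔ E s K ∧ E t K ∧ P s t := by
  obtain ⟨R, h1, h2⟩ := ex_rel E K K P
  exact ⟨R, fun p hp => let ⟨s, t, a, b, c, _⟩ := (h1 p).1 hp; ⟨s, t, c, a, b⟩, h2⟩

structure UltS (E : M → M → Prop) (K N : M) (T : M → M → M → Prop) : Prop where
  ac : Choice E
  dT : D3 E T
  sys : SysT E K N T

namespace UltS

variable (h : UltS E K N T)
include h

theorem ex {P : (M → M) → Prop} (k : UltAE E T P) : ∃ σ, P σ :=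
  let ⟨L, h1, h2⟩ := k; let ⟨σ, hσ⟩ := h.sys.cc.list L h1; ⟨σ, h2 σ hσ⟩

theorem not_both {P Q : (M → M) → Prop} (k : UltAE E T P) (k' : UltAE E T Q)
    (H : ∀ σ, P σ → Q σ → False) : False := let ⟨σ, h1, h2⟩ := h.ex (k.and k'); H σ h1 h2

theorem cut {a b : M} (ha : E a N) (hb : E b N) (P : M → M → Prop) (hP : D2 E P) :
    (∃ R, T a b R ∧ ∀ s t, App E R s t → E s K ∧ E t K ∧ P s t) ∨
      UltAE E T fun σ => ¬ P (σ a) (σ b) := by
  obtain ⟨R, r1, r2⟩ := ult_rel K P hP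
  obtain ⟨R', r3, r4⟩ := ult_rel (E := E) K (fun s t => ¬ P s t) fun _ _ _ _ => inferInstance
  refine (h.sys.ultra a ha b hb R trivial R' trivial r1 r3 fun s hs t ht => ?_).imp
    (fun k => ⟨R, k, fun s t => (r2 s t).1⟩) fun k => (UltAE.one k).mono fun σ k => ((r4 _ _).1 k).2.2
  by_cases k : P s t
  exacts [Or.inl ((r2 s t).2 ⟨hs, ht, k⟩), Or.inr ((r4 s t).2 ⟨hs, ht, k⟩)]

theorem a2 {a b : M} (ha : E a N) (hb : E b N) {P : M → M → Prop} (hP : D2 E P) :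
    (∃ R, T a b R ∧ ∀ s t, App E R s t → P s t) ↔ UltAE E T fun σ => P (σ a) (σ b) :=
  ⟨fun ⟨R, k1, k2⟩ => (UltAE.one k1).mono fun σ => k2 _ _, fun k =>
    (h.cut ha hb P hP).elim (fun ⟨R, k1, k2⟩ => ⟨R, k1, fun s t q => (k2 s t q).2.2⟩)
      fun k' => (h.not_both k k' fun σ a b => b a).elim⟩

theorem ult2 {a b : M} (ha : E a N) (hb : E b N) (P : M → M → Prop) (hP : D2 E P) :
    (UltAE E T fun σ => P (σ a) (σ b)) ∨ UltAE E T fun σ => ¬ P (σ a) (σ b) :=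
  (h.cut ha hb P hP).imp_left fun ⟨R, k1, k2⟩ => (UltAE.one k1).mono fun σ q => (k2 _ _ q).2.2

theorem dom {a : M} (ha : E a N) : UltAE E T fun σ => E (σ a) K :=
  (h.cut ha ha (fun _ _ => True) fun _ _ _ _ => inferInstance).elim
    (fun ⟨R, k1, k2⟩ => (UltAE.one k1).mono fun σ q => (k2 _ _ q).1)
    fun k => k.mono fun σ q => (q trivial).elim

theorem pair {a b : M} (ha : E a N) (hb : E b N) : ∃ p f g, E p N ∧ UltAE E T fun σ =>
    E (σ p) K ∧ ap E f (σ p) = σ a ∧ ap E g (σ p) = σ b := by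
  obtain ⟨p, hp, f, g, h1, h2, h3, h4⟩ := h.sys.pair a ha b hb
  exact ⟨p, f, g, hp, ((h.dom hp).and ((UltAE.one h3).and (UltAE.one h4))).mono
    fun σ k => ⟨k.1, ap_eq h1 k.2.1, ap_eq h2 k.2.2⟩⟩

theorem b_iff {S : M → M → Prop} (hS : D2 E S) {x y : M} : UltB E K N T S x y ↔
    Pt E K N x ∧ Pt E K N y ∧ ∃ R, T (p1 E x) (p1 E y) R ∧
      ∀ s t, App E R s t → S (ap E (p2 E x) s) (ap E (p2 E y) t) := by
  refine and_congr_right fun hx => and_congr_right fun hy => ?_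
  obtain ⟨a, f, rfl, ha, hf⟩ := hx
  obtain ⟨b, g, rfl, hb, hg⟩ := hy
  have := dt2 hS
  simp only [ultEv_pr, p1_pr, p2_pr]
  exact (h.a2 ha hb (P := fun s t => S (ap E f s) (ap E g t)) fun _ _ _ _ => inferInstance).symm

theorem dB {S : M → M → Prop} (hS : D2 E S) : D2 E (UltB E K N T S) := fun s t _ _ => by
  have := dt2 hS
  have := dt3 h.dT
  exact Df.congr inferInstance fun v => (h.b_iff hS).symm

theorem dR : D2 E (UltR E K N T) := fun s t _ _ => by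
  have := h.dB (S := E) fun _ _ _ _ => inferInstance
  unfold UltR; infer_instance

theorem dec {x y : M} (hx : Pt E K N x) (hy : Pt E K N y) (S : M → M → Prop) (hS : D2 E S) :
    (UltAE E T fun σ => S (ultEv E x σ) (ultEv E y σ)) ∨
      UltAE E T fun σ => ¬ S (ultEv E x σ) (ultEv E y σ) := by
  obtain ⟨a, f, rfl, ha, hf⟩ := hx
  obtain ⟨b, g, rfl, hb, hg⟩ := hy
  have := dt2 hS
  simp only [ultEv_pr]
  exact h.ult2 ha hb (fun s t => S (ap E f s) (ap E g t)) fun _ _ _ _ => inferInstance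

theorem mkc {x y : M} (hx : Pt E K N x) (hy : Pt E K N y)
    (P : M → M → M → Prop) (hP : D3 E P) :
    ∃ z, Pt E K N z ∧ (UltAE E T fun σ => (∃ w, P (ultEv E x σ) (ultEv E y σ) w) →
        P (ultEv E x σ) (ultEv E y σ) (ultEv E z σ)) ∧
      ((∀ u v w, P u v w → E w v) →
        ∀ β, Lim E β → Rk E K β → Rk E N β → Rk E y β → Rk E z β) := by
  obtain ⟨a, f, rfl, ha, hf⟩ := hx
  obtain ⟨b, g, rfl, hb, hg⟩ := hy
  obtain ⟨p, f0, g0, hp, k⟩ := h.pair ha hb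
  have := dt3 hP
  obtain ⟨c, c1, c2, c3⟩ := skolem h.ac K fun s w => P (ap E f (ap E f0 s)) (ap E g (ap E g0 s)) w
  refine ⟨_, Pt.mk' hp c1, k.mono fun σ ⟨e0, e1, e2⟩ => ?_, fun H β hl hK hN hy => ?_⟩
  · simp only [ultEv_pr]
    have := c3 _ e0
    rwa [e1, e2] at this
  · refine hl.opair (hN.mem hp) ?_ (pr_spec _ _)
    obtain ⟨γ, hγ, k1, k2⟩ := hl.rk2 hK hy
    refine hl.rel hγ fun p hp => ?_
    obtain ⟨s, w, a1, a2, a3⟩ := c2 p hp
    refine ⟨s, w, a1, k1.mem a2, a3.elim (fun a3 => ?_) fun a3 => a3 ▸ k1.mem a2⟩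
    obtain ⟨y', b1, b2⟩ := (ap_spec _ _ _).1 (H _ _ _ a3)
    obtain ⟨t1, t2, -, d2, d3⟩ := pr_spec (E := E) b g
    exact ((((k2.mem ((d3 t2).2 (Or.inr rfl))).mem ((d2 g).2 (Or.inr rfl))).app b1).2).mem b2

theorem shrink {u x : M} (k : UltB E K N T E u x) :
    ∃ u', UltR E K N T u' x ∧ UltB E K N T Eq u u' := by
  obtain ⟨hu, hx, k⟩ := k
  obtain ⟨z, h1, h2, h3⟩ := h.mkc hu hx (fun u v w => w = u ∧ E u v)
    (fun _ _ _ _ _ _ => inferInstance)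
  have := (k.and h2).mono fun σ k => (k.2 ⟨_, rfl, k.1⟩)
  exact ⟨z, ⟨⟨h1, hx, this.mono fun σ k => k.1 ▸ k.2⟩, h3 fun u v w k => k.1 ▸ k.2⟩,
    hu, h1, this.mono fun σ k => k.1.symm⟩

theorem ind0 (P : M → Prop) [hP : Df E fun v => P (v 0)]
    (H : ∀ x, Pt E K N x → (∀ u, UltR E K N T u x → P u) → P x) {x : M} (hx : Pt E K N x) :
    P x := by
  have := hP.d1
  have := h.dR
  have := dt3 h.dT
  by_contra hn
  obtain ⟨β, hl, hK, hN, hβ⟩ := ex_lim (E := E) K N x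
  obtain ⟨v, hv⟩ := ex_V hl.1
  obtain ⟨S, hS⟩ := sep E v fun u => Pt E K N u ∧ ¬ P u
  obtain ⟨g, g1, -, g2⟩ := skolem h.ac S fun m u => E u S ∧ UltR E K N T u m
  have g3 : ∀ m, E m S → E (ap E g m) S ∧ UltR E K N T (ap E g m) m := fun m hm => g2 m hm (by
    obtain ⟨m1, m2, m3⟩ := (hS m).1 hm
    by_contra hc
    exact m3 (H m m2 fun u k => by_contra fun hu =>
      hc ⟨u, (hS u).2 ⟨(hv u).2 (k.2 β hl hK hN ((hv m).1 m1)), k.1.1, hu⟩, k⟩))
  obtain ⟨r, -, -, r2⟩ := skolem h.ac S fun m R => T (p1 E (ap E g m)) (p1 E m) R ∧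
    ∀ s t, App E R s t → E (ap E (p2 E (ap E g m)) s) (ap E (p2 E m) t)
  have r3 := fun m hm => r2 m hm ((h.b_iff fun _ _ _ _ => inferInstance).1 (g3 m hm).2.1).2.2
  obtain ⟨X, X1, X2⟩ := ctb_list (E := E) [x]
  obtain ⟨Y, Y1, Y2, Y3, Y4⟩ := ctb_clos h.ac X1 (X := S)
    (fun t ht => List.mem_singleton.1 ((X2 t).1 ht) ▸ (hS x).2 ⟨(hv x).2 hβ, hx, hn⟩)
    (fun m u => u = ap E g m) fun m hm => by
      obtain ⟨d, d1, d2⟩ := ctb_list (E := E) [ap E g m]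
      exact ⟨d, d1, fun t ht => List.mem_singleton.1 ((d2 t).1 ht) ▸ (g3 m hm).1,
        fun z e => (d2 z).2 (List.mem_singleton.2 e)⟩
  obtain ⟨G, hG⟩ := repl E Y (fun m t => t = pr E (p1 E (ap E g m)) (pr E (p1 E m) (ap E r m)))
    fun m y y' _ a b => a.trans b.symm
  obtain ⟨σ, -, hσ⟩ := h.sys.cc G trivial
    (Y1.img (fun m t => t = pr E (p1 E (ap E g m)) (pr E (p1 E m) (ap E r m)))
      (fun m y y' _ a b => a.trans b.symm) fun y => (hG y).1) fun t ht => by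
      obtain ⟨m, hm, rfl⟩ := (hG t).1 ht
      exact ⟨_, _, pr_spec _ _, _, _, pr_spec _ _, (r3 m (Y3 m hm)).1⟩
  obtain ⟨B, hB⟩ := repl E Y (fun m z => z = ap E (p2 E m) (ap E σ (p1 E m)))
    fun m y y' _ a b => a.trans b.symm
  obtain ⟨z, hz, hm⟩ := found B _ ((hB _).2 ⟨x, Y2 x ((X2 x).2 List.mem_cons_self), rfl⟩)
  obtain ⟨m, m1, rfl⟩ := (hB z).1 hz
  refine hm _ ?_ ((hB _).2 ⟨_, Y4 m m1 _ rfl, rfl⟩)
  obtain ⟨s, s1, t, s2, s3⟩ := hσ.2 _ _ (app_iff.2 ((hG _).2 ⟨m, m1, rfl⟩)) _ _ (pr_spec _ _)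
  rw [ap_eq hσ.1 s1, ap_eq hσ.1 s2]
  exact (r3 m (Y3 m m1)).2 s t s3

theorem col0 : ∃ val : M → M, F1 E val ∧ ∀ x, Pt E K N x → ∀ z, E z (val x) ↔
    ∃ u, UltR E K N T u x ∧ val u = z := by
  classical
  have d0 := h.dR
  let R : M → M → Prop := fun u x => ∀ C, (∀ w, UltR E K N T w x → E w C) →
    (∀ v w, E v C → UltR E K N T w v → E w C) → E u C
  have dR : D2 E R := fun _ _ _ _ => by simp only [R]; infer_instance
  have hC : ∀ x, ∃ C, (∀ w, UltR E K N T w x → E w C) ∧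
      (∀ v w, E v C → UltR E K N T w v → E w C) ∧ ∀ w, E w C → Pt E K N w := fun x => by
    obtain ⟨β, hl, hK, hN, hβ⟩ := ex_lim (E := E) K N x
    obtain ⟨v, hv⟩ := ex_V hl.1
    obtain ⟨C, hC⟩ := sep E v fun u => Pt E K N u
    exact ⟨C, fun w k => (hC w).2 ⟨(hv w).2 (k.2 β hl hK hN hβ), k.1.1⟩, fun t w ht k =>
      (hC w).2 ⟨(hv w).2 (k.2 β hl hK hN ((hv t).1 ((hC t).1 ht).1)), k.1.1⟩,
      fun w k => ((hC w).1 k).2⟩
  have r0 : ∀ u x, UltR E K N T u x → R u x := fun u x k C h1 _ => h1 u k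
  have tr : ∀ x x' x'', R x' x → R x'' x' → R x'' x := fun x x' x'' k1 k2 C h1 h2 =>
    k2 C (fun w k => h2 x' w (k1 C h1 h2) k) h2
  let S : M → M → M → Prop := fun f x y => ∀ z, E z y ↔ ∃ u, UltR E K N T u x ∧ App E f u z
  have hr : RecOK E (Pt E K N) R S :=
    { dA := fun _ _ => inferInstance
      dR := dR
      sub := fun x x' _ k => let ⟨C, h1, h2, h3⟩ := hC x; h3 _ (k C h1 h2)
      trans := fun x x' x'' _ => tr x x' x''
      setlike := fun x _ => let ⟨C, h1, h2, _⟩ := hC x; ⟨C, fun x' k => k C h1 h2⟩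
      wf := fun P dP H x hx => by
        refine H x hx (h.ind0 (fun x => ∀ x', R x' x → P x') (fun x hx ih x' k => ?_) hx)
        obtain ⟨C, h1, h2, h3⟩ := hC x
        obtain ⟨D, hD⟩ := sep E C fun u => P u ∧ ∀ x', R x' u → P x'
        refine ((hD x').1 (k D (fun w k => (hD w).2 ⟨h1 w k, H w k.1.1 (ih w k), ih w k⟩)
          fun v w hv k => ?_)).2.1
        obtain ⟨a1, a2, a3⟩ := (hD v).1 hv
        exact (hD w).2 ⟨h2 v w a1 k, a3 w (r0 _ _ k), fun t k' => a3 t (tr _ _ _ (r0 _ _ k) k')⟩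
      dS := fun _ _ _ _ _ _ => by simp only [S]; infer_instance
      inv := fun f g x y _ H hS z => (hS z).trans
        (exists_congr fun u => and_congr_right fun k => H u (r0 _ _ k) z)
      ex := fun f x _ _ => by
        obtain ⟨d, hd⟩ := ex_fld E f
        obtain ⟨y, hy⟩ := sep E d fun z => ∃ u, UltR E K N T u x ∧ App E f u z
        exact ⟨y, fun z => (hy z).trans ⟨fun k => k.2, fun ⟨u, k1, k2⟩ => ⟨(hd _ _ k2).2, u, k1, k2⟩⟩⟩
      uniq := fun f x y y' _ _ h1 h2 => ext' E fun z => (h1 z).trans (h2 z).symm }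
  have dH := hr.dRec
  set H := Rec E (Pt E K N) R S
  have : ∀ x, ∃ y, H x y ∨ ((¬ ∃ y', H x y') ∧ x = y) := fun x => by
    by_cases k : ∃ y, H x y
    · exact let ⟨y, k⟩ := k; ⟨y, Or.inl k⟩
    · exact ⟨x, Or.inr ⟨k, rfl⟩⟩
  choose val hval using this
  have hv : ∀ x y, H x y → val x = y := fun x y k =>
    (hval x).elim (fun k' => hr.fn k' k) fun k' => (k'.1 ⟨y, k⟩).elim
  refine ⟨val, f1 fun s t _ _ => Df.congr
    (P := fun v => H (s v) (t v) ∨ ((¬ ∃ y', H (s v) y') ∧ s v = t v)) inferInstance fun v =>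
      ⟨fun k => k.elim (hv _ _) fun k => (hval _).elim (fun k' => (k.1 ⟨_, k'⟩).elim)
        fun k' => k'.2.symm.trans k.2, fun k => k ▸ hval _⟩, fun x hx z => ?_⟩
  obtain ⟨y, hy⟩ := hr.total hx
  obtain ⟨f, hf, hS⟩ := hr.elim hy
  rw [hv x y hy, hS z]
  refine exists_congr fun u => and_congr_right fun k => (hf u (r0 _ _ k) z).trans
    ⟨hv _ _, fun e => ?_⟩
  obtain ⟨y', hy'⟩ := hr.total k.1.1
  rwa [← e, hv _ _ hy']

theorem col : ∃ val : M → M, F1 E val ∧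
    (∀ x y, Pt E K N x → Pt E K N y →
      (E (val x) (val y) ↔ UltAE E T fun σ => E (ultEv E x σ) (ultEv E y σ))) ∧
    (∀ x y, Pt E K N x → Pt E K N y →
      (val x = val y ↔ UltAE E T fun σ => ultEv E x σ = ultEv E y σ)) ∧
    ∀ x, Pt E K N x → ∀ z, E z (val x) → ∃ u, Pt E K N u ∧ val u = z := by
  obtain ⟨val, dv, hv⟩ := h.col0
  have dE := h.dB (S := Eq) fun _ _ _ _ => inferInstance
  have e1 : ∀ x, Pt E K N x → ∀ y, UltB E K N T Eq x y → val x = val y := fun x hx => by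
    refine h.ind0 (fun x => ∀ y, UltB E K N T Eq x y → val x = val y) ?_ hx
    intro x hx ih y ⟨_, hy, e⟩
    refine ext' E fun z => ?_
    rw [hv x hx, hv y hy]
    constructor
    · rintro ⟨u, k, rfl⟩
      obtain ⟨u', k1, k2⟩ := h.shrink ⟨k.1.1, hy, (k.1.2.2.and e).mono fun σ k => k.2 ▸ k.1⟩
      exact ⟨u', k1, (ih u k u' k2).symm⟩
    · rintro ⟨u, k, rfl⟩
      obtain ⟨u', k1, k2⟩ := h.shrink ⟨k.1.1, hx, (k.1.2.2.and e).mono fun σ k => k.2.symm ▸ k.1⟩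
      exact ⟨u', k1, ih u' k1 u ⟨k2.2.1, k2.1, k2.2.2.mono fun σ k => k.symm⟩⟩
  have e2 : ∀ z x y, Pt E K N x → Pt E K N y → val x = z → val y = z → UltB E K N T Eq x y := by
    refine mem_ind E (fun z => ∀ x y, Pt E K N x → Pt E K N y → val x = z → val y = z →
      UltB E K N T Eq x y) fun z ih => ?_
    have half : ∀ x y, Pt E K N x → Pt E K N y → val x = z → val y = z →
        UltAE E T fun σ => Sub E (ultEv E x σ) (ultEv E y σ) := fun x y hx hy k1 k2 => by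
      refine (h.dec hx hy (Sub E) fun _ _ _ _ => inferInstance).resolve_right fun k => ?_
      obtain ⟨w, w1, w2, -⟩ := h.mkc hx hy (fun u v w => E w u ∧ ¬ E w v)
        (fun _ _ _ _ _ _ => inferInstance)
      have w3 := (k.and w2).mono fun σ k => k.2 (by
        by_contra hn
        exact k.1 fun t ht => by_contra fun ht' => hn ⟨t, ht, ht'⟩)
      obtain ⟨w', a1, a2⟩ := h.shrink ⟨w1, hx, w3.mono fun σ k => k.1⟩
      have hz : E (val w') z := k1 ▸ (hv x hx _).2 ⟨w', a1, rfl⟩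
      obtain ⟨w'', b1, b2⟩ := (hv y hy _).1 (k2.symm ▸ hz)
      exact h.not_both w3 (a2.2.2.and ((ih _ hz w' w'' a1.1.1 b1.1.1 rfl b2).2.2.and b1.1.2.2))
        fun σ k ⟨c1, c2, c3⟩ => k.2 (by rw [c1, c2]; exact c3)
    intro x y hx hy k1 k2
    exact ⟨hx, hy, ((half x y hx hy k1 k2).and (half y x hy hx k2 k1)).mono fun σ k =>
      ext' E fun t => ⟨k.1 t, k.2 t⟩⟩
  refine ⟨val, dv, fun x y hx hy => ⟨fun k => ?_, fun k => ?_⟩,
    fun x y hx hy => ⟨fun k => (e2 _ x y hx hy k rfl).2.2, fun k => e1 x hx y ⟨hx, hy, k⟩⟩,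
    fun x hx z k => ?_⟩
  · obtain ⟨u, k1, k2⟩ := (hv y hy _).1 k
    exact ((e2 _ u x k1.1.1 hx k2 rfl).2.2.and k1.1.2.2).mono fun σ k => k.1 ▸ k.2
  · obtain ⟨u, k1, k2⟩ := h.shrink ⟨hx, hy, k⟩
    exact (hv y hy _).2 ⟨u, k1, (e1 x hx u k2).symm⟩
  · obtain ⟨u, k1, k2⟩ := (hv x hx _).1 k
    exact ⟨u, k1.1.1, k2⟩

end UltS

end Pool.Agent.Lib.MP_75a307_lc.LE
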