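import Pool.Agent.Lib.MP_75a307_lc.LE.Bas
import Pool.Agent.Lib.MP_75a307_lc.LE.UltA

/-! The ultrapower of the universe by a countably complete system. -/

set_option synthInstance.maxSize 100000
set_option linter.unusedVariables false
set_option linter.unusedSectionVars false

namespace Pool.Agent.Lib.MP_75a307_lc.LE

open Pool.Agent.Lib.MP_1d770b_lc

universe u
variable {M : Type u} {E : M → M → Prop} [hZ : ZF E]

structure Real (E : M → M → Prop) (K N : M) (T : M → M → M → Prop) (j : M → M) (W : Set M)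
    (sd : M → M) : Prop where
  el : El E j W
  dsd : D2 E fun x y => sd x = y
  mem : ∀ a, E a N → E (sd a) (j K)
  iff : ∀ a b R, E a N → E b N → Rel E K R → (T a b R ↔ App E (j R) (sd a) (sd b))

def Gen (E : M → M → Prop) (K N : M) (j : M → M) (W : Set M) (sd : M → M) : Prop :=
  ∀ x ∈ W, ∃ a f, E a N ∧ Tot E K f ∧ App E (j f) (sd a) x

theorem UltS.los {K N : M} {T : M → M → M → Prop} (h : UltS E K N T) {val : M → M}
    (h1 : ∀ x y, Pt E K N x → Pt E K N y →
      (E (val x) (val y) ↔ UltAE E T fun σ => E (ultEv E x σ) (ultEv E y σ)))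
    (h2 : ∀ x y, Pt E K N x → Pt E K N y →
      (val x = val y ↔ UltAE E T fun σ => ultEv E x σ = ultEv E y σ)) (φ : Fm) :
    ∀ (c : M) (F : ℕ → M), E c N → (∀ k, Tot E K (F k)) →
      (SatW E {y | ∃ x, Pt E K N x ∧ val x = y} φ (fun k => val (pr E c (F k))) ↔
        UltAE E T fun σ => Sat E φ fun k => ap E (F k) (σ c)) := by
  induction φ with
  | mem i j =>
    intro c F hc hF
    refine (h1 _ _ (Pt.mk' hc (hF i)) (Pt.mk' hc (hF j))).trans ?_
    simp only [ultEv_pr]; rfl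
  | eq i j =>
    intro c F hc hF
    refine (h2 _ _ (Pt.mk' hc (hF i)) (Pt.mk' hc (hF j))).trans ?_
    simp only [ultEv_pr]; rfl
  | neg φ ih =>
    intro c F hc hF
    refine (not_congr (ih c F hc hF)).trans ⟨fun k => ?_, fun k k' => h.not_both k k' fun σ a b => a b⟩
    have := (sat_dt (E := E) φ (fun k v => ap E (F k) (v 0)) fun _ => inferInstance).d1
      (P := fun s => Sat E φ fun k => ap E (F k) s)
    exact (h.ult2 hc hc (fun s _ => Sat E φ fun k => ap E (F k) s)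
      fun s _ _ _ => this s).resolve_left k
  | and φ ψ ih1 ih2 =>
    intro c F hc hF
    exact (and_congr (ih1 c F hc hF) (ih2 c F hc hF)).trans
      ⟨fun k => k.1.and k.2, fun k => ⟨k.mono fun σ k => k.1, k.mono fun σ k => k.2⟩⟩
  | ex φ ih =>
    intro c F hc hF
    have e : ∀ (t : M → M) (g : M) (G : ℕ → M),
        (fun k => t (scons g G k)) = scons (t g) fun k => t (G k) := fun t g G => by
      funext k; cases k <;> rfl
    have hT : ∀ (g : M) (G : ℕ → M), Tot E K g → (∀ k, Tot E K (G k)) →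
        ∀ k, Tot E K (scons g G k) := fun g G a b k => by cases k; exacts [a, b _]
    constructor
    · rintro ⟨_, ⟨_, ⟨b, g, rfl, hb, hg⟩, rfl⟩, k⟩
      obtain ⟨p, f0, g0, hp, q⟩ := h.pair hc hb
      choose F' a1 a2 using fun k => lam h.ac K fun s => ap E (F k) (ap E f0 s)
      obtain ⟨g', b1, b2⟩ := lam h.ac K fun s => ap E g (ap E g0 s)
      have e1 : val (pr E b g) = val (pr E p g') :=
        (h2 _ _ (Pt.mk' hb hg) (Pt.mk' hp b1)).2 (q.mono fun σ q => by
          rw [ultEv_pr, ultEv_pr, b2 _ q.1, q.2.2])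
      have e2 : ∀ k, val (pr E c (F k)) = val (pr E p (F' k)) := fun k =>
        (h2 _ _ (Pt.mk' hc (hF k)) (Pt.mk' hp (a1 k))).2 (q.mono fun σ q => by
          rw [ultEv_pr, ultEv_pr, a2 _ _ q.1, q.2.1])
      rw [e1, funext e2, ← e (fun g => val (pr E p g)), ih _ _ hp (hT _ _ b1 a1)] at k
      refine (k.and q).mono fun σ ⟨k, q⟩ => ⟨ap E g' (σ p), ?_⟩
      rw [e (fun g => ap E g (σ p))] at k
      simpa only [a2 _ _ q.1, q.2.1] using k
    · intro k
      have := sat_dt (E := E) φ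
        (fun k => match k with | 0 => fun v => v 1 | k + 1 => fun v => ap E (F k) (v 0))
        fun k => by cases k <;> infer_instance
      have hd : Df E fun v => Sat E φ (scons (v 1) fun k => ap E (F k) (v 0)) :=
        this.congr fun v => iff_of_eq (congrArg _ (by funext k; cases k <;> rfl))
      obtain ⟨g, g1, -, g2⟩ := skolem h.ac K fun s w => Sat E φ (scons w fun k => ap E (F k) s)
      refine ⟨val (pr E c g), ⟨_, Pt.mk' hc g1, rfl⟩, ?_⟩
      rw [← e (fun g => val (pr E c g)), ih _ _ hc (hT _ _ g1 hF)]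
      refine (k.and (h.dom hc)).mono fun σ k => ?_
      rw [e (fun g => ap E g (σ c))]
      exact g2 _ k.2 k.1

theorem SysT.ult (hC : Choice E) {K N : M} {T : M → M → M → Prop} (dT : D3 E T)
    (h : SysT E K N T) : ∃ j W sd, Real E K N T j W sd ∧ Gen E K N j W sd := by
  obtain ⟨c, hc⟩ := h.ne
  have hu := h.ultra
  replace h : UltS E K N T := ⟨hC, dT, h⟩
  obtain ⟨val, dv, h1, h2, h3⟩ := h.col
  obtain ⟨cst, dc, hcst⟩ := ex_op (E := E) (fun x p => ∃ s, E s K ∧ IsOPair E p s x) fun x => by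
    obtain ⟨t, ht⟩ := ex_upair E x x
    obtain ⟨r, hr, -⟩ := ex_rel E K t fun _ _ => True
    exact ⟨r, fun p ⟨s, k1, k2⟩ => (hr p).2 ⟨s, x, k1, (ht x).2 (Or.inl rfl), k2, trivial⟩⟩
  have c1 : ∀ x s y, App E (cst x) s y ↔ E s K ∧ y = x := fun x s y =>
    ⟨fun ⟨p, k1, k2⟩ => let ⟨s', k3, k4⟩ := (hcst _ _).1 k2
      ⟨(k1.inj k4).1 ▸ k3, (k1.inj k4).2⟩,
      fun ⟨k1, k2⟩ => ⟨_, pr_spec _ _, (hcst _ _).2 ⟨s, k1, k2 ▸ pr_spec _ _⟩⟩⟩
  have c2 : ∀ x, Tot E K (cst x) := fun x =>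
    ⟨fun s y y' k1 k2 => ((c1 _ _ _).1 k1).2.trans ((c1 _ _ _).1 k2).2.symm,
      fun s hs => ⟨x, (c1 _ _ _).2 ⟨hs, rfl⟩⟩⟩
  have c3 : ∀ x s, E s K → ap E (cst x) s = x := fun x s hs =>
    ap_eq (c2 x).1 ((c1 _ _ _).2 ⟨hs, rfl⟩)
  have c4 : ∀ a, E a N → ∀ x, val (pr E c (cst x)) = val (pr E a (cst x)) := fun a ha x =>
    (h2 _ _ (Pt.mk' hc (c2 x)) (Pt.mk' ha (c2 x))).2 (((h.dom hc).and (h.dom ha)).mono
      fun σ k => by rw [ultEv_pr, ultEv_pr, c3 _ _ k.1, c3 _ _ k.2])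
  obtain ⟨i, i1, i2⟩ := lam hC K fun s => s
  have hE : El E (fun x => val (pr E c (cst x))) {y | ∃ x, Pt E K N x ∧ val x = y} :=
    { dj := fun s t _ _ => inferInstance
      dW := fun t _ => inferInstanceAs (Df E fun v => ∃ x, Pt E K N x ∧ val x = t v)
      trans := fun _ ⟨x, hx, e⟩ z hz => h3 x hx z (e ▸ hz)
      maps := fun x => ⟨_, Pt.mk' hc (c2 x), rfl⟩
      elem := fun φ v => by
        rw [h.los h1 h2 φ c (fun k => cst (v k)) hc fun k => c2 _]
        exact ⟨fun k => (h.dom hc).mono fun σ q => by simpa only [c3 _ _ q] using k,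
          fun k => let ⟨σ, k, q⟩ := h.ex (k.and (h.dom hc)); by simpa only [c3 _ _ q] using k⟩ }
  have key : ∀ R a f g, E a N → Tot E K f → Tot E K g →
      (UltAE E T fun σ => App E R (ap E f (σ a)) (ap E g (σ a))) →
      App E (val (pr E c (cst R))) (val (pr E a f)) (val (pr E a g)) := fun R a f g ha hf hg k => by
    obtain ⟨φ, hφ⟩ := (inferInstance : RD E (fun _ => True) fun _ v => App E (v 0) (v 1) (v 2)).out
    have hT : ∀ k, Tot E K ([cst R, f].getD k g) := fun k =>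
      match k with | 0 => c2 R | 1 => hf | _ + 2 => hg
    rw [c4 a ha]
    refine (hφ _ trivial hE.trans (fun k => val (pr E a ([cst R, f].getD k g)))
      fun k => ⟨_, Pt.mk' ha (hT k), rfl⟩).1 ((h.los h1 h2 φ a _ ha hT).2 ?_)
    refine (k.and (h.dom ha)).mono fun σ k => (satW_univ _ _).1
      ((hφ _ trivial tr_univ _ fun _ => trivial).2 ?_)
    show App E (ap E (cst R) _) _ _
    rw [c3 _ _ k.2]; exact k.1
  have fw : ∀ a b R, E a N → E b N → T a b R →
      App E (val (pr E c (cst R))) (val (pr E a i)) (val (pr E b i)) := fun a b R ha hb k => by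
    obtain ⟨p, f0, g0, hp, q⟩ := h.pair ha hb
    obtain ⟨f, f1, f2⟩ := lam hC K (ap E f0)
    obtain ⟨g, g1, g2⟩ := lam hC K (ap E g0)
    have := key R _ f g hp f1 g1 (((UltAE.one k).and q).mono fun σ k => by
      rw [f2 _ k.2.1, g2 _ k.2.1, k.2.2.1, k.2.2.2]; exact k.1)
    rwa [(h2 _ _ (Pt.mk' hp f1) (Pt.mk' ha i1)).2 ((q.and (h.dom ha)).mono fun σ k => by
        rw [ultEv_pr, ultEv_pr, f2 _ k.1.1, k.1.2.1, i2 _ k.2]),
      (h2 _ _ (Pt.mk' hp g1) (Pt.mk' hb i1)).2 ((q.and (h.dom hb)).mono fun σ k => by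
        rw [ultEv_pr, ultEv_pr, g2 _ k.1.1, k.1.2.2, i2 _ k.2])] at this
  refine ⟨_, _, fun a => val (pr E a i), ⟨hE, fun s t _ _ => inferInstance, fun a ha => ?_,
    fun a b R ha hb hR => ⟨fw a b R ha hb, fun k => ?_⟩⟩, ?_⟩
  · exact (h1 _ _ (Pt.mk' ha i1) (Pt.mk' hc (c2 K))).2 (((h.dom ha).and (h.dom hc)).mono
      fun σ k => by rw [ultEv_pr, ultEv_pr, i2 _ k.1, c3 _ _ k.2]; exact k.1)
  · obtain ⟨R', r1, r2⟩ := ult_rel (E := E) K (fun s t => ¬ App E R s t) fun _ _ _ _ => inferInstance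
    refine (hu a ha b hb R trivial R' trivial hR r1 fun s hs t ht => ?_).resolve_right fun k' => ?_
    · by_cases q : App E R s t
      exacts [Or.inl q, Or.inr ((r2 s t).2 ⟨hs, ht, q⟩)]
    · exact (hE.tr2 (fun _ R R' => ∀ s t, App E R' s t → ¬ App E R s t) R R').1
        (fun s t q => ((r2 s t).1 q).2.2) _ _ (fw a b R' ha hb k') k
  · rintro _ ⟨_, ⟨a, f, rfl, ha, hf⟩, rfl⟩
    exact ⟨a, f, ha, hf, key f a i f ha i1 hf
      ((h.dom ha).mono fun σ k => by rw [i2 _ k]; exact hf.app k)⟩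

end Pool.Agent.Lib.MP_75a307_lc.LE
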