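import Pool.Agent.Lib.MP_75a307_lc.LE.Inn
import Pool.Agent.Lib.MP_75a307_lc.LE.Ult

/-! Values of points in a realised system. -/

set_option synthInstance.maxSize 100000
set_option linter.unusedVariables false
set_option linter.unusedSectionVars false

namespace Pool.Agent.Lib.MP_75a307_lc.LE

open Pool.Agent.Lib.MP_1d770b_lc

universe u
variable {M : Type u} {E : M → M → Prop} [hZ : ZF E] {K G G' : M}

section
variable {j sd : M → M} {W : Set M} {N f g a b s x : M} {T : M → M → M → Prop}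

theorem fac_tot (h : El E j W) (hf : Tot E K f) : Tot E (j K) (j f) :=
  (h.tr2 (fun _ K f => Fn E f ∧ ∀ s, E s K → ∃ y, App E f s y) K f).1 hf

theorem fac_mem (h : El E j W) (hf : Tot E K f) (hs : E s (j K)) : ap E (j f) s ∈ W :=
  (h.trans.app (h.maps f) ((fac_tot h hf).app hs)).2

theorem fac_const (h : El E j W) (hf : Tot E K f) (k : ∀ s, E s K → ap E f s = x)
    (hs : E s (j K)) : ap E (j f) s = j x :=
  ap_eq (h.fn hf.1) ((h.tr3 (fun _ K f x => ∀ s, E s K → App E f s x) K f x).1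
    (fun s hs => k s hs ▸ hf.app hs) s hs)

theorem fac_idf (h : El E j W) (hf : Tot E K f) (k : ∀ s, E s K → ap E f s = s)
    (hs : E s (j K)) : ap E (j f) s = s :=
  ap_eq (h.fn hf.1) ((h.tr2 (fun _ K f => ∀ s, E s K → App E f s s) K f).1
    (fun s hs => by have := hf.app hs; rwa [k s hs] at this) s hs)

theorem fac_comp (h : El E j W) {c t : M} (hf : Tot E K f) (hg : Fn E g) (hc : Tot E K c)
    (k : ∀ s, E s K → ap E c s = ap E f (ap E g s)) (hs : E s (j K)) (ht : E t (j K))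
    (e : App E (j g) s t) : ap E (j c) s = ap E (j f) t :=
  ap_eq (h.fn hc.1) ((h.tr4 (fun _ K f g c => ∀ s, E s K → ∀ t, App E g s t → ∀ y, App E f t y →
    App E c s y) K f g c).1 (fun s hs t a y b => by
      have := hc.app hs
      rwa [k s hs, ap_eq hg a, ap_eq hf.1 b] at this) s hs t e _ ((fac_tot h hf).app ht))

theorem fac_rel (P : M → M → Prop) [Df E fun v => P (v 0) (v 1)] (K : M) :
    ∃ R, Rel E K R ∧ ∀ s t, App E R s t ↔ E s K ∧ E t K ∧ P s t :=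
  let ⟨R, h1, h2⟩ := ex_rel E K K P
  ⟨R, fun p hp => let ⟨s, t, a, b, c, _⟩ := (h1 p).1 hp; ⟨s, t, c, a, b⟩, h2⟩

theorem fac_two (r : Real E K N T j W sd) (rel : ∀ a b R, T a b R → E a N ∧ E b N ∧ Rel E K R)
    (Q : M → M → Prop) (dQ : D2 E Q) (rQ : ∀ i k, RD E (Good E) fun _ v => Q (v i) (v k))
    (ha : E a N) (hb : E b N) (hf : Tot E K f) (hg : Tot E K g) :
    (∃ R, T a b R ∧ ∀ s t, App E R s t → Q (ap E f s) (ap E g t)) ↔
      Q (ap E (j f) (sd a)) (ap E (j g) (sd b)) := by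
  have a1 := (fac_tot r.el hf).app (r.mem a ha)
  have a2 := (fac_tot r.el hg).app (r.mem b hb)
  constructor
  · rintro ⟨R, h1, h2⟩
    exact (r.el.tr3 (fun _ R f g => ∀ s t, App E R s t → ∀ y, App E f s y → ∀ z, App E g t z → Q y z)
      R f g).1 (fun s t k y k1 z k2 => ap_eq hf.1 k1 ▸ ap_eq hg.1 k2 ▸ h2 s t k) _ _
      ((r.iff a b R ha hb (rel a b R h1).2.2).1 h1) _ a1 _ a2
  · intro k
    have := dt2 dQ
    obtain ⟨R, h1, h2⟩ := fac_rel (E := E) (fun s t => Q (ap E f s) (ap E g t)) K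
    refine ⟨R, (r.iff a b R ha hb h1).2 ?_, fun s t k => ((h2 s t).1 k).2.2⟩
    exact (r.el.tr4 (fun _ K R f g => ∀ s, E s K → ∀ t, E t K → ∀ y, App E f s y → ∀ z, App E g t z →
      Q y z → App E R s t) K R f g).1 (fun s hs t ht y k1 z k2 q => (h2 s t).2
        ⟨hs, ht, (ap_eq hf.1 k1).symm ▸ (ap_eq hg.1 k2).symm ▸ q⟩) _ (r.mem a ha) _ (r.mem b hb)
      _ a1 _ a2 k

theorem fac_isap (y f x : M) : ((∀ z, E z y → ∃ y', App E f x y' ∧ E z y') ∧
    ∀ y', App E f x y' → Sub E y' y) ↔ y = ap E f x :=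
  ⟨fun h => ext' E fun z => Iff.trans ⟨h.1 z, fun ⟨y', a, b⟩ => h.2 y' a z b⟩ (ap_spec f x z).symm,
    fun h => h ▸ ⟨fun z => (ap_spec f x z).1, fun y' a z b => (ap_spec f x z).2 ⟨y', a, b⟩⟩⟩

theorem fac_rd (φ : Fm) : ∀ (ρ : ℕ → ℕ) (i : ℕ),
    RD E (Inn E) fun W v => SatW E W φ fun k => ap E (v (ρ k)) (v i) := by
  have rap (k l m : ℕ) : RD E (Inn E) fun _ v => v k = ap E (v l) (v m) :=
    RD.congr (P := fun _ v => (∀ z, E z (v k) → ∃ y', App E (v l) (v m) y' ∧ E z y') ∧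
      ∀ y', App E (v l) (v m) y' → Sub E y' (v k)) fun _ _ _ _ _ => fac_isap ..
  induction φ with
  | mem a b =>
    intro ρ i
    exact RD.congr (P := fun W v => ∃ y ∈ W, y = ap E (v (ρ a)) (v i) ∧
      ∃ z ∈ W, z = ap E (v (ρ b)) (v i) ∧ E y z) fun W g _ v hv =>
      ⟨fun ⟨_, _, e, _, _, e', k⟩ => by rw [e, e'] at k; exact k,
        fun k => ⟨_, g.ap (hv _) (hv _), rfl, _, g.ap (hv _) (hv _), rfl, k⟩⟩
  | eq a b =>
    intro ρ i
    exact RD.congr (P := fun W v => ∃ y ∈ W, y = ap E (v (ρ a)) (v i) ∧ y = ap E (v (ρ b)) (v i))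
      fun W g _ v hv => ⟨fun ⟨_, _, e, e'⟩ => e.symm.trans e',
        fun k => ⟨_, g.ap (hv _) (hv _), rfl, k⟩⟩
  | neg φ ih => intro ρ i; exact @RD.not _ _ _ _ (ih ρ i)
  | and φ ψ ih1 ih2 => intro ρ i; exact @RD.and _ _ _ _ _ (ih1 ρ i) (ih2 ρ i)
  | ex φ ih =>
    intro ρ i
    have e (c : M) (v : ℕ → M) : (fun k => ap E (scons c v (lift ρ k)) (v i)) =
        scons (ap E c (v i)) fun k => ap E (v (ρ k)) (v i) := by
      funext k; cases k <;> rfl
    have h := @RD.ex _ E (Inn E)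
      (fun W c v => SatW E W φ fun k => ap E (scons c v (lift ρ k)) (v i))
      (@RD.congr _ _ _ _ _ (ih (lift ρ) (i + 1)) fun W _ _ v _ => iff_of_eq (by
        congr 1; funext k; cases k <;> rfl))
    refine @RD.congr _ _ _ _ _ h fun W g t v hv => ⟨fun ⟨c, hc, k⟩ =>
      ⟨_, g.ap hc (hv i), e c v ▸ k⟩, fun ⟨y, hy, k⟩ => ?_⟩
    have hp := g.pr.2 ⟨hv i, hy⟩
    obtain ⟨c, d, h1, -, h2⟩ := pr_spec (E := E) (pr E (v i) y) (pr E (v i) y)
    have hc : ∀ s z, App E c s z → s = v i ∧ z = y := fun s z k =>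
      pr_inj (((h1 _).1 (app_iff.1 k)).elim id id)
    refine ⟨c, t _ (g.pr.2 ⟨hp, hp⟩) _ ((h2 c).2 (Or.inl rfl)), ?_⟩
    rwa [e, ap_eq (fun s z z' k k' => (hc _ _ k).2.trans (hc _ _ k').2.symm)
      (app_iff.2 ((h1 _).2 (Or.inl rfl)))]

theorem fac_los (hC : Choice E) (φ : Fm) (F : ℕ → M) : ∃ R, Rel E K R ∧
    ∀ {j : M → M} {W : Set M}, El E j W → ∀ s, E s (j K) →
      (App E (j R) s s ↔ SatW E W φ fun k => ap E (j (F k)) s) := by
  have := sat_dt (E := E) φ (fun k v => ap E (F k) (v 0)) fun _ => inferInstance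
  obtain ⟨R, h1, h2⟩ := fac_rel (E := E) (fun s _ => Sat E φ fun k => ap E (F k) s) K
  have d := @RD.ball _ E (Inn E)
    (fun W s v => App E (v 1) s s ↔ SatW E W φ fun k => ap E (v (k + 2)) s) 0
    (@RD.iff _ _ _ _ _ (RD.app 2 0 0) (fac_rd φ (fun k => k + 3) 0))
  exact ⟨R, h1, fun h => (@El.trG _ _ _ _ _ h _ (inn_univ hC) (h.inn hC) _ d
    (scons K (scons R F))).1 fun s hs => (h2 s s).trans
      ⟨fun k => (satW_univ _ _).2 k.2.2, fun k => ⟨hs, hs, (satW_univ _ _).1 k⟩⟩⟩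

omit hZ in
theorem fac_fin (φ : Fm) : ∃ n, ∀ (W : Set M) (v v' : ℕ → M), (∀ i < n, v i = v' i) →
    (SatW E W φ v ↔ SatW E W φ v') := by
  induction φ with
  | mem a b => exact ⟨a + b + 1, fun W v v' h => by
      simp only [SatW, h a (by omega), h b (by omega)]⟩
  | eq a b => exact ⟨a + b + 1, fun W v v' h => by
      simp only [SatW, h a (by omega), h b (by omega)]⟩
  | neg φ ih => exact ih.imp fun n k W v v' h => not_congr (k W v v' h)
  | and φ ψ ih1 ih2 =>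
    obtain ⟨n, k⟩ := ih1
    obtain ⟨m, l⟩ := ih2
    exact ⟨n + m, fun W v v' h => and_congr (k W v v' fun i hi => h i (by omega))
      (l W v v' fun i hi => h i (by omega))⟩
  | ex φ ih =>
    exact ih.imp fun n k W v v' h => exists_congr fun a => and_congr_right fun _ =>
      k W _ _ fun i hi => by cases i; exacts [rfl, h _ (by omega)]

theorem fac_gen (r : Real E K N T j W sd) (g : Gen E K N j W sd) (hx : x ∈ W) :
    ∃ a f, E a N ∧ Tot E K f ∧ x = ap E (j f) (sd a) :=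
  let ⟨a, f, h1, h2, h3⟩ := g x hx; ⟨a, f, h1, h2, (ap_eq (r.el.fn h2.1) h3).symm⟩

theorem fac_one (hC : Choice E) (h : SysT E K N T) (r : Real E K N T j W sd) (g : Gen E K N j W sd)
    (v : ℕ → M) (hv : ∀ n, v n ∈ W) (n : ℕ) : ∃ p, ∃ F : ℕ → M, E p N ∧ (∀ k, Tot E K (F k)) ∧
      ∀ k < n, v k = ap E (j (F k)) (sd p) := by
  induction n with
  | zero =>
    obtain ⟨a, f, h1, h2, -⟩ := g _ (hv 0)
    exact ⟨a, fun _ => f, h1, fun _ => h2, fun k hk => (Nat.not_lt_zero k hk).elim⟩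
  | succ n ih =>
    obtain ⟨a, F, ha, hF, e⟩ := ih
    obtain ⟨b, f, hb, hf, e'⟩ := fac_gen r g (hv n)
    obtain ⟨p, hp, c, d, hc, hd, t1, t2⟩ := h.pair a ha b hb
    choose F' a1 a2 using fun k => lam hC K fun s => ap E (F k) (ap E c s)
    obtain ⟨f', b1, b2⟩ := lam hC K fun s => ap E f (ap E d s)
    refine ⟨p, fun k => if k = n then f' else F' k, hp, fun k => ?_, fun k hk => ?_⟩ <;>
      beta_reduce
    · split_ifs
      exacts [b1, a1 k]
    · split_ifs with q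
      · rw [q, e', fac_comp r.el hf hd b1 b2 (r.mem p hp) (r.mem b hb)
          ((r.iff p b d hp hb (h.rel _ _ _ t2).2.2).1 t2)]
      · rw [e k (by omega), fac_comp r.el (hF k) hc (a1 k) (a2 k) (r.mem p hp) (r.mem a ha)
          ((r.iff p a c hp ha (h.rel _ _ _ t1).2.2).1 t1)]

theorem fac_tr3 (s : Sub E G G') {R : M} (h : Tr3 E G a b R) : Tr3 E G' a b R :=
  let ⟨q, h1, h2⟩ := h; ⟨q, h1, h2.mono s⟩

theorem fac_sN (s : Sub E G G') (h : E a (sN E G)) : E a (sN E G') :=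
  let ⟨b, R, k⟩ := (mem_sN G a).1 h; (mem_sN G' a).2 ⟨b, R, fac_tr3 s k⟩

end

end Pool.Agent.Lib.MP_75a307_lc.LE
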