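import Pool.Agent.Lib.MP_75a307_lc.LE.Inn
import Pool.Agent.Lib.MP_75a307_lc.LE.Ult
import Pool.Agent.Lib.MP_75a307_lc.LE.FacA

/-! The ultrapower of a system, uniformly in the system; factor maps. -/

set_option synthInstance.maxSize 100000
set_option linter.unusedVariables false
set_option linter.unusedSectionVars false

namespace Pool.Agent.Lib.MP_75a307_lc.LE

open Pool.Agent.Lib.MP_1d770b_lc

universe u
variable {M : Type u} {E : M → M → Prop} [hZ : ZF E]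

variable (E) in
def PtK (K G x : M) : Prop := ∃ a f, IsOPair E x a f ∧ (∃ b R, Tr3 E G a b R) ∧ Tot E K f

variable (E) in
abbrev PRel (G x x' : M) (Q : M → M → Prop) : Prop :=
  ∃ a f b g R, IsOPair E x a f ∧ IsOPair E x' b g ∧ Tr3 E G a b R ∧
    ∀ s t, App E R s t → Q (ap E f s) (ap E g t)

variable (E) in
/-- `y` is the value of the point `x` in the collapsed ultrapower by `G` -/
def UV (K G x y : M) : Prop :=
  ∃ π, Fn E π ∧ App E π x y ∧ ∀ u v, App E π u v → PtK E K G u ∧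
    (∀ z, E z v → ∃ u', App E π u' z ∧ PRel E G u' u E) ∧
    ∀ u', PtK E K G u' → PRel E G u' u E → ∃ u'' z, App E π u'' z ∧ E z v ∧ PRel E G u' u'' Eq

variable (E) in
def Wm (K G : M) : Set M := {y | ∃ x, UV E K G x y}

section
variable (a b c d : (ℕ → M) → M)
instance [IsT a] [IsT b] [IsT c] : Df E fun v => PtK E (a v) (b v) (c v) := by
  unfold PtK; infer_instance
instance [IsT a] [IsT b] [IsT c] [IsT d] : Df E fun v => UV E (a v) (b v) (c v) (d v) := by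
  unfold UV; infer_instance
instance (priority := 900) [DT E a] [DT E b] [DT E c] [DT E d] :
    Df E fun v => UV E (a v) (b v) (c v) (d v) :=
  dt4 (fun _ _ _ _ _ _ _ _ => inferInstance) a b c d
instance [DT E a] [DT E b] [DT E c] : Df E fun v => c v ∈ Wm E (a v) (b v) :=
  dt3 (S := fun a b c => c ∈ Wm E a b) (fun a b c _ _ _ =>
    inferInstanceAs (Df E fun v => ∃ x, UV E (a v) (b v) x (c v))) a b c
end

variable (E) in
noncomputable def jG (K G x : M) : M :=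
  the E fun y => ∃ a f, (∀ s, E s K → ap E f s = x) ∧ UV E K G (pr E a f) y

variable (E) in
noncomputable def sdG (K G a : M) : M :=
  the E fun y => ∃ f, (∀ s, E s K → ap E f s = s) ∧ UV E K G (pr E a f) y

variable (E) in
noncomputable def fac (K G G' y : M) : M := the E fun z => ∃ x, UV E K G x y ∧ UV E K G' x z

theorem f3 {F : M → M → M → M} (h : D4 E fun x y z w => F x y z = w) (r s t : (ℕ → M) → M)
    [DT E r] [DT E s] [DT E t] : DT E fun v => F (r v) (s v) (t v) := by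
  have := DT.tl (E := E) r
  have := DT.tl (E := E) s
  have := DT.tl (E := E) t
  exact ⟨(dt4 h (fun w => r (tl w)) (fun w => s (tl w)) (fun w => t (tl w)) (fun w => w 0)).congr
    fun _ => eq_comm⟩

section
variable (K : M) (a b c : (ℕ → M) → M) [DT E a] [DT E b] [DT E c]
instance : DT E fun v => jG E K (a v) (b v) :=
  f2 (F := jG E K) (fun _ _ _ _ _ _ => by unfold jG; infer_instance) a b
instance : DT E fun v => sdG E K (a v) (b v) :=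
  f2 (F := sdG E K) (fun _ _ _ _ _ _ => by unfold sdG; infer_instance) a b
instance : DT E fun v => fac E K (a v) (b v) (c v) :=
  f3 (F := fac E K) (fun _ _ _ _ _ _ _ _ => by unfold fac; infer_instance) a b c
end

variable {K G G' G'' : M}

theorem fac_pt {x : M} : PtK E K G x ↔ ∃ a f, x = pr E a f ∧ E a (sN E G) ∧ Tot E K f :=
  exists₂_congr fun a f => and_congr pr_eq (and_congr_left' (mem_sN G a).symm)

theorem fac_prel {j sd : M → M} {W : Set M} (h : Sys E K G)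
    (r : Real E K (sN E G) (Tr3 E G) j W sd) (Q : M → M → Prop)
    (dQ : D2 E Q) (rQ : ∀ i k, RD E (Good E) fun _ v => Q (v i) (v k)) {u u' : M}
    (hu : PtK E K G u) (hu' : PtK E K G u') : PRel E G u u' Q ↔
      Q (ap E (j (p2 E u)) (sd (p1 E u))) (ap E (j (p2 E u')) (sd (p1 E u'))) := by
  obtain ⟨a, f, rfl, ha, hf⟩ := fac_pt.1 hu
  obtain ⟨b, g, rfl, hb, hg⟩ := fac_pt.1 hu'
  rw [p1_pr, p2_pr, p1_pr, p2_pr, ← fac_two r h.1.rel Q dQ rQ ha hb hf hg]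
  refine ⟨fun ⟨a', f', b', g', R, k1, k2, k⟩ => ?_, fun ⟨R, k⟩ =>
    ⟨a, f, b, g, R, pr_spec _ _, pr_spec _ _, k⟩⟩
  obtain ⟨rfl, rfl⟩ := k1.inj (pr_spec a f)
  obtain ⟨rfl, rfl⟩ := k2.inj (pr_spec b g)
  exact ⟨R, k⟩

theorem Sys.uv (hC : Choice E) (h : Sys E K G) {j : M → M} {W : Set M} {sd : M → M}
    (r : Real E K (sN E G) (Tr3 E G) j W sd) (g : Gen E K (sN E G) j W sd) {x y : M} :
    UV E K G x y ↔ ∃ a f, x = pr E a f ∧ E a (sN E G) ∧ Tot E K f ∧ y = ap E (j f) (sd a) := by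
  have dj := r.el.fj
  have ds : F1 E sd := f1 r.dsd
  have pe := @fac_prel _ _ _ _ _ _ _ _ h r E (fun _ _ _ _ => inferInstance) fun _ _ => inferInstance
  have pq := @fac_prel _ _ _ _ _ _ _ _ h r Eq (fun _ _ _ _ => inferInstance) fun _ _ => inferInstance
  have vW (u : M) (hu : PtK E K G u) : ap E (j (p2 E u)) (sd (p1 E u)) ∈ W := by
    obtain ⟨a, f, rfl, ha, hf⟩ := fac_pt.1 hu
    rw [p1_pr, p2_pr]
    exact fac_mem r.el hf (r.mem a ha)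
  have su (z : M) (hz : z ∈ W) : ∃ u, PtK E K G u ∧ ap E (j (p2 E u)) (sd (p1 E u)) = z := by
    obtain ⟨a, f, ha, hf, e⟩ := fac_gen r g hz
    exact ⟨pr E a f, fac_pt.2 ⟨a, f, rfl, ha, hf⟩, by rw [p1_pr, p2_pr, e]⟩
  constructor
  · rintro ⟨π, -, hx, H⟩
    have key : ∀ v u, App E π u v → ap E (j (p2 E u)) (sd (p1 E u)) = v := by
      refine mem_ind E (fun v => ∀ u, App E π u v → ap E (j (p2 E u)) (sd (p1 E u)) = v) ?_
      intro v ih u hu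
      obtain ⟨h1, h2, h3⟩ := H u v hu
      refine ext' E fun z => ⟨fun hz => ?_, fun hz => ?_⟩
      · obtain ⟨u', k1, rfl⟩ := su z (r.el.trans _ (vW u h1) z hz)
        obtain ⟨u'', z', k2, k3, k4⟩ := h3 u' k1 ((pe k1 h1).2 hz)
        rwa [(pq k1 (H _ _ k2).1).1 k4, ih z' k3 u'' k2]
      · obtain ⟨u', k1, k2⟩ := h2 z hz
        rw [← ih z hz u' k1]
        exact (pe (H _ _ k1).1 h1).1 k2
    obtain ⟨a, f, rfl, ha, hf⟩ := fac_pt.1 (H x y hx).1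
    exact ⟨a, f, rfl, ha, hf, by rw [← key y _ hx, p1_pr, p2_pr]⟩
  · rintro ⟨a, f, rfl, ha, hf, hy⟩
    obtain ⟨t, ht, hyt⟩ := ex_trans E y
    obtain ⟨b, hb⟩ := coll E t fun z u => PtK E K G u ∧ ap E (j (p2 E u)) (sd (p1 E u)) = z
    obtain ⟨b', hb'⟩ := ex_ins E b (pr E a f)
    obtain ⟨π, -, hπ⟩ := ex_rel E b' t fun u z => PtK E K G u ∧ ap E (j (p2 E u)) (sd (p1 E u)) = z
    have ex (z : M) (hz : E z t) (hW : z ∈ W) : ∃ u, App E π u z := by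
      obtain ⟨u, k1, k2⟩ := hb z hz (su z hW)
      exact ⟨u, (hπ u z).2 ⟨(hb' u).2 (Or.inl k1), hz, k2⟩⟩
    refine ⟨π, fun u z z' k k' => ((hπ _ _).1 k).2.2.2.symm.trans ((hπ _ _).1 k').2.2.2,
      (hπ _ _).2 ⟨(hb' _).2 (Or.inr rfl), hyt, fac_pt.2 ⟨a, f, rfl, ha, hf⟩,
        by rw [p1_pr, p2_pr, hy]⟩, fun u v k => ?_⟩
    obtain ⟨-, k1, k2, rfl⟩ := (hπ u v).1 k
    refine ⟨k2, fun z hz => ?_, fun u' k3 k4 => ?_⟩
    · obtain ⟨u', k3⟩ := ex z (ht _ _ k1 hz) (r.el.trans _ (vW u k2) z hz)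
      obtain ⟨-, -, k4, k5⟩ := (hπ u' z).1 k3
      exact ⟨u', k3, (pe k4 k2).2 (k5.symm ▸ hz)⟩
    · have hz := (pe k3 k2).1 k4
      obtain ⟨u'', k5⟩ := ex _ (ht _ _ k1 hz) (vW u' k3)
      obtain ⟨-, -, k6, k7⟩ := (hπ u'' _).1 k5
      exact ⟨u'', _, k5, hz, (pq k3 k6).2 k7.symm⟩

theorem Sys.uniq (hC : Choice E) (h : Sys E K G) {j : M → M} {W : Set M} {sd : M → M}
    (r : Real E K (sN E G) (Tr3 E G) j W sd) (g : Gen E K (sN E G) j W sd) :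
    j = jG E K G ∧ W = Wm E K G ∧ ∀ a, E a (sN E G) → sd a = sdG E K G a := by
  refine ⟨funext fun x => (the_eq ?_ ?_).symm, Set.ext fun y => ⟨fun hy => ?_, ?_⟩,
    fun a ha => (the_eq ?_ ?_).symm⟩
  · obtain ⟨c, hc⟩ := h.1.ne
    obtain ⟨f, h1, h2⟩ := lam hC K fun _ => x
    exact ⟨c, f, h2, (h.uv hC r g).2 ⟨c, f, rfl, hc, h1, (fac_const r.el h1 h2 (r.mem c hc)).symm⟩⟩
  · rintro y ⟨a, f, k1, k2⟩
    obtain ⟨b, f', e, k3, k4, rfl⟩ := (h.uv hC r g).1 k2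
    obtain ⟨rfl, rfl⟩ := pr_inj e
    exact fac_const r.el k4 k1 (r.mem a k3)
  · obtain ⟨a, f, k⟩ := fac_gen r g hy
    exact ⟨_, (h.uv hC r g).2 ⟨a, f, rfl, k⟩⟩
  · rintro ⟨x, hx⟩
    obtain ⟨a, f, -, k1, k2, rfl⟩ := (h.uv hC r g).1 hx
    exact fac_mem r.el k2 (r.mem a k1)
  · obtain ⟨f, h1, h2⟩ := lam hC K fun s => s
    exact ⟨f, h2, (h.uv hC r g).2 ⟨a, f, rfl, ha, h1, (fac_idf r.el h1 h2 (r.mem a ha)).symm⟩⟩
  · rintro y ⟨f, k1, k2⟩
    obtain ⟨b, f', e, k3, k4, rfl⟩ := (h.uv hC r g).1 k2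
    obtain ⟨rfl, rfl⟩ := pr_inj e
    exact fac_idf r.el k4 k1 (r.mem a k3)

theorem Sys.canon (hC : Choice E) (h : Sys E K G) :
    Real E K (sN E G) (Tr3 E G) (jG E K G) (Wm E K G) (sdG E K G) ∧
      Gen E K (sN E G) (jG E K G) (Wm E K G) (sdG E K G) := by
  obtain ⟨j, W, sd, r, g⟩ := SysT.ult hC (fun _ _ _ _ _ _ => inferInstance) h.1
  obtain ⟨rfl, rfl, e⟩ := h.uniq hC r g
  exact ⟨⟨r.el, fun _ _ _ _ => inferInstance, fun a ha => e a ha ▸ r.mem a ha,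
    fun a b R ha hb k => e a ha ▸ e b hb ▸ r.iff a b R ha hb k⟩,
    fun x hx => let ⟨a, f, h1, h2, h3⟩ := g x hx; ⟨a, f, h1, h2, e a h1 ▸ h3⟩⟩

theorem Sys.el (hC : Choice E) (h : Sys E K G) : El E (jG E K G) (Wm E K G) := (h.canon hC).1.el

theorem Sys.inn (hC : Choice E) (h : Sys E K G) : Inn E (Wm E K G) := (h.el hC).inn hC

theorem Sys.fac_val (hC : Choice E) (h : Sys E K G) (h' : Sys E K G') (s : Sub E G G') {a f : M}
    (ha : E a (sN E G)) (hf : Tot E K f) : fac E K G G' (ap E (jG E K G f) (sdG E K G a)) =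
      ap E (jG E K G' f) (sdG E K G' a) := by
  obtain ⟨r, g⟩ := h.canon hC
  obtain ⟨r', g'⟩ := h'.canon hC
  refine the_eq ⟨pr E a f, (h.uv hC r g).2 ⟨a, f, rfl, ha, hf, rfl⟩,
    (h'.uv hC r' g').2 ⟨a, f, rfl, fac_sN s ha, hf, rfl⟩⟩ ?_
  rintro z ⟨x, k1, k2⟩
  obtain ⟨b, c, rfl, hb, hc, e⟩ := (h.uv hC r g).1 k1
  obtain ⟨b', c', e', -, -, rfl⟩ := (h'.uv hC r' g').1 k2
  obtain ⟨rfl, rfl⟩ := pr_inj e'
  obtain ⟨R, t, k⟩ := (fac_two r h.1.rel Eq (fun _ _ _ _ => inferInstance)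
    (fun _ _ => inferInstance) hb ha hc hf).2 e.symm
  exact (fac_two r' h'.1.rel Eq (fun _ _ _ _ => inferInstance) (fun _ _ => inferInstance)
    (fac_sN s hb) (fac_sN s ha) hc hf).1 ⟨R, fac_tr3 s t, k⟩

theorem Sys.fac (hC : Choice E) (h : Sys E K G) (h' : Sys E K G') (s : Sub E G G') :
    ElW E (Wm E K G) (Wm E K G') (fac E K G G') ∧
      (∀ x, fac E K G G' (jG E K G x) = jG E K G' x) ∧
      ∀ a, E a (sN E G) → E a (sN E G') ∧ fac E K G G' (sdG E K G a) = sdG E K G' a := by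
  obtain ⟨r, g⟩ := h.canon hC
  obtain ⟨r', g'⟩ := h'.canon hC
  have half (φ : Fm) (v : ℕ → M) (hv : ∀ n, v n ∈ Wm E K G) (k : SatW E (Wm E K G) φ v) :
      SatW E (Wm E K G') φ fun n => LE.fac E K G G' (v n) := by
    obtain ⟨n, hn⟩ := fac_fin (E := E) φ
    obtain ⟨p, F, hp, hF, e⟩ := fac_one hC h.1 r g v hv n
    obtain ⟨R, h1, h2⟩ := fac_los (K := K) hC φ F
    have hp' := fac_sN s hp
    exact (hn _ _ _ fun i hi => by rw [e i hi, h.fac_val hC h' s hp (hF i)]).2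
      ((h2 r'.el _ (r'.mem p hp')).1 ((r'.iff p p R hp' hp' h1).1 (fac_tr3 s
        ((r.iff p p R hp hp h1).2 ((h2 r.el _ (r.mem p hp)).2 ((hn _ _ _ e).1 k))))))
  refine ⟨⟨fun _ _ _ _ => inferInstance, h.inn hC, h'.inn hC, fun x hx => ?_, fun φ v hv =>
    ⟨half φ v hv, fun k => by_contra fun k' => half (.neg φ) v hv k' k⟩⟩, fun x => ?_,
    fun a ha => ⟨fac_sN s ha, ?_⟩⟩
  · obtain ⟨a, f, ha, hf, rfl⟩ := fac_gen r g hx
    rw [h.fac_val hC h' s ha hf]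
    exact fac_mem r'.el hf (r'.mem a (fac_sN s ha))
  · obtain ⟨c, hc⟩ := h.1.ne
    obtain ⟨f, h1, h2⟩ := lam hC K fun _ => x
    rw [← fac_const r.el h1 h2 (r.mem c hc), h.fac_val hC h' s hc h1,
      fac_const r'.el h1 h2 (r'.mem c (fac_sN s hc))]
  · obtain ⟨f, h1, h2⟩ := lam hC K fun s => s
    rw [← fac_idf r.el h1 h2 (r.mem a ha), h.fac_val hC h' s ha h1,
      fac_idf r'.el h1 h2 (r'.mem a (fac_sN s ha))]

theorem Sys.fac_id (hC : Choice E) (h : Sys E K G) {y : M} (hy : y ∈ Wm E K G) :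
    LE.fac E K G G y = y := by
  obtain ⟨a, f, ha, hf, rfl⟩ := fac_gen (h.canon hC).1 (h.canon hC).2 hy
  exact h.fac_val hC h (fun _ => id) ha hf

theorem Sys.fac_comp (hC : Choice E) (h : Sys E K G) (h' : Sys E K G') (h'' : Sys E K G'')
    (s : Sub E G G') (s' : Sub E G' G'') {y : M} (hy : y ∈ Wm E K G) :
    LE.fac E K G' G'' (LE.fac E K G G' y) = LE.fac E K G G'' y := by
  obtain ⟨a, f, ha, hf, rfl⟩ := fac_gen (h.canon hC).1 (h.canon hC).2 hy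
  rw [h.fac_val hC h' s ha hf, h'.fac_val hC h'' s' (fac_sN s ha) hf,
    h.fac_val hC h'' (fun x k => s' x (s x k)) ha hf]

theorem Sys.genK (hC : Choice E) (h : Sys E K G) {y : M} (hy : E y (jG E K G K)) :
    ∃ a f, E a (sN E G) ∧ Func E f K K ∧ y = ap E (jG E K G f) (sdG E K G a) := by
  obtain ⟨r, g⟩ := h.canon hC
  obtain ⟨a, f, ha, hf, k⟩ := g y (r.el.trans _ (r.el.maps K) y hy)
  obtain ⟨c, h1, h2⟩ := acF hC K K (fun s w => E (ap E f s) K → w = ap E f s) fun s hs => by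
    by_cases q : E (ap E f s) K
    exacts [⟨_, q, fun _ => rfl⟩, ⟨s, hs, fun q' => (q q').elim⟩]
  refine ⟨a, c, ha, h1, (ap_eq (r.el.fn h1.fn) ?_).symm⟩
  refine (r.el.tr3 (fun _ K f c => ∀ s y, App E f s y → E s K → E y K → App E c s y) K f c).1
    (fun s y k1 k2 k3 => ?_) _ _ k (r.mem a ha) hy
  obtain ⟨w, -, k4⟩ := h1.tot k2
  have := (h2 s w k4).2.2
  rw [ap_eq hf.1 k1] at this
  exact this k3 ▸ k4

theorem sys_base (hC : Choice E) (hK : ∀ a b, E a K → E b K → E (pr E a b) K) (ne : ∃ x, E x K) :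
    ∃ G, Sys E K G ∧ jG E K G = id ∧ Wm E K G = Set.univ := by
  obtain ⟨r, r1, r2⟩ := ex_rel E K K fun _ _ => True
  obtain ⟨P, hP⟩ := ex_pow E r
  have hP' (R : M) : E R P ↔ Rel E K R := (hP R).trans (forall₂_congr fun p _ => (r1 p).trans
    ⟨fun ⟨s, t, a, b, c, _⟩ => ⟨s, t, c, a, b⟩, fun ⟨s, t, c, a, b⟩ => ⟨s, t, a, b, c, trivial⟩⟩)
  obtain ⟨B, -, hB⟩ := ex_rel E K P fun _ _ => True
  obtain ⟨G, g1, g2⟩ := ex_rel E K B fun a q => ∃ b R, IsOPair E q b R ∧ App E R a b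
  have tr (a b R : M) : Tr3 E G a b R ↔ E a K ∧ E b K ∧ Rel E K R ∧ App E R a b := by
    constructor
    · rintro ⟨q, k1, k2⟩
      obtain ⟨k3, k4, b', R', k5, k6⟩ := (g2 a q).1 k2
      obtain ⟨rfl, rfl⟩ := k1.inj k5
      obtain ⟨k7, k8, -⟩ := (hB b R).1 ⟨q, k1, k4⟩
      exact ⟨k3, k7, (hP' R).1 k8, k6⟩
    · rintro ⟨k1, k2, k3, k4⟩
      exact ⟨_, pr_spec b R, (g2 a _).2 ⟨k1, app_iff.1 ((hB b R).2 ⟨k2, (hP' R).2 k3, trivial⟩),
        b, R, pr_spec b R, k4⟩⟩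
  have e : sN E G = K := ext' E fun a => (mem_sN G a).trans ⟨fun ⟨b, R, k⟩ => ((tr a b R).1 k).1,
    fun k => ⟨a, r, (tr a a r).2 ⟨k, k, (hP' r).1 ((hP r).2 fun _ => id), (r2 a a).2 ⟨k, k, trivial⟩⟩⟩⟩
  have cst (a b : M) (ha : E a K) (hb : E b K) : ∃ f, Fn E f ∧ Tr3 E G a b f := by
    obtain ⟨f, f1, f2⟩ := fac_rel (E := E) (fun _ t => t = b) K
    exact ⟨f, fun s t t' k k' => ((f2 s t).1 k).2.2.trans ((f2 s t').1 k').2.2.symm,
      (tr a b f).2 ⟨ha, hb, f1, (f2 a b).2 ⟨ha, hb, rfl⟩⟩⟩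
  have sys : Sys E K G := by
    refine ⟨?_, fun t ht => ?_⟩
    · rw [e]
      refine ⟨fun a b R k => ((tr a b R).1 k).imp_right (And.imp_right And.left),
        fun a ha b hb R _ R' _ k k' H => (H a ha b hb).imp (fun q => (tr a b R).2 ⟨ha, hb, k, q⟩)
          fun q => (tr a b R').2 ⟨ha, hb, k', q⟩, fun a ha b hb => ?_, fun H _ _ k => ?_, ne⟩
      · obtain ⟨f, f1, f2⟩ := cst a a ha ha
        obtain ⟨g, g1, g2⟩ := cst a b ha hb
        exact ⟨a, ha, f, g, f1, g1, f2, g2⟩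
      · obtain ⟨σ, -, hσ⟩ := fac_rel (E := E) (fun s t => t = s) K
        refine ⟨σ, trivial, fun s t t' k k' => ((hσ s t).1 k).2.2.trans ((hσ s t').1 k').2.2.symm,
          fun a q ⟨t, k1, k2⟩ b R k3 => ?_⟩
        obtain ⟨a', q', k4, b', R', k5, k6⟩ := k t k2
        obtain ⟨rfl, rfl⟩ := k1.inj k4
        obtain ⟨rfl, rfl⟩ := k3.inj k5
        obtain ⟨ha, hb, -, k7⟩ := (tr a b R).1 k6
        exact ⟨a, (hσ a a).2 ⟨ha, ha, rfl⟩, b, (hσ b b).2 ⟨hb, hb, rfl⟩, k7⟩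
    · obtain ⟨a, q, -, -, k1, b, R, k2, -⟩ := (g1 t).1 ht
      exact ⟨a, q, k1, b, R, k2⟩
  obtain ⟨h1, h2, -⟩ := sys.uniq hC (j := id) (W := Set.univ) (sd := id)
    ⟨el_id, el_id.dj, fun a ha => e ▸ ha, fun a b R ha hb k => (tr a b R).trans
      ⟨fun q => q.2.2.2, fun q => ⟨e ▸ ha, e ▸ hb, k, q⟩⟩⟩ fun x _ => by
      obtain ⟨c, hc⟩ := ne
      obtain ⟨f, f1, f2⟩ := lam hC K fun _ => x
      exact ⟨c, f, e.symm ▸ hc, f1, f2 c hc ▸ f1.app hc⟩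
  exact ⟨G, sys, h1.symm, h2.symm⟩

end Pool.Agent.Lib.MP_75a307_lc.LE
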