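import Pool.Agent.Lib.MP_75a307_lc.LE.UR

/-! First-order forms of extenders, coherence and systems. -/

set_option synthInstance.maxSize 100000
set_option linter.unusedVariables false
set_option linter.unusedSectionVars false

namespace Pool.Agent.Lib.MP_75a307_lc.LE

open Pool.Agent.Lib.MP_1d770b_lc

universe u
variable {M : Type u}

section
variable (E : M → M → Prop)

def IsW (w : M) : Prop := Lim E w ∧ (∃ z, E z w) ∧ ∀ y, E y w → ¬ (Lim E y ∧ ∃ z, E z y)

def Ctb (W : Set M) (H : M) : Prop :=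
  ∃ h ∈ W, Fn E h ∧ ∃ w ∈ W, IsW E w ∧ ∀ t, E t H → ∃ n, E n w ∧ App E h n t

def Rel (K R : M) : Prop := ∀ p, E p R → ∃ s t, IsOPair E p s t ∧ E s K ∧ E t K

/-- the triple `(a, (b, R))` is in `G` -/
def Tr3 (G a b R : M) : Prop := ∃ q, IsOPair E q b R ∧ App E G a q

/-- `σ` is a thread of the set `H` of triples -/
def Thr (H σ : M) : Prop := Fn E σ ∧ ∀ a q, App E H a q → ∀ b R, IsOPair E q b R →
  ∃ s, App E σ a s ∧ ∃ u, App E σ b u ∧ App E R s u

def Ultra (W : Set M) (K N : M) (T : M → M → M → Prop) : Prop :=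
  ∀ a, E a N → ∀ b, E b N → ∀ R ∈ W, ∀ R' ∈ W, Rel E K R → Rel E K R' →
    (∀ s, E s K → ∀ t, E t K → App E R s t ∨ App E R' s t) → T a b R ∨ T a b R'

def CC (W : Set M) (T : M → M → M → Prop) : Prop :=
  ∀ H ∈ W, Ctb E W H → (∀ t, E t H → ∃ a q, IsOPair E t a q ∧ ∃ b R, IsOPair E q b R ∧ T a b R) →
    ∃ σ ∈ W, Thr E H σ

def PairT (N : M) (T : M → M → M → Prop) : Prop :=
  ∀ a, E a N → ∀ b, E b N → ∃ p, E p N ∧ ∃ f g, Fn E f ∧ Fn E g ∧ T p a f ∧ T p b g

structure SysT (K N : M) (T : M → M → M → Prop) : Prop where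
  rel : ∀ a b R, T a b R → E a N ∧ E b N ∧ Rel E K R
  ultra : Ultra E Set.univ K N T
  pair : PairT E N T
  cc : CC E Set.univ T
  ne : ∃ c, E c N

def BinF (F K N a b R : M) : Prop := E a N ∧ E b N ∧ Rel E K R ∧ At E F a b R

abbrev Ae (W : Set M) (F K a b : M) (P : M → M → Prop) : Prop :=
  ∃ R ∈ W, Rel E K R ∧ At E F a b R ∧ ∀ s t, App E R s t → P s t

abbrev Aa (W : Set M) (F K a b : M) (P : M → M → Prop) : Prop :=
  ∀ R ∈ W, Rel E K R → (∀ s, E s K → ∀ t, E t K → P s t → App E R s t) → At E F a b R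

def Nrm (W : Set M) (κ l K N F : M) : Prop :=
  (∀ p, E p N → ∀ a b, IsOPair E p a b →
    (Aa E W F K p a fun q s => ∃ x y, IsOPair E q x y ∧ x = s) ∧
      Aa E W F K p b fun q t => ∃ x y, IsOPair E q x y ∧ y = t) ∧
  (∀ a, E a l → (Aa E W F K a a fun s _ => E s κ) ∧ ∀ b, E b a → Aa E W F K b a fun s t => E s t) ∧
  (∀ a, E a l → ∀ c, E c N → ∀ f ∈ W, Rel E K f → Fn E f →
    (Ae E W F K c a fun s t => ∃ y, App E f s y ∧ E y t) →
      ∃ b, E b a ∧ Aa E W F K c b fun s t => App E f s t) ∧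
  (∀ a, E a κ → Aa E W F K a a fun s _ => s = a) ∧
  ∀ a, E a N → ∀ X ∈ W, Sub E X K → (App E F a X → Aa E W F K a a fun s _ => E s X) ∧
    ((Ae E W F K a a fun s _ => E s X) → App E F a X)

/-- `F` is a `(κ, l)`-extender in the sense of `W` -/
def Ext1 (W : Set M) (κ l F : M) : Prop :=
  IsOrd E κ ∧ IsOrd E l ∧ E κ l ∧ ∃ K ∈ W, ∃ N ∈ W, IsTup E K κ ∧ IsTup E N l ∧
    (∀ p, E p F → ∃ a X, IsOPair E p a X ∧ E a N ∧ Sub E X K) ∧
    Ultra E W K N (BinF E F K N) ∧ CC E W (BinF E F K N) ∧ Nrm E W κ l K N F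

def PX (W : Set M) (S X q s : M) : Prop :=
  ∃ u v, IsOPair E q u v ∧ ∃ p ∈ W, At E S u v p ∧ ∃ s' Y, IsOPair E p s' Y ∧ s' = s ∧
    ∃ t ∈ W, IsTup E t u ∧ (∀ z, E z Y → E z X ∧ E z t) ∧ ∀ z, E z X → E z t → E z Y

/-- the ultrapower map of `F` sends `S` to a sequence that agrees with `S ↾ (κ, l)` up to `κ` -/
def CohAt (W : Set M) (S κ l F : M) : Prop :=
  (∀ u, E u κ → ∀ v ∈ W, Dom E S u v → E v κ) ∧ ∃ K ∈ W, ∃ N ∈ W, IsTup E K κ ∧ IsTup E N l ∧
    (∀ q, E q N → ∀ κ' l', IsOPair E q κ' l' → Le E κ' κ → E l' l → ∀ a, E a N → ∀ X ∈ W,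
      (∃ t ∈ W, IsTup E t κ' ∧ Sub E X t) → ∀ p ∈ W, IsOPair E p a X →
        (At E S κ' l' p → Aa E W F K q a (PX E W S X)) ∧
          (Ae E W F K q a (PX E W S X) → At E S κ' l' p)) ∧
    ∀ κ' ∈ W, Le E κ' κ → ∀ c, E c N → ∀ f ∈ W, Rel E K f → Fn E f →
      (Ae E W F K κ' c fun u s => ∃ y, App E f s y ∧ Dom E S u y) →
        ∃ b, E b l ∧ Aa E W F K c b fun s t => App E f s t

def Coh1 (W : Set M) (S : M) : Prop :=
  (∀ t, E t S → ∃ q p, IsOPair E t q p ∧ ∃ κ l, IsOPair E q κ l ∧ κ = κ) ∧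
  (∀ κ ∈ W, ∀ l ∈ W, Dom E S κ l → ∀ l', E l' l → E κ l' → Dom E S κ l') ∧
  (∀ κ ∈ W, ∀ l ∈ W, ∀ κ' ∈ W, ∀ l' ∈ W, Dom E S κ l → Dom E S κ' l' → E κ κ' → E l κ') ∧
  ∀ κ ∈ W, ∀ l ∈ W, Dom E S κ l → ∃ F ∈ W, Slice E S κ l F ∧ Ext1 E W κ l F ∧ CohAt E W S κ l F

/-- uniqueness of cohering extenders -/
def U1 (W : Set M) (S : M) : Prop :=
  ∀ κ ∈ W, ∀ l ∈ W, ∀ F ∈ W, Dom E S κ l → Ext1 E W κ l F → CohAt E W S κ l F → Slice E S κ l F

def Shape (W : Set M) (S : M) : Prop :=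
  ∀ κ ∈ W, ∀ l ∈ W, ∀ p ∈ W, At E S κ l p → Lim E κ ∧ IsOrd E l ∧ E κ l ∧
    ∃ a X, IsOPair E p a X ∧ (∃ t ∈ W, IsTup E t l ∧ E a t) ∧ ∃ t ∈ W, IsTup E t κ ∧ Sub E X t

/-- `A` and `A'` agree below `(κ, l)` on the sets common to `W` and `W'` -/
def Agree (W W' : Set M) (A A' κ l : M) : Prop :=
  ∀ κ' l' p, E κ' κ ∨ (κ' = κ ∧ E l' l) → p ∈ W → p ∈ W' → (At E A κ' l' p ↔ At E A' κ' l' p)

end

section
variable {R : ∀ (M : Type u) (_ : M → M → Prop), Set M → M → (ℕ → M) → Prop}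
  {S : ∀ (M : Type u) (_ : M → M → Prop), Set M → M → M → (ℕ → M) → Prop}

instance UR.allop (k : ℕ)
    [UR.{u} fun M E W v => S M E W (v 1) (v 0) fun n => v (n + 1 + 1)] :
    UR.{u} fun M E W v => ∀ x y, IsOPair E (v k) x y → S M E W x y v :=
  UR.congr (P := fun M E W v => ∀ x ∈ W, ∀ y ∈ W, IsOPair E (v k) x y → S M E W x y v)
    fun _ _ _ _ _ t v hv => ⟨fun h x y hp => h x (t.opair (hv k) hp).1 y (t.opair (hv k) hp).2 hp,
      fun h x _ y _ hp => h x y hp⟩
end

section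
variable (i j k l m n : ℕ)

instance : UR.{u} fun _ E _ v => IsTup E (v i) (v j) :=
  UR.congr (P := fun _ E _ v => (∀ x, E x (v i) → E x (v j) ∨
      ∃ a b, IsOPair E x a b ∧ E a (v i) ∧ E b (v i)) ∧ Sub E (v j) (v i) ∧
      ∀ a, E a (v i) → ∀ b, E b (v i) → ∃ x, E x (v i) ∧ IsOPair E x a b)
    fun _ E _ _ _ _ v _ => ⟨fun ⟨h1, h2, h3⟩ x => ⟨fun hx => (h1 x hx).imp_right
        fun ⟨a, b, k1, k2, k3⟩ => ⟨a, b, k2, k3, k1⟩, fun hx => hx.elim (h2 x)
        fun ⟨a, b, k1, k2, k3⟩ => let ⟨y, k4, k5⟩ := h3 a k1 b k2; k5.uniq k3 ▸ k4⟩,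
      fun h => ⟨fun x hx => ((h x).1 hx).imp_right fun ⟨a, b, k1, k2, k3⟩ => ⟨a, b, k3, k1, k2⟩,
        fun x hx => (h x).2 (Or.inl hx), fun a ha b hb =>
          ⟨_, (h _).2 (Or.inr ⟨a, b, ha, hb, pr_spec a b⟩), pr_spec a b⟩⟩⟩

instance : UR.{u} fun _ E _ v => At E (v i) (v j) (v k) (v l) :=
  UR.congr (P := fun _ E _ v => ∃ q, App E (v i) q (v l) ∧ IsOPair E q (v j) (v k))
    fun _ _ _ _ _ _ _ _ => exists_congr fun _ => and_comm

instance : UR.{u} fun _ E _ v => Dom E (v i) (v j) (v k) :=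
  UR.congr (P := fun _ E W v => ∃ p ∈ W, At E (v i) (v j) (v k) p)
    fun _ _ _ _ _ t v hv => ⟨fun ⟨p, _, h⟩ => ⟨p, h⟩,
      fun ⟨p, q, h1, h2⟩ => ⟨p, (t.app (hv i) h2).2, q, h1, h2⟩⟩

instance : UR.{u} fun _ E _ v => Slice E (v i) (v j) (v k) (v l) :=
  UR.congr (P := fun _ E W v => ∀ p ∈ W, (E p (v l) ↔ At E (v i) (v j) (v k) p))
    fun _ _ _ _ _ t v hv => ⟨fun h p => ⟨fun hp => (h p (t _ (hv l) _ hp)).1 hp,
      fun ⟨q, h1, h2⟩ => (h p (t.app (hv i) h2).2).2 ⟨q, h1, h2⟩⟩, fun h p _ => h p⟩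

instance : UR.{u} fun _ E _ v => Cut E (v i) (v j) (v k) (v l) :=
  UR.congr (P := fun _ E W v => ∀ t ∈ W, (E t (v l) ↔ E t (v i) ∧ ∃ q p, IsOPair E t q p ∧
      ∃ κ' l', IsOPair E q κ' l' ∧ (E κ' (v j) ∨ (κ' = v j ∧ E l' (v k)))))
    fun _ _ _ _ _ t v hv => ⟨fun h p => ⟨fun hp => (h p (t _ (hv l) _ hp)).1 hp,
      fun hp => (h p (t _ (hv i) _ hp.1)).2 hp⟩, fun h p _ => h p⟩

instance : UR.{u} fun _ E _ v => IsO E (v i) (v j) (v k) :=
  UR.congr (P := fun _ E W v => ∀ l ∈ W, (Dom E (v i) (v j) l ↔ E (v j) l ∧ E l (v k)))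
    fun _ _ _ _ _ t v hv => ⟨fun h l => ⟨fun ⟨p, q, h1, h2⟩ =>
      (h l (t.opair (t.app (hv i) h2).1 h1).2).1 ⟨p, q, h1, h2⟩,
      fun hl => (h l (t _ (hv k) _ hl.2)).2 hl⟩, fun h p _ => h p⟩

instance : UR.{u} fun _ E _ v => IsW E (v i) := by unfold IsW; infer_instance
instance : UR.{u} fun _ E W v => Ctb E W (v i) := by unfold Ctb; infer_instance
instance : UR.{u} fun _ E _ v => Rel E (v i) (v j) := by unfold Rel; infer_instance
instance : UR.{u} fun _ E _ v => Thr E (v i) (v j) := by unfold Thr; infer_instance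
instance : UR.{u} fun _ E _ v => BinF E (v i) (v j) (v k) (v l) (v m) (v n) := by
  unfold BinF; infer_instance
instance : UR.{u} fun _ E W v => Ultra E W (v j) (v k) (BinF E (v i) (v j) (v k)) := by
  unfold Ultra; infer_instance
instance : UR.{u} fun _ E W v => CC E W (BinF E (v i) (v j) (v k)) := by
  unfold CC; infer_instance
instance : UR.{u} fun _ E W v => Nrm E W (v i) (v j) (v k) (v l) (v m) := by
  unfold Nrm; infer_instance
instance : UR.{u} fun _ E W v => Ext1 E W (v i) (v j) (v k) := by unfold Ext1; infer_instance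
instance : UR.{u} fun _ E W v => PX E W (v i) (v j) (v k) (v l) := by unfold PX; infer_instance
instance : UR.{u} fun _ E W v => CohAt E W (v i) (v j) (v k) (v l) := by
  unfold CohAt; infer_instance
instance : UR.{u} fun _ E W v => Coh1 E W (v i) := by unfold Coh1; infer_instance
instance : UR.{u} fun _ E W v => U1 E W (v i) := by unfold U1; infer_instance
instance : UR.{u} fun _ E W v => Shape E W (v i) := by unfold Shape; infer_instance
end

variable {E : M → M → Prop}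

section
variable (a b c d e : (ℕ → M) → M) [IsT a] [IsT b] [IsT c] [IsT d] [IsT e]
instance : Df E fun v => IsTup E (a v) (b v) := by unfold IsTup; infer_instance
instance : Df E fun v => Tup E (a v) (b v) := by unfold Tup; infer_instance
instance : Df E fun v => At E (a v) (b v) (c v) (d v) := by unfold At; infer_instance
instance : Df E fun v => Dom E (a v) (b v) (c v) := by unfold Dom; infer_instance
instance : Df E fun v => Slice E (a v) (b v) (c v) (d v) := by unfold Slice; infer_instance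
instance : Df E fun v => Cut E (a v) (b v) (c v) (d v) := by unfold Cut; infer_instance
instance : Df E fun v => IsO E (a v) (b v) (c v) := by unfold IsO; infer_instance
instance : Df E fun v => IsW E (a v) := by unfold IsW; infer_instance
instance : Df E fun v => Ctb E Set.univ (a v) := by unfold Ctb; infer_instance
instance : Df E fun v => Rel E (a v) (b v) := by unfold Rel; infer_instance
instance : Df E fun v => Tr3 E (a v) (b v) (c v) (d v) := by unfold Tr3; infer_instance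
instance : Df E fun v => Thr E (a v) (b v) := by unfold Thr; infer_instance
end

section
variable (a b c d : (ℕ → M) → M) [DT E a] [DT E b] [DT E c] [DT E d]
instance (priority := 900) : Df E fun v => At E (a v) (b v) (c v) (d v) :=
  dt4 (fun _ _ _ _ _ _ _ _ => inferInstance) a b c d
instance (priority := 900) : Df E fun v => Tr3 E (a v) (b v) (c v) (d v) :=
  dt4 (fun _ _ _ _ _ _ _ _ => inferInstance) a b c d
instance (priority := 900) : Df E fun v => Dom E (a v) (b v) (c v) :=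
  dt3 (fun _ _ _ _ _ _ => inferInstance) a b c
instance (priority := 900) : Df E fun v => Sub E (a v) (b v) :=
  dt2 (fun _ _ _ _ => inferInstance) a b
instance (priority := 900) : Df E fun v => Rel E (a v) (b v) :=
  dt2 (fun _ _ _ _ => inferInstance) a b
end

variable [hZ : ZF E]

section
variable (i j k l : ℕ)
instance : RD E (Good E) fun _ v => IsTup E (v i) (v j) :=
  UR.rd (P := fun _ E _ v => IsTup E (v i) (v j)) inferInstance
instance : RD E (Good E) fun _ v => At E (v i) (v j) (v k) (v l) :=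
  UR.rd (P := fun _ E _ v => At E (v i) (v j) (v k) (v l)) inferInstance
instance : RD E (Good E) fun _ v => Dom E (v i) (v j) (v k) :=
  UR.rd (P := fun _ E _ v => Dom E (v i) (v j) (v k)) inferInstance
instance : RD E (Good E) fun _ v => Slice E (v i) (v j) (v k) (v l) :=
  UR.rd (P := fun _ E _ v => Slice E (v i) (v j) (v k) (v l)) inferInstance
instance : RD E (Good E) fun _ v => Cut E (v i) (v j) (v k) (v l) :=
  UR.rd (P := fun _ E _ v => Cut E (v i) (v j) (v k) (v l)) inferInstance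
instance : RD E (Good E) fun _ v => IsO E (v i) (v j) (v k) :=
  UR.rd (P := fun _ E _ v => IsO E (v i) (v j) (v k)) inferInstance
instance : RD E (Good E) fun _ v => IsW E (v i) :=
  UR.rd (P := fun _ E _ v => IsW E (v i)) inferInstance
instance : RD E (Good E) fun W v => Ctb E W (v i) :=
  UR.rd (P := fun _ E W v => Ctb E W (v i)) inferInstance
instance : RD E (Good E) fun _ v => Rel E (v i) (v j) :=
  UR.rd (P := fun _ E _ v => Rel E (v i) (v j)) inferInstance
instance : RD E (Good E) fun _ v => Thr E (v i) (v j) :=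
  UR.rd (P := fun _ E _ v => Thr E (v i) (v j)) inferInstance
instance : RD E (Good E) fun W v => Ext1 E W (v i) (v j) (v k) :=
  UR.rd (P := fun _ E W v => Ext1 E W (v i) (v j) (v k)) inferInstance
instance : RD E (Good E) fun W v => PX E W (v i) (v j) (v k) (v l) :=
  UR.rd (P := fun _ E W v => PX E W (v i) (v j) (v k) (v l)) inferInstance
instance : RD E (Good E) fun W v => CohAt E W (v i) (v j) (v k) (v l) :=
  UR.rd (P := fun _ E W v => CohAt E W (v i) (v j) (v k) (v l)) inferInstance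
instance : RD E (Good E) fun W v => Coh1 E W (v i) :=
  UR.rd (P := fun _ E W v => Coh1 E W (v i)) inferInstance
instance : RD E (Good E) fun W v => U1 E W (v i) :=
  UR.rd (P := fun _ E W v => U1 E W (v i)) inferInstance
instance : RD E (Good E) fun W v => Shape E W (v i) :=
  UR.rd (P := fun _ E W v => Shape E W (v i)) inferInstance
instance RD.allop {G : Set M → Prop} {S : Set M → M → M → (ℕ → M) → Prop}
    [RD E G fun W v => S W (v 1) (v 0) fun n => v (n + 1 + 1)] :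
    RD E G fun W v => ∀ x y, IsOPair E (v k) x y → S W x y v :=
  RD.congr (P := fun W v => ∀ x ∈ W, ∀ y ∈ W, IsOPair E (v k) x y → S W x y v)
    fun _ _ t v hv => ⟨fun h x y hp => h x (t.opair (hv k) hp).1 y (t.opair (hv k) hp).2 hp,
      fun h x _ y _ hp => h x y hp⟩
end

section
variable (a b c d : (ℕ → M) → M) [IsT a] [IsT b] [IsT c] [IsT d]
instance : Df E fun v => Ext1 E Set.univ (a v) (b v) (c v) :=
  (RD.df (E := E) (G := Good E) (P := fun W v => Ext1 E W (v 0) (v 1) (v 2)) inferInstance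
    good_univ).d3 a b c
instance : Df E fun v => CohAt E Set.univ (a v) (b v) (c v) (d v) :=
  (RD.df (E := E) (G := Good E) (P := fun W v => CohAt E W (v 0) (v 1) (v 2) (v 3)) inferInstance
    good_univ).subst
    (fun i => match i with | 0 => a | 1 => b | 2 => c | _ + 3 => d) fun i => match i with
      | 0 => inferInstance | 1 => inferInstance | 2 => inferInstance | _ + 3 => inferInstance
end

variable (E) in
noncomputable def emp : M := (ex_emp E).choose

theorem emp_spec : IsEmp E (emp E) := (ex_emp E).choose_spec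

open Classical in
variable (E) in
/-- the unique element with property `P`, if any -/
noncomputable def the (P : M → Prop) : M := if h : ∃! y, P y then h.choose else emp E

theorem the_eq {P : M → Prop} {y : M} (h : P y) (u : ∀ y', P y' → y' = y) : the E P = y := by
  have k : ∃! y, P y := ⟨y, h, u⟩
  unfold the
  rw [dif_pos k]
  exact u _ k.choose_spec.1

theorem the_iff (P : M → Prop) (y : M) :
    y = the E P ↔ ((∃! z, P z) ∧ P y) ∨ ((¬ ∃! z, P z) ∧ IsEmp E y) := by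
  by_cases k : ∃! z, P z
  · obtain ⟨z, h1, h2⟩ := k
    rw [the_eq h1 h2]
    exact ⟨fun e => Or.inl ⟨⟨z, h1, h2⟩, e ▸ h1⟩,
      fun e => e.elim (fun e => h2 _ e.2) fun e => (e.1 ⟨z, h1, h2⟩).elim⟩
  · unfold the
    rw [dif_neg k]
    exact ⟨fun e => Or.inr ⟨k, e ▸ emp_spec⟩,
      fun e => e.elim (fun e => (k e.1).elim) fun e => e.2.uniq emp_spec⟩

instance DT.the (P : (ℕ → M) → M → Prop) [h : Df E fun w => P (tl w) (w 0)] :
    DT E fun v => the E (P v) := by
  have h2 : Df E (fun w => P (tl (tl w)) (w 0)) :=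
    h.subst (fun i w => match i with | 0 => w 0 | i + 1 => w (i + 2))
      (fun i => by cases i <;> infer_instance)
  have h3 : Df E fun w => ∃! z, P (tl w) z := Df.exu (fun w z => P (tl w) z)
  exact ⟨Df.congr (P := fun w => ((∃! z, P (tl w) z) ∧ P (tl w) (w 0)) ∨
    ((¬ ∃! z, P (tl w) z) ∧ IsEmp E (w 0))) inferInstance fun w => (the_iff _ _).symm⟩

variable (E) in
/-- `{z ∈ a : P z}` -/
noncomputable def st (a : M) (P : M → Prop) : M := the E fun y => ∀ z, E z y ↔ E z a ∧ P z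

theorem mem_st (a : M) (P : M → Prop) [Df E fun v => P (v 0)] (z : M) :
    E z (st E a P) ↔ E z a ∧ P z := by
  obtain ⟨y, hy⟩ := sep E a P
  rw [st, the_eq hy fun y' h => ext' E fun z => (h z).trans (hy z).symm]
  exact hy z

instance DT.st (a : (ℕ → M) → M) [DT E a] (P : (ℕ → M) → M → Prop)
    [h : Df E fun w => P (tl w) (w 0)] : DT E fun v => st E (a v) (P v) := by
  have h2 : Df E (fun w => P (tl (tl w)) (w 0)) :=
    h.subst (fun i w => match i with | 0 => w 0 | i + 1 => w (i + 2))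
      (fun i => by cases i <;> infer_instance)
  have h3 := @DT.tl _ E _ (DT.tl (E := E) a)
  unfold LE.st; infer_instance

variable (E) in
noncomputable def tup (l : M) : M := the E fun t => IsTup E t l

instance (a : (ℕ → M) → M) [DT E a] : DT E fun v => tup E (a v) :=
  f1 (fun s t _ _ => by unfold tup; infer_instance) a

variable (E) in
/-- the seeds of a set of triples -/
noncomputable def sN (G : M) : M := the E fun N => ∀ a, E a N ↔ ∃ b R, Tr3 E G a b R

instance (a : (ℕ → M) → M) [DT E a] : DT E fun v => sN E (a v) :=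
  f1 (fun s t _ _ => by unfold sN; infer_instance) a

theorem mem_sN (G a : M) : E a (sN E G) ↔ ∃ b R, Tr3 E G a b R := by
  obtain ⟨d, hd⟩ := ex_fld E G
  obtain ⟨y, hy⟩ := sep E d fun a => ∃ b R, Tr3 E G a b R
  have hy' : ∀ a, E a y ↔ ∃ b R, Tr3 E G a b R := fun a => (hy a).trans
    ⟨fun h => h.2, fun ⟨b, R, q, h1, h2⟩ => ⟨(hd _ _ h2).1, b, R, q, h1, h2⟩⟩
  rw [sN, the_eq hy' fun y' h => ext' E fun z => (h z).trans (hy' z).symm]
  exact hy' a

variable (E) in
/-- `G` is a countably complete system of relations on `K` -/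
def Sys (K G : M) : Prop :=
  SysT E K (sN E G) (Tr3 E G) ∧ ∀ t, E t G → ∃ a q, IsOPair E t a q ∧ ∃ b R, IsOPair E q b R

instance (a b : (ℕ → M) → M) [IsT a] [IsT b] : Df E fun v => Sys E (a v) (b v) :=
  Df.congr (P := fun v => ((∀ x y R, Tr3 E (b v) x y R → E x (sN E (b v)) ∧ E y (sN E (b v)) ∧
      Rel E (a v) R) ∧ Ultra E Set.univ (a v) (sN E (b v)) (Tr3 E (b v)) ∧
      PairT E (sN E (b v)) (Tr3 E (b v)) ∧ CC E Set.univ (Tr3 E (b v)) ∧ ∃ c, E c (sN E (b v))) ∧
      ∀ t, E t (b v) → ∃ a q, IsOPair E t a q ∧ ∃ b R, IsOPair E q b R)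
    (by unfold Ultra PairT CC; infer_instance) fun v => and_congr_left fun _ =>
      ⟨fun ⟨h1, h2, h3, h4, h5⟩ => ⟨h1, h2, h3, h4, h5⟩, fun ⟨h1, h2, h3, h4, h5⟩ =>
        ⟨h1, h2, h3, h4, h5⟩⟩

end Pool.Agent.Lib.MP_75a307_lc.LE
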