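import Pool.Agent.Lib.MP_75a307_lc.LE.Down

/-! A greedy coherent sequence below an inaccessible. -/

set_option synthInstance.maxSize 100000
set_option linter.unusedVariables false
set_option linter.unusedSectionVars false

namespace Pool.Agent.Lib.MP_75a307_lc.LE

open Pool.Agent.Lib.MP_1d770b_lc

universe u
variable {M : Type u} {E : M → M → Prop} [hZ : ZF E]

/-- `T` consists of the members of `S` of length below `b` -/
def GrC (E : M → M → Prop) (S b T : M) : Prop :=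
  ∀ z, E z T ↔ E z S ∧ ∃ q p, IsOPair E z q p ∧ ∃ u v, IsOPair E q u v ∧ E v b

theorem GrC.at {S b T : M} (h : GrC E S b T) (u v p : M) : At E T u v p ↔ At E S u v p ∧ E v b := by
  rw [at_iff, at_iff, h]
  refine and_congr_right fun _ => ⟨fun ⟨q, p', k1, u', v', k2, k3⟩ => ?_,
    fun k => ⟨_, _, pr_spec _ _, _, _, pr_spec _ _, k⟩⟩
  obtain ⟨rfl, -⟩ := (pr_spec _ _).inj k1
  obtain ⟨-, rfl⟩ := (pr_spec _ _).inj k2
  exact k3

/-- recursion on the length -/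
theorem greedy_rec (K : M) (N : M → M → M → Prop) (dN : D3 E N)
    (hN : ∀ T b t, N T b t → ∃ q p, IsOPair E t q p ∧ ∃ u, IsOPair E q u b) :
    ∃ S, ∀ t, E t S ↔ E t K ∧ ∃ b T, IsOrd E b ∧ GrC E S b T ∧ N T b t := by
  let R : M → M → M → Prop := fun f b y => ∀ t, E t y ↔ E t K ∧
    ∃ T, (∀ z, E z T ↔ ∃ b' y', E b' b ∧ App E f b' y' ∧ E z y') ∧ N T b t
  have h : RecOK E (IsOrd E) E R :=
    { wfOrd E with
      dS := fun _ _ _ _ _ _ => by simp only [R]; infer_instance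
      inv := fun f g x y _ H hS z => by
        rw [hS z]
        exact and_congr_right fun _ => exists_congr fun T => and_congr_left fun _ =>
          forall_congr' fun z => iff_congr Iff.rfl (exists₂_congr fun m y' =>
            and_congr_right fun hm => by rw [H m hm])
      ex := fun f x _ _ => sep E K _
      uniq := fun f x y y' _ _ h1 h2 => ext' E fun z => (h1 z).trans (h2 z).symm }
  have := h.dRec
  obtain ⟨S, hS⟩ := sep E K fun t => ∃ b y, Rec E (IsOrd E) E R b y ∧ E t y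
  have key : ∀ b f, (∀ b', E b' b → ∀ y', App E f b' y' ↔ Rec E (IsOrd E) E R b' y') → ∀ z,
      (∃ b' y', E b' b ∧ App E f b' y' ∧ E z y') ↔
        E z S ∧ ∃ q p, IsOPair E z q p ∧ ∃ u v, IsOPair E q u v ∧ E v b := by
    intro b f hf z
    constructor
    · rintro ⟨b', y', k1, k2, k3⟩
      have k4 := (hf b' k1 y').1 k2
      obtain ⟨g, -, hg⟩ := h.elim k4
      obtain ⟨k5, T, -, k6⟩ := (hg z).1 k3
      obtain ⟨q, p, k7, u, k8⟩ := hN _ _ _ k6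
      exact ⟨(hS z).2 ⟨k5, b', y', k4, k3⟩, q, p, k7, u, b', k8, k1⟩
    · rintro ⟨k1, q, p, k2, u, v, k3, k4⟩
      obtain ⟨-, b', y', k5, k6⟩ := (hS z).1 k1
      obtain ⟨g, -, hg⟩ := h.elim k5
      obtain ⟨-, T, -, k7⟩ := (hg z).1 k6
      obtain ⟨q', p', k8, u', k9⟩ := hN _ _ _ k7
      obtain ⟨rfl, -⟩ := k2.inj k8
      obtain ⟨-, rfl⟩ := k3.inj k9
      exact ⟨v, y', k4, (hf v k4 y').2 k5, k6⟩
  refine ⟨S, fun t => (hS t).trans (and_congr_right fun ht => ⟨?_, ?_⟩)⟩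
  · rintro ⟨b, y, k1, k2⟩
    obtain ⟨f, hf, hR⟩ := h.elim k1
    obtain ⟨-, T, k3, k4⟩ := (hR t).1 k2
    exact ⟨b, T, k1.dom, fun z => (k3 z).trans (key b f hf z), k4⟩
  · rintro ⟨b, T, k1, k2, k3⟩
    obtain ⟨y, hy⟩ := h.total k1
    obtain ⟨f, hf, hR⟩ := h.elim hy
    exact ⟨b, y, hy, (hR t).2 ⟨ht, T, fun z => (k2 z).trans (key b f hf z).symm, k3⟩⟩

theorem greedy_inacc (hC : Choice E) {u b F : M} (h : Ext1 E Set.univ u b F) :
    Inacc E Set.univ u :=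
  let ⟨_, _, k⟩ := h.ult hC; k.emb.ia.inacc hC

theorem greedy_rk {κ u b F p : M} (hκ : IA E Set.univ κ) (hb : E b κ) (h : Ext1 E Set.univ u b F)
    (hp : E p F) : Rk E (pr E (pr E u b) p) κ := by
  obtain ⟨ou, ob, ub, K, -, N, -, e1, e2, k, -⟩ := h
  obtain rfl := e1.eq
  obtain rfl := e2.eq
  obtain ⟨a, X, k1, k2, k3⟩ := k p hp
  obtain ⟨ξ, x1, x2, x3⟩ := hκ.lim_below hb
  have s : Sub E b ξ := fun z hz => x3.1.tr x2 hz
  exact hκ.lim.opair (hκ.lim.opair (hκ.1.rk (hκ.1.tr hb ub)) (hκ.1.rk hb) (pr_spec _ _))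
    (hκ.lim.opair ((tup_rk x3 s k2).lt hκ.1 x1) (Rk.intro hκ.1 x1 fun z hz =>
      tup_rk x3 (fun w hw => s w (ob.tr ub hw)) (k3 z hz)) k1) (pr_spec _ _)

theorem greedy (hC : Choice E) {κ : M} (hκ : Inacc E Set.univ κ) :
    ∃ S, Coh1 E Set.univ S ∧ (∀ t, E t S → Rk E t κ) ∧
      (∀ u v, Dom E S u v → ∀ s, E u s → Inacc E Set.univ s → E v s) ∧
      ∀ u b, E u b → E b κ → (∀ s, E u s → Le E s b → ¬ Inacc E Set.univ s) →
        (∀ v, E u v → E v b → Dom E S u v) → ∀ F, Ext1 E Set.univ u b F →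
          CohAt E Set.univ S u b F → Dom E S u b := by
  have ia := hκ.ia hC
  have dI := (el_id (E := E)).dInacc
  obtain ⟨K, hK⟩ := ex_V hκ.1
  obtain ⟨PK, hPK⟩ := ex_pow E K
  obtain ⟨D, -, hD⟩ := ex_rel E K PK fun _ _ => True
  obtain ⟨g, -, g1, g2, g3⟩ := ac hC D fun x F => ∃ q T, IsOPair E x q T ∧ ∃ u b, IsOPair E q u b ∧
    Ext1 E Set.univ u b F ∧ CohAt E Set.univ T u b F
  obtain ⟨S, hS⟩ := greedy_rec (E := E) K (fun T b t => ∃ q p, IsOPair E t q p ∧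
      ∃ u, IsOPair E q u b ∧ ∃ x F, IsOPair E x q T ∧ App E g x F ∧ E p F ∧ E u b ∧ E b κ ∧
        (∀ s, E u s → Le E s b → ¬ Inacc E Set.univ s) ∧ ∀ v, E u v → E v b → Dom E T u v)
    (fun _ _ _ _ _ _ => inferInstance) fun T b t ⟨q, p, k1, u, k2, _⟩ => ⟨q, p, k1, u, k2⟩
  have ch : ∀ u b T F, App E g (pr E (pr E u b) T) F →
      Ext1 E Set.univ u b F ∧ CohAt E Set.univ T u b F := fun u b T F k => by
    obtain ⟨-, q, T', k1, u', b', k2, k3⟩ := g2 _ _ k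
    obtain ⟨rfl, rfl⟩ := (pr_spec _ _).inj k1
    obtain ⟨rfl, rfl⟩ := (pr_spec _ _).inj k2
    exact k3
  have el : ∀ u b p, At E S u b p → ∃ T F, GrC E S b T ∧ App E g (pr E (pr E u b) T) F ∧ E p F ∧
      E u b ∧ E b κ ∧ (∀ s, E u s → Le E s b → ¬ Inacc E Set.univ s) ∧
        ∀ v, E u v → E v b → Dom E T u v := fun u b p k => by
    obtain ⟨-, b', T, -, k1, q, p', k2, u', k3, x, F, k4, k5⟩ := (hS _).1 (at_iff.1 k)
    obtain ⟨rfl, rfl⟩ := (pr_spec _ _).inj k2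
    obtain ⟨rfl, rfl⟩ := (pr_spec _ _).inj k3
    obtain rfl := pr_eq.1 k4
    exact ⟨T, F, k1, k5⟩
  have intr : ∀ u b p T F, GrC E S b T → App E g (pr E (pr E u b) T) F → E p F → E u b → E b κ →
      (∀ s, E u s → Le E s b → ¬ Inacc E Set.univ s) → (∀ v, E u v → E v b → Dom E T u v) →
        At E S u b p := fun u b p T F k1 k2 k3 k4 k5 k6 k7 =>
    at_iff.2 ((hS _).2 ⟨(hK _).2 (greedy_rk ia k5 (ch _ _ _ _ k2).1 k3), b, T, hκ.1.mem k5, k1,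
      _, _, pr_spec _ _, u, pr_spec _ _, _, F, pr_spec _ _, k2, k3, k4, k5, k6, k7⟩)
  have cap : ∀ u v, Dom E S u v → ∀ s, E u s → Inacc E Set.univ s → E v s := by
    rintro u v ⟨p, k⟩ s h1 h2
    obtain ⟨T, F, -, -, -, -, k1, k2, -⟩ := el u v p k
    by_contra n
    exact k2 s h1 (h2.1.le_of_not (hκ.1.mem k1) n) h2
  have o : ∀ u v p, At E S u v p → IsOrd E u := fun u v p k =>
    let ⟨_, _, _, k1, _⟩ := el u v p k; (ch _ _ _ _ k1).1.1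
  have ag : ∀ u b T F, GrC E S b T → Ext1 E Set.univ u b F → ∀ κ' l' p,
      E κ' u ∨ (κ' = u ∧ E l' b) → (At E S κ' l' p ↔ At E T κ' l' p) := fun u b T F k1 k2 κ' l' p k =>
    ⟨fun a => (k1.at _ _ _).2 ⟨a, k.elim
      (fun c => k2.2.1.tr k2.2.2.1 (cap _ _ ⟨p, a⟩ u c (greedy_inacc hC k2))) fun c => c.2⟩,
      fun a => ((k1.at _ _ _).1 a).1⟩
  refine ⟨S, ⟨fun t ht => ?_, ?_, ?_, ?_⟩, fun t ht => (hK t).1 ((hS t).1 ht).1, cap,
    fun u b h1 h2 h3 h4 F h5 h6 => ?_⟩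
  · obtain ⟨-, b, T, -, -, q, p, k1, u, k2, -⟩ := (hS t).1 ht
    exact ⟨q, p, k1, u, b, k2, rfl⟩
  · rintro u - b - ⟨p, k⟩ v h1 h2
    obtain ⟨T, F, k1, -, -, -, -, -, k2⟩ := el u b p k
    obtain ⟨p', k3⟩ := k2 v h2 h1
    exact ⟨p', ((k1.at _ _ _).1 k3).1⟩
  · rintro u - b - u' - b' - k ⟨p, k'⟩ h
    obtain ⟨T, F, -, k1, -⟩ := el u' b' p k'
    exact cap u b k u' h (greedy_inacc hC (ch _ _ _ _ k1).1)
  · rintro u - b - ⟨p, k⟩
    obtain ⟨T, F, k1, k2, -, k3⟩ := el u b p k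
    obtain ⟨c1, c2⟩ := ch _ _ _ _ k2
    refine ⟨F, trivial, fun p' => ⟨fun a => intr u b p' T F k1 k2 a k3.1 k3.2.1 k3.2.2.1 k3.2.2.2,
      fun a => ?_⟩, c1, CohAt.congr hC c1 (fun u v p a => o u v p ((k1.at _ _ _).1 a).1) o
        (ag u b T F k1 c1) c2⟩
    obtain ⟨T', F', l1, l2, l3, -⟩ := el u b p' a
    obtain rfl : T' = T := ext' E fun z => (l1 z).trans (k1 z).symm
    exact g1 _ _ _ l2 k2 ▸ l3
  · obtain ⟨T, k1⟩ : ∃ T, GrC E S b T := sep E S _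
    obtain ⟨F', k2⟩ := g3 (pr E (pr E u b) T) (app_iff.1 ((hD _ _).2 ⟨(hK _).2 (ia.lim.opair
        (hκ.1.rk (hκ.1.tr h2 h1)) (hκ.1.rk h2) (pr_spec _ _)),
        (hPK T).2 fun z hz => ((hS z).1 ((k1 z).1 hz).1).1, trivial⟩))
      ⟨F, _, T, pr_spec _ _, u, b, pr_spec _ _, h5, CohAt.congr hC h5 o
        (fun u v p a => o u v p ((k1.at _ _ _).1 a).1)
        (fun κ' l' p k => (ag u b T F k1 h5 κ' l' p k).symm) h6⟩
    exact ⟨_, intr u b _ T F' k1 k2 (app_iff.1 ((ch _ _ _ _ k2).1.top hC)) h1 h2 h3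
      fun v a c => let ⟨p, k⟩ := h4 v a c; ⟨p, (k1.at _ _ _).2 ⟨k, c⟩⟩⟩

end Pool.Agent.Lib.MP_75a307_lc.LE
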