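import Pool.Agent.Lib.MP_75a307_lc.LE.MoD

/-! A small set of functions `K → K` closed under composition, Skolem functions and
comprehension. -/

set_option synthInstance.maxSize 100000
set_option linter.unusedVariables false
set_option linter.unusedSectionVars false

namespace Pool.Agent.Lib.MP_75a307_lc.LE

open Pool.Agent.Lib.MP_1d770b_lc

universe u
variable {M : Type u} {E : M → M → Prop} [hZ : ZF E]

/-- the closure of `T` under witnesses of finitely many definable relations -/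
theorem hullF_list (hC : Choice E) {T w : M} (hT : Trans E T) (hw : IsOmega E w)
    (hwT : Sub E w T) (hp : ∀ a b, E a T → E b T → E (pr E a b) T)
    (L : List (M → M → Prop)) (hL : ∀ G ∈ L, D2 E G) :
    ∃ U e, Fn E e ∧ (∀ y, E y U → ∃ t, E t T ∧ App E e t y) ∧ (∃ a, E a U) ∧
      (∀ a b, E a U → E b U → E (pr E a b) U) ∧
      ∀ G ∈ L, ∀ a, E a U → (∃ z, G a z) → ∃ z, E z U ∧ G a z := by
  have d : ∀ k : Fin L.length, D2 E fun a z => L.get k (p2 E a) z := fun k s t _ _ =>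
    dt2 (hL _ (List.get_mem L k)) (fun v => p2 E (s v)) t
  obtain ⟨U, e, h1, h2, h3, h4, h5⟩ := hullT_rel hC hT hw hwT hp
    (fun a z => ∃ k : Fin L.length, p1 E a = num E k ∧ L.get k (p2 E a) z)
    fun _ _ _ _ => by infer_instance
  have n : ∀ k, E (num E k) U := fun k => h3 _ (hwT _ (num_mem hw k))
  refine ⟨U, e, h1, h2, ⟨_, n 0⟩, h4, fun G hG a ha ⟨z, hz⟩ => ?_⟩
  obtain ⟨k, rfl⟩ := List.get_of_mem hG
  obtain ⟨y, k1, k', k2, k3⟩ := h5 _ (h4 _ _ (n k) ha)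
    ⟨z, k, p1_pr _ _, by rw [p2_pr]; exact hz⟩
  obtain rfl : k = k' := Fin.ext (by_contra fun c => num_ne c ((p1_pr _ _).symm.trans k2))
  rw [p2_pr] at k3
  exact ⟨y, k1, k3⟩

/-- closure under definable subsets of `K` and definable choice functions on `K` -/
theorem hullF_two (hC : Choice E) {K T w : M} (hT : Trans E T) (hw : IsOmega E w)
    (hwT : Sub E w T) (hp : ∀ a b, E a T → E b T → E (pr E a b) T)
    (A : List (M → M → Prop)) (hA : ∀ R ∈ A, D2 E R)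
    (B : List (M → M → M → Prop)) (hB : ∀ R ∈ B, D3 E R) :
    ∃ U e, Fn E e ∧ (∀ y, E y U → ∃ t, E t T ∧ App E e t y) ∧ (∃ a, E a U) ∧
      (∀ a b, E a U → E b U → E (pr E a b) U) ∧
      (∀ R ∈ A, ∀ a, E a U → ∃ D, E D U ∧ ∀ s, E s D ↔ E s K ∧ R a s) ∧
      ∀ R ∈ B, ∀ a, E a U → ∃ f, (E f U ∧ Func E f K K) ∧
        ∀ s y, E s K → E y K → R a s y → R a s (ap E f s) := by
  obtain ⟨U, e, h1, h2, h3, h4, h5⟩ := hullF_list hC hT hw hwT hp
    (A.map (fun R a D => ∀ s, E s D ↔ E s K ∧ R a s) ++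
      B.map fun R a f => Func E f K K ∧ ∀ s y, E s K → E y K → R a s y → R a s (ap E f s))
    (fun G hG => by
      rcases List.mem_append.1 hG with h | h
      · obtain ⟨R, hR, rfl⟩ := List.mem_map.1 h
        have := hA R hR
        intro s t _ _
        infer_instance
      · obtain ⟨R, hR, rfl⟩ := List.mem_map.1 h
        have := hB R hR
        have d : D3 E fun a s f => R a s (ap E f s) := fun r s t _ _ _ =>
          dt3 this r s fun v => ap E (t v) (s v)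
        intro s t _ _
        infer_instance)
  refine ⟨U, e, h1, h2, h3, h4, fun R hR a ha => ?_, fun R hR a ha => ?_⟩
  · have := hA R hR
    exact h5 _ (List.mem_append_left _ (List.mem_map_of_mem hR)) a ha (sep E K (R a))
  · have := hB R hR
    obtain ⟨f, k1, k2⟩ := acF hC K K (fun s y => ∀ y', E y' K → R a s y' → R a s y)
      (fun s hs => by
        by_cases c : ∃ y, E y K ∧ R a s y
        · obtain ⟨y, c1, c2⟩ := c
          exact ⟨y, c1, fun _ _ _ => c2⟩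
        · exact ⟨s, hs, fun y c1 c2 => (c ⟨y, c1, c2⟩).elim⟩)
    obtain ⟨g, g1, g2, g3⟩ := h5 _ (List.mem_append_right _ (List.mem_map_of_mem hR)) a ha
      ⟨f, k1, fun s y hs hy r => (k2 _ _ (app_ap k1.fn (k1.2 s hs))).2.2 y hy r⟩
    exact ⟨g, ⟨g1, g2⟩, g3⟩

theorem hullF_ap {K f s : M} (h : Func E f K K) (hs : E s K) : E (ap E f s) K :=
  (h.mem (app_ap h.fn (h.2 s hs))).2

theorem hullF (hC : Choice E) {K θ T w : M} (hθ : Lim E θ) (hK : ∀ x, E x K ↔ Rk E x θ)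
    (hT : Trans E T) (hw : IsOmega E w) (hwT : Sub E w T)
    (hp : ∀ a b, E a T → E b T → E (pr E a b) T) (P : List M) (hP : ∀ x ∈ P, E x K) :
    ∃ Y e, SkY E K Y ∧ Fn E e ∧ (∀ f, E f Y → ∃ t, E t T ∧ App E e t f) ∧
      ∀ x ∈ P, ∃ f, E f Y ∧ ∀ s, E s K → ap E f s = x := by
  obtain ⟨U, e, h1, h2, ⟨a0, h3⟩, h4, hA, hB⟩ := hullF_two (K := K) hC hT hw hwT hp
    [fun a s => E (ap E (p1 E a) s) (ap E (p2 E a) s),
      fun a s => ap E (p1 E a) s = ap E (p2 E a) s,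
      fun a s => ¬ E s a, fun a s => E s (p1 E a) ∧ E s (p2 E a),
      fun a s => ∃ z, E z K ∧ E (pr E z s) a]
    (by
      simp only [List.forall_mem_cons, List.not_mem_nil, false_imp_iff, implies_true, and_true]
      refine ⟨?_, ?_, ?_, ?_, ?_⟩ <;> intro _ _ _ _ <;> infer_instance)
    ((fun a s y => E (pr E y s) a) :: (fun a s y => y = ap E (p1 E a) (ap E (p2 E a) s)) ::
      (fun a s y => ∀ z, E z y ↔ E z (ap E (p1 E a) s) ∧ E (pr E z s) (p2 E a)) ::
      (fun _ s y => y = s) :: (fun _ s y => y = p1 E s) :: (fun _ s y => y = p2 E s) ::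
      P.map fun x _ _ y => y = x)
    (by
      simp only [List.forall_mem_cons, List.forall_mem_map]
      refine ⟨?_, ?_, ?_, ?_, ?_, ?_, fun x _ => ?_⟩ <;> intro _ _ _ _ _ _ <;> infer_instance)
  simp only [List.forall_mem_cons, List.not_mem_nil, false_imp_iff, implies_true, and_true] at hA
  simp only [List.forall_mem_cons, List.forall_mem_map] at hB
  obtain ⟨a1, a2, a3, a4, a5⟩ := hA
  obtain ⟨b1, b2, b3, b4, b5, b6, b7⟩ := hB
  obtain ⟨Y, hY⟩ := sep E U (fun f => Func E f K K)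
  have kp : ∀ a b, E a K → E b K → E (pr E a b) K := fun a b ha hb =>
    (hK _).2 (hθ.opair ((hK a).1 ha) ((hK b).1 hb) (pr_spec a b))
  have cp : ∀ f g, E f Y → E g Y → ∃ h, E h Y ∧ ∀ s, E s K → ap E h s = ap E f (ap E g s) :=
    fun f g hf hg => by
      obtain ⟨h, k1, k2⟩ := b2 _ (h4 _ _ ((hY f).1 hf).1 ((hY g).1 hg).1)
      simp only [p1_pr, p2_pr] at k2
      exact ⟨h, (hY h).2 k1, fun s hs => k2 s _ hs
        (hullF_ap ((hY f).1 hf).2 (hullF_ap ((hY g).1 hg).2 hs)) rfl⟩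
  have ex : ∀ f : ℕ → M, (∀ i, E (f i) Y) → ∃ f' : ℕ → M, (∀ i, E (f' i) Y) ∧
      ∀ z s, E z K → E s K →
        (fun i => ap E (f' i) (pr E z s)) = scons z fun i => ap E (f i) s := fun f hf => by
    obtain ⟨q1, k1, k2⟩ := b5 _ h3
    obtain ⟨q2, k3, k4⟩ := b6 _ h3
    choose c c1 c2 using fun i => cp (f i) q2 (hf i) ((hY _).2 k3)
    refine ⟨scons q1 c, fun i => ?_, fun z s hz hs => funext fun i => ?_⟩
    · cases i
      exacts [(hY _).2 k1, c1 _]
    · rcases i with _ | i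
      · exact (k2 _ z (kp _ _ hz hs) hz (p1_pr _ _).symm).trans (p1_pr _ _)
      · refine (c2 i _ (kp _ _ hz hs)).trans (congrArg _ ?_)
        exact (k4 _ s (kp _ _ hz hs) hs (p2_pr _ _).symm).trans (p2_pr _ _)
  have st : ∀ (φ : Fm) (f : ℕ → M), (∀ i, E (f i) Y) → ∃ D, E D U ∧
      ∀ s, E s D ↔ E s K ∧ SatW E (cl E K) φ fun i => ap E (f i) s := fun φ => by
    induction φ with
    | mem i j =>
      intro f hf
      obtain ⟨D, k1, k2⟩ := a1 _ (h4 _ _ ((hY _).1 (hf i)).1 ((hY _).1 (hf j)).1)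
      simp only [p1_pr, p2_pr] at k2
      exact ⟨D, k1, k2⟩
    | eq i j =>
      intro f hf
      obtain ⟨D, k1, k2⟩ := a2 _ (h4 _ _ ((hY _).1 (hf i)).1 ((hY _).1 (hf j)).1)
      simp only [p1_pr, p2_pr] at k2
      exact ⟨D, k1, k2⟩
    | neg φ ih =>
      intro f hf
      obtain ⟨D', c1, c2⟩ := ih f hf
      obtain ⟨D, k1, k2⟩ := a3 _ c1
      exact ⟨D, k1, fun s => (k2 s).trans (and_congr_right fun hs =>
        not_congr ((c2 s).trans (and_iff_right hs)))⟩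
    | and φ ψ ih1 ih2 =>
      intro f hf
      obtain ⟨D1, c1, c2⟩ := ih1 f hf
      obtain ⟨D2, c3, c4⟩ := ih2 f hf
      obtain ⟨D, k1, k2⟩ := a4 _ (h4 _ _ c1 c3)
      simp only [p1_pr, p2_pr] at k2
      exact ⟨D, k1, fun s => (k2 s).trans (and_congr_right fun hs =>
        and_congr ((c2 s).trans (and_iff_right hs)) ((c4 s).trans (and_iff_right hs)))⟩
    | ex φ ih =>
      intro f hf
      obtain ⟨f', f1, f2⟩ := ex f hf
      obtain ⟨D', c1, c2⟩ := ih f' f1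
      obtain ⟨D, k1, k2⟩ := a5 _ c1
      refine ⟨D, k1, fun s => (k2 s).trans (and_congr_right fun hs =>
        exists_congr fun z => and_congr_right fun hz => ?_)⟩
      rw [c2, f2 z s hz hs]
      exact and_iff_right (kp _ _ hz hs)
  refine ⟨Y, e, ⟨fun f hf => ((hY f).1 hf).2, ?_, cp, fun φ f hf => ?_, fun φ f g hf hg => ?_⟩,
    h1, fun f hf => h2 f ((hY f).1 hf).1, fun x hx => ?_⟩
  · obtain ⟨q, k1, k2⟩ := b4 _ h3
    exact ⟨q, (hY q).2 k1, fun s hs => k2 s s hs hs rfl⟩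
  · obtain ⟨f', f1, f2⟩ := ex f hf
    obtain ⟨D, c1, c2⟩ := st φ f' f1
    obtain ⟨h, k1, k2⟩ := b1 _ c1
    refine ⟨h, (hY h).2 k1, fun s z hs hz r => ?_⟩
    rw [← f2 z s hz hs] at r
    rw [← f2 _ s (hullF_ap k1.2 hs) hs]
    exact ((c2 _).1 (k2 s z hs hz ((c2 _).2 ⟨kp _ _ hz hs, r⟩))).2
  · obtain ⟨D, c1, c2⟩ := st φ f hf
    obtain ⟨h, k1, k2⟩ := b3 _ (h4 _ _ ((hY g).1 hg).1 c1)
    simp only [p1_pr, p2_pr] at k2
    refine ⟨h, (hY h).2 k1, fun s hs z => ?_⟩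
    have r := (hK _).1 (hullF_ap ((hY g).1 hg).2 hs)
    obtain ⟨y, hy⟩ := sep E (ap E g s) (fun z => E (pr E z s) D)
    refine (k2 s y hs ((hK y).2 (r.sub fun z hz => ((hy z).1 hz).1)) hy z).trans
      (and_congr_right fun hz => (c2 _).trans (and_iff_right ?_))
    exact kp _ _ ((hK z).2 (r.mem hz)) hs
  · obtain ⟨q, k1, k2⟩ := b7 x hx _ h3
    exact ⟨q, (hY q).2 k1, fun s hs => k2 s x hs (hP x hx) rfl⟩

end Pool.Agent.Lib.MP_75a307_lc.LE
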