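import Pool.Agent.Lib.MP_75a307_lc.LE.Bas

/-! Inner models of ZFC and elementary maps between them. -/

set_option synthInstance.maxSize 100000
set_option linter.unusedVariables false
set_option linter.unusedSectionVars false

namespace Pool.Agent.Lib.MP_75a307_lc.LE

open Pool.Agent.Lib.MP_1d770b_lc

universe u
variable {M : Type u} {E : M → M → Prop} [hZ : ZF E]

structure Inn (E : M → M → Prop) (W : Set M) : Prop where
  im : IM E W
  dW : D1 E fun x => x ∈ W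
  ac : Choice (Res E W)

theorem Inn.tr {W : Set M} (h : Inn E W) : Tr E W := fun x hx y hy => h.im.tr hx hy
theorem Inn.zf {W : Set M} (h : Inn E W) : ZF (Res E W) := h.im.zf h.dW
theorem Inn.ord {W : Set M} (h : Inn E W) {α : M} (ho : IsOrd E α) : α ∈ W := h.im.ord h.dW ho

theorem Inn.good {W : Set M} (h : Inn E W) : Good E W := by
  have := h.im.temb
  have := h.zf
  refine ⟨h.dW, fun x hx α hα H ho β hβ hoβ hab => ?_⟩
  have h1 : Rk E x β := Rk.intro hoβ hab fun z hz => (H z hz).rk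
  have h2 : Rk (Res E W) (⟨x, hx⟩ : W) ⟨β, hβ⟩ := rk_dn (j := Subtype.val) h1
  obtain ⟨-, r, -, h3, h4⟩ := rkW_univ h2
  exact ⟨hoβ, r.1, r.2, up Subtype.val (Res E W) E h3,
    up Subtype.val (Res E W) E (q := App E r.1 (⟨x, hx⟩ : W).1 (⟨β, hβ⟩ : W).1) h4⟩

theorem Inn.pr {W : Set M} (h : Inn E W) {a b : M} : pr E a b ∈ W ↔ a ∈ W ∧ b ∈ W := 
  ⟨fun hp => h.tr.opair hp (pr_spec a b), fun hp => h.im.opair hp.1 hp.2 (pr_spec a b)⟩

theorem Inn.tup {W : Set M} (h : Inn E W) {l : M} (hl : l ∈ W) : tup E l ∈ W := by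
  have := h.zf
  have h1 := tup_spec (E := Res E W) ⟨l, hl⟩
  have h2 := (UR.res (fun _ E _ v => IsTup E (v 0) (v 1)) h.good h.tr
    (scons (LE.tup (Res E W) ⟨l, hl⟩) fun _ => ⟨l, hl⟩)).2 h1
  exact h2.eq ▸ (LE.tup (Res E W) ⟨l, hl⟩).2

theorem Inn.ap {W : Set M} (h : Inn E W) {f a : M} (hf : f ∈ W) (ha : a ∈ W) : ap E f a ∈ W := by
  have := h.im.temb
  have := h.zf
  obtain ⟨y, hy⟩ := ex_ap (Res E W) ⟨f, hf⟩ ⟨a, ha⟩
  have h1 := up Subtype.val (Res E W) E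
    (q := ∀ z, E z y.1 ↔ ∃ y', App E (⟨f, hf⟩ : W).1 (⟨a, ha⟩ : W).1 y' ∧ E z y') hy
  have : y.1 = MP_75a307_lc.ap E f a := ext' E fun z => (h1 z).trans (ap_spec f a z).symm
  exact this ▸ y.2

/-- separation in `W` -/
theorem Inn.sep {W : Set M} (h : Inn E W) {a : M} (ha : a ∈ W) (P : Set M → (ℕ → M) → Prop)
    [RD E (Good E) P] (v : ℕ → M) (hv : ∀ n, v n ∈ W) :
    ∃ b ∈ W, ∀ z, E z b ↔ E z a ∧ P W (scons z v) := by
  obtain ⟨φ, hφ⟩ := (inferInstance : RD E (Good E) P).out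
  obtain ⟨b, hb⟩ := h.zf.out.separation φ (fun n => ⟨v n, hv n⟩) ⟨a, ha⟩
  have key : ∀ z : W, Sat (Res E W) φ (scons z fun n => ⟨v n, hv n⟩) ↔ P W (scons z.1 v) :=
    fun z => by
      rw [← satW_res, comp_scons]
      exact hφ W h.good h.tr _ fun i => by cases i; exacts [z.2, hv _]
  refine ⟨b.1, b.2, fun z => ⟨fun hz => ?_, fun hz => ?_⟩⟩
  · have := (hb ⟨z, h.tr _ b.2 _ hz⟩).1 hz
    exact ⟨this.1, (key _).1 this.2⟩
  · exact (hb ⟨z, h.tr _ ha _ hz.1⟩).2 ⟨hz.1, (key _).2 hz.2⟩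

omit hZ in
theorem inn_df2 (φ : Fm) (v : ℕ → M) : Df E fun w => Sat E φ (scons (w 0) (scons (w 1) v)) :=
  (Df.sat φ (fun i => match i with | 0 => fun w => w 0 | 1 => fun w => w 1 | i + 2 => fun _ => v i)
    (fun i => match i with
      | 0 => inferInstance | 1 => inferInstance | _ + 2 => inferInstance)).congr fun w => by
    congr! 1
    funext i
    match i with
    | 0 => rfl
    | 1 => rfl
    | _ + 2 => rfl

/-- relations defined in `W` -/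
theorem Inn.rel {W : Set M} (h : Inn E W) {a b : M} (ha : a ∈ W) (hb : b ∈ W)
    (P : Set M → (ℕ → M) → Prop) [RD E (Good E) P] (v : ℕ → M) (hv : ∀ n, v n ∈ W) :
    ∃ r ∈ W, (∀ p, E p r → ∃ s t, IsOPair E p s t ∧ E s a ∧ E t b) ∧
      ∀ s t, App E r s t ↔ E s a ∧ E t b ∧ P W (scons s (scons t v)) := by
  obtain ⟨φ, hφ⟩ := (inferInstance : RD E (Good E) P).out
  have := h.im.temb
  have := h.zf
  have d : Df (Res E W) fun w => Sat (Res E W) φ (scons (w 0) (scons (w 1) fun n => ⟨v n, hv n⟩)) :=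
    inn_df2 φ _
  obtain ⟨r, h1, h2⟩ := ex_rel (Res E W) ⟨a, ha⟩ ⟨b, hb⟩
    fun x y => Sat (Res E W) φ (scons x (scons y fun n => ⟨v n, hv n⟩))
  have key : ∀ x y : W, Sat (Res E W) φ (scons x (scons y fun n => ⟨v n, hv n⟩)) ↔
      P W (scons x.1 (scons y.1 v)) := fun x y => by
    rw [← satW_res, comp_scons, comp_scons]
    exact hφ W h.good h.tr _ fun i => match i with | 0 => x.2 | 1 => y.2 | _ + 2 => hv _
  refine ⟨r.1, r.2, fun p hp => ?_, fun s t => ⟨fun k => ?_, fun k => ?_⟩⟩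
  · obtain ⟨x, y, k1, k2, k3, -⟩ := (h1 ⟨p, h.tr _ r.2 _ hp⟩).1 hp
    exact ⟨x.1, y.1, up Subtype.val (Res E W) E
      (q := IsOPair E (⟨p, h.tr _ r.2 _ hp⟩ : W).1 x.1 y.1) k3, k1, k2⟩
  · obtain ⟨hs, ht⟩ := h.tr.app r.2 k
    obtain ⟨k1, k2, k3⟩ := (h2 ⟨s, hs⟩ ⟨t, ht⟩).1
      (dn Subtype.val (Res E W) E (q := App E r.1 (⟨s, hs⟩ : W).1 (⟨t, ht⟩ : W).1) k)
    exact ⟨k1, k2, (key _ _).1 k3⟩
  · have hs := h.tr _ ha _ k.1
    have ht := h.tr _ hb _ k.2.1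
    exact up Subtype.val (Res E W) E (q := App E r.1 (⟨s, hs⟩ : W).1 (⟨t, ht⟩ : W).1)
      ((h2 ⟨s, hs⟩ ⟨t, ht⟩).2 ⟨k.1, k.2.1, (key _ _).2 k.2.2⟩)

theorem inn_V {W : Set M} (t : Tr E W) (z : ZF (Res E W)) {α : M} (hα : α ∈ W) (ho : IsOrd E α) :
    ∃ v ∈ W, ∀ x, E x v ↔ x ∈ W ∧ Rk E x α := by
  have := TEmb.val (E := E) (W := W) fun x y hx hy => t x hx y hy
  obtain ⟨v, hv⟩ := ex_V
    (dn Subtype.val (Res E W) E (q := IsOrd E (⟨α, hα⟩ : W).1) (p := IsOrd (Res E W) ⟨α, hα⟩) ho)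
  refine ⟨v.1, v.2, fun x => ⟨fun hx => ⟨t _ v.2 _ hx, ?_⟩, fun hx => ?_⟩⟩
  · exact rk_up (j := Subtype.val) ((hv ⟨x, t _ v.2 _ hx⟩).1 hx)
  · exact (hv ⟨x, hx.1⟩).2 (rk_dn (j := Subtype.val) hx.2)

theorem Inn.V {W : Set M} (h : Inn E W) {α : M} (ho : IsOrd E α) :
    ∃ v ∈ W, ∀ x, E x v ↔ x ∈ W ∧ Rk E x α := inn_V h.tr h.zf (h.ord ho) ho

/-- choice read in the class `W` -/
def InnCh (E : M → M → Prop) (W : Set M) : Prop :=
  ∀ a ∈ W, (∀ x, E x a → ∃ y, E y x) →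
    (∀ x, E x a → ∀ x', E x' a → ∀ y, E y x → E y x' → x = x') →
      ∃ c ∈ W, ∀ x, E x a → ∃ y, E y x ∧ E y c ∧ ∀ y', E y' x → E y' c → y' = y

instance : RD E (Good E) fun W _ => InnCh E W := by unfold InnCh; infer_instance

omit hZ in
theorem inn_ch0 : InnCh E Set.univ ↔ Choice E :=
  ⟨fun H a h1 h2 => let ⟨c, _, h3⟩ := H a trivial h1 fun x k x' k' y => h2 x x' y k k'
      ⟨c, fun x hx => let ⟨y, k1, k2, k3⟩ := h3 x hx; ⟨y, ⟨k1, k2⟩, fun y' k => k3 y' k.1 k.2⟩⟩,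
    fun H a _ h1 h2 => let ⟨c, h3⟩ := H a h1 fun x x' y k k' => h2 x k x' k' y
      ⟨c, trivial, fun x hx => let ⟨y, k1, k2⟩ := h3 x hx
        ⟨y, k1.1, k1.2, fun y' k k' => k2 y' ⟨k, k'⟩⟩⟩⟩

omit hZ in
theorem inn_ch_univ (hC : Choice E) : InnCh E Set.univ := inn_ch0.2 hC

omit hZ in
theorem inn_ch {W : Set M} (t : Tr E W) : InnCh E W ↔ Choice (Res E W) := by
  have := TEmb.val (E := E) (W := W) fun x y hx hy => t x hx y hy
  rw [← inn_ch0]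
  constructor
  · intro H a _ h1 h2
    obtain ⟨c, hc, h3⟩ := H a.1 a.2 (up Subtype.val (Res E W) E h1) (up Subtype.val (Res E W) E h2)
    exact ⟨⟨c, hc⟩, trivial, dn Subtype.val (Res E W) E (q := ∀ x, E x a.1 → ∃ y, E y x ∧
      E y (⟨c, hc⟩ : W).1 ∧ ∀ y', E y' x → E y' (⟨c, hc⟩ : W).1 → y' = y) h3⟩
  · intro H a ha h1 h2
    obtain ⟨c, -, h3⟩ := H ⟨a, ha⟩ trivial
      (dn Subtype.val (Res E W) E (q := ∀ x, E x (⟨a, ha⟩ : W).1 → ∃ y, E y x) h1)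
      (dn Subtype.val (Res E W) E (q := ∀ x, E x (⟨a, ha⟩ : W).1 → ∀ x', E x' (⟨a, ha⟩ : W).1 →
        ∀ y, E y x → E y x' → x = x') h2)
    exact ⟨c.1, c.2, up Subtype.val (Res E W) E (q := ∀ x, E x (⟨a, ha⟩ : W).1 → ∃ y, E y x ∧
      E y c.1 ∧ ∀ y', E y' x → E y' c.1 → y' = y) h3⟩

theorem inn_univ (hC : Choice E) : Inn E Set.univ := 
  ⟨⟨fun _ _ _ _ => trivial, fun y _ => ⟨y, trivial, fun _ hx => hx⟩, fun _ _ _ _ _ _ => trivial,
    fun _ _ _ _ _ _ _ _ _ _ _ => trivial⟩, fun _ _ => inferInstance,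
    (inn_ch tr_univ).1 (inn_ch_univ hC)⟩

/-- definable transitive class models of ZF with all ordinals -/
theorem im_of_zf {W : Set M} (dW : D1 E fun x => x ∈ W) (t : Tr E W)
    (ho : ∀ α, IsOrd E α → α ∈ W) (z : ZF (Res E W)) : IM E W := by
  have := TEmb.val (E := E) (W := W) fun x y hx hy => t x hx y hy
  refine ⟨fun x y hx hy => t x hx y hy, fun y hy => ?_, fun a b c ha hb hc => ?_,
    fun k a b c d y ha hb hc hd hy => ?_⟩
  · obtain ⟨α, hα⟩ := ex_rk E y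
    obtain ⟨v, hv, H⟩ := inn_V t z (ho α hα.ord) hα.ord
    exact ⟨v, hv, fun x hx => (H x).2 ⟨hy x hx, hα.mem hx⟩⟩
  · obtain ⟨c', hc'⟩ := ex_upair (Res E W) ⟨a, ha⟩ ⟨b, hb⟩
    have := up Subtype.val (Res E W) E
      (q := IsUPair E c'.1 (⟨a, ha⟩ : W).1 (⟨b, hb⟩ : W).1) hc'
    exact this.uniq hc ▸ c'.2
  · obtain ⟨y', hy'⟩ := MP_1d770b_lc.sep (Res E W) ⟨a, ha⟩
      fun s => Op (Res E W) (fun _ => True) ⟨b, hb⟩ ⟨c, hc⟩ ⟨d, hd⟩ s k
    have key : ∀ s : W, E s.1 y'.1 ↔ E s.1 y := fun s => (hy' s).trans (by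
      rw [op_abs (j := Subtype.val) (E := E) (q := fun _ => True) _ _ _ _ _ (fun _ => Iff.rfl)]
      exact (hy s.1).symm)
    have : y'.1 = y := ext' E fun s => ⟨fun hs => (key ⟨s, t _ y'.2 _ hs⟩).1 hs,
      fun hs => (key ⟨s, t _ ha _ ((hy s).1 hs).1⟩).2 hs⟩
    exact this ▸ y'.2

instance inn_rdUpd {G : Set M → Prop} (i j k l : ℕ) :
    RD E G fun _ v => Upd E (v i) (v j) (v k) (v l) :=
  RD.congr (P := fun _ v => App E (v l) (v j) (v k) ∧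
      (∀ x y, App E (v l) x y → x ≠ v j → App E (v i) x y) ∧
      ∀ x y, App E (v i) x y → x ≠ v j → App E (v l) x y) fun _ _ _ v _ =>
    and_congr_right fun _ => ⟨fun h x y e => ⟨fun k => h.1 x y k e, fun k => h.2 x y k e⟩,
      fun h => ⟨fun x y k e => (h x y e).1 k, fun x y k e => (h x y e).2 k⟩⟩

instance inn_rdOp {G : Set M → Prop} (i j k l : ℕ) (n : Fin 6) :
    RD E G fun _ v => Op E (fun _ => True) (v i) (v j) (v k) (v l) n := by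
  fin_cases n
  · exact inferInstanceAs (RD E G fun _ v => ¬ E (v l) (v i))
  · exact RD.congr (P := fun _ v => ∃ x, App E (v l) (v i) x ∧ ∃ y, App E (v l) (v j) y ∧ E x y)
      fun _ _ _ v _ => ⟨fun ⟨x, h1, y, h2⟩ => ⟨x, y, h1, h2⟩, fun ⟨x, y, h1, h2⟩ => ⟨x, h1, y, h2⟩⟩
  · exact inferInstanceAs (RD E G fun _ v => ∃ x, App E (v l) (v i) x ∧ App E (v l) (v j) x)
  · exact RD.congr (P := fun _ v => ∃ t, E t (v j) ∧ ∃ y, App E t (v i) y ∧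
        Upd E (v l) (v i) y t ∧ Fn E t) fun _ _ _ v _ =>
      ⟨fun ⟨t, h1, y, _, h2⟩ => ⟨t, y, h1, h2⟩, fun ⟨t, y, h1, h2⟩ => ⟨t, h1, y, h2.1.1, h2⟩⟩
  · exact inferInstanceAs (RD E G fun _ v => ∃ t, E t (v k) ∧ Upd E (v i) (v j) (v l) t ∧ Fn E t)
  · exact RD.congr (P := fun _ v => v l = v l) fun _ _ _ v _ => ⟨fun _ => trivial, fun _ => rfl⟩

theorem _root_.Pool.Agent.Lib.MP_75a307_lc.El.inn (hC : Choice E) {j : M → M} {W : Set M}
    (h : El E j W) : Inn E W := by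
  refine ⟨⟨fun x y hx hy => h.trans x hx y hy, fun y hy => ?_,
    fun a b c ha hb hc => h.upair_mem ha hb hc, fun k a b c d y ha hb hc hd hy => ?_⟩, h.dW,
    (inn_ch h.trans).1 ((h.tr0 fun W => InnCh E W).1 (inn_ch_univ hC))⟩
  · obtain ⟨α, hα⟩ := ex_rk E y
    obtain ⟨K, hK⟩ := ex_V hα.ord
    exact ⟨j K, h.maps K, fun x hx => (h.mem_V hK (hy x hx)).2
      ((hα.mem hx).mono (h.ord hα.ord) (h.le_map hα.ord))⟩
  · obtain ⟨y', h1, h2⟩ := (h.tr0 fun W => ∀ a ∈ W, ∀ b ∈ W, ∀ c ∈ W, ∀ d ∈ W, ∃ y ∈ W, ∀ s ∈ W,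
        (E s y ↔ E s a ∧ Op E (fun _ => True) b c d s k)).1
      (fun a _ b _ c _ d _ =>
        let ⟨y, hy⟩ := MP_1d770b_lc.sep E a fun s => Op E (fun _ => True) b c d s k
        ⟨y, trivial, fun s _ => hy s⟩) a ha b hb c hc d hd
    have : y' = y := ext' E fun s => ⟨fun hs => (hy s).2 ((h2 s (h.trans _ h1 _ hs)).1 hs),
      fun hs => (h2 s (h.trans _ ha _ ((hy s).1 hs).1)).2 ((hy s).1 hs)⟩
    exact this ▸ h1

structure ElW (E : M → M → Prop) (W W' : Set M) (k : M → M) : Prop where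
  dk : D2 E fun x y => k x = y
  inn : Inn E W
  inn' : Inn E W'
  maps : ∀ x ∈ W, k x ∈ W'
  elem : ∀ φ (v : ℕ → M), (∀ n, v n ∈ W) → (SatW E W φ v ↔ SatW E W' φ fun n => k (v n))

theorem _root_.Pool.Agent.Lib.MP_75a307_lc.El.elW (hC : Choice E) {j : M → M} {W : Set M}
    (h : El E j W) : ElW E Set.univ W j := 
  ⟨h.dj, inn_univ hC, h.inn hC, fun x _ => h.maps x, fun φ v _ => (satW_univ φ v).trans (h.elem φ v)⟩

theorem _root_.Pool.Agent.Lib.MP_75a307_lc.El.comp {j k : M → M} {W W' : Set M} (h : El E j W)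
    (h' : ElW E W W' k) : El E (fun x => k (j x)) W' := by
  have h1 := h.fj
  have h2 : F1 E k := f1 h'.dk
  exact ⟨fun s t _ _ => inferInstance, h'.inn'.dW, h'.inn'.tr, fun x => h'.maps _ (h.maps x),
    fun φ v => (h.elem φ v).trans (h'.elem φ _ fun n => h.maps _)⟩

theorem Inn.refl {W : Set M} (h : Inn E W) : ElW E W W id := 
  ⟨fun s t _ _ => inferInstanceAs (Df E fun v => s v = t v), h, h, fun _ hx => hx,
    fun _ _ _ => Iff.rfl⟩

omit hZ in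
/-- relations definable in `(W, E)` are definable in the universe -/
theorem inn_d2 {W : Set M} (dW : D1 E fun x => x ∈ W) (ne : Nonempty W) {S : W → W → Prop}
    (h : D2 (Res E W) S) : D2 E fun x y => ∃ a b : W, a.1 = x ∧ b.1 = y ∧ S a b := by
  obtain ⟨φ, v, hφ⟩ := D2.definable h
  have hrel := satW_iff (j := Subtype.val) (E' := Res E W) (E := E) (W := fun x => x ∈ W)
    (fun x => ⟨fun hx => ⟨⟨x, hx⟩, rfl⟩, fun ⟨b, hb⟩ => hb ▸ b.2⟩) φ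
  have d1 : Df E (fun w => MP_1d770b_lc.SatW E (fun x => x ∈ W) φ (scons (w 0) (scons (w 1)
      (fun i => (v i).1)))) :=
    ((MP_1d770b_lc.SatW.df dW φ).subst
      (fun i => match i with | 0 => fun w => w 0 | 1 => fun w => w 1 | i + 2 => fun _ => (v i).1)
      (fun i => match i with
        | 0 => inferInstance | 1 => inferInstance | _ + 2 => inferInstance)).congr fun w => by
      congr! 1
      funext i
      match i with
      | 0 => rfl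
      | 1 => rfl
      | _ + 2 => rfl
  have key : ∀ a b : W, S a b ↔ MP_1d770b_lc.SatW E (fun x => x ∈ W) φ (scons a.1 (scons b.1
      (fun i => (v i).1))) := fun a b => by
    rw [hφ, ← hrel, comp_scons, comp_scons]
  refine Df.d2 (Df.congr (P := fun w => w 0 ∈ W ∧ w 1 ∈ W ∧ MP_1d770b_lc.SatW E (fun x => x ∈ W) φ
    (scons (w 0) (scons (w 1) (fun i => (v i).1)))) inferInstance fun w => ⟨?_, ?_⟩)
  · rintro ⟨h0, h1, h2⟩
    exact ⟨⟨_, h0⟩, ⟨_, h1⟩, rfl, rfl, (key _ _).2 h2⟩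
  · rintro ⟨a, b, h0, h1, h2⟩
    rw [← h0, ← h1]
    exact ⟨a.2, b.2, (key _ _).1 h2⟩

/-- an inner model of an inner model -/
theorem Inn.sub {W : Set M} (h : Inn E W) [ZF (Res E W)] {W0 : Set W} (k : Inn (Res E W) W0) :
    Inn E (Subtype.val '' W0) := by
  have := h.im.temb
  have h' := k.im
  have t : Tr E (Subtype.val '' W0) := by
    rintro _ ⟨x, hx, rfl⟩ y hy
    exact ⟨⟨y, h.im.tr x.2 hy⟩, h'.tr hx hy, rfl⟩
  refine ⟨⟨fun x y hx hy => t x hx y hy, fun y hy => ?_, ?_, ?_⟩, fun s _ => ?_, (inn_ch t).1 ?_⟩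
  · obtain ⟨α, hα⟩ := ex_rk E y
    let α' : W := ⟨α, h.ord hα.ord⟩
    obtain ⟨v, hv, H⟩ := k.V
      (dn Subtype.val (Res E W) E (q := IsOrd E α'.1) (p := IsOrd (Res E W) α') hα.ord)
    refine ⟨v.1, ⟨v, hv, rfl⟩, fun z hz => ?_⟩
    obtain ⟨z, hz', rfl⟩ := hy z hz
    exact (H z).2 ⟨hz', rk_dn (j := Subtype.val) (hα.mem hz)⟩
  · rintro _ _ c ⟨a, ha, rfl⟩ ⟨b, hb, rfl⟩ hc
    have hcW := h.im.2.2.1 _ _ _ a.2 b.2 hc
    exact ⟨⟨c, hcW⟩, h'.2.2.1 _ _ _ ha hb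
      (dn Subtype.val (Res E W) E (q := IsUPair E (⟨c, hcW⟩ : W).1 a.1 b.1) hc), rfl⟩
  · rintro n _ _ _ _ y ⟨a, ha, rfl⟩ ⟨b, hb, rfl⟩ ⟨c, hc, rfl⟩ ⟨d, hd, rfl⟩ hy
    have hyW := h.im.2.2.2 n _ _ _ _ y a.2 b.2 c.2 d.2 hy
    refine ⟨⟨y, hyW⟩, h'.2.2.2 n a b c d _ ha hb hc hd fun s => (hy s.1).trans ?_, rfl⟩
    rw [op_abs (j := Subtype.val) (E := E) (q := fun _ => True) _ _ _ _ _ (fun _ => Iff.rfl)]
    rfl
  · exact (inn_d2 h.dW ⟨⟨_, h.im.emp emp_spec⟩⟩ (S := fun a _ => a ∈ W0)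
      (fun s _ _ _ => k.dW s) s s).congr fun v =>
      ⟨fun ⟨a, _, h1, _, h2⟩ => ⟨a, h2, h1⟩, fun ⟨a, h1, h2⟩ => ⟨a, a, h2, h2, h1⟩⟩
  · rintro _ ⟨a, ha, rfl⟩ h1 h2
    obtain ⟨c, hc, h3⟩ := (inn_ch k.tr).2 k.ac a ha
      (dn Subtype.val (Res E W) E h1) (dn Subtype.val (Res E W) E h2)
    exact ⟨c.1, ⟨c, hc, rfl⟩, up Subtype.val (Res E W) E h3⟩

/-- an elementary map of the model `(W, E)` read in the universe -/
theorem Inn.lift {W : Set M} (h : Inn E W) [ZF (Res E W)] {i : W → W} {W0 : Set W}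
    (k : El (Res E W) i W0) :
    ∃ i', ElW E W (Subtype.val '' W0) i' ∧ ∀ x : W, i' x.1 = (i x).1 := by
  classical
  have k' := k.inn h.ac
  have e : ∀ x : W, (if hx : x.1 ∈ W then (i ⟨x.1, hx⟩).1 else x.1) = (i x).1 :=
    fun x => dif_pos x.2
  refine ⟨fun x => if hx : x ∈ W then (i ⟨x, hx⟩).1 else x, ⟨fun s t _ _ => ?_, h, h.sub k',
    fun x hx => ⟨i ⟨x, hx⟩, k.maps _, (e ⟨x, hx⟩).symm⟩, fun φ v hv => ?_⟩, e⟩
  · have := h.dW
    have := inn_d2 h.dW ⟨⟨_, h.im.emp emp_spec⟩⟩ k.dj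
    refine Df.congr (P := fun v => (∃ a b : W, a.1 = s v ∧ b.1 = t v ∧ i a = b) ∨
      (¬ s v ∈ W ∧ s v = t v)) inferInstance fun v => ?_
    beta_reduce
    by_cases hx : s v ∈ W
    · rw [dif_pos hx]
      refine ⟨fun k => ?_, fun k => Or.inl ⟨⟨_, hx⟩, i ⟨_, hx⟩, rfl, k, rfl⟩⟩
      obtain ⟨a, b, k1, k2, k3⟩ := k.resolve_right fun k => k.1 hx
      rw [← k2, ← k3]
      exact congrArg (fun z => (i z).1) (Subtype.ext k1.symm)
    · rw [dif_neg hx]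
      exact ⟨fun k => (k.resolve_left fun ⟨a, _, k1, _⟩ => hx (k1 ▸ a.2)).2, fun k => Or.inr ⟨hx, k⟩⟩
  · have e' : (fun n => if hx : v n ∈ W then (i ⟨v n, hx⟩).1 else v n) =
        fun n => (i ⟨v n, hv n⟩).1 := funext fun n => dif_pos (hv n)
    rw [e']
    exact (satW_res φ fun n => ⟨v n, hv n⟩).trans ((k.elem φ _).trans
      (satW_img Subtype.val W0 φ fun n => i ⟨v n, hv n⟩).symm)

namespace ElW

variable {W W' : Set M} {k : M → M} (h : ElW E W W' k)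
include h

theorem fk : F1 E k := f1 h.dk

theorem trG (P : Set M → (ℕ → M) → Prop) [d : RD E (Good E) P] (v : ℕ → M) (hv : ∀ n, v n ∈ W) :
    P W v ↔ P W' fun n => k (v n) := by
  obtain ⟨φ, hφ⟩ := d.out
  rw [← hφ _ h.inn.good h.inn.tr v hv, ← hφ _ h.inn'.good h.inn'.tr _ fun _ => h.maps _ (hv _)]
  exact h.elem φ v hv

theorem tr1 (P : Set M → M → Prop) [RD E (Good E) fun W v => P W (v 0)] {a : M} (ha : a ∈ W) :
    P W a ↔ P W' (k a) := h.trG (fun W v => P W (v 0)) (fun _ => a) fun _ => ha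

theorem tr2 (P : Set M → M → M → Prop) [RD E (Good E) fun W v => P W (v 0) (v 1)] {a b : M}
    (ha : a ∈ W) (hb : b ∈ W) : P W a b ↔ P W' (k a) (k b) :=
  h.trG (fun W v => P W (v 0) (v 1)) (fun n => [a].getD n b) fun n =>
    match n with | 0 => ha | _ + 1 => hb

theorem tr3 (P : Set M → M → M → M → Prop) [RD E (Good E) fun W v => P W (v 0) (v 1) (v 2)]
    {a b c : M} (ha : a ∈ W) (hb : b ∈ W) (hc : c ∈ W) : P W a b c ↔ P W' (k a) (k b) (k c) :=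
  h.trG (fun W v => P W (v 0) (v 1) (v 2)) (fun n => [a, b].getD n c) fun n =>
    match n with | 0 => ha | 1 => hb | _ + 2 => hc

theorem tr4 (P : Set M → M → M → M → M → Prop)
    [RD E (Good E) fun W v => P W (v 0) (v 1) (v 2) (v 3)] {a b c d : M} (ha : a ∈ W)
    (hb : b ∈ W) (hc : c ∈ W) (hd : d ∈ W) : P W a b c d ↔ P W' (k a) (k b) (k c) (k d) :=
  h.trG (fun W v => P W (v 0) (v 1) (v 2) (v 3)) (fun n => [a, b, c].getD n d) fun n =>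
    match n with | 0 => ha | 1 => hb | 2 => hc | _ + 3 => hd

theorem mem_iff {a b : M} (ha : a ∈ W) (hb : b ∈ W) : E (k a) (k b) ↔ E a b :=
  (h.tr2 (fun _ a b => E a b) ha hb).symm

theorem inj {a b : M} (ha : a ∈ W) (hb : b ∈ W) : k a = k b ↔ a = b :=
  (h.tr2 (fun _ a b => a = b) ha hb).symm

theorem app_iff {f a b : M} (hf : f ∈ W) (ha : a ∈ W) (hb : b ∈ W) :
    App E (k f) (k a) (k b) ↔ App E f a b := (h.tr3 (fun _ f a b => App E f a b) hf ha hb).symm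

theorem comp {W'' : Set M} {k' : M → M} (h' : ElW E W' W'' k') :
    ElW E W W'' fun x => k' (k x) := by
  have h1 := h.fk
  have h2 := h'.fk
  exact ⟨fun s t _ _ => inferInstance, h.inn, h'.inn', fun x hx => h'.maps _ (h.maps x hx),
    fun φ v hv => (h.elem φ v hv).trans (h'.elem φ _ fun n => h.maps _ (hv n))⟩

theorem pr {a b : M} (ha : a ∈ W) (hb : b ∈ W) : k (pr E a b) = pr E (k a) (k b) := 
  pr_eq.1 ((h.tr3 (fun _ p a b => IsOPair E p a b) (h.inn.pr.2 ⟨ha, hb⟩) ha hb).1 (pr_spec a b))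

theorem ap {f a : M} (hf : f ∈ W) (ha : a ∈ W) : k (ap E f a) = ap E (k f) (k a) := by
  obtain ⟨h1, h2⟩ := (h.tr3 (fun _ y f a => (∀ z, E z y → ∃ y', App E f a y' ∧ E z y') ∧
    ∀ y', App E f a y' → Sub E y' y) (h.inn.ap hf ha) hf ha).1
    ⟨fun z => (ap_spec f a z).1, fun y' k1 z k2 => (ap_spec f a z).2 ⟨y', k1, k2⟩⟩
  exact ext' E fun z => Iff.trans ⟨h1 z, fun ⟨y', k1, k2⟩ => h2 y' k1 z k2⟩ (ap_spec _ _ z).symm

theorem tup {l : M} (hl : l ∈ W) : k (tup E l) = tup E (k l) := 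
  ((h.tr2 (fun _ t l => IsTup E t l) (h.inn.tup hl) hl).1 (tup_spec l)).eq

theorem ord {α : M} (ho : IsOrd E α) : IsOrd E (k α) := 
  (h.tr1 (fun _ a => IsOrd E a) (h.inn.ord ho)).1 ho

theorem le_map {α : M} (ho : IsOrd E α) : Le E α (k α) := by
  have := h.fk
  refine ord_ind (fun α => Le E α (k α)) (fun α ho ih => ?_) α ho
  exact ho.le_of_sub (h.ord ho) fun β hβ => (ih β hβ).lt (h.ord ho)
    ((h.mem_iff (h.inn.ord (ho.mem hβ)) (h.inn.ord ho)).2 hβ)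

theorem fixV' {ξ x : M} (hf : ∀ α, E α ξ → k α = α) (hs : ∀ y ∈ W', Rk E y ξ → y ∈ W)
    (hx : x ∈ W) (hr : Rk E x ξ) : k x = x := by
  have := h.fk
  have := h.inn.dW
  have key : ∀ β, IsOrd E β → Le E β ξ → ∀ x ∈ W, Rk E x β → k x = x := by
    refine ord_ind (fun β => Le E β ξ → ∀ x ∈ W, Rk E x β → k x = x) fun β ho ih hβ x hW hx => ?_
    obtain ⟨γ, hγ, H⟩ := hx.elim
    have hγκ := hβ.sub hr.ord γ hγ
    have H' := (h.tr2 (fun _ x γ => ∀ z, E z x → Rk E z γ) hW (h.inn.ord (ho.mem hγ))).1 H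
    rw [hf γ hγκ] at H'
    refine ext' E fun y => ⟨fun hy => ?_, fun hy => ?_⟩
    · have hyW := hs y (h.inn'.tr _ (h.maps x hW) _ hy) ((H' y hy).lt hr.ord hγκ)
      rwa [← ih γ hγ (Or.inl hγκ) y hyW (H' y hy), h.mem_iff hyW hW] at hy
    · have hyW := h.inn.tr _ hW _ hy
      rw [← ih γ hγ (Or.inl hγκ) y hyW (H y hy), h.mem_iff hyW hW]; exact hy
  exact key ξ hr.ord (Or.inr rfl) x hx hr

theorem fixT {l a : M} (hl : IsOrd E l) (hf : ∀ α, E α l → k α = α) (ha : E a (LE.tup E l)) :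
    k a = a := by
  have := h.fk
  have hW : ∀ a, E a (LE.tup E l) → a ∈ W := h.inn.tr _ (h.inn.tup (h.inn.ord hl))
  refine tup_ind l (fun a => k a = a) hf (fun a b h1 h2 k1 k2 => ?_) a ha
  rw [h.pr (hW a h1) (hW b h2), k1, k2]

end ElW

end Pool.Agent.Lib.MP_75a307_lc.LE
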