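import Pool.Agent.Lib.MP_75a307_lc.LE.Inn

/-! The model `L[S]`, its absoluteness, and minimal sequences. -/

set_option synthInstance.maxSize 100000
set_option linter.unusedVariables false
set_option linter.unusedSectionVars false

namespace Pool.Agent.Lib.MP_75a307_lc.LE

open Pool.Agent.Lib.MP_1d770b_lc

universe u
variable {M : Type u} {E : M → M → Prop} [hZ : ZF E]

abbrev LK (E : M → M → Prop) (S : M) : Set M := KK E fun s => E s S

instance (i k : ℕ) : UD.{u} fun _ E v => v k ∈ LK E (v i) := by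
  have h1 : ∀ (o i k l m : ℕ) (r : Fin 6),
      UD.{u} fun _ E v => Op E (fun s => E s (v o)) (v i) (v k) (v l) (v m) r := by
    intro o i k l m r
    fin_cases r <;> (simp only [Op]; infer_instance)
  have h2 : ∀ o i k l : ℕ,
      UD.{u} fun _ E v => VS E (fun s => E s (v o)) (App E (v i)) (v k) (v l) := by
    intro o i k l
    unfold VS; infer_instance
  have h3 : ∀ o i k : ℕ, UD.{u} fun _ E v => Val E (fun s => E s (v o)) (v i) (v k) := by
    intro o i k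
    unfold Val Rec Ap; infer_instance
  exact inferInstanceAs (UD.{u} fun _ E v => ∃ ξ, Val E (fun s => E s (v i)) ξ (v k))

noncomputable def lkF : Fm := (inferInstance : UD.{u} fun _ E v => v 1 ∈ LK E (v 0)).out.choose

omit hZ in
theorem lkF_spec (A x : M) : x ∈ LK E A ↔ Sat E lkF.{u} (scons A fun _ => x) :=
  (inferInstance : UD.{u} fun _ E v => v 1 ∈ LK E (v 0)).out.choose_spec M E (scons A fun _ => x)

/-- `x ∈ L[A]` in the sense of `W` -/
def InL (E : M → M → Prop) (W : Set M) (A x : M) : Prop := SatW E W lkF.{u} (scons A fun _ => x)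

/-- `L[A] ⊨ φ(A ∩ L[A])` in the sense of `W` -/
def SatL (E : M → M → Prop) (W : Set M) (φ : Fm) (A : M) : Prop :=
  ∃ B ∈ W, (∀ t ∈ W, E t B ↔ E t A ∧ InL E W A t) ∧
    SatW E {x | x ∈ W ∧ InL E W A x} φ fun _ => B

/-- `φ(S)` holds and fails in `L[S']` for each proper initial segment `S'` -/
def Min (E : M → M → Prop) (W : Set M) (φ : Fm) (S : M) : Prop :=
  (SatW E W φ fun _ => S) ∧ ∀ κ ∈ W, ∀ l ∈ W, ∀ S' ∈ W, IsOrd E κ → IsOrd E l → Cut E S κ l S' →
    S' ≠ S → ¬ SatL E W φ S'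

instance (i k : ℕ) : UR.{u} fun _ E W v => InL E W (v i) (v k) := by
  have h := UR.ren (P := fun _ E W v => SatW E W lkF.{u} v) ⟨lkF.{u}, fun _ _ _ _ _ _ _ _ => Iff.rfl⟩
    (scons i fun _ => k)
  refine UR.congr (h := h) fun M E _ W _ _ v _ => ?_
  have : (fun n => v (scons i (fun _ => k) n)) = scons (v i) fun _ => v k := by
    funext n; cases n <;> rfl
  rw [this]; rfl

theorem lk_rel (φ : Fm) : ∀ (i : ℕ) (ρ : ℕ → ℕ), UR.{u} fun _ E W v =>
    SatW E {x | x ∈ W ∧ InL E W (v i) x} φ fun n => v (ρ n) := by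
  induction φ with
  | mem a b => intro i ρ; exact UR.mem (ρ a) (ρ b)
  | eq a b => intro i ρ; exact UR.eq (ρ a) (ρ b)
  | neg φ ih => intro i ρ; exact UR.not (h := ih i ρ)
  | and φ ψ ih1 ih2 => intro i ρ; exact UR.and (h := ih1 i ρ) (k := ih2 i ρ)
  | ex φ ih =>
    intro i ρ
    obtain ⟨χ, hχ⟩ := (UR.and (h := (inferInstance : UR.{u} fun _ E W v =>
      InL E W (v (i + 1)) (v 0))) (k := ih (i + 1) (lift ρ))).out
    refine ⟨.ex χ, fun M E z W g t v hv => exists_congr fun a => ?_⟩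
    have e : (fun n => scons a v (lift ρ n)) = scons a fun n => v (ρ n) := by
      funext n; cases n <;> rfl
    constructor
    · rintro ⟨ha, h⟩
      have := (hχ M E z W g t (scons a v) fun n => by cases n; exacts [ha, hv _]).1 h
      rw [e] at this
      exact ⟨⟨ha, this.1⟩, this.2⟩
    · rintro ⟨ha, h⟩
      refine ⟨ha.1, (hχ M E z W g t (scons a v) fun n => by cases n; exacts [ha.1, hv _]).2 ?_⟩
      rw [e]
      exact ⟨ha.2, h⟩

instance (φ : Fm) (i : ℕ) : UR.{u} fun _ E W v => SatL E W φ (v i) := by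
  have h := lk_rel.{u} φ (i + 1) fun _ => 0
  unfold SatL; infer_instance

instance (φ : Fm) (i : ℕ) : UR.{u} fun _ E W v => Min E W φ (v i) := by
  unfold Min; infer_instance

instance (φ : Fm) (i : ℕ) : RD E (Good E) fun W v => SatL E W φ (v i) :=
  UR.rd (P := fun _ E W v => SatL E W φ (v i)) inferInstance

instance (φ : Fm) (i : ℕ) : RD E (Good E) fun W v => Min E W φ (v i) :=
  UR.rd (P := fun _ E W v => Min E W φ (v i)) inferInstance

variable {W : Set M} {A B S x : M}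

theorem lk_inn (S : M) : Inn E (LK E S) :=
  ⟨(KK.imq fun _ _ => inferInstance).im, fun _ _ => inferInstance,
    kk_choice fun _ _ => inferInstance⟩

theorem lk_dq (S : M) : D1 E fun s => E s S := fun _ _ => inferInstance

theorem lk_cap (S : M) : ∃ B ∈ LK E S, ∀ t, E t B ↔ E t S ∧ t ∈ LK E S := by
  have h := KK.imq (lk_dq (E := E) S)
  obtain ⟨a, ha, H⟩ := h.im.cover (lk_inn S).dW S
  obtain ⟨c, hc⟩ := sep E a fun s => E s S
  exact ⟨c, h.2.2.2 5 a a a a c ha ha ha ha hc, fun t => (hc t).trans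
    ⟨fun k => ⟨k.2, h.tr ha k.1⟩, fun k => ⟨H t k.1 k.2, k.1⟩⟩⟩

theorem lk_sub (h : IM E W) (dW : D1 E fun x => x ∈ W)
    (k : ∀ a ∈ W, ∀ b, (∀ s, E s b ↔ E s a ∧ E s S) → b ∈ W) : LK E S ⊆ W := by
  refine fun x hx => IMq.kk (q := fun s => E s S)
    ⟨h.1, h.2.1, h.2.2.1, fun r a b c d y ha hb hc hd hy => ?_⟩ (lk_dq S) dW hx
  by_cases hr : r = 5
  · subst hr
    exact k a ha y hy
  · exact h.2.2.2 r a b c d y ha hb hc hd fun s => (hy s).trans
      (and_congr_right fun _ => op_congr fun e => (hr e).elim)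

theorem Inn.lk (h : Inn E W) (hB : B ∈ W) (k : ∀ t ∈ W, E t B ↔ E t S) : LK E S ⊆ W := by
  refine lk_sub h.im h.dW fun a ha b hb => ?_
  obtain ⟨y1, hy1, k1⟩ := h.im.diff ha hB
  obtain ⟨y2, hy2, k2⟩ := h.im.diff ha hy1
  have : y2 = b := ext' E fun s => by
    have := fun hs : E s a => k s (h.tr a ha s hs)
    rw [k2, k1, hb]
    tauto
  exact this ▸ hy2

theorem lk_val (h : ∀ t ∈ LK E A, t ∈ LK E B → (E t A ↔ E t B)) : LK E A ⊆ LK E B := by
  have te : TEmb (fun x : M => x) E E := { Emb.id with tr := fun _ y _ => ⟨y, rfl⟩ }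
  rintro x ⟨ξ, hξ⟩
  refine ⟨ξ, ord_ind (fun ξ => ∀ y, Val E (fun s => E s A) ξ y → Val E (fun s => E s B) ξ y) ?_ ξ
    hξ.ord x hξ⟩
  intro ξ ho ih y hy
  refine Val.up (j := fun x : M => x) (lk_dq B) (fun s η z h1 h2 h3 => ?_) hy
  obtain ⟨z', hz'⟩ := Val.total (lk_dq A) h2.ord
  obtain rfl := (ih η h1 z' hz').fn (lk_dq B) h2
  exact h s ((lk_inn A).tr _ ⟨η, hz'⟩ _ h3) ((lk_inn B).tr _ ⟨η, h2⟩ _ h3)

theorem lk_congr (h : ∀ t ∈ LK E A, t ∈ LK E B → (E t A ↔ E t B)) : LK E A = LK E B :=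
  Set.Subset.antisymm (lk_val h) (lk_val fun t h1 h2 => (h t h2 h1).symm)

theorem la_eq (S : M) : LA E S = LK E S := by
  have := nonempty' E
  have h := lk_inn (E := E) S
  refine Set.Subset.antisymm (fun x hx => hx _ (D2.definable fun s _ _ _ => h.dW s) h.tr
    (fun α => h.ord) h.zf.out fun a ha b hb =>
      (KK.imq (lk_dq S)).2.2.2 5 a a a a b ha ha ha ha hb) fun x hx W d t o z k => ?_
  have dW : D1 E fun x => x ∈ W := fun s _ => D2.of_definable d s s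
  exact lk_sub (im_of_zf dW t o ⟨z⟩) dW k hx

theorem Inn.lk_res (h : Inn E W) (A x : W) : x ∈ LK (Res E W) A ↔ x.1 ∈ LK E A.1 := by
  have := h.im.temb
  have := h.zf
  constructor
  · rintro ⟨ξ, hξ⟩
    exact ⟨ξ.1, Val.up (j := Subtype.val) (lk_dq A.1) (fun _ _ _ _ _ _ => Iff.rfl) hξ⟩
  · rintro ⟨ξ, hξ⟩
    obtain ⟨y, h1, h2⟩ := Val.abs (j := (Subtype.val : W → M)) (E' := Res E W) (lk_dq A.1)
      (lk_dq A) (ξ := ⟨ξ, h.ord hξ.ord⟩) (fun _ _ _ _ _ _ => Iff.rfl) hξ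
    exact ⟨_, Subtype.ext h1 ▸ h2⟩

theorem Inn.inL (h : Inn E W) (hA : A ∈ W) (hx : x ∈ W) : InL E W A x ↔ x ∈ LK E A := by
  refine Iff.trans ?_ (h.lk_res ⟨A, hA⟩ ⟨x, hx⟩)
  rw [lkF_spec, ← satW_res, comp_scons]
  rfl

theorem _root_.Pool.Agent.Lib.MP_75a307_lc.El.lk (hC : Choice E) {j : M → M} (h : El E j W)
    (hV : ∀ x, x ∈ LK E S) : W = LK E (j S) := by
  have hW := h.inn hC
  have : RD E (Good E) fun W v => ∀ x ∈ W, InL E W (v 0) x :=
    UR.rd (P := fun _ E W v => ∀ x ∈ W, InL E W (v 0) x) inferInstance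
  refine Set.Subset.antisymm (fun x hx => (hW.inL (h.maps S) hx).1 ?_)
    (hW.lk (h.maps S) fun _ _ => Iff.rfl)
  exact (h.tr1 (fun W a => ∀ x ∈ W, InL E W a x) S).1
    (fun y _ => ((inn_univ hC).inL trivial trivial).2 (hV y)) x hx

theorem Inn.satL (h : Inn E W) (hA : A ∈ W) (φ : Fm) : SatL E W φ A ↔
    ∃ B, (∀ t, E t B ↔ E t A ∧ t ∈ LK E A) ∧ SatW E (LK E A) φ fun _ => B := by
  have s : LK E A ⊆ W := h.lk hA fun _ _ => Iff.rfl
  have e : {x | x ∈ W ∧ InL E W A x} = LK E A := Set.ext fun x =>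
    ⟨fun k => (h.inL hA k.1).1 k.2, fun k => ⟨s k, (h.inL hA (s k)).2 k⟩⟩
  unfold SatL
  rw [e]
  constructor
  · rintro ⟨B, hB, h1, h2⟩
    refine ⟨B, fun t => ⟨fun ht => ?_, fun ht => ?_⟩, h2⟩
    · have k := h.tr B hB t ht
      exact ((h1 t k).1 ht).imp_right (h.inL hA k).1
    · exact (h1 t (s ht.2)).2 ⟨ht.1, (h.inL hA (s ht.2)).2 ht.2⟩
  · rintro ⟨B, h1, h2⟩
    obtain ⟨C, hC, k⟩ := lk_cap (E := E) A
    obtain rfl : C = B := ext' E fun t => (k t).trans (h1 t).symm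
    exact ⟨C, s hC, fun t ht => by rw [h1, h.inL hA ht], h2⟩

end Pool.Agent.Lib.MP_75a307_lc.LE
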