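import Pool.Agent.Lib.MP_75a307_lc.LE.Bas

/-! Countable completeness at limit stages. -/

set_option synthInstance.maxSize 100000
set_option linter.unusedVariables false
set_option linter.unusedSectionVars false

namespace Pool.Agent.Lib.MP_75a307_lc.LE

open Pool.Agent.Lib.MP_1d770b_lc

universe u
variable {M : Type u} {E : M → M → Prop} [hZ : ZF E]

variable (E) in
/-- threads of `G` extend to threads of `G'` -/
def RelCC (G G' : M) : Prop :=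
  ∃ D, Fn E D ∧ (∀ t, E t G' → ∃ d, App E D t d ∧ Sub E d G ∧ Ctb E Set.univ d) ∧
    ∀ H, Sub E H G' → Ctb E Set.univ H → ∀ σ, Fn E σ → (∀ a y, App E σ a y → E a (sN E G)) →
      (∀ t, E t H → ∀ d, App E D t d → Thr E d σ) →
        ∃ σ', Sub E σ σ' ∧ (∀ a y, App E σ' a y → E a (sN E G')) ∧ Thr E H σ'

instance (a b : (ℕ → M) → M) [IsT a] [IsT b] : Df E fun v => RelCC E (a v) (b v) := by
  unfold RelCC; infer_instance

theorem RelCC.refl (G : M) : RelCC E G G := by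
  obtain ⟨D, -, hD⟩ := ex_fun E G (fun t d => IsUPair E d t t) fun _ _ _ _ h1 h2 => h1.uniq h2
  refine ⟨D, fun t d d' h1 h2 => ((hD _ _).1 h1).2.uniq ((hD _ _).1 h2).2, fun t ht => ?_,
    fun H hH _ σ hσ hd h => ⟨σ, fun _ k => k, hd, hσ, fun a q ⟨p, h1, h2⟩ => ?_⟩⟩
  · obtain ⟨d, hd⟩ := ex_upair E t t
    obtain ⟨L, h1, h2⟩ := ctb_list (E := E) [t]
    refine ⟨d, (hD _ _).2 ⟨ht, hd⟩, fun x hx => ?_, h1.sub fun x hx => (h2 x).2 ?_⟩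
    · rcases (hd x).1 hx with rfl | rfl <;> exact ht
    · rcases (hd x).1 hx with rfl | rfl <;> exact List.mem_singleton_self _
  · obtain ⟨d, hd⟩ := ex_upair E p p
    exact (h p h2 d ((hD _ _).2 ⟨hH p h2, hd⟩)).2 a q ⟨p, h1, (hd p).2 (Or.inl rfl)⟩

theorem lim_cases {β : M} (h : IsOrd E β) : Lim E β ∨ ∃ γ, IsSuc E β γ := by
  by_cases k : ∀ α, E α β → ∃ δ, E δ β ∧ E α δ
  · exact Or.inl ⟨h, k⟩
  push Not at k
  obtain ⟨γ, h1, h2⟩ := k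
  refine Or.inr ⟨γ, fun x => ⟨fun hx => (h.mem hx).le_of_not (h.mem h1) (h2 x hx), fun hx => ?_⟩⟩
  exact Le.lt hx h h1

theorem lim_tr3 {G G' a b R : M} (k : Sub E G G') (h : Tr3 E G a b R) : Tr3 E G' a b R :=
  tr3_iff.2 (k _ (tr3_iff.1 h))

theorem lim_sN {G G' : M} (k : Sub E G G') : Sub E (sN E G) (sN E G') := fun a ha =>
  let ⟨b, R, h⟩ := (mem_sN G a).1 ha; (mem_sN G' a).2 ⟨b, R, lim_tr3 k h⟩

variable (E) in
/-- an increasing sequence of length `α` of good subsets of `X` -/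
structure LimSeq (P : M → M → Prop) (X F α : M) : Prop where
  tot : ∀ β, E β α → ∃ y, App E F β y
  gd : ∀ β y, App E F β y → E β α ∧ P β y ∧ Sub E y X
  mono : ∀ β γ y y', App E F β y → App E F γ y' → Le E γ β → Sub E y' y

theorem lim_un (F α : M) : ∃ u, ∀ z, E z u ↔ ∃ β y, E β α ∧ App E F β y ∧ E z y := by
  obtain ⟨d, hd⟩ := ex_fld E F
  obtain ⟨d1, hd1⟩ := ex_sUnion E d
  obtain ⟨u, hu⟩ := sep E d1 fun z => ∃ β y, E β α ∧ App E F β y ∧ E z y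
  exact ⟨u, fun z => (hu z).trans ⟨fun h => h.2, fun ⟨β, y, h1, h2, h3⟩ =>
    ⟨(hd1 z).2 ⟨y, (hd β y h2).2, h3⟩, β, y, h1, h2, h3⟩⟩⟩

/-- dependent choice along an ordinal -/
theorem lim_dc (hC : Choice E) {l : M} (hl : IsOrd E l) (X : M) (P : M → M → Prop)
    [hP : Df E fun v => P (v 0) (v 1)]
    (step : ∀ α F u, E α l → LimSeq E P X F α →
      (∀ z, E z u ↔ ∃ β y, E β α ∧ App E F β y ∧ E z y) → ∃ y, Sub E y X ∧ Sub E u y ∧ P α y) :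
    ∃ F, LimSeq E P X F l := by
  have hP2 := hP.d2
  obtain ⟨pw, hpw⟩ := ex_pow E X
  obtain ⟨A, hA, -⟩ := ex_rel E l pw fun _ _ => True
  obtain ⟨ch, c1, -, c2⟩ := skolem hC A
    fun q y => ∃ α u, IsOPair E q α u ∧ Sub E y X ∧ Sub E u y ∧ P α y
  let S : M → M → M → Prop := fun f α y =>
    ∃ u, (∀ z, E z u ↔ ∃ β y', E β α ∧ App E f β y' ∧ E z y') ∧ y = ap E ch (pr E α u)
  have h : RecOK E (IsOrd E) E S :=
    { wfOrd E with
      dS := fun _ _ _ _ _ _ => by simp only [S]; infer_instance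
      inv := fun f g x y _ H ⟨u, h1, h2⟩ => ⟨u, fun z => (h1 z).trans (exists₂_congr fun β y' =>
        and_congr_right fun hβ => by rw [H β hβ]), h2⟩
      ex := fun f x _ _ => let ⟨u, hu⟩ := lim_un f x; ⟨_, u, hu, rfl⟩
      uniq := fun f x y y' _ _ ⟨u, h1, h2⟩ ⟨u', h3, h4⟩ => by
        rw [h2, h4, ext' E fun z => (h1 z).trans (h3 z).symm] }
  have := h.dRec
  have mk : ∀ α, IsOrd E α → (∀ β, E β α → ∀ y, Rec E (IsOrd E) E S β y → P β y ∧ Sub E y X ∧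
      ∀ γ y', E γ β → Rec E (IsOrd E) E S γ y' → Sub E y' y) →
      ∃ F, LimSeq E P X F α ∧ ∀ β y, App E F β y ↔ E β α ∧ Rec E (IsOrd E) E S β y := by
    intro α hα H
    obtain ⟨F, -, hF⟩ := ex_fun E α (Rec E (IsOrd E) E S) fun _ _ _ _ h1 h2 => h.fn h1 h2
    refine ⟨F, ⟨fun β hβ => ?_, fun β y k => ?_, fun β γ y y' k k' le => ?_⟩, hF⟩
    · obtain ⟨y, hy⟩ := h.total (hα.mem hβ)
      exact ⟨y, (hF _ _).2 ⟨hβ, hy⟩⟩
    · obtain ⟨k1, k2⟩ := (hF _ _).1 k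
      exact ⟨k1, (H β k1 y k2).1, (H β k1 y k2).2.1⟩
    · obtain ⟨k1, k2⟩ := (hF _ _).1 k
      obtain ⟨-, k4⟩ := (hF _ _).1 k'
      rcases le with le | rfl
      · exact (H β k1 y k2).2.2 γ y' le k4
      · rw [h.fn k4 k2]
        exact fun _ a => a
  have key : ∀ α, IsOrd E α → E α l → ∀ y, Rec E (IsOrd E) E S α y → P α y ∧ Sub E y X ∧
      ∀ γ y', E γ α → Rec E (IsOrd E) E S γ y' → Sub E y' y := by
    refine ord_ind (fun α => E α l → ∀ y, Rec E (IsOrd E) E S α y → P α y ∧ Sub E y X ∧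
      ∀ γ y', E γ α → Rec E (IsOrd E) E S γ y' → Sub E y' y) ?_
    intro α hα IH hαl y hy
    obtain ⟨F, hF, hF'⟩ := mk α hα fun β hβ => IH β hβ (hl.tr hαl hβ)
    obtain ⟨f, hf, u, hu, rfl⟩ := h.elim hy
    have hu' : ∀ z, E z u ↔ ∃ β y, E β α ∧ App E F β y ∧ E z y := fun z => (hu z).trans
      (exists₂_congr fun β y' => and_congr_right fun hβ => by
        rw [hf β hβ, hF', and_iff_right hβ])
    obtain ⟨y, hy⟩ := step α F u hαl hF hu'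
    obtain ⟨α', u', k1, k2, k3, k4⟩ := c2 (pr E α u)
      ((hA _).2 ⟨α, u, hαl, (hpw u).2 fun z hz => hy.1 z (hy.2.1 z hz), pr_spec α u, trivial⟩)
      ⟨y, α, u, pr_spec α u, hy⟩
    obtain ⟨rfl, rfl⟩ := (pr_spec α u).inj k1
    exact ⟨k4, k2, fun γ y' hγ hy' z hz =>
      k3 z ((hu' z).2 ⟨γ, y', hγ, (hF' _ _).2 ⟨hγ, hy'⟩, hz⟩)⟩
  obtain ⟨F, hF, -⟩ := mk l hl fun β hβ => key β (hl.mem hβ) hβ
  exact ⟨F, hF⟩

variable (E) in
/-- `y` is a thread of the part of `Y` in `G`, defined on seeds of `G` only -/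
def LimT (Y G y : M) : Prop :=
  (∀ a s, App E y a s → E a (sN E G)) ∧ Fn E y ∧ ∀ a b R, Tr3 E Y a b R → Tr3 E G a b R →
    ∃ s, App E y a s ∧ ∃ u, App E y b u ∧ App E R s u

instance (a b c : (ℕ → M) → M) [IsT a] [IsT b] [IsT c] :
    Df E fun v => LimT E (a v) (b v) (c v) := by unfold LimT; infer_instance

theorem lim_rel {K R s u : M} (h : Rel E K R) (k : App E R s u) : E s K ∧ E u K := by
  obtain ⟨p, h1, h2⟩ := k
  obtain ⟨s', u', h3, h4⟩ := h p h2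
  obtain ⟨rfl, rfl⟩ := h1.inj h3
  exact h4

theorem lim_restr {K G N X Y σ u : M} (hG : Sys E K G) (hN : Sub E (sN E G) N)
    (hX : ∀ p, E p X ↔ ∃ x y, E x N ∧ E y K ∧ IsOPair E p x y ∧ True) (hσ : Fn E σ)
    (h : ∀ a b R, Tr3 E Y a b R → Tr3 E G a b R →
      ∃ s, App E σ a s ∧ ∃ u, App E σ b u ∧ App E R s u)
    (u1 : Sub E u X) (u2 : Sub E u σ) (u3 : ∀ a s, App E u a s → E a (sN E G)) :
    ∃ y, Sub E y X ∧ Sub E u y ∧ LimT E Y G y := by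
  obtain ⟨y, hy⟩ := sep E X fun p => E p σ ∧ ∃ a s, IsOPair E p a s ∧ E a (sN E G)
  have s1 : Sub E y σ := fun p hp => ((hy p).1 hp).2.1
  have ap' : ∀ a s, E a (sN E G) → E s K → App E σ a s → App E y a s :=
    fun a s ha hs ⟨p, h1, h2⟩ =>
      ⟨p, h1, (hy p).2 ⟨(hX p).2 ⟨a, s, hN a ha, hs, h1, trivial⟩, h2, a, s, h1, ha⟩⟩
  refine ⟨y, fun p hp => ((hy p).1 hp).1, fun p hp => ?_, fun a s ⟨p, h1, h2⟩ => ?_,
    fun i a b h1 h2 => hσ i a b (h1.mono s1) (h2.mono s1), fun a b R h1 h2 => ?_⟩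
  · obtain ⟨a, s, -, -, k, -⟩ := (hX p).1 (u1 p hp)
    exact (hy p).2 ⟨u1 p hp, u2 p hp, a, s, k, u3 a s ⟨p, k, hp⟩⟩
  · obtain ⟨-, -, a', s', k1, k2⟩ := (hy p).1 h2
    exact (h1.inj k1).1 ▸ k2
  · obtain ⟨s, k1, t, k2, k3⟩ := h a b R h1 h2
    obtain ⟨r1, r2, r3⟩ := hG.1.rel a b R h2
    exact ⟨s, ap' a s r1 (lim_rel r3 k3).1 k1, t, ap' b t r2 (lim_rel r3 k3).2 k2, k3⟩

/-- the union of an increasing sequence of threads -/
theorem lim_union {c X Y F α u G : M} (hα : IsOrd E α)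
    (hF : LimSeq E (fun β y => ∃ G, App E c β G ∧ LimT E Y G y) X F α)
    (hu : ∀ z, E z u ↔ ∃ β y, E β α ∧ App E F β y ∧ E z y) (hc : Fn E c)
    (hG : ∀ t, E t G ↔ ∃ β G', E β α ∧ App E c β G' ∧ E t G') : Sub E u X ∧ LimT E Y G u := by
  have sub : ∀ β y, App E F β y → Sub E y u := fun β y k z hz =>
    (hu z).2 ⟨β, y, (hF.gd β y k).1, k, hz⟩
  have ap' : ∀ a s, App E u a s → ∃ β y, App E F β y ∧ App E y a s := fun a s ⟨p, h1, h2⟩ =>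
    let ⟨β, y, _, k2, k3⟩ := (hu p).1 h2; ⟨β, y, k2, p, h1, k3⟩
  refine ⟨fun z hz => ?_, fun a s k => ?_, fun a s s' k k' => ?_, fun a b R h1 h2 => ?_⟩
  · obtain ⟨β, y, -, k2, k3⟩ := (hu z).1 hz
    exact (hF.gd β y k2).2.2 z k3
  · obtain ⟨β, y, k1, k2⟩ := ap' a s k
    obtain ⟨g1, ⟨G', g2, g3⟩, -⟩ := hF.gd β y k1
    exact lim_sN (fun t ht => (hG t).2 ⟨β, G', g1, g2, ht⟩) a (g3.1 a s k2)
  · obtain ⟨β, y, k1, k2⟩ := ap' a s k
    obtain ⟨γ, y', k3, k4⟩ := ap' a s' k'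
    obtain ⟨g1, ⟨G1, -, g3⟩, -⟩ := hF.gd β y k1
    obtain ⟨g4, ⟨G2, -, g6⟩, -⟩ := hF.gd γ y' k3
    by_cases o : E β γ
    · exact g6.2.1 a s s' (k2.mono (hF.mono γ β y' y k3 k1 (Or.inl o))) k4
    · exact g3.2.1 a s s' k2
        (k4.mono (hF.mono β γ y y' k1 k3 ((hα.mem g4).le_of_not (hα.mem g1) o)))
  · obtain ⟨β, G', g1, g2, g3⟩ := (hG _).1 (tr3_iff.1 h2)
    obtain ⟨y, hy⟩ := hF.tot β g1
    obtain ⟨-, ⟨G1, g4, g5⟩, -⟩ := hF.gd β y hy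
    obtain rfl := hc _ _ _ g2 g4
    obtain ⟨s, k1, t, k2, k3⟩ := g5.2.2 a b R h1 (tr3_iff.2 g3)
    exact ⟨s, k1.mono (sub β y hy), t, k2.mono (sub β y hy), k3⟩

variable (E) in
/-- `D` witnesses `RelCC E G G'` -/
def LimW (G G' D : M) : Prop :=
  Fn E D ∧ (∀ t, E t G' → ∃ d, App E D t d ∧ Sub E d G ∧ Ctb E Set.univ d) ∧
    ∀ H, Sub E H G' → Ctb E Set.univ H → ∀ σ, Fn E σ → (∀ a y, App E σ a y → E a (sN E G)) →
      (∀ t, E t H → ∀ d, App E D t d → Thr E d σ) →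
        ∃ σ', Sub E σ σ' ∧ (∀ a y, App E σ' a y → E a (sN E G')) ∧ Thr E H σ'

instance (a b c : (ℕ → M) → M) [IsT a] [IsT b] [IsT c] :
    Df E fun v => LimW E (a v) (b v) (c v) := by unfold LimW; infer_instance

variable (E) in
/-- `c` is a continuous increasing chain of systems of limit length `l` with union `U` -/
structure Chain (K c l U : M) : Prop where
  lim : Lim E l
  ne : ∃ z, E z l
  fn : Fn E c
  sys : ∀ α, E α l → ∃ G, App E c α G ∧ Sys E K G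
  suc : ∀ α s G G', E α l → IsSuc E s α → App E c α G → App E c s G' → Sub E G G' ∧ RelCC E G G'
  cont : ∀ α G, E α l → Lim E α → (∃ z, E z α) → App E c α G →
    ∀ t, E t G ↔ ∃ β G', E β α ∧ App E c β G' ∧ E t G'
  un : ∀ t, E t U ↔ ∃ α G, E α l ∧ App E c α G ∧ E t G

theorem Chain.mono {K c l U α β G G' : M} (h : Chain E K c l U) (hβ : E β l) (k : Le E α β)
    (h1 : App E c α G) (h2 : App E c β G') : Sub E G G' := by
  refine ord_ind (fun β => E β l → ∀ α G G', Le E α β → App E c α G → App E c β G' → Sub E G G')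
    ?_ β (h.lim.1.mem hβ) hβ α G G' k h1 h2
  clear h1 h2 k hβ α β G G'
  intro β ho IH hβ α G G' k h1 h2
  rcases k with k | rfl
  · rcases lim_cases ho with o | ⟨γ, o⟩
    · exact fun t ht => (h.cont β G' hβ o ⟨α, k⟩ h2 t).2 ⟨α, G, k, h1, ht⟩
    · have hγ := h.lim.1.tr hβ o.self
      obtain ⟨G1, g1, -⟩ := h.sys γ hγ
      exact fun t ht => (h.suc γ β G1 G' hγ o g1 h2).1 t
        (IH γ o.self hγ α G G1 ((o α).1 k) h1 g1 t ht)
  · rw [h.fn _ _ _ h1 h2]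
    exact fun _ a => a

theorem Chain.lim_sub {K c l U α G : M} (h : Chain E K c l U) (hα : E α l) (k : App E c α G) :
    Sub E G U := fun t ht => (h.un t).2 ⟨α, G, hα, k, ht⟩

theorem Chain.lim_two {K c l U a b : M} (h : Chain E K c l U) (ha : E a (sN E U))
    (hb : E b (sN E U)) : ∃ G, Sys E K G ∧ Sub E G U ∧ E a (sN E G) ∧ E b (sN E G) := by
  obtain ⟨a', R, h1⟩ := (mem_sN U a).1 ha
  obtain ⟨b', R', h2⟩ := (mem_sN U b).1 hb
  obtain ⟨α, G1, k1, k2, k3⟩ := (h.un _).1 (tr3_iff.1 h1)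
  obtain ⟨β, G2, k4, k5, k6⟩ := (h.un _).1 (tr3_iff.1 h2)
  obtain ⟨γ, g1, g2, g3⟩ := h.lim.two k1 k4
  obtain ⟨G, g4, g5⟩ := h.sys γ g1
  exact ⟨G, g5, h.lim_sub g1 g4,
    (mem_sN G a).2 ⟨a', R, tr3_iff.2 (h.mono g1 (Or.inl g2) k2 g4 _ k3)⟩,
    (mem_sN G b).2 ⟨b', R', tr3_iff.2 (h.mono g1 (Or.inl g3) k5 g4 _ k6)⟩⟩

/-- a countable subset of the union lies in a countable set closed under the witnesses -/
theorem Chain.lim_clos (hC : Choice E) {K c l U H : M} (h : Chain E K c l U)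
    (hH : Ctb E Set.univ H) (hU : Sub E H U) :
    ∃ Y, Ctb E Set.univ Y ∧ Sub E H Y ∧ ∀ β s G G', E β l → IsSuc E s β → App E c β G →
      App E c s G' → ∃ D, LimW E G G' D ∧ ∀ t, E t Y → E t G' → ¬ E t G →
        ∀ d, App E D t d → Sub E d Y := by
  obtain ⟨Δ, -, d1, d2, d3⟩ := ac hC l fun β D =>
    ∃ s G G', IsSuc E s β ∧ App E c β G ∧ App E c s G' ∧ LimW E G G' D
  obtain ⟨Y, y1, y2, -, y4⟩ := ctb_clos hC hH hU (fun t z => ∃ β s G G' D d, E β l ∧ IsSuc E s β ∧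
      App E c β G ∧ App E c s G' ∧ E t G' ∧ ¬ E t G ∧ App E Δ β D ∧ App E D t d ∧ E z d) (by
    intro t ht
    by_cases e : ∃ β s G G' D, E β l ∧ IsSuc E s β ∧ App E c β G ∧ App E c s G' ∧ E t G' ∧
      ¬ E t G ∧ App E Δ β D
    · obtain ⟨β, s, G, G', D, e1, e2, e3, e4, e5, e6, e7⟩ := e
      obtain ⟨-, s', G1, G2, w1, w2, w3, w4⟩ := d2 β D e7
      obtain rfl := e2.uniq w1
      obtain rfl := h.fn _ _ _ e3 w2
      obtain rfl := h.fn _ _ _ e4 w3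
      obtain ⟨d, f1, f2, f3⟩ := w4.2.1 t e5
      refine ⟨d, f3, fun z hz => h.lim_sub e1 e3 z (f2 z hz), ?_⟩
      rintro z ⟨β', s', G1, G2, D', d', k1, k2, k3, k4, k5, k6, k7, k8, k9⟩
      obtain rfl : β = β' := by
        rcases (h.lim.1.mem e1).tri (h.lim.1.mem k1) with o | o | o
        · exact (k6 (h.mono k1 (e2.le (h.lim.1.mem k1) o) e4 k3 t e5)).elim
        · exact o
        · exact (e6 (h.mono e1 (k2.le (h.lim.1.mem e1) o) k4 e3 t k5)).elim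
      obtain rfl := d1 _ _ _ e7 k7
      rwa [w4.1 _ _ _ f1 k8]
    · obtain ⟨L, h1, h2⟩ := ctb_list (E := E) []
      exact ⟨L, h1, fun z hz => absurd ((h2 z).1 hz) List.not_mem_nil,
        fun z ⟨β, s, G, G', D, _, k1, k2, k3, k4, k5, k6, k7, _⟩ =>
          (e ⟨β, s, G, G', D, k1, k2, k3, k4, k5, k6, k7⟩).elim⟩)
  refine ⟨Y, y1, y2, fun β s G G' e1 e2 e3 e4 => ?_⟩
  obtain ⟨D0, hD0⟩ := (h.suc β s G G' e1 e2 e3 e4).2
  obtain ⟨D, hD⟩ := d3 β e1 ⟨D0, s, G, G', e2, e3, e4, hD0⟩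
  obtain ⟨-, s', G1, G2, w1, w2, w3, w4⟩ := d2 β D hD
  obtain rfl := e2.uniq w1
  obtain rfl := h.fn _ _ _ e3 w2
  obtain rfl := h.fn _ _ _ e4 w3
  exact ⟨D, w4, fun t t1 t2 t3 d hd z hz =>
    y4 t t1 z ⟨β, s, G, G', D, d, e1, e2, e3, e4, t2, t3, hD, hd, hz⟩⟩

theorem Chain.lim_cc (hC : Choice E) {K c l U : M} (h : Chain E K c l U) :
    CC E Set.univ (Tr3 E U) := by
  intro H _ hH hs
  obtain ⟨Y, y1, y2, y3⟩ := h.lim_clos hC hH fun t ht => by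
    obtain ⟨a, q, k1, b, R, k2, k3⟩ := hs t ht
    rw [pr_eq.1 k1, pr_eq.1 k2]
    exact tr3_iff.1 k3
  obtain ⟨X, hX, -⟩ := ex_rel E (sN E U) K fun _ _ => True
  obtain ⟨F, hF⟩ := lim_dc hC h.lim.1 X (fun β y => ∃ G, App E c β G ∧ LimT E Y G y) (by
    intro α F u hα hF hu
    obtain ⟨G, g1, g2⟩ := h.sys α hα
    have ho := h.lim.1.mem hα
    have hN := lim_sN (h.lim_sub hα g1)
    suffices k : ∃ y, Sub E y X ∧ Sub E u y ∧ LimT E Y G y from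
      let ⟨y, k1, k2, k3⟩ := k; ⟨y, k1, k2, G, g1, k3⟩
    rcases lim_cases ho with o | ⟨γ, o⟩
    · by_cases e : ∃ z, E z α
      · obtain ⟨k1, k2⟩ := lim_union ho hF hu h.fn (h.cont α G hα o e g1)
        exact ⟨u, k1, fun _ a => a, k2⟩
      · have u0 : ∀ z, ¬ E z u := fun z hz => let ⟨β, _, k, _⟩ := (hu z).1 hz; e ⟨β, k⟩
        obtain ⟨H', hH'⟩ := sep E Y fun t => E t G
        obtain ⟨σ, -, hσ⟩ := g2.1.cc H' trivial (y1.sub fun t ht => ((hH' t).1 ht).1) fun t ht => by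
          obtain ⟨a, q, k1, b, R, k2⟩ := g2.2 t ((hH' t).1 ht).2
          exact ⟨a, q, k1, b, R, k2, q, k2, t, k1, ((hH' t).1 ht).2⟩
        obtain ⟨s1, s2⟩ := thr_iff.1 hσ
        exact lim_restr g2 hN hX s1 (fun a b R k1 k2 => s2 a b R
          (tr3_iff.2 ((hH' _).2 ⟨tr3_iff.1 k1, tr3_iff.1 k2⟩))) (fun z hz => (u0 z hz).elim)
          (fun z hz => (u0 z hz).elim) fun a s ⟨p, _, k⟩ => (u0 p k).elim
    · have hγ := h.lim.1.tr hα o.self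
      obtain ⟨y, hy⟩ := hF.tot γ o.self
      obtain ⟨-, ⟨G0, g3, g4⟩, g5⟩ := hF.gd γ y hy
      have uy : Sub E u y := fun z hz =>
        let ⟨β, y', k1, k2, k3⟩ := (hu z).1 hz; hF.mono γ β y y' hy k2 ((o β).1 k1) z k3
      obtain ⟨D, w, cl⟩ := y3 γ α G0 G hγ o g3 g1
      obtain ⟨H', hH'⟩ := sep E Y fun t => E t G ∧ ¬ E t G0
      obtain ⟨σ, s0, -, hσ⟩ := w.2.2 H' (fun t ht => ((hH' t).1 ht).2.1)
        (y1.sub fun t ht => ((hH' t).1 ht).1) y g4.2.1 g4.1 fun t ht d hd => by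
          obtain ⟨t1, t2, t3⟩ := (hH' t).1 ht
          obtain ⟨d', f1, f2, -⟩ := w.2.1 t t2
          obtain rfl := w.1 _ _ _ hd f1
          exact thr_iff.2 ⟨g4.2.1, fun a b R k =>
            g4.2.2 a b R (lim_tr3 (cl t t1 t2 t3 d hd) k) (lim_tr3 f2 k)⟩
      obtain ⟨s1, s2⟩ := thr_iff.1 hσ
      refine lim_restr g2 hN hX s1 (fun a b R k1 k2 => ?_) (fun z hz => g5 z (uy z hz))
        (fun z hz => s0 z (uy z hz)) fun a s k =>
          lim_sN (h.suc γ α G0 G hγ o g3 g1).1 a (g4.1 a s (k.mono uy))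
      by_cases e : Tr3 E G0 a b R
      · obtain ⟨s, k3, t, k4, k5⟩ := g4.2.2 a b R k1 e
        exact ⟨s, k3.mono s0, t, k4.mono s0, k5⟩
      · exact s2 a b R (tr3_iff.2 ((hH' _).2
          ⟨tr3_iff.1 k1, tr3_iff.1 k2, fun k => e (tr3_iff.2 k)⟩)))
  obtain ⟨u, hu⟩ := lim_un (E := E) F l
  obtain ⟨-, -, k1, k2⟩ := lim_union h.lim.1 hF hu h.fn h.un
  refine ⟨u, trivial, thr_iff.2 ⟨k1, fun a b R k => k2 a b R (lim_tr3 y2 k) ?_⟩⟩
  obtain ⟨a', q, e1, b', R', e2, e3⟩ := hs _ (tr3_iff.1 k)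
  obtain ⟨rfl, rfl⟩ := (pr_spec a _).inj e1
  obtain ⟨rfl, rfl⟩ := (pr_spec b R).inj e2
  exact e3

theorem Chain.un_sys (hC : Choice E) {K c l U : M} (h : Chain E K c l U) : Sys E K U := by
  refine ⟨⟨fun a b R k => ?_, fun a ha b hb R _ R' _ r1 r2 k => ?_, fun a ha b hb => ?_,
    h.lim_cc hC, ?_⟩, fun t ht => ?_⟩
  · obtain ⟨α, G, k1, k2, k3⟩ := (h.un _).1 (tr3_iff.1 k)
    obtain ⟨G', g1, g2⟩ := h.sys α k1
    obtain rfl := h.fn _ _ _ k2 g1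
    obtain ⟨r1, r2, r3⟩ := g2.1.rel a b R (tr3_iff.2 k3)
    exact ⟨lim_sN (h.lim_sub k1 k2) a r1, lim_sN (h.lim_sub k1 k2) b r2, r3⟩
  · obtain ⟨G, g1, g2, g3, g4⟩ := h.lim_two ha hb
    exact (g1.1.ultra a g3 b g4 R trivial R' trivial r1 r2 k).imp (lim_tr3 g2) (lim_tr3 g2)
  · obtain ⟨G, g1, g2, g3, g4⟩ := h.lim_two ha hb
    obtain ⟨p, p1, f, g, p2, p3, p4, p5⟩ := g1.1.pair a g3 b g4
    exact ⟨p, lim_sN g2 p p1, f, g, p2, p3, lim_tr3 g2 p4, lim_tr3 g2 p5⟩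
  · obtain ⟨z, hz⟩ := h.ne
    obtain ⟨G, g1, g2⟩ := h.sys z hz
    obtain ⟨a, ha⟩ := g2.1.ne
    exact ⟨a, lim_sN (h.lim_sub hz g1) a ha⟩
  · obtain ⟨α, G, k1, k2, k3⟩ := (h.un _).1 ht
    obtain ⟨G', g1, g2⟩ := h.sys α k1
    obtain rfl := h.fn _ _ _ k2 g1
    exact g2.2 t k3

end Pool.Agent.Lib.MP_75a307_lc.LE
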