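import Pool.Agent.Lib.MP_75a307_lc.LE.Com

/-! No extender of `L[S]` coheres with `S` at `(κ, o(κ))`. -/

set_option synthInstance.maxSize 100000
set_option linter.unusedVariables false
set_option linter.unusedSectionVars false

namespace Pool.Agent.Lib.MP_75a307_lc.LE

open Pool.Agent.Lib.MP_1d770b_lc

universe u
variable {M : Type u} {E : M → M → Prop} [hZ : ZF E]

/-- maximality: an extender that coheres at `(κ, l)`, `l ≤ o(κ)`, has `l < o(κ)` -/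
def M1 (E : M → M → Prop) (W : Set M) (S : M) : Prop :=
  ∀ κ ∈ W, ∀ l ∈ W, ∀ F ∈ W, (∀ v, E v l → E κ v → Dom E S κ v) → Ext1 E W κ l F →
    CohAt E W S κ l F → Dom E S κ l

instance (i : ℕ) : UR.{u} fun _ E W v => M1 E W (v i) := by unfold M1; infer_instance

instance (i : ℕ) : RD E (Good E) fun W v => M1 E W (v i) :=
  UR.rd (P := fun _ E W v => M1 E W (v i)) inferInstance

theorem maxM_min {φ : Fm} (hC : Choice E) {S : M} (hS : Coh1 E Set.univ S)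
    (hV : ∀ x, x ∈ LK E S) (hm : Min E Set.univ φ S) : M1 E Set.univ S := by
  intro κ _ l _ F _ d e c
  by_contra n
  obtain ⟨κ, oκ, ⟨l, F, d, e, c, n⟩, mn⟩ := ord_min (fun κ => ∃ l F,
    (∀ v, E v l → E κ v → Dom E S κ v) ∧ Ext1 E Set.univ κ l F ∧ CohAt E Set.univ S κ l F ∧
      ¬ Dom E S κ l) e.1 ⟨l, F, d, e, c, n⟩
  have ol := e.2.1
  have lt := e.2.2.1
  obtain ⟨θ, hθ, r1, r2, -⟩ := ex_lim (E := E) S κ κ
  obtain ⟨K, hK⟩ := ex_V hθ.1
  obtain ⟨G, g, e1, e2⟩ := sys_base hC (fun a b ha hb => (hK _).2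
    (hθ.opair ((hK a).1 ha) ((hK b).1 hb) (pr_spec a b))) ⟨S, (hK S).2 r1⟩
  obtain ⟨g', s, -, u⟩ := step_spec (κ := κ) (l := l) (F := F) hC hθ hK g (e2 ▸ trivial) (e2 ▸ e)
    (e1 ▸ (hK κ).2 r2)
  have f := (g.fac hC g' s).2.1
  generalize step E K G (pr E κ l) F = G' at g' s u f
  rw [e1] at f
  rw [e2] at u
  have el := g'.el hC
  have co := u.coh S trivial (hS.shape hC) c
  rw [show fac E K G G' S = jG E K G' S from f S] at co
  obtain ⟨ξ, hξ, x1, x2⟩ := ex_next_lim ol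
  have i : cmpAImg E Set.univ S := cmpA_img hC hS el_id
  have i' := cmpA_img hC hS el
  have d' : ∀ v, E v l → E κ v → Dom E (jG E K G' S) κ v := fun v a b =>
    let ⟨p, hp⟩ := d v a b; ⟨p, (co _ _ _ (Or.inr rfl)).2 ⟨hp, a⟩⟩
  have bd : ∀ a b, Le E a κ → Dom E S a b → E b l := fun a b le k => by
    rcases le with le | rfl
    · exact ol.tr lt (c.1 a le b trivial k)
    · rcases (i.lim _ _ k).2.tri ol with t | rfl | t
      exacts [t, (n k).elim, (n (i.down _ _ _ k t lt)).elim]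
  have gap : ∀ a b, E a ξ → Dom E S a b ∨ Dom E (jG E K G' S) a b → Le E a κ := fun a b ha k =>
    (k.elim (cmpA_gap i oκ ol d hξ x2) (cmpA_gap i' oκ ol d' hξ x2)).resolve_right
      fun m => m.not_lt ha
  have ag : ∀ a b p, E a ξ → (At E S a b p ↔ At E (jG E K G' S) a b p) := fun a b p ha =>
    ⟨fun k => have le := gap a b ha (Or.inl ⟨p, k⟩); (co _ _ _ le).2 ⟨k, bd a b le ⟨p, k⟩⟩,
      fun k => ((co _ _ _ (gap a b ha (Or.inr ⟨p, k⟩))).1 k).1⟩
  have inv : Inv E K S G G' ξ := by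
    refine ⟨g, g', hξ, ?_, ?_⟩ <;> rw [e1]
    · exact fun a b p k _ _ => ag a b p (k.resolve_right fun k => emp_spec _ k.2)
    · exact fun η hη => ⟨l, x1, fun a b ha k => bd a b (gap a b (hξ.1.tr hη ha) (Or.inl k)) k⟩
  have x3 := hξ.1.tr x1 lt
  have FW : F ∈ Wm E K G' := (com hC hθ hK ((hK S).2 r1) hS hV hm inv F fun p hp => by
    obtain ⟨-, -, -, t, -, t', -, t1, t2, t3, -⟩ := e
    obtain ⟨a, X, k1, k2, k3⟩ := t3 p hp
    rw [t1.eq] at k3
    rw [t2.eq] at k2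
    exact hξ.opair (tup_rk hξ (fun z hz => hξ.1.tr x1 hz) k2)
      (Rk.intro hξ.1 x3 fun z hz => tup_rk u.lim (fun _ => id) (k3 z hz)) k1).1 (e2 ▸ trivial)
  have I := g'.inn hC
  have hF : ∀ p, E p F ↔ E p F ∧ p ∈ Wm E K G' := fun p =>
    ⟨fun k => ⟨k, I.tr _ FW p k⟩, fun k => k.1⟩
  obtain ⟨p, hp⟩ := (el.tr2 (fun W S κ => ∀ a, E a κ → ∀ l ∈ W, ∀ F ∈ W,
    (∀ v, E v l → E a v → Dom E S a v) → Ext1 E W a l F → CohAt E W S a l F → Dom E S a l) S κ).1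
    (fun a ha l _ F _ h1 h2 h3 => by_contra fun m => mn a ha ⟨l, F, h1, h2, h3, m⟩) κ
    (f κ ▸ u.len κ lt) l (I.ord ol) F FW d' (e.down hC I FW hF)
    (c.down hC I FW hF (el.maps S) e (fun a b p k => (i.lim _ _ ⟨p, k⟩).1.1)
      (fun a b p k => (i'.lim _ _ ⟨p, k⟩).1.1) fun a b p k _ =>
        (ag a b p (k.elim (hξ.1.tr x3) fun k => k.1 ▸ x3)).symm)
  exact no1 ((co _ _ _ (Or.inr rfl)).1 hp).2

theorem m1 (hC : Choice E) {S : M} (hS : Coh1 E Set.univ S) (hV : ∀ x, x ∈ LK E S) :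
    M1 E Set.univ S := by
  obtain ⟨φ, hφ⟩ := (inferInstance : UR.{u} fun _ E W v => ¬ M1 E W (v 0)).out
  by_contra k
  refine no_min φ (fun N E' z hC' S' hS' hV' hm => ?_) hC hS hV ((satW_univ φ _).1
    ((hφ M E hZ _ good_univ tr_univ (fun _ => S) fun _ => trivial).2 k))
  exact (hφ N E' z _ good_univ tr_univ (fun _ => S') fun _ => trivial).1 hm.1
    (maxM_min hC' hS' hV' hm)

end Pool.Agent.Lib.MP_75a307_lc.LE
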