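import Pool.Agent.Lib.MP_75a307_lc.LE.MoE

/-! Tags and limits of the states of the small models. -/

set_option synthInstance.maxSize 100000
set_option linter.unusedVariables false
set_option linter.unusedSectionVars false

namespace Pool.Agent.Lib.MP_75a307_lc.LE

open Pool.Agent.Lib.MP_1d770b_lc

universe u
variable {M : Type u} {E : M → M → Prop} [hZ : ZF E]

section MoL
variable {K θ S Y G Z L L' t α : M}

theorem mol_the {P : M → Prop} (h : ∃ y, ∀ t, E t y ↔ P t) (t : M) :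
    E t (the E fun y => ∀ t, E t y ↔ P t) ↔ P t := by
  obtain ⟨y, hy⟩ := h
  rw [the_eq hy fun y' h => ext' E fun z => (h z).trans (hy z).symm]
  exact hy t

theorem mol_sec (L c : M) : ∃ y, ∀ t, E t y ↔ E (pr E c t) L := by
  obtain ⟨d, hd⟩ := ex_fld E L
  obtain ⟨y, hy⟩ := sep E d fun t => E (pr E c t) L
  exact ⟨y, fun t => (hy t).trans ⟨fun h => h.2, fun h => ⟨(hd _ _ (app_iff.2 h)).2, h⟩⟩⟩

theorem mem_gL (L t : M) : E t (gL E L) ↔ E (pr E (num E 0) t) L := mol_the (mol_sec L _) t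

theorem mem_zL (L t : M) : E t (zL E L) ↔ E (pr E (num E 1) t) L := mol_the (mol_sec L _) t

theorem mem_mkL (G Z t : M) : E t (mkL E G Z) ↔
    (∃ x, E x G ∧ t = pr E (num E 0) x) ∨ ∃ x, E x Z ∧ t = pr E (num E 1) x := by
  obtain ⟨a, ha⟩ := repl E G (fun x y => y = pr E (num E 0) x) fun _ _ _ _ k k' => k.trans k'.symm
  obtain ⟨b, hb⟩ := repl E Z (fun x y => y = pr E (num E 1) x) fun _ _ _ _ k k' => k.trans k'.symm
  obtain ⟨c, hc⟩ := ex_union E a b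
  exact mol_the ⟨c, fun t => (hc t).trans (or_congr (ha t) (hb t))⟩ t

theorem gL_mkL (G Z : M) : gL E (mkL E G Z) = G ∧ zL E (mkL E G Z) = Z := by
  refine ⟨ext' E fun t => ?_, ext' E fun t => ?_⟩
  · rw [mem_gL (E := E), mem_mkL (E := E)]
    exact ⟨fun h => h.elim (fun ⟨x, a, e⟩ => (pr_inj e).2 ▸ a)
      fun ⟨x, a, e⟩ => (num_ne zero_ne_one (pr_inj e).1).elim, fun h => Or.inl ⟨t, h, rfl⟩⟩
  · rw [mem_zL (E := E), mem_mkL (E := E)]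
    exact ⟨fun h => h.elim (fun ⟨x, a, e⟩ => (num_ne one_ne_zero (pr_inj e).1).elim)
      fun ⟨x, a, e⟩ => (pr_inj e).2 ▸ a, fun h => Or.inr ⟨t, h, rfl⟩⟩

theorem okL_mkL (o : OkG E K Y G Z) : OkL E K Y (mkL E G Z) :=
  ⟨by rwa [(gL_mkL G Z).1, (gL_mkL G Z).2], fun t ht => ((mem_mkL G Z t).1 ht).elim
    (fun ⟨x, _, e⟩ => ⟨x, Or.inl e⟩) fun ⟨x, _, e⟩ => ⟨x, Or.inr e⟩⟩

theorem OkL.sub_mkL (o : OkL E K Y L) (s1 : Sub E (gL E L) G) (s2 : Sub E (zL E L) Z) :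
    Sub E L (mkL E G Z) := fun t ht => by
  obtain ⟨x, rfl | rfl⟩ := o.2 t ht
  · exact (mem_mkL _ _ _).2 (Or.inl ⟨x, s1 x ((mem_gL L x).2 ht), rfl⟩)
  · exact (mem_mkL _ _ _).2 (Or.inr ⟨x, s2 x ((mem_zL L x).2 ht), rfl⟩)

theorem gL_mono (s : Sub E L L') : Sub E (gL E L) (gL E L') ∧ Sub E (zL E L) (zL E L') :=
  ⟨fun t h => (mem_gL L' t).2 (s _ ((mem_gL L t).1 h)),
    fun t h => (mem_zL L' t).2 (s _ ((mem_zL L t).1 h))⟩

theorem mem_Nm (K Y S L n : M) : E n ((moD E K Y S).Nm L) ↔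
    ∃ a f, E a (zL E L) ∧ E f Y ∧ n = pr E a f := by
  obtain ⟨r, hr, -⟩ := ex_rel E (zL E L) Y fun a b => a = a
  exact mol_the ⟨r, fun t => (hr t).trans (exists₂_congr fun a f => by
    rw [pr_eq, and_iff_left rfl])⟩ n

theorem moD_lim (k : KG E K θ S) (s : SkY E K Y) {L : M → M} (c : ChN E (moD E K Y S) L α) :
    (moD E K Y S).Ok (L α) ∧ ∀ n, E n ((moD E K Y S).Nm (L α)) →
      ∃ β, E β α ∧ E n ((moD E K Y S).Nm (L β)) := by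
  have := c.dL
  have ok : ∀ β, E β α → OkL E K Y (L β) := c.ok
  have un := c.cont α c.lim c.ne
  have sub : ∀ β, E β α → Sub E (L β) (L α) := fun β hβ t ht => (un t).2 ⟨β, hβ, ht⟩
  have hz : ∀ a, E a (zL E (L α)) → ∃ β, E β α ∧ E a (zL E (L β)) := fun a ha =>
    let ⟨β, hβ, h⟩ := (un _).1 ((mem_zL _ a).1 ha); ⟨β, hβ, (mem_zL _ a).2 h⟩
  obtain ⟨ch, hc, -⟩ := cmp_chain (K := K) (L := fun β => gL E (L β))
    (fun t _ => inferInstance) c.lim c.ne (fun β hβ => (ok β hβ).1.1)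
    (fun β s hβ hs => ⟨(gL_mono (c.suc β s hβ hs).1).1, (c.suc β s hβ hs).2⟩)
    fun β hβ ne t => by simp only [mem_gL]; exact c.cont β hβ ne _
  have sys : Sys E K (gL E (L α)) := hc.un_sys k.ac
  refine ⟨⟨⟨sys, fun a ha => ?_, fun a b ha hb => ?_, ?_⟩, fun t ht => ?_⟩, fun n hn => ?_⟩
  · obtain ⟨β, hβ, h⟩ := hz a ha
    exact fac_sN (gL_mono (sub β hβ)).1 ((ok β hβ).1.2.1 a h)
  · obtain ⟨β, hβ, h⟩ := hz a ha
    obtain ⟨γ, hγ, h'⟩ := hz b hb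
    obtain ⟨δ, hδ, h1, h2⟩ := c.lim.two hβ hγ
    have a1 := (gL_mono (c.mono δ β hδ (Or.inl h1))).2 a h
    have b1 := (gL_mono (c.mono δ γ hδ (Or.inl h2))).2 b h'
    obtain ⟨o1, o2, o3, -⟩ := (ok δ hδ).1
    obtain ⟨p, f, g, hp, hf, hg, e1, e2⟩ := o3 a b a1 b1
    have m := gL_mono (sub δ hδ)
    have tot : ∀ f, E f Y → Tot E K f := fun f hf =>
      ⟨(s.fn f hf).fn, fun x hx => let ⟨y, _, h⟩ := (s.fn f hf).tot hx; ⟨y, h⟩⟩
    have F := (o1.fac k.ac sys m.1).2.2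
    exact ⟨p, f, g, m.2 p hp, hf, hg,
      by rw [← (F a (o2 a a1)).2, e1, o1.fac_val k.ac sys m.1 (o2 p hp) (tot f hf)],
      by rw [← (F b (o2 b b1)).2, e2, o1.fac_val k.ac sys m.1 (o2 p hp) (tot g hg)]⟩
  · obtain ⟨β, hβ⟩ := c.ne
    obtain ⟨a, ha⟩ := (ok β hβ).1.2.2.2
    exact ⟨a, (gL_mono (sub β hβ)).2 a ha⟩
  · obtain ⟨β, hβ, h⟩ := (un t).1 ht
    exact (ok β hβ).2 t h
  · obtain ⟨a, f, ha, hf, e⟩ := (mem_Nm ..).1 hn
    obtain ⟨β, hβ, h⟩ := hz a ha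
    exact ⟨β, hβ, (mem_Nm ..).2 ⟨a, f, h, hf, e⟩⟩

end MoL

end Pool.Agent.Lib.MP_75a307_lc.LE
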