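import Pool.Agent.Lib.MP_75a307_lc.LE.MoS4
import Pool.Agent.Lib.MP_75a307_lc.LE.MoL

/-! The collapsed hulls form an iterable family. -/

set_option synthInstance.maxSize 100000
set_option linter.unusedVariables false
set_option linter.unusedSectionVars false

namespace Pool.Agent.Lib.MP_75a307_lc.LE

open Pool.Agent.Lib.MP_1d770b_lc

universe u
variable {M : Type u} {E : M → M → Prop} [hZ : ZF E]

theorem mo_inst {K θ S Y f : M} (k : KG E K θ S) (s : SkY E K Y) (hf : E f Y)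
    (c : ∀ t, E t K → ap E f t = S) : Mo E (moD E K Y S) := by
  have hC := k.ac
  have hl : ∀ L, OkL E K Y L → Hl E (hL E K Y L) (jG E K (gL E L) K) := fun L o => hG_hl k s o.1
  have hS : ∀ L, OkL E K Y L → E (jG E K (gL E L) S) (hL E K Y L) := fun L o =>
    hG_const k s o.1 hf c
  have im : ∀ L, OkL E K Y L → Clo E (colN E (hL E K Y L)) ∧ cmpAImg E (cl E (colN E (hL E K Y L)))
      (col E (hL E K Y L) (jG E K (gL E L) S)) ∧ ∀ t, E t (col E (hL E K Y L) (jG E K (gL E L) S)) →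
        ∃ u v p, t = pr E (pr E u v) p := fun L o =>
    k.img (o.1.1.el hC) (hl L o).en ((hl L o).unc_col (hS L o)).1 ((hl L o).unc_col (hS L o)).2
  have fc : ∀ L L' y, OkL E K Y L → OkL E K Y L' → Sub E L L' → E y (hL E K Y L) →
      E (fac E K (gL E L) (gL E L') y) (hL E K Y L') := fun L L' y o o' sb hy =>
    hG_fac k s o.1 o'.1.1 (gL_mono sb).1 (gL_mono sb).2 hy
  have mW : ∀ L y, OkL E K Y L → E y (hL E K Y L) → y ∈ Wm E K (gL E L) := fun L y o hy =>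
    (o.1.1.el hC).trans _ ((o.1.1.el hC).maps K) _ ((hl L o).sub y hy)
  refine ⟨fun _ _ => ?_, fun _ _ => ?_, fun _ _ => ?_, f1 fun _ _ _ _ => ?_, fun _ _ _ _ => ?_,
    fun _ _ _ _ => ?_, fun _ _ _ _ _ _ _ _ => ?_, fun L o => (im L o).1, fun L o => (im L o).2.1,
    fun L o => (im L o).2.2, fun L o => k.cons (o.1.1.el hC) (hl L o).en
      ((hl L o).unc_col (hS L o)).1 ((hl L o).unc_col (hS L o)).2,
    fun L L' o o' sb => ⟨(hl L o).en_map (hl L' o') (hG_en k o.1.1 o'.1.1 (gL_mono sb).1)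
      fun y => fc L L' y o o' sb, ?_⟩, fun L x o hx => ?_, fun L L' L'' x o o' o'' sb sb' hx => ?_,
    fun L y o hy => ?_, fun L L' n o o' sb hn => ?_, fun L _ => RelCC.refl _,
    fun L κ l o d => ?_, fun L α c => moD_lim k s c⟩
  iterate 7 simp only [moD]; infer_instance
  · show col E _ (fac E K _ _ (unc E _ (col E _ _))) = col E _ _
    rw [((hl L o).unc_col (hS L o)).2, (o.1.1.fac hC o'.1.1 (gL_mono sb).1).2.1]
  · obtain ⟨a, b⟩ := (hl L o).col_unc hx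
    show col E _ (fac E K _ _ (unc E _ x)) = x
    rw [o.1.1.fac_id hC (mW L _ o a), b]
  · obtain ⟨a, b⟩ := (hl L o).col_unc hx
    show col E _ (fac E K _ _ (unc E _ (col E _ (fac E K _ _ (unc E _ x))))) =
      col E _ (fac E K _ _ (unc E _ x))
    rw [((hl L' o').unc_col (fc L L' _ o o' sb a)).2,
      o.1.1.fac_comp hC o'.1.1 o''.1.1 (gL_mono sb).1 (gL_mono sb').1 (mW L _ o a)]
  · obtain ⟨z, hz, rfl⟩ := (mem_colN _ _).1 hy
    obtain ⟨g, a, hg, ha, rfl⟩ := (mem_hG _ _ _ _ _).1 hz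
    refine ⟨pr E a g, (mem_Nm _ _ _ _ _).2 ⟨a, g, ha, hg, rfl⟩, ?_⟩
    simp only [moD, p1_pr, p2_pr]
  · obtain ⟨a, g, ha, hg, rfl⟩ := (mem_Nm _ _ _ _ _).1 hn
    have m : E (ap E (jG E K (gL E L) g) (sdG E K (gL E L) a)) (hL E K Y L) :=
      (mem_hG _ _ _ _ _).2 ⟨g, a, hg, ha, rfl⟩
    refine ⟨(mem_Nm _ _ _ _ _).2 ⟨a, g, (gL_mono sb).2 a ha, hg, rfl⟩, ?_, ?_⟩ <;>
      simp only [moD, p1_pr, p2_pr]
    · exact ((hl L o).unc_col m).1
    · rw [((hl L o).unc_col m).2,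
        o.1.1.fac_val hC o'.1.1 (gL_mono sb).1 (o.1.2.1 a ha) (s.tot hg)]
  · obtain ⟨p, d⟩ := d
    have e := ((hl L o).unc_col (hS L o))
    obtain ⟨a1, a2, -, a3⟩ := ((hl L o).en.at e.1).2 d
    rw [e.2] at a3
    obtain ⟨b1, b2⟩ := (hl L o).col_unc a1
    obtain ⟨c1, c2⟩ := (hl L o).col_unc a2
    have h : StH E K θ S Y (gL E L) (zL E L) (unc E (hL E K Y L) κ) (unc E (hL E K Y L) l) :=
      ⟨k, s, o.1, hS L o, b1, c1, _, a3⟩
    obtain ⟨t1, t2, t3, t4⟩ := h.step (H := hL E K Y L) rfl rfl rfl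
    rw [b2] at t1 t3 t4
    rw [c2] at t2 t3 t4
    obtain ⟨g1, g2⟩ := gL_mkL (E := E)
      (stG E K S (gL E L) (unc E (hL E K Y L) κ) (unc E (hL E K Y L) l))
      (stZ E K Y (gL E L) (zL E L) (unc E (hL E K Y L) l))
    unfold StepN FixN
    simp only [moD, p1_pr, p2_pr]
    rw [show ∀ L, hL E K Y L = hG E K Y (gL E L) (zL E L) from fun _ => rfl] at *
    simp only [hL, g1, g2]
    exact ⟨okL_mkL h.ok', o.sub_mkL h.sys.2.1 fun a ha => (mem_stZ _ _ _ _ _ _).2 (.inl ha),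
      h.sys.2.2.1, t1, t2, t3, t4⟩

end Pool.Agent.Lib.MP_75a307_lc.LE
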