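import Pool.Agent.Lib.MP_75a307_lc.LE.MoD

/-! The transitive collapse of an elementary substructure. -/

set_option synthInstance.maxSize 100000
set_option linter.unusedVariables false
set_option linter.unusedSectionVars false

namespace Pool.Agent.Lib.MP_75a307_lc.LE

open Pool.Agent.Lib.MP_1d770b_lc

universe u
variable {M : Type u} {E : M → M → Prop} [hZ : ZF E]

section MoC
variable {H H' B B' a b y z : M} {k : M → M}

/-- the defining property of the collapsing function -/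
def MocQ (E : M → M → Prop) [ZF E] (H c : M) : Prop :=
  (∀ p, E p c → ∃ u y, p = pr E u y ∧ E u H) ∧ Fn E c ∧ (∀ u, E u H → ∃ y, App E c u y) ∧
    ∀ u y, App E c u y → ∀ z, E z y ↔ ∃ u', E u' u ∧ App E c u' z

theorem MocQ.dom {c u : M} (q : MocQ E H c) (h : App E c u y) : E u H := by
  obtain ⟨p, h1, h2⟩ := h
  obtain ⟨u', y', e, k⟩ := q.1 p h2
  obtain ⟨rfl, -⟩ := h1.inj (pr_eq.2 e)
  exact k

theorem moc_ex (H : M) : ∃ c, MocQ E H c := by
  let S : M → M → M → Prop := fun f x y => ∀ z, E z y ↔ ∃ u, E u x ∧ E u H ∧ App E f u z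
  have hR : RecOK E (fun x => E x H) (fun x' x => E x' H ∧ RkLt E x' x) S :=
    { wfRk E H with
      dS := fun _ _ _ _ _ _ => by simp only [S]; infer_instance
      inv := fun f g x y _ K hS z => (hS z).trans (exists_congr fun u => and_congr_right fun h1 =>
        and_congr_right fun h2 => K u ⟨h2, RkLt.of_mem h1⟩ z)
      ex := fun f x _ _ => by
        obtain ⟨d, hd⟩ := ex_fld E f
        obtain ⟨y, hy⟩ := sep E d (fun z => ∃ u, E u x ∧ E u H ∧ App E f u z)
        exact ⟨y, fun z => (hy z).trans ⟨fun h => h.2, fun ⟨u, h1, h2, h3⟩ =>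
          ⟨(hd u z h3).2, u, h1, h2, h3⟩⟩⟩
      uniq := fun f x y y' _ _ h1 h2 => ext' E fun z => (h1 z).trans (h2 z).symm }
  have dR := hR.dRec
  generalize hRec : Rec E (fun x => E x H) (fun x' x => E x' H ∧ RkLt E x' x) S = C at dR
  have cfn : ∀ t y y', C t y → C t y' → y = y' := fun t y y' h1 h2 => by
    subst hRec; exact hR.fn h1 h2
  have ctot : ∀ t, E t H → ∃ y, C t y := fun t ht => by subst hRec; exact hR.total ht
  have cdom : ∀ t y, C t y → E t H := fun t y h => by subst hRec; exact h.dom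
  have ciff : ∀ x y, C x y → ∀ z, E z y ↔ ∃ u, E u x ∧ C u z := fun x y h z => by
    subst hRec
    obtain ⟨f, hf, hS⟩ := hR.elim h
    rw [hS z]
    exact exists_congr fun u => and_congr_right fun h1 => ⟨fun h2 =>
      (hf u ⟨h2.1, RkLt.of_mem h1⟩ z).1 h2.2,
        fun h2 => ⟨h2.dom, (hf u ⟨h2.dom, RkLt.of_mem h1⟩ z).2 h2⟩⟩
  obtain ⟨c, h1, h2⟩ := ex_fun E H C (fun x y y' _ => cfn x y y')
  have h3 : ∀ x y, App E c x y ↔ C x y := fun x y =>
    (h2 x y).trans ⟨fun h => h.2, fun h => ⟨cdom _ _ h, h⟩⟩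
  refine ⟨c, fun p hp => ?_, fun i a b k1 k2 => cfn i a b ((h3 _ _).1 k1) ((h3 _ _).1 k2),
    fun u hu => ?_, fun u y h z => ?_⟩
  · obtain ⟨x, y, k1, k2, -⟩ := h1 p hp
    exact ⟨x, y, pr_eq.1 k2, k1⟩
  · obtain ⟨y, hy⟩ := ctot u hu
    exact ⟨y, (h3 _ _).2 hy⟩
  · simp only [h3] at h ⊢
    exact ciff u y h z

theorem MocQ.val {c c' : M} (q : MocQ E H c) (q' : MocQ E H c') (u : M) :
    ∀ y y', App E c u y → App E c' u y' → y = y' := by
  refine mem_ind E (fun u => ∀ y y', App E c u y → App E c' u y' → y = y') ?_ u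
  intro u ih y y' h h'
  refine ext' E fun z => ?_
  rw [q.2.2.2 u y h, q'.2.2.2 u y' h']
  refine exists_congr fun u' => and_congr_right fun hu => ⟨fun k => ?_, fun k => ?_⟩
  · obtain ⟨z', k'⟩ := q'.2.2.1 u' (q.dom k)
    exact ih u' hu z z' k k' ▸ k'
  · obtain ⟨z', k'⟩ := q.2.2.1 u' (q'.dom k)
    exact ih u' hu z' z k' k ▸ k'

theorem MocQ.sub {c c' : M} (q : MocQ E H c) (q' : MocQ E H c') : Sub E c c' := fun p hp => by
  obtain ⟨u, y, e, hu⟩ := q.1 p hp
  obtain ⟨y', k⟩ := q'.2.2.1 u hu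
  obtain rfl := q.val q' u y y' ⟨p, pr_eq.2 e, hp⟩ k
  exact k.mem (pr_eq.2 e)

theorem moc_colF (H : M) : MocQ E H (colF E H) := by
  obtain ⟨c, q⟩ := moc_ex (E := E) H
  have : colF E H = c := the_eq q fun c' q' =>
    ext' E fun p => ⟨MocQ.sub q' q p, MocQ.sub q q' p⟩
  exact this ▸ q

theorem col_mem (hy : E y H) (z : M) :
    E z (col E H y) ↔ ∃ u, E u H ∧ E u y ∧ z = col E H u := by
  have q := moc_colF (E := E) H
  refine (q.2.2.2 y _ (app_ap q.2.1 (q.2.2.1 y hy)) z).trans (exists_congr fun u => ?_)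
  exact ⟨fun ⟨h1, h2⟩ => ⟨q.dom h2, h1, (ap_eq q.2.1 h2).symm⟩,
    fun ⟨h1, h2, h3⟩ => ⟨h2, h3 ▸ app_ap q.2.1 (q.2.2.1 u h1)⟩⟩

theorem mem_colN (H z : M) : E z (colN E H) ↔ ∃ y, E y H ∧ z = col E H y := by
  obtain ⟨N, hN⟩ := repl E H (fun y z => z = col E H y) (fun _ _ _ _ h1 h2 => h1.trans h2.symm)
  have : colN E H = N := the_eq hN fun N' h' => ext' E fun z => (h' z).trans (hN z).symm
  exact this ▸ hN z

theorem col_agree (P : M → Prop) [Df E fun v => P (v 0)]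
    (h : ∀ y, P y → ∀ z, E z y → (E z H ↔ E z H') ∧ (E z H → P z)) (p : P y) (hy : E y H)
    (hy' : E y H') : col E H y = col E H' y := by
  refine mem_ind E (fun y => P y → E y H → E y H' → col E H y = col E H' y) ?_ y p hy hy'
  intro y ih p hy hy'
  refine ext' E fun z => ?_
  rw [col_mem hy, col_mem hy']
  refine exists_congr fun u => ⟨fun ⟨h1, h2, h3⟩ => ?_, fun ⟨h1, h2, h3⟩ => ?_⟩
  · have k := h y p u h2
    exact ⟨k.1.1 h1, h2, h3.trans (ih u h2 (k.2 h1) h1 (k.1.1 h1))⟩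
  · have k := h y p u h2
    exact ⟨k.1.2 h1, h2, h3.trans (ih u h2 (k.2 (k.1.2 h1)) (k.1.2 h1) h1).symm⟩

theorem moc_sub (h : Hl E H B) (ha : E a H) (hb : E b H) (k : ∀ z, E z H → E z a → E z b) :
    Sub E a b := fun z hz => by
  by_contra hn
  obtain ⟨z', k1, k2, k3⟩ := h.tv (.and (.mem 0 1) (.neg (.mem 0 2))) (scons a fun _ => b)
    (fun i => by cases i <;> assumption) z (h.tr _ _ (h.sub _ ha) hz) ⟨hz, hn⟩
  exact k3 (k z' k1 k2)

theorem Hl.col_inj (h : Hl E H B) (ha : E a H) (hb : E b H) (e : col E H a = col E H b) :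
    a = b := by
  refine mem_ind E (fun a => ∀ b, E a H → E b H → col E H a = col E H b → a = b) ?_ a b ha hb e
  intro a ih b ha hb e
  refine ext' E fun z => ⟨moc_sub h ha hb (fun z hz k => ?_) z, moc_sub h hb ha (fun z hz k => ?_) z⟩
  · obtain ⟨u, h1, h2, h3⟩ := (col_mem hb _).1 (e ▸ (col_mem ha _).2 ⟨z, hz, k, rfl⟩)
    exact ih z k u hz h1 h3 ▸ h2
  · obtain ⟨u, h1, h2, h3⟩ := (col_mem ha _).1 (e ▸ (col_mem hb _).2 ⟨z, hz, k, rfl⟩)
    exact ih u h2 z h1 hz h3.symm ▸ h2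

theorem Hl.unc_col (h : Hl E H B) (hy : E y H) :
    E (col E H y) (colN E H) ∧ unc E H (col E H y) = y :=
  ⟨(mem_colN H _).2 ⟨y, hy, rfl⟩, the_eq ⟨hy, rfl⟩ fun y' k => h.col_inj k.1 hy k.2⟩

theorem Hl.col_unc (h : Hl E H B) (hz : E z (colN E H)) :
    E (unc E H z) H ∧ col E H (unc E H z) = z := by
  obtain ⟨y, hy, rfl⟩ := (mem_colN H z).1 hz
  rw [(h.unc_col hy).2]
  exact ⟨hy, rfl⟩

theorem moc_el (h : Hl E H B) (φ : Fm) : ∀ v : ℕ → M, (∀ i, E (v i) H) →
    (SatW E (cl E (colN E H)) φ (fun i => col E H (v i)) ↔ SatW E (cl E B) φ v) := by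
  induction φ with
  | mem i j =>
    intro v hv
    refine (col_mem (hv j) _).trans ⟨fun ⟨u, h1, h2, h3⟩ => ?_, fun k => ⟨_, hv i, k, rfl⟩⟩
    obtain rfl := h.col_inj (hv i) h1 h3
    exact h2
  | eq i j => intro v hv; exact ⟨h.col_inj (hv i) (hv j), congrArg _⟩
  | neg φ ih => intro v hv; exact not_congr (ih v hv)
  | and φ ψ ih1 ih2 => intro v hv; exact and_congr (ih1 v hv) (ih2 v hv)
  | ex φ ih =>
    intro v hv
    have hs : ∀ y, E y H → ∀ i, E (scons y v i) H := fun y hy i => by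
      cases i; exacts [hy, hv _]
    constructor
    · rintro ⟨a, ha, k⟩
      obtain ⟨y, hy, rfl⟩ := (mem_colN H a).1 ha
      rw [← comp_scons (col E H)] at k
      exact ⟨y, h.sub _ hy, (ih _ (hs y hy)).1 k⟩
    · rintro ⟨a, ha, k⟩
      obtain ⟨y, hy, k'⟩ := h.tv φ v hv a ha k
      refine ⟨col E H y, (mem_colN H _).2 ⟨y, hy, rfl⟩, ?_⟩
      rw [← comp_scons (col E H)]
      exact (ih _ (hs y hy)).2 k'

theorem moc_tr (H : M) : Trans E (colN E H) := fun x y hx hy => by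
  obtain ⟨u, hu, rfl⟩ := (mem_colN H x).1 hx
  obtain ⟨w, h1, -, h2⟩ := (col_mem hu y).1 hy
  exact (mem_colN H y).2 ⟨w, h1, h2⟩

theorem moc_good (h : Hl E H B) : Good E (cl E (colN E H)) := by
  refine ⟨fun _ _ => inferInstanceAs (Df E fun v => E _ (colN E H)), ?_⟩
  obtain ⟨y, hy⟩ := h.ne
  obtain ⟨φ, hφ⟩ := (inferInstance : RD E (fun _ => True) fun W _ => ∀ x ∈ W, ∀ α ∈ W,
    (∀ z, E z x → RkW E W z α) → IsOrd E α → ∀ β ∈ W, IsOrd E β → E α β → RkW E W x β).out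
  refine (hφ _ trivial (fun x hx y hy => moc_tr H x y hx hy) (fun _ => col E H y)
    fun _ => (mem_colN H _).2 ⟨y, hy, rfl⟩).1 ((moc_el h φ (fun _ => y) fun _ => hy).2 ?_)
  exact (hφ _ trivial (fun x hx y hy => h.tr x y hx hy) (fun _ => y) fun _ => h.sub _ hy).2
    h.good.2

theorem Hl.en (h : Hl E H B) : EN E (colN E H) (unc E H) B :=
  { dπ := fun _ _ => inferInstance
    tr := moc_tr H
    tr' := h.tr
    good := moc_good h
    good' := h.good
    maps := fun x hx => h.sub _ (h.col_unc hx).1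
    el := fun φ v hv => by
      rw [← moc_el h φ _ fun i => (h.col_unc (hv i)).1,
        show (fun i => col E H (unc E H (v i))) = v from funext fun i => (h.col_unc (hv i)).2] }

theorem Hl.en_map (h : Hl E H B) (h' : Hl E H' B') (e : EN E B k B')
    (m : ∀ y, E y H → E (k y) H') :
    EN E (colN E H) (fun x => col E H' (k (unc E H x))) (colN E H') :=
  { dπ := fun t _ => by
      have : DT E fun v => k (unc E H (t v)) := e.dπ _
      infer_instance
    tr := moc_tr H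
    tr' := moc_tr H'
    good := moc_good h
    good' := moc_good h'
    maps := fun x hx => (h'.unc_col (m _ (h.col_unc hx).1)).1
    el := fun φ v hv => (h.en.el φ v hv).trans
      ((e.el φ _ fun i => h.en.maps _ (hv i)).trans
        (moc_el h' φ _ fun i => m _ (h.col_unc (hv i)).1).symm) }

end MoC

end Pool.Agent.Lib.MP_75a307_lc.LE
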