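import Pool.Agent.Lib.MP_75a307_lc.LE.Str
import Pool.Agent.Lib.MP_75a307_lc.LE.MaxM

/-! Small models that are iterated inside iterates of the universe: definitions. -/

set_option synthInstance.maxSize 100000
set_option linter.unusedVariables false
set_option linter.unusedSectionVars false

namespace Pool.Agent.Lib.MP_75a307_lc.LE

open Pool.Agent.Lib.MP_1d770b_lc

universe u
variable {M : Type u} {E : M → M → Prop} [hZ : ZF E]

/-- the set `B` as a class -/
abbrev cl (E : M → M → Prop) (B : M) : Set M := {x | E x B}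

/-- `π : N → B` is a definable elementary map between transitive sets -/
structure EN (E : M → M → Prop) (N : M) (π : M → M) (B : M) : Prop where
  dπ : F1 E π
  tr : Trans E N
  tr' : Trans E B
  good : Good E (cl E N)
  good' : Good E (cl E B)
  maps : ∀ x, E x N → E (π x) B
  el : ∀ φ (v : ℕ → M), (∀ i, E (v i) N) →
    (SatW E (cl E N) φ v ↔ SatW E (cl E B) φ fun i => π (v i))

/-- `H` is an elementary substructure of the transitive set `B` -/
structure Hl (E : M → M → Prop) (H B : M) : Prop where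
  sub : Sub E H B
  tr : Trans E B
  good : Good E (cl E B)
  ne : ∃ x, E x H
  tv : ∀ φ (v : ℕ → M), (∀ i, E (v i) H) → ∀ z, E z B → SatW E (cl E B) φ (scons z v) →
    ∃ z, E z H ∧ SatW E (cl E B) φ (scons z v)

structure Clo (E : M → M → Prop) [ZF E] (N : M) : Prop where
  emp : E (emp E) N
  pr : ∀ a b, E a N → E b N → E (pr E a b) N
  suc : ∀ a s, E a N → IsSuc E s a → E s N
  tup : ∀ l, E l N → E (tup E l) N
  cut : ∀ y ξ y', E y N → E ξ N → (∀ z, E z y' ↔ E z y ∧ Rk E z ξ) → E y' N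

/-- `y` is the `γ`-th set of `L[B]` for all `B` that agree with `A` on the earlier sets in `N` -/
def VP (E : M → M → Prop) (N A γ y : M) : Prop :=
  ∀ B, (∀ s η z, E η γ → Val E (fun s => E s B) η z → E s z → E s N → (E s A ↔ E s B)) →
    Val E (fun s => E s B) γ y

/-- `N` is a level of `L[A]` -/
def Cons (E : M → M → Prop) (N A : M) : Prop :=
  (∀ y, E y N → ∃ γ, VP E N A γ y) ∧ ∀ γ, E γ N → IsOrd E γ → ∃ y, E y N ∧ VP E N A γ y

/-- `y` is the `γ`-th set of `L[A]` in the sense of the set `B` -/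
def ValIn (E : M → M → Prop) (B A γ y : M) : Prop :=
  ∃ a g z : cl E B, a.1 = A ∧ g.1 = γ ∧ z.1 = y ∧
    Val (Res E (cl E B)) (fun s => Res E (cl E B) s a) g z

/-- `K = V_θ` reflects `V = L[S]` -/
structure KG (E : M → M → Prop) [ZF E] (K θ S : M) : Prop where
  ac : Choice E
  lim : Lim E θ
  mem : ∀ x, E x K ↔ Rk E x θ
  hS : E S K
  coh : Coh1 E Set.univ S
  lk : ∀ x, x ∈ LK E S
  tup : ∀ l, E l K → E (tup E l) K
  val1 : ∀ y, E y K → ∃ γ, ValIn E K S γ y
  val2 : ∀ γ, E γ K → IsOrd E γ → ∃ y, ValIn E K S γ y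

/-- `Y` is a set of functions `K → K` with composition, Skolem functions and comprehension -/
structure SkY (E : M → M → Prop) [ZF E] (K Y : M) : Prop where
  fn : ∀ f, E f Y → Func E f K K
  id : ∃ f, E f Y ∧ ∀ s, E s K → ap E f s = s
  comp : ∀ f g, E f Y → E g Y → ∃ h, E h Y ∧ ∀ s, E s K → ap E h s = ap E f (ap E g s)
  sk : ∀ φ (f : ℕ → M), (∀ i, E (f i) Y) → ∃ h, E h Y ∧ ∀ s z, E s K → E z K →
    SatW E (cl E K) φ (scons z fun i => ap E (f i) s) →
      SatW E (cl E K) φ (scons (ap E h s) fun i => ap E (f i) s)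
  cmp : ∀ φ (f : ℕ → M) g, (∀ i, E (f i) Y) → E g Y → ∃ h, E h Y ∧ ∀ s, E s K → ∀ z,
    E z (ap E h s) ↔ E z (ap E g s) ∧ SatW E (cl E K) φ fun i => ap E (f i) (pr E z s)

section
variable (E)

/-- the transitive collapse of `H` as a function -/
noncomputable def colF (H : M) : M := the E fun c =>
  (∀ p, E p c → ∃ u y, p = pr E u y ∧ E u H) ∧ Fn E c ∧ (∀ u, E u H → ∃ y, App E c u y) ∧
    ∀ u y, App E c u y → ∀ z, E z y ↔ ∃ u', E u' u ∧ App E c u' z

noncomputable def col (H y : M) : M := ap E (colF E H) y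

noncomputable def colN (H : M) : M := the E fun N => ∀ z, E z N ↔ ∃ y, E y H ∧ z = col E H y

noncomputable def unc (H z : M) : M := the E fun y => E y H ∧ col E H y = z

noncomputable def slc (A κ l : M) : M := the E fun F => Slice E A κ l F

/-- the hull generated by the functions in `Y` and the seeds in `Z` -/
noncomputable def hG (K Y G Z : M) : M := the E fun H => ∀ y, E y H ↔
  ∃ f a, E f Y ∧ E a Z ∧ y = ap E (jG E K G f) (sdG E K G a)

def PairY (K Y G Z : M) : Prop := ∀ a b, E a Z → E b Z → ∃ p f g, E p Z ∧ E f Y ∧ E g Y ∧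
  sdG E K G a = ap E (jG E K G f) (sdG E K G p) ∧ sdG E K G b = ap E (jG E K G g) (sdG E K G p)

def OkG (K Y G Z : M) : Prop :=
  Sys E K G ∧ Sub E Z (sN E G) ∧ PairY E K Y G Z ∧ ∃ a, E a Z

noncomputable def stG (K S G κ l : M) : M := step E K G (pr E κ l) (slc E (jG E K G S) κ l)

noncomputable def stZ (K Y G Z l : M) : M := the E fun Z' => ∀ a, E a Z' ↔ E a Z ∨
  ∃ s c, E s Z ∧ E c (hG E K Y G Z) ∧ E c (tup E l) ∧ a = pr E G (pr E s c)

noncomputable def gL (L : M) : M := the E fun G => ∀ t, E t G ↔ E (pr E (num E 0) t) L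

noncomputable def zL (L : M) : M := the E fun Z => ∀ t, E t Z ↔ E (pr E (num E 1) t) L

noncomputable def mkL (G Z : M) : M := the E fun L => ∀ t, E t L ↔
  (∃ x, E x G ∧ t = pr E (num E 0) x) ∨ ∃ x, E x Z ∧ t = pr E (num E 1) x

noncomputable def hL (K Y L : M) : M := hG E K Y (gL E L) (zL E L)

def OkL (K Y L : M) : Prop := OkG E K Y (gL E L) (zL E L) ∧
  ∀ t, E t L → ∃ x, t = pr E (num E 0) x ∨ t = pr E (num E 1) x

end

section
variable (K Y S : M) (a b c d : (ℕ → M) → M) [DT E a] [DT E b] [DT E c] [DT E d]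
instance : DT E fun v => colF E (a v) :=
  f1 (F := colF E) (fun _ _ _ _ => by unfold colF; infer_instance) a
instance : DT E fun v => col E (a v) (b v) := by unfold col; infer_instance
instance : DT E fun v => colN E (a v) :=
  f1 (F := colN E) (fun _ _ _ _ => by unfold colN; infer_instance) a
instance : DT E fun v => unc E (a v) (b v) :=
  f2 (F := unc E) (fun _ _ _ _ _ _ => by unfold unc; infer_instance) a b
instance : DT E fun v => slc E (a v) (b v) (c v) :=
  f3 (F := slc E) (fun _ _ _ _ _ _ _ _ => by unfold slc; infer_instance) a b c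
instance : DT E fun v => hG E K Y (a v) (b v) :=
  f2 (F := hG E K Y) (fun _ _ _ _ _ _ => by unfold hG; infer_instance) a b
instance : Df E fun v => OkG E K Y (a v) (b v) :=
  dt2 (fun _ _ _ _ => by unfold OkG PairY; infer_instance) a b
instance : DT E fun v => stG E K S (a v) (b v) (c v) := by unfold stG; infer_instance
instance : DT E fun v => stZ E K Y (a v) (b v) (c v) :=
  f3 (F := stZ E K Y) (fun _ _ _ _ _ _ _ _ => by unfold stZ; infer_instance) a b c
instance : DT E fun v => gL E (a v) :=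
  f1 (F := gL E) (fun _ _ _ _ => by unfold gL; infer_instance) a
instance : DT E fun v => zL E (a v) :=
  f1 (F := zL E) (fun _ _ _ _ => by unfold zL; infer_instance) a
instance : DT E fun v => mkL E (a v) (b v) :=
  f2 (F := mkL E) (fun _ _ _ _ _ _ => by unfold mkL; infer_instance) a b
instance : DT E fun v => hL E K Y (a v) := by unfold hL; infer_instance
instance : Df E fun v => OkL E K Y (a v) :=
  dt1 (fun _ _ => by unfold OkL; infer_instance) a
end

/-- the hypotheses of one step of the small model -/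
structure StH (E : M → M → Prop) [ZF E] (K θ S Y G Z κ l : M) : Prop where
  kg : KG E K θ S
  sk : SkY E K Y
  ok : OkG E K Y G Z
  hS : E (jG E K G S) (hG E K Y G Z)
  hκ : E κ (hG E K Y G Z)
  hl : E l (hG E K Y G Z)
  dom : Dom E (jG E K G S) κ l

/-- states, models, sequences, names, steps and iteration maps -/
structure MoD (M : Type u) where
  Ok : M → Prop
  RC : M → M → Prop
  N : M → M
  A : M → M
  Nm : M → M
  nx : M → M → M
  nm : M → M → M
  im : M → M → M → M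

variable (E) in
/-- the collapsed hulls inside the iterates of the universe -/
noncomputable def moD (K Y S : M) : MoD M where
  Ok := OkL E K Y
  RC L L' := RelCC E (gL E L) (gL E L')
  N L := colN E (hL E K Y L)
  A L := col E (hL E K Y L) (jG E K (gL E L) S)
  Nm L := the E fun X => ∀ n, E n X ↔ ∃ a f, E a (zL E L) ∧ E f Y ∧ n = pr E a f
  nx L q := mkL E (stG E K S (gL E L) (unc E (hL E K Y L) (p1 E q)) (unc E (hL E K Y L) (p2 E q)))
    (stZ E K Y (gL E L) (zL E L) (unc E (hL E K Y L) (p2 E q)))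
  nm L n := col E (hL E K Y L) (ap E (jG E K (gL E L) (p2 E n)) (sdG E K (gL E L) (p1 E n)))
  im L L' x := col E (hL E K Y L') (fac E K (gL E L) (gL E L') (unc E (hL E K Y L) x))

variable (E) in
abbrev FixN (D : MoD M) (L L' ξ : M) : Prop :=
  Fix E (cl E (D.N L)) (cl E (D.N L')) (D.im L L') ξ

variable (E) in
/-- one step at `(κ, l)` leads from `L` to `L'` -/
def StepN (D : MoD M) (L L' κ l : M) : Prop :=
  D.Ok L' ∧ Sub E L L' ∧ D.RC L L' ∧ FixN E D L L' κ ∧ E l (D.N L') ∧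
    (∀ u v p, Le E u κ → (At E (D.A L') u v p ↔ At E (D.A L) u v p ∧ E v l)) ∧
    ∀ a X, At E (D.A L) κ l (pr E a X) ↔
      E a (tup E l) ∧ E X (D.N L) ∧ Sub E X (tup E κ) ∧ E a (D.im L L' X)

variable (E) in
/-- `L` is a continuous increasing chain of states below the limit `α` -/
structure ChN (D : MoD M) (L : M → M) (α : M) : Prop where
  dL : F1 E L
  lim : Lim E α
  ne : ∃ z, E z α
  ok : ∀ β, E β α → D.Ok (L β)
  suc : ∀ β s, E β α → IsSuc E s β → Sub E (L β) (L s) ∧ D.RC (L β) (L s)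
  cont : ∀ β, Lim E β → (∃ z, E z β) → ∀ t, E t (L β) ↔ ∃ γ, E γ β ∧ E t (L γ)
  mono : ∀ β γ, E β α → Le E γ β → Sub E (L γ) (L β)

/-- an iterable family of small models -/
structure Mo (E : M → M → Prop) [ZF E] (D : MoD M) : Prop where
  dOk : D1 E D.Ok
  dN : F1 E D.N
  dA : F1 E D.A
  dNm : F1 E D.Nm
  dnx : F2 E D.nx
  dnm : F2 E D.nm
  dim : D4 E fun x y z w => D.im x y z = w
  clo : ∀ L, D.Ok L → Clo E (D.N L)
  img : ∀ L, D.Ok L → cmpAImg E (cl E (D.N L)) (D.A L)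
  shp : ∀ L, D.Ok L → ∀ t, E t (D.A L) → ∃ u v p, t = pr E (pr E u v) p
  cons : ∀ L, D.Ok L → Cons E (D.N L) (D.A L)
  en : ∀ L L', D.Ok L → D.Ok L' → Sub E L L' →
    EN E (D.N L) (D.im L L') (D.N L') ∧ D.im L L' (D.A L) = D.A L'
  id : ∀ L x, D.Ok L → E x (D.N L) → D.im L L x = x
  comp : ∀ L L' L'' x, D.Ok L → D.Ok L' → D.Ok L'' → Sub E L L' → Sub E L' L'' → E x (D.N L) →
    D.im L' L'' (D.im L L' x) = D.im L L'' x
  nms : ∀ L y, D.Ok L → E y (D.N L) → ∃ n, E n (D.Nm L) ∧ D.nm L n = y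
  nmm : ∀ L L' n, D.Ok L → D.Ok L' → Sub E L L' → E n (D.Nm L) →
    E n (D.Nm L') ∧ E (D.nm L n) (D.N L) ∧ D.nm L' n = D.im L L' (D.nm L n)
  rc : ∀ L, D.Ok L → D.RC L L
  step : ∀ L κ l, D.Ok L → Dom E (D.A L) κ l → StepN E D L (D.nx L (pr E κ l)) κ l
  lim : ∀ L α, ChN E D L α → D.Ok (L α) ∧ ∀ n, E n (D.Nm (L α)) → ∃ β, E β α ∧ E n (D.Nm (L β))

section
variable (E) (D : MoD M) (K S : M)

def Inv2 (L G ξ : M) : Prop :=
  D.Ok L ∧ Sys E K G ∧ Lim E ξ ∧ Sub E ξ (D.N L) ∧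
    Agree E (cl E (D.N L)) (Wm E K G) (D.A L) (jG E K G S) ξ (emp E) ∧
    ∀ η, E η ξ → ∃ ζ, E ζ ξ ∧ ∀ u v, E u η → Dom E (D.A L) u v ∨ Dom E (jG E K G S) u v → E v ζ

/-- the two sequences differ at `(κ, l)` -/
def Dis (L G κ l : M) : Prop := E κ (D.N L) ∧ E l (D.N L) ∧
  ∃ p, E p (D.N L) ∧ p ∈ Wm E K G ∧ ¬ (At E (D.A L) κ l p ↔ At E (jG E K G S) κ l p)

/-- the least disagreement -/
def Mv2 (L G κ l : M) : Prop := Dis E D K S L G κ l ∧
  ∀ κ' l', E κ' κ ∨ (κ' = κ ∧ E l' l) → ¬ Dis E D K S L G κ' l'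

noncomputable def nl2 (L κ l : M) : M := the E fun L' =>
  (Dom E (D.A L) κ l ∧ L' = D.nx L (pr E κ l)) ∨ (¬ Dom E (D.A L) κ l ∧ L' = L)

noncomputable def nr2 (G κ l : M) : M := nxt E K G (pr E κ l) (slc E (jG E K G S) κ l)

/-- a comparison that runs through all ordinals -/
structure Run (L R X κ l : M → M) : Prop where
  dL : F1 E L
  dR : F1 E R
  dX : F1 E X
  dκ : F1 E κ
  dl : F1 E l
  inv : ∀ α, IsOrd E α → Inv2 E D K S (L α) (R α) (X α)
  mono : ∀ α γ, IsOrd E α → Le E γ α → Sub E (L γ) (L α) ∧ Sub E (R γ) (R α) ∧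
    Le E (X γ) (X α) ∧ FixN E D (L γ) (L α) (X γ) ∧
      Fix E (Wm E K (R γ)) (Wm E K (R α)) (fac E K (R γ) (R α)) (X γ)
  mv : ∀ α, IsOrd E α → Mv2 E D K S (L α) (R α) (κ α) (l α)
  suc : ∀ α s, IsOrd E α → IsSuc E s α → L s = nl2 E D (L α) (κ α) (l α) ∧
    R s = nr2 E K S (R α) (κ α) (l α) ∧ E (l α) (X s)
  limN : ∀ α, Lim E α → (∃ z, E z α) → ∀ n, E n (D.Nm (L α)) → ∃ β, E β α ∧ E n (D.Nm (L β))
  limR : ∀ α, Lim E α → (∃ z, E z α) → ∀ t, E t (R α) ↔ ∃ β, E β α ∧ E t (R β)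
  limX : ∀ α, Lim E α → (∃ z, E z α) → ∀ t, E t (X α) ↔ ∃ β, E β α ∧ E t (X β)

end

end Pool.Agent.Lib.MP_75a307_lc.LE
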