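import Pool.Agent.Lib.MP_75a307_lc.LE.MoD

/-! Elementary maps between transitive sets. -/

set_option synthInstance.maxSize 100000
set_option linter.unusedVariables false
set_option linter.unusedSectionVars false

namespace Pool.Agent.Lib.MP_75a307_lc.LE

open Pool.Agent.Lib.MP_1d770b_lc

universe u
variable {M : Type u} {E : M → M → Prop} [hZ : ZF E]

section MoE
variable {N B B' K H θ S : M} {π π' j k : M → M} {W W' : Set M} {a b p x z α ξ l A u v : M}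

theorem moe_tr (t : Trans E N) : Tr E (cl E N) := fun x hx y hy => t x y hx hy

theorem moe_d1 (N : M) : D1 E fun x => x ∈ cl E N := fun t _ =>
  inferInstanceAs (Df E fun v => E (t v) N)

theorem good_V (hθ : Lim E θ) (hK : ∀ x, E x K ↔ Rk E x θ) : Good E (cl E K) ∧ Trans E K := by
  refine ⟨⟨moe_d1 K, fun x _ α _ H _ β hβ ho hab => ?_⟩,
    fun x y hx hy => (hK y).2 (((hK x).1 hx).mem hy)⟩
  have h : Rk E x β := Rk.intro ho hab fun z hz => (H z hz).rk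
  obtain ⟨v, hv⟩ := ex_V ho
  obtain ⟨s, hs⟩ := ex_suc E β
  obtain ⟨r, h0, hr⟩ := ex_rel E v s (fun y b => Rk E y b)
  refine ⟨ho, r, (hK r).2 (hθ.rel (hθ.suc (((hK β).1 hβ).ord_mem ho) hs) fun p hp => ?_),
    fun y b hy => ?_, (hr _ _).2 ⟨(hv x).2 h, hs.self, h⟩⟩
  · obtain ⟨y, b, h1, h2, h3, -⟩ := (h0 p).1 hp
    exact ⟨y, b, h3, ((hv y).1 h1).lt (hs.ord ho) hs.self, (hs.ord ho).rk h2⟩
  · obtain ⟨h1, h2, h3⟩ := (hr _ _).1 hy
    obtain ⟨c, hc, H⟩ := h3.elim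
    exact ⟨c, hc, fun z hz => (hr _ _).2 ⟨(hv z).2 (((hv y).1 h1).mem hz),
      (hs.ord ho).tr h2 hc, H z hz⟩⟩

theorem EN.trG (h : EN E N π B) (P : Set M → (ℕ → M) → Prop) [d : RD E (Good E) P] (w : ℕ → M)
    (hw : ∀ i, E (w i) N) : P (cl E N) w ↔ P (cl E B) fun i => π (w i) := by
  obtain ⟨φ, hφ⟩ := d.out
  rw [← hφ _ h.good (moe_tr h.tr) w hw, ← hφ _ h.good' (moe_tr h.tr') _ fun _ => h.maps _ (hw _)]
  exact h.el φ w hw

theorem EN.tr0 (h : EN E N π B) (ne : ∃ x, E x N) (P : Set M → Prop)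
    [RD E (Good E) fun W _ => P W] : P (cl E N) ↔ P (cl E B) :=
  let ⟨x, hx⟩ := ne; h.trG (fun W _ => P W) (fun _ => x) fun _ => hx

theorem EN.tr1 (h : EN E N π B) (P : Set M → M → Prop) [RD E (Good E) fun W v => P W (v 0)]
    (ha : E a N) : P (cl E N) a ↔ P (cl E B) (π a) :=
  h.trG (fun W v => P W (v 0)) (fun _ => a) fun _ => ha

theorem EN.tr2 (h : EN E N π B) (P : Set M → M → M → Prop)
    [RD E (Good E) fun W v => P W (v 0) (v 1)] (ha : E a N) (hb : E b N) :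
    P (cl E N) a b ↔ P (cl E B) (π a) (π b) :=
  h.trG (fun W v => P W (v 0) (v 1)) (fun n => [a].getD n b) fun n =>
    match n with | 0 => ha | _ + 1 => hb

theorem EN.tr3 (h : EN E N π B) (P : Set M → M → M → M → Prop)
    [RD E (Good E) fun W v => P W (v 0) (v 1) (v 2)] {c : M} (ha : E a N) (hb : E b N)
    (hc : E c N) : P (cl E N) a b c ↔ P (cl E B) (π a) (π b) (π c) :=
  h.trG (fun W v => P W (v 0) (v 1) (v 2)) (fun n => [a, b].getD n c) fun n =>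
    match n with | 0 => ha | 1 => hb | _ + 2 => hc

theorem EN.tr4 (h : EN E N π B) (P : Set M → M → M → M → M → Prop)
    [RD E (Good E) fun W v => P W (v 0) (v 1) (v 2) (v 3)] {c d : M} (ha : E a N) (hb : E b N)
    (hc : E c N) (hd : E d N) :
    P (cl E N) a b c d ↔ P (cl E B) (π a) (π b) (π c) (π d) :=
  h.trG (fun W v => P W (v 0) (v 1) (v 2) (v 3)) (fun n => [a, b, c].getD n d) fun n =>
    match n with | 0 => ha | 1 => hb | 2 => hc | _ + 3 => hd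

theorem EN.mem_iff (h : EN E N π B) (ha : E a N) (hb : E b N) : E (π a) (π b) ↔ E a b :=
  (h.tr2 (fun _ a b => E a b) ha hb).symm

theorem EN.inj (h : EN E N π B) (ha : E a N) (hb : E b N) (e : π a = π b) : a = b :=
  (h.tr2 (fun _ a b => a = b) ha hb).2 e

theorem EN.ord (h : EN E N π B) (ha : E a N) : IsOrd E (π a) ↔ IsOrd E a :=
  (h.tr1 (fun _ a => IsOrd E a) ha).symm

theorem EN.rk (h : EN E N π B) (hx : E x N) (hα : E α N) : Rk E (π x) (π α) ↔ Rk E x α :=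
  (h.tr2 (fun _ a b => Rk E a b) hx hα).symm

theorem EN.prm (h : EN E N π B) (k : E (pr E a b) N) : E a N ∧ E b N :=
  (moe_tr h.tr).opair k (pr_spec a b)

theorem EN.pr (h : EN E N π B) (k : E (pr E a b) N) : π (pr E a b) = pr E (π a) (π b) :=
  pr_eq.1 ((h.tr3 (fun _ p a b => IsOPair E p a b) k (h.prm k).1 (h.prm k).2).1 (pr_spec a b))

theorem EN.dec (h : EN E N π B) (hp : E p N) (e : π p = MP_75a307_lc.pr E a b) :
    ∃ a' b', p = MP_75a307_lc.pr E a' b' ∧ E a' N ∧ E b' N ∧ π a' = a ∧ π b' = b := by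
  obtain ⟨a', b', k, -⟩ := (h.tr1 (fun _ p => ∃ x y, IsOPair E p x y ∧ x = x) hp).2
    ⟨a, b, pr_eq.2 e, rfl⟩
  obtain rfl := pr_eq.1 k
  exact ⟨a', b', rfl, (h.prm hp).1, (h.prm hp).2, pr_inj ((h.pr hp).symm.trans e)⟩

theorem EN.at (h : EN E N π B) (hA : E A N) :
    (E u N ∧ E v N ∧ E p N ∧ At E (π A) (π u) (π v) (π p)) ↔ At E A u v p := by
  refine ⟨fun ⟨a, b, c, d⟩ => (h.tr4 (fun _ A u v p => At E A u v p) hA a b c).2 d, fun k => ?_⟩
  obtain ⟨q, h1, h2⟩ := id k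
  have a := (moe_tr h.tr).app hA h2
  have b := (moe_tr h.tr).opair a.1 h1
  exact ⟨b.1, b.2, a.2, (h.tr4 (fun _ A u v p => At E A u v p) hA b.1 b.2 a.2).1 k⟩

theorem EN.tup (h : EN E N π B) (hl : E l N) (k : E (tup E l) N) :
    π (tup E l) = tup E (π l) :=
  ((h.tr2 (fun _ t l => IsTup E t l) k hl).1 (tup_spec l)).eq

theorem EN.le_map (h : EN E N π B) (ho : IsOrd E α) (hα : E α N) : Le E α (π α) := by
  have := h.dπ
  refine ord_ind (fun α => E α N → Le E α (π α)) (fun α ho ih hα => ?_) α ho hα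
  exact ho.le_of_sub ((h.ord hα).2 ho) fun β hβ => (ih β hβ (h.tr _ _ hα hβ)).lt ((h.ord hα).2 ho)
    ((h.mem_iff (h.tr _ _ hα hβ) hα).2 hβ)

theorem EN.rk_back (h : EN E N π B) (hz : E z N) (r : Rk E (π z) ξ) : Rk E z ξ := by
  have := h.dπ
  refine mem_ind E (fun z => ∀ ξ, E z N → Rk E (π z) ξ → Rk E z ξ) (fun z ih ξ hz r => ?_) z ξ hz r
  obtain ⟨β, hβ, H⟩ := r.elim
  exact Rk.intro r.ord hβ fun y hy => ih y hy β (h.tr _ _ hz hy)
    (H _ ((h.mem_iff (h.tr _ _ hz hy) hz).2 hy))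

theorem EN.comp (h : EN E N π B) (h' : EN E B π' B') : EN E N (fun x => π' (π x)) B' :=
  ⟨fun t _ => @h'.dπ (fun v => π (t v)) (h.dπ t), h.tr, h'.tr', h.good, h'.good',
    fun x hx => h'.maps _ (h.maps x hx),
    fun φ v hv => (h.el φ v hv).trans (h'.el φ _ fun i => h.maps _ (hv i))⟩

variable (E) in
/-- first order form of `Clo` -/
def moeClo (W : Set M) : Prop :=
  (∃ x ∈ W, ¬ ∃ y, E y x) ∧ (∀ a ∈ W, ∀ b ∈ W, ∃ c ∈ W, IsOPair E c a b) ∧
    (∀ a ∈ W, ∃ s ∈ W, IsSuc E s a) ∧ (∀ l ∈ W, ∃ t ∈ W, IsTup E t l) ∧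
    ∀ y ∈ W, ∀ ξ ∈ W, ∃ y' ∈ W, (∀ z, E z y' → E z y ∧ Rk E z ξ) ∧
      ∀ z, E z y → Rk E z ξ → E z y'

theorem moe_clo : Clo E N ↔ moeClo E (cl E N) := by
  refine ⟨fun c => ⟨⟨_, c.emp, fun ⟨y, hy⟩ => emp_spec y hy⟩,
    fun a ha b hb => ⟨_, c.pr a b ha hb, pr_spec a b⟩,
    fun a ha => let ⟨s, hs⟩ := ex_suc E a; ⟨s, c.suc a s ha hs, hs⟩,
    fun l hl => ⟨_, c.tup l hl, tup_spec l⟩, fun y hy ξ hξ => ?_⟩,
    fun ⟨⟨x, hx, h0⟩, h1, h2, h3, h4⟩ => ⟨?_, fun a b ha hb => ?_, fun a s ha hs => ?_,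
      fun l hl => ?_, fun y ξ y' hy hξ e => ?_⟩⟩
  · obtain ⟨y', e⟩ := sep E y fun z => Rk E z ξ
    exact ⟨y', c.cut y ξ y' hy hξ e, fun z => (e z).1, fun z a b => (e z).2 ⟨a, b⟩⟩
  · exact IsEmp.uniq (E := E) (fun y hy => h0 ⟨y, hy⟩) emp_spec ▸ hx
  · obtain ⟨c, hc, e⟩ := h1 a ha b hb
    exact pr_eq.1 e ▸ hc
  · obtain ⟨c, hc, e⟩ := h2 a ha
    exact e.uniq hs ▸ hc
  · obtain ⟨c, hc, e⟩ := h3 l hl
    exact e.eq ▸ hc
  · obtain ⟨c, hc, e1, e2⟩ := h4 y hy ξ hξ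
    exact ext' E (fun z => Iff.trans ⟨e1 z, fun k => e2 z k.1 k.2⟩ (e z).symm) ▸ hc

theorem EN.clo (h : EN E N π B) (ne : ∃ x, E x N) : Clo E N ↔ Clo E B := by
  have : RD E (Good E) fun W _ => moeClo E W := by unfold moeClo; infer_instance
  rw [moe_clo, moe_clo]
  exact h.tr0 ne (moeClo E)

theorem moe_sat {G : Set M → Prop} (φ : Fm) : ∀ (i : ℕ) (ρ : ℕ → ℕ),
    RD E G fun _ v => SatW E (cl E (v i)) φ fun n => v (ρ n) := by
  induction φ with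
  | mem a b => exact fun i ρ => RD.mem (ρ a) (ρ b)
  | eq a b => exact fun i ρ => RD.eq (ρ a) (ρ b)
  | neg φ ih => exact fun i ρ => RD.not (h := ih i ρ)
  | and φ ψ ih1 ih2 => exact fun i ρ => RD.and (h := ih1 i ρ) (k := ih2 i ρ)
  | ex φ ih =>
    intro i ρ
    have : RD E G fun _ v => SatW E (cl E (v (i + 1))) φ (scons (v 0) fun n => v (ρ n + 1)) :=
      RD.congr (h := ih (i + 1) fun n => match n with | 0 => 0 | n + 1 => ρ n + 1)
        fun _ _ _ v _ => iff_of_eq (congrArg _ (funext fun n => by cases n <;> rfl))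
    exact RD.bex (R := fun _ x v => SatW E (cl E (v i)) φ (scons x fun n => v (ρ n))) i

instance moe_rkW {G : Set M → Prop} (i j k : ℕ) :
    RD E G fun _ v => RkW E (cl E (v i)) (v j) (v k) :=
  inferInstanceAs (RD E G fun _ v => IsOrd E (v k) ∧ ∃ r, E r (v i) ∧
    (∀ y b, App E r y b → ∃ c, E c b ∧ ∀ z, E z y → App E r z c) ∧ App E r (v j) (v k))

theorem moe_en (dk : F1 E k) (tW : Tr E W) (T : ∀ (P : Set M → (ℕ → M) → Prop)
    [RD E (Good E) P] (v : ℕ → M), (∀ n, v n ∈ W) → (P W v ↔ P W' fun n => k (v n)))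
    (hB : B ∈ W) (t : Trans E B) (g : Good E (cl E B)) : EN E B k (k B) := by
  have m : ∀ v : ℕ → M, (∀ i, E (v i) B) → ∀ n, scons B v n ∈ W := fun v hv n =>
    match n with | 0 => hB | n + 1 => tW _ hB _ (hv n)
  refine ⟨dk, t, fun x y a b => ?_, g, ⟨moe_d1 _, ?_⟩, fun x hx => ?_, fun φ v hv => ?_⟩
  · exact (T (fun _ v => ∀ x, E x (v 0) → ∀ y, E y x → E y (v 0)) (fun _ => B) fun _ => hB).1
      (fun x a y b => t x y a b) x a y b
  · exact (T (fun _ v => ∀ x, E x (v 0) → ∀ α, E α (v 0) →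
      (∀ z, E z x → RkW E (cl E (v 0)) z α) → IsOrd E α → ∀ β, E β (v 0) → IsOrd E β → E α β →
        RkW E (cl E (v 0)) x β) (fun _ => B) fun _ => hB).1 g.2
  · exact (T (fun _ v => E (v 1) (v 0)) _ (m (fun _ => x) fun _ => hx)).1 hx
  · exact @T _ (moe_sat φ 0 (· + 1)) _ (m v hv)

theorem el_en (h : El E j W) (t : Trans E K) (g : Good E (cl E K)) : EN E K j (j K) :=
  moe_en h.fj tr_univ (fun P _ v _ => h.trG good_univ h.good P v) trivial t g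

theorem ElW.en (h : ElW E W W' k) (hB : B ∈ W) (t : Trans E B) (g : Good E (cl E B)) :
    EN E B k (k B) := moe_en h.fk h.inn.tr (fun P _ v hv => h.trG P v hv) hB t g

theorem Hl.tvP (h : Hl E H B) (P : Set M → (ℕ → M) → Prop) [d : RD E (Good E) P] (w : ℕ → M)
    (hw : ∀ i, E (w i) H) (hz : E z B) (k : P (cl E B) (scons z w)) :
    ∃ z, E z H ∧ P (cl E B) (scons z w) := by
  obtain ⟨φ, hφ⟩ := d.out
  have e : ∀ z, E z B → (SatW E (cl E B) φ (scons z w) ↔ P (cl E B) (scons z w)) := fun z hz =>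
    hφ _ h.good (moe_tr h.tr) _ fun n => match n with | 0 => hz | n + 1 => h.sub _ (hw n)
  obtain ⟨y, hy, r⟩ := h.tv φ w hw z hz ((e z hz).2 k)
  exact ⟨y, hy, (e y (h.sub y hy)).1 r⟩

theorem KG.clo (k : KG E K θ S) : Clo E K := by
  refine ⟨(k.mem _).2 (((k.mem S).1 k.hS).sub fun x hx => (emp_spec x hx).elim),
    fun a b ha hb => (k.mem _).2 (k.lim.opair ((k.mem a).1 ha) ((k.mem b).1 hb) (pr_spec a b)),
    fun a s ha hs => ?_, k.tup,
    fun y ξ y' hy _ e => (k.mem _).2 (((k.mem y).1 hy).sub fun z hz => ((e z).1 hz).1)⟩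
  obtain ⟨β, hβ, r⟩ := k.lim.rk ((k.mem a).1 ha)
  exact (k.mem s).2 (Rk.intro k.lim.1 hβ fun z hz => ((hs z).1 hz).elim r.mem fun e => e ▸ r)

theorem Clo.nxt (c : Clo E N) (t : Trans E N) (hl : E l N) (h1 : Lim E ξ) (h2 : E l ξ)
    (h3 : ∀ η, E η ξ → E l η → ¬ Lim E η) : Sub E ξ N := by
  intro η hη
  refine ord_ind (fun η => E η ξ → E η N) (fun η ho ih hη => ?_) η (h1.1.mem hη) hη
  rcases ho.tri (h1.1.mem h2) with k | rfl | k
  · exact t _ _ hl k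
  · exact hl
  · by_contra n
    refine h3 η hη k ⟨ho, fun α hα => by_contra fun e => n (c.suc α η (ih α hα (h1.1.tr hη hα))
      fun x => ⟨fun hx => ?_, fun hx => hx.elim (ho.tr hα) fun e => e ▸ hα⟩)⟩
    rcases (ho.mem hx).tri (ho.mem hα) with a | a | a
    exacts [Or.inl a, Or.inr a, (e ⟨x, hx, a⟩).elim]

theorem mem_slc (A κ l p : M) : E p (slc E A κ l) ↔ At E A κ l p := by
  obtain ⟨d, hd⟩ := ex_fld E A
  obtain ⟨y, hy⟩ := sep E d fun p => At E A κ l p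
  have hy' : Slice E A κ l y := fun p => (hy p).trans
    ⟨fun h => h.2, fun ⟨q, h1, h2⟩ => ⟨(hd _ _ h2).2, q, h1, h2⟩⟩
  rw [slc, the_eq hy' fun y' h => ext' E fun z => (h z).trans (hy' z).symm]
  exact hy' p

end MoE

end Pool.Agent.Lib.MP_75a307_lc.LE
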