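import Pool.Agent.Lib.MP_75a307_lc.LE.MoH

/-! One step of the small model: the new system and the new seeds. -/

set_option synthInstance.maxSize 100000
set_option linter.unusedVariables false
set_option linter.unusedSectionVars false

namespace Pool.Agent.Lib.MP_75a307_lc.LE

open Pool.Agent.Lib.MP_1d770b_lc

universe u
variable {M : Type u} {E : M → M → Prop} [hZ : ZF E]

variable (E) in
/-- `y` lies in the hull of the single point `w` -/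
def mos1One (j : M → M) (Y w y : M) : Prop := ∃ f, E f Y ∧ y = ap E (j f) w

section
variable {K θ S Y w x y a b f : M} {j : M → M} {W : Set M}

theorem mos1_id (s : SkY E K Y) (e : El E j W) (hw : E w (j K)) : mos1One E j Y w w :=
  let ⟨f, h, k⟩ := s.idj; ⟨f, h, (k e w hw).symm⟩

theorem mos1_ap (s : SkY E K Y) (e : El E j W) (hw : E w (j K)) (h : mos1One E j Y w y)
    (hf : E f Y) : mos1One E j Y w (ap E (j f) y) := by
  obtain ⟨g, hg, rfl⟩ := h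
  obtain ⟨q, hq, k⟩ := s.compj hf hg
  exact ⟨q, hq, (k e w hw).symm⟩

theorem mos1_tr (s : SkY E K Y) (e : El E j W) (hw : E w (j K)) (h : mos1One E j Y w x)
    (k : mos1One E j Y x y) : mos1One E j Y w y := by
  obtain ⟨f, hf, rfl⟩ := k
  exact mos1_ap s e hw h hf

theorem mos1_pr (k : KG E K θ S) (s : SkY E K Y) (e : El E j W) (hw : E w (j K))
    (h : mos1One E j Y w a) (h' : mos1One E j Y w b) : mos1One E j Y w (pr E a b) := by
  obtain ⟨f, hf, rfl⟩ := h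
  obtain ⟨g, hg, rfl⟩ := h'
  obtain ⟨q, hq, c⟩ := s.pairj k.lim k.mem hf hg
  exact ⟨q, hq, (c e w hw).symm⟩

theorem mos1_pm (k : KG E K θ S) (s : SkY E K Y) (e : El E j W) (hw : E w (j K))
    (h : mos1One E j Y w (pr E a b)) : mos1One E j Y w a ∧ mos1One E j Y w b := by
  have m : E (pr E a b) (j K) := by
    obtain ⟨f, hf, c⟩ := h
    exact c ▸ s.ap_mem e hf hw
  obtain ⟨f, hf, c⟩ := s.p1 k.lim k.mem
  obtain ⟨g, hg, d⟩ := s.p2 k.lim k.mem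
  have h1 := mos1_ap s e hw h hf
  have h2 := mos1_ap s e hw h hg
  rw [c e a b m] at h1
  rw [d e a b m] at h2
  exact ⟨h1, h2⟩

end

section MoS1
variable {K θ S Y G Z κ l a y : M}

theorem mem_stZ (K Y G Z l a : M) : E a (stZ E K Y G Z l) ↔ E a Z ∨
    ∃ s c, E s Z ∧ E c (hG E K Y G Z) ∧ E c (tup E l) ∧ a = pr E G (pr E s c) := by
  obtain ⟨D, hD⟩ := step_prod (E := E) Z (tup E l)
  obtain ⟨B, hB⟩ := repl E D (fun p y => y = pr E G p) fun _ _ _ _ a b => a.trans b.symm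
  obtain ⟨A, hA⟩ := ex_union E Z B
  obtain ⟨y, hy⟩ := sep E A fun a => E a Z ∨
    ∃ s c, E s Z ∧ E c (hG E K Y G Z) ∧ E c (tup E l) ∧ a = pr E G (pr E s c)
  have hy' := fun t => (hy t).trans (and_iff_right_of_imp fun h => (hA t).2
    (h.imp_right fun ⟨s, c, x, _, z, e⟩ => (hB t).2 ⟨_, hD s c x z, e⟩))
  rw [stZ, the_eq hy' fun y' h => ext' E fun z => (h z).trans (hy' z).symm]
  exact hy' a

theorem StH.sys (h : StH E K θ S Y G Z κ l) :
    Sys E K (stG E K S G κ l) ∧ Sub E G (stG E K S G κ l) ∧ RelCC E G (stG E K S G κ l) ∧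
      IsOrd E l ∧ E κ l ∧ CohAt E (Wm E K G) (jG E K G S) κ l (slc E (jG E K G S) κ l) ∧
      UltW E (Wm E K G) κ l (slc E (jG E K G S) κ l) (fac E K G (stG E K S G κ l))
        (Wm E K (stG E K S G κ l)) ∧
      ∀ s c, E s (sN E G) → E c (tup E l) →
        E (pr E G (pr E s c)) (sN E (stG E K S G κ l)) ∧
          sdG E K (stG E K S G κ l) (pr E G (pr E s c)) =
            pr E (fac E K G (stG E K S G κ l) (sdG E K G s)) c := by
  have hC := h.kg.ac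
  have hθ := h.kg.lim
  have hK := h.kg.mem
  have g := h.ok.1
  have e := g.el hC
  obtain ⟨p, d⟩ := h.dom
  obtain ⟨lκ, ol, lt⟩ := com_at hC h.kg.coh e d
  have hκ := (hG_hl h.kg h.sk h.ok).sub κ h.hκ
  obtain ⟨-, n⟩ | ⟨hF, -, x, c⟩ := com_side h.kg.coh e lκ.1 ol fun p => mem_slc _ κ l p
  · exact (n h.dom).elim
  obtain ⟨s1, s2, N, U⟩ := step_spec hC hθ hK g hF x hκ
  refine ⟨s1, s2, step_rel hC hθ hK g hF x hκ, ol, lt, c, U, fun s c hs hc => ?_⟩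
  have m := (N _).2 (Or.inr ⟨s, c, hs, hc, rfl⟩)
  obtain ⟨-, -, u⟩ := s1.uniq hC (sd := stepSd E K G _) ⟨e.comp U.el,
    fun _ _ _ _ => by have := U.el.fk; unfold stepSd; infer_instance,
    fun a ha => step_sd hC g hκ U hθ hK ((N a).1 ha), fun a b R ha hb hR =>
      (step_tr3 hC g hκ ol lt U).trans ⟨fun t => t.2.2.2, fun t => ⟨(N a).1 ha, (N b).1 hb, hR, t⟩⟩⟩
    fun x hx => let ⟨a, f, n, t, e⟩ := step_gen hC g hκ U hθ hK hx; ⟨a, f, (N a).2 n, t, e⟩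
  exact ⟨m, (u _ m).symm.trans (step_new ..)⟩

theorem mos1_hpr {b : M} (k : KG E K θ S) (s : SkY E K Y) (o : OkG E K Y G Z)
    (ha : E a (hG E K Y G Z)) (hb : E b (hG E K Y G Z)) : E (pr E a b) (hG E K Y G Z) := by
  obtain ⟨p, F, hp, hF, e⟩ := hG_one k s o (scons a fun _ => b)
    (fun i => match i with | 0 => ha | _ + 1 => hb) 2
  obtain ⟨f, hf, c⟩ := mos1_pr k s (o.1.el k.ac) ((o.1.canon k.ac).1.mem p (o.2.1 p hp))
    ⟨F 0, hF 0, e 0 (by omega)⟩ ⟨F 1, hF 1, e 1 (by omega)⟩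
  exact (mem_hG ..).2 ⟨f, p, hf, hp, c⟩

theorem mos1_w (h : StH E K θ S Y G Z κ l) {s c : M} (hs : E s Z) (hc : E c (tup E l)) :
    E (pr E (fac E K G (stG E K S G κ l) (sdG E K G s)) c) (jG E K (stG E K S G κ l) K) := by
  obtain ⟨m, e⟩ := h.sys.2.2.2.2.2.2.2 s c (h.ok.2.1 s hs) hc
  exact e ▸ (h.sys.1.canon h.kg.ac).1.mem _ m

theorem mos1_nf (h : StH E K θ S Y G Z κ l) (ha : E a (stZ E K Y G Z l)) :
    ∃ s c, E s Z ∧ E c (hG E K Y G Z) ∧ E c (tup E l) ∧ mos1One E (jG E K (stG E K S G κ l)) Y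
      (pr E (fac E K G (stG E K S G κ l) (sdG E K G s)) c) (sdG E K (stG E K S G κ l) a) := by
  obtain ⟨g, sb, -, -, lt, -, -, n⟩ := h.sys
  have e := g.el h.kg.ac
  rcases (mem_stZ ..).1 ha with ha | ⟨s, c, hs, hc, tc, rfl⟩
  · have w := mos1_w h ha (sub_tup lt)
    refine ⟨a, κ, ha, h.hκ, sub_tup lt, ?_⟩
    rw [← ((h.ok.1.fac h.kg.ac g sb).2.2 a (h.ok.2.1 a ha)).2]
    exact (mos1_pm h.kg h.sk e w (mos1_id h.sk e w)).1
  · refine ⟨s, c, hs, hc, tc, ?_⟩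
    rw [(n s c (h.ok.2.1 s hs) tc).2]
    exact mos1_id h.sk e (mos1_w h hs tc)

theorem mos1_up (h : StH E K θ S Y G Z κ l) {w p s c f : M}
    (hw : E w (jG E K (stG E K S G κ l) K)) (hp : E p Z) (hf : E f Y)
    (e : sdG E K G s = ap E (jG E K G f) (sdG E K G p))
    (h1 : mos1One E (jG E K (stG E K S G κ l)) Y w (fac E K G (stG E K S G κ l) (sdG E K G p)))
    (h2 : mos1One E (jG E K (stG E K S G κ l)) Y w c)
    (h3 : mos1One E (jG E K (stG E K S G κ l)) Y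
      (pr E (fac E K G (stG E K S G κ l) (sdG E K G s)) c) y) :
    mos1One E (jG E K (stG E K S G κ l)) Y w y := by
  obtain ⟨g, sb, -⟩ := h.sys
  have j := g.el h.kg.ac
  refine mos1_tr h.sk j hw (mos1_pr h.kg h.sk j hw ?_ h2) h3
  rw [e, h.ok.1.fac_val h.kg.ac g sb (h.ok.2.1 p hp) (h.sk.tot hf),
    ← ((h.ok.1.fac h.kg.ac g sb).2.2 p (h.ok.2.1 p hp)).2]
  exact mos1_ap h.sk j hw h1 hf

theorem StH.ok' (h : StH E K θ S Y G Z κ l) :
    OkG E K Y (stG E K S G κ l) (stZ E K Y G Z l) := by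
  obtain ⟨g, sb, -, ol, -, -, -, n⟩ := h.sys
  have j := g.el h.kg.ac
  refine ⟨g, fun a ha => ?_, fun a b ha hb => ?_,
    h.ok.2.2.2.imp fun a ha => (mem_stZ ..).2 (Or.inl ha)⟩
  · rcases (mem_stZ ..).1 ha with ha | ⟨s, c, hs, -, tc, rfl⟩
    exacts [fac_sN sb (h.ok.2.1 a ha), (n s c (h.ok.2.1 s hs) tc).1]
  · obtain ⟨s, c, hs, hc, tc, o⟩ := mos1_nf h ha
    obtain ⟨s', c', hs', hc', tc', o'⟩ := mos1_nf h hb
    obtain ⟨p, f, f', hp, hf, hf', e, e'⟩ := h.ok.2.2.1 s s' hs hs'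
    have t := (tup_pr ol).2 ⟨tc, tc'⟩
    have w := mos1_w h hp t
    obtain ⟨q1, q2⟩ := mos1_pm h.kg h.sk j w (mos1_id h.sk j w)
    obtain ⟨q3, q4⟩ := mos1_pm h.kg h.sk j w q2
    obtain ⟨u, hu, r⟩ := mos1_up h w hp hf e q1 q3 o
    obtain ⟨u', hu', r'⟩ := mos1_up h w hp hf' e' q1 q4 o'
    rw [← (n p _ (h.ok.2.1 p hp) t).2] at r r'
    exact ⟨_, u, u', (mem_stZ ..).2 (Or.inr ⟨p, _, hp, mos1_hpr h.kg h.sk h.ok hc hc', t, rfl⟩),
      hu, hu', r, r'⟩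

theorem StH.into (h : StH E K θ S Y G Z κ l) (hy : E y (hG E K Y G Z)) :
    E (fac E K G (stG E K S G κ l) y) (hG E K Y (stG E K S G κ l) (stZ E K Y G Z l)) ∧
      (E y (tup E l) → E y (hG E K Y (stG E K S G κ l) (stZ E K Y G Z l))) := by
  obtain ⟨g, sb, -, -, -, -, -, n⟩ := h.sys
  have j := g.el h.kg.ac
  refine ⟨hG_fac h.kg h.sk h.ok g sb (fun a ha => (mem_stZ ..).2 (Or.inl ha)) hy, fun t => ?_⟩
  obtain ⟨s, hs⟩ := h.ok.2.2.2
  have w := mos1_w h hs t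
  obtain ⟨f, hf, e⟩ := (mos1_pm h.kg h.sk j w (mos1_id h.sk j w)).2
  rw [← (n s y (h.ok.2.1 s hs) t).2] at e
  exact (mem_hG ..).2 ⟨f, _, hf, (mem_stZ ..).2 (Or.inr ⟨s, y, hs, hy, t, rfl⟩), e⟩

/-- normal form of the elements of the new hull; `κ` is named by the same seed -/
theorem StH.form (h : StH E K θ S Y G Z κ l)
    (hy : E y (hG E K Y (stG E K S G κ l) (stZ E K Y G Z l))) :
    ∃ f g s c, E f Y ∧ E g Y ∧ E s Z ∧ E c (hG E K Y G Z) ∧ E c (tup E l) ∧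
      κ = ap E (jG E K G g) (sdG E K G s) ∧ y = ap E (jG E K (stG E K S G κ l) f)
        (pr E (fac E K G (stG E K S G κ l) (sdG E K G s)) c) := by
  have j := h.sys.1.el h.kg.ac
  obtain ⟨f, a, hf, ha, rfl⟩ := (mem_hG ..).1 hy
  obtain ⟨s, c, hs, hc, tc, o⟩ := mos1_nf h ha
  obtain ⟨g, s', hg, hs', eκ⟩ := (mem_hG ..).1 h.hκ
  obtain ⟨p, u, u', hp, hu, hu', e, e'⟩ := h.ok.2.2.1 s s' hs hs'
  have w := mos1_w h hp tc
  obtain ⟨q1, q2⟩ := mos1_pm h.kg h.sk j w (mos1_id h.sk j w)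
  obtain ⟨f', hf', r⟩ := mos1_ap h.sk j w (mos1_up h w hp hu e q1 q2 o) hf
  obtain ⟨g', hg', r'⟩ := mos1_ap h.sk (h.ok.1.el h.kg.ac)
    ((h.ok.1.canon h.kg.ac).1.mem p (h.ok.2.1 p hp)) ⟨u', hu', e'⟩ hg
  exact ⟨f', g', p, c, hf', hg', hp, hc, tc, eκ.trans r', r⟩

end MoS1

end Pool.Agent.Lib.MP_75a307_lc.LE
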