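import Pool.Agent.Lib.MP_75a307_lc.LE.MoE

/-! Closure properties of sets of Skolem functions and their transfer along embeddings. -/

set_option synthInstance.maxSize 100000
set_option linter.unusedVariables false
set_option linter.unusedSectionVars false

namespace Pool.Agent.Lib.MP_75a307_lc.LE

open Pool.Agent.Lib.MP_1d770b_lc

universe u
variable {M : Type u} {E : M → M → Prop} [hZ : ZF E]

section MoY
variable {K θ Y f g h s : M} {j : M → M} {W : Set M}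

theorem SkY.tot (y : SkY E K Y) (hf : E f Y) : Tot E K f := ⟨(y.fn f hf).fn, (y.fn f hf).2⟩

theorem SkY.ap_mem (y : SkY E K Y) (e : El E j W) (hf : E f Y) (hs : E s (j K)) :
    E (ap E (j f) s) (j K) :=
  ((e.func (y.fn f hf)).mem ((fac_tot e (y.tot hf)).app hs)).2

theorem moy_sk (y : SkY E K Y) (hK : ∀ x, E x K ↔ Rk E x θ) (P : (ℕ → M) → Prop)
    [d : RD E (fun _ => True) fun _ v => P v] (F : ℕ → M) (hF : ∀ i, E (F i) Y) :
    ∃ h, E h Y ∧ ∀ s z, E s K → E z K → P (scons z fun i => ap E (F i) s) →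
      P (scons (ap E h s) fun i => ap E (F i) s) := by
  obtain ⟨φ, hφ⟩ := d.out
  obtain ⟨h, h1, h2⟩ := y.sk φ F hF
  have t : Tr E (cl E K) := fun x hx z hz => (hK z).2 (((hK x).1 hx).mem hz)
  refine ⟨h, h1, fun s z hs hz k => ?_⟩
  have m : ∀ a, E a K → ∀ i, scons a (fun i => ap E (F i) s) i ∈ cl E K := fun a ha i => by
    cases i
    exacts [ha, y.ap_mem el_id (hF _) hs]
  exact (hφ _ trivial t _ (m _ (y.ap_mem el_id h1 hs))).1
    (h2 s z hs hz ((hφ _ trivial t _ (m z hz)).2 k))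

theorem SkY.p1 (y : SkY E K Y) (hθ : Lim E θ) (hK : ∀ x, E x K ↔ Rk E x θ) :
    ∃ f, E f Y ∧ ∀ {j : M → M} {W : Set M}, El E j W → ∀ a b, E (pr E a b) (j K) →
      ap E (j f) (pr E a b) = a := by
  have t : Tr E (cl E K) := fun x hx z hz => (hK z).2 (((hK x).1 hx).mem hz)
  obtain ⟨i, hi, e⟩ := y.id
  obtain ⟨h, h1, h2⟩ := moy_sk y hK (fun v => ∃ a b, IsOPair E (v 1) a b ∧ a = v 0) (fun _ => i)
    fun _ => hi
  refine ⟨h, h1, fun {j W} k a b m => ap_eq (k.fn (y.tot h1).1)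
    ((k.tr2 (fun _ K h => ∀ s, E s K → ∀ a b, IsOPair E s a b → App E h s a) K h).1
      (fun s hs a b p => ?_) _ m a b (pr_spec a b))⟩
  obtain ⟨a', b', q, r⟩ := h2 s a hs (t.opair hs p).1 ⟨a, b, (e s hs).symm ▸ p, rfl⟩
  have q' : IsOPair E s a' b' := e s hs ▸ q
  rw [(p.inj q').1, r]
  exact (y.tot h1).app hs

theorem SkY.p2 (y : SkY E K Y) (hθ : Lim E θ) (hK : ∀ x, E x K ↔ Rk E x θ) :
    ∃ f, E f Y ∧ ∀ {j : M → M} {W : Set M}, El E j W → ∀ a b, E (pr E a b) (j K) →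
      ap E (j f) (pr E a b) = b := by
  have t : Tr E (cl E K) := fun x hx z hz => (hK z).2 (((hK x).1 hx).mem hz)
  obtain ⟨i, hi, e⟩ := y.id
  obtain ⟨h, h1, h2⟩ := moy_sk y hK (fun v => ∃ a b, IsOPair E (v 1) a b ∧ b = v 0) (fun _ => i)
    fun _ => hi
  refine ⟨h, h1, fun {j W} k a b m => ap_eq (k.fn (y.tot h1).1)
    ((k.tr2 (fun _ K h => ∀ s, E s K → ∀ a b, IsOPair E s a b → App E h s b) K h).1
      (fun s hs a b p => ?_) _ m a b (pr_spec a b))⟩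
  obtain ⟨a', b', q, r⟩ := h2 s b hs (t.opair hs p).2 ⟨a, b, (e s hs).symm ▸ p, rfl⟩
  have q' : IsOPair E s a' b' := e s hs ▸ q
  rw [(p.inj q').2, r]
  exact (y.tot h1).app hs

theorem SkY.idj (y : SkY E K Y) :
    ∃ f, E f Y ∧ ∀ {j : M → M} {W : Set M}, El E j W → ∀ s, E s (j K) → ap E (j f) s = s :=
  let ⟨i, hi, e⟩ := y.id
  ⟨i, hi, fun k s hs => fac_idf k (y.tot hi) e hs⟩

theorem SkY.compj (y : SkY E K Y) (hf : E f Y) (hg : E g Y) :
    ∃ h, E h Y ∧ ∀ {j : M → M} {W : Set M}, El E j W → ∀ s, E s (j K) →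
      ap E (j h) s = ap E (j f) (ap E (j g) s) :=
  let ⟨h, h1, e⟩ := y.comp f g hf hg
  ⟨h, h1, fun k s hs => fac_comp k (y.tot hf) (y.tot hg).1 (y.tot h1) e hs (y.ap_mem k hg hs)
    ((fac_tot k (y.tot hg)).app hs)⟩

theorem SkY.pairj (y : SkY E K Y) (hθ : Lim E θ) (hK : ∀ x, E x K ↔ Rk E x θ) (hf : E f Y)
    (hg : E g Y) : ∃ h, E h Y ∧ ∀ {j : M → M} {W : Set M}, El E j W → ∀ s, E s (j K) →
      ap E (j h) s = pr E (ap E (j f) s) (ap E (j g) s) := by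
  obtain ⟨h, h1, h2⟩ := moy_sk y hK (fun v => IsOPair E (v 0) (v 1) (v 2)) (scons f fun _ => g)
    fun i => by cases i; exacts [hf, hg]
  refine ⟨h, h1, fun {j W} k s hs => pr_eq.1 ((k.tr4 (fun _ K f g h => ∀ s, E s K →
    ∀ a, App E f s a → ∀ b, App E g s b → ∀ c, App E h s c → IsOPair E c a b) K f g h).1
      (fun s hs a ha b hb c hc => ?_) s hs _ ((fac_tot k (y.tot hf)).app hs) _
      ((fac_tot k (y.tot hg)).app hs) _ ((fac_tot k (y.tot h1)).app hs))⟩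
  rw [← ap_eq (y.tot hf).1 ha, ← ap_eq (y.tot hg).1 hb, ← ap_eq (y.tot h1).1 hc]
  exact h2 s _ hs ((hK _).2 (hθ.opair ((hK _).1 (y.ap_mem el_id hf hs))
    ((hK _).1 (y.ap_mem el_id hg hs)) (pr_spec _ _))) (pr_spec _ _)

theorem moy_rd (φ : Fm) : ∀ (τ : ℕ → ℕ ⊕ ℕ) (i m : ℕ), RD E (Inn E) fun W v =>
    SatW E (cl E (v i)) φ fun k => (τ k).elim v fun f => ap E (v f) (v m) := by
  have rap (k m : ℕ) (t : ℕ ⊕ ℕ) (n : ℕ) : RD E (Inn E) fun _ v =>
      v k = t.elim (fun i => v (i + n)) fun f => ap E (v (f + n)) (v m) := by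
    cases t with
    | inl a => exact RD.eq k (a + n)
    | inr l =>
      exact RD.congr (P := fun _ v => (∀ z, E z (v k) → ∃ y', App E (v (l + n)) (v m) y' ∧ E z y') ∧
        ∀ y', App E (v (l + n)) (v m) y' → Sub E y' (v k)) fun _ _ _ _ _ => fac_isap ..
  have mem (W : Set M) (g : Inn E W) (v : ℕ → M) (hv : ∀ i, v i ∈ W) (m : ℕ) (t : ℕ ⊕ ℕ) :
      (t.elim v fun f => ap E (v f) (v m)) ∈ W := by
    cases t
    exacts [hv _, g.ap (hv _) (hv _)]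
  induction φ with
  | mem a b =>
    intro τ i m
    exact @RD.congr _ _ _ _ _ (@RD.ex _ E _ (fun W y v => y = ((τ a).elim v fun f => ap E (v f) (v m)) ∧
      ∃ z ∈ W, z = ((τ b).elim v fun f => ap E (v f) (v m)) ∧ E y z)
      (@RD.and _ _ _ _ _ (rap 0 (m + 1) (τ a) 1) (@RD.ex _ E _ (fun W z v =>
        z = ((τ b).elim (fun i => v (i + 1)) fun f => ap E (v (f + 1)) (v (m + 1))) ∧ E (v 0) z)
        (@RD.and _ _ _ _ _ (rap 0 (m + 2) (τ b) 2) (RD.mem 1 0))))) fun W g _ v hv =>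
      ⟨fun ⟨_, _, e, _, _, e', k⟩ => by rw [e, e'] at k; exact k,
        fun k => ⟨_, mem W g v hv m _, rfl, _, mem W g v hv m _, rfl, k⟩⟩
  | eq a b =>
    intro τ i m
    exact @RD.congr _ _ _ _ _ (@RD.ex _ E _ (fun W y v => y = ((τ a).elim v fun f => ap E (v f) (v m)) ∧
      y = ((τ b).elim v fun f => ap E (v f) (v m)))
      (@RD.and _ _ _ _ _ (rap 0 (m + 1) (τ a) 1) (rap 0 (m + 1) (τ b) 1))) fun W g _ v hv =>
      ⟨fun ⟨_, _, e, e'⟩ => e.symm.trans e', fun k => ⟨_, mem W g v hv m _, rfl, k⟩⟩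
  | neg φ ih => intro τ i m; exact @RD.not _ _ _ _ (ih τ i m)
  | and φ ψ ih1 ih2 => intro τ i m; exact @RD.and _ _ _ _ _ (ih1 τ i m) (ih2 τ i m)
  | ex φ ih =>
    intro τ i m
    exact @RD.bex _ E (Inn E) (fun W c v =>
      SatW E (cl E (v i)) φ (scons c fun k => (τ k).elim v fun f => ap E (v f) (v m))) i
      (@RD.congr _ _ _ _ _ (ih (scons (.inl 0) fun k => (τ k).map (· + 1) (· + 1)) (i + 1) (m + 1))
        fun W _ _ v _ => iff_of_eq (by
          congr 1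
          funext k
          cases k with
          | zero => rfl
          | succ k => simp only [scons_succ]; cases τ k <;> rfl))

theorem moy_rd1 (φ : Fm) (ρ : ℕ → ℕ) (i m : ℕ) : RD E (Inn E) fun W v =>
    SatW E (cl E (v i)) φ fun k => ap E (v (ρ k)) (v m) :=
  moy_rd φ (fun k => .inr (ρ k)) i m

theorem moy_rd2 (φ : Fm) (ρ : ℕ → ℕ) (i a m : ℕ) : RD E (Inn E) fun W v =>
    SatW E (cl E (v i)) φ (scons (v a) fun k => ap E (v (ρ k)) (v m)) :=
  @RD.congr _ _ _ _ _ (moy_rd φ (scons (.inl a) fun k => .inr (ρ k)) i m) fun W _ _ v _ =>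
    iff_of_eq (by congr 1; funext k; cases k <;> rfl)

theorem SkY.skj (hC : Choice E) (y : SkY E K Y) (hθ : Lim E θ) (hK : ∀ x, E x K ↔ Rk E x θ)
    (φ : Fm) (F : ℕ → M) (hF : ∀ i, E (F i) Y) :
    ∃ h, E h Y ∧ ∀ {j : M → M} {W : Set M}, El E j W → ∀ s z, E s (j K) → E z (j K) →
      SatW E (cl E (j K)) φ (scons z fun i => ap E (j (F i)) s) →
        SatW E (cl E (j K)) φ (scons (ap E (j h) s) fun i => ap E (j (F i)) s) := by
  obtain ⟨h, h1, h2⟩ := y.sk φ F hF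
  have d := moy_rd2 (E := E) φ fun k => k + 2 + 1 + 1 + 1
  refine ⟨h, h1, fun {j W} k s z hs hz => (k.trG (inn_univ hC) (k.inn hC) (fun _ v =>
    ∀ s, E s (v 0) → ∀ z, E z (v 0) → ∀ c, App E (v 1) s c →
      SatW E (cl E (v 0)) φ (scons z fun i => ap E (v (i + 2)) s) →
        SatW E (cl E (v 0)) φ (scons c fun i => ap E (v (i + 2)) s)) (scons K (scons h F))).1
    (fun s hs z hz c hc => ?_) s hs z hz _ ((fac_tot k (y.tot h1)).app hs)⟩
  rw [← ap_eq (y.tot h1).1 hc]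
  exact h2 s z hs hz

theorem SkY.cmpj (hC : Choice E) (y : SkY E K Y) (hθ : Lim E θ) (hK : ∀ x, E x K ↔ Rk E x θ)
    (φ : Fm) (F : ℕ → M) (hF : ∀ i, E (F i) Y) (hg : E g Y) :
    ∃ h, E h Y ∧ ∀ {j : M → M} {W : Set M}, El E j W → ∀ s, E s (j K) → ∀ z,
      E z (ap E (j h) s) ↔ E z (ap E (j g) s) ∧
        SatW E (cl E (j K)) φ fun i => ap E (j (F i)) (pr E z s) := by
  obtain ⟨h, h1, h2⟩ := y.cmp φ F g hF hg
  have d := moy_rd1 (E := E) φ fun k => k + 3 + 1 + 1 + 1 + 1 + 1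
  refine ⟨h, h1, fun {j W} k s hs z => ?_⟩
  have q := (k.trG (inn_univ hC) (k.inn hC) (fun W v =>
    ∀ s, E s (v 0) → ∀ c, App E (v 1) s c → ∀ b, App E (v 2) s b → ∀ z ∈ W, ∀ p ∈ W,
      IsOPair E p z s → (E z c ↔ E z b ∧ SatW E (cl E (v 0)) φ fun i => ap E (v (i + 3)) p))
    (scons K (scons h (scons g F)))).1 (fun s hs c hc b hb z _ p _ hp => by
      rw [← ap_eq (y.tot h1).1 hc, ← ap_eq (y.tot hg).1 hb, pr_eq.1 hp]
      exact h2 s hs z) s hs _ ((fac_tot k (y.tot h1)).app hs) _ ((fac_tot k (y.tot hg)).app hs) z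
  have r := fun m : z ∈ W => q m _ (k.pr_mem m (k.trans _ (k.maps K) s hs) (pr_spec z s))
    (pr_spec z s)
  exact ⟨fun a => (r (k.trans _ (fac_mem k (y.tot h1) hs) z a)).1 a,
    fun a => (r (k.trans _ (fac_mem k (y.tot hg) hs) z a.1)).2 a⟩

end MoY

end Pool.Agent.Lib.MP_75a307_lc.LE
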