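import Pool.Agent.Lib.MP_75a307_lc.LE.MoS1
import Pool.Agent.Lib.MP_75a307_lc.LE.MoC
import Pool.Agent.Lib.MP_75a307_lc.LE.MoH
import Pool.Agent.Lib.MP_75a307_lc.LE.MoY
import Pool.Agent.Lib.MP_75a307_lc.LE.MoE

/-! Elements of the new hull are described by relations in the old hull. -/

set_option synthInstance.maxSize 100000
set_option linter.unusedVariables false
set_option linter.unusedSectionVars false

namespace Pool.Agent.Lib.MP_75a307_lc.LE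

open Pool.Agent.Lib.MP_1d770b_lc

universe u
variable {M : Type u} {E : M → M → Prop} [hZ : ZF E]

variable {K θ S Y G Z κ l a y : M}

/-- a function of `Y` whose value at `s` contains everything of rank below `g s` -/
theorem mos2_V (k : KG E K θ S) (sk : SkY E K Y) {g : M} (hg : E g Y) :
    ∃ g0, E g0 Y ∧ ∀ {j : M → M} {W : Set M}, El E j W → ∀ s, E s (j K) → ∀ x, E x (j K) →
      Rk E x (ap E (j g) s) → E x (ap E (j g0) s) := by
  obtain ⟨φ, hφ⟩ := (inferInstance : RD E (Good E)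
    fun W v => ∀ x ∈ W, Rk E x (v 1) → E x (v 0)).out
  obtain ⟨g0, h0, h1⟩ := sk.skj k.ac k.lim k.mem φ (fun _ => g) fun _ => hg
  refine ⟨g0, h0, fun {j W} e s hs => ?_⟩
  obtain ⟨gK, tK⟩ := good_V k.lim k.mem
  have en := el_en e tK gK
  have t : Tr E (cl E (j K)) := fun x hx z hz => en.tr' x z hx hz
  have m := sk.ap_mem e hg hs
  obtain ⟨z, hz, H⟩ := (e.tr1 (fun _ K => ∀ α, E α K → ∃ z, E z K ∧ ∀ x, E x K → Rk E x α → E x z)
    K).1 (fun α hα => by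
      by_cases o : IsOrd E α
      · obtain ⟨v, hv⟩ := ex_V o
        exact ⟨v, (k.mem v).2 (Rk.intro k.lim.1 (((k.mem α).1 hα).ord_mem o) fun z => (hv z).1),
          fun x _ => (hv x).2⟩
      · exact ⟨α, hα, fun x _ r => (o r.ord).elim⟩) _ m
  have q := h1 e s z hs hz ((hφ _ en.good' t _ fun i => by cases i; exacts [hz, m]).2 H)
  exact (hφ _ en.good' t _ fun i => by cases i; exacts [sk.ap_mem e h0 hs, m]).1 q

/-- the two coordinates `f (s, c)` and `t` of the point `((c, t), s)` -/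
theorem mos2_F (k : KG E K θ S) (sk : SkY E K Y) {f : M} (hf : E f Y) :
    ∃ F : ℕ → M, (∀ i, E (F i) Y) ∧ ∀ {j : M → M} {W : Set M}, El E j W → ∀ c t s,
      E (pr E (pr E c t) s) (j K) → E (pr E c t) (j K) → E (pr E s c) (j K) →
        ap E (j (F 0)) (pr E (pr E c t) s) = ap E (j f) (pr E s c) ∧
          ap E (j (F 1)) (pr E (pr E c t) s) = t := by
  obtain ⟨p, hp, ep⟩ := sk.p1 k.lim k.mem
  obtain ⟨q, hq, eq⟩ := sk.p2 k.lim k.mem
  obtain ⟨pp, hpp, epp⟩ := sk.compj hp hp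
  obtain ⟨qp, hqp, eqp⟩ := sk.compj hq hp
  obtain ⟨r, hr, er⟩ := sk.pairj k.lim k.mem hq hpp
  obtain ⟨u, hu, eu⟩ := sk.compj hf hr
  refine ⟨scons u fun _ => qp, fun i => by cases i; exacts [hu, hqp],
    fun {j W} e c t s h1 h2 h3 => ⟨?_, ?_⟩⟩
  · show ap E (j u) _ = _
    rw [eu e _ h1, er e _ h1, eq e _ _ h1, epp e _ h1, ep e _ _ h1, ep e _ _ h2]
  · show ap E (j qp) _ = _
    rw [eqp e _ h1, ep e _ _ h1, eq e _ _ h2]

theorem StH.key (h : StH E K θ S Y G Z κ l)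
    (hy : E y (hG E K Y (stG E K S G κ l) (stZ E K Y G Z l))) :
    ∃ c R R', E c (hG E K Y G Z) ∧ E c (tup E l) ∧ E R (hG E K Y G Z) ∧ E R' (hG E K Y G Z) ∧
      ∀ t, t ∈ Wm E K (stG E K S G κ l) → Rk E t (fac E K G (stG E K S G κ l) κ) →
        (E (pr E c t) (fac E K G (stG E K S G κ l) R) ↔ y = t) ∧
          (E (pr E c t) (fac E K G (stG E K S G κ l) R') ↔ E t y) := by
  obtain ⟨f, g, s, c, hf, hg, hs, hc, ct, eκ, ey⟩ := h.form hy
  obtain ⟨s1, sub, -, ol, -, -, U, -⟩ := h.sys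
  generalize stG E K S G κ l = G1 at *
  have hC := h.kg.ac
  have s0 := h.ok.1
  have sN0 := h.ok.2.1 s hs
  have e := s1.el hC
  obtain ⟨-, -, fs⟩ := s0.fac hC s1 sub
  obtain ⟨sN1, es⟩ := fs s sN0
  have sK : E (sdG E K G1 s) (jG E K G1 K) := (s1.canon hC).1.mem s sN1
  rw [es] at ey
  have ek : fac E K G G1 κ = ap E (jG E K G1 g) (sdG E K G1 s) := by
    rw [eκ]; exact s0.fac_val hC s1 sub sN0 (h.sk.tot hg)
  have lk : Lim E (fac E K G G1 κ) :=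
    (U.el.tr1 (fun _ a => Lim E a) (U.el.inn.ord U.lim.1)).1 U.lim
  have lθ : Lim E (jG E K G1 θ) := (e.tr1 (fun _ a => Lim E a) θ).1 h.kg.lim
  have kK : E (fac E K G G1 κ) (jG E K G1 K) := ek ▸ h.sk.ap_mem e hg sK
  have inW : ∀ x, E x (jG E K G1 K) → x ∈ Wm E K G1 := fun x hx => e.trans _ (e.maps K) x hx
  have kθ : E (fac E K G G1 κ) (jG E K G1 θ) :=
    ((e.mem_V h.kg.mem (inW _ kK)).1 kK).ord_mem lk.1
  have toK : ∀ x, x ∈ Wm E K G1 → Rk E x (fac E K G G1 κ) → E x (jG E K G1 K) := fun x hx r =>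
    (e.mem_V h.kg.mem hx).2 (r.lt lθ.1 kθ)
  have prK : ∀ a b, E a (jG E K G1 K) → E b (jG E K G1 K) → E (pr E a b) (jG E K G1 K) :=
    fun a b ha hb => (e.mem_V h.kg.mem (e.pr_mem (inW a ha) (inW b hb) (pr_spec a b))).2
      (lθ.opair ((e.mem_V h.kg.mem (inW a ha)).1 ha) ((e.mem_V h.kg.mem (inW b hb)).1 hb)
        (pr_spec a b))
  have cr : Rk E c (fac E K G G1 κ) := tup_rk lk U.len ct
  have cK := toK c (U.el.inn'.tr _ (U.el.inn'.tup (U.el.inn'.ord ol)) c ct) cr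
  obtain ⟨g0, h0, e0⟩ := mos2_V h.kg h.sk hg
  obtain ⟨F, hF, eF⟩ := mos2_F h.kg h.sk hf
  obtain ⟨r, hr, er⟩ := h.sk.cmpj hC h.kg.lim h.kg.mem (.eq 0 1) F hF h0
  obtain ⟨r', hr', er'⟩ := h.sk.cmpj hC h.kg.lim h.kg.mem (.mem 1 0) F hF h0
  refine ⟨c, _, _, hc, ct, (mem_hG _ _ _ _ _).2 ⟨r, s, hr, hs, rfl⟩,
    (mem_hG _ _ _ _ _).2 ⟨r', s, hr', hs, rfl⟩, fun t ht rt => ?_⟩
  have pK := prK c t cK (toK t ht rt)
  have i0 := e0 e _ sK _ pK (ek ▸ lk.opair cr rt (pr_spec c t))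
  obtain ⟨v0, v1⟩ := eF e c t _ (prK _ _ pK sK) pK (prK _ _ sK cK)
  rw [s0.fac_val hC s1 sub sN0 (h.sk.tot hr), s0.fac_val hC s1 sub sN0 (h.sk.tot hr'),
    er e _ sK, er' e _ sK]
  simp only [SatW, v0, v1, ← ey, i0, true_and, and_self]

end Pool.Agent.Lib.MP_75a307_lc.LE
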