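import Pool.Agent.Lib.MP_75a307_lc.LE.MoS2

/-! One step of the small model: the old and the new hull agree below the extender. -/

set_option synthInstance.maxSize 100000
set_option linter.unusedVariables false
set_option linter.unusedSectionVars false

namespace Pool.Agent.Lib.MP_75a307_lc.LE

open Pool.Agent.Lib.MP_1d770b_lc

universe u
variable {M : Type u} {E : M → M → Prop} [hZ : ZF E]

section
variable {H B z a b c d e f p y ξ l : M}

theorem mos3_tv (h : Hl E H B) (P : Set M → M → M → M → M → M → M → M → Prop)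
    [RD E (Good E) fun W v => P W (v 0) (v 1) (v 2) (v 3) (v 4) (v 5) (v 6)] (ha : E a H)
    (hb : E b H) (hc : E c H) (hd : E d H) (he : E e H) (hf : E f H) (hz : E z B)
    (k : P (cl E B) z a b c d e f) : ∃ z, E z H ∧ P (cl E B) z a b c d e f :=
  h.tvP (fun W v => P W (v 0) (v 1) (v 2) (v 3) (v 4) (v 5) (v 6))
    (fun n => [a, b, c, d, e].getD n f) (fun n => match n with
      | 0 => ha | 1 => hb | 2 => hc | 3 => hd | 4 => he | _ + 5 => hf) hz k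

theorem mos3_tup (h : Hl E H B) (k : Clo E B) (hl : E l H) : E (tup E l) H := by
  obtain ⟨t, h1, h2⟩ := mos3_tv h (fun _ t l _ _ _ _ _ => IsTup E t l) hl hl hl hl hl hl
    (k.tup l (h.sub l hl)) (tup_spec l)
  exact h2.eq ▸ h1

theorem mos3_cut (h : Hl E H B) (k : Clo E B) (ha : E a H) (hξ : E ξ H)
    (q : ∀ z, E z y ↔ E z a ∧ Rk E z ξ) : E y H := by
  have hy := k.cut a ξ y (h.sub a ha) (h.sub ξ hξ) q
  obtain ⟨t, h1, h2⟩ := mos3_tv h (fun W t a ξ _ _ _ _ => ∀ z ∈ W, (E z t ↔ E z a ∧ Rk E z ξ))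
    ha hξ ha ha ha ha hy fun z _ => q z
  have : t = y := ext' E fun z => ⟨fun hz => (q z).2 ((h2 z (h.tr _ _ (h.sub t h1) hz)).1 hz),
    fun hz => (h2 z (h.tr _ _ hy hz)).2 ((q z).1 hz)⟩
  exact this ▸ h1

theorem mos3_up (h : Hl E H B) (k : Clo E B) (q : IsUPair E p a b) :
    E p H ↔ E a H ∧ E b H := by
  constructor
  · have key : ∀ {a b : M}, IsUPair E p a b → E p H → E a H → E b H := fun {a b} q hp ha => by
      by_cases e : b = a
      · exact e ▸ ha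
      · obtain ⟨t, h1, h2, h3⟩ := mos3_tv h (fun _ t p a _ _ _ _ => E t p ∧ t ≠ a) hp ha ha ha ha ha
          (h.tr _ _ (h.sub p hp) ((q b).2 (Or.inr rfl))) ⟨(q b).2 (Or.inr rfl), e⟩
        exact ((q t).1 h2).resolve_left h3 ▸ h1
    intro hp
    obtain ⟨t, h1, h2⟩ := mos3_tv h (fun _ t p _ _ _ _ _ => E t p) hp hp hp hp hp hp
      (h.tr _ _ (h.sub p hp) ((q b).2 (Or.inr rfl))) ((q b).2 (Or.inr rfl))
    rcases (q t).1 h2 with rfl | rfl
    · exact ⟨h1, key q hp h1⟩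
    · exact ⟨key (fun x => (q x).trans or_comm) hp h1, h1⟩
  · rintro ⟨ha, hb⟩
    obtain ⟨s, t, -, ht, hp⟩ := pr_spec (E := E) a b
    have hB : E p B := q.uniq ht ▸
      h.tr _ _ (k.pr a b (h.sub a ha) (h.sub b hb)) ((hp t).2 (Or.inr rfl))
    obtain ⟨t, h1, h2⟩ := mos3_tv h (fun _ t a b _ _ _ _ => IsUPair E t a b) ha hb ha ha ha ha hB q
    exact h2.uniq q ▸ h1

end

section MoS3
variable {K θ S Y G Z κ l a y : M}

theorem mos3_clo (k : KG E K θ S) {j : M → M} {W : Set M} (e : El E j W) (ne : E a K) :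
    Clo E (j K) :=
  ((el_en e (good_V k.lim k.mem).2 (good_V k.lim k.mem).1).clo ⟨a, ne⟩).1 k.clo

theorem mos3_slc (A κ l a X : M) : App E (slc E A κ l) a X ↔ At E A κ l (pr E a X) :=
  app_iff.trans (mem_slc _ _ _ _)

theorem StH.tup' (h : StH E K θ S Y G Z κ l) (t : E y (tup E l)) :
    E y (hG E K Y (stG E K S G κ l) (stZ E K Y G Z l)) ↔ E y (hG E K Y G Z) := by
  refine ⟨fun hy => ?_, fun hy => (h.into hy).2 t⟩
  obtain ⟨c, R, R', hc, ct, hR, -, key⟩ := h.key hy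
  obtain ⟨g1, -, -, ho, lt, -, U, -⟩ := h.sys
  have hl := hG_hl h.kg h.sk h.ok
  have e := h.ok.1.el h.kg.ac
  have clo := mos3_clo h.kg e h.kg.hS
  have hS := h.hS
  have hκ := h.hκ
  have hlH := h.hl
  have mV := fun x hx => e.mem_V (x := x) h.kg.mem hx
  have BW := e.maps K
  generalize hG E K Y G Z = H at *
  generalize fac E K G (stG E K S G κ l) = i at *
  generalize Wm E K (stG E K S G κ l) = W1 at *
  generalize jG E K G S = A at *
  generalize jG E K G K = B at *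
  have iW := U.el.inn
  have HW : ∀ x, E x H → x ∈ Wm E K G := fun x hx => iW.tr _ BW _ (hl.sub x hx)
  have hT := mos3_tup hl clo hκ
  have il : Lim E (i κ) := (U.el.tr1 (fun _ a => Lim E a) (HW _ hκ)).1 U.lim
  have tW : ∀ x, E x (tup E l) → x ∈ W1 := U.el.inn'.tr _ (U.el.inn'.tup (U.el.inn'.ord ho))
  obtain ⟨X, XW, hX⟩ := iW.sep (HW _ hR) (fun _ v => E (v 0) (v 1)) (fun _ => tup E κ)
    fun _ => HW _ hT
  replace hX : ∀ z, E z X ↔ E z R ∧ E z (tup E κ) := hX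
  have XB : E X B := (mV X XW).2 (((mV R (HW _ hR)).1 (hl.sub _ hR)).sub fun z hz => ((hX z).1 hz).1)
  have XH : E X H := by
    obtain ⟨X', h1, h2⟩ := mos3_tv hl (fun W t a b _ _ _ _ => ∀ z ∈ W, (E z t ↔ E z a ∧ E z b))
      hR hT hR hR hR hR XB fun z _ => hX z
    have : X' = X := ext' E fun z =>
      ⟨fun hz => (hX z).2 ((h2 z (hl.tr _ _ (hl.sub _ h1) hz)).1 hz),
        fun hz => (h2 z (hl.tr _ _ XB hz)).2 ((hX z).1 hz)⟩
    exact this ▸ h1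
  have iX := (U.el.tr3 (fun W t a b => ∀ z ∈ W, (E z t ↔ E z a ∧ E z b)) XW (HW _ hR)
    (HW _ hT)).1 fun z _ => hX z
  rw [U.el.tup (HW _ hκ)] at iX
  have cy := (tup_pr ho).2 ⟨ct, t⟩
  have k1 : At E A κ l (pr E (pr E c y) X) := (mos3_slc _ _ _ _ _).1 ((U.mem _ _).2
    ⟨cy, XW, fun z hz => ((hX z).1 hz).2, (iX _ (tW _ cy)).2
      ⟨(key y (tW y t) (tup_rk il U.len t)).1.2 rfl, tup_mono U.len _ cy⟩⟩)
  have yB : E y B := hl.tr _ _ (clo.tup l (hl.sub l hlH)) t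
  have qB := clo.pr _ _ (hl.sub c hc) yB
  obtain ⟨b, h1, q, -, h2, p, -, h3, h4⟩ := mos3_tv hl (fun W b c X A κ l _ =>
      ∃ q ∈ W, IsOPair E q c b ∧ ∃ p ∈ W, IsOPair E p q X ∧ At E A κ l p)
    hc XH hS hκ hlH hc yB ⟨_, qB, pr_spec _ _, _, clo.pr _ _ qB XB, pr_spec _ _, k1⟩
  rw [pr_eq.1 h3, pr_eq.1 h2] at h4
  obtain ⟨k2, -, -, k3⟩ := (U.mem _ _).1 ((mos3_slc _ _ _ _ _).2 h4)
  have bt := ((tup_pr ho).1 k2).2
  exact (key b (tW b bt) (tup_rk il U.len bt)).1.1 ((iX _ (tW _ k2)).1 k3).1 ▸ h1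

theorem StH.low (h : StH E K θ S Y G Z κ l) (r : ∀ z, E z y → Rk E z κ) :
    E y (hG E K Y (stG E K S G κ l) (stZ E K Y G Z l)) ↔ E y (hG E K Y G Z) := by
  obtain ⟨g1, -, -, ho, lt, -, U, -⟩ := h.sys
  have hl := hG_hl h.kg h.sk h.ok
  have hl1 := hG_hl h.kg h.sk h.ok'
  have e := h.ok.1.el h.kg.ac
  have e1 := g1.el h.kg.ac
  have clo := mos3_clo h.kg e h.kg.hS
  have BW := e.maps K
  have iW := U.el.inn
  have HW : ∀ x, E x (hG E K Y G Z) → x ∈ Wm E K G := fun x hx => iW.tr _ BW _ (hl.sub x hx)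
  refine ⟨fun hy => ?_, fun hy => mos3_cut hl1 (mos3_clo h.kg e1 h.kg.hS) (h.into hy).1
    ((h.into h.hκ).2 (sub_tup lt))
    (cmpA_cut U.el U.fixV.1 (fun _ hx _ => U.sub hx) (HW y hy) r)⟩
  obtain ⟨c, R, R', hc, ct, -, hR, key⟩ := h.key hy
  have yW : y ∈ Wm E K G := U.sub (e1.trans _ (e1.maps K) _ (hl1.sub y hy))
  have hS := h.hS
  have hκ := h.hκ
  have hlH := h.hl
  have mV := fun x hx => e.mem_V (x := x) h.kg.mem hx
  clear hl1 hy e1
  generalize hG E K Y G Z = H at *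
  generalize fac E K G (stG E K S G κ l) = i at *
  generalize Wm E K (stG E K S G κ l) = W1 at *
  generalize jG E K G S = A at *
  generalize jG E K G K = B at *
  have hT := mos3_tup hl clo hκ
  have TB := hl.sub _ hT
  have rκ := (mV κ (HW _ hκ)).1 (hl.sub _ hκ)
  have yB : E y B := (mV y yW).2 (Rk.intro rκ.ord (rκ.ord_mem U.lim.1) r)
  have cW : c ∈ W1 := U.el.inn'.tr _ (U.el.inn'.tup (U.el.inn'.ord ho)) _ ct
  have main : ∀ b, E b B → Rk E b κ → ∀ X, E X B →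
      (∀ u, E u B → (E u X ↔ E u (tup E κ) ∧ App E R' u b)) → (At E A κ l (pr E c X) ↔ E b y) :=
    fun b bB rb X XB hX => by
      have bW := iW.tr _ BW _ bB
      have XW := iW.tr _ BW _ XB
      have ib := U.fixV.1 b bW rb
      have iX := (U.el.tr4 (fun W X T R b => ∀ u ∈ W, (E u X ↔ E u T ∧ App E R u b)) XW (HW _ hT)
        (HW _ hR) bW).1 (fun u _ => ⟨fun hu => (hX u (hl.tr _ _ XB hu)).1 hu,
          fun hu => (hX u (hl.tr _ _ TB hu.1)).2 hu⟩) c cW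
      rw [U.el.tup (HW _ hκ), ib, app_iff] at iX
      rw [← mos3_slc, U.mem, iX, ← (key b (ib ▸ U.el.maps b bW)
        (rb.lt (U.el.ord U.lim.1) (U.len κ lt))).2]
      exact ⟨fun k => k.2.2.2.2, fun k => ⟨ct, XW, fun u hu => ((hX u (hl.tr _ _ XB hu)).1 hu).1,
        tup_mono U.len _ ct, k⟩⟩
  have all : ∀ b, E b B → (E b y ↔ Rk E b κ ∧ ∃ X ∈ cl E B,
      (∀ u ∈ cl E B, (E u X ↔ E u (tup E κ) ∧ App E R' u b)) ∧
        ∃ p ∈ cl E B, IsOPair E p c X ∧ At E A κ l p) := fun b bB => by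
    refine ⟨fun hb => ⟨r b hb, ?_⟩, fun ⟨rb, X, XB, hX, p, _, h1, h2⟩ =>
      (main b bB rb X XB hX).1 (pr_eq.1 h1 ▸ h2)⟩
    obtain ⟨X, XW, hX⟩ := iW.sep (HW _ hT) (fun _ v => App E (v 1) (v 0) (v 2))
      (fun n => [R'].getD n b) fun n => match n with | 0 => HW _ hR | _ + 1 => iW.tr _ BW _ bB
    replace hX : ∀ z, E z X ↔ E z (tup E κ) ∧ App E R' z b := hX
    have XB : E X B := (mV X XW).2 (((mV _ (HW _ hT)).1 TB).sub fun z hz => ((hX z).1 hz).1)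
    exact ⟨X, XB, fun u _ => hX u, _, clo.pr _ _ (hl.sub c hc) XB, pr_spec _ _,
      (main b bB (r b hb) X XB fun u _ => hX u).2 hb⟩
  obtain ⟨y', h1, h2⟩ := mos3_tv hl (fun W y κ T R c A l => ∀ b ∈ W, (E b y ↔ Rk E b κ ∧ ∃ X ∈ W,
      (∀ u ∈ W, (E u X ↔ E u T ∧ App E R u b)) ∧ ∃ p ∈ W, IsOPair E p c X ∧ At E A κ l p))
    hκ hT hR hc hS hlH yB all
  have : y' = y := ext' E fun z =>
    ⟨fun hz => have zB := hl.tr _ _ (hl.sub _ h1) hz; (all z zB).2 ((h2 z zB).1 hz),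
      fun hz => have zB := hl.tr _ _ yB hz; (h2 z zB).2 ((all z zB).1 hz)⟩
  exact this ▸ h1

theorem StH.colEq (h : StH E K θ S Y G Z κ l) (hy : E y (hG E K Y G Z))
    (r : (∀ z, E z y → Rk E z κ) ∨ E y (tup E l)) :
    col E (hG E K Y (stG E K S G κ l) (stZ E K Y G Z l)) y = col E (hG E K Y G Z) y := by
  obtain ⟨g1, -, -, ho, -⟩ := h.sys
  have hl := hG_hl h.kg h.sk h.ok
  have hl1 := hG_hl h.kg h.sk h.ok'
  have clo := mos3_clo h.kg (h.ok.1.el h.kg.ac) h.kg.hS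
  have clo1 := mos3_clo h.kg (g1.el h.kg.ac) h.kg.hS
  refine col_agree (fun y => (∀ z, E z y → Rk E z κ) ∨ E y (tup E l) ∨
    ∃ a b, E a (tup E l) ∧ E b (tup E l) ∧ IsUPair E y a b) (fun y p z hz => ?_)
    (r.imp_right Or.inl) (r.elim (fun r => (h.low r).2 hy) fun r => (h.tup' r).2 hy) hy
  have up : ∀ a b, E a (tup E l) → E b (tup E l) → IsUPair E z a b →
      (E z (hG E K Y (stG E K S G κ l) (stZ E K Y G Z l)) ↔ E z (hG E K Y G Z)) :=
    fun a b ha hb q => by rw [mos3_up hl1 clo1 q, mos3_up hl clo q, h.tup' ha, h.tup' hb]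
  rcases p with p | p | ⟨a, b, ha, hb, q⟩
  · exact ⟨h.low fun x hx => (p z hz).mem hx, fun _ => Or.inl fun x hx => (p z hz).mem hx⟩
  · rcases (tup_spec l y).1 p with k | ⟨a, b, ha, hb, s, t, hs, ht, q⟩
    · have := sub_tup (ho.tr k hz)
      exact ⟨h.tup' this, fun _ => Or.inr (Or.inl this)⟩
    · rcases (q z).1 hz with rfl | rfl
      · exact ⟨up a a ha ha hs, fun _ => Or.inr (Or.inr ⟨a, a, ha, ha, hs⟩)⟩
      · exact ⟨up a b ha hb ht, fun _ => Or.inr (Or.inr ⟨a, b, ha, hb, ht⟩)⟩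
  · have : E z (tup E l) := ((q z).1 hz).elim (fun e => e ▸ ha) fun e => e ▸ hb
    exact ⟨h.tup' this, fun _ => Or.inr (Or.inl this)⟩

end MoS3

end Pool.Agent.Lib.MP_75a307_lc.LE
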