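import Pool.Agent.Lib.MP_75a307_lc.LE.MoS3
import Pool.Agent.Lib.MP_75a307_lc.LE.MoV

/-! One step of the collapsed hull. -/

set_option synthInstance.maxSize 100000
set_option linter.unusedVariables false
set_option linter.unusedSectionVars false

namespace Pool.Agent.Lib.MP_75a307_lc.LE

open Pool.Agent.Lib.MP_1d770b_lc

universe u
variable {M : Type u} {E : M → M → Prop} [hZ : ZF E]

section MoS4
variable {K θ S Y G Z κ l H H1 G1 : M}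

/-- `y` has the same preimage under both maps -/
def mos4T (E : M → M → Prop) (N N1 : M) (π π1 : M → M) (y : M) : Prop :=
  ∀ x, (E x N ∧ π x = y) ↔ (E x N1 ∧ π1 x = y)

theorem mos4_pr {N N1 B B1 a b : M} {π π1 : M → M} (n : EN E N π B) (n1 : EN E N1 π1 B1)
    (c : Clo E N) (c1 : Clo E N1) (ha : mos4T E N N1 π π1 a) (hb : mos4T E N N1 π π1 b) :
    mos4T E N N1 π π1 (pr E a b) := fun x => by
  refine ⟨fun ⟨hx, e⟩ => ?_, fun ⟨hx, e⟩ => ?_⟩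
  · obtain ⟨a', b', rfl, k1, k2, k3, k4⟩ := n.dec hx e
    obtain ⟨m1, m2⟩ := (ha a').1 ⟨k1, k3⟩
    obtain ⟨m3, m4⟩ := (hb b').1 ⟨k2, k4⟩
    exact ⟨c1.pr _ _ m1 m3, by rw [n1.pr (c1.pr _ _ m1 m3), m2, m4]⟩
  · obtain ⟨a', b', rfl, k1, k2, k3, k4⟩ := n1.dec hx e
    obtain ⟨m1, m2⟩ := (ha a').2 ⟨k1, k3⟩
    obtain ⟨m3, m4⟩ := (hb b').2 ⟨k2, k4⟩
    exact ⟨c.pr _ _ m1 m3, by rw [n.pr (c.pr _ _ m1 m3), m2, m4]⟩

theorem mos4_small (h : StH E K θ S Y G Z κ l) {y : M}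
    (r : (∀ z, E z y → Rk E z κ) ∨ E y (tup E l)) :
    mos4T E (colN E (hG E K Y G Z)) (colN E (hG E K Y (stG E K S G κ l) (stZ E K Y G Z l)))
      (unc E (hG E K Y G Z)) (unc E (hG E K Y (stG E K S G κ l) (stZ E K Y G Z l))) y := fun x => by
  have a := hG_hl h.kg h.sk h.ok
  have a1 := hG_hl h.kg h.sk h.ok'
  have m := r.elim h.low h.tup'
  refine ⟨fun ⟨hx, e⟩ => ?_, fun ⟨hx, e⟩ => ?_⟩
  · obtain ⟨k1, k2⟩ := a.col_unc hx
    rw [e] at k1 k2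
    rw [← k2, ← h.colEq k1 r]
    exact a1.unc_col (m.2 k1)
  · obtain ⟨k1, k2⟩ := a1.col_unc hx
    rw [e] at k1 k2
    rw [← k2, h.colEq (m.1 k1) r]
    exact a.unc_col (m.1 k1)

/-- transfer of the entries of a sequence below `(κ, l)` -/
theorem mos4_at {N N1 : M} {π π1 : M → M} {W : Set M} {A u v p : M} (t : Tr E W) (hA : A ∈ W)
    (s : Shape E W A) (hκ : Lim E κ) (hl : IsOrd E l)
    (T : ∀ y, ((∀ z, E z y → Rk E z κ) ∨ E y (tup E l)) → mos4T E N N1 π π1 y)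
    (P : ∀ a b, mos4T E N N1 π π1 a → mos4T E N N1 π π1 b → mos4T E N N1 π π1 (pr E a b))
    (k : At E A u v p) (hu : Le E u κ) (hv : E v l) :
    mos4T E N N1 π π1 u ∧ mos4T E N N1 π π1 v ∧ mos4T E N N1 π π1 p := by
  obtain ⟨w1, w2, w3⟩ := cmpA_at t hA k
  obtain ⟨-, -, -, a, X, h4, ⟨t1, -, h5, h6⟩, t2, -, h7, h8⟩ := s u w1 v w2 p w3 k
  obtain rfl := h5.eq
  obtain rfl := h7.eq
  refine ⟨T u (Or.inl fun z hz => hκ.1.rk (hu.sub hκ.1 z hz)), T v (Or.inr (sub_tup hv)), ?_⟩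
  rw [pr_eq.1 h4]
  exact P _ _ (T a (Or.inr
    (tup_mono (E := E) (l := v) (l' := l) (fun z hz => hl.tr hv hz) a h6)))
    (T X (Or.inl fun z hz => tup_rk hκ (hu.sub hκ.1) (h8 z hz)))

theorem mos4_le {N B u k : M} {π : M → M} (n : EN E N π B) (hu : E u N) (hk : E k N) :
    Le E (π u) (π k) ↔ Le E u k :=
  or_congr (n.mem_iff hu hk) ⟨n.inj hu hk, congrArg π⟩

theorem StH.step (h : StH E K θ S Y G Z κ l) (e1 : G1 = stG E K S G κ l) (e2 : H = hG E K Y G Z)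
    (e3 : H1 = hG E K Y G1 (stZ E K Y G Z l)) :
    Fix E (cl E (colN E H)) (cl E (colN E H1)) (fun x => col E H1 (fac E K G G1 (unc E H x)))
      (col E H κ) ∧ E (col E H l) (colN E H1) ∧
    (∀ u v p, Le E u (col E H κ) → (At E (col E H1 (jG E K G1 S)) u v p ↔
      At E (col E H (jG E K G S)) u v p ∧ E v (col E H l))) ∧
    ∀ a X, At E (col E H (jG E K G S)) (col E H κ) (col E H l) (pr E a X) ↔
      E a (tup E (col E H l)) ∧ E X (colN E H) ∧ Sub E X (tup E (col E H κ)) ∧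
        E a (col E H1 (fac E K G G1 (unc E H X))) := by
  have hC := h.kg.ac
  have g := h.ok.1
  obtain ⟨g1, s1, -, ol, lt, ca, U, -⟩ := h.sys
  have T : ∀ y, ((∀ z, E z y → Rk E z κ) ∨ E y (tup E l)) →
      mos4T E (colN E H) (colN E H1) (unc E H) (unc E H1) y := fun y r => by
    rw [e3, e2, e1]; exact mos4_small h r
  have into : ∀ y, E y H → E (fac E K G G1 y) H1 := fun y hy => by
    rw [e3, e1]; exact (h.into (e2 ▸ hy)).1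
  have a : Hl E H (jG E K G K) := e2 ▸ hG_hl h.kg h.sk h.ok
  have a1 : Hl E H1 (jG E K G1 K) := by rw [e3, e1]; exact hG_hl h.kg h.sk h.ok'
  have hS : E (jG E K G S) H := e2 ▸ h.hS
  have hκ : E κ H := e2 ▸ h.hκ
  have hl : E l H := e2 ▸ h.hl
  rw [← e1] at g1 s1 U
  clear e1 e2 e3
  have e := g.el hC
  have e' := g1.el hC
  have fS : fac E K G G1 (jG E K G S) = jG E K G1 S := (g.fac hC g1 s1).2.1 S
  have hS1 : E (jG E K G1 S) H1 := fS ▸ into _ hS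
  have n := a.en
  have n1 := a1.en
  obtain ⟨mS, uS⟩ := a.unc_col hS
  obtain ⟨mS1, uS1⟩ := a1.unc_col hS1
  obtain ⟨mκ, uκ⟩ := a.unc_col hκ
  obtain ⟨ml, ul⟩ := a.unc_col hl
  have c := (h.kg.img e n mS uS).1
  have c1 := (h.kg.img e' n1 mS1 uS1).1
  have oκ := U.lim.1
  obtain ⟨mκ1, uκ1⟩ := (T κ (Or.inl fun z hz => oκ.rk hz) _).1 ⟨mκ, uκ⟩
  have inW : ∀ x, E x (colN E H) → unc E H x ∈ Wm E K G := fun x hx =>
    e.trans _ (e.maps K) _ (n.maps x hx)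
  have sh : Shape E (Wm E K G) (jG E K G S) := (cmpA_img hC h.kg.coh e).shape
  have tra := fun u v p => mos4_at (u := u) (v := v) (p := p) e.trans (e.maps S) sh U.lim ol T
    fun _ _ => mos4_pr n n1 c c1
  have coh := U.coh _ (e.maps S) sh ca
  rw [fS] at coh
  have tl : unc E H (tup E (col E H l)) = tup E l := by rw [n.tup ml (c.tup _ ml), ul]
  have tκ : unc E H (tup E (col E H κ)) = tup E κ := by rw [n.tup mκ (c.tup _ mκ), uκ]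
  have im : ∀ b X, E b (colN E H) → E X (colN E H) → E (unc E H b) (tup E l) →
      (E b (col E H1 (fac E K G G1 (unc E H X))) ↔ E (unc E H b) (fac E K G G1 (unc E H X))) :=
    fun b X hb hX k => by
      obtain ⟨k1, k2⟩ := (T _ (Or.inr k) b).1 ⟨hb, rfl⟩
      obtain ⟨k3, k4⟩ := a1.unc_col (into _ (a.col_unc hX).1)
      rw [← n1.mem_iff k1 k3, k2, k4]
  refine ⟨⟨fun x hx r => ?_, fun x r => ⟨fun hx => ?_, fun hx => ?_⟩⟩, ?_,
    fun u v p hu => ⟨fun k => ?_, fun ⟨k, hv⟩ => ?_⟩, fun b X => ⟨fun k => ?_, ?_⟩⟩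
  · have r' : Rk E (unc E H x) κ := uκ ▸ (n.rk hx mκ).2 r
    obtain ⟨k1, k2⟩ := (T _ (Or.inl fun z hz => r'.mem hz) x).1 ⟨hx, rfl⟩
    show col E H1 (fac E K G G1 (unc E H x)) = x
    rw [U.fixV.1 _ (inW x hx) r', ← k2]
    exact (a1.col_unc k1).2
  · have r' := (n.tr2 (fun _ x k => ∀ z, E z x → Rk E z k) hx mκ).1 r
    rw [uκ] at r'
    exact ((T _ (Or.inl r') x).1 ⟨hx, rfl⟩).1
  · have r' := (n1.tr2 (fun _ x k => ∀ z, E z x → Rk E z k) hx mκ1).1 r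
    rw [uκ1] at r'
    exact ((T _ (Or.inl r') x).2 ⟨hx, rfl⟩).1
  · obtain ⟨k3, k4⟩ := a1.unc_col (into _ hκ)
    have o1 : IsOrd E (col E H l) := (n.ord ml).1 (ul.symm ▸ ol)
    have o2 : IsOrd E (col E H1 (fac E K G G1 κ)) := (n1.ord k3).1 (k4.symm ▸ U.el.ord oκ)
    have sb : Sub E (col E H l) (col E H1 (fac E K G G1 κ)) := fun z hz => by
      have z1 := n.tr _ _ ml hz
      have z2 : E (unc E H z) l := ul ▸ (n.mem_iff z1 ml).2 hz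
      have := (im z _ z1 mκ (sub_tup z2)).2 (by rw [uκ]; exact U.len _ z2)
      rwa [uκ] at this
    rcases o1.le_of_sub o2 sb with k | k
    · exact n1.tr _ _ k3 k
    · exact k ▸ k3
  · obtain ⟨k1, k2, k3, k4⟩ := (n1.at mS1).2 k
    rw [uS1] at k4
    have le : Le E (unc E H1 u) κ := uκ1 ▸ (mos4_le n1 k1 mκ1).2 hu
    obtain ⟨k5, k6⟩ := (coh _ _ _ le).1 k4
    obtain ⟨t1, t2, t3⟩ := tra _ _ _ k5 le k6
    obtain ⟨m1, m2⟩ := (t1 u).2 ⟨k1, rfl⟩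
    obtain ⟨m3, m4⟩ := (t2 v).2 ⟨k2, rfl⟩
    obtain ⟨m5, m6⟩ := (t3 p).2 ⟨k3, rfl⟩
    refine ⟨(n.at mS).1 ⟨m1, m3, m5, by rw [uS, m2, m4, m6]; exact k5⟩, (n.mem_iff m3 ml).1 ?_⟩
    rw [m4, ul]; exact k6
  · obtain ⟨k1, k2, k3, k4⟩ := (n.at mS).2 k
    rw [uS] at k4
    have le : Le E (unc E H u) κ := uκ ▸ (mos4_le n k1 mκ).2 hu
    have k6 : E (unc E H v) l := ul ▸ (n.mem_iff k2 ml).2 hv
    obtain ⟨t1, t2, t3⟩ := tra _ _ _ k4 le k6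
    obtain ⟨m1, m2⟩ := (t1 u).1 ⟨k1, rfl⟩
    obtain ⟨m3, m4⟩ := (t2 v).1 ⟨k2, rfl⟩
    obtain ⟨m5, m6⟩ := (t3 p).1 ⟨k3, rfl⟩
    exact (n1.at mS1).1 ⟨m1, m3, m5, by rw [uS1, m2, m4, m6]; exact (coh _ _ _ le).2 ⟨k4, k6⟩⟩
  · obtain ⟨-, -, k3, k4⟩ := (n.at mS).2 k
    obtain ⟨hb, hX⟩ := n.prm k3
    rw [uS, uκ, ul, n.pr k3] at k4
    obtain ⟨q1, -, q3, q4⟩ := (U.mem _ _).1 (app_iff.2 ((mem_slc _ _ _ _).2 k4))
    refine ⟨(n.mem_iff hb (c.tup _ ml)).1 (tl.symm ▸ q1), hX,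
      (n.tr2 (fun _ x y => Sub E x y) hX (c.tup _ mκ)).2 (tκ.symm ▸ q3), (im b X hb hX q1).2 q4⟩
  · rintro ⟨q1, hX, q3, q4⟩
    have hb := n.tr _ _ (c.tup _ ml) q1
    have q1' : E (unc E H b) (tup E l) := tl ▸ (n.mem_iff hb (c.tup _ ml)).2 q1
    have q3' : Sub E (unc E H X) (tup E κ) :=
      tκ ▸ (n.tr2 (fun _ x y => Sub E x y) hX (c.tup _ mκ)).1 q3
    have k3 := c.pr _ _ hb hX
    refine (n.at mS).1 ⟨mκ, ml, k3, ?_⟩
    rw [uS, uκ, ul, n.pr k3]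
    exact (mem_slc _ _ _ _).1 (app_iff.1 ((U.mem _ _).2 ⟨q1', inW X hX, q3', (im b X hb hX q1').1 q4⟩))

end MoS4

end Pool.Agent.Lib.MP_75a307_lc.LE
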