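import Pool.Agent.Lib.MP_75a307_lc.LE.MaxM
import Pool.Agent.Lib.MP_75a307_lc.LE.Uniq

/-! In `L[S]` no extender of `S` overlaps a critical point. -/

set_option synthInstance.maxSize 100000
set_option linter.unusedVariables false
set_option linter.unusedSectionVars false

namespace Pool.Agent.Lib.MP_75a307_lc.LE

open Pool.Agent.Lib.MP_1d770b_lc

universe u
variable {M : Type u} {E : M → M → Prop} [hZ : ZF E]

/-- below the critical point of a short extender the lengths of `S` at `u` are bounded -/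
def NoOvO1 (E : M → M → Prop) (W : Set M) (S : M) : Prop :=
  ∀ κ ∈ W, ∀ l ∈ W, ∀ F ∈ W, IsSuc E l κ → Ext1 E W κ l F →
    ∀ u, E u κ → ∃ v, E v κ ∧ E u v ∧ ¬ Dom E S u v

instance (i : ℕ) : UR.{u} fun _ E W v => NoOvO1 E W (v i) := by unfold NoOvO1; infer_instance

section
variable {i : M → M} {W : Set M} {S κ u a b c p : M}

theorem noOv_lt (x : cmpAImg E W S) (t : Tr E W) (k : Dom E S a b) : E a b :=
  let ⟨p, k⟩ := k
  have m := cmpA_at t x.mem k
  (x.shape a m.1 b m.2.1 p m.2.2 k).2.2.1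

theorem noOv_up (hC : Choice E) (hS : Coh1 E Set.univ S) (e : ElEmb E i W κ) (hu : E u κ)
    (d : Dom E S u c) : Dom E (i S) u c := by
  have x : cmpAImg E Set.univ S := cmpA_img hC hS el_id
  have k := (e.el.tr3 (fun _ S u c => Dom E S u c) S u c).1 d
  rw [e.fix u hu] at k
  rcases e.el.le_map (x.lim _ _ d).2 with m | m
  · exact (cmpA_img hC hS e.el).down _ _ _ k m (noOv_lt x tr_univ d)
  · rwa [← m] at k

theorem noOv_low (hC : Choice E) (hS : Coh1 E Set.univ S) (e : ElEmb E i W κ) (hu : E u κ)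
    (d : Dom E S u c) (ha : E a u) : At E (i S) a b p ↔ At E S a b p := by
  have x : cmpAImg E Set.univ S := cmpA_img hC hS el_id
  have y := cmpA_img hC hS e.el
  have hl := e.ia.lim
  have ha' := e.ord.tr hu ha
  have key : E b κ → Rk E p κ → (At E (i S) a b p ↔ At E S a b p) := fun hv r => by
    have := e.el.tr4 (fun _ A u v p => At E A u v p) S a b p
    rw [e.fix a ha', e.fix b hv, e.fixV r] at this
    exact this.symm
  refine ⟨fun k => ?_, fun k => ?_⟩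
  · have hv := e.ord.tr hu (y.nov _ _ _ _ ⟨p, k⟩ (noOv_up hC hS e hu d) ha)
    exact (key hv (y.rk _ _ _ _ k hl ha' hv)).1 k
  · have hv := e.ord.tr hu (x.nov _ _ _ _ ⟨p, k⟩ d ha)
    exact (key hv (x.rk _ _ _ _ k hl ha' hv)).2 k

theorem noOv_dom (hC : Choice E) (hS : Coh1 E Set.univ S) (hV : ∀ x, x ∈ LK E S)
    (e : ElEmb E i W κ) (hu : E u κ) {c0 : M} (d0 : Dom E S u c0) (d : Dom E (i S) u c) :
    ∀ p, At E (i S) u c p ↔ At E S u c p := by
  have x : cmpAImg E Set.univ S := cmpA_img hC hS el_id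
  have y := cmpA_img hC hS e.el
  have I := e.el.inn hC
  refine ord_ind (fun c => Dom E (i S) u c → ∀ p, At E (i S) u c p ↔ At E S u c p)
    (fun c ho ih d p => ?_) c (y.lim _ _ d).2 d
  have lu := (y.lim _ _ d).1
  have lt := noOv_lt y I.tr d
  obtain ⟨G, gW, g1, g2, g3⟩ := ((e.el.tr1 (fun W S => Coh1 E W S) S).1 hS).2.2.2 u
    (I.ord lu.1) c (I.ord ho) d
  obtain ⟨k, W', U⟩ := g2.lift I gW
  have iu := e.fix u hu
  have J : ElEmb E (fun x => k (i x)) W' u := (e.el.comp U.el).emb lu.1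
    (fun α m => by rw [e.fix α (e.ord.tr hu m), U.fix α m])
    (fun m => no1 (a := u) (by
      have := U.len u lt
      rw [iu] at m
      rwa [m] at this))
  have fx : ∀ X, Sub E X (tup E u) → i X = X := fun X m =>
    e.fixV (Rk.intro e.ord hu fun z hz => tup_rk lu (fun _ => id) (m z hz))
  have hG : ∀ p, E p G ↔ ∃ a X, IsOPair E p a X ∧ E a (tup E c) ∧ Sub E X (tup E u) ∧
      E a (k (i X)) := fun p => by
    constructor
    · intro m
      obtain ⟨-, -, -, t, -, t', -, -, -, t3, -⟩ := g2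
      obtain ⟨a, X, k1, -, -⟩ := t3 p m
      obtain ⟨n1, -, n3, n4⟩ := (U.mem a X).1 ⟨p, k1, m⟩
      exact ⟨a, X, k1, n1, n3, by rwa [fx X n3]⟩
    · rintro ⟨a, X, k1, n1, n3, n4⟩
      rw [fx X n3] at n4
      exact ((U.mem a X).2 ⟨n1, fx X n3 ▸ e.maps X, n3, n4⟩).mem k1
  have len : Sub E c (k (i u)) := by rw [iu]; exact U.len
  have ih' : ∀ v q, E v c → (At E (i S) u v q ↔ At E S u v q) := fun v q m => by
    by_cases n : E u v
    · exact ih v m (y.down _ _ _ d m n) q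
    · exact iff_of_false (fun o => n (noOv_lt y I.tr ⟨q, o⟩)) fun o => n (noOv_lt x tr_univ ⟨q, o⟩)
  have k1 := ext1_der hC J ho lt len hG
  have k2 : CohAt E Set.univ S u c G := cohAt_der hC J ho lt len hG
    (fun a b m n => x.nov _ _ _ _ n d0 m) fun a b q m =>
      (U.coh _ y.mem y.shape g3 a b q m).trans (and_congr_left fun n => by
        rcases m with m | rfl
        exacts [noOv_low hC hS e hu d0 m, ih' b q n])
  have dS := m1 hC hS hV u trivial c trivial G trivial (fun v m n =>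
    let ⟨q, o⟩ := y.down _ _ _ d m n
    ⟨q, (ih' v q m).1 o⟩) k1 k2
  exact (g1 p).symm.trans (u1 hC hS hV u trivial c trivial G trivial dS k1 k2 p)

theorem noOv_same (hC : Choice E) (hS : Coh1 E Set.univ S) (hV : ∀ x, x ∈ LK E S)
    (e : ElEmb E i W κ) (hu : E u κ) (d0 : Dom E S u c) (ha : Le E a u) :
    At E (i S) a b p ↔ At E S a b p := by
  rcases ha with ha | rfl
  · exact noOv_low hC hS e hu d0 ha
  · exact ⟨fun k => (noOv_dom hC hS hV e hu d0 ⟨p, k⟩ p).1 k,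
      fun k => (noOv_dom hC hS hV e hu d0 (noOv_up hC hS e hu ⟨p, k⟩) p).2 k⟩

end

theorem noOv_min {φ : Fm} (hC : Choice E) {S : M} (hS : Coh1 E Set.univ S)
    (hV : ∀ x, x ∈ LK E S) (hm : Min E Set.univ φ S) : NoOvO1 E Set.univ S := by
  intro κ _ l _ F _ d e w hw
  by_contra n
  obtain ⟨κ, oκ, ⟨l, F, d, e, w, hw, n⟩, mn⟩ := ord_min (fun κ => ∃ l F, IsSuc E l κ ∧
    Ext1 E Set.univ κ l F ∧ ∃ w, E w κ ∧ ¬ ∃ v, E v κ ∧ E w v ∧ ¬ Dom E S w v) e.1
    ⟨l, F, d, e, w, hw, n⟩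
  have ov : ∀ v, E v κ → E w v → Dom E S w v := fun v a b => by_contra fun c => n ⟨v, a, b, c⟩
  have lt := e.2.2.1
  have ow := oκ.mem hw
  obtain ⟨θ, hθ, r1, r2, -⟩ := ex_lim (E := E) S κ κ
  obtain ⟨K, hK⟩ := ex_V hθ.1
  obtain ⟨G, g, e1, e2⟩ := sys_base hC (fun a b ha hb => (hK _).2
    (hθ.opair ((hK a).1 ha) ((hK b).1 hb) (pr_spec a b))) ⟨S, (hK S).2 r1⟩
  obtain ⟨g', s, -, u⟩ := step_spec (κ := κ) (l := l) (F := F) hC hθ hK g (e2 ▸ trivial) (e2 ▸ e)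
    (e1 ▸ (hK κ).2 r2)
  have f := (g.fac hC g' s).2.1
  generalize step E K G (pr E κ l) F = G' at g' s u f
  rw [e1] at f
  rw [e2] at u
  have el := g'.el hC
  have mv : E κ (jG E K G' κ) := f κ ▸ u.len κ lt
  have em : ElEmb E (jG E K G') (Wm E K G') κ := el.emb oκ
    (fun α m => (f α).symm.trans (u.fix α m)) fun m => no1 (a := κ) (by rwa [m] at mv)
  have i : cmpAImg E Set.univ S := cmpA_img hC hS el_id
  have i' := cmpA_img hC hS el
  obtain ⟨c, c1, c2⟩ := u.lim.2 w hw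
  have d0 := ov c c1 c2
  have sm : ∀ {a b p}, Le E a w → (At E (jG E K G' S) a b p ↔ At E S a b p) :=
    noOv_same hC hS hV em hw d0
  obtain ⟨o, oo, ⟨o1, o2⟩, o3⟩ := ord_min (fun o => E w o ∧ ¬ Dom E S w o) hθ.1
    ⟨hθ.1.tr (r2.ord_mem oκ) hw, fun ⟨p, q, ⟨s, t, _, ht, hp⟩, h2⟩ => no1
      ((((r1.app h2).1.mem ((hp t).2 (Or.inr rfl))).mem ((ht θ).2 (Or.inr rfl))).ord_mem hθ.1)⟩
  have dS : ∀ v, E v o → E w v → Dom E S w v := fun v a b => by_contra fun c => o3 v a ⟨b, c⟩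
  have bw : ∀ b, Dom E S w b → E b o := fun b k => by
    rcases (i.lim _ _ k).2.tri oo with t | rfl | t
    exacts [t, (o2 k).elim, (o2 (i.down _ _ _ k t o1)).elim]
  have ko : E κ o := by
    have t := (el.tr3 (fun _ κ w S => ∀ v, E v κ → E w v → Dom E S w v) κ w S).1 ov
    rw [em.fix w hw] at t
    obtain ⟨p, hp⟩ := t κ mv hw
    exact bw κ ⟨p, (sm (Or.inr rfl)).1 hp⟩
  obtain ⟨ξ, hξ, x1, x2⟩ := ex_next_lim oo
  have x3 := hξ.1.tr x1 ko
  have x4 := hξ.suc x3 d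
  have gap : ∀ a b, E a ξ → Dom E S a b ∨ Dom E (jG E K G' S) a b → Le E a w := fun a b ha k =>
    (k.elim (cmpA_gap i ow oo dS hξ x2) (cmpA_gap i' ow oo
      (fun v a b => noOv_up hC hS em hw (dS v a b)) hξ x2)).resolve_right fun m => m.not_lt ha
  have inv : Inv E K S G G' ξ := by
    refine ⟨g, g', hξ, ?_, ?_⟩ <;> rw [e1]
    · intro a b p k _ _
      have ha := k.resolve_right fun k => emp_spec _ k.2
      exact ⟨fun k => (sm (gap a b ha (Or.inl ⟨p, k⟩))).2 k,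
        fun k => (sm (gap a b ha (Or.inr ⟨p, k⟩))).1 k⟩
    · refine fun η hη => ⟨o, x1, fun a b ha k => ?_⟩
      rcases gap a b (hξ.1.tr hη ha) (Or.inl k) with m | rfl
      exacts [oo.tr o1 (i.nov _ _ _ _ k d0 m), bw b k]
  have FW : F ∈ Wm E K G' := (com hC hθ hK ((hK S).2 r1) hS hV hm inv F fun p hp => by
    obtain ⟨-, -, -, t, -, t', -, t1, t2, t3, -⟩ := e
    obtain ⟨a, X, k1, k2, k3⟩ := t3 p hp
    rw [t1.eq] at k3
    rw [t2.eq] at k2
    exact hξ.opair (tup_rk hξ (fun z hz => hξ.1.tr x4 hz) k2)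
      (Rk.intro hξ.1 x3 fun z hz => tup_rk u.lim (fun _ => id) (k3 z hz)) k1).1 (e2 ▸ trivial)
  have I := g'.inn hC
  obtain ⟨v, v1, v2, v3⟩ := (el.tr2 (fun W S κ => ∀ a, E a κ → ∀ l ∈ W, ∀ F ∈ W, IsSuc E l a →
    Ext1 E W a l F → ∀ w, E w a → ∃ v, E v a ∧ E w v ∧ ¬ Dom E S w v) S κ).1
    (fun a ha l _ F _ h1 h2 w h3 => by_contra fun m => mn a ha ⟨l, F, h1, h2, w, h3, m⟩) κ
    mv l (I.ord e.2.1) F FW d
    (e.down hC I FW fun p => ⟨fun k => ⟨k, I.tr _ FW p k⟩, fun k => k.1⟩) w hw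
  exact v3 (noOv_up hC hS em hw (ov v v1 v2))

theorem noOv_o1 (hC : Choice E) {S : M} (hS : Coh1 E Set.univ S) (hV : ∀ x, x ∈ LK E S) :
    NoOvO1 E Set.univ S := by
  obtain ⟨φ, hφ⟩ := (inferInstance : UR.{u} fun _ E W v => ¬ NoOvO1 E W (v 0)).out
  by_contra k
  refine no_min φ (fun N E' z hC' S' hS' hV' hm => ?_) hC hS hV ((satW_univ φ _).1
    ((hφ M E hZ _ good_univ tr_univ (fun _ => S) fun _ => trivial).2 k))
  exact (hφ N E' z _ good_univ tr_univ (fun _ => S') fun _ => trivial).1 hm.1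
    (noOv_min hC' hS' hV' hm)

theorem noOv (hC : Choice E) {S κ u : M} {j : M → M} {W : Set M} (hS : Coh1 E Set.univ S)
    (hV : ∀ x, x ∈ LK E S) (h : ElEmb E j W κ) (hu : E u κ) :
    ∃ ζ, E ζ κ ∧ ∀ v, Dom E S u v → E v ζ := by
  have := h.el.fj
  obtain ⟨l, hl⟩ := ex_suc E κ
  obtain ⟨q, hq⟩ := ex_pow E (tup E κ)
  obtain ⟨F, hF, -⟩ := ex_rel E (tup E l) q fun a X => E a (j X)
  have jo := h.el.ord h.ord
  have k1 : Ext1 E Set.univ κ l F := ext1_der hC h (hl.ord h.ord) hl.self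
    (fun z hz => Le.lt ((hl z).1 hz) jo h.lt) fun p => (hF p).trans
      ⟨fun ⟨a, X, h1, h2, h3, h4⟩ => ⟨a, X, h3, h1, (hq X).1 h2, h4⟩,
        fun ⟨a, X, h3, h1, h2, h4⟩ => ⟨a, X, h1, (hq X).2 h2, h3, h4⟩⟩
  obtain ⟨v, v1, v2, v3⟩ := noOv_o1 hC hS hV κ trivial l trivial F trivial hl k1 u hu
  have i : cmpAImg E Set.univ S := cmpA_img hC hS el_id
  refine ⟨v, v1, fun b k => ?_⟩
  rcases (i.lim _ _ k).2.tri (h.ord.mem v1) with t | rfl | t
  exacts [t, (v3 k).elim, (v3 (i.down _ _ _ k t v2)).elim]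

end Pool.Agent.Lib.MP_75a307_lc.LE
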