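import Pool.Agent.Lib.MP_75a307_lc.LE.BrB

/-! Pulling an extender back along a map of its generators. -/

set_option synthInstance.maxSize 100000
set_option linter.unusedVariables false
set_option linter.unusedSectionVars false

namespace Pool.Agent.Lib.MP_75a307_lc.LE

open Pool.Agent.Lib.MP_1d770b_lc

universe u
variable {M : Type u} {E : M → M → Prop} [hZ : ZF E]

structure PullMap (E : M → M → Prop) [ZF E] (π : M → M) (κ l l' F F' : M) : Prop where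
  dπ : D2 E fun x y => π x = y
  ord : IsOrd E l'
  lt : E κ l'
  maps : ∀ a, E a l' → E (π a) l
  mono : ∀ a b, E a l' → E b a → E (π b) (π a)
  fix : ∀ a, Le E a κ → π a = a
  pair : ∀ a b, E a (tup E l') → E b (tup E l') → π (pr E a b) = pr E (π a) (π b)
  clos : ∀ c f b, E c (tup E l') → Rel E (tup E κ) f → Fn E f → E b l → At E F (π c) b f →
    ∃ b', E b' l' ∧ π b' = b
  mem : ∀ p, E p F' ↔ ∃ a X, IsOPair E p a X ∧ E a (tup E l') ∧ App E F (π a) X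

variable {π : M → M} {κ l l' F F' S S' : M}

theorem pull_rel {K R s t : M} (h : Rel E K R) (k : App E R s t) : E s K ∧ E t K := by
  obtain ⟨p, h1, h2⟩ := k
  obtain ⟨s', t', h3, h4, h5⟩ := h p h2
  obtain ⟨rfl, rfl⟩ := h1.inj h3
  exact ⟨h4, h5⟩

theorem pull_at {a b R : M} : At E F a b R ↔ App E F (pr E a b) R := at_iff.trans app_iff.symm

theorem PullMap.tup (p : PullMap E π κ l l' F F') (hl : IsOrd E l) :
    ∀ a, E a (tup E l') → E (π a) (tup E l) := by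
  have := f1 p.dπ
  exact tup_ind l' (fun a => E (π a) (LE.tup E l)) (fun a ha => sub_tup (p.maps a ha))
    fun a b ha hb h1 h2 => by rw [p.pair a b ha hb]; exact (tup_pr hl).2 ⟨h1, h2⟩

theorem PullMap.app (p : PullMap E π κ l l' F F') {a X : M} :
    App E F' a X ↔ E a (LE.tup E l') ∧ App E F (π a) X := by
  rw [app_iff, p.mem]
  constructor
  · rintro ⟨a', X', h1, h2⟩
    obtain ⟨rfl, rfl⟩ := (pr_spec a X).inj h1
    exact h2
  · exact fun h => ⟨a, X, pr_spec a X, h⟩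

theorem PullMap.at (p : PullMap E π κ l l' F F') {a b R : M} (ha : E a (LE.tup E l'))
    (hb : E b (LE.tup E l')) : At E F' a b R ↔ At E F (π a) (π b) R := by
  rw [pull_at, pull_at, p.app, p.pair a b ha hb]
  exact and_iff_right ((tup_pr p.ord).2 ⟨ha, hb⟩)

theorem PullMap.aa (p : PullMap E π κ l l' F F') {K a b : M} {P : M → M → Prop}
    (ha : E a (LE.tup E l')) (hb : E b (LE.tup E l')) (h : Aa E Set.univ F K (π a) (π b) P) :
    Aa E Set.univ F' K a b P := fun R hR k1 k2 => (p.at ha hb).2 (h R hR k1 k2)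

theorem PullMap.ae (p : PullMap E π κ l l' F F') {K a b : M} {P : M → M → Prop}
    (ha : E a (LE.tup E l')) (hb : E b (LE.tup E l')) (h : Ae E Set.univ F' K a b P) :
    Ae E Set.univ F K (π a) (π b) P :=
  let ⟨R, hR, k1, k2, k3⟩ := h; ⟨R, hR, k1, (p.at ha hb).1 k2, k3⟩

theorem PullMap.cc (p : PullMap E π κ l l' F F') (hl : IsOrd E l) {K : M}
    (h : CC E Set.univ (BinF E F K (LE.tup E l))) : CC E Set.univ (BinF E F' K (LE.tup E l')) := by
  intro H _ hc hH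
  have := f1 p.dπ
  obtain ⟨H', hH'⟩ := repl E H (fun x y => y =
    pr E (π (p1 E x)) (pr E (π (p1 E (p2 E x))) (p2 E (p2 E x))))
    fun x y y' _ k1 k2 => k1.trans k2.symm
  obtain ⟨σ, -, hσ⟩ := h H' trivial (hc.img (fun x y => y =
    pr E (π (p1 E x)) (pr E (π (p1 E (p2 E x))) (p2 E (p2 E x))))
    (fun x y y' _ k1 k2 => k1.trans k2.symm) fun y hy => (hH' y).1 hy) fun t ht => by
      obtain ⟨x, hx, rfl⟩ := (hH' t).1 ht
      obtain ⟨a, q, h1, b, R, h2, h3, h4, h5, h6⟩ := hH x hx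
      obtain rfl := pr_eq.1 h1
      obtain rfl := pr_eq.1 h2
      simp only [p1_pr, p2_pr]
      exact ⟨_, _, pr_spec _ _, _, _, pr_spec _ _, p.tup hl a h3, p.tup hl b h4, h5,
        (p.at h3 h4).1 h6⟩
  obtain ⟨k1, k2⟩ := thr_iff.1 hσ
  obtain ⟨σ', -, h'⟩ := ex_fun E (LE.tup E l') (fun a s => App E σ (π a) s)
    fun x y y' _ => k1 _ y y'
  refine ⟨σ', trivial, thr_iff.2 ⟨fun i a b h1 h2 => k1 _ a b ((h' _ _).1 h1).2 ((h' _ _).1 h2).2,
    fun a b R h0 => ?_⟩⟩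
  obtain ⟨a', q, h1, b', R', h2, h3, h4, -⟩ := hH _ (tr3_iff.1 h0)
  obtain ⟨rfl, rfl⟩ := (pr_spec _ _).inj h1
  obtain ⟨rfl, rfl⟩ := (pr_spec _ _).inj h2
  obtain ⟨s, a1, u, a2, a3⟩ := k2 (π a) (π b) R (tr3_iff.2 ((hH' _).2
    ⟨_, tr3_iff.1 h0, by simp only [p1_pr, p2_pr]⟩))
  exact ⟨s, (h' _ _).2 ⟨h3, a1⟩, u, (h' _ _).2 ⟨h4, a2⟩, a3⟩

theorem Ext1.pull (hC : Choice E) (h : Ext1 E Set.univ κ l F) (p : PullMap E π κ l l' F F') :
    Ext1 E Set.univ κ l' F' := by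
  obtain ⟨oκ, ol, -, K, -, N, -, hK, hN, hF, hU, hc, n1, n2, n3, n4, n5⟩ := h
  obtain rfl := hK.eq
  obtain rfl := hN.eq
  have T := p.tup ol
  refine ⟨oκ, p.ord, p.lt, _, trivial, _, trivial, hK, tup_spec l', fun q hq => ?_,
    fun a ha b hb R _ R' _ r r' k => ?_, p.cc ol hc, fun q hq a b e => ?_, fun a ha => ?_,
    fun a ha c hc f _ r fn k => ?_, fun a ha => ?_, fun a ha X _ hX => ?_⟩
  · obtain ⟨a, X, h1, h2, h3⟩ := (p.mem q).1 hq
    obtain ⟨a', X', h4, -, h5⟩ := hF _ (app_iff.1 h3)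
    obtain ⟨-, rfl⟩ := (pr_spec _ _).inj h4
    exact ⟨a, X, h1, h2, h5⟩
  · exact (hU _ (T a ha) _ (T b hb) R trivial R' trivial r r' k).imp
      (fun k => ⟨ha, hb, r, (p.at ha hb).2 k.2.2.2⟩) fun k => ⟨ha, hb, r', (p.at ha hb).2 k.2.2.2⟩
  · obtain rfl := pr_eq.1 e
    obtain ⟨ha, hb⟩ := (tup_pr p.ord).1 hq
    have k := n1 _ (T _ hq) (π a) (π b) (pr_eq.2 (p.pair a b ha hb))
    exact ⟨p.aa hq ha k.1, p.aa hq hb k.2⟩
  · have k := n2 _ (p.maps a ha)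
    exact ⟨p.aa (sub_tup ha) (sub_tup ha) k.1, fun b hb =>
      p.aa (sub_tup (p.ord.tr ha hb)) (sub_tup ha) (k.2 _ (p.mono a b ha hb))⟩
  · obtain ⟨b, hb, k'⟩ := n3 _ (p.maps a ha) _ (T c hc) f trivial r fn (p.ae hc (sub_tup ha) k)
    obtain ⟨b', hb', rfl⟩ := p.clos c f b hc r fn (ol.tr (p.maps a ha) hb)
      (k' f trivial r fun _ _ _ _ e => e)
    refine ⟨b', ?_, p.aa hc (sub_tup hb') k'⟩
    rcases p.ord.2 b' a hb' ha with e | rfl | e
    · exact e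
    · exact (no1 hb).elim
    · exact (no2 hb (p.mono b' a hb' e)).elim
  · have m := sub_tup (p.ord.tr p.lt ha)
    exact p.aa m m (by rw [p.fix a (Or.inl ha)]; exact n4 a ha)
  · have k := n5 _ (T a ha) X trivial hX
    exact ⟨fun e => p.aa ha ha (k.1 (p.app.1 e).2), fun e => p.app.2 ⟨ha, k.2 (p.ae ha ha e)⟩⟩

theorem pull_px (hκ : IsOrd E κ) (o : ∀ u v p, At E S u v p → IsOrd E u)
    (h1 : ∀ u v p, E u κ → At E S u v p → At E S' u v p) {X q s : M} (hq : E q (tup E κ))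
    (k : PX E Set.univ S X q s) : PX E Set.univ S' X q s := by
  obtain ⟨u, v, e, r, -, a, k⟩ := k
  obtain rfl := pr_eq.1 e
  exact ⟨u, v, e, r, trivial, h1 u v r (tup_ord ((tup_pr hκ).1 hq).1 (o u v r a)) a, k⟩

theorem CohAt.pull (hC : Choice E) (h : Ext1 E Set.univ κ l F) (p : PullMap E π κ l l' F F')
    (o : ∀ u v p, At E S u v p → IsOrd E u) (o' : ∀ u v p, At E S' u v p → IsOrd E u)
    (h1 : ∀ u v p, E u κ → (At E S' u v p ↔ At E S u v p))
    (h2 : ∀ κ' v a X, Le E κ' κ → E v l' → E a (tup E l') → Sub E X (tup E κ) →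
      (At E S' κ' v (pr E a X) ↔ At E S κ' (π v) (pr E (π a) X)))
    (k : CohAt E Set.univ S κ l F) : CohAt E Set.univ S' κ l' F' := by
  obtain ⟨oκ, ol, -⟩ := h
  obtain ⟨c0, K, -, N, -, hK, hN, c1, c2⟩ := k
  obtain rfl := hK.eq
  obtain rfl := hN.eq
  have T := p.tup ol
  refine ⟨fun u hu v _ ⟨r, a⟩ => c0 u hu v trivial ⟨r, (h1 u v r hu).1 a⟩, _, trivial, _, trivial,
    hK, tup_spec l', fun q hq κ' v e hκ hv a ha X _ hX r _ e' => ?_,
    fun κ' _ hκ c hc f _ r fn k => ?_⟩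
  · obtain rfl := pr_eq.1 e
    obtain rfl := pr_eq.1 e'
    obtain ⟨m1, m2⟩ := (tup_pr p.ord).1 hq
    have hX' : Sub E X (tup E κ) := by
      obtain ⟨t, -, ht, hX⟩ := hX
      obtain rfl := ht.eq
      exact fun z hz => tup_mono (hκ.sub oκ) z (hX z hz)
    have k := c1 _ (T _ hq) κ' (π v) (by rw [p.pair _ _ m1 m2, p.fix κ' hκ]; exact pr_spec _ _) hκ
      (p.maps v hv) _ (T a ha) X trivial hX _ trivial (pr_spec _ _)
    have k' := h2 κ' v a X hκ hv ha hX'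
    refine ⟨fun e => p.aa hq ha fun R hR r k3 => k.1 (k'.1 e) R hR r fun s hs t ht k4 =>
      k3 s hs t ht (pull_px oκ o (fun u v r hu => (h1 u v r hu).2) hs k4), fun e => ?_⟩
    obtain ⟨R, hR, r, k3, k4⟩ := p.ae hq ha e
    exact k'.2 (k.2 ⟨R, hR, r, k3, fun s t k5 =>
      pull_px oκ o' (fun u v r hu => (h1 u v r hu).1) (pull_rel r k5).1 (k4 s t k5)⟩)
  · obtain ⟨R, hR, r', k3, k4⟩ := p.ae (sub_tup (hκ.lt p.ord p.lt)) hc k
    rw [p.fix κ' hκ] at k3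
    obtain ⟨b, hb, k'⟩ := c2 κ' trivial hκ _ (T c hc) f trivial r fn ⟨R, hR, r', k3, fun u s k5 => by
      obtain ⟨y, k6, z, k7⟩ := k4 u s k5
      exact ⟨y, k6, z, (h1 u y z (tup_ord (pull_rel r' k5).1 (o' u y z k7))).1 k7⟩⟩
    obtain ⟨b', hb', rfl⟩ := p.clos c f b hc r fn hb (k' f trivial r fun _ _ _ _ e => e)
    exact ⟨b', hb', p.aa hc (sub_tup hb') k'⟩

end Pool.Agent.Lib.MP_75a307_lc.LE
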