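import Pool.Agent.Lib.MP_75a307_lc.LE.Step
import Pool.Agent.Lib.MP_75a307_lc.LE.Lim

/-! Threads extend along one step of an iteration. -/

set_option synthInstance.maxSize 100000
set_option linter.unusedVariables false
set_option linter.unusedSectionVars false

namespace Pool.Agent.Lib.MP_75a307_lc.LE

open Pool.Agent.Lib.MP_1d770b_lc

universe u
variable {M : Type u} {E : M → M → Prop} [hZ : ZF E]

theorem rel_const (p : Prop) : RD E (Good E) fun _ _ => p := by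
  by_cases hp : p
  · exact ⟨.eq 0 0, fun _ _ _ v _ => by simp [SatW, hp]⟩
  · exact ⟨.neg (.eq 0 0), fun _ _ _ v _ => by simp [SatW, hp]⟩

/-- old seeds do not have the form of new seeds -/
theorem rel_old {G a : M} (h : E a (sN E G)) : ¬ ∃ s c, a = pr E G (pr E s c) := by
  rintro ⟨s, c, e⟩
  obtain ⟨b, R, q, -, p, ⟨x, x', hx, -, hp⟩, hG⟩ := (mem_sN G a).1 h
  obtain ⟨y, y', hy, -, ha⟩ := pr_eq.2 e
  obtain ⟨s1, h1⟩ := ex_upair E G y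
  obtain ⟨s2, h2⟩ := ex_ins E s1 a
  obtain ⟨s3, h3⟩ := ex_ins E s2 x
  obtain ⟨s4, h4⟩ := ex_ins E s3 p
  have m : ∀ z, E z s4 ↔ (((z = G ∨ z = y) ∨ z = a) ∨ z = x) ∨ z = p := fun z => by
    rw [h4, h3, h2, h1 z]
  obtain ⟨z, hz, k⟩ := found s4 p ((m p).2 (Or.inr rfl))
  rcases (m z).1 hz with (((r | r) | r) | r) | r <;> rw [r] at k
  · exact k p hG ((m _).2 (Or.inr rfl))
  · exact k G ((hy _).2 (Or.inl rfl)) ((m _).2 (Or.inl (Or.inl (Or.inl (Or.inl rfl)))))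
  · exact k y ((ha _).2 (Or.inl rfl)) ((m _).2 (Or.inl (Or.inl (Or.inl (Or.inr rfl)))))
  · exact k a ((hx _).2 (Or.inl rfl)) ((m _).2 (Or.inl (Or.inl (Or.inr rfl))))
  · exact k x ((hp _).2 (Or.inl rfl)) ((m _).2 (Or.inl (Or.inr rfl)))

/-- a property of two named elements of the ultrapower is carried by one triple -/
theorem rel_bin {K N G : M} {j : M → M} {W : Set M} {sd : M → M}
    (r : Real E K N (Tr3 E G) j W sd) (P : Set M → M → M → M → Prop)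
    (hP : ∀ i k n, RD E (Good E) fun W v => P W (v i) (v k) (v n)) {r1 r2 f1 f2 c x y : M}
    (h1 : E r1 N) (h2 : E r2 N) (g1 : Fn E f1) (g2 : Fn E f2) (a1 : App E (j f1) (sd r1) x)
    (a2 : App E (j f2) (sd r2) y) (k : P W (j c) x y) :
    ∃ t, E t G ∧ ∀ σ d, Thr E d σ → E t d → ∃ u, App E σ r2 u ∧ App E f2 u (ap E f2 (ap E σ r2)) ∧
      P Set.univ c (ap E f1 (ap E σ r1)) (ap E f2 (ap E σ r2)) := by
  have d3 : D3 E (P Set.univ) := ((hP 0 1 2).df good_univ).d3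
  obtain ⟨R, R1, R2⟩ := ex_rel E K K fun s u =>
    ∃ x, App E f1 s x ∧ ∃ y, App E f2 u y ∧ P Set.univ c x y
  have hR : Rel E K R := fun p hp =>
    let ⟨s, u, k1, k2, k3, _⟩ := (R1 p).1 hp; ⟨s, u, k3, k1, k2⟩
  have t := (r.el.tr5 (fun W R K f1 f2 c => ∀ s, E s K → ∀ u, E u K →
    (∃ x, App E f1 s x ∧ ∃ y, App E f2 u y ∧ P W c x y) → App E R s u) R K f1 f2 c).1
    (fun s hs u hu h => (R2 s u).2 ⟨hs, hu, h⟩) _ (r.mem _ h1) _ (r.mem _ h2) ⟨x, a1, y, a2, k⟩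
  refine ⟨_, tr3_iff.1 ((r.iff _ _ _ h1 h2 hR).2 t), fun σ d hd ht => ?_⟩
  obtain ⟨s, s1, u, u1, h⟩ := (thr_iff.1 hd).2 _ _ _ (tr3_iff.2 ht)
  obtain ⟨-, -, x', b1, y', b2, h⟩ := (R2 s u).1 h
  rw [ap_eq hd.1 s1, ap_eq hd.1 u1, ap_eq g1 b1, ap_eq g2 b2]
  exact ⟨u, u1, b2, h⟩

section
variable (E)

/-- the old seed below a seed -/
def RelB (G a s : M) : Prop :=
  (∃ c, a = pr E G (pr E s c)) ∨ ((¬ ∃ s c, a = pr E G (pr E s c)) ∧ s = a)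

abbrev RelE (p : Prop) (s u x : M) : Prop := (p ∧ IsOPair E x s u) ∨ (¬ p ∧ x = s)

/-- the value of the extended thread -/
def RelV (G σ a u x : M) : Prop :=
  (∃ s c y, a = pr E G (pr E s c) ∧ App E σ s y ∧ x = pr E y u) ∨
    ((¬ ∃ s c, a = pr E G (pr E s c)) ∧ App E σ a x)

/-- the realised index of a seed -/
noncomputable abbrev relC (nm σ a : M) : M :=
  p1 E (ap E (p2 E (ap E nm a)) (ap E σ (p1 E (ap E nm a))))

def RelX (G nm σ F K N a b R X : M) : Prop :=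
  BinF E F K N (relC E nm σ a) (relC E nm σ b) X ∧
    ∀ u v, App E X u v → ∃ x x', App E R x x' ∧ RelV E G σ a u x ∧ RelV E G σ b v x'

def RelQ (G nm s0 f0 σ t : M) : Prop :=
  ∀ a b R, t = pr E a (pr E b R) → ∃ F K N, ap E f0 (ap E σ s0) = pr E F (pr E K N) ∧
    CC E Set.univ (BinF E F K N) ∧ ∃ X, RelX E G nm σ F K N a b R X

def RelA (p p' : Prop) (W : Set M) (R w w' : M) : Prop :=
  ∃ c q, IsOPair E w c q ∧ ∃ y s, IsOPair E q y s ∧ ∃ F q1, IsOPair E y F q1 ∧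
    ∃ K N, IsOPair E q1 K N ∧ CC E W (BinF E F K N) ∧ ∃ c' q', IsOPair E w' c' q' ∧
      ∃ y' s', IsOPair E q' y' s' ∧ ∃ X ∈ W, BinF E F K N c c' X ∧ ∀ u v, App E X u v →
        ∃ x ∈ W, ∃ x', App E R x x' ∧ RelE E p s u x ∧ RelE E p' s' v x'

end

theorem relA_rd (p p' : Prop) (i k n : ℕ) :
    RD E (Good E) fun W v => RelA E p p' W (v i) (v k) (v n) := by
  have h1 := rel_const (E := E) p
  have h2 := rel_const (E := E) p'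
  unfold RelA CC BinF
  infer_instance

theorem rel_evs {K G a s : M} (h : RelB E G a s) (u : M) :
    RelE E (∃ s c, a = pr E G (pr E s c)) (sdG E K G s) u (evs E K G a u) := by
  rcases h with ⟨c, e⟩ | ⟨n, rfl⟩
  · refine Or.inl ⟨⟨s, c, e⟩, pr_eq.2 (the_eq (Or.inl ⟨s, c, e, rfl⟩) ?_)⟩
    rintro y (⟨s', c', e', rfl⟩ | ⟨n, -⟩)
    · rw [(pr_inj (pr_inj (e'.symm.trans e)).2).1]
    · exact (n ⟨s, c, e⟩).elim
  · refine Or.inr ⟨n, the_eq (Or.inr ⟨n, rfl⟩) ?_⟩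
    rintro y (⟨s', c', e', -⟩ | ⟨-, e⟩)
    · exact (n ⟨s', c', e'⟩).elim
    · exact e

theorem rel_val {G σ a s y u x : M} (h : RelB E G a s) (hs : App E σ s y)
    (k : RelE E (∃ s c, a = pr E G (pr E s c)) y u x) : RelV E G σ a u x := by
  rcases h with ⟨c, e⟩ | ⟨n, rfl⟩
  · exact Or.inl ⟨s, c, y, e, hs, pr_eq.1 (k.resolve_right fun r => r.1 ⟨s, c, e⟩).2⟩
  · exact Or.inr ⟨n, (k.resolve_left fun r => n r.1).2 ▸ hs⟩

/-- the finitely many triples that carry one new triple -/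
theorem rel_data {K G κ l F : M} (hC : Choice E) (h : Sys E K G) (hF : F ∈ Wm E K G)
    (k : Ext1 E (Wm E K G) κ l F) {N' : M} (hN : ∀ a, NewS E G l a → E a N') :
    ∃ nm s0 f0, ∀ t, E t (step E K G (pr E κ l) F) → ∃ d, Sub E d G ∧ Ctb E Set.univ d ∧
      ∀ σ, Thr E d σ → RelQ E G nm s0 f0 σ t := by
  obtain ⟨r, g⟩ := h.canon hC
  have I := h.inn hC
  obtain ⟨-, ol, -, K0, k0, N0, n0, tK, tN, sh, -, cc, -⟩ := k
  have y0 : pr E F (pr E K0 N0) ∈ Wm E K G := I.pr.2 ⟨hF, I.pr.2 ⟨k0, n0⟩⟩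
  obtain ⟨s0, f0, z1, z2, z3⟩ := g _ y0
  obtain ⟨nm, -, m1, m2, m3⟩ := ac hC N' fun a n => ∃ r f s, n = pr E r f ∧ E r (sN E G) ∧
    Fn E f ∧ E s (sN E G) ∧ ((∃ c, a = pr E G (pr E s c)) ∨
      ((¬ ∃ s c, a = pr E G (pr E s c)) ∧ s = a)) ∧ App E (jG E K G f) (sdG E K G r)
      (pr E (idx E G a) (pr E (pr E F (pr E K0 N0)) (sdG E K G s)))
  obtain ⟨ι, -, i1⟩ := ex_rel E K K fun s u => s = u
  have i2 : Fn E ι := fun s u u' a b => ((i1 _ _).1 a).2.2.symm.trans ((i1 _ _).1 b).2.2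
  have i3 := (r.el.tr2 (fun _ ι K => ∀ s, E s K → App E ι s s) ι K).1
    fun s hs => (i1 s s).2 ⟨hs, hs, rfl⟩
  have name : ∀ a, NewS E G l a → E (idx E G a) N0 → ∃ r f s, ap E nm a = pr E r f ∧
      E r (sN E G) ∧ Fn E f ∧ RelB E G a s ∧ App E (jG E K G f) (sdG E K G r)
        (pr E (idx E G a) (pr E (pr E F (pr E K0 N0)) (sdG E K G s))) ∧
      ∃ t, E t G ∧ ∀ σ d, Thr E d σ → E t d → ∃ c y u, App E σ s u ∧
        ap E f (ap E σ r) = pr E c (pr E y u) := by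
    intro a ha hc
    obtain ⟨s, s1, s2⟩ : ∃ s, E s (sN E G) ∧ RelB E G a s := by
      rcases ha with ha | ⟨s, c, s1, -, e⟩
      · exact ⟨a, ha, Or.inr ⟨rel_old ha, rfl⟩⟩
      · exact ⟨s, s1, Or.inl ⟨c, e⟩⟩
    obtain ⟨ρ, f, b1, b2, b3⟩ := g _ (I.pr.2 ⟨I.tr _ n0 _ hc, I.pr.2 ⟨y0,
      I.tr _ (r.el.maps K) _ (r.mem s s1)⟩⟩)
    obtain ⟨n, hn⟩ := m3 a (hN a ha) ⟨_, ρ, f, s, rfl, b1, b2.1, s1, s2, b3⟩
    obtain ⟨-, ρ, f, s, rfl, b1, b2, s1, s2, b3⟩ := m2 _ _ hn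
    obtain ⟨t, t1, t2⟩ := rel_bin r
      (fun _ _ w z => ∃ c q, IsOPair E w c q ∧ ∃ y s, IsOPair E q y s ∧ s = z)
      (fun _ _ _ => inferInstance) (c := K) b1 s1 b2 i2 b3 (i3 _ (r.mem s s1))
      ⟨_, _, pr_spec _ _, _, _, pr_spec _ _, rfl⟩
    refine ⟨ρ, f, s, ap_eq m1 hn, b1, b2, s2, b3, t, t1, fun σ d hd ht => ?_⟩
    obtain ⟨u, u1, u2, c, q, e1, y, s', e2, e3⟩ := t2 σ d hd ht
    exact ⟨c, y, u, u1, by rw [pr_eq.1 e1, pr_eq.1 e2, e3, ← ((i1 _ _).1 u2).2.2]⟩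
  refine ⟨nm, s0, f0, fun t ht => ?_⟩
  obtain ⟨a, b, R, rfl, na, nb, hR, X, x1, q, x2, x3⟩ := (mem_step t).1 ht
  have qN : E (idx E G a) N0 ∧ E (idx E G b) N0 := by
    obtain ⟨p, p1, p2⟩ := x3
    obtain ⟨q', X', e, m, -⟩ := sh p p2
    rw [← (p1.inj e).1, pr_eq.1 x2, tN.eq, tup_pr ol] at m
    rwa [tN.eq]
  obtain ⟨ra, fa, sa, ea, a1, a2, a3, a4, ta, a5, a6⟩ := name a na qN.1
  obtain ⟨rb, fb, sb, eb, b1, b2, b3, b4, tb, b5, b6⟩ := name b nb qN.2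
  obtain ⟨t0, c1, c2⟩ := rel_bin r
    (fun _ _ w z => ∃ c q, IsOPair E w c q ∧ ∃ y s, IsOPair E q y s ∧ y = z)
    (fun _ _ _ => inferInstance) (c := K) a1 z1 a2 z2.1 a4 z3
    ⟨_, _, pr_spec _ _, _, _, pr_spec _ _, rfl⟩
  obtain ⟨t1, d1, d2⟩ := rel_bin r (RelA E (∃ s c, a = pr E G (pr E s c))
    (∃ s c, b = pr E G (pr E s c))) (relA_rd _ _) (c := R) a1 b1 a2 b2 a4 b4
    ⟨_, _, pr_spec _ _, _, _, pr_spec _ _, _, _, pr_spec _ _, _, _, pr_spec _ _, cc, _, _,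
      pr_spec _ _, _, _, pr_spec _ _, X, (I.tr.app hF x3).2, ⟨qN.1, qN.2, fun p hp => by
        obtain ⟨u, v, e, hu, hv, -⟩ := (x1 p).1 hp
        exact ⟨u, v, pr_eq.2 e, tK.eq ▸ hu, tK.eq ▸ hv⟩, q, x2, x3⟩, fun u v h => by
      obtain ⟨u', v', e, -, -, m⟩ := (x1 _).1 (app_iff.1 h)
      obtain ⟨rfl, rfl⟩ := pr_inj e
      exact ⟨_, (I.tr.app (r.el.maps R) m).1, _, m, rel_evs a3 u, rel_evs b3 v⟩⟩
  obtain ⟨d, e1, e2⟩ := ctb_list (E := E) [ta, tb, t0, t1]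
  refine ⟨d, fun z hz => ?_, e1, fun σ hd a' b' R' e => ?_⟩
  · have := (e2 z).1 hz
    simp only [List.mem_cons, List.not_mem_nil, or_false] at this
    rcases this with rfl | rfl | rfl | rfl
    exacts [a5, b5, c1, d1]
  obtain ⟨rfl, e'⟩ := pr_inj e
  obtain ⟨rfl, rfl⟩ := pr_inj e'
  obtain ⟨ca, ya, ua, v1, v2⟩ := a6 σ d hd ((e2 _).2 (by simp))
  obtain ⟨cb, yb, ub, w1, w2⟩ := b6 σ d hd ((e2 _).2 (by simp))
  obtain ⟨-, -, -, c, q, o1, y, s, o2, o3⟩ := c2 σ d hd ((e2 _).2 (by simp))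
  obtain ⟨-, -, -, c', q', n1, y', s', n2, F', q1, n3, K', N', n4, n5, c'', q'', n6, y'', s'', n7,
    X', -, n8, n9⟩ := d2 σ d hd ((e2 _).2 (by simp))
  obtain ⟨rfl, rfl⟩ := o1.inj n1
  obtain ⟨rfl, rfl⟩ := o2.inj n2
  obtain ⟨rfl, rfl⟩ := pr_inj (v2.symm.trans (pr_eq.1 o1))
  obtain ⟨rfl, rfl⟩ := (pr_spec _ _).inj o2
  obtain ⟨rfl, rfl⟩ := pr_inj (w2.symm.trans (pr_eq.1 n6))
  obtain ⟨rfl, rfl⟩ := (pr_spec _ _).inj n7
  refine ⟨F', K', N', by rw [← o3, pr_eq.1 n3, pr_eq.1 n4], n5, X', ?_, fun u v h => ?_⟩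
  · simpa only [relC, ea, eb, p1_pr, p2_pr, v2, w2] using n8
  · obtain ⟨x, -, x', k1, k2, k3⟩ := n9 u v h
    exact ⟨x, x', k1, rel_val a3 v1 k2, rel_val b3 w1 k3⟩

theorem step_rel {K G θ κ l F : M} (hC : Choice E) (hθ : Lim E θ) (hK : ∀ x, E x K ↔ Rk E x θ)
    (h : Sys E K G) (hF : F ∈ Wm E K G) (k : Ext1 E (Wm E K G) κ l F) (hκ : E κ (jG E K G K)) :
    RelCC E G (step E K G (pr E κ l) F) := by
  obtain ⟨S', -, hN, -⟩ := step_spec hC hθ hK h hF k hκ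
  obtain ⟨nm, s0, f0, hd⟩ := rel_data hC h hF k fun a ha => (hN a).2 ha
  generalize step E K G (pr E κ l) F = G' at *
  have dQ : Df E fun v => Sub E (v 1) G ∧ Ctb E Set.univ (v 1) ∧
      ∀ σ, Thr E (v 1) σ → RelQ E G nm s0 f0 σ (v 0) := by
    unfold RelQ RelX RelV CC BinF; infer_instance
  obtain ⟨D, -, D1, D2, D3⟩ := ac hC G' (fun t d => Sub E d G ∧ Ctb E Set.univ d ∧
    ∀ σ, Thr E d σ → RelQ E G nm s0 f0 σ t) (h := dQ)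
  refine ⟨D, D1, fun t ht => ?_, fun H hH cH σ fσ dσ th => ?_⟩
  · obtain ⟨d, m⟩ := D3 t ht (hd t ht)
    exact ⟨d, m, (D2 _ _ m).2.1, (D2 _ _ m).2.2.1⟩
  have Q : ∀ t, E t H → RelQ E G nm s0 f0 σ t := fun t ht =>
    let ⟨d, m⟩ := D3 t (hH t ht) (hd t (hH t ht)); (D2 _ _ m).2.2.2 σ (th t ht d m)
  have old : ∀ a y, App E σ a y → E a (sN E G') := fun a y m => (hN a).2 (Or.inl (dσ a y m))
  by_cases ne : ∃ a b R, Tr3 E H a b R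
  swap
  · exact ⟨σ, fun _ m => m, old, thr_iff.2 ⟨fσ, fun a b R m => (ne ⟨a, b, R, m⟩).elim⟩⟩
  obtain ⟨a0, b0, R0, m0⟩ := ne
  obtain ⟨F0, K0, N0, e0, cc, -⟩ := Q _ (tr3_iff.1 m0) _ _ _ rfl
  have dX : Df E fun v => ∃ a b R X, v 0 = pr E a (pr E b R) ∧
      v 1 = pr E (relC E nm σ a) (pr E (relC E nm σ b) X) ∧ RelX E G nm σ F0 K0 N0 a b R X := by
    unfold RelX RelV BinF; infer_instance
  obtain ⟨g, -, g1, g2, g3⟩ := ac hC H (fun t y => ∃ a b R X, t = pr E a (pr E b R) ∧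
    y = pr E (relC E nm σ a) (pr E (relC E nm σ b) X) ∧ RelX E G nm σ F0 K0 N0 a b R X) (h := dX)
  obtain ⟨H', hH'⟩ := repl E H (fun t y => App E g t y) fun x y y' _ a b => g1 x y y' a b
  obtain ⟨τ, -, hτ⟩ := cc H' trivial (cH.img (fun t y => App E g t y)
    (fun x y y' _ a b => g1 x y y' a b) fun y hy => (hH' y).1 hy) fun y hy => by
      obtain ⟨t, -, m⟩ := (hH' y).1 hy
      obtain ⟨-, a, b, R, X, -, e, x⟩ := g2 _ _ m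
      exact ⟨_, _, pr_eq.2 e, _, _, pr_spec _ _, x.1⟩
  obtain ⟨ρ, -, hρ⟩ := ex_fun E (sN E G') (fun a x => ∃ u, App E τ (relC E nm σ a) u ∧
      ∃ s c y, a = pr E G (pr E s c) ∧ App E σ s y ∧ x = pr E y u) (by
    rintro a _ _ - ⟨u, u1, s, c, y, e, s1, rfl⟩ ⟨u', u2, s', c', y', e', s2, rfl⟩
    obtain ⟨rfl, -⟩ := pr_inj (pr_inj (e.symm.trans e')).2
    rw [hτ.1 _ _ _ u1 u2, fσ _ _ _ s1 s2])
  obtain ⟨σ', hσ⟩ := ex_union E σ ρ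
  have ap' : ∀ a x, App E σ' a x ↔ App E σ a x ∨ App E ρ a x := fun a x => by
    simp only [app_iff, hσ]
  have val : ∀ a u x, E a (sN E G') → App E τ (relC E nm σ a) u → RelV E G σ a u x →
      App E σ' a x := fun a u x ha hu hx =>
    (ap' a x).2 (hx.elim (fun m => Or.inr ((hρ a x).2 ⟨ha, u, hu, m⟩)) fun m => Or.inl m.2)
  refine ⟨σ', fun z hz => (hσ z).2 (Or.inl hz), fun a y m =>
    ((ap' a y).1 m).elim (old a y) fun m => ((hρ a y).1 m).1, thr_iff.2 ⟨?_, fun a b R m => ?_⟩⟩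
  · intro a x x' m m'
    rcases (ap' _ _).1 m with m | m <;> rcases (ap' _ _).1 m' with m' | m'
    · exact fσ _ _ _ m m'
    · obtain ⟨-, -, -, s, c, -, e, -⟩ := (hρ _ _).1 m'
      exact (rel_old (dσ _ _ m) ⟨s, c, e⟩).elim
    · obtain ⟨-, -, -, s, c, -, e, -⟩ := (hρ _ _).1 m
      exact (rel_old (dσ _ _ m') ⟨s, c, e⟩).elim
    · obtain ⟨-, u, u1, s, c, y, e, s1, rfl⟩ := (hρ _ _).1 m
      obtain ⟨-, u', u2, s', c', y', e', s2, rfl⟩ := (hρ _ _).1 m'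
      obtain ⟨rfl, -⟩ := pr_inj (pr_inj (e.symm.trans e')).2
      rw [hτ.1 _ _ _ u1 u2, fσ _ _ _ s1 s2]
  · have ht := tr3_iff.1 m
    obtain ⟨na, nb, -⟩ := S'.1.rel a b R (tr3_iff.2 (hH _ ht))
    obtain ⟨F1, K1, N1, e1, -, X, x⟩ := Q _ ht _ _ _ rfl
    obtain ⟨rfl, e2⟩ := pr_inj (e1.symm.trans e0)
    obtain ⟨rfl, rfl⟩ := pr_inj e2
    obtain ⟨y, hy⟩ := g3 _ ht ⟨_, a, b, R, X, rfl, rfl, x⟩
    obtain ⟨-, a', b', R', X', e, rfl, x'⟩ := g2 _ _ hy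
    obtain ⟨rfl, e'⟩ := pr_inj e
    obtain ⟨rfl, rfl⟩ := pr_inj e'
    obtain ⟨u, u1, v, v1, uv⟩ := (thr_iff.1 hτ).2 _ _ _ (tr3_iff.2 ((hH' _).2 ⟨_, ht, hy⟩))
    obtain ⟨z, z', k1, k2, k3⟩ := x'.2 u v uv
    exact ⟨z, val a u z na u1 k2, z', val b v z' nb v1 k3, k1⟩

end Pool.Agent.Lib.MP_75a307_lc.LE
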