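import Pool.Agent.Lib.MP_75a307_lc.LE.Fac
import Pool.Agent.Lib.MP_75a307_lc.LE.Bridge

/-! One step of an iteration of the universe. -/

set_option synthInstance.maxSize 100000
set_option linter.unusedVariables false
set_option linter.unusedSectionVars false

namespace Pool.Agent.Lib.MP_75a307_lc.LE

open Pool.Agent.Lib.MP_1d770b_lc

universe u
variable {M : Type u} {E : M → M → Prop} [hZ : ZF E]

variable (E) in
noncomputable def idx (G a : M) : M := the E fun c => ∃ s, a = pr E G (pr E s c)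

variable (E) in
noncomputable def evs (K G a u : M) : M := the E fun y =>
  (∃ s c, a = pr E G (pr E s c) ∧ y = pr E (sdG E K G s) u) ∨
    ((¬ ∃ s c, a = pr E G (pr E s c)) ∧ y = sdG E K G a)

variable (E) in
def NewS (G l a : M) : Prop :=
  E a (sN E G) ∨ ∃ s c, E s (sN E G) ∧ E c (tup E l) ∧ a = pr E G (pr E s c)

section
variable (K : M) (a b c : (ℕ → M) → M) [DT E a] [DT E b] [DT E c]
instance : DT E fun v => idx E (a v) (b v) :=
  f2 (F := idx E) (fun _ _ _ _ _ _ => by unfold idx; infer_instance) a b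
instance : DT E fun v => evs E K (a v) (b v) (c v) :=
  f3 (F := evs E K) (fun _ _ _ _ _ _ _ _ => by unfold evs; infer_instance) a b c
instance : Df E fun v => NewS E (a v) (b v) (c v) :=
  dt3 (fun _ _ _ _ _ _ => by unfold NewS; infer_instance) a b c
end

variable (E) in
/-- the system of the ultrapower by `F`; `q` is the pair `(κ, l)` -/
noncomputable def step (K G q F : M) : M := the E fun G' => ∀ t, E t G' ↔
  ∃ a b R, t = pr E a (pr E b R) ∧ NewS E G (p2 E q) a ∧ NewS E G (p2 E q) b ∧ Rel E K R ∧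
    ∃ X, (∀ z, E z X ↔ ∃ u v, z = pr E u v ∧ E u (tup E (p1 E q)) ∧ E v (tup E (p1 E q)) ∧
      App E (jG E K G R) (evs E K G a u) (evs E K G b v)) ∧ At E F (idx E G a) (idx E G b) X

instance (K : M) (a b c : (ℕ → M) → M) [DT E a] [DT E b] [DT E c] :
    DT E fun v => step E K (a v) (b v) (c v) :=
  f3 (F := step E K) (fun _ _ _ _ _ _ _ _ => by unfold step; infer_instance) a b c

variable {K G θ κ l F : M}

theorem step_full (K : M) : ∃ R, (∀ X, Sub E X R ↔ Rel E K X) ∧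
    ∀ s t, E s K → E t K → App E R s t := by
  obtain ⟨R, h1, h2⟩ := ex_rel E K K fun x _ => x = x
  exact ⟨R, fun X => ⟨fun h p hp => let ⟨x, y, a, b, c, _⟩ := (h1 p).1 (h p hp); ⟨x, y, c, a, b⟩,
    fun h p hp => let ⟨x, y, c, a, b⟩ := h p hp; (h1 p).2 ⟨x, y, a, b, c, rfl⟩⟩,
    fun s t a b => (h2 s t).2 ⟨a, b, rfl⟩⟩

theorem step_prod (A B : M) : ∃ C, ∀ a b, E a A → E b B → E (pr E a b) C := by
  obtain ⟨R, -, h⟩ := ex_rel E A B fun x _ => x = x
  exact ⟨R, fun a b x y => app_iff.1 ((h a b).2 ⟨x, y, rfl⟩)⟩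

theorem step_seeds (G l : M) : ∃ A, ∀ a, NewS E G l a → E a A := by
  obtain ⟨D, hD⟩ := step_prod (E := E) (sN E G) (tup E l)
  obtain ⟨B, hB⟩ := repl E D (fun p y => y = pr E G p) fun _ _ _ _ a b => a.trans b.symm
  obtain ⟨A, hA⟩ := ex_union E (sN E G) B
  exact ⟨A, fun a h => (hA a).2 (h.imp_right fun ⟨s, c, x, y, e⟩ =>
    (hB a).2 ⟨_, hD s c x y, e⟩)⟩

theorem mem_step (t : M) : E t (step E K G (pr E κ l) F) ↔
    ∃ a b R, t = pr E a (pr E b R) ∧ NewS E G l a ∧ NewS E G l b ∧ Rel E K R ∧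
      ∃ X, (∀ z, E z X ↔ ∃ u v, z = pr E u v ∧ E u (tup E κ) ∧ E v (tup E κ) ∧
        App E (jG E K G R) (evs E K G a u) (evs E K G b v)) ∧
          At E F (idx E G a) (idx E G b) X := by
  obtain ⟨A, hA⟩ := step_seeds (E := E) G l
  obtain ⟨R0, h0, -⟩ := step_full (E := E) K
  obtain ⟨P, hP⟩ := ex_pow E R0
  obtain ⟨C, hC⟩ := step_prod (E := E) A P
  obtain ⟨D, hD⟩ := step_prod (E := E) A C
  obtain ⟨y, hy⟩ := sep E D fun t => ∃ a b R, t = pr E a (pr E b R) ∧ NewS E G l a ∧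
    NewS E G l b ∧ Rel E K R ∧ ∃ X, (∀ z, E z X ↔ ∃ u v, z = pr E u v ∧ E u (tup E κ) ∧
      E v (tup E κ) ∧ App E (jG E K G R) (evs E K G a u) (evs E K G b v)) ∧
        At E F (idx E G a) (idx E G b) X
  have hy' := fun t => (hy t).trans (and_iff_right_of_imp fun ⟨a, b, R, e, x, z, r, _⟩ =>
    e ▸ hD _ _ (hA a x) (hC _ _ (hA b z) ((hP R).2 ((h0 R).2 r))))
  rw [step, p1_pr, p2_pr, the_eq hy' fun y' h => ext' E fun z => (h z).trans (hy' z).symm]
  exact hy' t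

theorem step_new {φ : M → M → M} {ψ : M} (G s c : M) : the E (fun y =>
    (∃ s' c', pr E G (pr E s c) = pr E G (pr E s' c') ∧ y = φ s' c') ∨
      ((¬ ∃ s' c', pr E G (pr E s c) = pr E G (pr E s' c')) ∧ y = ψ)) = φ s c :=
  the_eq (Or.inl ⟨s, c, rfl, rfl⟩) fun y h => h.elim (fun ⟨s', c', e, k⟩ => by
    obtain ⟨rfl, rfl⟩ := pr_inj (pr_inj e).2
    exact k) fun h => (h.1 ⟨s, c, rfl⟩).elim

theorem step_old {φ : M → M → M} {ψ a : M} (h : ¬ ∃ s c, a = pr E G (pr E s c)) : the E (fun y =>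
    (∃ s c, a = pr E G (pr E s c) ∧ y = φ s c) ∨
      ((¬ ∃ s c, a = pr E G (pr E s c)) ∧ y = ψ)) = ψ :=
  the_eq (Or.inr ⟨h, rfl⟩) fun y k => k.elim (fun ⟨s, c, e, _⟩ => (h ⟨s, c, e⟩).elim) fun k => k.2

theorem step_ne {a : M} (ha : E a (sN E G)) : ¬ ∃ s c, a = pr E G (pr E s c) := by
  rintro ⟨s, c, e⟩
  obtain ⟨b, R, q, -, h⟩ := (mem_sN G a).1 ha
  obtain ⟨β, x, y⟩ := (RkLt.of_app h).1.trans (RkLt.of_opair (pr_eq.2 e)).1
  exact y x

theorem idx_new (G s c : M) : idx E G (pr E G (pr E s c)) = c :=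
  the_eq ⟨s, rfl⟩ fun y ⟨s', e⟩ => (pr_inj (pr_inj e).2).2.symm

theorem idx_mem (ho : IsOrd E l) (hκ : E κ l) {a : M} (ha : NewS E G l a) :
    E (idx E G a) (tup E l) := by
  rcases ha with ha | ⟨s, c, -, hc, rfl⟩
  · have e : emp E = idx E G a := (the_iff _ _).2
      (Or.inr ⟨fun ⟨c, ⟨s, e⟩, _⟩ => step_ne ha ⟨s, c, e⟩, emp_spec⟩)
    rw [← e]
    rcases (emp_spec (E := E)).ord.tri ho with k | k | k
    · exact sub_tup k
    · exact (emp_spec κ (k ▸ hκ)).elim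
    · exact (emp_spec _ k).elim
  · rwa [idx_new]

/-- `w` codes a constant map or the map `u ↦ (x, u)`, with value `y` at `u` -/
def StepEv (E : M → M → Prop) (w u y : M) : Prop :=
  ∃ x e, IsOPair E w x e ∧ ((e = x ∧ y = x) ∨ (e ≠ x ∧ IsOPair E y x u))

instance (i j k : ℕ) : RD E (Good E) fun _ v => StepEv E (v i) (v j) (v k) := by
  unfold StepEv; infer_instance

theorem stepEv_old {x u y : M} : StepEv E (pr E x x) u y ↔ y = x :=
  ⟨fun ⟨x', e, h, k⟩ => by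
    obtain ⟨rfl, rfl⟩ := (pr_spec x x).inj h
    exact k.elim (fun k => k.2) fun k => (k.1 rfl).elim,
    fun h => ⟨x, x, pr_spec x x, Or.inl ⟨rfl, h⟩⟩⟩

theorem stepEv_new {x e u y : M} (n : E x e) : StepEv E (pr E x e) u y ↔ y = pr E x u :=
  have n' : e ≠ x := fun k => no1 (k ▸ n : E x x)
  ⟨fun ⟨x', e', h, k⟩ => by
    obtain ⟨rfl, rfl⟩ := (pr_spec x e).inj h
    exact k.elim (fun k => (n' k.1).elim) fun k => pr_eq.1 k.2,
    fun h => ⟨x, e, pr_spec x e, Or.inr ⟨n', pr_eq.2 h⟩⟩⟩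

/-- `z` is a pair from `T` whose two values are related by `r` -/
def StepQ (E : M → M → Prop) (W : Set M) (T w w' r z : M) : Prop :=
  ∃ u v, IsOPair E z u v ∧ E u T ∧ E v T ∧
    ∃ y ∈ W, ∃ y' ∈ W, StepEv E w u y ∧ StepEv E w' v y' ∧ App E r y y'

instance (i j k m n : ℕ) :
    RD E (Good E) fun W v => StepQ E W (v i) (v j) (v k) (v m) (v n) := by
  unfold StepQ; infer_instance

variable (E) in
/-- the seeds of the next system -/
noncomputable def stepSd (K G : M) (i : M → M) (a : M) : M := the E fun y =>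
  (∃ s c, a = pr E G (pr E s c) ∧ y = pr E (i (sdG E K G s)) c) ∨
    ((¬ ∃ s c, a = pr E G (pr E s c)) ∧ y = i (sdG E K G a))

theorem step_pair {N : M} {T : M → M → M → Prop} {j sd : M → M} {W : Set M}
    (r : Real E K N T j W sd) (g : Gen E K N j W sd) : PairT E N T := fun a ha b hb => by
  have m : ∀ a, E a N → sd a ∈ W := fun a ha => r.el.trans _ (r.el.maps K) _ (r.mem a ha)
  obtain ⟨p, h, hp, th, e⟩ := g _ (r.el.pr_mem (m a ha) (m b hb) (pr_spec _ _))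
  obtain ⟨f, f1, f2⟩ := ex_rel E K K fun t y => ∃ z w, App E h t z ∧ IsOPair E z y w
  obtain ⟨f', g1, g2⟩ := ex_rel E K K fun t y => ∃ z w, App E h t z ∧ IsOPair E z w y
  refine ⟨p, hp, f, f', fun t y y' k k' => ?_, fun t y y' k k' => ?_,
    (r.iff p a f hp ha fun q hq => let ⟨x, y, a, b, c, _⟩ := (f1 q).1 hq; ⟨x, y, c, a, b⟩).2 ?_,
    (r.iff p b f' hp hb fun q hq => let ⟨x, y, a, b, c, _⟩ := (g1 q).1 hq; ⟨x, y, c, a, b⟩).2 ?_⟩
  · obtain ⟨-, -, z, w, a, b⟩ := (f2 _ _).1 k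
    obtain ⟨-, -, z', w', a', b'⟩ := (f2 _ _).1 k'
    obtain rfl := th.1 _ _ _ a a'
    exact (b.inj b').1
  · obtain ⟨-, -, z, w, a, b⟩ := (g2 _ _).1 k
    obtain ⟨-, -, z', w', a', b'⟩ := (g2 _ _).1 k'
    obtain rfl := th.1 _ _ _ a a'
    exact (b.inj b').2
  · exact (r.el.tr3 (fun _ K h f => ∀ t, E t K → ∀ z, App E h t z → ∀ y w, IsOPair E z y w →
      E y K → App E f t y) K h f).1 (fun t ht z a y w b c => (f2 t y).2 ⟨ht, c, z, w, a, b⟩)
      _ (r.mem p hp) _ e _ _ (pr_spec _ _) (r.mem a ha)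
  · exact (r.el.tr3 (fun _ K h f => ∀ t, E t K → ∀ z, App E h t z → ∀ w y, IsOPair E z w y →
      E y K → App E f t y) K h f').1 (fun t ht z a w y b c => (g2 t y).2 ⟨ht, c, z, w, a, b⟩)
      _ (r.mem p hp) _ e _ _ (pr_spec _ _) (r.mem b hb)

section
variable {i : M → M} {W' : Set M} (hC : Choice E) (h : Sys E K G) (hκ : E κ (jG E K G K))
  (ho : IsOrd E l) (hl : E κ l) (U : UltW E (Wm E K G) κ l F i W')
include hC h

theorem step_sdW {a : M} (ha : E a (sN E G)) : sdG E K G a ∈ Wm E K G :=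
  (h.el hC).trans _ ((h.el hC).maps K) _ ((h.canon hC).1.mem a ha)

include hκ U

theorem step_tup {c : M} (hc : E c (tup E l)) : E c (i (tup E κ)) := by
  rw [U.el.tup (U.el.inn.ord U.lim.1)]
  exact tup_mono U.len c hc

theorem step_code {a : M} (ha : NewS E G l a) : ∃ w ∈ Wm E K G,
    (∀ u y, StepEv E w u y ↔ y = evs E K G a u) ∧
      ∀ y, StepEv E (i w) (idx E G a) y ↔ y = stepSd E K G i a := by
  rcases ha with ha | ⟨s, c, hs, hc, rfl⟩
  · have m := step_sdW hC h ha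
    refine ⟨_, U.el.inn.pr.2 ⟨m, m⟩, fun u y => ?_, fun y => ?_⟩
    · rw [evs, step_old (step_ne ha), stepEv_old]
    · rw [stepSd, step_old (step_ne ha), U.el.pr m m, stepEv_old]
  · have m := step_sdW hC h hs
    have m' := (h.el hC).maps K
    have n := (h.canon hC).1.mem s hs
    refine ⟨_, U.el.inn.pr.2 ⟨m, m'⟩, fun u y => ?_, fun y => ?_⟩
    · rw [evs, step_new, stepEv_new n]
    · rw [stepSd, step_new, U.el.pr m m', stepEv_new ((U.el.mem_iff m m').2 n), idx_new]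

include ho hl

theorem step_tr3 {a b R : M} : Tr3 E (step E K G (pr E κ l) F) a b R ↔
    NewS E G l a ∧ NewS E G l b ∧ Rel E K R ∧
      App E (i (jG E K G R)) (stepSd E K G i a) (stepSd E K G i b) := by
  have key : NewS E G l a → NewS E G l b → ∃ X, (∀ z, E z X ↔ ∃ u v, z = pr E u v ∧
      E u (tup E κ) ∧ E v (tup E κ) ∧ App E (jG E K G R) (evs E K G a u) (evs E K G b v)) ∧
      (At E F (idx E G a) (idx E G b) X ↔
        App E (i (jG E K G R)) (stepSd E K G i a) (stepSd E K G i b)) := fun ha hb => by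
    obtain ⟨w, hw, a1, a2⟩ := step_code hC h hκ U ha
    obtain ⟨w', hw', b1, b2⟩ := step_code hC h hκ U hb
    have hT := U.el.inn.tup (U.el.inn.ord U.lim.1)
    have hr := (h.el hC).maps R
    have hr' := U.el.maps _ hr
    obtain ⟨X, hX, x⟩ := U.el.inn.sep hT (fun W v => StepQ E W (v 1) (v 2) (v 3) (v 4) (v 0))
      (fun n => [tup E κ, w, w'].getD n (jG E K G R)) fun n =>
        match n with | 0 => hT | 1 => hw | 2 => hw' | _ + 3 => hr
    have x' : ∀ z, E z X ↔ StepQ E (Wm E K G) (tup E κ) w w' (jG E K G R) z := fun z =>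
      (x z).trans (and_iff_right_of_imp fun ⟨u, v, e, p, q, _⟩ =>
        (pr_eq.1 e : z = pr E u v) ▸ (tup_pr U.lim.1).2 ⟨p, q⟩)
    have t : ∀ z ∈ W', E z (i X) ↔
        StepQ E W' (i (tup E κ)) (i w) (i w') (i (jG E K G R)) z :=
      (U.el.trG (fun W v => ∀ z ∈ W, E z (v 0) ↔ StepQ E W (v 1) (v 2) (v 3) (v 4) z)
        (fun n => [X, tup E κ, w, w'].getD n (jG E K G R)) fun n =>
          match n with | 0 => hX | 1 => hT | 2 => hw | 3 => hw' | _ + 4 => hr).1 fun z _ => x' z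
    have ia := idx_mem ho hl ha
    have ib := idx_mem ho hl hb
    have ip := (tup_pr ho).2 ⟨ia, ib⟩
    have t' := t _ (U.el.inn'.tr _ (U.el.maps _ hT) _ (step_tup hC h hκ U ip))
    refine ⟨X, fun z => (x' z).trans ⟨fun ⟨u, v, e, p, q, y, _, y', _, c, d, r⟩ =>
      ⟨u, v, pr_eq.1 e, p, q, (a1 _ _).1 c ▸ (b1 _ _).1 d ▸ r⟩, fun ⟨u, v, e, p, q, r⟩ =>
      ⟨u, v, pr_eq.2 e, p, q, _, (U.el.inn.tr.app hr r).1, _, (U.el.inn.tr.app hr r).2,
        (a1 _ _).2 rfl, (b1 _ _).2 rfl, r⟩⟩, at_iff.trans (app_iff.symm.trans ((U.mem _ _).trans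
          ⟨fun k => ?_, fun r => ⟨ip, hX, fun z hz => ((x z).1 hz).1, t'.2
            ⟨_, _, pr_spec _ _, step_tup hC h hκ U ia, step_tup hC h hκ U ib, _,
              (U.el.inn'.tr.app hr' r).1, _, (U.el.inn'.tr.app hr' r).2, (a2 _).2 rfl,
              (b2 _).2 rfl, r⟩⟩⟩))⟩
    obtain ⟨u, v, e, -, -, y, -, y', -, c, d, r⟩ := t'.1 k.2.2.2
    obtain ⟨rfl, rfl⟩ := (pr_spec _ _).inj e
    exact (a2 _).1 c ▸ (b2 _).1 d ▸ r
  refine tr3_iff.trans ((mem_step _).trans ?_)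
  constructor
  · rintro ⟨a', b', R', e, ha, hb, r, X, x, k⟩
    obtain ⟨rfl, e'⟩ := pr_inj e
    obtain ⟨rfl, rfl⟩ := pr_inj e'
    obtain ⟨X', x', k'⟩ := key ha hb
    obtain rfl : X = X' := ext' E fun z => (x z).trans (x' z).symm
    exact ⟨ha, hb, r, k'.1 k⟩
  · rintro ⟨ha, hb, r, k⟩
    obtain ⟨X', x', k'⟩ := key ha hb
    exact ⟨a, b, R, rfl, ha, hb, r, X', x', k'.2 k⟩

omit ho hl in
theorem step_sd (hθ : Lim E θ) (hK : ∀ x, E x K ↔ Rk E x θ) {a : M} (ha : NewS E G l a) :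
    E (stepSd E K G i a) (i (jG E K G K)) := by
  have m' := (h.el hC).maps K
  have o : ∀ s, E s (sN E G) → E (i (sdG E K G s)) (i (jG E K G K)) := fun s hs =>
    (U.el.mem_iff (step_sdW hC h hs) m').2 ((h.canon hC).1.mem s hs)
  rcases ha with ha | ⟨s, c, hs, hc, rfl⟩
  · rw [stepSd, step_old (step_ne ha)]
    exact o a ha
  · rw [stepSd, step_new]
    have J := (h.el hC).comp U.el
    have L : Lim E (i (jG E K G θ)) := (J.tr1 (fun _ x => Lim E x) θ).1 hθ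
    have kW := U.el.inn.ord U.lim.1
    have sW := U.el.maps _ (step_sdW hC h hs)
    have k1 := ((J.mem_V hK (U.el.maps _ kW)).1 ((U.el.mem_iff kW m').2 hκ)).ord_mem
      (U.el.ord U.lim.1)
    exact (J.mem_V hK (U.el.inn'.pr.2 ⟨sW, U.el.inn'.tr _ (U.el.maps _ (U.el.inn.tup kW)) _
      (step_tup hC h hκ U hc)⟩)).2 (L.opair ((J.mem_V hK sW).1 (o s hs))
        (tup_rk L (fun x hx => L.1.tr k1 (U.len x hx)) hc) (pr_spec _ _))

omit ho hl in
theorem step_gen (hθ : Lim E θ) (hK : ∀ x, E x K ↔ Rk E x θ) {x : M} (hx : x ∈ W') :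
    ∃ a f, NewS E G l a ∧ Tot E K f ∧ App E (i (jG E K G f)) (stepSd E K G i a) x := by
  obtain ⟨c, f, hc, hf, tf, e⟩ := U.gen x hx
  obtain ⟨s, g, hs, tg, e'⟩ := (h.canon hC).2 f hf
  obtain ⟨q, tq, hq⟩ := lam hC K fun t => ap E (ap E g (p1 E t)) (p2 E t)
  have n : NewS E G l (pr E G (pr E s c)) := Or.inr ⟨s, c, hs, hc, rfl⟩
  have m := step_sd hC h hκ U hθ hK n
  refine ⟨_, q, n, tq, (((h.el hC).comp U.el).tr3 (fun _ K g q => ∀ p, E p K → ∀ s u,
    IsOPair E p s u → ∀ f, App E g s f → Fn E f → ∀ y, App E f u y → App E q p y) K g q).1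
      (fun p hp s u a f b c y d => ?_) _ m (i (sdG E K G s)) c ?_ (i f)
      ((U.el.app_iff ((h.el hC).maps g) (step_sdW hC h hs) hf).2 e')
      ((U.el.tr1 (fun _ f => Fn E f) hf).1 tf.1) x e⟩
  · have := tq.app hp
    rwa [hq p hp, pr_eq.1 a, p1_pr, p2_pr, ap_eq tg.1 b, ap_eq c d, ← pr_eq.1 a] at this
  · rw [stepSd, step_new]
    exact pr_spec _ _

end

theorem step_spec (hC : Choice E) (hθ : Lim E θ) (hK : ∀ x, E x K ↔ Rk E x θ) (h : Sys E K G)
    (hF : F ∈ Wm E K G) (k : Ext1 E (Wm E K G) κ l F) (hκ : E κ (jG E K G K)) :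
    Sys E K (step E K G (pr E κ l) F) ∧ Sub E G (step E K G (pr E κ l) F) ∧
      (∀ a, E a (sN E (step E K G (pr E κ l) F)) ↔ NewS E G l a) ∧
      UltW E (Wm E K G) κ l F (fac E K G (step E K G (pr E κ l) F))
        (Wm E K (step E K G (pr E κ l) F)) := by
  obtain ⟨i, W', U⟩ := Ext1.lift (h.inn hC) hF k
  have J := (h.el hC).comp U.el
  have T := fun a b R => step_tr3 hC h hκ k.2.1 k.2.2.1 U (a := a) (b := b) (R := R)
  have sd := fun a => step_sd hC h hκ U hθ hK (a := a)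
  generalize hG : step E K G (pr E κ l) F = G' at T ⊢
  have N : ∀ a, E a (sN E G') ↔ NewS E G l a := fun a => (mem_sN G' a).trans
    ⟨fun ⟨b, R, t⟩ => ((T a b R).1 t).1, fun ha => by
      obtain ⟨R, r1, r2⟩ := step_full (E := E) K
      exact ⟨a, R, (T a a R).2 ⟨ha, ha, (r1 R).1 fun _ x => x, (J.tr2 (fun _ K R => ∀ s, E s K →
        ∀ t, E t K → App E R s t) K R).1 (fun s a t b => r2 s t a b) _ (sd a ha) _ (sd a ha)⟩⟩⟩
  have r : Real E K (sN E G') (Tr3 E G') (fun x => i (jG E K G x)) W' (stepSd E K G i) :=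
    ⟨J, fun _ _ _ _ => by have := U.el.fk; unfold stepSd; infer_instance,
      fun a ha => sd a ((N a).1 ha), fun a b R ha hb hR => (T a b R).trans
        ⟨fun t => t.2.2.2, fun t => ⟨(N a).1 ha, (N b).1 hb, hR, t⟩⟩⟩
  have g : Gen E K (sN E G') (fun x => i (jG E K G x)) W' (stepSd E K G i) := fun x hx =>
    let ⟨a, f, n, t, e⟩ := step_gen hC h hκ U hθ hK hx
    ⟨a, f, (N a).2 n, t, e⟩
  have rel : ∀ a b R, Tr3 E G' a b R → E a (sN E G') ∧ E b (sN E G') ∧ Rel E K R :=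
    fun a b R t => let ⟨x, y, z, _⟩ := (T a b R).1 t; ⟨(N a).2 x, (N b).2 y, z⟩
  have S : Sys E K G' := ⟨⟨rel, r.ultra, step_pair r g, r.cc hC rel,
    h.1.ne.imp fun c hc => (N c).2 (Or.inl hc)⟩, fun t ht => by
      obtain ⟨a, b, R, e, -⟩ := (mem_step t).1 (hG ▸ ht)
      exact ⟨a, _, pr_eq.2 e, b, R, pr_spec b R⟩⟩
  have old : ∀ a, E a (sN E G) → stepSd E K G i a = i (sdG E K G a) := fun a ha =>
    step_old (step_ne ha)
  have s : Sub E G G' := fun t ht => by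
    obtain ⟨a, q, e, b, R, e'⟩ := h.2 t ht
    have t3 : Tr3 E G a b R := ⟨q, e', t, e, ht⟩
    obtain ⟨ha, hb, hR⟩ := h.1.rel a b R t3
    rw [pr_eq.1 e, pr_eq.1 e']
    refine tr3_iff.1 ((T a b R).2 ⟨Or.inl ha, Or.inl hb, hR, ?_⟩)
    rw [old a ha, old b hb]
    exact (U.el.app_iff ((h.el hC).maps R) (step_sdW hC h ha) (step_sdW hC h hb)).2
      (((h.canon hC).1.iff a b R ha hb hR).1 t3)
  obtain ⟨u1, rfl, u3⟩ := S.uniq hC r g
  have e : ∀ y ∈ Wm E K G, fac E K G G' y = i y := fun y hy => by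
    obtain ⟨a, f, ha, tf, e⟩ := (h.canon hC).2 y hy
    rw [← ap_eq ((h.el hC).fn tf.1) e, h.fac_val hC S s ha tf, ← u3 a ((N a).2 (Or.inl ha)),
      old a ha, ← u1, U.el.ap ((h.el hC).maps f) (step_sdW hC h ha)]
  have kW := U.el.inn.ord U.lim.1
  refine ⟨S, s, N, (h.fac hC S s).1, U.sub, U.lim, fun α hα => (e α (U.el.inn.tr _ kW _ hα)).trans
    (U.fix α hα), (e κ kW).symm ▸ U.len, fun x hx => ?_, fun a X => (U.mem a X).trans
      (and_congr_right fun _ => and_congr_right fun hX => by rw [e X hX]),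
    fun S hS => (e S hS).symm ▸ U.coh S hS⟩
  obtain ⟨a, f, ha, hf, t, y⟩ := U.gen x hx
  exact ⟨a, f, ha, hf, t, (e f hf).symm ▸ y⟩

end Pool.Agent.Lib.MP_75a307_lc.LE
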