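import Pool.Agent.Lib.MP_75a307_lc.LE.HullT
import Pool.Agent.Lib.MP_75a307_lc.LE.Pull
import Pool.Agent.Lib.MP_75a307_lc.LE.Uniq

/-! The top extender of `L[S]` is strong. -/

set_option synthInstance.maxSize 100000
set_option linter.unusedVariables false
set_option linter.unusedSectionVars false

namespace Pool.Agent.Lib.MP_75a307_lc.LE

open Pool.Agent.Lib.MP_1d770b_lc

universe u
variable {M : Type u} {E : M → M → Prop} [hZ : ZF E]

/-- a cardinal is not the image of a smaller ordinal -/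
theorem str_card (hC : Choice E) {μ β : M} (hμ : IsCard E μ) (hβ : E β μ) (P : M → M → Prop)
    [hP : Df E fun v => P (v 0) (v 1)] (H : ∀ y, E y μ → ∃ u, E u β ∧ P u y)
    (hu : ∀ u y y', P u y → P u y' → y = y') : False := by
  have := hP.d2
  have ob := hμ.1.mem hβ
  obtain ⟨f, f1, f2⟩ := acF hC μ β (fun y u => P u y) H
  obtain ⟨X, hX⟩ := sep E β fun u => ∃ y, App E f y u
  obtain ⟨c, θ, c1, c2, c3, c4, c5⟩ := enum hC X
  have le : ∀ u, IsOrd E u → ∀ z, App E c u z → Sub E z u := by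
    refine ord_ind (fun u => ∀ z, App E c u z → Sub E z u) fun u ou ih z hz y hy => ?_
    have oy := c1.tr (c2.mem hz).2 hy
    obtain ⟨u', hu'⟩ := c4 y oy
    have ou' := ob.mem ((hX _).1 (c2.mem hu').1).1
    rcases ou'.tri ou with t | rfl | t
    · exact ((c1.mem oy).le_of_sub ou' (ih u' t y hu')).lt ou t
    · exact (no1 (c2.fn _ _ _ hu' hz ▸ hy)).elim
    · exact (no2 hy (c5 _ _ _ _ hz hu' (RkLt.of_mem t))).elim
  have hθ : E θ μ := (c1.le_of_sub ob fun z hz => by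
    obtain ⟨u, hu⟩ := c4 z hz
    have m := ((hX _).1 (c2.mem hu).1).1
    exact ((c1.mem hz).le_of_sub (ob.mem m) (le u (ob.mem m) z hu)).lt ob m).lt hμ.1 hβ
  obtain ⟨g, g1, g2⟩ := ex_func (E := E) μ θ (fun y z => ∃ u, App E f y u ∧ App E c u z)
    (fun y hy => by
      obtain ⟨u, h1, h2⟩ := f1.tot hy
      obtain ⟨z, h3, h4⟩ := c2.tot ((hX u).2 ⟨h1, y, h2⟩)
      exact ⟨z, h3, u, h2, h4⟩)
    fun y z z' _ _ _ ⟨u, h1, h2⟩ ⟨u', h3, h4⟩ => c2.fn _ _ _ h2 (f1.fn _ _ _ h3 h1 ▸ h4)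
  refine hμ.2 θ hθ ⟨g, g1, fun y y' z h1 h2 => ?_, fun z hz => ?_⟩
  · obtain ⟨-, -, u, a1, a2⟩ := (g2 _ _).1 h1
    obtain ⟨-, -, u', a3, a4⟩ := (g2 _ _).1 h2
    obtain rfl := c3 _ _ _ a2 a4
    exact hu u _ _ (f2 _ _ a1).2.2 (f2 _ _ a3).2.2
  · obtain ⟨u, h1⟩ := c4 z hz
    obtain ⟨-, y, h2⟩ := (hX _).1 (c2.mem h1).1
    exact ⟨y, (g2 _ _).2 ⟨(f2 _ _ h2).1, hz, u, h2, h1⟩⟩

theorem str_tr {N : M} (h : Trans E N) : Tr E {x | E x N} := fun x hx y hy => h x y hx hy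

theorem str_el (P : Set M → (ℕ → M) → Prop) [d : RD E (fun _ => True) P] :
    ∃ φ : Fm, ∀ (N : M) (π : M → M) (v : ℕ → M), Trans E N → (∀ n, E (v n) N) →
      (SatW E {x | E x N} φ v ↔ Sat E φ fun n => π (v n)) →
      (P {x | E x N} v ↔ P Set.univ fun n => π (v n)) := by
  obtain ⟨φ, hφ⟩ := d.out
  refine ⟨φ, fun N π v t hv e => ?_⟩
  rw [← hφ _ trivial (str_tr t) v hv, ← hφ _ trivial tr_univ _ fun _ => trivial, satW_univ, e]

/-- a collapsed hull with the preimage `A` of the sequence and `m` of the top length -/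
structure strH (E : M → M → Prop) [ZF E] (S κ μ N A m : M) (π : M → M) : Prop where
  dπ : D2 E fun x y => π x = y
  tr : Trans E N
  low : ∀ x, (∀ z, E z x → Rk E z κ) → E x N ∧ π x = x
  back : ∀ y, E y N → (∀ z, E z (π y) → Rk E z κ) → π y = y
  mem : ∀ a b, E a N → E b N → (E (π a) (π b) ↔ E a b)
  pair : ∀ a b, E a N → E b N → E (pr E a b) N ∧ π (pr E a b) = pr E (π a) (π b)
  dec : ∀ p a b, E p N → π p = pr E a b → ∃ a' b', p = pr E a' b'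
  wit : ∀ l c f b, E l N → E c N → E f N → E b (π l) →
    At E S κ (π l) (pr E (pr E (π c) b) (π f)) → ∃ b', E b' l ∧ At E A κ l (pr E (pr E c b') f)
  hA : E A N
  eA : π A = S
  hm : E m N
  em : π m = μ
  lt : E m μ

namespace strH

variable {S κ μ N A m : M} {π : M → M} (h : strH E S κ μ N A m π)
include h

theorem prm {a b : M} (k : E (pr E a b) N) : E a N ∧ E b N :=
  (str_tr h.tr).opair (W := {x | E x N}) k (pr_spec a b)

theorem inj {a b : M} (ha : E a N) (hb : E b N) (e : π a = π b) : a = b :=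
  ext' E fun z => ⟨fun hz => (h.mem z b (h.tr _ _ ha hz) hb).1
    (e ▸ (h.mem z a (h.tr _ _ ha hz) ha).2 hz), fun hz => (h.mem z a (h.tr _ _ hb hz) ha).1
    (e ▸ (h.mem z b (h.tr _ _ hb hz) hb).2 hz)⟩

theorem dec' {p a b : M} (hp : E p N) (e : π p = pr E a b) :
    ∃ a' b', p = pr E a' b' ∧ E a' N ∧ E b' N ∧ π a' = a ∧ π b' = b := by
  obtain ⟨a', b', rfl⟩ := h.dec p a b hp e
  obtain ⟨h1, h2⟩ := h.prm hp
  rw [(h.pair _ _ h1 h2).2] at e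
  exact ⟨a', b', rfl, h1, h2, pr_inj e⟩

theorem at' {u v p : M} :
    At E A u v p ↔ E u N ∧ E v N ∧ E p N ∧ At E S (π u) (π v) (π p) := by
  have k : E u N → E v N → E p N → (At E A u v p ↔ At E S (π u) (π v) (π p)) := fun a b c => by
    obtain ⟨h1, h2⟩ := h.pair u v a b
    obtain ⟨h3, h4⟩ := h.pair _ p h1 c
    rw [at_iff, at_iff, ← h2, ← h4, ← h.eA, h.mem _ _ h3 h.hA]
  refine ⟨fun a => ?_, fun ⟨a, b, c, d⟩ => (k a b c).2 d⟩
  obtain ⟨h1, h2⟩ := h.prm (h.tr _ _ h.hA (at_iff.1 a))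
  obtain ⟨h3, h4⟩ := h.prm h1
  exact ⟨h3, h4, h2, (k h3 h4 h2).1 a⟩

theorem ord {a : M} (ha : E a N) (o : IsOrd E (π a)) : IsOrd E a := by
  refine ⟨fun x y hx hy => ?_, fun x y hx hy => ?_⟩
  · have x1 := h.tr _ _ ha hx
    have y1 := h.tr _ _ x1 hy
    exact (h.mem _ _ y1 ha).1 (o.tr ((h.mem _ _ x1 ha).2 hx) ((h.mem _ _ y1 x1).2 hy))
  · have x1 := h.tr _ _ ha hx
    have y1 := h.tr _ _ ha hy
    exact (o.2 _ _ ((h.mem _ _ x1 ha).2 hx) ((h.mem _ _ y1 ha).2 hy)).imp (h.mem _ _ x1 y1).1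
      (Or.imp (h.inj x1 y1) (h.mem _ _ y1 x1).1)

theorem tupN {l a : M} (hl : E l N) (ha : E a (tup E l)) : E a N :=
  tup_ind l (fun a => E a N) (fun x hx => h.tr _ _ hl hx) (fun a b _ _ x y => (h.pair a b x y).1) a ha

theorem tupB {l a : M} (hl : E l N) (o : IsOrd E l) (ha : E a N) (k : E (π a) (tup E (π l))) :
    E a (tup E l) := by
  have := h.dπ
  refine tup_ind (π l) (fun y => ∀ a, E a N → π a = y → E a (tup E l)) ?_ ?_ _ k a ha rfl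
  · rintro _ hx a ha rfl
    exact sub_tup ((h.mem _ _ ha hl).1 hx)
  · intro x y _ _ i1 i2 a ha e
    obtain ⟨a', b', rfl, h1, h2, h3, h4⟩ := h.dec' ha e
    exact (tup_pr o).2 ⟨i1 _ h1 h3, i2 _ h2 h4⟩

theorem le (o : IsOrd E κ) {a : M} (k : Le E a κ) : E a N ∧ π a = a :=
  h.low a fun z hz => o.rk (k.sub o z hz)

theorem rk {x : M} (k : Rk E x κ) : E x N ∧ π x = x := h.low x fun _ hz => k.mem hz

variable (i : cmpAImg E Set.univ S) (hd : Dom E S κ μ)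
include i hd

theorem below {u v p : M} (hu : E u κ) : At E A u v p ↔ At E S u v p := by
  have l := (i.lim _ _ hd).1
  have r : ∀ {v p}, At E S u v p → Rk E v κ ∧ Rk E p κ := fun a =>
    have hv := i.nov _ _ _ _ ⟨_, a⟩ hd hu
    ⟨l.1.rk hv, i.rk _ _ _ _ a l hu hv⟩
  obtain ⟨u1, u2⟩ := h.rk (l.1.rk hu)
  rw [h.at', u2]
  refine ⟨fun ⟨_, b, c, d⟩ => ?_, fun a => ⟨u1, (h.rk (r a).1).1, (h.rk (r a).2).1, ?_⟩⟩
  · rwa [h.back v b fun z hz => (r d).1.mem hz, h.back p c fun z hz => (r d).2.mem hz] at d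
  · rwa [(h.rk (r a).1).2, (h.rk (r a).2).2]

theorem pull (hC : Choice E) {l F F' : M} (o : IsOrd E l) (hl : E l N) (hκ : E κ l)
    (hF : Slice E S κ (π l) F) (x : Ext1 E Set.univ κ (π l) F) (hF' : Slice E A κ l F') :
    PullMap E π κ (π l) l F F' := by
  have lk := (i.lim _ _ hd).1
  obtain ⟨k1, k2⟩ := h.le lk.1 (Or.inr rfl)
  have tk : ∀ X, Sub E X (tup E κ) → ∀ z, E z X → Rk E z κ := fun X a z hz =>
    tup_rk lk (fun _ => id) (a z hz)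
  refine ⟨h.dπ, o, hκ, fun a ha => (h.mem _ _ (h.tr _ _ hl ha) hl).2 ha, fun a b ha hb =>
    (h.mem _ _ (h.tr _ _ (h.tr _ _ hl ha) hb) (h.tr _ _ hl ha)).2 hb, fun a ha => (h.le lk.1 ha).2,
    fun a b ha hb => (h.pair _ _ (h.tupN hl ha) (h.tupN hl hb)).2, fun c f b hc r fn hb a => ?_,
    fun p => ⟨fun hp => ?_, ?_⟩⟩
  · obtain ⟨f1, f2⟩ := h.low f fun p hp => by
      obtain ⟨s, t, a, b, c⟩ := r p hp
      exact lk.opair (tup_rk lk (fun _ => id) b) (tup_rk lk (fun _ => id) c) a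
    have c1 := h.tupN hl hc
    obtain ⟨b', b1, b2⟩ := h.wit l c f b hl c1 f1 hb (by rw [f2]; exact (hF _).1 (at_iff.1 a))
    have b3 := h.tr _ _ hl b1
    have b4 := (h.at'.1 b2).2.2.2
    rw [k2, (h.pair _ _ (h.pair _ _ c1 b3).1 f1).2, (h.pair _ _ c1 b3).2, f2] at b4
    obtain ⟨j, W, e⟩ := x.ult hC
    have key : ∀ y, E (pr E (pr E (π c) y) f) F → App E (j f) (π c) y := fun y hy => by
      obtain ⟨a, X, h1, -, -, h2⟩ := (e.mem' _).1 hy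
      obtain ⟨rfl, rfl⟩ := pr_inj (pr_eq.1 h1)
      exact app_iff.2 h2
    exact ⟨b', b1, e.emb.el.fn fn _ _ _ (key _ ((hF _).2 b4)) (key _ (at_iff.1 a))⟩
  · obtain ⟨-, -, p1, p2⟩ := h.at'.1 ((hF' p).1 hp)
    rw [k2] at p2
    obtain ⟨-, -, -, a, X, h1, ⟨t, -, ht, ha⟩, t', -, ht', hX⟩ :=
      i.shape _ trivial _ trivial _ trivial p2
    rw [ht.eq] at ha
    rw [ht'.eq] at hX
    obtain ⟨a', X', rfl, a1, a2, rfl, rfl⟩ := h.dec' p1 (pr_eq.1 h1)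
    refine ⟨a', X', pr_spec _ _, h.tupB hl o a1 ha, app_iff.2 ((hF _).2 ?_)⟩
    rwa [pr_eq.1 h1, h.back X' a2 (tk _ hX)] at p2
  · rintro ⟨a, X, h1, ha, h2⟩
    have h3 := (hF _).1 (app_iff.1 h2)
    obtain ⟨-, -, -, a', X', h4, -, t', -, ht', hX⟩ := i.shape _ trivial _ trivial _ trivial h3
    obtain ⟨rfl, rfl⟩ := pr_inj (pr_eq.1 h4)
    rw [ht'.eq] at hX
    obtain ⟨x1, x2⟩ := h.low X (tk _ hX)
    obtain ⟨p1, p2⟩ := h.pair a X (h.tupN hl ha) x1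
    rw [pr_eq.1 h1]
    exact (hF' _).2 (h.at'.2 ⟨k1, hl, p1, by rwa [k2, p2, x2]⟩)

theorem same (hC : Choice E) (hS : Coh1 E Set.univ S) (hV : ∀ x, x ∈ LK E S) {l : M}
    (k : Le E l m) (p : M) : At E A κ l p ↔ At E S κ l p := by
  obtain ⟨lk, oμ⟩ := i.lim _ _ hd
  obtain ⟨k1, k2⟩ := h.le lk.1 (Or.inr rfl)
  have om := oμ.mem h.lt
  refine ord_ind (fun l => Le E l m → ∀ p, (At E A κ l p ↔ At E S κ l p)) ?_ l (k.ord om) k p
  intro l o ih k p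
  have hl : E l N := k.elim (h.tr _ _ h.hm) fun e => e ▸ h.hm
  by_cases hκ : E κ l
  swap
  · exact iff_of_false (fun a => hκ ((h.mem _ _ k1 hl).1
      (i.shape _ trivial _ trivial _ trivial (h.at'.1 a).2.2.2).2.2.1))
      fun a => hκ (i.shape _ trivial _ trivial _ trivial a).2.2.1
  have d : Dom E S κ (π l) := by
    rcases k with k | rfl
    · exact i.down _ _ _ hd (h.em ▸ (h.mem _ _ hl h.hm).2 k) (k2 ▸ (h.mem _ _ k1 hl).2 hκ)
    · exact h.em ▸ hd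
  obtain ⟨F, -, s1, s2, s3⟩ := hS.2.2.2 κ trivial _ trivial d
  obtain ⟨F', hF'⟩ := sep E N fun p => At E A κ l p
  have s' : Slice E A κ l F' := fun p => (hF' p).trans ⟨(·.2), fun a => ⟨(h.at'.1 a).2.2.1, a⟩⟩
  have pm := h.pull i hd hC o hl hκ s1 s2 s'
  have x := s2.pull hC pm
  have oS : ∀ u v p, At E S u v p → IsOrd E u := fun u v p a => (i.lim _ _ ⟨p, a⟩).1.1
  have oA : ∀ u v p, At E A u v p → IsOrd E u := fun u v p a =>
    h.ord (h.at'.1 a).1 (oS _ _ _ (h.at'.1 a).2.2.2)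
  have c := s3.pull hC s2 pm oS oA (fun u v p hu => h.below i hd hu) fun κ' v a X a1 a2 a3 a4 => by
    obtain ⟨x1, x2⟩ := h.low X fun z hz => tup_rk lk (fun _ => id) (a4 z hz)
    obtain ⟨p1, p2⟩ := h.pair a X (h.tupN hl a3) x1
    rw [h.at', (h.le lk.1 a1).2, p2, x2]
    exact ⟨(·.2.2.2), fun e => ⟨(h.le lk.1 a1).1, h.tr _ _ hl a2, p1, e⟩⟩
  have c' : CohAt E Set.univ S κ l F' := c.congr hC x oA oS fun κ' l' p e => by
    rcases e with e | ⟨rfl, e⟩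
    · exact (h.below i hd e).symm
    · exact (ih l' e (Or.inl (k.sub om _ e)) p).symm
  exact (s' p).symm.trans (u1 hC hS hV κ trivial l trivial F' trivial
    (i.down _ _ _ hd (k.lt oμ h.lt) hκ) x c' p)

end strH

theorem str_hull (hC : Choice E) {S κ μ n x : M} {j : M → M} {W : Set M} (h : ElEmb E j W κ)
    (hμ : IsCard E μ) (hi : Inacc E W μ) (hn : Lim E n) (n1 : E n μ) (n2 : E κ n)
    (hx : ∀ z, E z x → z ∈ W ∧ Rk E z n) (hV : x ∈ LK E S) :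
    ∃ N A m π, strH E S κ μ N A m π ∧ x ∈ LK E A := by
  have e := h.el
  have I := e.inn hC
  obtain ⟨T, TW, hT⟩ := I.V hn.1
  obtain ⟨w, hw, wk⟩ := (omega_lt h.ord).2 h.ia.2.1
  obtain ⟨φ, hφ⟩ := str_el (E := E) fun _ v => ∃ a b, IsOPair E (v 0) a b ∧ a = a
  obtain ⟨ψ, hψ⟩ := str_el (E := E) fun W v => ∃ b, E b (v 2) ∧ ∃ q ∈ W, IsOPair E q (v 3) b ∧
    ∃ p ∈ W, IsOPair E p q (v 4) ∧ ∃ r ∈ W, IsOPair E r (v 1) (v 2) ∧ App E (v 0) r p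
  obtain ⟨N, g, π, c1, c2, c3, c4, c5, c6, c7, c8, c9, c10, c11, c12⟩ := condT hC
    (T := T) (fun a b ha hb => (hT _).2 ⟨I.tr _ ((hT _).1 ha).1 _ hb, ((hT _).1 ha).2.mem hb⟩) hw
    (fun a ha => (hT _).2 ⟨I.ord (hw.ord.mem ha), hn.1.rk (hn.1.tr n2 (h.ord.tr wk ha))⟩)
    (fun a b ha hb => (hT _).2 ⟨I.pr.2 ⟨((hT _).1 ha).1, ((hT _).1 hb).1⟩,
      hn.opair ((hT _).1 ha).2 ((hT _).1 hb).2 (pr_spec a b)⟩) [x, S, μ] [φ, ψ]
  obtain ⟨y, y1, y2⟩ := c7 x (by simp)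
  obtain ⟨A, a1, a2⟩ := c7 S (by simp)
  obtain ⟨m, m1, m2⟩ := c7 μ (by simp)
  have low : ∀ x, (∀ z, E z x → Rk E z κ) → E x T := fun x r => (hT _).2
    ⟨cmpA_up (e.elW hC) h.ord (fun _ _ k => h.fixV k) (fun _ _ _ => trivial) trivial r,
      Rk.intro hn.1 n2 r⟩
  have kT := low κ fun z hz => h.ord.rk hz
  have H : E m μ → strH E S κ μ N A m π := fun lt =>
    ⟨c1, c2, fun x r => ⟨c3 _ (low x r), c6 _ (low x r)⟩,
      fun y hy r => c8 y hy fun z hz => low z fun s hs => (r z hz).mem hs, c9, c10,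
      fun p a b hp k => by
        obtain ⟨a', b', k', -⟩ := (hφ N π (fun _ => p) c2 (fun _ => hp)
          (c11 φ (by simp) _ fun _ => hp)).2 ⟨a, b, pr_eq.2 k, rfl⟩
        exact ⟨a', b', pr_eq.1 k'⟩,
      fun l c f b hl hc hf hb ⟨r, r1, r2⟩ => by
        have hv : ∀ n, E ([A, κ, l, c].getD n f) N := fun n =>
          match n with | 0 => a1 | 1 => c3 _ kT | 2 => hl | 3 => hc | _ + 4 => hf
        obtain ⟨b', b1, q, -, q1, p, -, p1, r', -, r3, r4⟩ := (hψ N π _ c2 hv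
          (c11 ψ (by simp) _ hv)).2 ⟨b, hb, _, trivial, pr_spec _ _, _, trivial, pr_spec _ _,
            r, trivial, show IsOPair E r (π κ) (π l) by rwa [c6 _ kT],
            show App E (π A) r _ by rwa [a2]⟩
        rw [pr_eq.1 p1, pr_eq.1 q1] at r4
        exact ⟨b', b1, r', r3, r4⟩,
      a1, a2, m1, m2, lt⟩
  have ey : π y = y := c8 y y1 fun z hz => (hT z).2 (hx z (y2 ▸ hz))
  refine ⟨N, A, m, π, H (by_contra fun n0 => ?_), ?_⟩
  · have om : IsOrd E m := by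
      refine ⟨fun a b ha hb => ?_, fun a b ha hb => ?_⟩
      · have x1 := c2 _ _ m1 ha
        have x2 := c2 _ _ x1 hb
        exact (c9 _ _ x2 m1).1 (m2 ▸ hμ.1.tr (m2 ▸ (c9 _ _ x1 m1).2 ha) ((c9 _ _ x2 x1).2 hb))
      · have x1 := c2 _ _ m1 ha
        have x2 := c2 _ _ m1 hb
        refine (hμ.1.2 _ _ (m2 ▸ (c9 _ _ x1 m1).2 ha) (m2 ▸ (c9 _ _ x2 m1).2 hb)).imp
          (c9 _ _ x1 x2).1 (Or.imp (fun q => ext' E fun z => ⟨fun hz => ?_, fun hz => ?_⟩)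
            (c9 _ _ x2 x1).1)
        · exact (c9 _ _ (c2 _ _ x1 hz) x2).1 (q ▸ (c9 _ _ (c2 _ _ x1 hz) x1).2 hz)
        · exact (c9 _ _ (c2 _ _ x2 hz) x1).1 (q ▸ (c9 _ _ (c2 _ _ x2 hz) x2).2 hz)
    obtain ⟨β, hβ, f, -, f1, f2⟩ := (e.tr0 fun W => ∀ l ∈ W, Inacc E W l → ∀ x ∈ W, Rk E x l →
      ∃ β, E β l ∧ ∃ f ∈ W, Func E f x β ∧ OneOne E f).1 (fun l _ hl x _ r =>
        let ⟨β, h1, f, h2⟩ := (hl.ia hC).small hC r; ⟨β, h1, f, trivial, h2⟩) μ (I.ord hμ.1) hi T TW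
          (Rk.intro hμ.1 n1 fun z hz => ((hT z).1 hz).2)
    refine str_card hC hμ hβ (fun u y => ∃ t, App E f t u ∧ App E g t y) (fun z hz => ?_)
      fun u z z' ⟨t, h1, h2⟩ ⟨t', h3, h4⟩ => c4 _ _ _ h2 (f2 _ _ _ h3 h1 ▸ h4)
    obtain ⟨t, t1, t2⟩ := c5 z (c2 _ _ m1 ((hμ.1.le_of_not om n0).sub om z hz))
    obtain ⟨u, u1, u2⟩ := f1.tot t1
    exact ⟨u, u1, t, u2, t2⟩
  · rw [← y2, ey]
    exact c12 A y a1 y1 (by rw [a2, y2]; exact hV)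

theorem strong (hC : Choice E) {S κ μ F : M} {j : M → M} {W : Set M} (hS : Coh1 E Set.univ S)
    (hV : ∀ x, x ∈ LK E S)
    (top : ∀ κ' l', Dom E S κ' l' → E κ' κ ∨ (κ' = κ ∧ Le E l' μ)) (hd : Dom E S κ μ)
    (hμ : IsCard E μ) (hF : Slice E S κ μ F) (h : ExtOf E j W κ μ F) (hi : Inacc E W μ) :
    VSub E W μ := by
  have e := h.emb.el
  have I := e.inn hC
  have i : cmpAImg E Set.univ S := cmpA_img hC hS el_id
  have ok := h.emb.ord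
  obtain ⟨F0, -, s1, -, s3⟩ := hS.2.2.2 κ trivial μ trivial hd
  obtain rfl : F0 = F := ext' E fun p => (s1 p).trans (hF p).symm
  have coh := h.coh hC i.shape s3
  have dW := e.dW
  refine fun x hx => ord_ind (fun b => Le E b μ → ∀ x, Rk E x b → x ∈ W) ?_ μ hμ.1 (Or.inr rfl) x
    (inV_iff.1 hx)
  clear hx x
  intro b ob ih le x r
  obtain ⟨β, hβ, rb⟩ := r.elim
  have bμ := le.sub hμ.1 β hβ
  obtain ⟨c, c1, c2, c3⟩ := (e.inacc_lim hi).two h.len.2.1 bμ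
  obtain ⟨n, n1, n2, n3⟩ := e.lim_below hC hi c1
  obtain ⟨N, A, m, π, H, hx⟩ := str_hull hC h.emb hμ hi n3 n1 (n3.1.tr n2 c2) (fun z hz =>
    ⟨ih β hβ (Or.inl bμ) z (rb z hz), (rb z hz).lt n3.1 (n3.1.tr n2 c3)⟩) (hV x)
  have om := hμ.1.mem H.lt
  obtain ⟨B, hB, eB⟩ := I.sep (e.maps S) (fun _ v => ∃ q p, IsOPair E (v 0) q p ∧ ∃ u w,
    IsOPair E q u w ∧ (E u (v 1) ∨ (u = v 1 ∧ Le E w (v 2)))) (fun n => [κ].getD n m) fun n =>
      match n with | 0 => I.ord ok | _ + 1 => I.ord om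
  have key : ∀ u v p, (E u κ ∨ (u = κ ∧ Le E v m)) → (At E (j S) u v p ↔ At E A u v p) := by
    rintro u v p (k | ⟨rfl, k⟩)
    · rw [coh u v p (Or.inl k), H.below i hd k]
      exact and_iff_left_of_imp fun a => hμ.1.tr h.len.2.1 (i.nov _ _ _ _ ⟨p, a⟩ hd k)
    · rw [coh u v p (Or.inr rfl), H.same i hd hC hS hV k]
      exact and_iff_left (k.lt hμ.1 H.lt)
  refine I.lk hB (fun t _ => (eB t).trans ⟨?_, fun ht => ?_⟩) hx
  · rintro ⟨h1, q, p, h2, u, v, h3, k⟩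
    rw [show t = pr E q p from pr_eq.1 h2, pr_eq.1 h3] at h1 ⊢
    exact at_iff.1 ((key u v p k).1 (at_iff.2 h1))
  · have tN := H.tr _ _ H.hA ht
    obtain ⟨q, p, h2, u, v, h3, -⟩ := hS.1 _ (H.eA ▸ (H.mem _ _ tN H.hA).2 ht)
    obtain ⟨q', p', rfl, q1, -, q2, -⟩ := H.dec' tN (pr_eq.1 h2)
    obtain ⟨u', v', rfl, u1, v1, -, -⟩ := H.dec' q1 (q2.trans (pr_eq.1 h3))
    have a := at_iff.2 ht
    have t := top _ _ ⟨_, (H.at'.1 a).2.2.2⟩
    have eu : π u' = u' := H.back u' u1 fun z hz =>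
      ok.rk (Le.sub (t.imp_right (·.1)) ok z hz)
    rw [eu] at t
    have k : E u' κ ∨ (u' = κ ∧ Le E v' m) := t.imp_right fun t => ⟨t.1, t.2.imp
      (fun k => (H.mem _ _ v1 H.hm).1 (H.em ▸ k)) fun k => H.inj v1 H.hm (k.trans H.em.symm)⟩
    exact ⟨at_iff.1 ((key _ _ _ k).2 a), _, _, pr_spec _ _, _, _, pr_spec _ _, k⟩

end Pool.Agent.Lib.MP_75a307_lc.LE
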