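import Pool.Agent.Lib.MP_75a307_lc.LE.MoA
import Pool.Agent.Lib.MP_75a307_lc.LE.HullF

/-! The first small model: a collapsed hull of `K` over `V_n ∩ W`. -/

set_option synthInstance.maxSize 100000
set_option linter.unusedVariables false
set_option linter.unusedSectionVars false

namespace Pool.Agent.Lib.MP_75a307_lc.LE

open Pool.Agent.Lib.MP_1d770b_lc

universe u
variable {M : Type u} {E : M → M → Prop} [hZ : ZF E]

/-- the collapse fixes the subsets of a transitive part -/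
theorem str2A_col {H T y : M} (hT : Trans E T) (s : Sub E T H) (hy : E y H) (k : Sub E y T) :
    col E H y = y := by
  refine mem_ind E (fun y => E y H → Sub E y T → col E H y = y) ?_ y hy k
  clear hy k y
  intro y ih hy k
  have a : ∀ u, E u y → col E H u = u := fun u hu =>
    ih u hu (s _ (k u hu)) fun z hz => hT _ _ (k u hu) hz
  refine ext' E fun z => (col_mem hy z).trans ⟨?_, fun hz => ⟨z, s _ (k z hz), hz, (a z hz).symm⟩⟩
  rintro ⟨u, -, hu, rfl⟩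
  rwa [a u hu]

theorem str2_base {K θ S κ μ n x : M} {j : M → M} {W : Set M} (k : KG E K θ S)
    (h : ElEmb E j W κ) (hμ : IsCard E μ) (hi : Inacc E W μ) (hn : Lim E n) (n1 : E n μ)
    (n2 : E κ n) (hx : ∀ z, E z x → z ∈ W ∧ Rk E z n) (μK : E μ K) :
    ∃ (D : MoD M) (L m : M) (π : M → M), Mo E D ∧ D.Ok L ∧ EN E (D.N L) π K ∧ π (D.A L) = S ∧
      E x (D.N L) ∧ E m (D.N L) ∧ π m = μ ∧ (∀ y ∈ W, Rk E y n → E y (D.N L) ∧ π y = y) ∧
      ∀ l, E l (D.N L) → IsOrd E l → E l μ := by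
  have hC := k.ac
  have e := h.el
  have I := e.inn hC
  obtain ⟨T, TW, hT⟩ := I.V hn.1
  obtain ⟨w, hw, wk⟩ := (omega_lt h.ord).2 h.ia.2.1
  have nθ : E n θ := k.lim.1.tr (((k.mem μ).1 μK).ord_mem hμ.1) n1
  have tr : Trans E T := fun a b ha hb =>
    (hT _).2 ⟨I.tr _ ((hT _).1 ha).1 _ hb, ((hT _).1 ha).2.mem hb⟩
  have hp : ∀ a b, E a T → E b T → E (pr E a b) T := fun a b ha hb =>
    (hT _).2 ⟨I.pr.2 ⟨((hT _).1 ha).1, ((hT _).1 hb).1⟩,
      hn.opair ((hT _).1 ha).2 ((hT _).1 hb).2 (pr_spec a b)⟩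
  have TK : Sub E T K := fun y hy => (k.mem y).2 (((hT y).1 hy).2.lt k.lim.1 nθ)
  have xK : E x K := (k.mem x).2 (Rk.intro k.lim.1 nθ fun z hz => (hx z hz).2)
  obtain ⟨Y, g, sk, g1, g2, g3⟩ := hullF hC k.lim k.mem tr hw
    (fun a ha => (hT _).2 ⟨I.ord (hw.ord.mem ha), hn.1.rk (hn.1.tr n2 (h.ord.tr wk ha))⟩) hp
    [x, S, μ] (by simp only [List.forall_mem_cons]; exact ⟨xK, k.hS, μK, by simp⟩)
  obtain ⟨G, ok, eJ, -, sd⟩ := okG_base k sk TK ⟨κ, (hT _).2 ⟨I.ord h.ord, hn.1.rk n2⟩⟩ hp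
  obtain ⟨eG, eZ⟩ := gL_mkL (E := E) G T
  have hl := hG_hl k sk ok
  have cs : ∀ y ∈ [x, S, μ], E y (hG E K Y G T) := fun y hy => by
    obtain ⟨f, f1, f2⟩ := g3 y hy
    have := hG_const k sk ok f1 f2
    rwa [eJ] at this
  have TH : Sub E T (hG E K Y G T) := fun a ha => sd a ha ▸ hG_sd k sk ok ha
  have eH : hL E K Y (mkL E G T) = hG E K Y G T := by unfold hL; rw [eG, eZ]
  have eN : (moD E K Y S).N (mkL E G T) = colN E (hG E K Y G T) := congrArg (colN E) eH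
  have eA : (moD E K Y S).A (mkL E G T) = col E (hG E K Y G T) S := by
    show col E (hL E K Y (mkL E G T)) (jG E K (gL E (mkL E G T)) S) = _
    rw [eH, eG, eJ]; rfl
  rw [eJ] at hl
  obtain ⟨fS, s1, s2⟩ := g3 S (by simp)
  have xH := cs x (by simp)
  refine ⟨moD E K Y S, mkL E G T, col E (hG E K Y G T) μ, unc E (hG E K Y G T),
    mo_inst k sk s1 s2, okL_mkL ok, ?_⟩
  rw [eN, eA]
  refine ⟨hl.en, (hl.unc_col (cs S (by simp))).2, ?_, (hl.unc_col (cs μ (by simp))).1,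
    (hl.unc_col (cs μ (by simp))).2, fun y h1 h2 => ?_, fun l l1 ol => by_contra fun n0 => ?_⟩
  · have := (hl.unc_col xH).1
    rwa [str2A_col tr TH xH fun z hz => (hT z).2 (hx z hz)] at this
  · have yT := (hT y).2 ⟨h1, h2⟩
    have := hl.unc_col (TH y yT)
    rwa [str2A_col tr TH (TH y yT) fun z hz => tr _ _ yT hz] at this
  · obtain ⟨β, hβ, f, -, f1, f2⟩ := (e.tr0 fun W => ∀ l ∈ W, Inacc E W l → ∀ x ∈ W, Rk E x l →
      ∃ β, E β l ∧ ∃ f ∈ W, Func E f x β ∧ OneOne E f).1 (fun l _ hl x _ r =>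
        let ⟨β, h1, f, h2⟩ := (hl.ia hC).small hC r; ⟨β, h1, f, trivial, h2⟩) μ (I.ord hμ.1) hi T TW
          (Rk.intro hμ.1 n1 fun z hz => ((hT z).1 hz).2)
    refine str_card hC hμ hβ (fun u z => ∃ t a, App E f (pr E t a) u ∧
      z = col E (hG E K Y G T) (ap E (ap E g t) a)) (fun z hz => ?_) ?_
    · obtain ⟨y, y1, rfl⟩ := (mem_colN _ z).1
        (hl.en.tr _ _ l1 ((hμ.1.le_of_not ol n0).sub ol z hz))
      obtain ⟨c, a, c1, a1, rfl⟩ := (mem_hG _ _ _ _ y).1 y1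
      obtain ⟨t, t1, t2⟩ := g2 c c1
      obtain ⟨u, u1, u2⟩ := f1.tot (hp t a t1 a1)
      exact ⟨u, u1, t, a, u2, by rw [ap_eq g1 t2, sd a a1, eJ]; rfl⟩
    · rintro u z z' ⟨t, a, h1, rfl⟩ ⟨t', a', h2, rfl⟩
      obtain ⟨rfl, rfl⟩ := pr_inj (f2 _ _ _ h1 h2)
      rfl

end Pool.Agent.Lib.MP_75a307_lc.LE
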