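import Pool.Agent.Lib.MP_75a307_lc.LE.Inn
import Pool.Agent.Lib.MP_75a307_lc.LE.Ult

/-! Threads are absolute; derived systems are countably complete. -/

set_option synthInstance.maxSize 100000
set_option linter.unusedVariables false
set_option linter.unusedSectionVars false

namespace Pool.Agent.Lib.MP_75a307_lc.LE

open Pool.Agent.Lib.MP_1d770b_lc

universe u
variable {M : Type u} {E : M → M → Prop} [hZ : ZF E]

/-- dependent choice along `ω` -/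
theorem tree_dc (hC : Choice E) {w A e : M} (hw : IsOmega E w) (he : IsEmp E e) (hA : E e A)
    (P : M → M → M → Prop) (dP : D3 E P) (I : M → M → Prop) (dI : D2 E I) (h0 : I e e)
    (H : ∀ n s m, E s A → IsSuc E m n → I n s → ∃ s', E s' A ∧ P n s s' ∧ I m s') :
    ∃ g, Fn E g ∧ (∀ n, E n w → ∃ s, App E g n s) ∧ App E g e e ∧
      ∀ n s, App E g n s → E n w ∧ ∀ m s', IsSuc E m n → App E g m s' → P n s s' := by
  obtain ⟨Z, hZ', -⟩ := ex_rel E w A fun _ _ => True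
  obtain ⟨f, -, f1, f2, f3⟩ := ac hC Z fun x y => ∃ n s, IsOPair E x n s ∧ E y A ∧ P n s y ∧
    ∀ m, IsSuc E m n → I m y
  let S : M → M → M → Prop := fun g n y => ∀ z, E z y ↔
    ∃ m y', IsSuc E n m ∧ App E g m y' ∧ ∃ u, At E f m y' u ∧ E z u
  have h : RecOK E (IsOrd E) E S :=
    { wfOrd E with
      dS := fun _ _ _ _ _ _ => by simp only [S]; infer_instance
      inv := fun f g x y _ H hS z => by
        rw [hS z]
        exact exists_congr fun m => exists_congr fun y' => and_congr_right fun hm => by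
          rw [H m hm.self]
      ex := fun g x _ _ => by
        obtain ⟨d, hd⟩ := ex_fld E f
        obtain ⟨d1, hd1⟩ := ex_sUnion E d
        obtain ⟨y, hy⟩ := sep E d1
          fun z => ∃ m y', IsSuc E x m ∧ App E g m y' ∧ ∃ u, At E f m y' u ∧ E z u
        exact ⟨y, fun z => (hy z).trans ⟨fun h => h.2, fun ⟨m, y', a, b, u, ⟨q, c, c'⟩, k⟩ =>
          ⟨(hd1 z).2 ⟨u, (hd _ _ c').2, k⟩, m, y', a, b, u, ⟨q, c, c'⟩, k⟩⟩⟩
      uniq := fun f x y y' _ _ h1 h2 => ext' E fun z => (h1 z).trans (h2 z).symm }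
  have := h.dRec
  have r0 : ∀ y, Rec E (IsOrd E) E S e y → y = e := fun y hy => by
    obtain ⟨g, -, k⟩ := h.elim hy
    exact IsEmp.uniq (fun z hz => let ⟨m, _, a, _⟩ := (k z).1 hz; he m a.self) he
  have r1 : ∀ n s m s', E n w → E s A → I n s → IsSuc E m n → Rec E (IsOrd E) E S n s →
      Rec E (IsOrd E) E S m s' → E s' A ∧ P n s s' ∧ I m s' := fun n s m s' a b c d r r' => by
    obtain ⟨y, hy⟩ := f3 (pr E n s) ((hZ' _).2 ⟨n, s, a, b, pr_spec n s, trivial⟩) (by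
      obtain ⟨y, k1, k2, k3⟩ := H n s m b d c
      exact ⟨y, n, s, pr_spec n s, k1, k2, fun m' d' => d.uniq d' ▸ k3⟩)
    obtain ⟨-, n', t, k0, k1, k2, k3⟩ := f2 _ _ hy
    obtain ⟨rfl, rfl⟩ := (pr_spec n s).inj k0
    obtain ⟨g, hg, k⟩ := h.elim r'
    obtain rfl : s' = y := ext' E fun z => (k z).trans ⟨fun ⟨n', t, a1, a2, u, ⟨q, a3, a4⟩, a5⟩ => by
      obtain rfl := d.inj a1
      obtain rfl := h.fn r ((hg n d.self t).1 a2)
      obtain rfl := pr_eq.1 a3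
      exact f1 _ _ _ a4 hy ▸ a5, fun hz =>
        ⟨n, s, d, (hg n d.self s).2 r, y, ⟨_, pr_spec n s, hy⟩, hz⟩⟩
    exact ⟨k1, k2, k3 m d⟩
  have r2 : ∀ n, E n w → ∀ s, Rec E (IsOrd E) E S n s → E s A ∧ I n s := by
    refine hw.ind (fun n => ∀ s, Rec E (IsOrd E) E S n s → E s A ∧ I n s) ?_ ?_
    · intro e' he' s r
      obtain rfl := he.uniq he'
      obtain rfl := r0 s r
      exact ⟨hA, h0⟩
    · intro n m a d ih s' r'
      obtain ⟨s, r⟩ := h.total (hw.ord.mem a)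
      have := r1 n s m s' a (ih s r).1 (ih s r).2 d r r'
      exact ⟨this.1, this.2.2⟩
  obtain ⟨g, -, hg⟩ := ex_rel E w A (Rec E (IsOrd E) E S)
  refine ⟨g, fun n s s' a b => h.fn ((hg _ _).1 a).2.2 ((hg _ _).1 b).2.2, fun n a => ?_, ?_,
    fun n s a => ⟨((hg _ _).1 a).1, fun m s' d b => ?_⟩⟩
  · obtain ⟨s, r⟩ := h.total (hw.ord.mem a)
    exact ⟨s, (hg _ _).2 ⟨a, (r2 n a s r).1, r⟩⟩
  · obtain ⟨s, r⟩ := h.total he.ord
    exact (hg _ _).2 ⟨hw.emp he, hA, r0 s r ▸ r⟩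
  · obtain ⟨a1, a2, a3⟩ := (hg _ _).1 a
    exact (r1 n s m s' a1 a2 (r2 n a1 s a3).2 d a3 ((hg _ _).1 b).2.2).2.1

variable (E) in
/-- `s'` extends `s` and threads the `n`-th triple -/
def TreeX (H h n s s' : M) : Prop := Fn E s' ∧ Sub E s s' ∧ ∀ t, App E h n t → E t H →
  ∀ a q, IsOPair E t a q → ∀ b R, IsOPair E q b R →
    ∃ u, App E s' a u ∧ ∃ u', App E s' b u' ∧ App E R u u'

variable (E) in
/-- `ρ` ranks a part of the tree of finite threads -/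
def TreeC (W : Set M) (H h X ρ : M) : Prop := ∀ n ∈ W, ∀ s ∈ W, ∀ α ∈ W, At E ρ n s α →
  IsOrd E α ∧ ∀ m ∈ W, IsSuc E m n → ∀ s' ∈ W, Sub E s' X → TreeX E H h n s s' →
    ∃ β, E β α ∧ At E ρ m s' β

variable (E) in
/-- a thread or a ranking of the root -/
def TreeP (W : Set M) (H h w e : M) : Prop := Fn E h → IsW E w →
  (∀ t, E t H → ∃ n, E n w ∧ App E h n t) → (¬ ∃ x, E x e) → (∃ σ ∈ W, Thr E H σ) ∨
    ∃ X ∈ W, (∀ a q, App E H a q → ∀ b R, IsOPair E q b R → ∀ u u', App E R u u' →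
      App E X a u ∧ App E X b u') ∧ ∃ ρ ∈ W, TreeC E W H h X ρ ∧ ∃ α ∈ W, At E ρ e e α

instance (i j k l m : ℕ) : UR.{u} fun _ E _ v => TreeX E (v i) (v j) (v k) (v l) (v m) := by
  unfold TreeX; infer_instance
instance (i j k l : ℕ) : UR.{u} fun _ E W v => TreeC E W (v i) (v j) (v k) (v l) := by
  unfold TreeC; infer_instance
instance (i j k l : ℕ) : UR.{u} fun _ E W v => TreeP E W (v i) (v j) (v k) (v l) := by
  unfold TreeP; infer_instance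
instance (H h : M) (a b c : (ℕ → M) → M) [IsT a] [IsT b] [IsT c] :
    Df E fun v => TreeX E H h (a v) (b v) (c v) := by unfold TreeX; infer_instance
instance (H h X : M) (a : (ℕ → M) → M) [IsT a] :
    Df E fun v => TreeC E Set.univ H h X (a v) := by unfold TreeC; infer_instance

theorem tree_up {H h X n s m : M} (d : IsSuc E m n) (k : ∀ s', Sub E s' X → TreeX E H h n s s' →
    ∃ ρ, TreeC E Set.univ H h X ρ ∧ ∃ α, At E ρ m s' α) :
    ∃ ρ, TreeC E Set.univ H h X ρ ∧ ∃ α, At E ρ n s α := by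
  obtain ⟨A, hA⟩ := ex_pow E X
  obtain ⟨b, hb⟩ := coll E A fun s' ρ => TreeC E Set.univ H h X ρ ∧ ∃ α, At E ρ m s' α
  obtain ⟨b', hb'⟩ := sep E b fun ρ => TreeC E Set.univ H h X ρ
  obtain ⟨U, hU⟩ := ex_sUnion E b'
  obtain ⟨F, hF⟩ := ex_fld E U
  obtain ⟨c, hc, hc'⟩ := ord_bound E F
  obtain ⟨ρ, hρ⟩ := ex_ins E U (pr E (pr E n s) c)
  refine ⟨ρ, fun n' _ t _ α _ a => ?_, c, at_iff.2 ((hρ _).2 (Or.inr rfl))⟩
  rcases (hρ _).1 (at_iff.1 a) with a | a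
  · obtain ⟨r, a1, a2⟩ := (hU _).1 a
    obtain ⟨a3, a4⟩ := ((hb' r).1 a1).2 n' trivial t trivial α trivial (at_iff.2 a2)
    refine ⟨a3, fun m' _ d' s' _ x y => ?_⟩
    obtain ⟨β, a5, a6⟩ := a4 m' trivial d' s' trivial x y
    exact ⟨β, a5, at_iff.2 ((hρ _).2 (Or.inl ((hU _).2 ⟨r, a1, at_iff.1 a6⟩)))⟩
  · obtain ⟨a1, rfl⟩ := pr_inj a
    obtain ⟨rfl, rfl⟩ := pr_inj a1
    refine ⟨hc, fun m' _ d' s' _ x y => ?_⟩
    obtain rfl := d.uniq d'
    obtain ⟨r, a2, a3, β, a4⟩ := hb s' ((hA _).2 x) (k s' x y)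
    have a5 := (hU _).2 ⟨r, (hb' r).2 ⟨a2, a3⟩, at_iff.1 a4⟩
    exact ⟨β, hc' β (hF _ _ (app_iff.2 a5)).2 (a3 m trivial s' trivial β trivial a4).1,
      at_iff.2 ((hρ _).2 (Or.inl a5))⟩

theorem tree_main (hC : Choice E) (H h w e : M) : TreeP E Set.univ H h w e := by
  intro _ hw hH he
  have hw := isW_iff.1 hw
  have he : IsEmp E e := fun x hx => he ⟨x, hx⟩
  obtain ⟨T, hT, hT'⟩ := ex_trans E H
  have t : Tr E {x | E x T} := fun x a y b => hT x y a b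
  obtain ⟨X, -, hX⟩ := ex_rel E T T fun _ _ => True
  by_cases c : ∃ ρ, TreeC E Set.univ H h X ρ ∧ ∃ α, At E ρ e e α
  · obtain ⟨ρ, c, α, c'⟩ := c
    refine Or.inr ⟨X, trivial, fun a q k b R k' u u' k'' => ?_, ρ, trivial, c, α, trivial, c'⟩
    have a1 := t.app hT' k
    have a2 := t.opair a1.2 k'
    have a3 := t.app a2.2 k''
    exact ⟨(hX _ _).2 ⟨a1.1, a3.1, trivial⟩, (hX _ _).2 ⟨a2.1, a3.2, trivial⟩⟩
  obtain ⟨A, hA⟩ := ex_pow E X
  obtain ⟨g, g1, g2, g3, g4⟩ := tree_dc hC hw he ((hA e).2 fun x hx => (he x hx).elim)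
    (TreeX E H h) (fun _ _ _ _ _ _ => inferInstance)
    (fun n s => ¬ ∃ ρ, TreeC E Set.univ H h X ρ ∧ ∃ α, At E ρ n s α)
    (fun _ _ _ _ => inferInstance) c fun n s m _ d k => by
      by_contra k'
      exact k (tree_up d fun s' x y => by_contra fun z => k' ⟨s', (hA _).2 x, y, z⟩)
  have mo : ∀ m, E m w → ∀ s', App E g m s' → Fn E s' ∧ ∀ n, E n m → ∀ s, App E g n s →
      Sub E s s' := by
    refine hw.ind (fun m => ∀ s', App E g m s' → Fn E s' ∧ ∀ n, E n m → ∀ s, App E g n s →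
      Sub E s s') ?_ ?_
    · intro e' he' s a
      obtain rfl := he.uniq he'
      obtain rfl := g1 _ _ _ g3 a
      exact ⟨fun _ _ _ ⟨p, _, k⟩ _ => (he p k).elim, fun n k => (he n k).elim⟩
    · intro n m a d ih s' b
      obtain ⟨s, r⟩ := g2 n a
      have x := (g4 n s r).2 m s' d b
      refine ⟨x.1, fun n' k s₀ r' z hz => x.2.1 z ?_⟩
      rcases (d n').1 k with k | rfl
      · exact (ih s r).2 n' k s₀ r' z hz
      · exact g1 _ _ _ r' r ▸ hz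
  obtain ⟨F, hF⟩ := ex_fld E g
  obtain ⟨U, hU⟩ := ex_sUnion E F
  obtain ⟨σ, hσ⟩ := sep E U fun p => ∃ n s, App E g n s ∧ E p s
  have sub : ∀ n s, App E g n s → Sub E s σ := fun n s a p b =>
    (hσ p).2 ⟨(hU p).2 ⟨s, (hF _ _ a).2, b⟩, n, s, a, b⟩
  refine Or.inl ⟨σ, trivial, fun i x y a b => ?_, fun a q k b R k' => ?_⟩
  · obtain ⟨-, n, s, a1, a2⟩ := (hσ _).1 (app_iff.1 a)
    obtain ⟨-, n', s', b1, b2⟩ := (hσ _).1 (app_iff.1 b)
    rcases (hw.ord.mem (g4 n s a1).1).tri (hw.ord.mem (g4 n' s' b1).1) with l | rfl | l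
    · have := mo n' (g4 n' s' b1).1 s' b1
      exact this.1 i x y (app_iff.2 (this.2 n l s a1 _ a2)) (app_iff.2 b2)
    · obtain rfl := g1 _ _ _ a1 b1
      exact (mo n (g4 n s a1).1 s a1).1 i x y (app_iff.2 a2) (app_iff.2 b2)
    · have := mo n (g4 n s a1).1 s a1
      exact this.1 i x y (app_iff.2 a2) (app_iff.2 (this.2 n' l s' b1 _ b2))
  · obtain ⟨n, a1, a2⟩ := hH _ (app_iff.1 k)
    obtain ⟨m, d⟩ := ex_suc E n
    obtain ⟨s, r⟩ := g2 n a1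
    obtain ⟨s', r'⟩ := g2 m (hw.suc d a1)
    obtain ⟨u, b1, u', b2, b3⟩ := ((g4 n s r).2 m s' d r').2.2 _ a2 (app_iff.1 k) a q
      (pr_spec a q) b R k'
    exact ⟨u, b1.mono (sub m s' r'), u', b2.mono (sub m s' r'), b3⟩

theorem Inn.thr {W : Set M} (h : Inn E W) {H σ : M} (hH : H ∈ W) (hc : Ctb E W H)
    (k : Thr E H σ) : ∃ σ' ∈ W, Thr E H σ' := by
  obtain ⟨f, hf, f1, w, hw, w1, w2⟩ := hc
  obtain ⟨e, he⟩ := ex_emp E
  have := h.zf
  have := h.dW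
  have key : TreeP E W H f w e := (UR.res (fun _ E W v => TreeP E W (v 0) (v 1) (v 2) (v 3))
    h.good h.tr fun n => ([⟨H, hH⟩, ⟨f, hf⟩, ⟨w, hw⟩] : List W).getD n ⟨e, h.im.emp he⟩).2
      (tree_main h.ac _ _ _ _)
  refine (key f1 w1 w2 fun ⟨x, hx⟩ => he x hx).resolve_right ?_
  rintro ⟨X, -, hX, ρ, hρ, c, α, hα, c'⟩
  have ho := (c e (h.im.emp he) e (h.im.emp he) α hα c').1
  refine ord_ind (fun α => ∀ n ∈ W, ∀ s ∈ W, Sub E s σ → Sub E s X → ¬ At E ρ n s α) ?_ α ho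
    e (h.im.emp he) e (h.im.emp he) (fun x hx => (he x hx).elim) (fun x hx => (he x hx).elim) c'
  intro α ho ih n hn s hs s1 s2 a
  obtain ⟨m, d⟩ := ex_suc E n
  have hm := h.im.ins hn hn d
  have fn : ∀ s', Sub E s' σ → Fn E s' := fun s' x i y z p q => k.1 i y z (p.mono x) (q.mono x)
  obtain ⟨s', hs', s3, s4, x⟩ : ∃ s' ∈ W, Sub E s' σ ∧ Sub E s' X ∧ TreeX E H f n s s' := by
    by_cases l : ∃ t, App E f n t ∧ E t H ∧ ∃ a q, IsOPair E t a q ∧ ∃ b R, IsOPair E q b R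
    · obtain ⟨t, l1, l2, a, q, l3, b, R, l4⟩ := l
      obtain ⟨u, u1, u', u2, u3⟩ := k.2 a q ⟨t, l3, l2⟩ b R l4
      obtain ⟨x1, x2⟩ := hX a q ⟨t, l3, l2⟩ b R l4 u u' u3
      have a1 := h.tr.opair (h.tr _ hH _ l2) l3
      have a2 := h.tr.opair a1.2 l4
      have a3 := h.tr.app a2.2 u3
      obtain ⟨y, hy⟩ := ex_ins E s (MP_75a307_lc.pr E a u)
      obtain ⟨z, hz⟩ := ex_ins E y (MP_75a307_lc.pr E b u')
      have sb : ∀ Y, Sub E s Y → App E Y a u → App E Y b u' → Sub E z Y := fun Y p1 p2 p3 x hx => by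
        rcases (hz x).1 hx with hx | rfl
        · rcases (hy x).1 hx with hx | rfl
          exacts [p1 x hx, app_iff.1 p2]
        · exact app_iff.1 p3
      refine ⟨z, h.im.ins (h.im.ins hs (h.pr.2 ⟨a1.1, a3.1⟩) hy) (h.pr.2 ⟨a2.1, a3.2⟩) hz,
        sb σ s1 u1 u2, sb X s2 x1 x2, fn z (sb σ s1 u1 u2),
        fun x hx => (hz x).2 (Or.inl ((hy x).2 (Or.inl hx))), fun t' m1 _ a' q' m2 b' R' m3 => ?_⟩
      obtain rfl := f1 _ _ _ l1 m1
      obtain ⟨rfl, rfl⟩ := l3.inj m2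
      obtain ⟨rfl, rfl⟩ := l4.inj m3
      exact ⟨u, app_iff.2 ((hz _).2 (Or.inl ((hy _).2 (Or.inr rfl)))), u',
        app_iff.2 ((hz _).2 (Or.inr rfl)), u3⟩
    · exact ⟨s, hs, s1, s2, fn s s1, fun _ hx => hx, fun t m1 m0 a q m2 b R m3 =>
        (l ⟨t, m1, m0, a, q, m2, b, R, m3⟩).elim⟩
  obtain ⟨β, b1, b2⟩ := (c n hn s hs α (h.ord ho) a).2 m hm d s' hs' s4 x
  exact ih β b1 m hm s' hs' s3 s4 b2

theorem Real.cc (hC : Choice E) {K N : M} {T : M → M → M → Prop} {j : M → M} {W : Set M}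
    {sd : M → M} (h : Real E K N T j W sd)
    (rel : ∀ a b R, T a b R → E a N ∧ E b N ∧ Rel E K R) : CC E Set.univ T := by
  intro H _ hc hT
  have el := h.el
  have := el.fj
  have := f1 h.dsd
  have hc' := (el.tr1 (fun W H => Ctb E W H) H).1 hc
  obtain ⟨f, -, f1, w, -, w1, w2⟩ := hc
  have hw := isW_iff.1 w1
  have jw : j w = w := (isW_iff.1 ((el.tr1 (fun _ w => IsW E w) w).1 w1)).uniq hw
  have jn : ∀ n, E n w → j n = n := by
    refine hw.ind (fun n => j n = n) (fun e he => IsEmp.uniq (fun x hx => ?_) he) fun n s _ d ih => ?_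
    · obtain ⟨y, hy⟩ := (el.tr1 (fun _ e => ∃ x, E x e) e).2 ⟨x, hx⟩
      exact he y hy
    · have := (el.tr2 (fun _ s n => IsSuc E s n) s n).1 d
      rw [ih] at this
      exact this.uniq d
  have im : ∀ t', E t' (j H) → ∃ t, E t H ∧ t' = j t := fun t' ht => by
    obtain ⟨n, a, b⟩ := (el.tr3 (fun _ H w f => ∀ t, E t H → ∃ n, E n w ∧ App E f n t) H w f).1
      w2 t' ht
    rw [jw] at a
    rw [← jn n a] at b
    obtain ⟨t, c, d⟩ := (el.tr3 (fun _ H f n => ∃ t, App E f n t ∧ E t H) H f n).2 ⟨t', b, ht⟩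
    exact ⟨t, d, el.fn f1 _ _ _ b (el.app_iff.2 c)⟩
  obtain ⟨τ, hτ⟩ := repl E N (fun a p => p = pr E (j a) (sd a)) fun _ _ _ _ a b => a.trans b.symm
  have k : Thr E (j H) τ := by
    refine ⟨fun i x y a b => ?_, fun a' q' a b' R' b => ?_⟩
    · obtain ⟨c, -, c'⟩ := (hτ _).1 (app_iff.1 a)
      obtain ⟨d, -, d'⟩ := (hτ _).1 (app_iff.1 b)
      obtain ⟨rfl, rfl⟩ := pr_inj c'
      obtain ⟨e, rfl⟩ := pr_inj d'
      rw [el.inj.1 e]
    · obtain ⟨t, c, c'⟩ := im _ (app_iff.1 a)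
      clear a
      obtain ⟨a, q, d1, b₀, R, d2, d3⟩ := hT t c
      have e1 := (el.tr3 (fun _ t a q => IsOPair E t a q) t a q).1 d1
      have e2 := (el.tr3 (fun _ t a q => IsOPair E t a q) q b₀ R).1 d2
      obtain ⟨r1, r2, r3⟩ := rel a b₀ R d3
      obtain ⟨rfl, rfl⟩ := (pr_spec a' q').inj (c' ▸ e1)
      obtain ⟨rfl, rfl⟩ := b.inj e2
      exact ⟨_, app_iff.2 ((hτ _).2 ⟨a, r1, rfl⟩), _, app_iff.2 ((hτ _).2 ⟨b₀, r2, rfl⟩),
        (h.iff a b₀ R r1 r2 r3).1 d3⟩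
  exact (el.tr1 (fun W H => ∃ σ ∈ W, Thr E H σ) H).2 ((el.inn hC).thr (el.maps H) hc' k)

theorem Real.ultra {K N : M} {T : M → M → M → Prop} {j : M → M} {W : Set M}
    {sd : M → M} (h : Real E K N T j W sd) : Ultra E Set.univ K N T := fun a ha b hb R _ R' _ r r' k =>
  ((h.el.tr3 (fun _ K R R' => ∀ s, E s K → ∀ t, E t K → App E R s t ∨ App E R' s t) K R R').1 k
    _ (h.mem a ha) _ (h.mem b hb)).imp (h.iff a b R ha hb r).2 (h.iff a b R' ha hb r').2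

end Pool.Agent.Lib.MP_75a307_lc.LE
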