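import Pool.Agent.Lib.MP_75a307_lc.LE.Defs
import Pool.Agent.Lib.MP_75a307_lc.Der
import Pool.Agent.Lib.MP_1d770b_lc.Cond

/-! Properties expressed by one formula in all transitive classes of all models. -/

set_option synthInstance.maxSize 100000
set_option linter.unusedVariables false
set_option linter.unusedSectionVars false

namespace Pool.Agent.Lib.MP_75a307_lc.LE

open Pool.Agent.Lib.MP_1d770b_lc

universe u

abbrev UP := ∀ (M : Type u) (_ : M → M → Prop), Set M → (ℕ → M) → Prop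

class UR (P : UP.{u}) : Prop where
  out : ∃ φ, ∀ (M : Type u) (E : M → M → Prop), ZF E → ∀ W, Good E W → Tr E W →
    ∀ v : ℕ → M, (∀ i, v i ∈ W) → (SatW E W φ v ↔ P M E W v)

theorem UR.congr {P Q : UP.{u}} [h : UR P]
    (e : ∀ (M : Type u) (E : M → M → Prop), ZF E → ∀ W, Good E W → Tr E W → ∀ v : ℕ → M,
      (∀ i, v i ∈ W) → (P M E W v ↔ Q M E W v)) : UR Q := by
  obtain ⟨φ, hφ⟩ := h.out
  exact ⟨φ, fun M E z W g t v hv => (hφ M E z W g t v hv).trans (e M E z W g t v hv)⟩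

theorem UR.rd {P : UP.{u}} (h : UR P) {M : Type u} {E : M → M → Prop} [z : ZF E] :
    RD E (Good E) (P M E) :=
  let ⟨φ, hφ⟩ := h.out; ⟨φ, hφ M E z⟩

instance UR.mem (i j : ℕ) : UR.{u} fun _ E _ v => E (v i) (v j) :=
  ⟨.mem i j, fun _ _ _ _ _ _ _ _ => Iff.rfl⟩
instance UR.eq (i j : ℕ) : UR.{u} fun _ E _ v => v i = v j := ⟨.eq i j, fun _ _ _ _ _ _ _ _ => Iff.rfl⟩

section
variable {P Q : UP.{u}} {R : ∀ (M : Type u) (_ : M → M → Prop), Set M → M → (ℕ → M) → Prop}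
  {S : ∀ (M : Type u) (_ : M → M → Prop), Set M → M → M → (ℕ → M) → Prop}

instance UR.not [h : UR P] : UR.{u} fun M E W v => ¬ P M E W v := by
  obtain ⟨φ, hφ⟩ := h.out
  exact ⟨.neg φ, fun M E z W g t v hv => not_congr (hφ M E z W g t v hv)⟩

instance UR.and [h : UR P] [k : UR Q] : UR.{u} fun M E W v => P M E W v ∧ Q M E W v := by
  obtain ⟨φ, hφ⟩ := h.out
  obtain ⟨ψ, hψ⟩ := k.out
  exact ⟨.and φ ψ, fun M E z W g t v hv => and_congr (hφ M E z W g t v hv) (hψ M E z W g t v hv)⟩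

instance UR.ex [h : UR.{u} fun M E W v => R M E W (v 0) fun n => v (n + 1)] :
    UR.{u} fun M E W v => ∃ x ∈ W, R M E W x v := by
  obtain ⟨φ, hφ⟩ := h.out
  refine ⟨.ex φ, fun M E z W g t v hv => exists_congr fun x => and_congr_right fun hx => ?_⟩
  exact hφ M E z W g t (scons x v) (fun i => by cases i; exacts [hx, hv _])

instance UR.ne (i j : ℕ) : UR.{u} fun _ E _ v => v i ≠ v j :=
  inferInstanceAs (UR.{u} fun _ E _ v => ¬ v i = v j)

instance UR.or [UR P] [UR Q] : UR.{u} fun M E W v => P M E W v ∨ Q M E W v :=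
  UR.congr (P := fun M E W v => ¬ (¬ P M E W v ∧ ¬ Q M E W v)) fun _ _ _ _ _ _ _ _ => by tauto

instance UR.imp [UR P] [UR Q] : UR.{u} fun M E W v => P M E W v → Q M E W v :=
  UR.congr (P := fun M E W v => ¬ (P M E W v ∧ ¬ Q M E W v)) fun _ _ _ _ _ _ _ _ => by tauto

instance UR.iff [UR P] [UR Q] : UR.{u} fun M E W v => P M E W v ↔ Q M E W v :=
  UR.congr (P := fun M E W v => (P M E W v → Q M E W v) ∧ (Q M E W v → P M E W v)) fun _ _ _ _ _ _ _ _ => iff_def.symm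

instance UR.all [UR.{u} fun M E W v => R M E W (v 0) fun n => v (n + 1)] :
    UR.{u} fun M E W v => ∀ x ∈ W, R M E W x v :=
  UR.congr (P := fun M E W v => ¬ ∃ x ∈ W, ¬ R M E W x v) fun _ _ _ _ _ _ _ _ => by push Not; rfl

instance UR.ball (i : ℕ) [UR.{u} fun M E W v => R M E W (v 0) fun n => v (n + 1)] :
    UR.{u} fun M E W v => ∀ x, E x (v i) → R M E W x v :=
  UR.congr (P := fun M E W v => ∀ x ∈ W, E x (v i) → R M E W x v) fun _ _ _ _ _ t _ hv =>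
    ⟨fun h x hx => h x (t _ (hv i) _ hx) hx, fun h x _ hx => h x hx⟩

instance UR.bex (i : ℕ) [UR.{u} fun M E W v => R M E W (v 0) fun n => v (n + 1)] :
    UR.{u} fun M E W v => ∃ x, E x (v i) ∧ R M E W x v :=
  UR.congr (P := fun M E W v => ∃ x ∈ W, E x (v i) ∧ R M E W x v) fun _ _ _ _ _ t _ hv =>
    ⟨fun ⟨x, _, h⟩ => ⟨x, h⟩, fun ⟨x, h⟩ => ⟨x, t _ (hv i) _ h.1, h⟩⟩

instance UR.nonempty (i : ℕ) : UR.{u} fun M E W v => ∃ x, E x (v i) :=
  UR.congr (P := fun M E W v => ∃ x, E x (v i) ∧ x = x) fun _ _ _ _ _ t _ hv => by simp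

instance UR.sub (i j : ℕ) : UR.{u} fun _ E _ v => Sub E (v i) (v j) := by
  unfold MP_1d770b_lc.Sub; infer_instance
instance UR.incl (i j : ℕ) : UR.{u} fun _ E _ v => Incl E (v i) (v j) := by unfold Incl; infer_instance
instance UR.le (i j : ℕ) : UR.{u} fun _ E _ v => Le E (v i) (v j) := by unfold Le; infer_instance

instance UR.upair (i j k : ℕ) : UR.{u} fun _ E _ v => IsUPair E (v i) (v j) (v k) :=
  UR.congr (P := fun _ E _ v => E (v j) (v i) ∧ E (v k) (v i) ∧ ∀ x, E x (v i) → x = v j ∨ x = v k)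
    fun _ _ _ _ _ _ v _ => ⟨fun h x => ⟨h.2.2 x, fun e => e.elim (fun e => e ▸ h.1) fun e => e ▸ h.2.1⟩,
      fun h => ⟨(h _).2 (Or.inl rfl), (h _).2 (Or.inr rfl), fun x => (h x).1⟩⟩

instance UR.suc (i j : ℕ) : UR.{u} fun _ E _ v => IsSuc E (v i) (v j) :=
  UR.congr (P := fun _ E _ v => Sub E (v j) (v i) ∧ E (v j) (v i) ∧
      ∀ x, E x (v i) → E x (v j) ∨ x = v j)
    fun _ _ _ _ _ _ v _ => ⟨fun h x => ⟨h.2.2 x, fun e => e.elim (h.1 x) fun e => e ▸ h.2.1⟩,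
      fun h => ⟨fun x hx => h.of_mem hx, h.self, fun x => (h x).1⟩⟩

instance UR.opair (i j k : ℕ) : UR.{u} fun _ E _ v => IsOPair E (v i) (v j) (v k) :=
  UR.congr (P := fun _ E _ v => ∃ s, E s (v i) ∧ ∃ t, E t (v i) ∧ IsUPair E s (v j) (v j) ∧
      IsUPair E t (v j) (v k) ∧ IsUPair E (v i) s t)
    fun _ _ _ _ _ _ v _ => ⟨fun ⟨s, _, t, _, h⟩ => ⟨s, t, h⟩, fun ⟨s, t, h⟩ =>
      ⟨s, (h.2.2 s).2 (Or.inl rfl), t, (h.2.2 t).2 (Or.inr rfl), h⟩⟩

instance UR.app (i j k : ℕ) : UR.{u} fun _ E _ v => App E (v i) (v j) (v k) :=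
  UR.congr (P := fun _ E _ v => ∃ p, E p (v i) ∧ IsOPair E p (v j) (v k))
    fun _ _ _ _ _ _ v _ => exists_congr fun _ => and_comm

instance UR.exval (i k : ℕ) [UR.{u} fun M E W v => R M E W (v 0) fun n => v (n + 1)] :
    UR.{u} fun M E W v => ∃ y, App E (v k) (v i) y ∧ R M E W y v :=
  UR.congr (P := fun M E W v => ∃ y ∈ W, App E (v k) (v i) y ∧ R M E W y v) fun _ _ _ _ _ t _ hv =>
    ⟨fun ⟨x, _, h⟩ => ⟨x, h⟩, fun ⟨x, h⟩ => ⟨x, (t.app (hv k) h.1).2, h⟩⟩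

instance UR.dom (i k : ℕ) : UR.{u} fun M E W v => ∃ y, App E (v k) (v i) y :=
  UR.congr (P := fun M E W v => ∃ y, App E (v k) (v i) y ∧ y = y) fun _ _ _ _ _ t _ hv => by simp

instance UR.exinv (i k : ℕ) [UR.{u} fun M E W v => R M E W (v 0) fun n => v (n + 1)] :
    UR.{u} fun M E W v => ∃ x, App E (v k) x (v i) ∧ R M E W x v :=
  UR.congr (P := fun M E W v => ∃ x ∈ W, App E (v k) x (v i) ∧ R M E W x v) fun _ _ _ _ _ t _ hv =>
    ⟨fun ⟨x, _, h⟩ => ⟨x, h⟩, fun ⟨x, h⟩ => ⟨x, (t.app (hv k) h.1).1, h⟩⟩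

instance UR.ran (i k : ℕ) : UR.{u} fun M E W v => ∃ x, App E (v k) x (v i) :=
  UR.congr (P := fun M E W v => ∃ x, App E (v k) x (v i) ∧ x = x) fun _ _ _ _ _ t _ hv => by simp

instance UR.allval (i k : ℕ) [UR.{u} fun M E W v => R M E W (v 0) fun n => v (n + 1)] :
    UR.{u} fun M E W v => ∀ y, App E (v k) (v i) y → R M E W y v :=
  UR.congr (P := fun M E W v => ∀ y ∈ W, App E (v k) (v i) y → R M E W y v) fun _ _ _ _ _ t _ hv =>
    ⟨fun h x hx => h x (t.app (hv k) hx).2 hx, fun h x _ hx => h x hx⟩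

instance UR.allpair (k : ℕ) [UR.{u} fun M E W v => S M E W (v 1) (v 0) fun n => v (n + 1 + 1)] :
    UR.{u} fun M E W v => ∀ x y, App E (v k) x y → S M E W x y v :=
  UR.congr (P := fun M E W v => ∀ x ∈ W, ∀ y, App E (v k) x y → S M E W x y v) fun _ _ _ _ _ t _ hv =>
    ⟨fun h x y hx => h x (t.app (hv k) hx).1 y hx, fun h x _ y hx => h x y hx⟩

instance UR.expair (k : ℕ) [UR.{u} fun M E W v => S M E W (v 1) (v 0) fun n => v (n + 1 + 1)] :
    UR.{u} fun M E W v => ∃ x y, IsOPair E (v k) x y ∧ S M E W x y v :=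
  UR.congr (P := fun M E W v => ∃ x ∈ W, ∃ y ∈ W, IsOPair E (v k) x y ∧ S M E W x y v) fun _ _ _ _ _ t v hv =>
    ⟨fun ⟨x, _, y, _, h⟩ => ⟨x, y, h⟩, fun ⟨x, y, h⟩ =>
      ⟨x, (t.opair (hv k) h.1).1, y, (t.opair (hv k) h.1).2, h⟩⟩
end

instance UR.ord (i : ℕ) : UR.{u} fun _ E _ v => IsOrd E (v i) :=
  UR.congr (P := fun _ E _ v => (∀ x, E x (v i) → ∀ y, E y x → E y (v i)) ∧
      ∀ x, E x (v i) → ∀ y, E y (v i) → (E x y ∨ x = y ∨ E y x)) fun _ _ _ _ _ _ v _ =>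
    ⟨fun h => ⟨fun x y a b => h.1 x a y b, fun x y a b => h.2 x a y b⟩,
      fun h => ⟨fun x a y b => h.1 x y a b, fun x a y b => h.2 x y a b⟩⟩

instance UR.lim (i : ℕ) : UR.{u} fun _ E _ v => Lim E (v i) := by unfold Lim; infer_instance

instance UR.fn (i : ℕ) : UR.{u} fun _ E _ v => Fn E (v i) :=
  UR.congr (P := fun _ E _ v => ∀ x y, App E (v i) x y → ∀ z, App E (v i) x z → y = z) fun _ _ _ _ _ _ v _ =>
    ⟨fun h x y z a b => h x y a z b, fun h x y a z b => h x y z a b⟩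

instance UR.oneOne (i : ℕ) : UR.{u} fun _ E _ v => OneOne E (v i) :=
  UR.congr (P := fun _ E _ v => ∀ x y, App E (v i) x y → ∀ x' y', App E (v i) x' y' → y = y' → x = x')
    fun _ _ _ _ _ _ v _ =>
    ⟨fun h x x' y a b => h x y a x' y b rfl, fun h x y a x' y' b e => h x x' y a (e ▸ b)⟩

instance UR.func (i j k : ℕ) : UR.{u} fun _ E _ v => Func E (v i) (v j) (v k) :=
  UR.congr (P := fun _ E _ v => ((∀ p, E p (v i) → ∃ a b, IsOPair E p a b ∧ E a (v j) ∧ E b (v k)) ∧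
      Fn E (v i)) ∧ ∀ x, E x (v j) → ∃ y, App E (v i) x y) fun _ _ _ _ _ _ v _ =>
    and_congr_left fun _ => and_congr_left fun _ => forall₂_congr fun _ _ =>
      exists₂_congr fun _ _ => by tauto

instance UR.reg (i : ℕ) : UR.{u} fun M E W v => Reg E W (v i) := by unfold Reg; infer_instance

theorem UR.ren {P : UP.{u}} (h : UR P) (ρ : ℕ → ℕ) :
    UR.{u} fun M E W v => P M E W fun n => v (ρ n) := by
  obtain ⟨φ, hφ⟩ := h.out
  refine ⟨φ.ren ρ, fun M E z W g t v hv => Iff.trans ?_ (hφ M E z W g t _ fun i => hv _)⟩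
  exact (satW_res (φ.ren ρ) fun i => ⟨v i, hv i⟩).trans ((sat_ren φ ρ _).trans
    (satW_res φ fun i => ⟨v (ρ i), hv _⟩).symm)

instance UR.satW (φ : Fm) (i : ℕ) : UR.{u} fun _ E W v => SatW E W φ fun _ => v i :=
  UR.ren (P := fun _ E W v => SatW E W φ v) ⟨φ, fun _ _ _ _ _ _ _ _ => Iff.rfl⟩ fun _ => i

instance UR.rk (i j : ℕ) : UR.{u} fun _ E _ v => Rk E (v i) (v j) := by
  have h : UR.{u} fun _ E W v => RkW E W (v i) (v j) := by unfold RkW; infer_instance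
  refine UR.congr (P := fun _ E W v => RkW E W (v i) (v j)) fun M E z W g t v hv => ?_
  refine ⟨RkW.rk, fun h => ?_⟩
  have := g.1
  have hd : Df E fun w => w 0 ∈ W → ∀ x ∈ W, Rk E x (w 0) → RkW E W x (w 0) := by
    unfold RkW; infer_instance
  refine ord_ind (fun α => α ∈ W → ∀ x ∈ W, Rk E x α → RkW E W x α) ?_ _ h.ord (hv j) _ (hv i) h
  intro α ho ih hα x hx h
  obtain ⟨c, hc, H⟩ := h.elim
  have hcW := t _ hα _ hc
  exact g.2 x hx c hcW (fun z hz => ih c hc hcW z (t _ hx _ hz) (H z hz)) (ho.mem hc) α hα ho hc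

instance UR.inacc (i : ℕ) : UR.{u} fun _ E W v => Inacc E W (v i) :=
  UR.congr (P := fun _ E W v => IsOrd E (v i) ∧ (∃ y, E y (v i) ∧ Lim E y ∧ ∃ z, E z y) ∧
    Reg E W (v i) ∧ ∀ α, E α (v i) → ∀ p ∈ W, (∀ x ∈ W, E x p ↔ Incl E x α) →
      ∃ β, E β (v i) ∧ ∃ f ∈ W, Func E f p β ∧ OneOne E f) fun _ _ _ _ _ _ v _ =>
    and_congr_right fun h => and_congr_left fun _ => (omega_lt h).symm

instance UR.star (i j : ℕ) : UR.{u} fun _ E W v => Star E W (v i) (v j) := by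
  unfold Star; infer_instance

variable {M N : Type u} {E : M → M → Prop} {E' : N → N → Prop}

theorem satW_img (j : N → M) [hj : Emb j E' E] (W : Set N) (φ : Fm) :
    ∀ v : ℕ → N, SatW E (j '' W) φ (fun i => j (v i)) ↔ SatW E' W φ v := by
  induction φ with
  | mem i k => intro v; exact (hj.mem _ _).symm
  | eq i k => intro v; exact ⟨hj.inj _ _, congrArg j⟩
  | neg φ ih => intro v; simp only [SatW, ih]
  | and φ ψ ih1 ih2 => intro v; simp only [SatW, ih1, ih2]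
  | ex φ ih =>
    intro v
    simp only [SatW]
    constructor
    · rintro ⟨_, ⟨b, hb, rfl⟩, h⟩
      exact ⟨b, hb, (ih _).1 (by rwa [comp_scons])⟩
    · rintro ⟨b, hb, h⟩
      exact ⟨j b, ⟨b, hb, rfl⟩, by rw [← comp_scons]; exact (ih _).2 h⟩

/-- A uniform property read in the class `W` is the property read in the model `(W, E)`. -/
theorem UR.res (P : UP.{u}) [h : UR P] [z : ZF E] {W : Set M} [z' : ZF (Res E W)]
    (g : Good E W) (t : Tr E W) (v : ℕ → W) :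
    P M E W (fun i => (v i).1) ↔ P W (Res E W) Set.univ v := by
  obtain ⟨φ, hφ⟩ := h.out
  rw [← hφ M E z W g t _ fun i => (v i).2, ← hφ W _ z' _ good_univ tr_univ v fun _ => trivial,
    satW_univ, satW_res]

end Pool.Agent.Lib.MP_75a307_lc.LE
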